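import Pool.Agent.J4.H69.SBd

/-!
# The function `μ(t) ∑_{a ∣ t} log N(a)` in almost all very narrow sectors
-/

set_option autoImplicit false

namespace Pool.Agent.J4.H69

open Finset Filter Topology
open Pool.Agent.N782.GN
open Pool.Agent.N855.GN
open Pool.Agent.N277.GN (ct_nat_mul abs_be_le card_bl)
open Pool.Agent.H304R3.HK (UH bb LamK CS)

/-- the coefficients: `μ(t) ∑_{a ∣ t} log N(a)` for primitive `t`, normalised -/
noncomputable def bet (M A1 A2 : ℝ) (t : ZI) : ℝ := by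
  classical
  exact if nz t ≤ 2 * M ^ 2 then be 1 t * om A1 A2 t / (12 * Real.log M) else 0

theorem ct_zero : ct (0 : ZI) ≠ 1 := by
  unfold ct
  simp

theorem bet_abs (hm : S_MUB) {M : ℝ} (hM : 3 ≤ M) (A1 A2 : ℝ) (t : ZI) : |bet M A1 A2 t| ≤ 1 := by
  have hy := one_le_log hM
  unfold bet
  split_ifs with h
  · by_cases ht : t = 0
    · rw [ht, be_ct ct_zero]
      simp
    · have h1 := om_le hm A1 A2 ht
      have h2 := om_nonneg A1 A2 t
      have h3 : Real.log (nz t) ≤ 3 * Real.log M := by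
        have e1 := Real.log_le_log (nz_pos ht) h
        have e2 : Real.log (2 * M ^ 2) ≤ Real.log (M ^ 3) := by
          apply Real.log_le_log (by positivity)
          nlinarith [sq_nonneg M]
        rw [Real.log_pow] at e2
        push_cast at e2
        linarith
      rw [abs_div, abs_mul, abs_of_nonneg h2, abs_of_pos (show 0 < 12 * Real.log M by positivity),
        div_le_one (by positivity)]
      calc |be 1 t| * om A1 A2 t ≤ 1 * om A1 A2 t := mul_le_mul_of_nonneg_right (abs_be_le 1 t) h2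
        _ ≤ 12 * Real.log M := by linarith
  · simp

theorem bet_ct {M A1 A2 : ℝ} {t : ZI} (h : ct t ≠ 1) : bet M A1 A2 t = 0 := by
  unfold bet
  rw [be_ct h]
  simp

/-- the hypothesis: the bound for the frequencies -/
def S_core (τ : ℝ) : Prop := ∀ A B : ℕ, ∀ᶠ M : ℝ in atTop,
    ∀ (V Y1 Y2 : ℝ) (K q : ℕ) (r : ZI), M ^ (4 * τ) ≤ V → V ≤ 4 * M → 1 ≤ K → (K : ℝ) ≤ V / M ^ (5 * τ / 4) →
      1 ≤ q → (q : ℝ) ≤ (Real.log M) ^ B → 0 ≤ Y1 → Y1 ≤ Y2 → Y2 ≤ V →
      ∑ k ∈ Icc (-(K : ℤ)) K, ‖Fk q r Y1 Y2 (M ^ τ) (M ^ (5 * τ / 4)) k‖ ^ 2 ≤ V ^ 2 / (Real.log M) ^ A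

open Classical in
/-- **the narrow sectors** -/
theorem sb (hm : S_MUB) (hft : S_FT) {ε τ : ℝ} (hτ : 0 < τ) (hτε : τ ≤ ε / 8) (hε1 : ε ≤ 1)
    (hc : S_core τ) (A B : ℕ) : ∀ᶠ M : ℝ in atTop, ∀ (L R : ℝ), 0 < L → L ≤ M ^ (1 - ε) →
      M / L * M ^ ε ≤ R ^ 2 → R ^ 2 ≤ M →
      ∀ (q : ℕ) (r : ZI) (Y1 Y2 : ℝ), 1 ≤ q → (q : ℝ) ≤ (Real.log M) ^ B → 0 ≤ Y1 → Y1 ≤ Y2 → Y2 ≤ 4 * R ^ 2 →
      ∫ x in (0 : ℝ)..(2 * Real.pi), (∑ t ∈ (cls q r Y2).filter (fun t => Y1 < nz t),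
        bet M (M ^ τ) (M ^ (5 * τ / 4)) t * sc (L / M / (Real.log M) ^ B) x t) ^ 2 ≤
        (L / M) ^ 2 * R ^ 4 / (Real.log M) ^ A := by
  obtain ⟨C, D, hC, hft⟩ := hft
  have hε : 0 < ε := by linarith
  set G : ℕ := D + A + 1 with hG
  have d1 := hc (A + 1) B
  have d2 : ∀ᶠ M : ℝ in atTop, max (32 * C) (64 * C * 2 ^ D) ≤ Real.log M := Real.tendsto_log_atTop.eventually_ge_atTop _
  have d3 := logpow (B + G) (show (0 : ℝ) < ε / 2 by positivity) one_pos
  have d4 := logpow B hε one_pos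
  filter_upwards [d1, d2, d3, d4, eventually_ge_atTop 8] with M d1 d2 d3 d4 hM8
  intro L R hL hLM hRl hRM q r Y1 Y2 hq hqB hY1 hY12 hY2
  have hM0 : 0 < M := by linarith
  have hM1 : 1 ≤ M := by linarith
  set y := Real.log M with hy
  have hy1 : 1 ≤ y := one_le_log (by linarith)
  have hy0 : 0 < y := by linarith
  have d2a : 32 * C ≤ y := (le_max_left _ _).trans d2
  have d2b : 64 * C * 2 ^ D ≤ y := (le_max_right _ _).trans d2
  rw [one_mul] at d3 d4
  have hML : M ^ ε ≤ M / L := by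
    rw [le_div_iff₀ hL]
    calc M ^ ε * L ≤ M ^ ε * M ^ (1 - ε) := by gcongr
      _ = M := by
          rw [← Real.rpow_add hM0]
          simp
  have hMe : 1 ≤ M ^ ε := Real.one_le_rpow hM1 hε.le
  set V := 4 * R ^ 2 with hV
  have hR2 : M ^ ε * M ^ ε ≤ R ^ 2 := le_trans (mul_le_mul_of_nonneg_right hML (by linarith)) hRl
  have hR21 : 1 ≤ R ^ 2 := by nlinarith
  have hV0 : 0 < V := by positivity
  have hV4 : M ^ (4 * τ) ≤ V := by
    have e1 : M ^ (4 * τ) ≤ M ^ ε := Real.rpow_le_rpow_of_exponent_le hM1 (by linarith)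
    nlinarith
  have hVM : V ≤ 4 * M := by linarith
  set δ := L / M / y ^ B with hδ
  have hδ0 : 0 < δ := by positivity
  have hyB : 1 ≤ y ^ B := one_le_pow₀ hy1
  have hLM1 : L / M ≤ 1 := by
    rw [div_le_one hM0]
    refine hLM.trans ?_
    calc M ^ (1 - ε) ≤ M ^ (1 : ℝ) := Real.rpow_le_rpow_of_exponent_le hM1 (by linarith)
      _ = M := Real.rpow_one M
  have hδLM : δ ≤ L / M := div_le_self (by positivity) hyB
  have hδ1 : δ ≤ 1 := hδLM.trans hLM1
  -- the number of frequencies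
  set K : ℕ := ⌈δ⁻¹ * y ^ G⌉₊ with hK
  have hK1 : δ⁻¹ * y ^ G ≤ K := Nat.le_ceil _
  have hδi : 1 ≤ δ⁻¹ := (one_le_inv₀ hδ0).2 hδ1
  have hyG : 1 ≤ y ^ G := one_le_pow₀ hy1
  have hK2 : 1 ≤ δ⁻¹ * y ^ G := one_le_mul_of_one_le_of_one_le hδi hyG
  have hK3 : (K : ℝ) ≤ 2 * (δ⁻¹ * y ^ G) := by
    have := Nat.ceil_lt_add_one (show 0 ≤ δ⁻¹ * y ^ G by positivity)
    linarith
  have hKpos : (0 : ℝ) < K := by linarith
  have hK4 : 1 ≤ K := by
    have : (1 : ℝ) ≤ K := by linarith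
    exact_mod_cast this
  have hKV : (K : ℝ) ≤ V / M ^ (5 * τ / 4) := by
    rw [le_div_iff₀ (by positivity)]
    have e1 : δ⁻¹ = M / L * y ^ B := by
      rw [hδ]
      field_simp
    have e2 : y ^ (B + G) * M ^ (5 * τ / 4) ≤ M ^ ε := by
      calc y ^ (B + G) * M ^ (5 * τ / 4) ≤ M ^ (ε / 2) * M ^ (ε / 2) := by
            apply mul_le_mul d3 _ (by positivity) (by positivity)
            exact Real.rpow_le_rpow_of_exponent_le hM1 (by linarith)
        _ = M ^ ε := by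
            rw [← Real.rpow_add hM0]
            congr 1
            ring
    calc (K : ℝ) * M ^ (5 * τ / 4) ≤ 2 * (M / L * y ^ B * y ^ G) * M ^ (5 * τ / 4) := by
          rw [← e1]
          gcongr
      _ = 2 * (M / L) * (y ^ (B + G) * M ^ (5 * τ / 4)) := by rw [pow_add]; ring
      _ ≤ 2 * (M / L) * M ^ ε := by gcongr
      _ = 2 * (M / L * M ^ ε) := by ring
      _ ≤ 2 * R ^ 2 := by gcongr
      _ ≤ V := by rw [hV]; linarith
  have key := d1 V Y1 Y2 K q r hV4 hVM hK4 hKV hq hqB hY1 hY12 hY2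
  -- the coefficients
  set A1 := M ^ τ with hA1
  set A2 := M ^ (5 * τ / 4) with hA2
  set c : ZI → ℝ := fun t => bet M A1 A2 t * chi q r Y1 Y2 t with hcdef
  have hc1 : ∀ t, |c t| ≤ (dv t : ℝ) ^ 2 := by
    intro t
    by_cases ht : t = 0
    · rw [hcdef]
      simp only
      rw [ht, bet_ct ct_zero, zero_mul, abs_zero]
      positivity
    · have h1 : (1 : ℝ) ≤ dv t := by exact_mod_cast dv_one_le ht
      have h2 : |c t| ≤ 1 := by
        rw [hcdef]
        simp only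
        rw [abs_mul]
        have h3 := bet_abs hm (show 3 ≤ M by linarith) A1 A2 t
        have h4 : |chi q r Y1 Y2 t| ≤ 1 := by
          unfold chi
          split_ifs <;> simp
        exact mul_le_one₀ h3 (abs_nonneg _) h4
      nlinarith
  have hI : ∀ x : ℝ, ∑ t ∈ (cls q r Y2).filter (fun t => Y1 < nz t), bet M A1 A2 t * sc δ x t =
      ∑ t ∈ bl V, c t * sc δ x t := by
    intro x
    have e1 : (cls q r Y2).filter (fun t => Y1 < nz t) = SA q r Y1 Y2 := rfl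
    rw [e1, ← sum_subset (SA_sub hY2) (f := fun t => c t * sc δ x t)]
    · refine sum_congr rfl fun t ht => ?_
      rw [hcdef]
      simp only
      unfold chi
      rw [if_pos ht, mul_one]
    · intro t _ ht
      rw [hcdef]
      simp only
      unfold chi
      rw [if_neg ht, mul_zero, zero_mul]
  simp only [hI]
  refine (hft V δ K c (by linarith) hδ0 hδ1 hK4 hc1).trans ?_
  have hF : ∀ k : ℤ, ∑ t ∈ bl V, (c t : ℂ) * ph k 0 t = ((1 / (12 * y) : ℝ) : ℂ) * Fk q r Y1 Y2 A1 A2 k := by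
    intro k
    unfold Fk
    rw [mul_sum, ← sum_subset (SA_sub hY2) (f := fun t => (c t : ℂ) * ph k 0 t)]
    · refine sum_congr rfl fun t ht => ?_
      rw [hcdef]
      simp only
      unfold chi bet
      have : nz t ≤ 2 * M ^ 2 := by
        have := (mem_SA.1 ht).2.1
        nlinarith
      rw [if_pos ht, if_pos this, mul_one]
      push_cast
      ring
    · intro t _ ht
      rw [hcdef]
      simp only
      unfold chi
      rw [if_neg ht, mul_zero]
      simp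
  have hF2 : ∑ k ∈ Icc (-(K : ℤ)) K, ‖∑ t ∈ bl V, (c t : ℂ) * ph k 0 t‖ ^ 2 ≤ V ^ 2 / y ^ (A + 1) := by
    refine le_trans (sum_le_sum fun k _ => ?_) key
    rw [hF k, norm_mul, mul_pow, Complex.norm_real, Real.norm_of_nonneg (by positivity)]
    have e1 : (1 / (12 * y)) ^ 2 ≤ 1 := by
      apply pow_le_one₀ (by positivity)
      rw [div_le_one (by positivity)]
      linarith
    calc (1 / (12 * y)) ^ 2 * ‖Fk q r Y1 Y2 A1 A2 k‖ ^ 2 ≤ 1 * ‖Fk q r Y1 Y2 A1 A2 k‖ ^ 2 :=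
          mul_le_mul_of_nonneg_right e1 (sq_nonneg _)
      _ = _ := one_mul _
  have hVδ : 1 ≤ V * δ := by
    rw [hδ]
    have e1 : M ^ ε ≤ R ^ 2 * (L / M) := by
      rw [mul_div_assoc', le_div_iff₀ hM0]
      have : M / L * M ^ ε * L = M ^ ε * M := by field_simp
      rw [← this]
      exact mul_le_mul_of_nonneg_right hRl hL.le
    have e2 : V * (L / M / y ^ B) = 4 * (R ^ 2 * (L / M)) / y ^ B := by rw [hV]; ring
    rw [e2, le_div_iff₀ (by positivity), one_mul]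
    linarith
  have hlogV : (Real.log V) ^ D ≤ 2 ^ D * y ^ D := by
    rw [← mul_pow]
    apply pow_le_pow_left₀ (Real.log_nonneg (by linarith))
    have e1 : V ≤ M ^ 2 := by nlinarith
    have e2 := Real.log_le_log hV0 e1
    rw [Real.log_pow] at e2
    push_cast at e2
    exact e2
  have hK5 : 1 / (K : ℝ) ≤ δ / y ^ G := by
    rw [div_le_div_iff₀ hKpos (by positivity), one_mul]
    calc y ^ G = δ * (δ⁻¹ * y ^ G) := by field_simp
      _ ≤ δ * K := mul_le_mul_of_nonneg_left hK1 hδ0.le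
  have hK6 : V * (1 / (K : ℝ) + V / K ^ 2) ≤ 2 * (V * δ) ^ 2 / y ^ G := by
    have e1 : V * (1 / (K : ℝ)) ≤ (V * δ) ^ 2 / y ^ G := by
      calc V * (1 / (K : ℝ)) ≤ V * (δ / y ^ G) := mul_le_mul_of_nonneg_left hK5 hV0.le
        _ = (V * δ) / y ^ G := by ring
        _ ≤ (V * δ) ^ 2 / y ^ G := by
            apply div_le_div_of_nonneg_right _ (by positivity)
            nlinarith
    have e2 : V * (V / (K : ℝ) ^ 2) ≤ (V * δ) ^ 2 / y ^ G := by
      have e3 : V * (V / (K : ℝ) ^ 2) = V ^ 2 * (1 / K) ^ 2 := by field_simp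
      rw [e3]
      calc V ^ 2 * (1 / (K : ℝ)) ^ 2 ≤ V ^ 2 * (δ / y ^ G) ^ 2 := by gcongr
        _ = (V * δ) ^ 2 / y ^ G * (1 / y ^ G) := by field_simp
        _ ≤ (V * δ) ^ 2 / y ^ G * 1 := by
            apply mul_le_mul_of_nonneg_left _ (by positivity)
            rw [div_le_one (by positivity)]
            exact hyG
        _ = _ := mul_one _
    calc V * (1 / (K : ℝ) + V / K ^ 2) = V * (1 / (K : ℝ)) + V * (V / K ^ 2) := by ring
      _ ≤ (V * δ) ^ 2 / y ^ G + (V * δ) ^ 2 / y ^ G := add_le_add e1 e2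
      _ = _ := by ring
  set T := (L / M) ^ 2 * R ^ 4 / y ^ A with hT
  have hT0 : 0 ≤ T := by positivity
  have p1 : C * (δ ^ 2 * ∑ k ∈ Icc (-(K : ℤ)) K, ‖∑ t ∈ bl V, (c t : ℂ) * ph k 0 t‖ ^ 2) ≤ 16 * C * T / y := by
    calc C * (δ ^ 2 * ∑ k ∈ Icc (-(K : ℤ)) K, ‖∑ t ∈ bl V, (c t : ℂ) * ph k 0 t‖ ^ 2)
        ≤ C * ((L / M) ^ 2 * (V ^ 2 / y ^ (A + 1))) := by gcongr
      _ = 16 * C * T / y := by
          rw [hT, hV, pow_succ]
          field_simp
          ring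
  have p2 : C * (V * (Real.log V) ^ D * (1 / K + V / K ^ 2)) ≤ 32 * C * 2 ^ D * T / y := by
    calc C * (V * (Real.log V) ^ D * (1 / K + V / K ^ 2)) = C * ((Real.log V) ^ D * (V * (1 / K + V / K ^ 2))) := by ring
      _ ≤ C * ((2 ^ D * y ^ D) * (2 * (V * δ) ^ 2 / y ^ G)) := by
          apply mul_le_mul_of_nonneg_left _ hC.le
          apply mul_le_mul hlogV hK6 (by positivity) (by positivity)
      _ ≤ C * ((2 ^ D * y ^ D) * (2 * (V * (L / M)) ^ 2 / y ^ G)) := by gcongr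
      _ = 32 * C * 2 ^ D * T / y := by
          rw [hT, hV, hG, pow_add, pow_add, pow_one]
          field_simp
          ring
  have p3 : 16 * C * T / y ≤ T / 2 := by
    rw [div_le_iff₀ hy0]
    nlinarith
  have p4 : 32 * C * 2 ^ D * T / y ≤ T / 2 := by
    rw [div_le_iff₀ hy0]
    nlinarith
  rw [mul_add]
  linarith

end Pool.Agent.J4.H69
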