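import Pool.Agent.J4.H69.BLb
import Pool.Agent.J4.H69.SBe

/-!
# Arithmetic of the Gaussian integers
-/

set_option autoImplicit false

namespace Pool.Agent.J4.H69

open Finset Filter Topology
open Pool.Agent.N782.GN
open Pool.Agent.N855.GN (Dv mem_Dv logpow nz_one_le one_le_log)
open Pool.Agent.N277.GN (ct_nat_mul abs_be_le card_bl nz_pos nz_natCast one_le_nz nz_mul)
open Pool.Agent.H304R3.HK (UH bb LamK CS)

/-- a prime divisor of a primitive number has prime norm -/
theorem prime_prim {x z : ZI} (hx : Prime x) (h : x ∣ z) (hz : ct z = 1) : (Zsqrtd.norm x).natAbs.Prime := by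
  obtain ⟨p, hp, h1 | h1⟩ := Pool.Agent.H304R3.HK.M4.norm_prime hx
  · rw [h1]
    simpa using hp
  · exfalso
    have h2 : x * star x = ((p : ℕ) : ZI) * ((p : ℕ) : ZI) := by
      rw [mul_star_self, h1]
      have : ((p : ℤ) ^ 2).natAbs = p ^ 2 := by
        rw [Int.natAbs_pow, Int.natAbs_natCast]
      rw [this]
      push_cast
      ring
    have h3 : x ∣ ((p : ℕ) : ZI) := by
      have : x ∣ ((p : ℕ) : ZI) * ((p : ℕ) : ZI) := ⟨_, h2.symm⟩
      rcases hx.dvd_or_dvd this with h | h <;> exact h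
    obtain ⟨c, hc⟩ := h3
    have h4 : (p : ℤ) ^ 2 * Zsqrtd.norm c = (p : ℤ) ^ 2 := by
      rw [← h1, ← Zsqrtd.norm_mul, ← hc, h1]
      rw [Zsqrtd.norm_def]
      simp
      ring
    have h5 : Zsqrtd.norm c = 1 := by
      have h6 : (p : ℤ) ^ 2 ≠ 0 := pow_ne_zero _ (by exact_mod_cast hp.ne_zero)
      exact mul_left_cancel₀ h6 (by rw [h4, mul_one])
    have h6 : IsUnit c := by
      rw [← Zsqrtd.norm_eq_one_iff, h5]
      rfl
    have h7 : ((p : ℕ) : ZI) ∣ z := by
      obtain ⟨u, rfl⟩ := h6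
      have h8 : ((p : ℕ) : ZI) ∣ x := ⟨((u⁻¹ : ZIˣ) : ZI), by rw [hc, mul_assoc, Units.mul_inv, mul_one]⟩
      exact h8.trans h
    rw [Pool.Agent.N864.GN.MB.dvd_ct, hz] at h7
    exact hp.one_lt.ne' (Nat.dvd_one.1 h7)

theorem ct_mul_one {a b : ZI} (hb : b ≠ 0) (h : ct (a * b) = 1) : ct b = 1 := by
  obtain ⟨w, -, -, hw⟩ := Pool.Agent.N277.GN.ct_exists hb
  have h3 : ct (a * b) = ct b * ct (a * w) := by
    have h4 : a * b = ((ct b : ℕ) : ZI) * (a * w) := by
      conv_lhs => rw [← hw]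
      ring
    rw [h4, ct_nat_mul]
  rw [h] at h3
  exact Nat.eq_one_of_mul_eq_one_right h3.symm

/-- the Möbius functions of `ℤ[i]` and of `ℤ` for primitive numbers -/
theorem mu_rat {z : ZI} (hz : ct z = 1) : mu z = ((ArithmeticFunction.moebius (Zsqrtd.norm z).natAbs : ℤ) : ℝ) := by
  classical
  have key : ∀ n : ℕ, ∀ z : ZI, (Zsqrtd.norm z).natAbs = n → ct z = 1 →
      mu z = ((ArithmeticFunction.moebius (Zsqrtd.norm z).natAbs : ℤ) : ℝ) := by
    intro n
    induction n using Nat.strong_induction_on with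
    | _ n ih =>
      intro z hn hz
      have hz0 : z ≠ 0 := by
        rintro rfl
        exact ct_zero hz
      by_cases hu : IsUnit z
      · rw [Pool.Agent.N157.GN.mu_unit hu]
        have : (Zsqrtd.norm z).natAbs = 1 := Zsqrtd.norm_eq_one_iff.2 hu
        rw [this]
        simp
      · obtain ⟨x, hx, w, rfl⟩ := WfDvdMonoid.exists_irreducible_factor hu hz0
        have hx' : Prime x := hx.prime
        have hp := prime_prim hx' (dvd_mul_right x w) hz
        have hw0 : w ≠ 0 := right_ne_zero_of_mul hz0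
        have hwct : ct w = 1 := ct_mul_one hw0 hz
        have hN : (Zsqrtd.norm (x * w)).natAbs = (Zsqrtd.norm x).natAbs * (Zsqrtd.norm w).natAbs := by
          rw [Zsqrtd.norm_mul, Int.natAbs_mul]
        set p := (Zsqrtd.norm x).natAbs with hpdef
        set m := (Zsqrtd.norm w).natAbs with hmdef
        have hm0 : 0 < m := by
          rw [Nat.pos_iff_ne_zero]
          intro h
          have h2 := one_le_nz hw0
          rw [nz_nat, ← hmdef, h] at h2
          norm_num at h2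
        by_cases hxw : x ∣ w
        · have h1 : mu (x * w) = 0 := by
            apply Pool.Agent.N157.GN.mu_mul_zero
            intro hc
            exact hx.coprime_iff_not_dvd.1 hc hxw
          rw [h1, hN]
          obtain ⟨w', rfl⟩ := hxw
          have h2 : m = p * (Zsqrtd.norm w').natAbs := by
            rw [hmdef, Zsqrtd.norm_mul, Int.natAbs_mul]
          have h3 : ¬ Squarefree (p * m) := by
            intro hs
            have : p * p ∣ p * m := by
              rw [h2]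
              exact ⟨_, (mul_assoc _ _ _).symm⟩
            have := hs p this
            exact hp.one_lt.ne' (Nat.isUnit_iff.1 this)
          rw [ArithmeticFunction.moebius_eq_zero_of_not_squarefree h3]
          simp
        · have hcop : IsCoprime x w := hx.coprime_iff_not_dvd.2 hxw
          rw [Pool.Agent.N157.GN.mu_mul hcop, Pool.Agent.N157.GN.mu_prime hx']
          have hpm : Nat.Coprime p m := by
            rw [Nat.Prime.coprime_iff_not_dvd hp]
            intro hd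
            have h1 : ((p : ℕ) : ZI) ∣ w * star w := by
              rw [mul_star_self]
              exact_mod_cast Nat.cast_dvd_cast hd
            have h2 : x ∣ w * star w := by
              refine dvd_trans ?_ h1
              rw [hpdef, ← mul_star_self x]
              exact dvd_mul_right _ _
            rcases hx'.dvd_or_dvd h2 with h3 | h3
            · exact hxw h3
            · rw [← star_dvd] at h3
              have h4 : ((p : ℕ) : ZI) ∣ x * w := by
                rw [hpdef, ← mul_star_self x]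
                exact mul_dvd_mul_left x h3
              rw [Pool.Agent.N864.GN.MB.dvd_ct, hz] at h4
              exact hp.one_lt.ne' (Nat.dvd_one.1 h4)
          rw [hN, ArithmeticFunction.isMultiplicative_moebius.map_mul_of_coprime hpm,
            ArithmeticFunction.moebius_apply_prime hp]
          have hlt : m < n := by
            rw [← hn, hN]
            have := hp.one_lt
            nlinarith
          rw [ih m hlt w rfl hwct]
          push_cast
          ring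
  exact key _ z rfl hz

/-! ### divisor sums -/

/-- sums over the divisors -/
noncomputable def ds (f : ZI → ℝ) (z : ZI) : ℝ := ∑ a ∈ Dv z, f a

theorem om_ds (A1 A2 : ℝ) (z : ZI) : om A1 A2 z = ds (lw A1 A2) z := rfl

theorem ds_cop {f : ZI → ℝ} {u z : ZI} (hu : u ≠ 0) (hz : z ≠ 0) (h : ∀ a, f a ≠ 0 → IsCoprime a u) :
    ds f (u * z) = ds f z := by
  classical
  unfold ds
  symm
  apply sum_subset
  · intro a ha
    rw [mem_Dv hz] at ha
    rw [mem_Dv (mul_ne_zero hu hz)]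
    exact ha.mul_left u
  · intro a ha ha'
    rw [mem_Dv (mul_ne_zero hu hz)] at ha
    rw [mem_Dv hz] at ha'
    by_contra hne
    exact ha' ((h a hne).dvd_of_dvd_mul_left ha)

/-- the indicator of the elements whose norm is a prime in `(Q1, Q2]` -/
noncomputable def al (Q1 Q2 : ℝ) (v : ZI) : ℝ := by
  classical
  exact if (Zsqrtd.norm v).natAbs.Prime ∧ Q1 < nz v ∧ nz v ≤ Q2 then 1 else 0

theorem al_ne {Q1 Q2 : ℝ} {v : ZI} (h : al Q1 Q2 v ≠ 0) : (Zsqrtd.norm v).natAbs.Prime ∧ Q1 < nz v ∧ nz v ≤ Q2 := by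
  unfold al at h
  split_ifs at h with h1
  · exact h1
  · exact absurd rfl h

theorem al_nonneg (Q1 Q2 : ℝ) (v : ZI) : 0 ≤ al Q1 Q2 v := by
  unfold al
  split_ifs <;> norm_num

theorem al_le (Q1 Q2 : ℝ) (v : ZI) : al Q1 Q2 v ≤ 1 := by
  unfold al
  split_ifs <;> norm_num

theorem nz_le_of_dvd {d z : ZI} (hz : z ≠ 0) (h : d ∣ z) : nz d ≤ nz z :=
  Pool.Agent.N157.GN.nz_le_of_dvd hz h

/-- two elements of prime norm with different norms are coprime -/
theorem cop_of_ne {a b : ZI} (ha : (Zsqrtd.norm a).natAbs.Prime) (hb : (Zsqrtd.norm b).natAbs.Prime)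
    (h : nz a ≠ nz b) : IsCoprime a b := by
  have hpa := prime_of ha
  have hpb := prime_of hb
  rw [hpa.irreducible.coprime_iff_not_dvd]
  intro hd
  have h1 := (hpa.irreducible.associated_of_dvd hpb.irreducible hd)
  apply h
  unfold nz
  rw [Pool.Agent.H304R3.HK.M4.norm_assoc h1]

theorem few_al {M Q1 Q2 : ℝ} (hM : 0 < M) (hQ : 2 * M ^ 2 < Q1 ^ 2) (hQ0 : 0 < Q1) : Few M (al Q1 Q2) := by
  classical
  refine ⟨fun v => ?_, fun z hz hzM => ?_⟩
  · rw [abs_of_nonneg (al_nonneg _ _ _)]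
    exact al_le _ _ _
  · by_cases he : ((Dv z).filter (fun v => al Q1 Q2 v ≠ 0)) = ∅
    · rw [he]
      simp
    · obtain ⟨v0, hv0⟩ := Finset.nonempty_iff_ne_empty.2 he
      rw [mem_filter, mem_Dv hz] at hv0
      obtain ⟨⟨w, hw⟩, hv0'⟩ := hv0
      obtain ⟨h1, h2, h3⟩ := al_ne hv0'
      have hp0 := prime_of h1
      have hw0 : w ≠ 0 := by
        rintro rfl
        rw [mul_zero] at hw
        exact hz hw
      have h4 : (Dv z).filter (fun v => al Q1 Q2 v ≠ 0) ⊆ (Pool.Agent.N157.GN.UU).image (fun u => u * v0) := by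
        intro v hv
        rw [mem_filter, mem_Dv hz] at hv
        obtain ⟨h5, h6, h7⟩ := al_ne hv.2
        have hp := prime_of h5
        have h8 : v ∣ v0 := by
          have h9 := hv.1
          rw [hw] at h9
          rcases hp.dvd_or_dvd h9 with h | h
          · exact h
          · exfalso
            have e1 := nz_le_of_dvd hw0 h
            have e2 : nz z = nz v0 * nz w := by rw [hw, nz_mul]
            have e3 : Q1 * Q1 ≤ nz v0 * nz w := mul_le_mul h2.le (by linarith) hQ0.le (nz_nonneg _)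
            nlinarith
        obtain ⟨u, hu⟩ := (hp.irreducible.associated_of_dvd hp0.irreducible h8).symm
        rw [mem_image]
        exact ⟨u, (Pool.Agent.N157.GN.mem_UU _).2 u.isUnit, by rw [mul_comm]; exact hu⟩
      refine (card_le_card h4).trans (card_image_le.trans ?_)
      rw [Pool.Agent.N157.GN.card_UU]

theorem ds_al_le {M Q1 Q2 : ℝ} (hM : 0 < M) (hQ : 2 * M ^ 2 < Q1 ^ 2) (hQ0 : 0 < Q1) {z : ZI} (hz : z ≠ 0)
    (hzM : nz z ≤ 2 * M ^ 2) : ds (al Q1 Q2) z ≤ 4 := by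
  classical
  have h1 := (few_al (Q2 := Q2) hM hQ hQ0).few z hz hzM
  unfold ds
  rw [← sum_filter_ne_zero]
  calc ∑ v ∈ (Dv z).filter (fun v => al Q1 Q2 v ≠ 0), al Q1 Q2 v ≤
        ∑ _v ∈ (Dv z).filter (fun v => al Q1 Q2 v ≠ 0), (1 : ℝ) := sum_le_sum fun v _ => al_le _ _ _
    _ = (((Dv z).filter (fun v => al Q1 Q2 v ≠ 0)).card : ℝ) := by simp
    _ ≤ 4 := by exact_mod_cast h1

theorem ds_nonneg {f : ZI → ℝ} (hf : ∀ a, 0 ≤ f a) (z : ZI) : 0 ≤ ds f z := sum_nonneg fun a _ => hf a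

/-- the weight -/
noncomputable def Wt (M A1 A2 Q1 Q2 : ℝ) (z : ZI) : ℝ := ds (al Q1 Q2) z * ds (lw A1 A2) z / (12 * Real.log M)

theorem Wt_nonneg {M : ℝ} (hM : 1 ≤ M) (A1 A2 Q1 Q2 : ℝ) (z : ZI) : 0 ≤ Wt M A1 A2 Q1 Q2 z := by
  unfold Wt
  have h1 := ds_nonneg (al_nonneg Q1 Q2) z
  have h2 := ds_nonneg (lw_nonneg A1 A2) z
  have h3 := Real.log_nonneg hM
  positivity

theorem Wt_le (hm : S_MUB) {M A1 A2 Q1 Q2 : ℝ} (hM : 3 ≤ M) (hQ : 2 * M ^ 2 < Q1 ^ 2) (hQ0 : 0 < Q1) {z : ZI}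
    (hz : z ≠ 0) (hzM : nz z ≤ 2 * M ^ 2) : Wt M A1 A2 Q1 Q2 z ≤ 4 := by
  have hy := one_le_log hM
  have h1 := ds_al_le (Q2 := Q2) (by linarith) hQ hQ0 hz hzM
  have h2 := om_le hm A1 A2 hz
  rw [om_ds] at h2
  have h0 := ds_nonneg (al_nonneg Q1 Q2) z
  have h0' := ds_nonneg (lw_nonneg A1 A2) z
  have h3 : Real.log (nz z) ≤ 3 * Real.log M := by
    have e1 := Real.log_le_log (nz_pos hz) hzM
    have e2 : Real.log (2 * M ^ 2) ≤ Real.log (M ^ 3) := by
      apply Real.log_le_log (by positivity)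
      nlinarith [sq_nonneg M]
    rw [Real.log_pow] at e2
    push_cast at e2
    linarith
  unfold Wt
  rw [div_le_iff₀ (by positivity)]
  have h4 : ds (lw A1 A2) z ≤ 12 * Real.log M := by linarith
  exact mul_le_mul h1 h4 h0' (by norm_num)

/-- one pair -/
theorem pair_id (hm : S_MUB) {M A1 A2 Q1 Q2 : ℝ} (hQ : 2 * M ^ 2 < Q1 ^ 2) (hQ0 : 0 < Q1) (hAQ : A2 ≤ Q1) {w v : ZI}
    (hw : w ≠ 0) (hwv : nz (w * v) ≤ 2 * M ^ 2) (hv : al Q1 Q2 v ≠ 0) :
    bet M A1 A2 w = -(be 1 (w * v) * ds (lw A1 A2) (w * v) / (12 * Real.log M)) := by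
  obtain ⟨h1, h2, h3⟩ := al_ne hv
  have hv0 := ne_zero_of_prime h1
  rw [nz_mul] at hwv
  have h4 : nz w < nz v := by
    have e0 : Q1 * nz w < Q1 * Q1 := by
      have : nz w * Q1 ≤ nz w * nz v := mul_le_mul_of_nonneg_left h2.le (nz_nonneg w)
      nlinarith
    have := lt_of_mul_lt_mul_left e0 hQ0.le
    linarith
  have n1 : ¬ v ∣ w := by
    intro h
    have := nz_le_of_dvd hw h
    linarith
  have n2 : ¬ star v ∣ w := by
    intro h
    have := nz_le_of_dvd hw h
    rw [nz_star] at this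
    linarith
  have e1 : be 1 (w * v) = - be 1 w := by
    rw [mul_comm]
    exact be_mul hm h1 n1 n2
  have e2 : ds (lw A1 A2) (w * v) = ds (lw A1 A2) w := by
    rw [mul_comm]
    apply ds_cop hv0 hw
    intro a ha
    obtain ⟨h5, h6, h7⟩ := lw_ne ha
    apply cop_of_ne h5 h1
    linarith
  have e3 : nz w ≤ 2 * M ^ 2 := by
    have := one_le_nz hv0
    have := nz_nonneg w
    nlinarith
  unfold bet
  rw [if_pos e3, e1, e2, om_ds]
  ring

/-- regrouping -/
theorem regroup {S Z : Finset ZI} (f H : ZI → ℝ) (hS : ∀ w ∈ S, w ≠ 0) (hZ : ∀ z ∈ Z, z ≠ 0 ∧ ∀ w : ZI, w ∣ z → w ∈ S)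
    (hH : ∀ z, H z ≠ 0 → z ∈ Z) : ∑ w ∈ S, ∑ v ∈ S, f v * H (w * v) = ∑ z ∈ Z, H z * ds f z := by
  classical
  rw [sum_comm]
  have h1 : ∀ v ∈ S, ∑ w ∈ S, f v * H (w * v) = ∑ z ∈ Z, if v ∣ z then f v * H z else 0 := by
    intro v hv
    have hv0 := hS v hv
    rw [← sum_filter]
    have h2 : Z.filter (fun z => v ∣ z) ⊆ S.image (fun w => w * v) := by
      intro z hz
      rw [mem_filter] at hz
      obtain ⟨w, rfl⟩ := hz.2
      rw [mem_image]
      exact ⟨w, (hZ _ hz.1).2 w (dvd_mul_left _ _), mul_comm _ _⟩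
    rw [sum_subset h2]
    · rw [sum_image]
      intro a _ b _ h
      exact mul_right_cancel₀ hv0 h
    · intro z hz hz'
      rw [mem_image] at hz
      obtain ⟨w, hw, rfl⟩ := hz
      rw [mem_filter] at hz'
      by_contra hne
      apply hz'
      refine ⟨hH _ ?_, dvd_mul_left _ _⟩
      intro h
      rw [h, mul_zero] at hne
      exact hne rfl
  rw [sum_congr rfl h1, sum_comm]
  apply sum_congr rfl
  intro z hz
  obtain ⟨hz0, hzS⟩ := hZ z hz
  rw [← sum_filter]
  have h3 : S.filter (fun v => v ∣ z) = Dv z := by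
    ext v
    rw [mem_filter, mem_Dv hz0]
    exact ⟨fun h => h.2, fun h => ⟨hzS v h, h⟩⟩
  rw [h3, ← sum_mul]
  unfold ds
  ring

/-- the bilinear sum as a sum over the box -/
theorem bil_box (hm : S_MUB) {M L A1 A2 Q1 Q2 : ℝ} {lam : ℤ → ℝ} (hM : 0 ≤ M) (hLM : L ≤ M) (hQ : 2 * M ^ 2 < Q1 ^ 2)
    (hQ0 : 0 < Q1) (hAQ : A2 ≤ Q1) (hlam : Lm L lam) :
    ∑ w ∈ bl (2 * M ^ 2), ∑ v ∈ bl (2 * M ^ 2), bet M A1 A2 w * al Q1 Q2 v * Fz lam M (w * v) =
      -∑ z ∈ Bx L (-M) M, lam z.re * (be 1 z * Wt M A1 A2 Q1 Q2 z) := by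
  classical
  have key : ∀ w ∈ bl (2 * M ^ 2), ∀ v ∈ bl (2 * M ^ 2), bet M A1 A2 w * al Q1 Q2 v * Fz lam M (w * v) =
      al Q1 Q2 v * (-(be 1 (w * v) * ds (lw A1 A2) (w * v) / (12 * Real.log M)) * Fz lam M (w * v)) := by
    intro w hw v hv
    by_cases h1 : al Q1 Q2 v = 0
    · rw [h1]
      ring
    by_cases h2 : Fz lam M (w * v) = 0
    · rw [h2]
      ring
    have h3 : nz (w * v) ≤ 2 * M ^ 2 := by
      unfold Fz at h2
      split_ifs at h2 with h4
      · obtain ⟨h5, h6⟩ := Lm_ne hlam h2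
        rw [nz_eq]
        rw [abs_le] at h4
        have h5' : (1 : ℝ) ≤ (((w * v).re : ℤ) : ℝ) := by exact_mod_cast h5
        nlinarith
      · exact absurd rfl h2
    rw [pair_id hm hQ hQ0 hAQ ((mem_bl _ _).1 hw).1 h3 h1]
    ring
  rw [sum_congr rfl fun w hw => sum_congr rfl fun v hv => key w hw v hv]
  rw [regroup (Z := Bx L (-M) M) (al Q1 Q2) (fun z => -(be 1 z * ds (lw A1 A2) z / (12 * Real.log M)) * Fz lam M z)]
  · rw [← sum_neg_distrib]
    apply sum_congr rfl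
    intro z hz
    rw [mem_Bx] at hz
    unfold Fz Wt
    rw [if_pos (abs_le.2 ⟨hz.2.2.1, hz.2.2.2⟩)]
    ring
  · intro w hw
    exact ((mem_bl _ _).1 hw).1
  · intro z hz
    refine ⟨Bx_ne hz, fun w hw => ?_⟩
    have h1 := Bx_nz hz hLM (by rw [abs_neg, abs_of_nonneg hM]) (by rw [abs_of_nonneg hM])
    rw [mem_bl]
    refine ⟨?_, (nz_le_of_dvd (Bx_ne hz) hw).trans h1⟩
    rintro rfl
    exact Bx_ne hz (zero_dvd_iff.1 hw)
  · intro z hz
    have h2 : Fz lam M z ≠ 0 := by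
      intro h
      apply hz
      rw [h, mul_zero]
    unfold Fz at h2
    split_ifs at h2 with h4
    · obtain ⟨h5, h6⟩ := Lm_ne hlam h2
      rw [mem_Bx]
      exact ⟨h5, h6, (abs_le.1 h4).1, (abs_le.1 h4).2⟩
    · exact absurd rfl h2

/-- sums over a box -/
theorem Bx_sum (L x1 x2 : ℝ) (f : ZI → ℝ) :
    ∑ z ∈ Bx L x1 x2, f z = ∑ l ∈ Icc 1 ⌊L⌋, ∑ m ∈ Icc ⌈x1⌉ ⌊x2⌋, f ⟨l, m⟩ := by
  classical
  unfold Bx
  rw [sum_image, sum_product]
  intro a _ b _ h
  have h1 := congrArg Zsqrtd.re h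
  have h2 := congrArg Zsqrtd.im h
  exact Prod.ext h1 h2

/-- duality -/
theorem dual {L B : ℝ} (F : ℤ → ℝ) (h : ∀ lam : ℤ → ℝ, Lm L lam → |∑ l ∈ Icc 1 ⌊L⌋, lam l * F l| ≤ B) :
    ∑ l ∈ Icc 1 ⌊L⌋, |F l| ≤ B := by
  classical
  set lam : ℤ → ℝ := fun l => if 1 ≤ l ∧ (l : ℝ) ≤ L then (if 0 ≤ F l then 1 else -1) else 0 with hlam
  have h1 : Lm L lam := by
    refine ⟨fun l => ?_, fun l hl => ?_⟩
    · rw [hlam]
      simp only
      split_ifs <;> norm_num
    · rw [hlam]
      simp only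
      rw [if_neg]
      rintro ⟨h2, h3⟩
      rcases hl with h | h
      · omega
      · linarith
  refine le_trans (le_of_eq ?_) ((le_abs_self _).trans (h lam h1))
  apply sum_congr rfl
  intro l hl
  rw [mem_Icc] at hl
  rw [hlam]
  simp only
  rw [if_pos ⟨hl.1, Int.le_floor.1 hl.2⟩]
  split_ifs with h2
  · rw [abs_of_nonneg h2, one_mul]
  · rw [abs_of_neg (not_le.1 h2)]
    ring

end Pool.Agent.J4.H69
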