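import Pool.Agent.J4.H69.TG2
import Pool.Agent.N277.GN.IId
import Pool.Agent.N855.GN.Idn

/-!
# Bilinear sums: tools
-/

set_option autoImplicit false

namespace Pool.Agent.J4.H69

open Finset Filter Topology
open Pool.Agent.N782.GN
open Pool.Agent.N855.GN (Dv mem_Dv)
open Pool.Agent.N277.GN

/-- few representations -/
structure Few (M : ℝ) (α : ZI → ℝ) : Prop where
  bd : ∀ v, |α v| ≤ 1
  few : ∀ z : ZI, z ≠ 0 → nz z ≤ 2 * M ^ 2 → ((Dv z).filter (fun v => α v ≠ 0)).card ≤ 4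

open Classical in
/-- pairs with product in a set -/
theorem pair4 {M : ℝ} {α : ZI → ℝ} (hα : Few M α) (S1 S2 Z : Finset ZI) (hZ : ∀ z ∈ Z, z ≠ 0 ∧ nz z ≤ 2 * M ^ 2)
    (f : ZI → ZI → ℝ) (hf : ∀ w ∈ S1, ∀ v ∈ S2, |f w v| ≤ |α v|)
    (hf0 : ∀ w ∈ S1, ∀ v ∈ S2, f w v ≠ 0 → w * v ∈ Z) :
    |∑ w ∈ S1, ∑ v ∈ S2, f w v| ≤ 4 * (Z.card : ℝ) := by
  have h1 : |∑ w ∈ S1, ∑ v ∈ S2, f w v| ≤
      ∑ w ∈ S1, ∑ v ∈ S2, ∑ z ∈ Z, if w * v = z ∧ α v ≠ 0 then (1 : ℝ) else 0 := by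
    refine (abs_sum_le_sum_abs _ _).trans (sum_le_sum fun w hw => ?_)
    refine (abs_sum_le_sum_abs _ _).trans (sum_le_sum fun v hv => ?_)
    by_cases h : f w v = 0
    · rw [h, abs_zero]
      exact sum_nonneg fun z _ => by split_ifs <;> norm_num
    · have hα0 : α v ≠ 0 := by
        intro h'
        have := hf w hw v hv
        rw [h', abs_zero] at this
        exact h (abs_nonpos_iff.1 this)
      have hz := hf0 w hw v hv h
      have h2 : (1 : ℝ) ≤ ∑ z ∈ Z, if w * v = z ∧ α v ≠ 0 then (1 : ℝ) else 0 := by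
        have := single_le_sum (f := fun z => if w * v = z ∧ α v ≠ 0 then (1 : ℝ) else 0)
          (fun z _ => by split_ifs <;> norm_num) hz
        have h7 : (if w * v = w * v ∧ α v ≠ 0 then (1 : ℝ) else 0) = 1 := if_pos ⟨rfl, hα0⟩
        calc (1 : ℝ) = (if w * v = w * v ∧ α v ≠ 0 then (1 : ℝ) else 0) := h7.symm
          _ ≤ _ := this
      exact ((hf w hw v hv).trans (hα.bd v)).trans h2
  refine h1.trans ?_
  have h2 : ∑ w ∈ S1, ∑ v ∈ S2, ∑ z ∈ Z, (if w * v = z ∧ α v ≠ 0 then (1 : ℝ) else 0) =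
      ∑ z ∈ Z, ∑ v ∈ S2, ∑ w ∈ S1, if w * v = z ∧ α v ≠ 0 then (1 : ℝ) else 0 := by
    rw [sum_comm]
    have : ∀ v ∈ S2, ∑ w ∈ S1, ∑ z ∈ Z, (if w * v = z ∧ α v ≠ 0 then (1 : ℝ) else 0) =
        ∑ z ∈ Z, ∑ w ∈ S1, if w * v = z ∧ α v ≠ 0 then (1 : ℝ) else 0 := fun v _ => sum_comm
    rw [sum_congr rfl this, sum_comm]
  rw [h2]
  have h3 : ∀ z ∈ Z, ∑ v ∈ S2, ∑ w ∈ S1, (if w * v = z ∧ α v ≠ 0 then (1 : ℝ) else 0) ≤ 4 := by
    intro z hz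
    obtain ⟨hz0, hzM⟩ := hZ z hz
    have h4 : ∀ v ∈ S2, ∑ w ∈ S1, (if w * v = z ∧ α v ≠ 0 then (1 : ℝ) else 0) ≤
        if v ∈ (Dv z).filter (fun v => α v ≠ 0) then 1 else 0 := by
      intro v _
      by_cases hv : v ∈ (Dv z).filter (fun v => α v ≠ 0)
      · rw [if_pos hv]
        rw [mem_filter, mem_Dv hz0] at hv
        obtain ⟨w0, hw0⟩ := hv.1
        have hv0 : v ≠ 0 := by
          rintro rfl
          rw [zero_mul] at hw0
          exact hz0 hw0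
        have h5 : ∀ w ∈ S1, (if w * v = z ∧ α v ≠ 0 then (1 : ℝ) else 0) = if w = w0 then 1 else 0 := by
          intro w _
          have : w * v = z ↔ w = w0 := by
            rw [hw0, mul_comm v w0]
            exact mul_left_inj' hv0
          by_cases hw : w = w0
          · rw [if_pos ⟨this.2 hw, hv.2⟩, if_pos hw]
          · rw [if_neg (fun h => hw (this.1 h.1)), if_neg hw]
        rw [sum_congr rfl h5, sum_ite_eq']
        split_ifs <;> norm_num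
      · rw [if_neg hv]
        apply le_of_eq
        refine sum_eq_zero fun w _ => ?_
        rw [if_neg]
        rintro ⟨h6, h7⟩
        apply hv
        rw [mem_filter, mem_Dv hz0]
        exact ⟨⟨w, by rw [← h6, mul_comm]⟩, h7⟩
    refine (sum_le_sum h4).trans ?_
    rw [← sum_filter, sum_const, nsmul_eq_mul, mul_one]
    have h6 : (S2.filter (fun v => v ∈ (Dv z).filter (fun v => α v ≠ 0))).card ≤
        ((Dv z).filter (fun v => α v ≠ 0)).card := by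
      apply card_le_card
      intro v hv
      exact (mem_filter.1 hv).2
    exact_mod_cast h6.trans (hα.few z hz0 hzM)
  refine (sum_le_sum h3).trans ?_
  rw [sum_const, nsmul_eq_mul]
  linarith

/-- a box -/
noncomputable def Bx (L x1 x2 : ℝ) : Finset ZI := by
  classical
  exact ((Icc 1 ⌊L⌋) ×ˢ (Icc ⌈x1⌉ ⌊x2⌋)).image (fun p : ℤ × ℤ => (⟨p.1, p.2⟩ : ZI))

theorem mem_Bx {L x1 x2 : ℝ} {z : ZI} : z ∈ Bx L x1 x2 ↔
    1 ≤ z.re ∧ ((z.re : ℤ) : ℝ) ≤ L ∧ x1 ≤ ((z.im : ℤ) : ℝ) ∧ ((z.im : ℤ) : ℝ) ≤ x2 := by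
  classical
  unfold Bx
  rw [mem_image]
  constructor
  · rintro ⟨p, hp, rfl⟩
    rw [mem_product, mem_Icc, mem_Icc] at hp
    exact ⟨hp.1.1, Int.le_floor.1 hp.1.2, Int.ceil_le.1 hp.2.1, Int.le_floor.1 hp.2.2⟩
  · rintro ⟨h1, h2, h3, h4⟩
    refine ⟨(z.re, z.im), ?_, rfl⟩
    rw [mem_product, mem_Icc, mem_Icc]
    exact ⟨⟨h1, Int.le_floor.2 h2⟩, Int.ceil_le.2 h3, Int.le_floor.2 h4⟩

theorem card_Bx {L x1 x2 : ℝ} (hL : 0 ≤ L) (hx : x1 ≤ x2) : ((Bx L x1 x2).card : ℝ) ≤ L * (x2 - x1 + 1) := by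
  classical
  have h1 : (Bx L x1 x2).card ≤ ⌊L⌋.toNat * (⌊x2⌋ + 1 - ⌈x1⌉).toNat := by
    unfold Bx
    refine card_image_le.trans ?_
    rw [card_product, Int.card_Icc, Int.card_Icc]
    simp
  have h2 : ((⌊L⌋.toNat : ℕ) : ℝ) ≤ L := by
    have h3 : (0 : ℤ) ≤ ⌊L⌋ := Int.floor_nonneg.2 hL
    have h4 : ((⌊L⌋.toNat : ℕ) : ℤ) = ⌊L⌋ := Int.toNat_of_nonneg h3
    have h5 : ((⌊L⌋.toNat : ℕ) : ℝ) = ((⌊L⌋ : ℤ) : ℝ) := by exact_mod_cast congrArg (fun t : ℤ => (t : ℝ)) h4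
    rw [h5]
    exact Int.floor_le L
  have h3 : (((⌊x2⌋ + 1 - ⌈x1⌉).toNat : ℕ) : ℝ) ≤ x2 - x1 + 1 := by
    rcases le_total 0 (⌊x2⌋ + 1 - ⌈x1⌉) with h | h
    · have h4 : (((⌊x2⌋ + 1 - ⌈x1⌉).toNat : ℕ) : ℤ) = ⌊x2⌋ + 1 - ⌈x1⌉ := Int.toNat_of_nonneg h
      have h5 : (((⌊x2⌋ + 1 - ⌈x1⌉).toNat : ℕ) : ℝ) = ((⌊x2⌋ + 1 - ⌈x1⌉ : ℤ) : ℝ) := by
        exact_mod_cast congrArg (fun t : ℤ => (t : ℝ)) h4
      rw [h5]
      push_cast
      have := Int.floor_le x2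
      have := Int.le_ceil x1
      linarith
    · rw [Int.toNat_of_nonpos h]
      simp
      linarith
  calc ((Bx L x1 x2).card : ℝ) ≤ ((⌊L⌋.toNat : ℕ) : ℝ) * (((⌊x2⌋ + 1 - ⌈x1⌉).toNat : ℕ) : ℝ) := by exact_mod_cast h1
    _ ≤ L * (x2 - x1 + 1) := mul_le_mul h2 h3 (Nat.cast_nonneg _) hL

theorem Bx_ne {L x1 x2 : ℝ} {z : ZI} (h : z ∈ Bx L x1 x2) : z ≠ 0 := by
  rw [mem_Bx] at h
  rintro rfl
  simp at h

theorem Bx_nz {L x1 x2 M : ℝ} {z : ZI} (h : z ∈ Bx L x1 x2) (hL : L ≤ M) (h1 : |x1| ≤ M) (h2 : |x2| ≤ M) :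
    nz z ≤ 2 * M ^ 2 := by
  rw [mem_Bx] at h
  obtain ⟨ha, hb, hc, hd⟩ := h
  rw [nz_eq]
  have ha' : (1 : ℝ) ≤ ((z.re : ℤ) : ℝ) := by exact_mod_cast ha
  rw [abs_le] at h1 h2
  have e1 : ((z.re : ℤ) : ℝ) ^ 2 ≤ M ^ 2 := by
    apply pow_le_pow_left₀ (by linarith)
    linarith
  have e2 : ((z.im : ℤ) : ℝ) ^ 2 ≤ M ^ 2 := by
    apply sq_le_sq'
    · linarith
    · linarith
  linarith

/-- the pairs with product in a box -/
theorem box4 {M L x1 x2 : ℝ} {α : ZI → ℝ} (hα : Few M α) (hL : 0 ≤ L) (hLM : L ≤ M) (hx : x1 ≤ x2) (h1 : |x1| ≤ M)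
    (h2 : |x2| ≤ M) (S1 S2 : Finset ZI)
    (f : ZI → ZI → ℝ) (hf : ∀ w ∈ S1, ∀ v ∈ S2, |f w v| ≤ |α v|)
    (hf0 : ∀ w ∈ S1, ∀ v ∈ S2, f w v ≠ 0 → 1 ≤ (w * v).re ∧ (((w * v).re : ℤ) : ℝ) ≤ L ∧
      x1 ≤ (((w * v).im : ℤ) : ℝ) ∧ (((w * v).im : ℤ) : ℝ) ≤ x2) :
    |∑ w ∈ S1, ∑ v ∈ S2, f w v| ≤ 4 * (L * (x2 - x1 + 1)) := by
  refine (pair4 hα S1 S2 (Bx L x1 x2) (fun z hz => ⟨Bx_ne hz, Bx_nz hz hLM h1 h2⟩) f hf
    (fun w hw v hv h => mem_Bx.2 (hf0 w hw v hv h))).trans ?_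
  have := card_Bx (x1 := x1) hL hx
  linarith

theorem Lm_ne {L : ℝ} {lam : ℤ → ℝ} (hlam : Lm L lam) {l : ℤ} (h : lam l ≠ 0) : 1 ≤ l ∧ (l : ℝ) ≤ L := by
  by_contra h2
  apply h
  apply hlam.2
  by_contra h3
  rw [not_or] at h3
  exact h2 ⟨by omega, not_lt.1 h3.2⟩

/-- the difference of the sharp and the smooth weight -/
theorem FG_ne {M D L : ℝ} {lam : ℤ → ℝ} (hM : 3 ≤ M) (hD : 4 ≤ D) (hLD : L ^ 2 * D ≤ M ^ 2) (hlam : Lm L lam) {z : ZI}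
    (h : Fz lam M z - GG lam D M z ≠ 0) : 1 ≤ z.re ∧ ((z.re : ℤ) : ℝ) ≤ L ∧
      (1 - 3 / D) * M ≤ |((z.im : ℤ) : ℝ)| ∧ |((z.im : ℤ) : ℝ)| ≤ M := by
  have hκ : (0 : ℝ) ≤ (1 - 3 / D) := by
    have : 3 / D ≤ 1 := by
      rw [div_le_one (by linarith)]
      linarith
    linarith
  have h2 : lam z.re ≠ 0 := by
    intro h2
    apply h
    unfold Fz GG
    rw [h2, zero_mul, sub_zero, ite_self]
  have h3 := Lm_ne hlam h2
  have h4 : |((z.im : ℤ) : ℝ)| ≤ M := by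
    by_contra h4
    apply h
    unfold Fz GG
    rw [if_neg h4, psi_zero (by linarith)]
    · ring
    · rw [le_div_iff₀ (by linarith), one_mul]
      exact (not_le.1 h4).le.trans (abs_im_le _)
  refine ⟨h3.1, h3.2, ?_, h4⟩
  by_contra h5
  apply h
  have h5' := not_le.1 h5
  unfold Fz GG
  rw [if_pos h4, psi_one (by linarith)]
  · ring
  · rw [div_le_iff₀ (by linarith)]
    have hD1 : (0 : ℝ) ≤ 1 - 1 / D := by
      have : 1 / D ≤ 1 := by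
        rw [div_le_one (by linarith)]
        linarith
      linarith
    apply Real.sqrt_le_iff.2
    refine ⟨by nlinarith, ?_⟩
    rw [nz_eq]
    have a1 : ((z.re : ℤ) : ℝ) ^ 2 ≤ L ^ 2 := by
      have : (1 : ℝ) ≤ ((z.re : ℤ) : ℝ) := by exact_mod_cast h3.1
      have := h3.2
      gcongr
    have a2 : ((z.im : ℤ) : ℝ) ^ 2 ≤ ((1 - 3 / D) * M) ^ 2 := by
      rw [← sq_abs]
      have := abs_nonneg ((z.im : ℤ) : ℝ)
      gcongr
    have a3 : L ^ 2 ≤ M ^ 2 * (1 / D) := by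
      rw [mul_one_div, le_div_iff₀ (by linarith)]
      exact hLD
    have a4 : 1 / D ≤ 1 / 4 := one_div_le_one_div_of_le (by norm_num) hD
    have a5 : 0 < 1 / D := by positivity
    have a6 : (3 : ℝ) / D = 3 * (1 / D) := by ring
    rw [a6] at a2
    have a7 : ((1 - 1 / D) * M) ^ 2 - ((1 - 3 * (1 / D)) * M) ^ 2 - M ^ 2 * (1 / D) =
        M ^ 2 * (1 / D) * (3 - 8 * (1 / D)) := by ring
    have a8 : 0 ≤ M ^ 2 * (1 / D) * (3 - 8 * (1 / D)) := by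
      apply mul_nonneg (by positivity)
      linarith
    linarith

theorem FG_abs {M D L : ℝ} {lam : ℤ → ℝ} (hlam : Lm L lam) (z : ZI) : |Fz lam M z - GG lam D M z| ≤ 1 := by
  unfold Fz GG
  have a1 := psi_nonneg D (Real.sqrt (nz z) / M)
  have a2 := psi_le D (Real.sqrt (nz z) / M)
  have a3 := hlam.1 z.re
  split_ifs
  · rw [show lam z.re - lam z.re * psi D (Real.sqrt (nz z) / M) =
      lam z.re * (1 - psi D (Real.sqrt (nz z) / M)) by ring, abs_mul]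
    rw [abs_of_nonneg (show 0 ≤ 1 - psi D (Real.sqrt (nz z) / M) by linarith)]
    nlinarith [abs_nonneg (lam z.re)]
  · rw [zero_sub, abs_neg, abs_mul, abs_of_nonneg a1]
    nlinarith [abs_nonneg (lam z.re)]

/-- replacing the sharp cut-off by the smooth one -/
theorem smooth4 {M D L : ℝ} {α β : ZI → ℝ} {lam : ℤ → ℝ} (hα : Few M α) (hβ : ∀ w, |β w| ≤ 1) (hM : 3 ≤ M) (hD : 4 ≤ D)
    (hL : 0 ≤ L) (hLM : L ≤ M) (hLD : L ^ 2 * D ≤ M ^ 2) (hlam : Lm L lam) (S1 S2 : Finset ZI) :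
    |∑ w ∈ S1, ∑ v ∈ S2, β w * α v * (Fz lam M (w * v) - GG lam D M (w * v))| ≤ 8 * (L * (3 * M / D + 1)) := by
  classical
  set f : ZI → ZI → ℝ := fun w v => β w * α v * (Fz lam M (w * v) - GG lam D M (w * v)) with hf
  have hf1 : ∀ w v, |f w v| ≤ |α v| := by
    intro w v
    rw [hf]
    simp only
    rw [abs_mul, abs_mul]
    have h1 := hβ w
    have h2 := FG_abs (M := M) (D := D) hlam (w * v)
    have h3 := abs_nonneg (α v)
    calc |β w| * |α v| * |Fz lam M (w * v) - GG lam D M (w * v)| ≤ 1 * |α v| * 1 := by gcongr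
      _ = |α v| := by ring
  have hf2 : ∀ w v : ZI, f w v ≠ 0 → 1 ≤ (w * v).re ∧ (((w * v).re : ℤ) : ℝ) ≤ L ∧
      (1 - 3 / D) * M ≤ |(((w * v).im : ℤ) : ℝ)| ∧ |(((w * v).im : ℤ) : ℝ)| ≤ M := by
    intro w v hne
    apply FG_ne hM hD hLD hlam
    intro h1
    apply hne
    rw [hf]
    simp only
    rw [h1, mul_zero]
  have hκ : (0 : ℝ) ≤ (1 - 3 / D) := by
    have : 3 / D ≤ 1 := by
      rw [div_le_one (by linarith)]
      linarith
    linarith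
  have e1 : ∑ w ∈ S1, ∑ v ∈ S2, f w v =
      ∑ w ∈ S1, ∑ v ∈ S2, (if 0 ≤ (w * v).im then f w v else 0) +
      ∑ w ∈ S1, ∑ v ∈ S2, (if 0 ≤ (w * v).im then 0 else f w v) := by
    rw [← sum_add_distrib]
    apply sum_congr rfl
    intro b _
    rw [← sum_add_distrib]
    apply sum_congr rfl
    intro v _
    split_ifs <;> ring
  change |∑ w ∈ S1, ∑ v ∈ S2, f w v| ≤ _
  rw [e1]
  refine (abs_add_le _ _).trans ?_
  have hM0 : 0 < M := by linarith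
  have hκM : 0 ≤ (1 - 3 / D) * M := by positivity
  have hκM' : (1 - 3 / D) * M ≤ M := by
    have : 0 ≤ 3 / D := by positivity
    nlinarith
  have b1 : |∑ w ∈ S1, ∑ v ∈ S2, (if 0 ≤ (w * v).im then f w v else 0)| ≤ 4 * (L * (M - (1 - 3 / D) * M + 1)) := by
    apply box4 hα hL hLM hκM' (by rw [abs_of_nonneg hκM]; exact hκM') (by rw [abs_of_pos hM0])
    · intro b hb v hv
      split_ifs
      · exact hf1 b v
      · rw [abs_zero]
        exact abs_nonneg _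
    · intro b hb v hv hne
      split_ifs at hne with h0
      · obtain ⟨h1, h2, h3, h4⟩ := hf2 b v hne
        have h5 : (0 : ℝ) ≤ (((b * v).im : ℤ) : ℝ) := by exact_mod_cast h0
        rw [abs_of_nonneg h5] at h3 h4
        exact ⟨h1, h2, h3, h4⟩
      · exact absurd rfl hne
  have b2 : |∑ w ∈ S1, ∑ v ∈ S2, (if 0 ≤ (w * v).im then 0 else f w v)| ≤
      4 * (L * (-((1 - 3 / D) * M) - (-M) + 1)) := by
    apply box4 hα hL hLM (by linarith) (by rw [abs_neg, abs_of_pos hM0])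
      (by rw [abs_neg, abs_of_nonneg hκM]; exact hκM')
    · intro b hb v hv
      split_ifs
      · rw [abs_zero]
        exact abs_nonneg _
      · exact hf1 b v
    · intro b hb v hv hne
      split_ifs at hne with h0
      · exact absurd rfl hne
      · obtain ⟨h1, h2, h3, h4⟩ := hf2 b v hne
        have h5 : (((b * v).im : ℤ) : ℝ) < 0 := by exact_mod_cast (not_le.1 h0)
        rw [abs_of_neg h5] at h3 h4
        exact ⟨h1, h2, by linarith, by linarith⟩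
  refine (add_le_add b1 b2).trans (le_of_eq ?_)
  ring

end Pool.Agent.J4.H69
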