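import Pool.Agent.J4.H69.SBc

/-!
# The frequencies: the bound
-/

set_option autoImplicit false

namespace Pool.Agent.J4.H69

open Finset Filter Topology
open Pool.Agent.N782.GN
open Pool.Agent.N855.GN
open Pool.Agent.N277.GN (ct_nat_mul abs_be_le card_bl)
open Pool.Agent.H304R3.HK (UH bb LamK CS)

/-- sums over primes in classes, in terms of `M` -/
theorem psw (h : ∀ A B D : ℕ, ∃ C : ℝ, 0 < C ∧ ∀ᶠ X : ℝ in atTop,
    ∀ (q : ℕ) (r : ZI) (k : ℤ), 1 ≤ q → (q : ℝ) ≤ (Real.log X) ^ B →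
      IsCoprime r ((q : ℕ) : ZI) → k ≠ 0 → |(k : ℝ)| ≤ X ^ D →
      ‖∑ t ∈ cls q r X, (lp t : ℂ) * ph k 0 t‖ ≤ C * X / (Real.log X) ^ A)
    {τ : ℝ} (hτ : 0 < τ) (A B : ℕ) : ∃ C : ℝ, 0 < C ∧ ∀ᶠ M : ℝ in atTop,
    ∀ (Z : ℝ) (q : ℕ) (r : ZI) (k : ℤ), M ^ τ ≤ Z → 1 ≤ q → (q : ℝ) ≤ (Real.log M) ^ B →
      IsCoprime r ((q : ℕ) : ZI) → k ≠ 0 → |(k : ℝ)| ≤ M ^ 2 →
      ‖∑ t ∈ cls q r Z, (lp t : ℂ) * ph k 0 t‖ ≤ C * Z / (Real.log M) ^ A := by
  obtain ⟨C, hC, h⟩ := h A (B + 1) ⌈2 / τ⌉₊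
  obtain ⟨X0, h⟩ := eventually_atTop.1 h
  refine ⟨C / τ ^ A, by positivity, ?_⟩
  have e1 : ∀ᶠ M : ℝ in atTop, (1 / τ) ^ (B + 1) ≤ Real.log M := Real.tendsto_log_atTop.eventually_ge_atTop _
  have e2 : ∀ᶠ M : ℝ in atTop, max X0 2 ≤ M ^ τ := (tendsto_rpow_atTop hτ).eventually_ge_atTop _
  filter_upwards [e1, e2, eventually_ge_atTop 3] with M hM1 hM2 hM3
  intro Z q r k hZ hq hqB hr hk0 hk
  have hL := one_le_log hM3
  have hM0 : 0 < M := by linarith
  have hZX : X0 ≤ Z := (le_max_left _ _).trans (hM2.trans hZ)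
  have hZ2 : 2 ≤ Z := (le_max_right _ _).trans (hM2.trans hZ)
  have hZ0 : 0 < Z := by linarith
  have hlZ : τ * Real.log M ≤ Real.log Z := by
    rw [← Real.log_rpow hM0]
    exact Real.log_le_log (by positivity) hZ
  have b1 : (q : ℝ) ≤ (Real.log Z) ^ (B + 1) := by
    refine hqB.trans ?_
    have c1 : (Real.log M) ^ B ≤ (τ * Real.log M) ^ (B + 1) := by
      rw [mul_pow, pow_succ (Real.log M) B]
      have c2 : 1 ≤ τ ^ (B + 1) * Real.log M := by
        have c3 : τ ^ (B + 1) * (1 / τ) ^ (B + 1) = 1 := by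
          rw [← mul_pow]
          have : τ * (1 / τ) = 1 := by field_simp
          rw [this, one_pow]
        rw [← c3]
        exact mul_le_mul_of_nonneg_left hM1 (by positivity)
      calc (Real.log M) ^ B = (Real.log M) ^ B * 1 := (mul_one _).symm
        _ ≤ (Real.log M) ^ B * (τ ^ (B + 1) * Real.log M) := mul_le_mul_of_nonneg_left c2 (by positivity)
        _ = _ := by ring
    exact c1.trans (pow_le_pow_left₀ (by positivity) hlZ _)
  have b2 : |(k : ℝ)| ≤ Z ^ ⌈2 / τ⌉₊ := by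
    refine hk.trans ?_
    have c1 : M ^ 2 = (M ^ τ) ^ (2 / τ) := by
      rw [← Real.rpow_mul hM0.le]
      have : τ * (2 / τ) = ((2 : ℕ) : ℝ) := by
        push_cast
        field_simp
      rw [this, Real.rpow_natCast]
    calc M ^ 2 = (M ^ τ) ^ (2 / τ) := c1
      _ ≤ Z ^ (2 / τ) := Real.rpow_le_rpow (by positivity) hZ (by positivity)
      _ ≤ Z ^ ((⌈2 / τ⌉₊ : ℕ) : ℝ) := Real.rpow_le_rpow_of_exponent_le (by linarith) (Nat.le_ceil _)
      _ = Z ^ ⌈2 / τ⌉₊ := Real.rpow_natCast _ _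
  refine (h Z hZX q r k hq b1 hr hk0 b2).trans ?_
  have c1 : (τ * Real.log M) ^ A ≤ (Real.log Z) ^ A := pow_le_pow_left₀ (by positivity) hlZ _
  calc C * Z / (Real.log Z) ^ A ≤ C * Z / (τ * Real.log M) ^ A :=
        div_le_div_of_nonneg_left (by positivity) (by positivity) c1
    _ = C / τ ^ A * Z / (Real.log M) ^ A := by
        rw [mul_pow]
        field_simp

/-- an element of prime norm is coprime to a small rational integer -/
theorem coprime_small {a : ZI} (ha : (Zsqrtd.norm a).natAbs.Prime) {q : ℕ} (hq : 1 ≤ q) (h : (q : ℝ) < nz a) :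
    IsCoprime a ((q : ℕ) : ZI) := by
  rw [nz_nat] at h
  have h' : q < (Zsqrtd.norm a).natAbs := by exact_mod_cast h
  have h1 : IsCoprime (((Zsqrtd.norm a).natAbs : ℕ) : ZI) ((q : ℕ) : ZI) := by
    have h2 : Nat.Coprime (Zsqrtd.norm a).natAbs q :=
      (Nat.Prime.coprime_iff_not_dvd ha).2 fun h3 => by
        have := Nat.le_of_dvd (by omega) h3
        omega
    have h7 := (Nat.isCoprime_iff_coprime.2 h2)
    have h8 := h7.map (Int.castRingHom ZI)
    simpa using h8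
  rw [← mul_star_self a] at h1
  exact IsCoprime.of_mul_left_left h1

theorem coprime_cls {a r : ZI} {q : ℕ} (ha : IsCoprime a ((q : ℕ) : ZI)) (h : ((q : ℕ) : ZI) ∣ a - r) :
    IsCoprime r ((q : ℕ) : ZI) := by
  obtain ⟨k, hk⟩ := h
  obtain ⟨e, f, hef⟩ := ha
  refine ⟨e, f + e * k, ?_⟩
  linear_combination hef - e * hk

/-- **the bound for the frequencies** -/
theorem core (hm : S_MUB) (hel : S_EL) (hmb : S_MB)
    (hps : ∀ A B D : ℕ, ∃ C : ℝ, 0 < C ∧ ∀ᶠ X : ℝ in atTop,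
    ∀ (q : ℕ) (r : ZI) (k : ℤ), 1 ≤ q → (q : ℝ) ≤ (Real.log X) ^ B →
      IsCoprime r ((q : ℕ) : ZI) → k ≠ 0 → |(k : ℝ)| ≤ X ^ D →
      ‖∑ t ∈ cls q r X, (lp t : ℂ) * ph k 0 t‖ ≤ C * X / (Real.log X) ^ A)
    {τ : ℝ} (hτ : 0 < τ) (hτ1 : τ ≤ 1 / 8) (A B : ℕ) : ∀ᶠ M : ℝ in atTop,
    ∀ (V Y1 Y2 : ℝ) (K q : ℕ) (r : ZI), M ^ (4 * τ) ≤ V → V ≤ 4 * M → 1 ≤ K → (K : ℝ) ≤ V / M ^ (5 * τ / 4) →
      1 ≤ q → (q : ℝ) ≤ (Real.log M) ^ B → 0 ≤ Y1 → Y1 ≤ Y2 → Y2 ≤ V →
      ∑ k ∈ Icc (-(K : ℤ)) K, ‖Fk q r Y1 Y2 (M ^ τ) (M ^ (5 * τ / 4)) k‖ ^ 2 ≤ V ^ 2 / (Real.log M) ^ A := by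
  classical
  set E : ℕ := A + 4 with hE
  set J0 : ℕ := E + 1 + 4 * B with hJ0
  set A5 : ℕ := J0 + A + 2 with hA5
  obtain ⟨C1, hC1, h1⟩ := psw hps hτ A5 B
  obtain ⟨C2, hC2, h2⟩ := be0 hmb A5 (B + 1)
  obtain ⟨C3, hC3, h3⟩ := sh_sum hel
  have c1 := logpow (A + 4) (show (0 : ℝ) < 2 * τ by positivity) (show (0 : ℝ) < 1 / C3 by positivity)
  have c2 : ∀ᶠ M : ℝ in atTop, (9 * 13824 * 17 : ℝ) ≤ Real.log M := Real.tendsto_log_atTop.eventually_ge_atTop _
  have c3 := logpow (A + 2) (show (0 : ℝ) < τ / 2 by positivity)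
    (show (0 : ℝ) < 1 / (9 * 81 * 41472) by norm_num)
  have c4 : ∀ᶠ M : ℝ in atTop, 81 * (1296 * (3 * C1) ^ 2 + (18 * C2 / (2 * τ) ^ A5) ^ 2) ≤ Real.log M :=
    Real.tendsto_log_atTop.eventually_ge_atTop _
  have c5 : ∀ᶠ M : ℝ in atTop, (2 : ℝ) ≤ M ^ τ := (tendsto_rpow_atTop hτ).eventually_ge_atTop _
  have c6 := logpow (B + 1) hτ one_pos
  have c7 : ∀ᶠ M : ℝ in atTop, (1 / (2 * τ)) ^ (B + 1) ≤ Real.log M := Real.tendsto_log_atTop.eventually_ge_atTop _
  filter_upwards [h1, c1, c2, c3, c4, c5, c6, c7, eventually_ge_atTop 8] with M h1 c1 c2 c3 c4 c5 c6 c7 hM8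
  intro V Y1 Y2 K q r hV4 hVM hK hKV hq hqB hY1 hY12 hY2
  have hM0 : 0 < M := by linarith
  have hM1 : 1 ≤ M := by linarith
  set y := Real.log M with hy
  have hy1 : 1 ≤ y := one_le_log (by linarith)
  have hy0 : 0 < y := by linarith
  set A1 := M ^ τ with hA1
  set A2 := M ^ (5 * τ / 4) with hA2
  have hA10 : 0 < A1 := by linarith
  have hA12 : A1 ≤ A2 := Real.rpow_le_rpow_of_exponent_le hM1 (by linarith)
  have hA20 : 0 < A2 := by linarith
  have hA21 : 1 ≤ A2 := by linarith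
  have hpw : ∀ s t : ℝ, s ≤ t → M ^ s ≤ M ^ t := fun s t hst => Real.rpow_le_rpow_of_exponent_le hM1 hst
  have hV0 : 0 < V := lt_of_lt_of_le (by positivity) hV4
  have hA2V : A2 ^ 2 ≤ V := by
    refine le_trans ?_ hV4
    rw [hA2, ← Real.rpow_natCast, ← Real.rpow_mul hM0.le]
    apply hpw
    push_cast
    linarith
  have hA22 : 2 ≤ A2 := by linarith
  have h2A2V : 2 * A2 ≤ V := by nlinarith
  have hV1 : 1 ≤ V := by nlinarith
  have hlA2 : Real.log A2 ≤ y := by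
    rw [hA2, Real.log_rpow hM0]
    nlinarith
  have hlA20 : 0 ≤ Real.log A2 := Real.log_nonneg hA21
  have hKV' : (K : ℝ) ≤ V := hKV.trans (div_le_self hV0.le hA21)
  have hK0 : (0 : ℝ) ≤ K := Nat.cast_nonneg K
  -- the cells
  set η : ℝ := 1 / y ^ E with hη
  have hyE : 1 ≤ y ^ E := one_le_pow₀ hy1
  have hη0 : 0 < η := by positivity
  have hη1 : η ≤ 1 := by
    rw [hη, div_le_one (by positivity)]
    exact hyE
  set I : ℕ := ⌈2 * y ^ (E + 1)⌉₊ with hI
  have hI1 : 2 * y ^ (E + 1) ≤ I := Nat.le_ceil _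
  have hI2 : (I : ℝ) ≤ 3 * y ^ (E + 1) := by
    have := Nat.ceil_lt_add_one (show 0 ≤ 2 * y ^ (E + 1) by positivity)
    have h4 : 1 ≤ y ^ (E + 1) := one_le_pow₀ hy1
    linarith
  have hIA : A2 ≤ A1 * (1 + η) ^ I := by
    have e1 : y ≤ I * Real.log (1 + η) := by
      have e2 : η / 2 ≤ Real.log (1 + η) := by
        have e3 := Real.one_sub_inv_le_log_of_pos (show 0 < 1 + η by linarith)
        refine le_trans ?_ e3
        have e4 : 1 - (1 + η)⁻¹ = η / (1 + η) := by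
          field_simp
          ring
        rw [e4]
        apply div_le_div_of_nonneg_left hη0.le (by linarith) (by linarith)
      calc y = 2 * y ^ (E + 1) * (η / 2) := by
            rw [hη, pow_succ]
            field_simp
        _ ≤ I * Real.log (1 + η) := mul_le_mul hI1 e2 (by positivity) (Nat.cast_nonneg _)
    have e2 : M ≤ (1 + η) ^ I := by
      rw [← Real.exp_log hM0, ← hy, ← Real.exp_log (show 0 < (1 + η) ^ I by positivity), Real.log_pow]
      exact Real.exp_le_exp.2 e1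
    have e3 : A2 ≤ M := by
      calc A2 ≤ M ^ (1 : ℝ) := hpw _ _ (by linarith)
        _ = M := Real.rpow_one M
    calc A2 ≤ (1 + η) ^ I := e3.trans e2
      _ = 1 * (1 + η) ^ I := (one_mul _).symm
      _ ≤ A1 * (1 + η) ^ I := mul_le_mul_of_nonneg_right (by linarith) (by positivity)
  have hJ : ((Jx q r I).card : ℝ) ≤ 3 * y ^ J0 := by
    have e1 : ((Jx q r I).card : ℝ) ≤ (I : ℝ) * (q : ℝ) ^ 4 := by exact_mod_cast card_Jx q r I
    have e2 : (q : ℝ) ^ 4 ≤ y ^ (4 * B) := by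
      rw [mul_comm, pow_mul]
      exact pow_le_pow_left₀ (Nat.cast_nonneg _) hqB 4
    calc ((Jx q r I).card : ℝ) ≤ (I : ℝ) * (q : ℝ) ^ 4 := e1
      _ ≤ (3 * y ^ (E + 1)) * y ^ (4 * B) := mul_le_mul hI2 e2 (by positivity) (by positivity)
      _ = 3 * y ^ J0 := by rw [hJ0, pow_add y (E + 1)]; ring
  -- the decomposition
  have hA2V1 : A2 ≤ V := by linarith
  set G1 : ℤ → ℂ := fun k => ∑ a ∈ bg A1 A2, ∑ b ∈ bl V,
      ((lp a * be 1 (a * b) * (chi q r Y1 Y2 (a * b) - Wt q r I A1 A2 η Y1 Y2 a b) : ℝ) : ℂ) * ph k 0 (a * b) with hG1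
  set G2 : ℤ → ℂ := fun k => ∑ a ∈ bg A1 A2, ∑ b ∈ bl V,
      ((lp a * (be 1 (a * b) + be 1 b) * Wt q r I A1 A2 η Y1 Y2 a b : ℝ) : ℂ) * ph k 0 (a * b) with hG2
  set G3 : ℤ → ℂ := fun k => ∑ a ∈ bg A1 A2, ∑ b ∈ bl V,
      ((lp a * be 1 b * Wt q r I A1 A2 η Y1 Y2 a b : ℝ) : ℂ) * ph k 0 (a * b) with hG3
  have hdec : ∀ k : ℤ, Fk q r Y1 Y2 A1 A2 k = G1 k + G2 k - G3 k := by
    intro k
    rw [Fk_eq k hY2 hA2V1, hG1, hG2, hG3]
    simp only
    rw [← sum_add_distrib, ← sum_sub_distrib]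
    refine sum_congr rfl fun a _ => ?_
    rw [← sum_add_distrib, ← sum_sub_distrib]
    refine sum_congr rfl fun b _ => ?_
    push_cast
    ring
  have hnorm : ∀ k : ℤ, ‖Fk q r Y1 Y2 A1 A2 k‖ ^ 2 ≤ 3 * ‖G1 k‖ ^ 2 + 3 * ‖G2 k‖ ^ 2 + 3 * ‖G3 k‖ ^ 2 := by
    intro k
    rw [hdec k]
    have e1 := norm_sub_le (G1 k + G2 k) (G3 k)
    have e2 := norm_add_le (G1 k) (G2 k)
    have n1 := norm_nonneg (G1 k)
    have n2 := norm_nonneg (G2 k)
    have n3 := norm_nonneg (G3 k)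
    have n4 := norm_nonneg (G1 k + G2 k - G3 k)
    have e3 : ‖G1 k + G2 k - G3 k‖ ≤ ‖G1 k‖ + ‖G2 k‖ + ‖G3 k‖ := by linarith
    calc ‖G1 k + G2 k - G3 k‖ ^ 2 ≤ (‖G1 k‖ + ‖G2 k‖ + ‖G3 k‖) ^ 2 := pow_le_pow_left₀ n4 e3 2
      _ ≤ _ := by nlinarith [sq_nonneg (‖G1 k‖ - ‖G2 k‖), sq_nonneg (‖G2 k‖ - ‖G3 k‖), sq_nonneg (‖G1 k‖ - ‖G3 k‖)]
  -- first
  have g1 : ∑ k ∈ Icc (-(K : ℤ)) K, ‖G1 k‖ ^ 2 ≤ V ^ 2 / (9 * y ^ A) := by
    have e1 := G1_le hm hq (r := r) (by linarith) (by linarith) hA12 hη0.le hη1 hIA hY1 hY12 hY2 K hK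
    refine e1.trans ?_
    have e2 := h3 V Y1 Y2 η hV1 hY1 hY12 hY2 hη0.le hη1
    have e3 : Real.log (2 * V) ≤ 2 * y := by
      have d1 : 2 * V ≤ M ^ 2 := by nlinarith
      have d2 := Real.log_le_log (by positivity) d1
      rw [Real.log_pow] at d2
      push_cast at d2
      exact d2
    have e30 : 0 ≤ Real.log (2 * V) := Real.log_nonneg (by linarith)
    have e4 : (4 * Real.log (2 * V)) ^ 2 ≤ 64 * y ^ 2 := by nlinarith
    have e5 : C3 * Real.sqrt V ≤ η * V := by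
      have hsV : M ^ (2 * τ) ≤ Real.sqrt V := by
        apply Real.le_sqrt_of_sq_le
        refine le_trans (le_of_eq ?_) hV4
        rw [← Real.rpow_natCast, ← Real.rpow_mul hM0.le]
        congr 1
        push_cast
        ring
      have d1 : C3 * y ^ E ≤ M ^ (2 * τ) := by
        calc C3 * y ^ E ≤ C3 * (1 / C3 * M ^ (2 * τ)) := mul_le_mul_of_nonneg_left c1 hC3.le
          _ = M ^ (2 * τ) := by field_simp
      have d2 : C3 ≤ η * Real.sqrt V := by
        rw [hη, div_mul_eq_mul_div, one_mul, le_div_iff₀ (by positivity)]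
        exact d1.trans hsV
      calc C3 * Real.sqrt V ≤ η * Real.sqrt V * Real.sqrt V := mul_le_mul_of_nonneg_right d2 (Real.sqrt_nonneg _)
        _ = η * V := by rw [mul_assoc, Real.mul_self_sqrt hV0.le]
    have e6 : ∑ t ∈ bl (2 * V), (sh η Y1 Y2 (nz t)) ^ 2 ≤ 17 * (η * V) := by linarith
    have e7 : (0 : ℝ) ≤ ∑ t ∈ bl (2 * V), (sh η Y1 Y2 (nz t)) ^ 2 := sum_nonneg fun _ _ => sq_nonneg _
    calc 72 * ((K : ℝ) + 2 * V) * ((4 * Real.log (2 * V)) ^ 2 * ∑ t ∈ bl (2 * V), (sh η Y1 Y2 (nz t)) ^ 2)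
        ≤ 72 * (V + 2 * V) * ((64 * y ^ 2) * (17 * (η * V))) := by
          apply mul_le_mul _ (mul_le_mul e4 e6 e7 (by positivity)) (by positivity) (by positivity)
          linarith
      _ = (13824 * 17) * (V ^ 2 / y ^ (A + 2)) := by
          rw [hη, hE, show A + 4 = (A + 2) + 2 by omega, pow_add y (A + 2) 2]
          field_simp
          norm_num
      _ ≤ (y / 9) * (V ^ 2 / y ^ (A + 2)) := by
          apply mul_le_mul_of_nonneg_right _ (by positivity)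
          linarith
      _ = V ^ 2 / (9 * y ^ A) * (1 / y) := by
          rw [pow_add]
          field_simp
      _ ≤ V ^ 2 / (9 * y ^ A) * 1 := by
          apply mul_le_mul_of_nonneg_left _ (by positivity)
          rw [div_le_one hy0]
          exact hy1
      _ = _ := mul_one _
  -- second
  have g2 : ∑ k ∈ Icc (-(K : ℤ)) K, ‖G2 k‖ ^ 2 ≤ V ^ 2 / (9 * y ^ A) := by
    have e1 := G2_le hm hq (r := r) (Y1 := Y1) c5 hA12 hη0.le hη1 hIA hY2 hA2V K hK hKV
    refine e1.trans ?_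
    have e2 : A2 ^ 2 * M ^ (τ / 2) = A1 ^ 3 := by
      rw [hA2, hA1, ← Real.rpow_natCast, ← Real.rpow_natCast, ← Real.rpow_mul hM0.le, ← Real.rpow_mul hM0.le,
        ← Real.rpow_add hM0]
      congr 1
      push_cast
      ring
    have hMτ : 0 < M ^ (τ / 2) := by positivity
    calc (9 * A2 * Real.log A2) ^ 2 * (41472 * V ^ 2 / A1 ^ 3)
        ≤ (9 * A2 * y) ^ 2 * (41472 * V ^ 2 / A1 ^ 3) := by gcongr
      _ = (81 * 41472) * V ^ 2 * y ^ 2 / M ^ (τ / 2) := by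
          rw [← e2]
          field_simp
          norm_num
      _ ≤ V ^ 2 / (9 * y ^ A) := by
          rw [div_le_div_iff₀ hMτ (by positivity)]
          have e3 : (9 * 81 * 41472 : ℝ) * y ^ (A + 2) ≤ M ^ (τ / 2) := by
            calc (9 * 81 * 41472 : ℝ) * y ^ (A + 2) ≤ (9 * 81 * 41472 : ℝ) * (1 / (9 * 81 * 41472) * M ^ (τ / 2)) := by
                  gcongr
              _ = M ^ (τ / 2) := by ring
          calc 81 * 41472 * V ^ 2 * y ^ 2 * (9 * y ^ A) = V ^ 2 * ((9 * 81 * 41472 : ℝ) * y ^ (A + 2)) := by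
                rw [pow_add]
                ring
            _ ≤ V ^ 2 * M ^ (τ / 2) := by gcongr
  -- third
  have g3 : ∑ k ∈ Icc (-(K : ℤ)) K, ‖G3 k‖ ^ 2 ≤ V ^ 2 / (9 * y ^ A) := by
    have e1 := G3_le (q := q) (r := r) (I := I) (A1 := A1) (A2 := A2) (V := V) (η := η) (Y1 := Y1) (Y2 := Y2)
      (cA := 3 * C1 / y ^ A5) (cB := C2 / (2 * τ * y) ^ A5) (by linarith) hA12 hη0.le hη1 hY1 hY12 hY2 h2A2V K hK hKV
      (by positivity) (by positivity) (by
        intro k hk0 hkK p hp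
        set a0 := As A1 A2 η p.1 with ha0
        have ha1 : A1 ≤ a0 := As_ge hA12 (by linarith) hη0.le p.1
        have has : As A1 A2 η (p.1 + 1) ≤ 2 * a0 := by
          have := As_succ (w := A1) (V := A2) (by linarith) hη0.le p.1
          rw [← ha0] at this
          nlinarith
        have hmono : a0 ≤ As A1 A2 η (p.1 + 1) := As_mono (by linarith) hη0.le (Nat.le_succ p.1)
        have hkM : |(k : ℝ)| ≤ M ^ 2 := by
          have : (4 : ℝ) * M ≤ M ^ 2 := by nlinarith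
          linarith
        unfold Ap
        rw [← ha0]
        by_cases hc : IsCoprime p.2.1 ((q : ℕ) : ZI)
        · rw [SA_sum hmono]
          refine (norm_sub_le _ _).trans ?_
          have d1 := h1 a0 q p.2.1 k ha1 hq hqB hc hk0 hkM
          have d2 := h1 (As A1 A2 η (p.1 + 1)) q p.2.1 k (ha1.trans hmono) hq hqB hc hk0 hkM
          have d3 : C1 * As A1 A2 η (p.1 + 1) / y ^ A5 ≤ C1 * (2 * a0) / y ^ A5 := by gcongr
          have d4 : 3 * C1 / y ^ A5 * a0 = C1 * (2 * a0) / y ^ A5 + C1 * a0 / y ^ A5 := by ring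
          rw [d4]
          linarith
        · rw [sum_eq_zero, norm_zero]
          · have : 0 < a0 := by linarith
            positivity
          · intro a ha
            rw [mem_SA] at ha
            by_cases hlp : lp a = 0
            · rw [hlp]
              simp
            · exfalso
              apply hc
              have d1 : (q : ℝ) < nz a := by
                have d2 : y ^ B ≤ y ^ (B + 1) := pow_le_pow_right₀ hy1 (Nat.le_succ B)
                rw [one_mul] at c6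
                linarith [ha.2.2.2]
              exact coprime_cls (coprime_small (lp_ne hlp) hq d1) ha.2.2.1) (by
        intro p hp
        set a0 := As A1 A2 η p.1 with ha0
        have ha1 : A1 ≤ a0 := As_ge hA12 (by linarith) hη0.le p.1
        have ha2 : a0 ≤ A2 := As_le _ _ _ _
        have ha00 : 0 < a0 := by linarith
        have hVi : M ^ (2 * τ) ≤ V / a0 := by
          rw [le_div_iff₀ ha00]
          calc M ^ (2 * τ) * a0 ≤ M ^ (2 * τ) * M ^ (5 * τ / 4) := by gcongr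
            _ = M ^ (2 * τ + 5 * τ / 4) := by rw [← Real.rpow_add hM0]
            _ ≤ M ^ (4 * τ) := hpw _ _ (by linarith)
            _ ≤ V := hV4
        have hVi2 : 2 ≤ V / a0 := by
          rw [le_div_iff₀ ha00]
          linarith
        have hlV : 2 * τ * y ≤ Real.log (V / a0) := by
          rw [hy, ← Real.log_rpow hM0]
          exact Real.log_le_log (by positivity) hVi
        have hqV : (q : ℝ) ≤ (Real.log (V / a0)) ^ (B + 1) := by
          refine hqB.trans ?_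
          have d1 : y ^ B ≤ (2 * τ * y) ^ (B + 1) := by
            rw [mul_pow, pow_succ y B]
            have d2 : 1 ≤ (2 * τ) ^ (B + 1) * y := by
              have d3 : (2 * τ) ^ (B + 1) * (1 / (2 * τ)) ^ (B + 1) = 1 := by
                rw [← mul_pow]
                have : 2 * τ * (1 / (2 * τ)) = 1 := by field_simp
                rw [this, one_pow]
              rw [← d3]
              exact mul_le_mul_of_nonneg_left c7 (by positivity)
            calc y ^ B = y ^ B * 1 := (mul_one _).symm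
              _ ≤ y ^ B * ((2 * τ) ^ (B + 1) * y) := mul_le_mul_of_nonneg_left d2 (by positivity)
              _ = _ := by ring
          exact d1.trans (pow_le_pow_left₀ (by positivity) hlV _)
        have d1 := h2 (V / a0) (Y1 / a0) (Y2 / a0) q p.2.2 hVi2 (by positivity)
          (div_le_div_of_nonneg_right hY12 ha00.le) (div_le_div_of_nonneg_right hY2 ha00.le) hq hqV
        have d2 : Bp q A1 A2 η Y1 Y2 0 p = ((∑ t ∈ SA q p.2.2 (Y1 / a0) (Y2 / a0), be 1 t : ℝ) : ℂ) := by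
          unfold Bp
          rw [← ha0]
          push_cast
          refine sum_congr rfl fun b _ => ?_
          have : ph 0 0 b = 1 := by
            unfold ph
            simp
          rw [this, mul_one]
        rw [d2, Complex.norm_real, Real.norm_eq_abs]
        refine d1.trans ?_
        have d3 : (2 * τ * y) ^ A5 ≤ (Real.log (V / a0)) ^ A5 := pow_le_pow_left₀ (by positivity) hlV _
        calc C2 * (V / a0) / (Real.log (V / a0)) ^ A5 ≤ C2 * (V / a0) / (2 * τ * y) ^ A5 :=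
              div_le_div_of_nonneg_left (by positivity) (by positivity) d3
          _ = C2 / (2 * τ * y) ^ A5 * (V / a0) := by ring)
    refine e1.trans ?_
    have e2 : ((Jx q r I).card : ℝ) ^ 2 ≤ 9 * y ^ (2 * J0) := by
      calc ((Jx q r I).card : ℝ) ^ 2 ≤ (3 * y ^ J0) ^ 2 := pow_le_pow_left₀ (Nat.cast_nonneg _) hJ 2
        _ = 9 * y ^ (2 * J0) := by rw [mul_pow, ← pow_mul, mul_comm J0 2]; norm_num
    have e3 : (18 * Real.log A2 * (C2 / (2 * τ * y) ^ A5)) ^ 2 ≤ (18 * C2 / (2 * τ) ^ A5) ^ 2 * (y ^ 2 / y ^ (2 * A5)) := by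
      calc (18 * Real.log A2 * (C2 / (2 * τ * y) ^ A5)) ^ 2 ≤ (18 * y * (C2 / (2 * τ * y) ^ A5)) ^ 2 := by gcongr
        _ = (18 * C2 / (2 * τ) ^ A5) ^ 2 * (y ^ 2 / y ^ (2 * A5)) := by
            rw [mul_pow (2 * τ) y, pow_mul' y 2 A5]
            field_simp
    have e4 : 1296 * (3 * C1 / y ^ A5) ^ 2 ≤ 1296 * (3 * C1) ^ 2 * (y ^ 2 / y ^ (2 * A5)) := by
      have : 1296 * (3 * C1 / y ^ A5) ^ 2 = 1296 * (3 * C1) ^ 2 * (1 / y ^ (2 * A5)) := by
        rw [pow_mul' y 2 A5]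
        field_simp
      rw [this]
      gcongr
      exact one_le_pow₀ hy1
    set c0 := 1296 * (3 * C1) ^ 2 + (18 * C2 / (2 * τ) ^ A5) ^ 2 with hc0
    have hc00 : 0 ≤ c0 := by positivity
    calc ((Jx q r I).card : ℝ) ^ 2 * (V ^ 2 * (1296 * (3 * C1 / y ^ A5) ^ 2 +
          (18 * Real.log A2 * (C2 / (2 * τ * y) ^ A5)) ^ 2))
        ≤ (9 * y ^ (2 * J0)) * (V ^ 2 * (c0 * (y ^ 2 / y ^ (2 * A5)))) := by
          apply mul_le_mul e2 _ (by positivity) (by positivity)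
          apply mul_le_mul_of_nonneg_left _ (by positivity)
          rw [hc0, add_mul]
          linarith
      _ = (81 * c0) * (V ^ 2 / (9 * y ^ A)) * (1 / y ^ (A + 2)) := by
          rw [hA5, show 2 * (J0 + A + 2) = 2 * J0 + (2 + (A + (A + 2))) by ring, pow_add y (2 * J0), pow_add y 2,
            pow_add y A (A + 2)]
          field_simp
          ring
      _ ≤ y * (V ^ 2 / (9 * y ^ A)) * (1 / y ^ (A + 2)) := by gcongr
      _ = V ^ 2 / (9 * y ^ A) * (y / y ^ (A + 2)) := by ring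
      _ ≤ V ^ 2 / (9 * y ^ A) * 1 := by
          apply mul_le_mul_of_nonneg_left _ (by positivity)
          rw [div_le_one (by positivity)]
          calc y = y ^ 1 := (pow_one y).symm
            _ ≤ y ^ (A + 2) := pow_le_pow_right₀ hy1 (by omega)
      _ = _ := mul_one _
  refine (sum_le_sum fun k _ => hnorm k).trans ?_
  rw [sum_add_distrib, sum_add_distrib, ← mul_sum, ← mul_sum, ← mul_sum]
  have hfin : V ^ 2 / y ^ A = 9 * (V ^ 2 / (9 * y ^ A)) := by field_simp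
  rw [hfin]
  linarith

end Pool.Agent.J4.H69
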