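import Pool.Agent.J4.H69.BLa
import Pool.Agent.J4.H69.SBd

/-!
# Bilinear sums: all blocks
-/

set_option autoImplicit false

namespace Pool.Agent.J4.H69

open Finset Filter Topology
open Pool.Agent.N782.GN
open Pool.Agent.N855.GN (Dv mem_Dv logpow)
open Pool.Agent.N277.GN

/-- the blocks -/
noncomputable def Bb (β α : ZI → ℝ) (lam : ℤ → ℝ) (D M R P : ℝ) : ℝ :=
  ∑ w ∈ bq (R ^ 2) (4 * R ^ 2), ∑ v ∈ bq (P ^ 2) (4 * P ^ 2), β w * α v * GG lam D M (w * v)

theorem GG_zero {lam : ℤ → ℝ} {D M : ℝ} {w v : ZI} (hD : 0 ≤ D) (hM : 0 < M)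
    (h : M ^ 2 ≤ nz w * nz v) : GG lam D M (w * v) = 0 := by
  unfold GG
  rw [psi_zero hD, mul_zero]
  rw [le_div_iff₀ hM, one_mul, nz_mul]
  exact Real.le_sqrt_of_sq_le h

theorem GG_abs {L : ℝ} {lam : ℤ → ℝ} (hlam : Lm L lam) (D M : ℝ) (z : ZI) : |GG lam D M z| ≤ 1 := by
  unfold GG
  rw [abs_mul, abs_of_nonneg (psi_nonneg _ _)]
  have a2 := hlam.1 z.re
  have a3 := psi_le D (Real.sqrt (nz z) / M)
  have a4 := psi_nonneg D (Real.sqrt (nz z) / M)
  calc |lam z.re| * psi D (Real.sqrt (nz z) / M) ≤ 1 * 1 := by gcongr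
    _ = 1 := by norm_num

theorem Bb_zero {β α : ZI → ℝ} {lam : ℤ → ℝ} {D M R P : ℝ} (hD : 0 ≤ D) (hM : 0 < M) (hR : 0 ≤ R) (hP : 0 ≤ P)
    (h : M ≤ R * P) : Bb β α lam D M R P = 0 := by
  unfold Bb
  apply sum_eq_zero
  intro w hw
  apply sum_eq_zero
  intro v hv
  rw [GG_zero hD hM, mul_zero]
  have h1 := (mem_bq.1 hw).2.2
  have h2 := (mem_bq.1 hv).2.2
  calc M ^ 2 ≤ (R * P) ^ 2 := by gcongr
    _ = R ^ 2 * P ^ 2 := by ring
    _ ≤ nz w * nz v := mul_le_mul h1.le h2.le (sq_nonneg _) (nz_nonneg _)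

theorem Bb_zero' {β α : ZI → ℝ} {lam : ℤ → ℝ} {D M R P U : ℝ} (hα : ∀ v, α v ≠ 0 → nz v ≤ U)
    (h : U ≤ P ^ 2) : Bb β α lam D M R P = 0 := by
  unfold Bb
  apply sum_eq_zero
  intro w hw
  apply sum_eq_zero
  intro v hv
  have h2 := (mem_bq.1 hv).2.2
  have h3 : α v = 0 := by
    by_contra h3
    have := hα v h3
    linarith
  rw [h3]
  ring

theorem Bb_good {β α : ZI → ℝ} {lam : ℤ → ℝ} {C : ℝ} {a : ℕ} {L D M R P : ℝ} (hC : 0 < C) (hα : ∀ v, |α v| ≤ 1)
    (hL : 0 ≤ L) (hM : 3 ≤ M) (hR : 0 ≤ R) (hP : 1 ≤ P)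
    (key : ∑ v ∈ bl (9 * P ^ 2), Phi (Real.sqrt (nz v) / P) * (∑ w ∈ (bl (4 * R ^ 2)).filter (fun w => R ^ 2 < nz w),
      β w * lam (w * v).re * psi D (Real.sqrt (nz (w * v)) / M)) ^ 2 ≤ C * L ^ 2 * R ^ 2 / (Real.log M) ^ (2 * a)) :
    |Bb β α lam D M R P| ≤ 6 * Real.sqrt C * (L * (R * P)) / (Real.log M) ^ a := by
  classical
  have hlog : 0 < Real.log M := Real.log_pos (by linarith)
  set inner : ZI → ℝ := fun v => ∑ w ∈ (bl (4 * R ^ 2)).filter (fun w => R ^ 2 < nz w),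
    β w * lam (w * v).re * psi D (Real.sqrt (nz (w * v)) / M) with hin
  have e1 : Bb β α lam D M R P = ∑ v ∈ bq (P ^ 2) (4 * P ^ 2), α v * inner v := by
    unfold Bb
    rw [sum_comm]
    apply sum_congr rfl
    intro v _
    rw [hin]
    simp only
    rw [mul_sum]
    apply sum_congr rfl
    intro w _
    unfold GG
    ring
  have h1 : ∑ v ∈ bq (P ^ 2) (4 * P ^ 2), inner v ^ 2 ≤ C * L ^ 2 * R ^ 2 / (Real.log M) ^ (2 * a) := by
    refine le_trans ?_ key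
    have s1 : bq (P ^ 2) (4 * P ^ 2) ⊆ bl (9 * P ^ 2) := by
      intro v hv
      have hv' := mem_bq.1 hv
      rw [mem_bl]
      refine ⟨hv'.1, hv'.2.1.trans ?_⟩
      nlinarith [sq_nonneg P]
    refine le_trans ?_ (sum_le_sum_of_subset_of_nonneg s1 ?_)
    · apply sum_le_sum
      intro v hv
      have hv' := mem_bq.1 hv
      rw [Phi_one, one_mul]
      · rw [le_div_iff₀ (by linarith), one_mul]
        exact Real.le_sqrt_of_sq_le hv'.2.2.le
      · rw [div_le_iff₀ (by linarith)]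
        apply Real.sqrt_le_iff.2
        refine ⟨by linarith, ?_⟩
        nlinarith [hv'.2.1]
    · intro v _ _
      exact mul_nonneg (Phi_nonneg _) (sq_nonneg _)
  have h2 : ∑ v ∈ bq (P ^ 2) (4 * P ^ 2), (α v) ^ 2 ≤ 36 * P ^ 2 := by
    have b1 : ∀ v ∈ bq (P ^ 2) (4 * P ^ 2), (α v) ^ 2 ≤ 1 := by
      intro v hv
      have := hα v
      rw [← sq_abs]
      have := abs_nonneg (α v)
      nlinarith
    refine (sum_le_sum b1).trans ?_
    rw [sum_const, nsmul_eq_mul]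
    have c5 : ((bq (P ^ 2) (4 * P ^ 2)).card : ℝ) ≤ 9 * (4 * P ^ 2) := by
      refine le_trans ?_ (card_bl (4 * P ^ 2) (by nlinarith))
      exact_mod_cast card_filter_le _ _
    nlinarith
  have h3 : (Bb β α lam D M R P) ^ 2 ≤ (6 * Real.sqrt C * (L * (R * P)) / (Real.log M) ^ a) ^ 2 := by
    rw [e1]
    refine (sum_mul_sq_le_sq_mul_sq _ _ _).trans ?_
    have c1 : 0 ≤ ∑ v ∈ bq (P ^ 2) (4 * P ^ 2), inner v ^ 2 := sum_nonneg fun v _ => sq_nonneg _
    refine (mul_le_mul h2 h1 c1 (by positivity)).trans (le_of_eq ?_)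
    rw [div_pow, ← pow_mul, mul_comm a 2, mul_pow, mul_pow, mul_pow, Real.sq_sqrt hC.le]
    ring
  apply abs_le_of_sq_le_sq h3
  positivity

theorem Bb_bad {β α : ZI → ℝ} {lam : ℤ → ℝ} {L D M R P H : ℝ} (hα : Few M α) (hβ : ∀ w, |β w| ≤ 1)
    (hlam : Lm L lam) (hL : 0 ≤ L) (hLM : L ≤ M) (hR : 0 ≤ R) (hP : 0 ≤ P) (hH : 4 * (R * P) ≤ H) (hHM : H ≤ M) :
    |Bb β α lam D M R P| ≤ 4 * (L * (2 * H + 1)) := by
  have hRP : 0 ≤ R * P := mul_nonneg hR hP
  have hH0 : 0 ≤ H := by linarith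
  have e : H - -H + 1 = 2 * H + 1 := by ring
  rw [← e]
  unfold Bb
  apply box4 hα hL hLM (by linarith) (by rw [abs_neg, abs_of_nonneg hH0]; exact hHM)
    (by rw [abs_of_nonneg hH0]; exact hHM)
  · intro w _ v _
    rw [abs_mul, abs_mul]
    have h1 := hβ w
    have h2 := GG_abs hlam D M (w * v)
    calc |β w| * |α v| * |GG lam D M (w * v)| ≤ 1 * |α v| * 1 := by gcongr
      _ = |α v| := by ring
  · intro w hw v hv hne
    have h1 : lam (w * v).re ≠ 0 := by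
      intro h1
      apply hne
      unfold GG
      rw [h1]
      ring
    obtain ⟨h1, h2⟩ := Lm_ne hlam h1
    have hw' := mem_bq.1 hw
    have hv' := mem_bq.1 hv
    have h3 : |(((w * v).im : ℤ) : ℝ)| ≤ H := by
      refine (abs_im_le (w * v)).trans ?_
      refine le_trans ?_ hH
      apply Real.sqrt_le_iff.2
      refine ⟨by linarith, ?_⟩
      rw [nz_mul]
      calc nz w * nz v ≤ (4 * R ^ 2) * (4 * P ^ 2) :=
            mul_le_mul hw'.2.1 hv'.2.1 (nz_nonneg v) (by positivity)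
        _ = (4 * (R * P)) ^ 2 := by ring
    rw [abs_le] at h3
    exact ⟨h1, h2, h3.1, h3.2⟩

/-- decomposition into blocks -/
theorem Bb_sum {β α : ZI → ℝ} {lam : ℤ → ℝ} {D M W : ℝ} (hD : 0 ≤ D) (hM : 0 < M) (hW : 0 < W)
    (hα : ∀ v, α v ≠ 0 → W < nz v) (I J : ℕ) (hI : M ^ 2 ≤ 4 ^ I * (1 / 2)) (hJ : M ^ 2 ≤ 4 ^ J * W) :
    ∑ w ∈ bl (2 * M ^ 2), ∑ v ∈ bl (2 * M ^ 2), β w * α v * GG lam D M (w * v) =
      ∑ i ∈ range I, ∑ j ∈ range J, Bb β α lam D M (2 ^ i * Real.sqrt (1 / 2)) (2 ^ j * Real.sqrt W) := by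
  classical
  set f : ZI → ZI → ℝ := fun w v => β w * α v * GG lam D M (w * v) with hf
  have hM2 : M ^ 2 ≤ 2 * M ^ 2 := by nlinarith [sq_nonneg M]
  have s1 : ∀ w : ZI, w ≠ 0 → ∑ v ∈ bl (2 * M ^ 2), f w v = ∑ v ∈ bq W (4 ^ J * W), f w v := by
    intro w hw
    have h1 : ∑ v ∈ bq W (2 * M ^ 2), f w v = ∑ v ∈ bl (2 * M ^ 2), f w v := by
      unfold bq
      apply sum_filter_of_ne
      intro v _ hne
      apply hα
      intro h
      apply hne
      rw [hf]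
      simp only
      rw [h]
      ring
    rw [← h1]
    apply sum_bq_eq (T := M ^ 2) _ _ hM2 hJ
    intro v hv hMv
    rw [hf]
    simp only
    rw [GG_zero hD hM, mul_zero]
    have h2 := one_le_nz hw
    have h4 := nz_nonneg v
    calc M ^ 2 ≤ nz v := hMv
      _ ≤ nz w * nz v := by nlinarith
  have s2 : ∑ w ∈ bl (2 * M ^ 2), ∑ v ∈ bl (2 * M ^ 2), f w v =
      ∑ w ∈ bq (1 / 2) (2 * M ^ 2), ∑ v ∈ bq W (4 ^ J * W), f w v := by
    have : bq (1 / 2) (2 * M ^ 2) = bl (2 * M ^ 2) := by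
      unfold bq
      apply filter_true_of_mem
      intro w hw
      have := one_le_nz ((mem_bl _ _).1 hw).1
      linarith
    rw [this]
    apply sum_congr rfl
    intro w hw
    exact s1 w ((mem_bl _ _).1 hw).1
  change ∑ w ∈ bl (2 * M ^ 2), ∑ v ∈ bl (2 * M ^ 2), f w v = _
  rw [s2]
  have s3 : ∑ w ∈ bq (1 / 2) (2 * M ^ 2), ∑ v ∈ bq W (4 ^ J * W), f w v =
      ∑ w ∈ bq (1 / 2) (4 ^ I * (1 / 2)), ∑ v ∈ bq W (4 ^ J * W), f w v := by
    apply sum_bq_eq (T := M ^ 2) _ _ hM2 hI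
    intro w hw hMw
    apply sum_eq_zero
    intro v hv
    rw [hf]
    simp only
    rw [GG_zero hD hM, mul_zero]
    have h2 := one_le_nz (mem_bq.1 hv).1
    have h4 := nz_nonneg w
    nlinarith
  rw [s3, ← sum_bq_pow (by norm_num)]
  apply sum_congr rfl
  intro i _
  have s4 : ∀ w : ZI, ∑ v ∈ bq W (4 ^ J * W), f w v = ∑ j ∈ range J, ∑ v ∈ bq (4 ^ j * W) (4 * (4 ^ j * W)), f w v :=
    fun w => (sum_bq_pow hW.le _ _).symm
  rw [sum_congr rfl (fun w _ => s4 w), sum_comm]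
  apply sum_congr rfl
  intro j _
  unfold Bb
  have e1 : (2 ^ i * Real.sqrt (1 / 2)) ^ 2 = 4 ^ i * (1 / 2) := by
    rw [mul_pow, Real.sq_sqrt (by norm_num), ← pow_mul, mul_comm i 2, pow_mul]
    norm_num
  have e2 : (2 ^ j * Real.sqrt W) ^ 2 = 4 ^ j * W := by
    rw [mul_pow, Real.sq_sqrt hW.le, ← pow_mul, mul_comm j 2, pow_mul]
    norm_num
  rw [e1, e2]

/-- the hypothesis for sectors -/
def HS (M L ε : ℝ) (A' B' : ℕ) (β : ZI → ℝ) : Prop := ∀ R : ℝ, 0 < R → M / L * M ^ (ε / 2) ≤ R ^ 2 → R ^ 2 ≤ M →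
  ∀ (q : ℕ) (r : ZI) (Y1 Y2 : ℝ), 1 ≤ q → (q : ℝ) ≤ (Real.log M) ^ B' → 0 ≤ Y1 → Y1 ≤ Y2 → Y2 ≤ 4 * R ^ 2 →
    ∫ x in (0 : ℝ)..(2 * Real.pi), (∑ t ∈ (cls q r Y2).filter (fun t => Y1 < nz t),
      β t * sc (L / M / (Real.log M) ^ B') x t) ^ 2 ≤ (L / M) ^ 2 * R ^ 4 / (Real.log M) ^ A'

/-- **the bilinear sums** -/
theorem ii2 (hT : S_TG2) {ε : ℝ} (hε : 0 < ε) (hε1 : ε ≤ 1) (A : ℕ) : ∃ A' B' : ℕ, ∀ᶠ M : ℝ in atTop,
    ∀ (L : ℝ) (β α : ZI → ℝ) (lam : ℤ → ℝ), 1 ≤ L → L ≤ M ^ (1 - ε) → (∀ w, |β w| ≤ 1) →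
    (∀ w, ct w ≠ 1 → β w = 0) → Few M α → (∀ v, α v ≠ 0 → M ^ (1 + ε) < nz v ∧ nz v ≤ L * M ^ (1 - ε)) →
    Lm L lam → HS M L ε A' B' β →
    |∑ w ∈ bl (2 * M ^ 2), ∑ v ∈ bl (2 * M ^ 2), β w * α v * Fz lam M (w * v)| ≤ L * M / (Real.log M) ^ A := by
  obtain ⟨A', B', C, hC, hT⟩ := hT (ε / 2) (2 * (A + 3)) (A + 4) (by linarith)
  refine ⟨A', B', ?_⟩
  have d2 : ∀ᶠ M : ℝ in atTop, max (216 * Real.sqrt C) 256 ≤ Real.log M :=
    Real.tendsto_log_atTop.eventually_ge_atTop _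
  have d3 := logpow (2 * A + 8) (show (0 : ℝ) < ε / 2 by positivity) one_pos
  have d4 := logpow (A + 3) (show (0 : ℝ) < 1 / 2 by norm_num) one_pos
  filter_upwards [d2, d3, d4, eventually_ge_atTop 3] with M d2 d3 d4 hM3
  intro L β α lam hL1 hLM hβ hβ1 hα hα1 hlam hS
  rw [one_mul] at d3 d4
  have hM0 : 0 < M := by linarith
  have hM1 : 1 ≤ M := by linarith
  have hL0 : 0 < L := by linarith
  set y := Real.log M with hy
  have d2a : 216 * Real.sqrt C ≤ y := (le_max_left _ _).trans d2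
  have d2b : 256 ≤ y := (le_max_right _ _).trans d2
  have hy0 : 0 < y := by linarith
  have hy1 : 1 ≤ y := by linarith
  have hLM' : L ≤ M := by
    refine hLM.trans ?_
    calc M ^ (1 - ε) ≤ M ^ (1 : ℝ) := Real.rpow_le_rpow_of_exponent_le hM1 (by linarith)
      _ = M := Real.rpow_one M
  set D := y ^ (A + 2) with hD
  have hD0 : 0 < D := by positivity
  have hD4 : 4 ≤ D := by
    calc (4 : ℝ) ≤ y ^ 1 := by rw [pow_one]; linarith
      _ ≤ y ^ (A + 2) := pow_le_pow_right₀ hy1 (by omega)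
  have hDε : D ≤ M ^ (ε / 2) := (pow_le_pow_right₀ hy1 (by omega)).trans d3
  have hDL : L ^ 2 * D ≤ M ^ 2 := by
    have e1 : L ^ 2 ≤ M ^ (2 - 2 * ε) := by
      calc L ^ 2 ≤ (M ^ (1 - ε)) ^ 2 := by gcongr
        _ = M ^ (2 - 2 * ε) := by
            rw [← Real.rpow_natCast, ← Real.rpow_mul hM0.le]
            congr 1
            push_cast
            ring
    calc L ^ 2 * D ≤ M ^ (2 - 2 * ε) * M ^ (ε / 2) := by gcongr
      _ = M ^ (2 - 3 * ε / 2) := by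
          rw [← Real.rpow_add hM0]
          congr 1
          ring
      _ ≤ M ^ (2 : ℝ) := Real.rpow_le_rpow_of_exponent_le hM1 (by linarith)
      _ = M ^ 2 := by
          rw [← Real.rpow_natCast]
          norm_num
  -- splitting
  have e1 : ∑ w ∈ bl (2 * M ^ 2), ∑ v ∈ bl (2 * M ^ 2), β w * α v * Fz lam M (w * v) =
      ∑ w ∈ bl (2 * M ^ 2), ∑ v ∈ bl (2 * M ^ 2), β w * α v * (Fz lam M (w * v) - GG lam D M (w * v)) +
      ∑ w ∈ bl (2 * M ^ 2), ∑ v ∈ bl (2 * M ^ 2), β w * α v * GG lam D M (w * v) := by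
    rw [← sum_add_distrib]
    apply sum_congr rfl
    intro w _
    rw [← sum_add_distrib]
    apply sum_congr rfl
    intro v _
    ring
  rw [e1]
  refine (abs_add_le _ _).trans ?_
  have p1 := smooth4 hα hβ hM3 hD4 hL0.le hLM' hDL hlam (bl (2 * M ^ 2)) (bl (2 * M ^ 2))
  set I := ⌈3 * y⌉₊ with hI
  have hI1 : (I : ℝ) ≤ 4 * y := by
    have := Nat.ceil_lt_add_one (show 0 ≤ 3 * y by positivity)
    linarith
  have hI2 : 2 * M ^ 2 ≤ 4 ^ I := by
    have e1 : M ^ 3 = Real.exp (3 * y) := by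
      rw [hy, show 3 * Real.log M = Real.log M + Real.log M + Real.log M by ring, Real.exp_add, Real.exp_add,
        Real.exp_log hM0]
      ring
    have e2 : Real.exp (3 * y) ≤ Real.exp I := Real.exp_le_exp.2 (Nat.le_ceil _)
    have e3 : Real.exp I = (Real.exp 1) ^ I := by
      rw [← Real.exp_nat_mul, mul_one]
    have e4 : (Real.exp 1) ^ I ≤ 4 ^ I := by
      apply pow_le_pow_left₀ (Real.exp_pos 1).le
      have := Real.exp_one_lt_d9
      linarith
    have e5 : 2 * M ^ 2 ≤ M ^ 3 := by nlinarith [sq_nonneg M]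
    linarith [e3 ▸ e4]
  set W := M ^ (1 + ε) with hW
  have hW1 : 1 ≤ W := Real.one_le_rpow hM1 (by linarith)
  have p2 := Bb_sum (β := β) (lam := lam) hD0.le hM0 (by linarith : 0 < W) (fun v hv => (hα1 v hv).1) I I
    (by linarith) (by nlinarith)
  -- the blocks
  set E := 6 * Real.sqrt C * (L * M) / y ^ (A + 3) + 4 * (L * (8 * M / y ^ (A + 4) + 1)) with hE
  have hE0 : 0 ≤ E := by positivity
  have hblock : ∀ i j : ℕ, |Bb β α lam D M (2 ^ i * Real.sqrt (1 / 2)) (2 ^ j * Real.sqrt W)| ≤ E := by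
    intro i j
    set R := 2 ^ i * Real.sqrt (1 / 2) with hR
    set P := 2 ^ j * Real.sqrt W with hP
    have hR0 : 0 < R := by positivity
    have hsW : 1 ≤ Real.sqrt W := Real.one_le_sqrt.2 hW1
    have h2j : (1 : ℝ) ≤ 2 ^ j := one_le_pow₀ (by norm_num)
    have hP1 : 1 ≤ P := by
      rw [hP]
      nlinarith
    have hP0 : 0 < P := by linarith
    have hPW : W ≤ P ^ 2 := by
      rw [hP, mul_pow, Real.sq_sqrt (by linarith)]
      have : (1 : ℝ) ≤ (2 ^ j) ^ 2 := one_le_pow₀ h2j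
      nlinarith
    by_cases c1 : M ≤ R * P
    · rw [Bb_zero hD0.le hM0 hR0.le hP0.le c1, abs_zero]
      exact hE0
    have c1' := (not_le.1 c1).le
    by_cases c2 : L * M ^ (1 - ε) ≤ P ^ 2
    · rw [Bb_zero' (fun v hv => (hα1 v hv).2) c2, abs_zero]
      exact hE0
    have c2' := (not_le.1 c2).le
    by_cases c3 : M / y ^ (A + 4) ≤ R * P
    · -- good blocks
      have hR2u : R ^ 2 ≤ M ^ (1 - ε) := by
        have e2 : R ^ 2 * W ≤ M ^ 2 := by
          calc R ^ 2 * W ≤ R ^ 2 * P ^ 2 := by gcongr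
            _ = (R * P) ^ 2 := by ring
            _ ≤ M ^ 2 := by gcongr
        have e3 : M ^ 2 = M ^ (1 - ε) * W := by
          rw [hW, ← Real.rpow_add hM0, ← Real.rpow_natCast]
          congr 1
          push_cast
          ring
        rw [e3] at e2
        exact le_of_mul_le_mul_right e2 (by linarith)
      have hR2l : M / L * M ^ (ε / 2) ≤ R ^ 2 := by
        have e2 : M ^ 2 ≤ R ^ 2 * (L * M ^ (1 - ε)) * y ^ (2 * A + 8) := by
          have e3 : M ≤ R * P * y ^ (A + 4) := by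
            rwa [div_le_iff₀ (by positivity)] at c3
          calc M ^ 2 ≤ (R * P * y ^ (A + 4)) ^ 2 := by gcongr
            _ = R ^ 2 * P ^ 2 * y ^ (2 * A + 8) := by
                rw [mul_pow, mul_pow, ← pow_mul]
                congr 2
                ring
            _ ≤ R ^ 2 * (L * M ^ (1 - ε)) * y ^ (2 * A + 8) := by gcongr
        have e4 : R ^ 2 * (L * M ^ (1 - ε)) * y ^ (2 * A + 8) ≤ R ^ 2 * (L * M ^ (1 - ε)) * M ^ (ε / 2) := by
          gcongr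
        have e5 : M ^ (1 - ε) * M ^ (ε / 2) = M / M ^ (ε / 2) := by
          rw [← Real.rpow_add hM0, show 1 - ε + ε / 2 = 1 - ε / 2 by ring, Real.rpow_sub hM0, Real.rpow_one]
        have hm : 0 < M ^ (ε / 2) := by positivity
        have e6 : M ^ 2 ≤ R ^ 2 * L * (M / M ^ (ε / 2)) := by
          calc M ^ 2 ≤ R ^ 2 * (L * M ^ (1 - ε)) * M ^ (ε / 2) := e2.trans e4
            _ = R ^ 2 * L * (M ^ (1 - ε) * M ^ (ε / 2)) := by ring
            _ = _ := by rw [e5]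
        have e7 : M * M ^ (ε / 2) ≤ R ^ 2 * L := by
          rw [← mul_div_assoc, le_div_iff₀ hm] at e6
          have : M * (M * M ^ (ε / 2)) ≤ M * (R ^ 2 * L) := by linarith
          exact le_of_mul_le_mul_left this hM0
        rw [div_mul_eq_mul_div, div_le_iff₀ hL0]
        exact e7
      have hR1 : 1 ≤ R := by
        have e2 : 1 ≤ M / L * M ^ (ε / 2) := by
          have e3 : 1 ≤ M / L := by
            rw [le_div_iff₀ hL0, one_mul]
            exact hLM'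
          have e4 : 1 ≤ M ^ (ε / 2) := Real.one_le_rpow hM1 (by linarith)
          nlinarith
        by_contra h
        have := not_le.1 h
        nlinarith
      have hR2M : R ^ 2 ≤ M := by
        refine hR2u.trans ?_
        calc M ^ (1 - ε) ≤ M ^ (1 : ℝ) := Real.rpow_le_rpow_of_exponent_le hM1 (by linarith)
          _ = M := Real.rpow_one M
      have mono : M ^ (1 - ε) ≤ M ^ (1 - ε / 2) := Real.rpow_le_rpow_of_exponent_le hM1 (by linarith)
      have key := hT M L R P D β lam hM3 hL1 (hLM.trans mono) hR1 hR2l (hR2u.trans mono) c3 c1' (by linarith)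
        (pow_le_pow_right₀ hy1 (by omega)) hβ hβ1 hlam (hS R hR0 hR2l hR2M)
      have g1 := Bb_good (α := α) hC hα.bd hL0.le hM3 hR0.le hP1 key
      refine g1.trans ?_
      have g2 : 6 * Real.sqrt C * (L * (R * P)) / y ^ (A + 3) ≤ 6 * Real.sqrt C * (L * M) / y ^ (A + 3) := by
        gcongr
      have g3 : 0 ≤ 4 * (L * (8 * M / y ^ (A + 4) + 1)) := by positivity
      rw [hE]
      linarith
    · -- bad blocks
      have c3' := (not_le.1 c3).le
      have hH : 4 * (M / y ^ (A + 4)) ≤ M := by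
        rw [← mul_div_assoc, div_le_iff₀ (by positivity)]
        have : 4 ≤ y ^ (A + 4) := by
          calc (4 : ℝ) ≤ y ^ 1 := by rw [pow_one]; linarith
            _ ≤ y ^ (A + 4) := pow_le_pow_right₀ hy1 (by omega)
        nlinarith
      have key := Bb_bad (β := β) (D := D) hα hβ hlam hL0.le hLM' hR0.le hP0.le
        (show 4 * (R * P) ≤ 4 * (M / y ^ (A + 4)) by linarith) hH
      refine key.trans ?_
      have g3 : 0 ≤ 6 * Real.sqrt C * (L * M) / y ^ (A + 3) := by positivity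
      rw [hE]
      have : 4 * (L * (2 * (4 * (M / y ^ (A + 4))) + 1)) = 4 * (L * (8 * M / y ^ (A + 4) + 1)) := by ring
      linarith
  have p3 : |∑ w ∈ bl (2 * M ^ 2), ∑ v ∈ bl (2 * M ^ 2), β w * α v * GG lam D M (w * v)| ≤ (4 * y) * ((4 * y) * E) := by
    rw [p2]
    refine (abs_sum_le_sum_abs _ _).trans ?_
    have s1 : ∀ i ∈ range I, |∑ j ∈ range I, Bb β α lam D M (2 ^ i * Real.sqrt (1 / 2)) (2 ^ j * Real.sqrt W)| ≤
        (4 * y) * E := by
      intro i _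
      refine (abs_sum_le_sum_abs _ _).trans ?_
      refine (sum_le_sum fun j _ => hblock i j).trans ?_
      rw [sum_const, card_range, nsmul_eq_mul]
      gcongr
    refine (sum_le_sum s1).trans ?_
    rw [sum_const, card_range, nsmul_eq_mul]
    gcongr
  refine (add_le_add p1 p3).trans ?_
  -- final estimates
  set T := L * M / y ^ A with hTT
  have hT0 : 0 ≤ T := by positivity
  have hML : y ^ (A + 3) ≤ M := d4.trans (by
    calc M ^ (1 / 2 : ℝ) ≤ M ^ (1 : ℝ) := Real.rpow_le_rpow_of_exponent_le hM1 (by norm_num)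
      _ = M := Real.rpow_one M)
  have r1 : L * M / D ≤ T / 64 ^ 2 := by
    rw [hTT, hD, div_div, div_le_div_iff₀ (by positivity) (by positivity), pow_add]
    have : (64 : ℝ) ^ 2 ≤ y ^ 2 := by
      gcongr
      linarith
    have h5 : 0 ≤ L * M * y ^ A := by positivity
    nlinarith
  have r2 : y ^ 2 * L ≤ T / 256 := by
    rw [hTT, div_div, le_div_iff₀ (by positivity)]
    calc y ^ 2 * L * (y ^ A * 256) ≤ y ^ 2 * L * (y ^ A * y) := by gcongr
      _ = L * y ^ (A + 3) := by ring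
      _ ≤ L * M := by gcongr
  have r3 : L ≤ T / 64 ^ 3 := by
    rw [hTT, div_div, le_div_iff₀ (by positivity)]
    calc L * (y ^ A * 64 ^ 3) ≤ L * (y ^ A * y ^ 3) := by
          gcongr
          linarith
      _ = L * y ^ (A + 3) := by ring
      _ ≤ L * M := by gcongr
  have r4 : y ^ 2 * (Real.sqrt C * (L * M) / y ^ (A + 3)) ≤ T / 216 := by
    have e2 : y ^ 2 * (Real.sqrt C * (L * M) / y ^ (A + 3)) = Real.sqrt C / y * T := by
      rw [hTT, pow_add]
      field_simp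
    rw [e2]
    have e3 : Real.sqrt C / y ≤ 1 / 216 := by
      rw [div_le_div_iff₀ hy0 (by norm_num)]
      linarith
    calc Real.sqrt C / y * T ≤ 1 / 216 * T := by gcongr
      _ = T / 216 := by ring
  have r5 : y ^ 2 * (L * (M / y ^ (A + 4))) ≤ T / 64 ^ 2 := by
    have e2 : y ^ 2 * (L * (M / y ^ (A + 4))) = 1 / y ^ 2 * T := by
      rw [hTT, pow_add]
      field_simp
    rw [e2]
    have e3 : 1 / y ^ 2 ≤ 1 / 64 ^ 2 := by
      apply one_div_le_one_div_of_le (by positivity)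
      gcongr
      linarith
    calc 1 / y ^ 2 * T ≤ 1 / 64 ^ 2 * T := by gcongr
      _ = T / 64 ^ 2 := by ring
  have e9 : 8 * (L * (3 * M / D + 1)) + 4 * y * (4 * y * E) = 24 * (L * M / D) + 8 * L +
      96 * (y ^ 2 * (Real.sqrt C * (L * M) / y ^ (A + 3))) + 512 * (y ^ 2 * (L * (M / y ^ (A + 4)))) +
      64 * (y ^ 2 * L) := by
    rw [hE]
    ring
  rw [e9]
  norm_num at r1 r3 r5
  linarith

end Pool.Agent.J4.H69
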