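import Pool.Agent.J4.H69.PSa
import Pool.Agent.N277.GN.IIa

/-!
# Sums over Gaussian primes in classes with a frequency
-/

set_option autoImplicit false

namespace Pool.Agent.J4.H69

open Finset Filter Topology
open Pool.Agent.N782.GN
open Pool.Agent.N855.GN
open Pool.Agent.H304R3.HK (UH bb LamK CS)

theorem cls_sub (q : ℕ) (r : ZI) (X : ℝ) : cls q r X ⊆ bl X := by
  intro t ht
  rw [mem_cls] at ht
  rw [mem_bl]
  exact ⟨ht.1, ht.2.1⟩

theorem bl_mono {X Y : ℝ} (h : X ≤ Y) : bl X ⊆ bl Y := by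
  intro t ht
  rw [mem_bl] at ht ⊢
  exact ⟨ht.1, ht.2.trans h⟩

theorem norm_sum_ph (S : Finset ZI) (k : ℤ) : ‖∑ t ∈ S, ph k 0 t‖ ≤ (S.card : ℝ) := by
  refine (norm_sum_le _ _).trans ?_
  rw [sum_congr rfl fun t _ => norm_ph k 0 t, sum_const, nsmul_eq_mul, mul_one]

/-- the smooth sums are small -/
theorem smoothsum (he : S_E) (A B D : ℕ) : ∀ᶠ X : ℝ in atTop, ∀ (q : ℕ) (r : ZI) (k : ℤ) (Z Z' : ℝ),
    1 ≤ q → (q : ℝ) ≤ (Real.log X) ^ B → k ≠ 0 → |(k : ℝ)| ≤ X ^ D → Real.sqrt X ≤ Z → Z' ≤ Z →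
    ‖∑ t ∈ cls q r Z', ph k 0 t‖ ≤ Z / (Real.log X) ^ A := by
  classical
  obtain ⟨a, b, T₀, ha, hab, hb, hT₀, h⟩ := he B
  set d : ℝ := (D : ℝ) + 1 with hd
  have hd0 : 0 < d := by positivity
  have hd1 : 1 ≤ d := by
    have : (0 : ℝ) ≤ D := Nat.cast_nonneg D
    linarith
  have c1 : ∀ᶠ X : ℝ in atTop, max T₀ 3 ≤ X := eventually_ge_atTop _
  have c2 : ∀ᶠ X : ℝ in atTop, 4 * d ^ b ≤ (Real.log X) ^ (1 - b) :=
    (((tendsto_rpow_atTop (show 0 < 1 - b by linarith)).comp Real.tendsto_log_atTop).eventually_ge_atTop _)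
  have c3 : ∀ᶠ X : ℝ in atTop, (A : ℝ) * Real.log (Real.log X) ≤ (d ^ (-a) / 4) * (Real.log X) ^ (1 - a) := by
    have h1 := (isLittleO_log_rpow_atTop (show 0 < 1 - a by linarith)).def
      (show 0 < d ^ (-a) / 4 / (A + 1 : ℝ) by positivity)
    have h2 := Real.tendsto_log_atTop.eventually h1
    have h3 := Real.tendsto_log_atTop.eventually_ge_atTop 1
    filter_upwards [h2, h3] with X h2 h3
    have h4 : 0 ≤ Real.log (Real.log X) := Real.log_nonneg h3
    rw [Real.norm_of_nonneg h4, Real.norm_of_nonneg (by positivity)] at h2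
    have hA0 : (0 : ℝ) ≤ A := Nat.cast_nonneg A
    calc (A : ℝ) * Real.log (Real.log X) ≤ (A + 1) * Real.log (Real.log X) := by nlinarith
      _ ≤ (A + 1) * (d ^ (-a) / 4 / (A + 1 : ℝ) * (Real.log X) ^ (1 - a)) := by
          apply mul_le_mul_of_nonneg_left h2 (by positivity)
      _ = _ := by field_simp
  have c4 := logpow A (show (0 : ℝ) < 1 / 4 by norm_num) (show (0 : ℝ) < 1 / 9 by norm_num)
  filter_upwards [c1, c2, c3, c4] with X c1 c2 c3 c4
  intro q r k Z Z' hq hqB hk hkD hZ hZ'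
  have hX3 : 3 ≤ X := (le_max_right _ _).trans c1
  have hXT : T₀ ≤ X := (le_max_left _ _).trans c1
  have hX0 : 0 < X := by linarith
  have hL := one_le_log hX3
  set y := Real.log X with hy
  have hy0 : 0 < y := by linarith
  have hsq : X ^ (1 / 4 : ℝ) * X ^ (1 / 4 : ℝ) = Real.sqrt X := by
    rw [← Real.rpow_add hX0, Real.sqrt_eq_rpow]
    norm_num
  have hZ0 : 0 < Z := lt_of_lt_of_le (Real.sqrt_pos.2 hX0) hZ
  have hX4 : 1 ≤ X ^ (1 / 4 : ℝ) := Real.one_le_rpow (by linarith) (by norm_num)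
  by_cases hsmall : Z' ≤ X ^ (1 / 4 : ℝ)
  · refine (norm_sum_ph _ k).trans ?_
    have h1 : ((cls q r Z').card : ℝ) ≤ ((bl (X ^ (1 / 4 : ℝ))).card : ℝ) := by
      exact_mod_cast card_le_card ((cls_sub q r Z').trans (bl_mono hsmall))
    have h2 := Pool.Agent.N277.GN.card_bl (X ^ (1 / 4 : ℝ)) hX4
    refine (h1.trans h2).trans ?_
    rw [le_div_iff₀ (by positivity)]
    calc 9 * X ^ (1 / 4 : ℝ) * y ^ A ≤ 9 * X ^ (1 / 4 : ℝ) * (1 / 9 * X ^ (1 / 4 : ℝ)) := by gcongr
      _ = X ^ (1 / 4 : ℝ) * X ^ (1 / 4 : ℝ) := by ring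
      _ ≤ Z := by rw [hsq]; exact hZ
  · have hbig := (not_le.1 hsmall).le
    have hT1 : X ≤ X ^ (D + 1) := by
      calc X = X ^ 1 := (pow_one X).symm
        _ ≤ X ^ (D + 1) := pow_le_pow_right₀ (by linarith) (by omega)
    have hlogT : Real.log (X ^ (D + 1)) = d * y := by
      rw [Real.log_pow]
      push_cast
      ring
    have e1 : Real.exp ((Real.log (X ^ (D + 1))) ^ b) ≤ Z' := by
      refine le_trans ?_ hbig
      rw [hlogT, Real.rpow_def_of_pos hX0, ← hy]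
      apply Real.exp_le_exp.2
      rw [Real.mul_rpow hd0.le hy0.le]
      have e2 : y ^ (1 - b) * y ^ b = y := by
        rw [← Real.rpow_add hy0]
        simp
      have e3 : 0 < y ^ b := by positivity
      have e4 := mul_le_mul_of_nonneg_right c2 e3.le
      rw [e2] at e4
      linarith
    have key := h (X ^ (D + 1)) Z' k 0 q r (hXT.trans hT1) e1 hk (hkD.trans (pow_le_pow_right₀ (by linarith) (by omega)))
      (by rw [abs_zero]; positivity) hq (hqB.trans (pow_le_pow_left₀ hy0.le (Real.log_le_log hX0 hT1) _))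
    refine key.trans ?_
    have hZ'0 : 0 < Z' := by linarith
    rw [hlogT, Real.rpow_sub hZ'0, Real.rpow_one]
    have f1 : (y : ℝ) ^ A ≤ Z' ^ ((d * y) ^ (-a)) := by
      have f2 : (X ^ (1 / 4 : ℝ)) ^ ((d * y) ^ (-a)) ≤ Z' ^ ((d * y) ^ (-a)) :=
        Real.rpow_le_rpow (by positivity) hbig (by positivity)
      refine le_trans ?_ f2
      rw [← Real.rpow_mul hX0.le, Real.rpow_def_of_pos hX0, ← hy]
      have f3 : (y : ℝ) ^ A = Real.exp ((A : ℝ) * Real.log y) := by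
        rw [← Real.log_pow, Real.exp_log (by positivity)]
      rw [f3]
      apply Real.exp_le_exp.2
      refine c3.trans (le_of_eq ?_)
      rw [Real.mul_rpow hd0.le hy0.le]
      have f4 : y ^ (1 - a) = y * y ^ (-a) := by
        rw [show 1 - a = 1 + -a by ring, Real.rpow_add hy0, Real.rpow_one]
      rw [f4]
      ring
    have f5 : 0 < (y : ℝ) ^ A := by positivity
    calc Z' / Z' ^ ((d * y) ^ (-a)) ≤ Z' / y ^ A := div_le_div_of_nonneg_left hZ'0.le f5 f1
      _ ≤ Z / y ^ A := div_le_div_of_nonneg_right hZ' f5.le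

/-- the classes: Möbius sums for `Z ≥ √X` -/
theorem pcs (h1 : S_PC) (A B D : ℕ) : ∃ C : ℝ, 0 < C ∧ ∀ᶠ X : ℝ in atTop,
    ∀ (Z : ℝ) (q : ℕ) (r : ZI) (k : ℤ), Real.sqrt X ≤ Z → 1 ≤ q → (q : ℝ) ≤ (Real.log X) ^ B →
      IsCoprime r ((q : ℕ) : ZI) → |(k : ℝ)| ≤ X ^ D →
      ‖∑ t ∈ cls q r Z, (mu t : ℂ) * ph k 0 t‖ ≤ C / (Real.log X) ^ A * Z := by
  obtain ⟨C, hC, h1⟩ := h1 A (B + 1) (2 * D)
  refine ⟨C * 2 ^ A, by positivity, ?_⟩
  have e1 : ∀ᶠ X : ℝ in atTop, (2 : ℝ) ^ (B + 1) ≤ Real.log X := Real.tendsto_log_atTop.eventually_ge_atTop _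
  filter_upwards [e1, eventually_ge_atTop 4] with X hX1 hX4
  intro Z q r k hZ hq hqB hr hk
  have hL := one_le_log (show 3 ≤ X by linarith)
  have hX0 : 0 < X := by linarith
  have hs2 : 2 ≤ Real.sqrt X := by
    apply Real.le_sqrt_of_sq_le
    norm_num
    exact hX4
  have hZ2 : 2 ≤ Z := hs2.trans hZ
  have hlZ : 1 / 2 * Real.log X ≤ Real.log Z := by
    have h2 : Real.log (Real.sqrt X) = 1 / 2 * Real.log X := by
      rw [Real.log_sqrt hX0.le]
      ring
    rw [← h2]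
    exact Real.log_le_log (by linarith) hZ
  have b1 : (q : ℝ) ≤ (Real.log Z) ^ (B + 1) := by
    refine hqB.trans ?_
    have c1 : (Real.log X) ^ B ≤ (1 / 2 * Real.log X) ^ (B + 1) := by
      rw [mul_pow, pow_succ (Real.log X) B]
      have c2 : 1 ≤ (1 / 2 : ℝ) ^ (B + 1) * Real.log X := by
        rw [div_pow, one_pow, div_mul_eq_mul_div, one_mul, le_div_iff₀ (by positivity), one_mul]
        exact hX1
      calc (Real.log X) ^ B = (Real.log X) ^ B * 1 := (mul_one _).symm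
        _ ≤ (Real.log X) ^ B * ((1 / 2 : ℝ) ^ (B + 1) * Real.log X) := mul_le_mul_of_nonneg_left c2 (by positivity)
        _ = _ := by ring
    exact c1.trans (pow_le_pow_left₀ (by positivity) hlZ _)
  have b2 : |(k : ℝ)| ≤ Z ^ (2 * D) := by
    refine hk.trans ?_
    calc X ^ D = ((Real.sqrt X) ^ 2) ^ D := by rw [Real.sq_sqrt hX0.le]
      _ ≤ (Z ^ 2) ^ D := by gcongr
      _ = Z ^ (2 * D) := (pow_mul Z 2 D).symm
  refine (h1 Z q r k hZ2 hq b1 hr b2).trans ?_
  have c1 : (1 / 2 * Real.log X) ^ A ≤ (Real.log Z) ^ A := pow_le_pow_left₀ (by positivity) hlZ _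
  calc C * Z / (Real.log Z) ^ A ≤ C * Z / (1 / 2 * Real.log X) ^ A :=
        div_le_div_of_nonneg_left (by positivity) (by positivity) c1
    _ = C * 2 ^ A / (Real.log X) ^ A * Z := by
        rw [mul_pow, div_pow, one_pow]
        field_simp

/-- **sums over Gaussian primes in classes, with a frequency** -/
theorem ps (hm : S_MUB) (hv : S_VAU) (he : S_E) (hp : S_PC) (A B D : ℕ) : ∃ C : ℝ, 0 < C ∧ ∀ᶠ X : ℝ in atTop,
    ∀ (q : ℕ) (r : ZI) (k : ℤ), 1 ≤ q → (q : ℝ) ≤ (Real.log X) ^ B →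
      IsCoprime r ((q : ℕ) : ZI) → k ≠ 0 → |(k : ℝ)| ≤ X ^ D →
      ‖∑ t ∈ cls q r X, (lp t : ℂ) * ph k 0 t‖ ≤ C * X / (Real.log X) ^ A := by
  classical
  obtain ⟨C, hC, h1⟩ := pcs hp (A + 3) B D
  have h2 := smoothsum he (A + 3) B D
  have h3 := logpow (A + 3) (show (0 : ℝ) < 1 / 2 by norm_num) (show (0 : ℝ) < 1 / 24 by norm_num)
  refine ⟨24 + 24 * C + 1, by positivity, ?_⟩
  filter_upwards [h1, h2, h3, eventually_ge_atTop 4] with X h1 h2 h3 hX4
  intro q r k hq hqB hr hk0 hk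
  have hX3 : 3 ≤ X := by linarith
  have hX0 : 0 < X := by linarith
  have hL := one_le_log hX3
  have hsq0 := Real.sqrt_pos.2 hX0
  have hsq1 : 1 ≤ Real.sqrt X := by
    apply Real.le_sqrt_of_sq_le
    norm_num
    linarith
  have hsq : Real.sqrt X * Real.sqrt X = X := Real.mul_self_sqrt hX0.le
  set y := Real.log X with hy
  have hy0 : 0 < y := by linarith
  -- from `lp` to `LamK`
  have s1 : ‖∑ t ∈ cls q r X, (lp t : ℂ) * ph k 0 t‖ ≤
      ‖∑ t ∈ cls q r X, (LamK t : ℂ) * ph k 0 t‖ + 24 * Real.sqrt X * y ^ 3 := by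
    have e1 : ∑ t ∈ cls q r X, (lp t : ℂ) * ph k 0 t = ∑ t ∈ cls q r X, (LamK t : ℂ) * ph k 0 t -
        ∑ t ∈ cls q r X, ((LamK t - lp t : ℝ) : ℂ) * ph k 0 t := by
      rw [← sum_sub_distrib]
      refine sum_congr rfl fun t _ => ?_
      push_cast
      ring
    rw [e1]
    refine (norm_sub_le _ _).trans ?_
    apply add_le_add le_rfl
    refine le_trans ?_ (lam_lp hX3)
    refine (norm_sum_le _ _).trans ?_
    refine (sum_le_sum_of_subset_of_nonneg (cls_sub q r X) fun t _ _ => norm_nonneg _).trans ?_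
    refine sum_le_sum fun t _ => ?_
    rw [norm_mul, norm_ph, mul_one, Complex.norm_real, Real.norm_eq_abs]
  -- the identity
  have s2 : ∑ t ∈ cls q r X, (LamK t : ℂ) * ph k 0 t = ∑ z ∈ bl X, (LamK z : ℂ) * Fq q r X k z := by
    rw [← sum_subset (cls_sub q r X) (f := fun z => (LamK z : ℂ) * Fq q r X k z)]
    · exact sum_congr rfl fun z hz => by rw [Fq_pos hz]
    · intro z _ hz
      rw [Fq_neg hz, mul_zero]
  have s3 := hyp_complex hm hv (Fq q r X k) X (by linarith) (Fq_neg fun h => (mem_cls.1 h).1 rfl)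
    (fun z hz => Fq_neg fun h => by linarith [(mem_cls.1 h).2.1])
  -- the first part
  have p1 : ‖∑ b ∈ bl (Real.sqrt X), ∑ u ∈ bl X, (mu b : ℂ) * (Real.log (nz u) : ℂ) * Fq q r X k (b * u)‖ ≤
      96 * X / y ^ A := by
    have e1 : ∀ b ∈ bl (Real.sqrt X),
        ‖∑ u ∈ bl X, (mu b : ℂ) * (Real.log (nz u) : ℂ) * Fq q r X k (b * u)‖ ≤ (2 * X / y ^ (A + 2)) * (1 / nz b) := by
      intro b hb
      obtain ⟨hb0, hb1⟩ := (mem_bl _ _).1 hb
      have hbp := nz_pos hb0
      have hrhs : 0 ≤ (2 * X / y ^ (A + 2)) * (1 / nz b) := by positivity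
      by_cases hc : IsCoprime b ((q : ℕ) : ZI)
      · obtain ⟨e, f, hef⟩ := hc
        have e2 : ∑ u ∈ bl X, (mu b : ℂ) * (Real.log (nz u) : ℂ) * Fq q r X k (b * u) =
            (mu b : ℂ) * ∑ u ∈ bl X, (Real.log (nz u) : ℂ) * Fq q r X k (u * b) := by
          rw [mul_sum]
          refine sum_congr rfl fun u _ => ?_
          rw [mul_comm b u]
          ring
        rw [e2, swap hb0 hef hX0.le, norm_mul, norm_mul, norm_ph, one_mul, Complex.norm_real, Real.norm_eq_abs]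
        have hZ1 : Real.sqrt X ≤ X / nz b := by
          rw [le_div_iff₀ hbp]
          nlinarith
        have hZX : X / nz b ≤ X := div_le_self hX0.le (nz_one_le hb0)
        have e3 := abel (q := q) (r := e * r) (Z := X / nz b) (E := X / nz b / y ^ (A + 3)) (hsq1.trans hZ1)
          (fun u => ph k 0 u) (fun Z' hZ' => h2 q (e * r) k (X / nz b) Z' hq hqB hk0 hk hZ1 hZ')
        have e4 : Real.log (X / nz b) ≤ y := Real.log_le_log (by positivity) hZX
        have e5 : 0 ≤ Real.log (X / nz b) := Real.log_nonneg (hsq1.trans hZ1)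
        have e6 := abs_mu_le b
        calc |mu b| * ‖∑ u ∈ cls q (e * r) (X / nz b), (Real.log (nz u) : ℂ) * ph k 0 u‖
            ≤ 1 * (2 * (X / nz b / y ^ (A + 3)) * y) := by
              apply mul_le_mul e6 _ (norm_nonneg _) zero_le_one
              refine e3.trans ?_
              gcongr
          _ = (2 * X / y ^ (A + 2)) * (1 / nz b) := by
              rw [show A + 3 = (A + 2) + 1 by omega, pow_succ y (A + 2)]
              field_simp
      · have e2 : ∑ u ∈ bl X, (mu b : ℂ) * (Real.log (nz u) : ℂ) * Fq q r X k (b * u) = 0 := by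
          refine sum_eq_zero fun u _ => ?_
          rw [mul_comm b u, swap0 hr hc u, mul_zero]
        rw [e2, norm_zero]
        exact hrhs
    refine (norm_sum_le _ _).trans ((sum_le_sum e1).trans ?_)
    rw [← mul_sum]
    have e2 : ∑ b ∈ bl (Real.sqrt X), 1 / nz b ≤ 48 * y ^ 2 := by
      refine le_trans (sum_le_sum_of_subset_of_nonneg (bl_mono ?_) fun d _ _ => ?_) (sum_inv_nz hX3)
      · nlinarith
      · exact div_nonneg zero_le_one (nz_nonneg d)
    calc 2 * X / y ^ (A + 2) * ∑ b ∈ bl (Real.sqrt X), 1 / nz b ≤ 2 * X / y ^ (A + 2) * (48 * y ^ 2) :=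
          mul_le_mul_of_nonneg_left e2 (by positivity)
      _ = 96 * X / y ^ A := by
          rw [pow_add]
          field_simp
          norm_num
  -- the second part
  have p2 : ‖∑ b ∈ (bl X).filter (fun b => Real.sqrt X < nz b), ∑ u ∈ bl X,
      (mu b : ℂ) * (Real.log (nz u) : ℂ) * Fq q r X k (b * u)‖ ≤ 96 * C * X / y ^ A := by
    rw [sum_comm]
    have e1 : ∀ u ∈ bl X, ‖∑ b ∈ (bl X).filter (fun b => Real.sqrt X < nz b),
        (mu b : ℂ) * (Real.log (nz u) : ℂ) * Fq q r X k (b * u)‖ ≤ (2 * C * X / y ^ (A + 2)) * (1 / nz u) := by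
      intro u hu
      obtain ⟨hu0, hu1⟩ := (mem_bl _ _).1 hu
      have hup := nz_pos hu0
      have hrhs : 0 ≤ (2 * C * X / y ^ (A + 2)) * (1 / nz u) := by positivity
      by_cases hc : IsCoprime u ((q : ℕ) : ZI)
      · obtain ⟨e, f, hef⟩ := hc
        have hcr : IsCoprime (e * r) ((q : ℕ) : ZI) :=
          IsCoprime.mul_left ⟨u, f, by linear_combination hef⟩ hr
        have e2 : ∑ b ∈ (bl X).filter (fun b => Real.sqrt X < nz b),
            (mu b : ℂ) * (Real.log (nz u) : ℂ) * Fq q r X k (b * u) =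
            (Real.log (nz u) : ℂ) * ∑ b ∈ bl X, (if Real.sqrt X < nz b then (mu b : ℂ) else 0) * Fq q r X k (b * u) := by
          rw [mul_sum, sum_filter]
          refine sum_congr rfl fun b _ => ?_
          split_ifs <;> ring
        have e3 : ∑ b ∈ cls q (e * r) (X / nz u), (if Real.sqrt X < nz b then (mu b : ℂ) else 0) * ph k 0 b =
            ∑ b ∈ SA q (e * r) (Real.sqrt X) (X / nz u), (mu b : ℂ) * ph k 0 b := by
          unfold SA
          rw [sum_filter]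
          refine sum_congr rfl fun b _ => ?_
          split_ifs <;> ring
        rw [e2, swap hu0 hef hX0.le, e3, norm_mul, norm_mul, norm_ph, one_mul, Complex.norm_real,
          Real.norm_of_nonneg (Real.log_nonneg (nz_one_le hu0))]
        have e4 := diff_le (q := q) (r := e * r) (k := k) (w := Real.sqrt X) (c := C / y ^ (A + 3))
          (fun Z hZ => h1 Z q (e * r) k hZ hq hqB hcr hk) (by positivity) (Z1 := Real.sqrt X) (Z2 := X / nz u) le_rfl
          (by positivity)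
        have e5 : Real.log (nz u) ≤ y := Real.log_le_log hup hu1
        calc Real.log (nz u) * ‖∑ b ∈ SA q (e * r) (Real.sqrt X) (X / nz u), (mu b : ℂ) * ph k 0 b‖
            ≤ y * (2 * (C / y ^ (A + 3)) * (X / nz u)) :=
              mul_le_mul e5 e4 (norm_nonneg _) hy0.le
          _ = (2 * C * X / y ^ (A + 2)) * (1 / nz u) := by
              rw [show A + 3 = (A + 2) + 1 by omega, pow_succ y (A + 2)]
              field_simp
      · have e2 : ∑ b ∈ (bl X).filter (fun b => Real.sqrt X < nz b),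
            (mu b : ℂ) * (Real.log (nz u) : ℂ) * Fq q r X k (b * u) = 0 := by
          refine sum_eq_zero fun b _ => ?_
          rw [swap0 hr hc b, mul_zero]
        rw [e2, norm_zero]
        exact hrhs
    refine (norm_sum_le _ _).trans ((sum_le_sum e1).trans ?_)
    rw [← mul_sum]
    have e2 := sum_inv_nz hX3
    calc 2 * C * X / y ^ (A + 2) * ∑ b ∈ bl X, 1 / nz b ≤ 2 * C * X / y ^ (A + 2) * (48 * y ^ 2) :=
          mul_le_mul_of_nonneg_left e2 (by positivity)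
      _ = 96 * C * X / y ^ A := by
          rw [pow_add]
          field_simp
          norm_num
  have s4 : ∑ b ∈ bl X, ∑ u ∈ bl X, (mu b : ℂ) * (Real.log (nz u) : ℂ) * Fq q r X k (b * u) =
      ∑ b ∈ bl (Real.sqrt X), ∑ u ∈ bl X, (mu b : ℂ) * (Real.log (nz u) : ℂ) * Fq q r X k (b * u) +
      ∑ b ∈ (bl X).filter (fun b => Real.sqrt X < nz b), ∑ u ∈ bl X,
        (mu b : ℂ) * (Real.log (nz u) : ℂ) * Fq q r X k (b * u) := by
    rw [add_comm, ← sum_filter_add_sum_filter_not (bl X) (fun b => Real.sqrt X < nz b)]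
    congr 1
    refine sum_congr ?_ fun _ _ => rfl
    ext b
    rw [mem_filter, mem_bl, mem_bl, not_lt]
    constructor
    · rintro ⟨⟨h5, _⟩, h6⟩
      exact ⟨h5, h6⟩
    · rintro ⟨h5, h6⟩
      exact ⟨⟨h5, h6.trans (by nlinarith)⟩, h6⟩
  have s5 : ‖∑ t ∈ cls q r X, (LamK t : ℂ) * ph k 0 t‖ ≤ (24 + 24 * C) * X / y ^ A := by
    rw [s2, s3, s4, norm_mul]
    have e1 : ‖(1 / 4 : ℂ)‖ = 1 / 4 := by norm_num
    rw [e1]
    have e2 := norm_add_le (∑ b ∈ bl (Real.sqrt X), ∑ u ∈ bl X, (mu b : ℂ) * (Real.log (nz u) : ℂ) * Fq q r X k (b * u))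
      (∑ b ∈ (bl X).filter (fun b => Real.sqrt X < nz b), ∑ u ∈ bl X,
        (mu b : ℂ) * (Real.log (nz u) : ℂ) * Fq q r X k (b * u))
    have e3 : (24 + 24 * C) * X / y ^ A = 1 / 4 * (96 * X / y ^ A + 96 * C * X / y ^ A) := by ring
    rw [e3]
    linarith
  have s6 : 24 * Real.sqrt X * y ^ 3 ≤ X / y ^ A := by
    rw [le_div_iff₀ (by positivity)]
    calc 24 * Real.sqrt X * y ^ 3 * y ^ A = 24 * Real.sqrt X * y ^ (A + 3) := by rw [pow_add]; ring
      _ ≤ 24 * Real.sqrt X * (1 / 24 * X ^ (1 / 2 : ℝ)) := by gcongr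
      _ = Real.sqrt X * Real.sqrt X := by rw [← Real.sqrt_eq_rpow]; ring
      _ = X := hsq
  have e3 : (24 + 24 * C + 1) * X / y ^ A = (24 + 24 * C) * X / y ^ A + X / y ^ A := by ring
  rw [e3]
  linarith

end Pool.Agent.J4.H69
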