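import Pool.Agent.N782.GN.All1
import Pool.Agent.J4.H69.AR
import Pool.Agent.J4.H69.PSb

/-!
# All the parts together: the sum with the Möbius function
-/

set_option autoImplicit false

namespace Pool.Agent.J4.H69

open Finset Filter Topology
open Pool.Agent.N782.GN
open Pool.Agent.N855.GN (Dv mem_Dv logpow nz_one_le one_le_log)
open Pool.Agent.N277.GN (ct_nat_mul abs_be_le card_bl nz_pos nz_natCast one_le_nz nz_mul)
open Pool.Agent.H304R3.HK (UH bb LamK CS)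

theorem c_tg2 : S_TG2 :=
  tg2 Pool.Agent.N56.GN.chr_lat Pool.Agent.N407.GN.cnt c_bil Pool.Agent.N407.GN.lip

theorem c_core {τ : ℝ} (hτ : 0 < τ) (hτ1 : τ ≤ 1 / 8) : S_core τ := fun A B =>
  core c_mub c_el c_mb (ps c_mub c_vau c_e c_pc) hτ hτ1 A B

/-- the sum over `m` with the Möbius function -/
noncomputable def SS1 (M A1 A2 Q1 Q2 : ℝ) (l : ℤ) : ℝ :=
  ∑ m ∈ Icc ⌈-M⌉ ⌊M⌋, be 1 (⟨l, m⟩ : ZI) * Wt M A1 A2 Q1 Q2 (⟨l, m⟩ : ZI)

theorem spart {δ : ℝ} (hδ : 0 < δ) (hδ1 : δ ≤ 1) (A : ℕ) : ∀ᶠ M : ℝ in atTop, ∀ L : ℝ, M ^ δ ≤ L →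
    L ≤ M ^ (1 - δ) → ∑ l ∈ Icc 1 ⌊L⌋,
      |SS1 M (M ^ (δ / 64)) (M ^ (5 * (δ / 64) / 4)) (M ^ (1 + δ / 4)) (M ^ (1 + δ / 2)) l| ≤
        L * M / (Real.log M) ^ A := by
  obtain ⟨A', B', h1⟩ := ii2 c_tg2 (show 0 < δ / 4 by positivity) (by linarith) A
  have h2 := sb c_mub c_ft (show 0 < δ / 64 by positivity) (ε := δ / 4 / 2) (by linarith) (by linarith)
    (c_core (show 0 < δ / 64 by positivity) (by linarith)) A' B'
  have h3 : ∀ᶠ M : ℝ in atTop, (3 : ℝ) ≤ M ^ (δ / 4) :=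
    (tendsto_rpow_atTop (by positivity)).eventually_ge_atTop _
  filter_upwards [h1, h2, h3, eventually_ge_atTop 3] with M h1 h2 h3 hM3
  intro L hL1 hL2
  have hM0 : 0 < M := by linarith
  have hM1 : 1 ≤ M := by linarith
  have hL1' : 1 ≤ L := (Real.one_le_rpow hM1 hδ.le).trans hL1
  have hLM4 : L ≤ M ^ (1 - δ / 4) := hL2.trans (Real.rpow_le_rpow_of_exponent_le hM1 (by linarith))
  have hLM : L ≤ M := by
    refine hL2.trans ?_
    calc M ^ (1 - δ) ≤ M ^ (1 : ℝ) := Real.rpow_le_rpow_of_exponent_le hM1 (by linarith)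
      _ = M := Real.rpow_one M
  have hQ0 : 0 < M ^ (1 + δ / 4) := by positivity
  have hQ : 2 * M ^ 2 < (M ^ (1 + δ / 4)) ^ 2 := by
    have e1 : M ^ (1 + δ / 4) = M * M ^ (δ / 4) := by rw [Real.rpow_add hM0, Real.rpow_one]
    rw [e1, mul_pow]
    have : (2 : ℝ) < (M ^ (δ / 4)) ^ 2 := by nlinarith
    have : 0 < M ^ 2 := by positivity
    nlinarith
  have hAQ : M ^ (5 * (δ / 64) / 4) ≤ M ^ (1 + δ / 4) := Real.rpow_le_rpow_of_exponent_le hM1 (by linarith)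
  apply dual
  intro lam hlam
  have key := h1 L (bet M (M ^ (δ / 64)) (M ^ (5 * (δ / 64) / 4))) (al (M ^ (1 + δ / 4)) (M ^ (1 + δ / 2))) lam
    hL1' hLM4 (bet_abs c_mub hM3 _ _) (fun w hw => bet_ct hw) (few_al hM0 hQ hQ0)
    (by
      intro v hv
      obtain ⟨-, h4, h5⟩ := al_ne hv
      refine ⟨h4, h5.trans ?_⟩
      calc M ^ (1 + δ / 2) ≤ M ^ (δ + (1 - δ / 4)) := Real.rpow_le_rpow_of_exponent_le hM1 (by linarith)
        _ = M ^ δ * M ^ (1 - δ / 4) := Real.rpow_add hM0 _ _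
        _ ≤ L * M ^ (1 - δ / 4) := by gcongr)
    hlam
    (by
      intro R _ hR1 hR2
      exact h2 L R (by linarith)
        (hL2.trans (Real.rpow_le_rpow_of_exponent_le hM1 (by linarith))) hR1 hR2)
  rw [bil_box c_mub hM0.le hLM hQ hQ0 hAQ hlam, abs_neg, Bx_sum] at key
  refine le_trans (le_of_eq ?_) key
  congr 1
  apply sum_congr rfl
  intro l _
  unfold SS1
  rw [mul_sum]

end Pool.Agent.J4.H69
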