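import Pool.Agent.J4.H69.SQ

/-!
# The theorem for one `M`
-/

set_option autoImplicit false

namespace Pool.Agent.J4.H69

open Finset Filter Topology
open Pool.Agent.N782.GN
open Pool.Agent.N855.GN (Dv mem_Dv logpow nz_one_le one_le_log bg)
open Pool.Agent.N277.GN (ct_nat_mul abs_be_le card_bl nz_pos nz_natCast)
open Pool.Agent.H304R3.HK (UH bb LamK CS)
open Pool.Agent.N458.GN (smul_mk zi_ne)

theorem prod_low (S : Finset ℕ) (hS : ∀ p ∈ S, 2 ≤ p) : 1 / ((S.card : ℝ) + 1) ≤ ∏ p ∈ S, (1 - (p : ℝ)⁻¹) := by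
  classical
  induction S using Finset.induction_on_max with
  | empty => simp
  | insert a s ha ih =>
    have hn : a ∉ s := fun h => lt_irrefl a (ha a h)
    have h1 : s.card + 2 ≤ a := by
      have h2 : insert a s ⊆ Icc 2 a := by
        intro x hx
        rw [mem_Icc]
        refine ⟨hS x hx, ?_⟩
        rcases mem_insert.1 hx with h | h
        · exact h.le
        · exact (ha x h).le
      have h3 := card_le_card h2
      rw [card_insert_of_notMem hn, Nat.card_Icc] at h3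
      have h4 := hS a (mem_insert_self a s)
      omega
    rw [prod_insert hn, card_insert_of_notMem hn]
    have h5 := ih (fun p hp => hS p (mem_insert_of_mem hp))
    have h6 : (s.card : ℝ) + 2 ≤ a := by exact_mod_cast h1
    have h7 : (0 : ℝ) ≤ s.card := Nat.cast_nonneg _
    have h8 : ((s.card : ℝ) + 1) / ((s.card : ℝ) + 2) ≤ 1 - (a : ℝ)⁻¹ := by
      rw [div_le_iff₀ (by linarith)]
      have h9 : ((s.card : ℝ) + 2) * (a : ℝ)⁻¹ ≤ 1 := by
        rw [← div_eq_mul_inv, div_le_one (by linarith)]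
        exact h6
      nlinarith
    have h10 : 0 ≤ ∏ p ∈ s, (1 - (p : ℝ)⁻¹) := le_trans (by positivity) h5
    push_cast
    calc 1 / ((s.card : ℝ) + 1 + 1) = ((s.card : ℝ) + 1) / ((s.card : ℝ) + 2) * (1 / ((s.card : ℝ) + 1)) := by
          field_simp
          ring
      _ ≤ (1 - (a : ℝ)⁻¹) * ∏ p ∈ s, (1 - (p : ℝ)⁻¹) :=
          mul_le_mul h8 h5 (by positivity) (le_trans (by positivity) h8)

theorem phi_low {l : ℕ} (hl : 1 ≤ l) : 1 / (1 + 3 / 2 * Real.log l) ≤ (l.totient : ℝ) / l := by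
  classical
  have hl0 : (0 : ℝ) < l := by exact_mod_cast hl
  have h1 : (l.totient : ℝ) = l * ∏ p ∈ l.primeFactors, (1 - (p : ℝ)⁻¹) := by
    have := Nat.totient_eq_mul_prod_factors l
    have h2 : ((l.totient : ℚ) : ℝ) = ((l * ∏ p ∈ l.primeFactors, (1 - (p : ℚ)⁻¹) : ℚ) : ℝ) := by rw [this]
    push_cast at h2
    exact h2
  rw [h1, mul_div_cancel_left₀ _ hl0.ne']
  have h2 := prod_low l.primeFactors (fun p hp => (Nat.prime_of_mem_primeFactors hp).two_le)
  refine le_trans ?_ h2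
  have h3 : 2 ^ l.primeFactors.card ≤ l := by
    have h4 : ∏ _p ∈ l.primeFactors, 2 ≤ ∏ p ∈ l.primeFactors, p :=
      prod_le_prod' fun p hp => (Nat.prime_of_mem_primeFactors hp).two_le
    rw [prod_const] at h4
    exact h4.trans (Nat.le_of_dvd (by omega) (Nat.prod_primeFactors_dvd l))
  have h5 : (l.primeFactors.card : ℝ) * Real.log 2 ≤ Real.log l := by
    have h6 : ((2 : ℝ) ^ l.primeFactors.card) ≤ l := by exact_mod_cast h3
    have h7 := Real.log_le_log (by positivity) h6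
    rwa [Real.log_pow] at h7
  have h6 := Real.log_two_gt_d9
  have h7 : (0 : ℝ) ≤ l.primeFactors.card := Nat.cast_nonneg _
  apply one_div_le_one_div_of_le (by positivity)
  have h8 : (l.primeFactors.card : ℝ) * 0.69 ≤ Real.log l := by nlinarith
  have h9 : 0 ≤ Real.log l := Real.log_nonneg (by exact_mod_cast hl)
  nlinarith

/-- the lower bound for the sum with the square of the Möbius function -/
theorem tlow {δ : ℝ} (hδ : 0 < δ) (hδ1 : δ ≤ 1) (A : ℕ) : ∀ᶠ M : ℝ in atTop, ∀ L : ℝ, M ^ δ ≤ L →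
    L ≤ M ^ (1 - δ) → ∃ Er : ℕ → ℝ, (∀ l, 0 ≤ Er l) ∧ ∑ l ∈ Icc 1 ⌊L⌋₊, Er l ≤ L * M / (Real.log M) ^ A ∧
      ∀ l ∈ Icc 1 ⌊L⌋₊, 5 / 3 * (M * Gc M (M ^ (δ / 64)) (M ^ (5 * (δ / 64) / 4)) (M ^ (1 + δ / 4)) (M ^ (1 + δ / 2)) *
        ((l.totient : ℝ) / l)) - Er l - (32 * M / (Real.log M) ^ 3 + 9 * Real.sqrt (2 * M)) ≤
        TT1 M (M ^ (δ / 64)) (M ^ (5 * (δ / 64) / 4)) (M ^ (1 + δ / 4)) (M ^ (1 + δ / 2)) l := by
  classical
  have d1 := uavg hδ hδ1 (A + 4) 6
  have d2 := gc_bd hδ hδ1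
  have d6 : ∀ᶠ M : ℝ in atTop, (3 : ℝ) ≤ M ^ (δ / 4) :=
    (tendsto_rpow_atTop (by positivity)).eventually_ge_atTop _
  have d7 : ∀ᶠ M : ℝ in atTop, (64 : ℝ) ≤ Real.log M := Real.tendsto_log_atTop.eventually_ge_atTop _
  filter_upwards [d1, d2, d6, d7, eventually_ge_atTop 9] with M d1 d2 d6 d7 hM9
  intro L hL1 hL2
  have hM3 : 3 ≤ M := by linarith
  have hM0 : 0 < M := by linarith
  have hM1 : 1 ≤ M := by linarith
  have d1' := d1 L hL1 hL2
  set y := Real.log M with hy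
  have hy0 : 0 < y := by linarith
  have hy1 : 1 ≤ y := by linarith
  set A1 := M ^ (δ / 64) with hA1
  set A2 := M ^ (5 * (δ / 64) / 4) with hA2
  set Q1 := M ^ (1 + δ / 4) with hQ1
  set Q2 := M ^ (1 + δ / 2) with hQ2
  set G := Gc M A1 A2 Q1 Q2 with hG
  have hG0 : 0 ≤ G := le_trans (by positivity) d2.1
  have hQ0 : 0 < Q1 := by positivity
  have hQM : Q1 = M * M ^ (δ / 4) := by rw [hQ1, Real.rpow_add hM0, Real.rpow_one]
  have hMQ : M ≤ Q1 := by
    rw [hQM]
    nlinarith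
  have hQ : 2 * M ^ 2 < Q1 ^ 2 := by
    rw [hQM, mul_pow]
    have : (2 : ℝ) < (M ^ (δ / 4)) ^ 2 := by nlinarith
    have : 0 < M ^ 2 := by positivity
    nlinarith
  have hL0 : 0 < L := lt_of_lt_of_le (by positivity) hL1
  have hLM : L ≤ M := by
    refine hL2.trans ?_
    calc M ^ (1 - δ) ≤ M ^ (1 : ℝ) := Real.rpow_le_rpow_of_exponent_le hM1 (by linarith)
      _ = M := Real.rpow_one M
  set P := y ^ 3 with hP
  have hP1 : 1 ≤ P := one_le_pow₀ hy1
  set S1 := (PiS (Real.sqrt (2 * M))).filter (fun p => nz p ≤ P) with hS1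
  set S2 := (PiS (Real.sqrt (2 * M))).filter (fun p => ¬ nz p ≤ P) with hS2
  set er : ZI → ℕ → ℝ := fun b0 l => if Nat.Coprime l (Zsqrtd.norm b0).natAbs then
    |UU1 M A1 A2 Q1 Q2 b0 l - 2 * M * G / nz b0 * ((l.totient : ℝ) / l)| else 0 with her
  have her0 : ∀ b0 l, 0 ≤ er b0 l := by
    intro b0 l
    rw [her]
    simp only
    split_ifs
    · exact abs_nonneg _
    · exact le_rfl
  have hersum : ∀ b0 : ZI, b0 ≠ 0 → ct b0 = 1 → nz b0 ≤ y ^ 6 →
      ∑ l ∈ Icc 1 ⌊L⌋₊, er b0 l ≤ L * M / y ^ (A + 4) := by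
    intro b0 h1 h2 h3
    have := d1' b0 h1 h2 h3
    rw [sum_filter] at this
    exact this
  refine ⟨fun l => er 1 l + 1 / 4 * ∑ p ∈ S1, er (p * p) l, ?_, ?_, ?_⟩
  · intro l
    have := sum_nonneg fun p (_ : p ∈ S1) => her0 (p * p) l
    have := her0 1 l
    linarith
  · rw [sum_add_distrib, ← mul_sum, sum_comm]
    have h1 : ∑ l ∈ Icc 1 ⌊L⌋₊, er 1 l ≤ L * M / y ^ (A + 4) := by
      apply hersum 1 one_ne_zero
      · unfold ct
        simp
      · rw [nz_nat]
        simp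
        exact one_le_pow₀ hy1
    have h2 : ∑ p ∈ S1, ∑ l ∈ Icc 1 ⌊L⌋₊, er (p * p) l ≤ ∑ _p ∈ S1, L * M / y ^ (A + 4) := by
      apply sum_le_sum
      intro p hp
      rw [hS1, mem_filter, mem_PiS] at hp
      obtain ⟨⟨h3, h4, h5⟩, h6⟩ := hp
      have hp0 := ne_zero_of_prime h4
      apply hersum (p * p) (mul_ne_zero hp0 hp0) h5
      rw [nz_mul]
      calc nz p * nz p ≤ P * P := mul_le_mul h6 h6 (nz_nonneg p) (by positivity)
        _ = y ^ 6 := by
            rw [hP]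
            ring
    have h3 : (S1.card : ℝ) ≤ 9 * P := by
      have h4 : S1 ⊆ bl P := by
        intro p hp
        rw [hS1, mem_filter, mem_PiS] at hp
        rw [mem_bl]
        exact ⟨ne_zero_of_prime hp.1.2.1, hp.2⟩
      have h5 : (S1.card : ℝ) ≤ ((bl P).card : ℝ) := by exact_mod_cast card_le_card h4
      exact h5.trans (card_bl P hP1)
    rw [sum_const, nsmul_eq_mul] at h2
    have hT0 : 0 ≤ L * M / y ^ (A + 4) := by positivity
    have h4 : (S1.card : ℝ) * (L * M / y ^ (A + 4)) ≤ 9 * P * (L * M / y ^ (A + 4)) :=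
      mul_le_mul_of_nonneg_right h3 hT0
    have h5 : P * (L * M / y ^ (A + 4)) ≤ 1 / 64 * (L * M / y ^ A) := by
      have e1 : P * (L * M / y ^ (A + 4)) = 1 / y * (L * M / y ^ A) := by
        rw [hP, show A + 4 = A + 1 + 3 by ring, pow_add y (A + 1) 3, pow_succ y A]
        field_simp
      rw [e1]
      apply mul_le_mul_of_nonneg_right _ (by positivity)
      exact one_div_le_one_div_of_le (by norm_num) d7
    have h6 : L * M / y ^ (A + 4) ≤ P * (L * M / y ^ (A + 4)) := le_mul_of_one_le_left hT0 hP1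
    have h7 : 0 ≤ L * M / y ^ A := by positivity
    linarith
  · intro l hl
    have hl' := mem_Icc.1 hl
    have hlM : (l : ℝ) ≤ M := by
      have := (Nat.le_floor_iff hL0.le).1 hl'.2
      linarith
    have hlZ : (1 : ℤ) ≤ (l : ℤ) := by exact_mod_cast hl'.1
    have hlMZ : (((l : ℕ) : ℤ) : ℝ) ≤ M := by exact_mod_cast hlM
    have key := TT1_ge (A1 := A1) (A2 := A2) (Q2 := Q2) hM1 hQ hQ0 hMQ hlZ hlMZ
    refine le_trans ?_ key
    set φ := (l.totient : ℝ) / l with hφ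
    have hφ0 : 0 ≤ φ := by positivity
    have h1 : 2 * M * G * φ - er 1 l ≤ UU1 M A1 A2 Q1 Q2 1 l := by
      have e1 : er 1 l = |UU1 M A1 A2 Q1 Q2 1 l - 2 * M * G / nz 1 * φ| := by
        rw [her]
        simp only
        rw [if_pos]
        simp
      have e2 : nz (1 : ZI) = 1 := by
        rw [nz_nat]
        simp
      rw [e2, div_one] at e1
      rw [e1]
      have := neg_abs_le (UU1 M A1 A2 Q1 Q2 1 l - 2 * M * G * φ)
      linarith
    have h2 : ∑ p ∈ PiS (Real.sqrt (2 * M)), UU1 M A1 A2 Q1 Q2 (p * p) l =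
        ∑ p ∈ S1, UU1 M A1 A2 Q1 Q2 (p * p) l + ∑ p ∈ S2, UU1 M A1 A2 Q1 Q2 (p * p) l := by
      rw [hS1, hS2, sum_filter_add_sum_filter_not]
    have h3 : ∑ p ∈ S1, UU1 M A1 A2 Q1 Q2 (p * p) l ≤
        2 * M * G * φ * (2 / 3) + ∑ p ∈ S1, er (p * p) l := by
      have e1 : ∀ p ∈ S1, UU1 M A1 A2 Q1 Q2 (p * p) l ≤ 2 * M * G * φ * (1 / nz (p * p)) + er (p * p) l := by
        intro p hp
        rw [hS1, mem_filter, mem_PiS] at hp
        obtain ⟨⟨h3, h4, h5⟩, h6⟩ := hp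
        have hp0 := ne_zero_of_prime h4
        have hnp : 0 < nz (p * p) := nz_pos (mul_ne_zero hp0 hp0)
        by_cases hc : Nat.Coprime l (Zsqrtd.norm (p * p)).natAbs
        · have e2 : er (p * p) l = |UU1 M A1 A2 Q1 Q2 (p * p) l - 2 * M * G / nz (p * p) * φ| := by
            rw [her]
            simp only
            rw [if_pos hc]
          rw [e2]
          have := le_abs_self (UU1 M A1 A2 Q1 Q2 (p * p) l - 2 * M * G / nz (p * p) * φ)
          have e3 : 2 * M * G * φ * (1 / nz (p * p)) = 2 * M * G / nz (p * p) * φ := by ring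
          linarith
        · rw [UU1_zero h4 hc]
          have := her0 (p * p) l
          positivity
      refine (sum_le_sum e1).trans ?_
      rw [sum_add_distrib, ← mul_sum]
      have e2 : ∑ p ∈ S1, 1 / nz (p * p) ≤ 2 / 3 := by
        refine le_trans ?_ (PiS_all (Real.sqrt_nonneg (2 * M)))
        apply sum_le_sum_of_subset_of_nonneg (filter_subset _ _)
        intro p _ _
        have := nz_nonneg (p * p)
        positivity
      have e3 : 2 * M * G * φ * ∑ p ∈ S1, 1 / nz (p * p) ≤ 2 * M * G * φ * (2 / 3) :=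
        mul_le_mul_of_nonneg_left e2 (by positivity)
      linarith
    have h4 : ∑ p ∈ S2, UU1 M A1 A2 Q1 Q2 (p * p) l ≤ 8 * M * (16 / P) + 4 * (9 * Real.sqrt (2 * M)) := by
      have e1 : ∀ p ∈ S2, UU1 M A1 A2 Q1 Q2 (p * p) l ≤ 8 * M * (1 / nz (p * p)) + 4 := by
        intro p hp
        rw [hS2, mem_filter, mem_PiS] at hp
        obtain ⟨⟨h3, h4, h5⟩, h6⟩ := hp
        have hp0 := ne_zero_of_prime h4
        have := UU1_triv (A1 := A1) (A2 := A2) (Q2 := Q2) c_mub hM3 hQ hQ0 (mul_ne_zero hp0 hp0) h5 hlZ hlMZ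
        refine this.trans (le_of_eq ?_)
        ring
      refine (sum_le_sum e1).trans ?_
      rw [sum_add_distrib, ← mul_sum, sum_const, nsmul_eq_mul]
      have e2 : ∑ p ∈ S2, 1 / nz (p * p) ≤ 16 / P := by
        refine le_trans (le_of_eq ?_) (PiS_tail (Real.sqrt_nonneg (2 * M)) hP1)
        rw [hS2]
        apply sum_congr _ fun _ _ => rfl
        ext p
        rw [mem_filter, mem_filter, not_le]
      have e3 : (S2.card : ℝ) ≤ 9 * Real.sqrt (2 * M) := by
        have h4 : S2 ⊆ bl (Real.sqrt (2 * M)) := by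
          intro p hp
          rw [hS2, mem_filter, mem_PiS] at hp
          rw [mem_bl]
          exact ⟨ne_zero_of_prime hp.1.2.1, hp.1.1⟩
        have h5 : (S2.card : ℝ) ≤ ((bl (Real.sqrt (2 * M))).card : ℝ) := by exact_mod_cast card_le_card h4
        refine h5.trans (card_bl _ ?_)
        apply Real.one_le_sqrt.2
        linarith
      have e4 : 8 * M * ∑ p ∈ S2, 1 / nz (p * p) ≤ 8 * M * (16 / P) := mul_le_mul_of_nonneg_left e2 (by positivity)
      linarith
    rw [h2]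
    have e5 : 8 * M * (16 / P) = 4 * (32 * M / y ^ 3) := by
      rw [hP]
      ring
    rw [e5] at h4
    have e6 : 5 / 3 * (M * G * φ) = 2 * M * G * φ - 1 / 4 * (2 * M * G * φ * (2 / 3)) := by ring
    rw [e6]
    simp only
    linarith

theorem be_val (z : ZI) : be 1 z = 0 ∨ be 1 z = 1 ∨ be 1 z = -1 := by
  unfold be mu
  split_ifs
  · rcases neg_one_pow_eq_or ℝ (UniqueFactorizationMonoid.factors z).card with h | h
    · right; left; exact h
    · right; right; exact h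
  · left; rfl
  · left; rfl

/-- the number of the `m ≤ N` with `μ(l² + m²) = s` -/
def cntM (s : ℤ) (l N : ℕ) : ℕ := ((Icc 1 N).filter (fun m => ArithmeticFunction.moebius (l ^ 2 + m ^ 2) = s)).card

theorem be_moebius {l : ℕ} {m : ℤ} {s : ℤ} (hs : s ≠ 0) (h : be 1 (⟨(l : ℤ), m⟩ : ZI) = s) :
    ArithmeticFunction.moebius (l ^ 2 + m.natAbs ^ 2) = s := by
  have h1 : ct (⟨(l : ℤ), m⟩ : ZI) = 1 := by
    by_contra hc
    rw [be_ct hc] at h
    exact hs (by exact_mod_cast h.symm)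
  have h2 : be 1 (⟨(l : ℤ), m⟩ : ZI) = mu (⟨(l : ℤ), m⟩ : ZI) := by
    unfold be
    rw [if_pos]
    exact ⟨h1, by rw [Nat.cast_one]; exact isCoprime_one_right⟩
  rw [h2, mu_rat h1] at h
  have h3 : (Zsqrtd.norm (⟨(l : ℤ), m⟩ : ZI)).natAbs = l ^ 2 + m.natAbs ^ 2 := by
    rw [Zsqrtd.norm_def]
    have : (l : ℤ) * l - -1 * m * m = ((l ^ 2 + m.natAbs ^ 2 : ℕ) : ℤ) := by
      push_cast
      rw [sq_abs]
      ring
    simp only
    rw [this]
    exact Int.natAbs_natCast _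
  rw [h3] at h
  exact_mod_cast h

theorem cnt_ge {M : ℝ} (hM : 0 ≤ M) {l : ℕ} {s : ℤ} (hs : s ≠ 0) :
    (((Icc ⌈-M⌉ ⌊M⌋).filter (fun m => be 1 (⟨(l : ℤ), m⟩ : ZI) = s)).card : ℝ) ≤ 2 * (cntM s l ⌊M⌋₊ : ℝ) + 1 := by
  classical
  set T := (Icc ⌈-M⌉ ⌊M⌋).filter (fun m => be 1 (⟨(l : ℤ), m⟩ : ZI) = s) with hT
  have h1 : T ⊆ T.filter (fun m => 0 < m) ∪ (T.filter (fun m => m < 0) ∪ {0}) := by
    intro m hm
    rw [mem_union, mem_union, mem_singleton]
    rcases lt_trichotomy m 0 with h | h | h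
    · right; left; exact mem_filter.2 ⟨hm, h⟩
    · right; right; exact h
    · left; exact mem_filter.2 ⟨hm, h⟩
  have key : ∀ m ∈ T, m ≠ 0 → m.natAbs ∈ (Icc 1 ⌊M⌋₊).filter
      (fun m => ArithmeticFunction.moebius (l ^ 2 + m ^ 2) = s) := by
    intro m hm hm0
    rw [hT, mem_filter, mem_Icc, Int.ceil_le, Int.le_floor] at hm
    rw [mem_filter, mem_Icc]
    refine ⟨⟨Int.natAbs_pos.2 hm0, ?_⟩, be_moebius hs hm.2⟩
    apply Nat.le_floor
    have h2 : ((m.natAbs : ℕ) : ℝ) = |(m : ℝ)| := by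
      rw [← Int.cast_natCast, Int.natCast_natAbs, Int.cast_abs]
    rw [h2, abs_le]
    exact ⟨hm.1.1, hm.1.2⟩
  have h2 : (T.filter (fun m => 0 < m)).card ≤ cntM s l ⌊M⌋₊ := by
    unfold cntM
    apply card_le_card_of_injOn (fun m => m.natAbs)
    · intro m hm
      rw [mem_coe, mem_filter] at hm
      exact key m hm.1 (by omega)
    · intro a ha b hb hab
      rw [mem_coe, mem_filter] at ha hb
      simp only at hab
      omega
  have h3 : (T.filter (fun m => m < 0)).card ≤ cntM s l ⌊M⌋₊ := by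
    unfold cntM
    apply card_le_card_of_injOn (fun m => m.natAbs)
    · intro m hm
      rw [mem_coe, mem_filter] at hm
      exact key m hm.1 (by omega)
    · intro a ha b hb hab
      rw [mem_coe, mem_filter] at ha hb
      simp only at hab
      omega
  have h4 := card_le_card h1
  have h5 := card_union_le (T.filter (fun m => 0 < m)) (T.filter (fun m => m < 0) ∪ {0})
  have h6 := card_union_le (T.filter (fun m => m < 0)) {0}
  rw [card_singleton] at h6
  have h7 : T.card ≤ 2 * cntM s l ⌊M⌋₊ + 1 := by omega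
  exact_mod_cast h7

/-- from the weighted sums to the number -/
theorem half_sum (hm : S_MUB) {M A1 A2 Q1 Q2 : ℝ} (hM : 3 ≤ M) (hQ : 2 * M ^ 2 < Q1 ^ 2) (hQ0 : 0 < Q1) {l : ℤ}
    (hl : 1 ≤ l) (hlM : (l : ℝ) ≤ M) {s : ℤ} (hs : s = 1 ∨ s = -1) :
    (TT1 M A1 A2 Q1 Q2 l + s * SS1 M A1 A2 Q1 Q2 l) / 2 ≤
      4 * (((Icc ⌈-M⌉ ⌊M⌋).filter (fun m => be 1 (⟨l, m⟩ : ZI) = s)).card : ℝ) := by
  classical
  unfold TT1 SS1
  rw [mul_sum, ← sum_add_distrib, sum_div, ← sum_boole, mul_sum]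
  apply sum_le_sum
  intro m hm'
  rw [mem_Icc, Int.ceil_le, Int.le_floor] at hm'
  have hW0 := Wt_nonneg (by linarith : 1 ≤ M) A1 A2 Q1 Q2 (⟨l, m⟩ : ZI)
  have hW : Wt M A1 A2 Q1 Q2 (⟨l, m⟩ : ZI) ≤ 4 := by
    apply Wt_le hm hM hQ hQ0
    · intro h0
      have := congrArg Zsqrtd.re h0
      simp at this
      omega
    · rw [nz_eq]
      simp only
      have a1 : (l : ℝ) ^ 2 ≤ M ^ 2 := by
        have : (0 : ℝ) ≤ l := by exact_mod_cast (by omega : (0 : ℤ) ≤ l)
        gcongr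
      have a2 : (m : ℝ) ^ 2 ≤ M ^ 2 := sq_le_sq' hm'.1 hm'.2
      linarith
  rcases hs with rfl | rfl
  · rcases be_val (⟨l, m⟩ : ZI) with h | h | h
    · rw [h]
      simp
    · rw [h]
      simp
      linarith
    · rw [h]
      simp
      norm_num
  · rcases be_val (⟨l, m⟩ : ZI) with h | h | h
    · rw [h]
      simp
    · rw [h]
      simp
      norm_num
    · rw [h]
      simp
      linarith

end Pool.Agent.J4.H69
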