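import Pool.Agent.J4.H69.FIN

/-!
# Almost all `l`
-/

set_option autoImplicit false

namespace Pool.Agent.J4.H69

open Finset Filter Topology
open Pool.Agent.N782.GN
open Pool.Agent.N855.GN (Dv mem_Dv logpow nz_one_le one_le_log bg)
open Pool.Agent.N277.GN (ct_nat_mul abs_be_le card_bl nz_pos nz_natCast)
open Pool.Agent.H304R3.HK (UH bb LamK CS)
open Pool.Agent.N458.GN (smul_mk zi_ne)

/-- `l` is good for `M` -/
def Gd (c : ℝ) (l N : ℕ) : Prop := ∀ s : ℤ, s = 1 ∨ s = -1 → c * ((l.totient : ℝ) / l) * N ≤ cntM s l N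

open Classical in
theorem goodM {δ : ℝ} (hδ : 0 < δ) (hδ1 : δ ≤ 1) (A : ℕ) : ∀ᶠ N : ℕ in atTop, ∀ L : ℕ, (N : ℝ) ^ δ ≤ L →
    (L : ℝ) ≤ (N : ℝ) ^ (1 - δ) →
    (((Icc 1 L).filter (fun l => ¬ Gd (δ ^ 2 / 196608) l N)).card : ℝ) ≤ L / (Real.log N) ^ A := by
  have d1 := tlow hδ hδ1 (A + 4)
  have d2 := spart hδ hδ1 (A + 4)
  have d3 := gc_bd hδ hδ1
  have d4 : ∀ᶠ M : ℝ in atTop, (27 * 6144 / (2 * δ ^ 2)) ≤ Real.log M := Real.tendsto_log_atTop.eventually_ge_atTop _
  have d5 := logpow 1 (show (0 : ℝ) < 1 / 2 by norm_num) (show 0 < δ ^ 2 / 6144 / 243 by positivity)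
  have d6 : ∀ᶠ M : ℝ in atTop, (3 : ℝ) ≤ M ^ (δ / 4) :=
    (tendsto_rpow_atTop (by positivity)).eventually_ge_atTop _
  have d7 : ∀ᶠ M : ℝ in atTop, (64 : ℝ) ≤ Real.log M := Real.tendsto_log_atTop.eventually_ge_atTop _
  have hcast := tendsto_natCast_atTop_atTop (R := ℝ)
  filter_upwards [hcast.eventually d1, hcast.eventually d2, hcast.eventually d3, hcast.eventually d4,
    hcast.eventually d5, hcast.eventually d6, hcast.eventually d7, eventually_ge_atTop 9]
    with N d1 d2 d3 d4 d5 d6 d7 hN9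
  intro L hL1 hL2
  obtain ⟨M, hMN⟩ : ∃ M : ℝ, M = (N : ℝ) := ⟨_, rfl⟩
  have hfl : ⌊M⌋₊ = N := by rw [hMN, Nat.floor_natCast]
  rw [← hMN] at d1 d2 d3 d4 d5 d6 d7 hL1 hL2 ⊢
  have hM9 : 9 ≤ M := by
    rw [hMN]
    exact_mod_cast hN9
  have hM3 : 3 ≤ M := by linarith
  have hM0 : 0 < M := by linarith
  have hM1 : 1 ≤ M := by linarith
  obtain ⟨Er, hE0, hEs, hE⟩ := d1 L hL1 hL2
  have hS := d2 L hL1 hL2
  set y := Real.log M with hy
  have hy0 : 0 < y := by linarith
  have hy1 : 1 ≤ y := by linarith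
  set A1 := M ^ (δ / 64) with hA1
  set A2 := M ^ (5 * (δ / 64) / 4) with hA2
  set Q1 := M ^ (1 + δ / 4) with hQ1
  set Q2 := M ^ (1 + δ / 2) with hQ2
  set G := Gc M A1 A2 Q1 Q2 with hG
  set g0 := δ ^ 2 / 6144 with hg0
  have hg00 : 0 < g0 := by positivity
  have hG0 : 0 ≤ G := le_trans hg00.le d3.1
  have hQ0 : 0 < Q1 := by positivity
  have hQM : Q1 = M * M ^ (δ / 4) := by rw [hQ1, Real.rpow_add hM0, Real.rpow_one]
  have hQ : 2 * M ^ 2 < Q1 ^ 2 := by
    rw [hQM, mul_pow]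
    have : (2 : ℝ) < (M ^ (δ / 4)) ^ 2 := by nlinarith
    have : 0 < M ^ 2 := by positivity
    nlinarith
  have hL0 : 0 < (L : ℝ) := lt_of_lt_of_le (by positivity) hL1
  have hLM : (L : ℝ) ≤ M := by
    refine hL2.trans ?_
    calc M ^ (1 - δ) ≤ M ^ (1 : ℝ) := Real.rpow_le_rpow_of_exponent_le hM1 (by linarith)
      _ = M := Real.rpow_one M
  rw [sum_int_nat _ hL0.le] at hS
  rw [Nat.floor_natCast] at hEs hE hS
  -- good `l`
  have hgood : ∀ l ∈ Icc 1 L, |SS1 M A1 A2 Q1 Q2 l| + Er l ≤ M / y ^ 2 → Gd (δ ^ 2 / 196608) l N := by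
    intro l hl hle s hs
    have hl' := mem_Icc.1 hl
    have hlM : (l : ℝ) ≤ M := by
      have : (l : ℝ) ≤ L := by exact_mod_cast hl'.2
      linarith
    have hl1 : (1 : ℝ) ≤ l := by exact_mod_cast hl'.1
    have hlZ : (1 : ℤ) ≤ (l : ℤ) := by exact_mod_cast hl'.1
    have hlMZ : (((l : ℕ) : ℤ) : ℝ) ≤ M := by exact_mod_cast hlM
    have h1 := hE l hl
    have h2 := half_sum c_mub (A1 := A1) (A2 := A2) (Q2 := Q2) hM3 hQ hQ0 hlZ hlMZ hs
    have hs0 : s ≠ 0 := by rcases hs with rfl | rfl <;> norm_num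
    have h3 := cnt_ge (l := l) (s := s) hM0.le hs0
    rw [hfl] at h3
    set φ := (l.totient : ℝ) / l with hφ
    have hφ0 : 1 / (3 * y) ≤ φ := by
      refine le_trans ?_ (phi_low hl'.1)
      have h4 : Real.log l ≤ y := Real.log_le_log (by linarith) hlM
      have h5 : 0 ≤ Real.log l := Real.log_nonneg hl1
      apply one_div_le_one_div_of_le (by positivity)
      nlinarith
    have hφ1 : 0 ≤ φ := by positivity
    have hsS : -|SS1 M A1 A2 Q1 Q2 l| ≤ (s : ℝ) * SS1 M A1 A2 Q1 Q2 l := by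
      have := neg_abs_le ((s : ℝ) * SS1 M A1 A2 Q1 Q2 l)
      rw [abs_mul] at this
      have e : |(s : ℝ)| = 1 := by rcases hs with rfl | rfl <;> simp
      rw [e, one_mul] at this
      exact this
    -- the size of the errors
    set T := M * g0 * (1 / (3 * y)) with hT
    have hT1 : T ≤ M * G * φ := by
      rw [hT]
      have := d3.1
      gcongr
    have hT0 : 0 < T := by positivity
    have hyg : 1 / y ≤ 2 / 27 * g0 := by
      rw [div_le_iff₀ hy0]
      rw [div_le_iff₀ (by positivity)] at d4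
      rw [hg0]
      linarith
    have b1 : M / y ^ 2 ≤ 2 / 9 * T := by
      have e1 : M / y ^ 2 = M / y * (1 / y) := by ring
      rw [e1]
      calc M / y * (1 / y) ≤ M / y * (2 / 27 * g0) := by gcongr
        _ = 2 / 9 * T := by
            rw [hT]
            field_simp
            ring
    have b2 : 32 * M / y ^ 3 ≤ 2 / 9 * T := by
      refine le_trans ?_ b1
      rw [div_le_div_iff₀ (by positivity) (by positivity)]
      have : 32 ≤ y := by linarith
      calc 32 * M * y ^ 2 ≤ y * M * y ^ 2 := by gcongr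
        _ = M * y ^ 3 := by ring
    have b3 : 9 * Real.sqrt (2 * M) ≤ 2 / 9 * T := by
      have e1 : Real.sqrt (2 * M) ≤ 2 * Real.sqrt M := by
        rw [Real.sqrt_le_left (by positivity), mul_pow, Real.sq_sqrt hM0.le]
        linarith
      rw [pow_one, ← Real.sqrt_eq_rpow] at d5
      have hsM : 0 < Real.sqrt M := Real.sqrt_pos.2 hM0
      have hsM2 : Real.sqrt M * Real.sqrt M = M := Real.mul_self_sqrt hM0.le
      have e2 : 243 * y ≤ g0 * Real.sqrt M := by linarith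
      have e3 : 18 * Real.sqrt M ≤ 2 / 9 * T := by
        have e4 : 2 / 9 * T = 2 / 27 * (M * g0) / y := by
          rw [hT]
          field_simp
          ring
        rw [e4, le_div_iff₀ hy0]
        calc 18 * Real.sqrt M * y = 2 / 27 * (Real.sqrt M * (243 * y)) := by ring
          _ ≤ 2 / 27 * (Real.sqrt M * (g0 * Real.sqrt M)) := by gcongr
          _ = 2 / 27 * ((Real.sqrt M * Real.sqrt M) * g0) := by ring
          _ = 2 / 27 * (M * g0) := by rw [hsM2]
      linarith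
    have b4 : 1 ≤ M * G * φ / 16 := by
      have e1 : 16 ≤ T := by
        rw [hT]
        have e2 : 1 / y * 27 ≤ 2 * g0 := by linarith
        have e3 : M * g0 * (1 / (3 * y)) = M * (g0 / 3) * (1 / y) := by
          field_simp
        rw [e3]
        -- `g0 ≥ 27 / (2 y)`, `M ≥ y ^ 2 * 9`
        have e4 : 27 / (2 * y) ≤ g0 := by
          rw [div_le_iff₀ (by positivity)]
          have : 1 / y * 27 * y ≤ 2 * g0 * y := by gcongr
          have e : 1 / y * 27 * y = 27 := by field_simp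
          linarith
        have e5 : y ^ 2 * 16 ≤ M := by
          have h := Real.add_one_le_exp (y / 4)
          have e6 : Real.exp (y / 4) ^ 4 = M := by
            rw [← Real.exp_nat_mul, show ((4 : ℕ) : ℝ) * (y / 4) = y by push_cast; ring, hy, Real.exp_log hM0]
          have e7 : (y / 4 + 1) ^ 4 ≤ M := by
            rw [← e6]
            exact pow_le_pow_left₀ (by positivity) h 4
          have e8 : y ^ 2 * 16 ≤ (y / 4 + 1) ^ 4 := by
            have e9 : 16 ≤ (y / 4 + 1) := by linarith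
            have e10 : y ≤ 4 * (y / 4 + 1) := by linarith
            calc y ^ 2 * 16 ≤ (4 * (y / 4 + 1)) ^ 2 * 16 := by gcongr
              _ = (y / 4 + 1) ^ 2 * (16 * 16) := by ring
              _ ≤ (y / 4 + 1) ^ 2 * ((y / 4 + 1) * (y / 4 + 1)) := by gcongr
              _ = _ := by ring
          linarith
        calc (16 : ℝ) ≤ y ^ 2 * 16 * (27 / (2 * y) / 3) * (1 / y) := by
              have : y ^ 2 * 16 * (27 / (2 * y) / 3) * (1 / y) = 72 := by
                field_simp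
                norm_num
              rw [this]
              norm_num
          _ ≤ M * (g0 / 3) * (1 / y) := by gcongr
      linarith
    have h5 : δ ^ 2 / 196608 * φ * N = M * g0 * φ / 32 := by
      rw [hg0, hMN]
      ring
    rw [h5]
    have h6 : M * g0 * φ ≤ M * G * φ := by
      have := d3.1
      gcongr
    have h7 : 5 / 3 * (M * G * φ) - M / y ^ 2 - (32 * M / y ^ 3 + 9 * Real.sqrt (2 * M)) ≤
        TT1 M A1 A2 Q1 Q2 l + (s : ℝ) * SS1 M A1 A2 Q1 Q2 l := by linarith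
    have h8 : M * G * φ ≤ TT1 M A1 A2 Q1 Q2 l + (s : ℝ) * SS1 M A1 A2 Q1 Q2 l := by linarith
    have h9 : M * G * φ / 8 ≤
        (((Icc ⌈-M⌉ ⌊M⌋).filter (fun m => be 1 (⟨(l : ℤ), m⟩ : ZI) = s)).card : ℝ) := by
      push_cast at h2
      linarith
    linarith
  -- Markov
  have h1 : ∀ l ∈ (Icc 1 L).filter (fun l => ¬ Gd (δ ^ 2 / 196608) l N),
      M / y ^ 2 ≤ |SS1 M A1 A2 Q1 Q2 l| + Er l := by
    intro l hl
    rw [mem_filter] at hl
    by_contra h
    exact hl.2 (hgood l hl.1 (not_le.1 h).le)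
  have h2 := sum_le_sum h1
  rw [sum_const, nsmul_eq_mul] at h2
  have h3 : ∑ l ∈ (Icc 1 L).filter (fun l => ¬ Gd (δ ^ 2 / 196608) l N), (|SS1 M A1 A2 Q1 Q2 l| + Er l) ≤
      ∑ l ∈ Icc 1 L, (|SS1 M A1 A2 Q1 Q2 l| + Er l) :=
    sum_le_sum_of_subset_of_nonneg (filter_subset _ _) fun l _ _ => add_nonneg (abs_nonneg _) (hE0 l)
  have h3' : ∑ l ∈ Icc 1 L, (|SS1 M A1 A2 Q1 Q2 l| + Er l) =
      ∑ l ∈ Icc 1 L, |SS1 M A1 A2 Q1 Q2 l| + ∑ l ∈ Icc 1 L, Er l := sum_add_distrib
  have h4 : (((Icc 1 L).filter (fun l => ¬ Gd (δ ^ 2 / 196608) l N)).card : ℝ) * (M / y ^ 2) ≤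
      2 * (L * M / y ^ (A + 4)) := by linarith
  have h5 : 2 * (L * M / y ^ (A + 4)) ≤ L / y ^ A * (M / y ^ 2) := by
    have e1 : L / y ^ A * (M / y ^ 2) = L * M / y ^ (A + 2) := by
      rw [pow_add]
      field_simp
    rw [e1, ← mul_div_assoc, div_le_div_iff₀ (by positivity) (by positivity)]
    have e2 : y ^ (A + 4) = y ^ (A + 2) * y ^ 2 := by rw [← pow_add]
    rw [e2]
    have e3 : 2 ≤ y ^ 2 := by nlinarith
    have e4 : 0 ≤ L * M * y ^ (A + 2) := by positivity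
    nlinarith
  exact le_of_mul_le_mul_right (h4.trans h5) (by positivity)

end Pool.Agent.J4.H69
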