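import Pool.Agent.J4.H69.SBe

/-!
# The frequencies of `∑_{a b = t} log N(a) c(b)` for a general coefficient `c`
-/

set_option autoImplicit false

namespace Pool.Agent.J4.H69

open Finset Filter Topology
open Pool.Agent.N782.GN
open Pool.Agent.N855.GN
open Pool.Agent.N277.GN (ct_nat_mul abs_be_le card_bl)
open Pool.Agent.H304R3.HK (UH bb LamK CS)

/-- a coefficient: bounded by one and supported on the primitive numbers -/
structure Cf (c : ZI → ℝ) : Prop where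
  bd : ∀ b, |c b| ≤ 1
  pr : ∀ b, ct b ≠ 1 → c b = 0

/-- the coefficient of a pair: the product has to be primitive -/
noncomputable def pc (c : ZI → ℝ) (a b : ZI) : ℝ := if ct (a * b) = 1 then c b else 0

theorem pc_abs {c : ZI → ℝ} (hc : Cf c) (a b : ZI) : |pc c a b| ≤ 1 := by
  unfold pc
  split_ifs
  · exact hc.bd b
  · simp

theorem pc_ct {c : ZI → ℝ} {a b : ZI} (h : ct (a * b) ≠ 1) : pc c a b = 0 := by
  unfold pc
  rw [if_neg h]

theorem ct_mul_one2 {a b : ZI} (hb : b ≠ 0) (h : ct (a * b) = 1) : ct b = 1 := by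
  obtain ⟨w, -, -, hw⟩ := Pool.Agent.N277.GN.ct_exists hb
  have h3 : ct (a * b) = ct b * ct (a * w) := by
    have h4 : a * b = ((ct b : ℕ) : ZI) * (a * w) := by
      conv_lhs => rw [← hw]
      ring
    rw [h4, ct_nat_mul]
  rw [h] at h3
  exact Nat.eq_one_of_mul_eq_one_right h3.symm

theorem ct_prime_mul {a b : ZI} (ha : (Zsqrtd.norm a).natAbs.Prime) (hb0 : b ≠ 0) (h2 : ¬ star a ∣ b) :
    ct (a * b) = 1 ↔ ct b = 1 := by
  have ha0 := ne_zero_of_prime ha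
  constructor
  · intro h
    obtain ⟨w, -, -, hw⟩ := Pool.Agent.N277.GN.ct_exists hb0
    have h3 : ct (a * b) = ct b * ct (a * w) := by
      have h4 : a * b = ((ct b : ℕ) : ZI) * (a * w) := by
        conv_lhs => rw [← hw]
        ring
      rw [h4, ct_nat_mul]
    rw [h] at h3
    exact Nat.eq_one_of_mul_eq_one_right h3.symm
  · intro h
    by_contra hne
    obtain ⟨l, hl, hld⟩ := Nat.exists_prime_and_dvd hne
    have h3 : ((l : ℕ) : ZI) ∣ a * b := by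
      rw [Pool.Agent.N864.GN.MB.dvd_ct]
      exact hld
    by_cases hlp : l = (Zsqrtd.norm a).natAbs
    · rw [hlp, ← mul_star_self a] at h3
      exact h2 ((mul_dvd_mul_iff_left ha0).1 h3)
    · have h4 : IsCoprime ((l : ℕ) : ZI) a := by
        have h5 : Nat.Coprime l (Zsqrtd.norm a).natAbs := (Nat.coprime_primes hl ha).2 hlp
        have h6 : IsCoprime ((l : ℕ) : ZI) (((Zsqrtd.norm a).natAbs : ℕ) : ZI) := by
          have h7 := (Nat.isCoprime_iff_coprime.2 h5)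
          have h8 := h7.map (Int.castRingHom ZI)
          simpa using h8
        rw [← mul_star_self a] at h6
        exact IsCoprime.of_mul_right_left h6
      have h5 : ((l : ℕ) : ZI) ∣ b := h4.dvd_of_dvd_mul_left h3
      rw [Pool.Agent.N864.GN.MB.dvd_ct, h] at h5
      exact hl.one_lt.ne' (Nat.dvd_one.1 h5)

theorem pc_eq {c : ZI → ℝ} (hc : Cf c) {a b : ZI} (ha : (Zsqrtd.norm a).natAbs.Prime) (hb0 : b ≠ 0)
    (h2 : ¬ star a ∣ b) : pc c a b = c b := by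
  unfold pc
  split_ifs with h
  · rfl
  · rw [hc.pr b fun h' => h ((ct_prime_mul ha hb0 h2).2 h')]

/-- the first error -/
theorem G1c_le (hm : S_MUB) {cF : ZI → ℝ} (hc : Cf cF) {q : ℕ} (hq : 1 ≤ q) {r : ZI} {I : ℕ} {A1 A2 V η Y1 Y2 : ℝ} (hV : 1 ≤ V) (hA1 : 1 ≤ A1)
    (hA12 : A1 ≤ A2) (hη : 0 ≤ η) (hη1 : η ≤ 1) (hI : A2 ≤ A1 * (1 + η) ^ I) (hY1 : 0 ≤ Y1) (hY12 : Y1 ≤ Y2)
    (hY2 : Y2 ≤ V) (K : ℕ) (hK : 1 ≤ K) :
    ∑ k ∈ Icc (-(K : ℤ)) K, ‖∑ a ∈ bg A1 A2, ∑ b ∈ bl V,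
      ((lp a * pc cF a b * (chi q r Y1 Y2 (a * b) - Wt q r I A1 A2 η Y1 Y2 a b) : ℝ) : ℂ) * ph k 0 (a * b)‖ ^ 2 ≤
      72 * (K + 2 * V) * ((4 * Real.log (2 * V)) ^ 2 * ∑ t ∈ bl (2 * V), (sh η Y1 Y2 (nz t)) ^ 2) := by
  classical
  set h : ZI → ZI → ℝ := fun a b => lp a * pc cF a b * (chi q r Y1 Y2 (a * b) - Wt q r I A1 A2 η Y1 Y2 a b) with hh
  have hnz : ∀ b ∈ bl V, b ≠ 0 := fun b hb => ((mem_bl _ _).1 hb).1
  have hT : ∀ a ∈ bg A1 A2, ∀ b ∈ bl V, a * b ∉ bl (2 * V) → h a b = 0 := by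
    intro a ha b hb hab
    have hb0 := hnz b hb
    have h1 : chi q r Y1 Y2 (a * b) = 0 := by
      unfold chi
      rw [if_neg fun h' => hab (bl_mono (by linarith) (SA_sub hY2 h'))]
    have h2 : Wt q r I A1 A2 η Y1 Y2 a b = 0 := by
      rcases Wt_01 hq (r := r) (Y1 := Y1) (Y2 := Y2) hA1 hA12 hη hI ha hb0 with h2 | ⟨-, h2⟩
      · exact h2
      · exfalso
        apply hab
        rw [mem_bl, nz_mul]
        refine ⟨mul_ne_zero (mem_bg.1 ha).1 hb0, h2.trans ?_⟩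
        nlinarith
    rw [hh]
    simp only
    rw [h1, h2, sub_zero, mul_zero]
  set g : ZI → ℝ := fun t => ∑ a ∈ bg A1 A2, ∑ b ∈ bl V, if a * b = t then h a b else 0 with hg
  have e1 : ∀ k : ℤ, ∑ a ∈ bg A1 A2, ∑ b ∈ bl V, ((h a b : ℝ) : ℂ) * ph k 0 (a * b) =
      ∑ t ∈ bl (2 * V), ((g t : ℝ) : ℂ) * ph k 0 t := fun k => group _ _ _ h (ph k 0) hT
  have hgct : ∀ t, ct t ≠ 1 → ((g t : ℝ) : ℂ) = 0 := by
    intro t ht
    rw [Complex.ofReal_eq_zero, hg]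
    refine sum_eq_zero fun a _ => sum_eq_zero fun b _ => ?_
    split_ifs with hab
    · rw [hh]
      simp only
      rw [pc_ct (by rw [hab]; exact ht)]
      ring
    · rfl
  have hgb : ∀ t ∈ bl (2 * V), |g t| ≤ 4 * Real.log (2 * V) * sh η Y1 Y2 (nz t) := by
    intro t ht
    obtain ⟨ht0, ht2⟩ := (mem_bl _ _).1 ht
    have hsh := sh_nonneg η Y1 Y2 (nz t)
    have h1 : |g t| ≤ ∑ a ∈ bg A1 A2, if a ∣ t then lp a * sh η Y1 Y2 (nz t) else 0 := by
      rw [hg]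
      refine (abs_sum_le_sum_abs _ _).trans (sum_le_sum fun a ha => ?_)
      have ha0 := (mem_bg.1 ha).1
      by_cases hat : a ∣ t
      · rw [if_pos hat]
        obtain ⟨b0, hb0⟩ := hat
        have h2 : ∑ b ∈ bl V, (if a * b = t then h a b else 0) = if b0 ∈ bl V then h a b0 else 0 := by
          rw [← sum_ite_eq' (bl V) b0 (fun b => h a b)]
          refine sum_congr rfl fun b _ => ?_
          have : a * b = t ↔ b = b0 := by
            rw [hb0]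
            exact mul_right_inj' ha0
          by_cases hb : b = b0
          · rw [if_pos (this.2 hb), if_pos hb]
          · rw [if_neg fun h' => hb (this.1 h'), if_neg hb]
        rw [h2]
        split_ifs with hb
        · rw [hh]
          simp only
          rw [abs_mul, abs_mul, abs_of_nonneg (lp_nonneg a)]
          have h3 := chi_err hq (r := r) (Y1 := Y1) (Y2 := Y2) hA1 hA12 hη hI ha (hnz b0 hb)
          rw [← hb0] at h3 ⊢
          have h4 := pc_abs hc a b0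
          calc lp a * |pc cF a b0| * |chi q r Y1 Y2 t - Wt q r I A1 A2 η Y1 Y2 a b0|
              ≤ lp a * 1 * sh η Y1 Y2 (nz t) := by
                apply mul_le_mul (mul_le_mul_of_nonneg_left h4 (lp_nonneg a)) h3 (abs_nonneg _)
                have := lp_nonneg a
                linarith
            _ = _ := by ring
        · rw [abs_zero]
          exact mul_nonneg (lp_nonneg a) hsh
      · rw [if_neg hat]
        rw [sum_eq_zero, abs_zero]
        intro b _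
        rw [if_neg]
        intro h'
        exact hat ⟨b, h'.symm⟩
    refine h1.trans ?_
    have h2 : ∑ a ∈ bg A1 A2, (if a ∣ t then lp a * sh η Y1 Y2 (nz t) else 0) ≤ om A1 A2 t * sh η Y1 Y2 (nz t) := by
      unfold om
      rw [sum_mul, ← sum_filter]
      have hsub : (bg A1 A2).filter (fun a => a ∣ t) ⊆ Dv t := by
        intro a ha
        rw [mem_filter] at ha
        rw [mem_Dv ht0]
        exact ha.2
      refine le_trans (le_of_eq ?_) (sum_le_sum_of_subset_of_nonneg hsub fun a _ _ =>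
        mul_nonneg (lw_nonneg A1 A2 a) hsh)
      refine sum_congr rfl fun a ha => ?_
      rw [lw_bg (mem_filter.1 ha).1]
    refine h2.trans (mul_le_mul_of_nonneg_right ?_ hsh)
    refine (om_le hm A1 A2 ht0).trans ?_
    have := Real.log_le_log (nz_pos ht0) ht2
    linarith
  have e2 := mv1 (2 * V) (by linarith) K hK (fun t => ((g t : ℝ) : ℂ)) hgct
  have e3 : ∑ k ∈ Icc (-(K : ℤ)) K, ‖∑ a ∈ bg A1 A2, ∑ b ∈ bl V,
      ((lp a * pc cF a b * (chi q r Y1 Y2 (a * b) - Wt q r I A1 A2 η Y1 Y2 a b) : ℝ) : ℂ) * ph k 0 (a * b)‖ ^ 2 =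
      ∑ k ∈ Icc (-(K : ℤ)) K, ‖∑ t ∈ bl (2 * V), ((g t : ℝ) : ℂ) * ph k 0 t‖ ^ 2 :=
    sum_congr rfl fun k _ => by rw [← e1 k]
  rw [e3]
  refine e2.trans ?_
  have hK0 : (0 : ℝ) ≤ K := Nat.cast_nonneg K
  apply mul_le_mul_of_nonneg_left _ (by linarith)
  rw [mul_sum]
  refine sum_le_sum fun t ht => ?_
  rw [Complex.norm_real, Real.norm_eq_abs, sq_abs, ← mul_pow, ← sq_abs]
  exact pow_le_pow_left₀ (abs_nonneg _) (hgb t ht) 2

/-- the second error -/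
theorem G2c_le {cF : ZI → ℝ} (hcF : Cf cF) {q : ℕ} (hq : 1 ≤ q) {r : ZI} {I : ℕ} {A1 A2 V η Y1 Y2 : ℝ} (hA1 : 2 ≤ A1)
    (hA12 : A1 ≤ A2) (hη : 0 ≤ η) (hη1 : η ≤ 1) (hI : A2 ≤ A1 * (1 + η) ^ I)
    (hY2 : Y2 ≤ V) (hVA : A2 ^ 2 ≤ V) (K : ℕ) (hK : 1 ≤ K) (hKV : (K : ℝ) ≤ V / A2) :
    ∑ k ∈ Icc (-(K : ℤ)) K, ‖∑ a ∈ bg A1 A2, ∑ b ∈ bl V,
      ((lp a * (pc cF a b - cF b) * Wt q r I A1 A2 η Y1 Y2 a b : ℝ) : ℂ) * ph k 0 (a * b)‖ ^ 2 ≤
      (9 * A2 * Real.log A2) ^ 2 * (41472 * V ^ 2 / A1 ^ 3) := by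
  classical
  have hA20 : 0 < A2 := by linarith
  have hA21 : 1 ≤ A2 := by linarith
  have hA10 : 0 < A1 := by linarith
  have hV0 : 0 < V := lt_of_lt_of_le (by positivity) hVA
  have hV2 : A2 ≤ V := by nlinarith
  set c : ZI → ZI → ℝ := fun a b => (pc cF a b - cF b) * Wt q r I A1 A2 η Y1 Y2 a b with hc
  set E : ZI → ℤ → ℂ := fun a k => ∑ b ∈ bl V, ((c a b : ℝ) : ℂ) * ph k 0 b with hE
  have hlpn : ∀ a ∈ bg A1 A2, 0 ≤ lp a := fun a _ => lp_nonneg a
  have h1 : ∀ k : ℤ, ‖∑ a ∈ bg A1 A2, ∑ b ∈ bl V,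
      ((lp a * (pc cF a b - cF b) * Wt q r I A1 A2 η Y1 Y2 a b : ℝ) : ℂ) * ph k 0 (a * b)‖ ≤
      ∑ a ∈ bg A1 A2, lp a * ‖E a k‖ := by
    intro k
    refine (norm_sum_le _ _).trans (sum_le_sum fun a ha => ?_)
    have ha0 := (mem_bg.1 ha).1
    have e1 : ∑ b ∈ bl V, ((lp a * (pc cF a b - cF b) * Wt q r I A1 A2 η Y1 Y2 a b : ℝ) : ℂ) * ph k 0 (a * b) =
        (lp a : ℂ) * ph k 0 a * E a k := by
      rw [hE]
      simp only
      rw [mul_sum]
      refine sum_congr rfl fun b hb => ?_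
      rw [ph_mul k ha0 ((mem_bl _ _).1 hb).1, hc]
      push_cast
      ring
    rw [e1, norm_mul, norm_mul, norm_ph, mul_one, Complex.norm_real, Real.norm_of_nonneg (lp_nonneg a)]
  have h2 : ∀ k : ℤ, ‖∑ a ∈ bg A1 A2, ∑ b ∈ bl V,
      ((lp a * (pc cF a b - cF b) * Wt q r I A1 A2 η Y1 Y2 a b : ℝ) : ℂ) * ph k 0 (a * b)‖ ^ 2 ≤
      (9 * A2 * Real.log A2) * ∑ a ∈ bg A1 A2, lp a * ‖E a k‖ ^ 2 := by
    intro k
    refine (pow_le_pow_left₀ (norm_nonneg _) (h1 k) 2).trans ((cs_w _ _ _ hlpn).trans ?_)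
    exact mul_le_mul_of_nonneg_right (sum_lp hA21) (sum_nonneg fun a _ => mul_nonneg (lp_nonneg a) (sq_nonneg _))
  have h3 : ∀ a ∈ bg A1 A2, ∑ k ∈ Icc (-(K : ℤ)) K, lp a * ‖E a k‖ ^ 2 ≤ lp a * (41472 * V ^ 2 / A1 ^ 3) := by
    intro a ha
    rw [← mul_sum]
    by_cases hlp : lp a = 0
    · rw [hlp, zero_mul, zero_mul]
    apply mul_le_mul_of_nonneg_left _ (lp_nonneg a)
    have hap := lp_ne hlp
    obtain ⟨ha0, ha2, ha1⟩ := mem_bg.1 ha
    have hapos := nz_pos ha0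
    set Va := 2 * V / nz a with hVa
    have hVa2 : 2 ≤ Va := by
      rw [hVa, le_div_iff₀ hapos]
      linarith
    have hVaV : Va ≤ V := by
      rw [hVa, div_le_iff₀ hapos]
      nlinarith
    have e1 : ∀ k : ℤ, E a k = ∑ b ∈ bl Va, ((c a b : ℝ) : ℂ) * ph k 0 b := by
      intro k
      rw [hE]
      simp only
      symm
      refine sum_subset (bl_mono hVaV) fun b hb hb' => ?_
      have hb0 := ((mem_bl _ _).1 hb).1
      have : Wt q r I A1 A2 η Y1 Y2 a b = 0 := by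
        rcases Wt_01 hq (r := r) (Y1 := Y1) (Y2 := Y2) (by linarith) hA12 hη hI ha hb0 with h4 | ⟨-, h4⟩
        · exact h4
        · exfalso
          apply hb'
          rw [mem_bl, hVa, le_div_iff₀ hapos]
          refine ⟨hb0, ?_⟩
          rw [mul_comm]
          refine h4.trans ?_
          nlinarith
      rw [hc]
      simp only
      rw [this, mul_zero, Complex.ofReal_zero, zero_mul]
    have e2 : ∀ b, ct b ≠ 1 → ((if b ≠ 0 then c a b else 0 : ℝ) : ℂ) = 0 := by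
      intro b hb
      rw [Complex.ofReal_eq_zero]
      split_ifs with hb0
      · rw [hc]
        simp only
        rw [hcF.pr b hb, pc_ct (fun h' => hb (ct_mul_one2 hb0 h'))]
        ring
      · rfl
    have e3 : ∀ k : ℤ, E a k = ∑ b ∈ bl Va, ((if b ≠ 0 then c a b else 0 : ℝ) : ℂ) * ph k 0 b := by
      intro k
      rw [e1 k]
      refine sum_congr rfl fun b hb => ?_
      rw [if_pos ((mem_bl _ _).1 hb).1]
    have e4 := mv1 Va hVa2 K hK (fun b => ((if b ≠ 0 then c a b else 0 : ℝ) : ℂ)) e2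
    have e5 : ∑ k ∈ Icc (-(K : ℤ)) K, ‖E a k‖ ^ 2 =
        ∑ k ∈ Icc (-(K : ℤ)) K, ‖∑ b ∈ bl Va, ((if b ≠ 0 then c a b else 0 : ℝ) : ℂ) * ph k 0 b‖ ^ 2 :=
      sum_congr rfl fun k _ => by rw [e3 k]
    rw [e5]
    refine e4.trans ?_
    have hcard : ∑ b ∈ bl Va, ‖((if b ≠ 0 then c a b else 0 : ℝ) : ℂ)‖ ^ 2 ≤ 72 * (Va / nz a) := by
      have d1 : ∀ b ∈ bl Va, ‖((if b ≠ 0 then c a b else 0 : ℝ) : ℂ)‖ ^ 2 ≤
          (if a ∣ b then 4 else 0) + (if star a ∣ b then 4 else 0) := by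
        intro b hb
        have hb0 := ((mem_bl _ _).1 hb).1
        rw [if_pos hb0, Complex.norm_real, Real.norm_eq_abs, sq_abs]
        have hW : Wt q r I A1 A2 η Y1 Y2 a b ^ 2 ≤ 1 := by
          rcases Wt_01 hq (r := r) (Y1 := Y1) (Y2 := Y2) (by linarith) hA12 hη hI ha hb0 with h4 | ⟨h4, -⟩
          · rw [h4]; norm_num
          · rw [h4]; norm_num
        have hb1 := pc_abs hcF a b
        have hb2 := hcF.bd b
        rw [abs_le] at hb1 hb2
        have hsum : (pc cF a b - cF b) ^ 2 ≤ 4 := by nlinarith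
        have hgen : c a b ^ 2 ≤ 4 := by
          rw [hc]
          simp only
          rw [mul_pow]
          have := mul_le_mul hsum hW (sq_nonneg _) (by norm_num)
          linarith
        by_cases hd1 : a ∣ b
        · rw [if_pos hd1]
          split_ifs <;> linarith
        · by_cases hd2 : star a ∣ b
          · rw [if_pos hd2]
            split_ifs <;> linarith
          · rw [if_neg hd1, if_neg hd2, hc]
            simp only
            rw [pc_eq hcF hap hb0 hd2, sub_self, zero_mul]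
            norm_num
      refine (sum_le_sum d1).trans ?_
      rw [sum_add_distrib, ← sum_filter, ← sum_filter, sum_const, sum_const, nsmul_eq_mul, nsmul_eq_mul]
      have hq1 : 1 ≤ Va / nz a := by
        rw [hVa, div_div, le_div_iff₀ (by positivity)]
        nlinarith
      have d2 : (((bl Va).filter (fun b => a ∣ b)).card : ℝ) ≤ 9 * (Va / nz a) := by
        refine le_trans ?_ (card_bl _ hq1)
        exact_mod_cast card_mult ha0 Va
      have d3 : (((bl Va).filter (fun b => star a ∣ b)).card : ℝ) ≤ 9 * (Va / nz a) := by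
        refine le_trans ?_ (card_bl _ hq1)
        have hs0 : star a ≠ 0 := by
          intro h'
          apply ha0
          rw [← star_star a, h', star_zero]
        have := card_mult hs0 Va
        rw [nz_star] at this
        exact_mod_cast this
      linarith
    have hK0 : (0 : ℝ) ≤ K := Nat.cast_nonneg K
    have hKVa : (K : ℝ) ≤ Va := by
      refine hKV.trans ?_
      rw [hVa]
      apply div_le_div₀ (by positivity) (by linarith) hapos ha2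
    calc 72 * ((K : ℝ) + Va) * ∑ b ∈ bl Va, ‖((if b ≠ 0 then c a b else 0 : ℝ) : ℂ)‖ ^ 2
        ≤ 72 * (Va + Va) * (72 * (Va / nz a)) := by
          apply mul_le_mul _ hcard (sum_nonneg fun _ _ => sq_nonneg _) (by positivity)
          linarith
      _ = 41472 * V ^ 2 / nz a ^ 3 := by
          rw [hVa]
          field_simp
          norm_num
      _ ≤ 41472 * V ^ 2 / A1 ^ 3 := by
          apply div_le_div_of_nonneg_left (by positivity) (by positivity)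
          exact pow_le_pow_left₀ hA10.le ha1.le 3
  refine (sum_le_sum fun k _ => h2 k).trans ?_
  rw [← mul_sum, sum_comm]
  have h4 : 0 ≤ 9 * A2 * Real.log A2 := by
    have := Real.log_nonneg hA21
    positivity
  have h5 : (9 * A2 * Real.log A2) ^ 2 * (41472 * V ^ 2 / A1 ^ 3) =
      (9 * A2 * Real.log A2) * ((9 * A2 * Real.log A2) * (41472 * V ^ 2 / A1 ^ 3)) := by ring
  rw [h5]
  apply mul_le_mul_of_nonneg_left _ h4
  refine (sum_le_sum h3).trans ?_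
  rw [← sum_mul]
  exact mul_le_mul_of_nonneg_right (sum_lp hA21) (by positivity)

/-- the second factor of a cell -/
noncomputable def Bpc (cF : ZI → ℝ) (q : ℕ) (A1 A2 η Y1 Y2 : ℝ) (k : ℤ) (p : ℕ × ZI × ZI) : ℂ :=
  ∑ b ∈ SA q p.2.2 (Y1 / As A1 A2 η p.1) (Y2 / As A1 A2 η p.1), (cF b : ℂ) * ph k 0 b

theorem G3c_eq {cF : ZI → ℝ} {q : ℕ} {r : ZI} {I : ℕ} {A1 A2 V η Y1 Y2 : ℝ} (hA1 : 1 ≤ A1) (hA12 : A1 ≤ A2) (hη : 0 ≤ η)
    (hY2 : 0 ≤ Y2) (hYV : Y2 ≤ V) (k : ℤ) :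
    ∑ a ∈ bg A1 A2, ∑ b ∈ bl V, ((lp a * cF b * Wt q r I A1 A2 η Y1 Y2 a b : ℝ) : ℂ) * ph k 0 (a * b) =
      ∑ p ∈ Jx q r I, Ap q A1 A2 η k p * Bpc cF q A1 A2 η Y1 Y2 k p := by
  classical
  have h1 : ∀ p ∈ Jx q r I, Ap q A1 A2 η k p * Bpc cF q A1 A2 η Y1 Y2 k p = ∑ a ∈ bg A1 A2, ∑ b ∈ bl V,
      ((lp a * cF b : ℝ) : ℂ) * ph k 0 (a * b) *
        (if a ∈ SA q p.2.1 (As A1 A2 η p.1) (As A1 A2 η (p.1 + 1)) ∧
          b ∈ SA q p.2.2 (Y1 / As A1 A2 η p.1) (Y2 / As A1 A2 η p.1) then 1 else 0) := by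
    intro p _
    have hA : A1 ≤ As A1 A2 η p.1 := As_ge hA12 (by linarith) hη p.1
    have hs1 : SA q p.2.1 (As A1 A2 η p.1) (As A1 A2 η (p.1 + 1)) ⊆ bg A1 A2 := by
      intro a ha
      rw [mem_SA] at ha
      rw [mem_bg]
      exact ⟨ha.1, ha.2.1.trans (As_le _ _ _ _), lt_of_le_of_lt hA ha.2.2.2⟩
    have hs2 : SA q p.2.2 (Y1 / As A1 A2 η p.1) (Y2 / As A1 A2 η p.1) ⊆ bl V := by
      intro m hm
      rw [mem_SA] at hm
      rw [mem_bl]
      exact ⟨hm.1, hm.2.1.trans ((div_le_self hY2 (hA1.trans hA)).trans hYV)⟩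
    unfold Ap Bpc
    rw [sum_mul_sum, ← sum_subset hs1 (f := fun a => ∑ b ∈ bl V,
      ((lp a * cF b : ℝ) : ℂ) * ph k 0 (a * b) *
        (if a ∈ SA q p.2.1 (As A1 A2 η p.1) (As A1 A2 η (p.1 + 1)) ∧
          b ∈ SA q p.2.2 (Y1 / As A1 A2 η p.1) (Y2 / As A1 A2 η p.1) then 1 else 0))]
    · refine sum_congr rfl fun a ha => ?_
      rw [← sum_subset hs2 (f := fun b => ((lp a * cF b : ℝ) : ℂ) * ph k 0 (a * b) *
        (if a ∈ SA q p.2.1 (As A1 A2 η p.1) (As A1 A2 η (p.1 + 1)) ∧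
          b ∈ SA q p.2.2 (Y1 / As A1 A2 η p.1) (Y2 / As A1 A2 η p.1) then 1 else 0))]
      · refine sum_congr rfl fun b hb => ?_
        rw [if_pos ⟨ha, hb⟩, mul_one, ph_mul k (mem_SA.1 ha).1 (mem_SA.1 hb).1]
        push_cast
        ring
      · intro b _ hb
        rw [if_neg fun h => hb h.2, mul_zero]
    · intro a _ ha
      refine sum_eq_zero fun b _ => ?_
      rw [if_neg fun h => ha h.1, mul_zero]
  symm
  rw [sum_congr rfl h1, sum_comm]
  refine sum_congr rfl fun a _ => ?_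
  rw [sum_comm]
  refine sum_congr rfl fun b _ => ?_
  rw [← mul_sum]
  unfold Wt
  push_cast
  rw [mul_right_comm]
  congr 2
  refine sum_congr rfl fun i _ => ?_
  split_ifs <;> simp

/-- the main part -/
theorem G3c_le {cF : ZI → ℝ} (hcF : Cf cF) {q : ℕ} {r : ZI} {I : ℕ} {A1 A2 V η Y1 Y2 cA cB : ℝ} (hA1 : 1 ≤ A1)
    (hA12 : A1 ≤ A2) (hη : 0 ≤ η) (hη1 : η ≤ 1)
    (hY1 : 0 ≤ Y1) (hY12 : Y1 ≤ Y2) (hY2 : Y2 ≤ V) (hVA : 2 * A2 ≤ V) (K : ℕ) (hK : 1 ≤ K) (hKV : (K : ℝ) ≤ V / A2)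
    (hcA : 0 ≤ cA) (hcB : 0 ≤ cB)
    (hA : ∀ k : ℤ, k ≠ 0 → |(k : ℝ)| ≤ K → ∀ p ∈ Jx q r I, ‖Ap q A1 A2 η k p‖ ≤ cA * As A1 A2 η p.1)
    (hB : ∀ p ∈ Jx q r I, ‖Bpc cF q A1 A2 η Y1 Y2 0 p‖ ≤ cB * (V / As A1 A2 η p.1)) :
    ∑ k ∈ Icc (-(K : ℤ)) K, ‖∑ a ∈ bg A1 A2, ∑ b ∈ bl V,
      ((lp a * cF b * Wt q r I A1 A2 η Y1 Y2 a b : ℝ) : ℂ) * ph k 0 (a * b)‖ ^ 2 ≤
      ((Jx q r I).card : ℝ) ^ 2 * (V ^ 2 * (1296 * cA ^ 2 + (18 * Real.log A2 * cB) ^ 2)) := by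
  classical
  have hA20 : 0 < A2 := by linarith
  have hA21 : 1 ≤ A2 := by linarith
  have hV0 : 0 < V := by linarith
  have hlA2 : 0 ≤ Real.log A2 := Real.log_nonneg hA21
  have h0 : ∀ k : ℤ, ‖∑ a ∈ bg A1 A2, ∑ b ∈ bl V,
      ((lp a * cF b * Wt q r I A1 A2 η Y1 Y2 a b : ℝ) : ℂ) * ph k 0 (a * b)‖ ^ 2 ≤
      ((Jx q r I).card : ℝ) * ∑ p ∈ Jx q r I, (‖Ap q A1 A2 η k p‖ ^ 2 * ‖Bpc cF q A1 A2 η Y1 Y2 k p‖ ^ 2) := by
    intro k
    rw [G3c_eq hA1 hA12 hη (hY1.trans hY12) hY2 k]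
    refine (pow_le_pow_left₀ (norm_nonneg _) (norm_sum_le _ _) 2).trans ?_
    refine (sq_sum_le_card_mul_sum_sq).trans (le_of_eq ?_)
    congr 1
    refine sum_congr rfl fun p _ => ?_
    rw [norm_mul, mul_pow]
  have hp : ∀ p ∈ Jx q r I, ∑ k ∈ Icc (-(K : ℤ)) K, ‖Ap q A1 A2 η k p‖ ^ 2 * ‖Bpc cF q A1 A2 η Y1 Y2 k p‖ ^ 2 ≤
      V ^ 2 * (1296 * cA ^ 2 + (18 * Real.log A2 * cB) ^ 2) := by
    intro p hpJ
    set a0 := As A1 A2 η p.1 with ha0
    have ha1 : A1 ≤ a0 := As_ge hA12 (by linarith) hη p.1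
    have ha2 : a0 ≤ A2 := As_le _ _ _ _
    have ha00 : 0 < a0 := by linarith
    have has : As A1 A2 η (p.1 + 1) ≤ 2 * a0 := by
      have := As_succ (w := A1) (V := A2) (by linarith) hη p.1
      rw [← ha0] at this
      nlinarith
    set Vi := V / a0 with hVi
    have hVi2 : 2 ≤ Vi := by
      rw [hVi, le_div_iff₀ ha00]
      linarith
    have hKVi : (K : ℝ) ≤ Vi := hKV.trans (div_le_div_of_nonneg_left hV0.le ha00 ha2)
    -- the mean value of the second factor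
    have hmv : ∑ k ∈ Icc (-(K : ℤ)) K, ‖Bpc cF q A1 A2 η Y1 Y2 k p‖ ^ 2 ≤ 1296 * Vi ^ 2 := by
      have hsub : SA q p.2.2 (Y1 / a0) (Y2 / a0) ⊆ bl Vi := SA_sub (div_le_div_of_nonneg_right hY2 ha00.le)
      set c : ZI → ℂ := fun b => if b ∈ SA q p.2.2 (Y1 / a0) (Y2 / a0) then (cF b : ℂ) else 0 with hc
      have e1 : ∀ k : ℤ, Bpc cF q A1 A2 η Y1 Y2 k p = ∑ b ∈ bl Vi, c b * ph k 0 b := by
        intro k
        unfold Bpc
        rw [← sum_subset hsub (f := fun b => c b * ph k 0 b)]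
        · refine sum_congr rfl fun b hb => ?_
          rw [hc]
          simp only
          rw [if_pos hb]
        · intro b _ hb
          rw [hc]
          simp only
          rw [if_neg hb, zero_mul]
      have e2 := mv1 Vi hVi2 K hK c (by
        intro b hb
        rw [hc]
        simp only
        split_ifs
        · rw [hcF.pr b hb, Complex.ofReal_zero]
        · rfl)
      have e3 : ∑ k ∈ Icc (-(K : ℤ)) K, ‖Bpc cF q A1 A2 η Y1 Y2 k p‖ ^ 2 =
          ∑ k ∈ Icc (-(K : ℤ)) K, ‖∑ b ∈ bl Vi, c b * ph k 0 b‖ ^ 2 := sum_congr rfl fun k _ => by rw [e1 k]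
      rw [e3]
      refine e2.trans ?_
      have e4 : ∑ b ∈ bl Vi, ‖c b‖ ^ 2 ≤ 9 * Vi := by
        have e5 : ∀ b ∈ bl Vi, ‖c b‖ ^ 2 ≤ 1 := by
          intro b _
          rw [hc]
          simp only
          split_ifs
          · rw [Complex.norm_real, Real.norm_eq_abs]
            exact pow_le_one₀ (abs_nonneg _) (hcF.bd b)
          · simp
        refine (sum_le_sum e5).trans ?_
        rw [sum_const, nsmul_eq_mul, mul_one]
        exact card_bl Vi (by linarith)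
      have hK0 : (0 : ℝ) ≤ K := Nat.cast_nonneg K
      calc 72 * ((K : ℝ) + Vi) * ∑ b ∈ bl Vi, ‖c b‖ ^ 2 ≤ 72 * (Vi + Vi) * (9 * Vi) := by
            apply mul_le_mul _ e4 (sum_nonneg fun _ _ => sq_nonneg _) (by positivity)
            linarith
        _ = 1296 * Vi ^ 2 := by ring
    have hAp0 : ‖Ap q A1 A2 η 0 p‖ ≤ 18 * a0 * Real.log A2 := by
      unfold Ap
      rw [← ha0]
      refine (norm_sum_le _ _).trans ?_
      have e1 : ∀ a ∈ SA q p.2.1 a0 (As A1 A2 η (p.1 + 1)), ‖(lp a : ℂ) * ph 0 0 a‖ ≤ Real.log A2 := by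
        intro a ha
        rw [mem_SA] at ha
        rw [norm_mul, norm_ph, mul_one, Complex.norm_real, Real.norm_of_nonneg (lp_nonneg a)]
        exact (lp_le ha.1).trans (Real.log_le_log (nz_pos ha.1) (ha.2.1.trans (As_le _ _ _ _)))
      refine (sum_le_sum e1).trans ?_
      rw [sum_const, nsmul_eq_mul]
      apply mul_le_mul_of_nonneg_right _ hlA2
      have e2 : ((SA q p.2.1 a0 (As A1 A2 η (p.1 + 1))).card : ℝ) ≤ ((bl (2 * a0)).card : ℝ) := by
        exact_mod_cast card_le_card (SA_sub has)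
      refine e2.trans ((card_bl (2 * a0) (by linarith)).trans ?_)
      linarith
    -- every term
    have hterm : ∀ k ∈ Icc (-(K : ℤ)) K, ‖Ap q A1 A2 η k p‖ ^ 2 * ‖Bpc cF q A1 A2 η Y1 Y2 k p‖ ^ 2 ≤
        (cA * a0) ^ 2 * ‖Bpc cF q A1 A2 η Y1 Y2 k p‖ ^ 2 +
          (if k = 0 then (18 * a0 * Real.log A2) ^ 2 * (cB * Vi) ^ 2 else 0) := by
      intro k hk
      by_cases hk0 : k = 0
      · rw [hk0, if_pos rfl]
        have e1 : ‖Ap q A1 A2 η 0 p‖ ^ 2 * ‖Bpc cF q A1 A2 η Y1 Y2 0 p‖ ^ 2 ≤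
            (18 * a0 * Real.log A2) ^ 2 * (cB * Vi) ^ 2 :=
          mul_le_mul (pow_le_pow_left₀ (norm_nonneg _) hAp0 2) (pow_le_pow_left₀ (norm_nonneg _) (hB p hpJ) 2)
            (sq_nonneg _) (sq_nonneg _)
        have e2 : 0 ≤ (cA * a0) ^ 2 * ‖Bpc cF q A1 A2 η Y1 Y2 0 p‖ ^ 2 := by positivity
        linarith
      · rw [if_neg hk0, add_zero]
        have hkK : |(k : ℝ)| ≤ K := by
          rw [mem_Icc] at hk
          have d1 : |k| ≤ (K : ℤ) := abs_le.2 hk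
          exact_mod_cast d1
        exact mul_le_mul_of_nonneg_right (pow_le_pow_left₀ (norm_nonneg _) (hA k hk0 hkK p hpJ) 2) (sq_nonneg _)
    refine (sum_le_sum hterm).trans ?_
    rw [sum_add_distrib, ← mul_sum, sum_ite_eq']
    have h0mem : (0 : ℤ) ∈ Icc (-(K : ℤ)) K := by
      rw [mem_Icc]
      constructor <;> omega
    rw [if_pos h0mem]
    calc (cA * a0) ^ 2 * ∑ k ∈ Icc (-(K : ℤ)) K, ‖Bpc cF q A1 A2 η Y1 Y2 k p‖ ^ 2 +
        (18 * a0 * Real.log A2) ^ 2 * (cB * Vi) ^ 2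
        ≤ (cA * a0) ^ 2 * (1296 * Vi ^ 2) + (18 * a0 * Real.log A2) ^ 2 * (cB * Vi) ^ 2 := by
          have := mul_le_mul_of_nonneg_left hmv (sq_nonneg (cA * a0))
          linarith
      _ = V ^ 2 * (1296 * cA ^ 2 + (18 * Real.log A2 * cB) ^ 2) := by
          rw [hVi]
          field_simp
  refine (sum_le_sum fun k _ => h0 k).trans ?_
  rw [← mul_sum, sum_comm]
  refine (mul_le_mul_of_nonneg_left (sum_le_sum hp) (Nat.cast_nonneg _)).trans (le_of_eq ?_)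
  rw [sum_const, nsmul_eq_mul]
  ring

end Pool.Agent.J4.H69
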