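import Pool.Agent.J4.H69.GCa

/-!
# The frequencies of `∑_{a b = t} log N(a) c(b)`: the bound
-/

set_option autoImplicit false

namespace Pool.Agent.J4.H69

open Finset Filter Topology
open Pool.Agent.N782.GN
open Pool.Agent.N855.GN
open Pool.Agent.N277.GN (ct_nat_mul abs_be_le card_bl)
open Pool.Agent.H304R3.HK (UH bb LamK CS)

/-- the convolution of `log N(a)` over the primes `a` and `c`, restricted to primitive numbers -/
noncomputable def cnv (cF : ZI → ℝ) (A1 A2 : ℝ) (t : ZI) : ℝ :=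
  if ct t = 1 then ∑ a ∈ Dv t, lw A1 A2 a * cF (t / a) else 0

/-- the hypothesis on sums over classes, primitive coefficients -/
def CHp (cF : ZI → ℝ) (M τ : ℝ) (A B : ℕ) : Prop := ∀ (V Y1 Y2 : ℝ) (q : ℕ) (r : ZI), M ^ (2 * τ) ≤ V → V ≤ 4 * M →
  0 ≤ Y1 → Y1 ≤ Y2 → Y2 ≤ V → 1 ≤ q → (q : ℝ) ≤ (Real.log M) ^ B →
  |∑ t ∈ SA q r Y1 Y2, cF t| ≤ V / (Real.log M) ^ A

/-- the frequencies -/
noncomputable def Fc (cF : ZI → ℝ) (q : ℕ) (r : ZI) (Y1 Y2 A1 A2 : ℝ) (k : ℤ) : ℂ :=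
  ∑ t ∈ SA q r Y1 Y2, ((cnv cF A1 A2 t : ℝ) : ℂ) * ph k 0 t

theorem div_of_mul {a b : ZI} (ha : a ≠ 0) : a * b / a = b := mul_div_cancel_left₀ b ha

theorem cnv_pair (cF : ZI → ℝ) {A1 A2 V : ℝ} {t : ZI} (ht : t ≠ 0) (htV : nz t ≤ V) :
    ∑ a ∈ bg A1 A2, ∑ b ∈ bl V, (if a * b = t then lp a * pc cF a b else 0) = cnv cF A1 A2 t := by
  classical
  have h1 : ∀ a ∈ bg A1 A2, ∑ b ∈ bl V, (if a * b = t then lp a * pc cF a b else 0) =
      if a ∣ t then lw A1 A2 a * (if ct t = 1 then cF (t / a) else 0) else 0 := by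
    intro a ha
    have ha0 := (mem_bg.1 ha).1
    by_cases hat : a ∣ t
    · rw [if_pos hat]
      obtain ⟨b0, hb0⟩ := hat
      have hb00 : b0 ≠ 0 := by
        rintro rfl
        rw [mul_zero] at hb0
        exact ht hb0
      have hbV : b0 ∈ bl V := by
        rw [mem_bl]
        refine ⟨hb00, le_trans ?_ htV⟩
        rw [hb0, nz_mul]
        have := nz_one_le ha0
        have := nz_nonneg b0
        nlinarith
      rw [sum_eq_single b0]
      · rw [if_pos hb0.symm, lw_bg ha]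
        unfold pc
        rw [← hb0]
        have e1 : t / a = b0 := by
          rw [hb0]
          exact div_of_mul ha0
        rw [e1]
      · intro b _ hb
        rw [if_neg]
        intro h
        apply hb
        rw [hb0] at h
        exact mul_left_cancel₀ ha0 h
      · intro h
        exact absurd hbV h
    · rw [if_neg hat]
      apply sum_eq_zero
      intro b _
      rw [if_neg]
      intro h
      exact hat ⟨b, h.symm⟩
  rw [sum_congr rfl h1, ← sum_filter]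
  unfold cnv
  have h2 : ∑ a ∈ (bg A1 A2).filter (fun a => a ∣ t), lw A1 A2 a * (if ct t = 1 then cF (t / a) else 0) =
      ∑ a ∈ Dv t, lw A1 A2 a * (if ct t = 1 then cF (t / a) else 0) := by
    apply sum_subset
    · intro a ha
      rw [mem_filter] at ha
      rw [mem_Dv ht]
      exact ha.2
    · intro a ha ha'
      rw [mem_Dv ht] at ha
      have : a ∉ bg A1 A2 := fun h => ha' (mem_filter.2 ⟨h, ha⟩)
      rw [lw_out this, zero_mul]
  rw [h2]
  split_ifs with h3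
  · rfl
  · simp

theorem Fc_eq (cF : ZI → ℝ) {q : ℕ} {r : ZI} {Y1 Y2 A1 A2 V : ℝ} (k : ℤ) (hY : Y2 ≤ V) (_hA : A2 ≤ V) :
    Fc cF q r Y1 Y2 A1 A2 k = ∑ a ∈ bg A1 A2, ∑ b ∈ bl V,
      ((lp a * pc cF a b * chi q r Y1 Y2 (a * b) : ℝ) : ℂ) * ph k 0 (a * b) := by
  classical
  rw [group (bg A1 A2) (bl V) (bl V) (fun a b => lp a * pc cF a b * chi q r Y1 Y2 (a * b)) (ph k 0)]
  · unfold Fc
    rw [← sum_subset (SA_sub hY) (f := fun t => ((∑ a ∈ bg A1 A2, ∑ b ∈ bl V,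
      if a * b = t then lp a * pc cF a b * chi q r Y1 Y2 (a * b) else 0 : ℝ) : ℂ) * ph k 0 t)]
    · refine sum_congr rfl fun t ht => ?_
      have ht' := (mem_bl _ _).1 (SA_sub hY ht)
      rw [← cnv_pair cF ht'.1 ht'.2]
      congr 2
      refine sum_congr rfl fun a _ => sum_congr rfl fun b _ => ?_
      split_ifs with h
      · unfold chi
        rw [h, if_pos ht, mul_one]
      · rfl
    · intro t _ ht
      rw [sum_eq_zero, Complex.ofReal_zero, zero_mul]
      intro a _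
      apply sum_eq_zero
      intro b _
      split_ifs with h
      · unfold chi
        rw [h, if_neg ht, mul_zero]
      · rfl
  · intro a _ b _ hab
    unfold chi
    rw [if_neg, mul_zero]
    intro h
    exact hab (SA_sub hY h)

/-- **the bound for the frequencies**, general coefficients -/
theorem coreG (hm : S_MUB) (hel : S_EL)
    (hps : ∀ A B D : ℕ, ∃ C : ℝ, 0 < C ∧ ∀ᶠ X : ℝ in atTop,
    ∀ (q : ℕ) (r : ZI) (k : ℤ), 1 ≤ q → (q : ℝ) ≤ (Real.log X) ^ B →
      IsCoprime r ((q : ℕ) : ZI) → k ≠ 0 → |(k : ℝ)| ≤ X ^ D →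
      ‖∑ t ∈ cls q r X, (lp t : ℂ) * ph k 0 t‖ ≤ C * X / (Real.log X) ^ A)
    {τ : ℝ} (hτ : 0 < τ) (hτ1 : τ ≤ 1 / 8) (A B : ℕ) : ∀ᶠ M : ℝ in atTop, ∀ cF : ZI → ℝ, Cf cF →
    CHp cF M τ (2 * A + 4 * B + 7) B →
    ∀ (V Y1 Y2 : ℝ) (K q : ℕ) (r : ZI), M ^ (4 * τ) ≤ V → V ≤ 4 * M → 1 ≤ K → (K : ℝ) ≤ V / M ^ (5 * τ / 4) →
      1 ≤ q → (q : ℝ) ≤ (Real.log M) ^ B → 0 ≤ Y1 → Y1 ≤ Y2 → Y2 ≤ V →
      ∑ k ∈ Icc (-(K : ℤ)) K, ‖Fc cF q r Y1 Y2 (M ^ τ) (M ^ (5 * τ / 4)) k‖ ^ 2 ≤ V ^ 2 / (Real.log M) ^ A := by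
  classical
  set E : ℕ := A + 4 with hE
  set J0 : ℕ := E + 1 + 4 * B with hJ0
  set A5 : ℕ := J0 + A + 2 with hA5
  have hA5' : A5 = 2 * A + 4 * B + 7 := by omega
  obtain ⟨C1, hC1, h1⟩ := psw hps hτ A5 B
  obtain ⟨C3, hC3, h3⟩ := sh_sum hel
  have c1 := logpow (A + 4) (show (0 : ℝ) < 2 * τ by positivity) (show (0 : ℝ) < 1 / C3 by positivity)
  have c2 : ∀ᶠ M : ℝ in atTop, (9 * 13824 * 17 : ℝ) ≤ Real.log M := Real.tendsto_log_atTop.eventually_ge_atTop _
  have c3 := logpow (A + 2) (show (0 : ℝ) < τ / 2 by positivity)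
    (show (0 : ℝ) < 1 / (9 * 81 * 41472) by norm_num)
  have c4 : ∀ᶠ M : ℝ in atTop, 81 * (1296 * (3 * C1) ^ 2 + (18 : ℝ) ^ 2) ≤ Real.log M :=
    Real.tendsto_log_atTop.eventually_ge_atTop _
  have c5 : ∀ᶠ M : ℝ in atTop, (2 : ℝ) ≤ M ^ τ := (tendsto_rpow_atTop hτ).eventually_ge_atTop _
  have c6 := logpow (B + 1) hτ one_pos
  filter_upwards [h1, c1, c2, c3, c4, c5, c6, eventually_ge_atTop 8] with M h1 c1 c2 c3 c4 c5 c6 hM8
  intro cF hcF hch V Y1 Y2 K q r hV4 hVM hK hKV hq hqB hY1 hY12 hY2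
  have hM0 : 0 < M := by linarith
  have hM1 : 1 ≤ M := by linarith
  set y := Real.log M with hy
  have hy1 : 1 ≤ y := one_le_log (by linarith)
  have hy0 : 0 < y := by linarith
  set A1 := M ^ τ with hA1
  set A2 := M ^ (5 * τ / 4) with hA2
  have hA10 : 0 < A1 := by linarith
  have hA12 : A1 ≤ A2 := Real.rpow_le_rpow_of_exponent_le hM1 (by linarith)
  have hA20 : 0 < A2 := by linarith
  have hA21 : 1 ≤ A2 := by linarith
  have hpw : ∀ s t : ℝ, s ≤ t → M ^ s ≤ M ^ t := fun s t hst => Real.rpow_le_rpow_of_exponent_le hM1 hst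
  have hV0 : 0 < V := lt_of_lt_of_le (by positivity) hV4
  have hA2V : A2 ^ 2 ≤ V := by
    refine le_trans ?_ hV4
    rw [hA2, ← Real.rpow_natCast, ← Real.rpow_mul hM0.le]
    apply hpw
    push_cast
    linarith
  have hA22 : 2 ≤ A2 := by linarith
  have h2A2V : 2 * A2 ≤ V := by nlinarith
  have hV1 : 1 ≤ V := by nlinarith
  have hlA2 : Real.log A2 ≤ y := by
    rw [hA2, Real.log_rpow hM0]
    nlinarith
  have hlA20 : 0 ≤ Real.log A2 := Real.log_nonneg hA21
  have hKV' : (K : ℝ) ≤ V := hKV.trans (div_le_self hV0.le hA21)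
  have hK0 : (0 : ℝ) ≤ K := Nat.cast_nonneg K
  -- the cells
  set η : ℝ := 1 / y ^ E with hη
  have hyE : 1 ≤ y ^ E := one_le_pow₀ hy1
  have hη0 : 0 < η := by positivity
  have hη1 : η ≤ 1 := by
    rw [hη, div_le_one (by positivity)]
    exact hyE
  set I : ℕ := ⌈2 * y ^ (E + 1)⌉₊ with hI
  have hI1 : 2 * y ^ (E + 1) ≤ I := Nat.le_ceil _
  have hI2 : (I : ℝ) ≤ 3 * y ^ (E + 1) := by
    have := Nat.ceil_lt_add_one (show 0 ≤ 2 * y ^ (E + 1) by positivity)
    have h4 : 1 ≤ y ^ (E + 1) := one_le_pow₀ hy1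
    linarith
  have hIA : A2 ≤ A1 * (1 + η) ^ I := by
    have e1 : y ≤ I * Real.log (1 + η) := by
      have e2 : η / 2 ≤ Real.log (1 + η) := by
        have e3 := Real.one_sub_inv_le_log_of_pos (show 0 < 1 + η by linarith)
        refine le_trans ?_ e3
        have e4 : 1 - (1 + η)⁻¹ = η / (1 + η) := by
          field_simp
          ring
        rw [e4]
        apply div_le_div_of_nonneg_left hη0.le (by linarith) (by linarith)
      calc y = 2 * y ^ (E + 1) * (η / 2) := by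
            rw [hη, pow_succ]
            field_simp
        _ ≤ I * Real.log (1 + η) := mul_le_mul hI1 e2 (by positivity) (Nat.cast_nonneg _)
    have e2 : M ≤ (1 + η) ^ I := by
      rw [← Real.exp_log hM0, ← hy, ← Real.exp_log (show 0 < (1 + η) ^ I by positivity), Real.log_pow]
      exact Real.exp_le_exp.2 e1
    have e3 : A2 ≤ M := by
      calc A2 ≤ M ^ (1 : ℝ) := hpw _ _ (by linarith)
        _ = M := Real.rpow_one M
    calc A2 ≤ (1 + η) ^ I := e3.trans e2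
      _ = 1 * (1 + η) ^ I := (one_mul _).symm
      _ ≤ A1 * (1 + η) ^ I := mul_le_mul_of_nonneg_right (by linarith) (by positivity)
  have hJ : ((Jx q r I).card : ℝ) ≤ 3 * y ^ J0 := by
    have e1 : ((Jx q r I).card : ℝ) ≤ (I : ℝ) * (q : ℝ) ^ 4 := by exact_mod_cast card_Jx q r I
    have e2 : (q : ℝ) ^ 4 ≤ y ^ (4 * B) := by
      rw [mul_comm, pow_mul]
      exact pow_le_pow_left₀ (Nat.cast_nonneg _) hqB 4
    calc ((Jx q r I).card : ℝ) ≤ (I : ℝ) * (q : ℝ) ^ 4 := e1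
      _ ≤ (3 * y ^ (E + 1)) * y ^ (4 * B) := mul_le_mul hI2 e2 (by positivity) (by positivity)
      _ = 3 * y ^ J0 := by rw [hJ0, pow_add y (E + 1)]; ring
  -- the decomposition
  have hA2V1 : A2 ≤ V := by linarith
  set G1 : ℤ → ℂ := fun k => ∑ a ∈ bg A1 A2, ∑ b ∈ bl V,
      ((lp a * pc cF a b * (chi q r Y1 Y2 (a * b) - Wt q r I A1 A2 η Y1 Y2 a b) : ℝ) : ℂ) * ph k 0 (a * b) with hG1
  set G2 : ℤ → ℂ := fun k => ∑ a ∈ bg A1 A2, ∑ b ∈ bl V,
      ((lp a * (pc cF a b - cF b) * Wt q r I A1 A2 η Y1 Y2 a b : ℝ) : ℂ) * ph k 0 (a * b) with hG2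
  set G3 : ℤ → ℂ := fun k => ∑ a ∈ bg A1 A2, ∑ b ∈ bl V,
      ((lp a * cF b * Wt q r I A1 A2 η Y1 Y2 a b : ℝ) : ℂ) * ph k 0 (a * b) with hG3
  have hdec : ∀ k : ℤ, Fc cF q r Y1 Y2 A1 A2 k = G1 k + G2 k + G3 k := by
    intro k
    rw [Fc_eq cF k hY2 hA2V1, hG1, hG2, hG3]
    simp only
    rw [← sum_add_distrib, ← sum_add_distrib]
    refine sum_congr rfl fun a _ => ?_
    rw [← sum_add_distrib, ← sum_add_distrib]
    refine sum_congr rfl fun b _ => ?_
    push_cast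
    ring
  have hnorm : ∀ k : ℤ, ‖Fc cF q r Y1 Y2 A1 A2 k‖ ^ 2 ≤ 3 * ‖G1 k‖ ^ 2 + 3 * ‖G2 k‖ ^ 2 + 3 * ‖G3 k‖ ^ 2 := by
    intro k
    rw [hdec k]
    have e1 := norm_add_le (G1 k + G2 k) (G3 k)
    have e2 := norm_add_le (G1 k) (G2 k)
    have n1 := norm_nonneg (G1 k)
    have n2 := norm_nonneg (G2 k)
    have n3 := norm_nonneg (G3 k)
    have n4 := norm_nonneg (G1 k + G2 k + G3 k)
    have e3 : ‖G1 k + G2 k + G3 k‖ ≤ ‖G1 k‖ + ‖G2 k‖ + ‖G3 k‖ := by linarith
    calc ‖G1 k + G2 k + G3 k‖ ^ 2 ≤ (‖G1 k‖ + ‖G2 k‖ + ‖G3 k‖) ^ 2 := pow_le_pow_left₀ n4 e3 2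
      _ ≤ _ := by nlinarith [sq_nonneg (‖G1 k‖ - ‖G2 k‖), sq_nonneg (‖G2 k‖ - ‖G3 k‖), sq_nonneg (‖G1 k‖ - ‖G3 k‖)]
  -- first
  have g1 : ∑ k ∈ Icc (-(K : ℤ)) K, ‖G1 k‖ ^ 2 ≤ V ^ 2 / (9 * y ^ A) := by
    have e1 := G1c_le hm hcF hq (r := r) (by linarith) (by linarith) hA12 hη0.le hη1 hIA hY1 hY12 hY2 K hK
    refine e1.trans ?_
    have e2 := h3 V Y1 Y2 η hV1 hY1 hY12 hY2 hη0.le hη1
    have e3 : Real.log (2 * V) ≤ 2 * y := by
      have d1 : 2 * V ≤ M ^ 2 := by nlinarith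
      have d2 := Real.log_le_log (by positivity) d1
      rw [Real.log_pow] at d2
      push_cast at d2
      exact d2
    have e30 : 0 ≤ Real.log (2 * V) := Real.log_nonneg (by linarith)
    have e4 : (4 * Real.log (2 * V)) ^ 2 ≤ 64 * y ^ 2 := by nlinarith
    have e5 : C3 * Real.sqrt V ≤ η * V := by
      have hsV : M ^ (2 * τ) ≤ Real.sqrt V := by
        apply Real.le_sqrt_of_sq_le
        refine le_trans (le_of_eq ?_) hV4
        rw [← Real.rpow_natCast, ← Real.rpow_mul hM0.le]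
        congr 1
        push_cast
        ring
      have d1 : C3 * y ^ E ≤ M ^ (2 * τ) := by
        calc C3 * y ^ E ≤ C3 * (1 / C3 * M ^ (2 * τ)) := mul_le_mul_of_nonneg_left c1 hC3.le
          _ = M ^ (2 * τ) := by field_simp
      have d2 : C3 ≤ η * Real.sqrt V := by
        rw [hη, div_mul_eq_mul_div, one_mul, le_div_iff₀ (by positivity)]
        exact d1.trans hsV
      calc C3 * Real.sqrt V ≤ η * Real.sqrt V * Real.sqrt V := mul_le_mul_of_nonneg_right d2 (Real.sqrt_nonneg _)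
        _ = η * V := by rw [mul_assoc, Real.mul_self_sqrt hV0.le]
    have e6 : ∑ t ∈ bl (2 * V), (sh η Y1 Y2 (nz t)) ^ 2 ≤ 17 * (η * V) := by linarith
    have e7 : (0 : ℝ) ≤ ∑ t ∈ bl (2 * V), (sh η Y1 Y2 (nz t)) ^ 2 := sum_nonneg fun _ _ => sq_nonneg _
    calc 72 * ((K : ℝ) + 2 * V) * ((4 * Real.log (2 * V)) ^ 2 * ∑ t ∈ bl (2 * V), (sh η Y1 Y2 (nz t)) ^ 2)
        ≤ 72 * (V + 2 * V) * ((64 * y ^ 2) * (17 * (η * V))) := by
          apply mul_le_mul _ (mul_le_mul e4 e6 e7 (by positivity)) (by positivity) (by positivity)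
          linarith
      _ = (13824 * 17) * (V ^ 2 / y ^ (A + 2)) := by
          rw [hη, hE, show A + 4 = (A + 2) + 2 by omega, pow_add y (A + 2) 2]
          field_simp
          norm_num
      _ ≤ (y / 9) * (V ^ 2 / y ^ (A + 2)) := by
          apply mul_le_mul_of_nonneg_right _ (by positivity)
          linarith
      _ = V ^ 2 / (9 * y ^ A) * (1 / y) := by
          rw [pow_add]
          field_simp
      _ ≤ V ^ 2 / (9 * y ^ A) * 1 := by
          apply mul_le_mul_of_nonneg_left _ (by positivity)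
          rw [div_le_one hy0]
          exact hy1
      _ = _ := mul_one _
  -- second
  have g2 : ∑ k ∈ Icc (-(K : ℤ)) K, ‖G2 k‖ ^ 2 ≤ V ^ 2 / (9 * y ^ A) := by
    have e1 := G2c_le hcF hq (r := r) (Y1 := Y1) c5 hA12 hη0.le hη1 hIA hY2 hA2V K hK hKV
    refine e1.trans ?_
    have e2 : A2 ^ 2 * M ^ (τ / 2) = A1 ^ 3 := by
      rw [hA2, hA1, ← Real.rpow_natCast, ← Real.rpow_natCast, ← Real.rpow_mul hM0.le, ← Real.rpow_mul hM0.le,
        ← Real.rpow_add hM0]
      congr 1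
      push_cast
      ring
    have hMτ : 0 < M ^ (τ / 2) := by positivity
    calc (9 * A2 * Real.log A2) ^ 2 * (41472 * V ^ 2 / A1 ^ 3)
        ≤ (9 * A2 * y) ^ 2 * (41472 * V ^ 2 / A1 ^ 3) := by gcongr
      _ = (81 * 41472) * V ^ 2 * y ^ 2 / M ^ (τ / 2) := by
          rw [← e2]
          field_simp
          norm_num
      _ ≤ V ^ 2 / (9 * y ^ A) := by
          rw [div_le_div_iff₀ hMτ (by positivity)]
          have e3 : (9 * 81 * 41472 : ℝ) * y ^ (A + 2) ≤ M ^ (τ / 2) := by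
            calc (9 * 81 * 41472 : ℝ) * y ^ (A + 2) ≤ (9 * 81 * 41472 : ℝ) * (1 / (9 * 81 * 41472) * M ^ (τ / 2)) := by
                  gcongr
              _ = M ^ (τ / 2) := by ring
          calc 81 * 41472 * V ^ 2 * y ^ 2 * (9 * y ^ A) = V ^ 2 * ((9 * 81 * 41472 : ℝ) * y ^ (A + 2)) := by
                rw [pow_add]
                ring
            _ ≤ V ^ 2 * M ^ (τ / 2) := by gcongr
  -- third
  have g3 : ∑ k ∈ Icc (-(K : ℤ)) K, ‖G3 k‖ ^ 2 ≤ V ^ 2 / (9 * y ^ A) := by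
    have e1 := G3c_le hcF (q := q) (r := r) (I := I) (A1 := A1) (A2 := A2) (V := V) (η := η) (Y1 := Y1) (Y2 := Y2)
      (cA := 3 * C1 / y ^ A5) (cB := 1 / y ^ A5) (by linarith) hA12 hη0.le hη1 hY1 hY12 hY2 h2A2V K hK hKV
      (by positivity) (by positivity) (by
        intro k hk0 hkK p hp
        set a0 := As A1 A2 η p.1 with ha0
        have ha1 : A1 ≤ a0 := As_ge hA12 (by linarith) hη0.le p.1
        have has : As A1 A2 η (p.1 + 1) ≤ 2 * a0 := by
          have := As_succ (w := A1) (V := A2) (by linarith) hη0.le p.1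
          rw [← ha0] at this
          nlinarith
        have hmono : a0 ≤ As A1 A2 η (p.1 + 1) := As_mono (by linarith) hη0.le (Nat.le_succ p.1)
        have hkM : |(k : ℝ)| ≤ M ^ 2 := by
          have : (4 : ℝ) * M ≤ M ^ 2 := by nlinarith
          linarith
        unfold Ap
        rw [← ha0]
        by_cases hc : IsCoprime p.2.1 ((q : ℕ) : ZI)
        · rw [SA_sum hmono]
          refine (norm_sub_le _ _).trans ?_
          have d1 := h1 a0 q p.2.1 k ha1 hq hqB hc hk0 hkM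
          have d2 := h1 (As A1 A2 η (p.1 + 1)) q p.2.1 k (ha1.trans hmono) hq hqB hc hk0 hkM
          have d3 : C1 * As A1 A2 η (p.1 + 1) / y ^ A5 ≤ C1 * (2 * a0) / y ^ A5 := by gcongr
          have d4 : 3 * C1 / y ^ A5 * a0 = C1 * (2 * a0) / y ^ A5 + C1 * a0 / y ^ A5 := by ring
          rw [d4]
          linarith
        · rw [sum_eq_zero, norm_zero]
          · have : 0 < a0 := by linarith
            positivity
          · intro a ha
            rw [mem_SA] at ha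
            by_cases hlp : lp a = 0
            · rw [hlp]
              simp
            · exfalso
              apply hc
              have d1 : (q : ℝ) < nz a := by
                have d2 : y ^ B ≤ y ^ (B + 1) := pow_le_pow_right₀ hy1 (Nat.le_succ B)
                rw [one_mul] at c6
                linarith [ha.2.2.2]
              exact coprime_cls (coprime_small (lp_ne hlp) hq d1) ha.2.2.1) (by
        intro p hp
        set a0 := As A1 A2 η p.1 with ha0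
        have ha1 : A1 ≤ a0 := As_ge hA12 (by linarith) hη0.le p.1
        have ha2 : a0 ≤ A2 := As_le _ _ _ _
        have ha00 : 0 < a0 := by linarith
        have hVi : M ^ (2 * τ) ≤ V / a0 := by
          rw [le_div_iff₀ ha00]
          calc M ^ (2 * τ) * a0 ≤ M ^ (2 * τ) * M ^ (5 * τ / 4) := by gcongr
            _ = M ^ (2 * τ + 5 * τ / 4) := by rw [← Real.rpow_add hM0]
            _ ≤ M ^ (4 * τ) := hpw _ _ (by linarith)
            _ ≤ V := hV4
        have hVi2 : 2 ≤ V / a0 := by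
          rw [le_div_iff₀ ha00]
          linarith
        have hVi4 : V / a0 ≤ 4 * M := (div_le_self hV0.le (by linarith)).trans hVM
        have d1 := hch (V / a0) (Y1 / a0) (Y2 / a0) q p.2.2 hVi hVi4 (by positivity)
          (div_le_div_of_nonneg_right hY12 ha00.le) (div_le_div_of_nonneg_right hY2 ha00.le) hq hqB
        have d2 : Bpc cF q A1 A2 η Y1 Y2 0 p = ((∑ t ∈ SA q p.2.2 (Y1 / a0) (Y2 / a0), cF t : ℝ) : ℂ) := by
          unfold Bpc
          rw [← ha0]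
          push_cast
          refine sum_congr rfl fun b _ => ?_
          have : ph 0 0 b = 1 := by
            unfold ph
            simp
          rw [this, mul_one]
        rw [d2, Complex.norm_real, Real.norm_eq_abs]
        refine d1.trans (le_of_eq ?_)
        rw [hA5', one_div, div_eq_inv_mul])
    refine e1.trans ?_
    have e2 : ((Jx q r I).card : ℝ) ^ 2 ≤ 9 * y ^ (2 * J0) := by
      calc ((Jx q r I).card : ℝ) ^ 2 ≤ (3 * y ^ J0) ^ 2 := pow_le_pow_left₀ (Nat.cast_nonneg _) hJ 2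
        _ = 9 * y ^ (2 * J0) := by rw [mul_pow, ← pow_mul, mul_comm J0 2]; norm_num
    have e3 : (18 * Real.log A2 * (1 / y ^ A5)) ^ 2 ≤ (18 : ℝ) ^ 2 * (y ^ 2 / y ^ (2 * A5)) := by
      calc (18 * Real.log A2 * (1 / y ^ A5)) ^ 2 ≤ (18 * y * (1 / y ^ A5)) ^ 2 := by gcongr
        _ = (18 : ℝ) ^ 2 * (y ^ 2 / y ^ (2 * A5)) := by
            rw [pow_mul' y 2 A5]
            field_simp
    have e4 : 1296 * (3 * C1 / y ^ A5) ^ 2 ≤ 1296 * (3 * C1) ^ 2 * (y ^ 2 / y ^ (2 * A5)) := by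
      have : 1296 * (3 * C1 / y ^ A5) ^ 2 = 1296 * (3 * C1) ^ 2 * (1 / y ^ (2 * A5)) := by
        rw [pow_mul' y 2 A5]
        field_simp
      rw [this]
      gcongr
      exact one_le_pow₀ hy1
    set c0 := 1296 * (3 * C1) ^ 2 + (18 : ℝ) ^ 2 with hc0
    have hc00 : 0 ≤ c0 := by positivity
    calc ((Jx q r I).card : ℝ) ^ 2 * (V ^ 2 * (1296 * (3 * C1 / y ^ A5) ^ 2 +
          (18 * Real.log A2 * (1 / y ^ A5)) ^ 2))
        ≤ (9 * y ^ (2 * J0)) * (V ^ 2 * (c0 * (y ^ 2 / y ^ (2 * A5)))) := by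
          apply mul_le_mul e2 _ (by positivity) (by positivity)
          apply mul_le_mul_of_nonneg_left _ (by positivity)
          rw [hc0, add_mul]
          linarith
      _ = (81 * c0) * (V ^ 2 / (9 * y ^ A)) * (1 / y ^ (A + 2)) := by
          rw [hA5, show 2 * (J0 + A + 2) = 2 * J0 + (2 + (A + (A + 2))) by ring, pow_add y (2 * J0), pow_add y 2,
            pow_add y A (A + 2)]
          field_simp
          ring
      _ ≤ y * (V ^ 2 / (9 * y ^ A)) * (1 / y ^ (A + 2)) := by gcongr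
      _ = V ^ 2 / (9 * y ^ A) * (y / y ^ (A + 2)) := by ring
      _ ≤ V ^ 2 / (9 * y ^ A) * 1 := by
          apply mul_le_mul_of_nonneg_left _ (by positivity)
          rw [div_le_one (by positivity)]
          calc y = y ^ 1 := (pow_one y).symm
            _ ≤ y ^ (A + 2) := pow_le_pow_right₀ hy1 (by omega)
      _ = _ := mul_one _
  refine (sum_le_sum fun k _ => hnorm k).trans ?_
  rw [sum_add_distrib, sum_add_distrib, ← mul_sum, ← mul_sum, ← mul_sum]
  have hfin : V ^ 2 / y ^ A = 9 * (V ^ 2 / (9 * y ^ A)) := by field_simp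
  rw [hfin]
  linarith

end Pool.Agent.J4.H69
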