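import Pool.Agent.J4.H69.GCc
import Pool.Agent.J4.H69.Cst

/-!
# The dispersion theorem and the bilinear sums with explicit exponents
-/

set_option autoImplicit false

namespace Pool.Agent.J4.H69

open Finset Filter Topology
open Pool.Agent.N782.GN

section
open Pool.Agent.N391.GN
/-- (TG2) the dispersion with a relaxed condition on `R` -/
def S_TG2x : Prop := ∀ (ε : ℝ) (A B : ℕ), 0 < ε → ∃ (C : ℝ), 0 < C ∧ ∀ (M L R P D : ℝ) (β : ZI → ℝ)
  (lam : ℤ → ℝ), 3 ≤ M → 1 ≤ L → L ≤ M ^ (1 - ε) → 1 ≤ R → M / L * M ^ ε ≤ R ^ 2 → R ^ 2 ≤ M ^ (1 - ε) →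
  M / (Real.log M) ^ B ≤ R * P → R * P ≤ M → 1 ≤ D → D ≤ (Real.log M) ^ B →
  (∀ w, |β w| ≤ 1) → (∀ w, ct w ≠ 1 → β w = 0) → Lm L lam →
  (∀ (q : ℕ) (r : ZI) (Y1 Y2 : ℝ), 1 ≤ q → (q : ℝ) ≤ (Real.log M) ^ (10 * A + B + 5) → 0 ≤ Y1 → Y1 ≤ Y2 → Y2 ≤ 4 * R ^ 2 →
    ∫ x in (0 : ℝ)..(2 * Real.pi), (∑ t ∈ (cls q r Y2).filter (fun t => Y1 < nz t),
      β t * sc (L / M / (Real.log M) ^ (10 * A + B + 5)) x t) ^ 2 ≤ (L / M) ^ 2 * R ^ 4 / (Real.log M) ^ (47 * A + 4 * B + 25)) →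
  ∑ v ∈ bl (9 * P ^ 2), Phi (Real.sqrt (nz v) / P) * (∑ w ∈ (bl (4 * R ^ 2)).filter (fun w => R ^ 2 < nz w),
    β w * lam (w * v).re * psi D (Real.sqrt (nz (w * v)) / M)) ^ 2 ≤ C * L ^ 2 * R ^ 2 / (Real.log M) ^ A

open Classical in
theorem tg2x (h1 : S_CHR) (h2 : S_CNT) (h3 : S_BIL) (h4 : S_LIP) : S_TG2x := by
  intro ε A B hε
  obtain ⟨C1, hC1, hcnt⟩ := h2
  obtain ⟨C3, hC3, hbil⟩ := h3
  obtain ⟨C4, hC4, hlip⟩ := h4
  obtain ⟨M0, hM03, hlarge⟩ := large ε hε (3 * A + 2 * B + 3)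
  obtain ⟨N1, hN1⟩ : ∃ N1 : ℝ, N1 = ((bl (9 * M0 ^ 2)).card : ℝ) := ⟨_, rfl⟩
  obtain ⟨N2, hN2⟩ : ∃ N2 : ℝ, N2 = ((bl (4 * M0)).card : ℝ) := ⟨_, rfl⟩
  obtain ⟨CL, hCL⟩ : ∃ CL : ℝ, CL = 5 * C1 ^ 3 + 384 * C1 ^ 2 + C3 * (49 + 36 * C4) := ⟨_, rfl⟩
  have hN10 : 0 ≤ N1 := by rw [hN1]; positivity
  have hN20 : 0 ≤ N2 := by rw [hN2]; positivity
  have hCL0 : 0 < CL := by rw [hCL]; positivity
  have hlogM0 : 0 ≤ Real.log M0 := Real.log_nonneg (by linarith)
  refine ⟨CL + N1 * N2 ^ 2 * Real.log M0 ^ A, by positivity, ?_⟩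
  intro M L R P D β lam hM3 hL1 hLM hR1 hMR hR2 hRPl hRP hD1 hD hβ hβ1 hlam hMB
  change TT M R P D β lam ≤ _
  have hM : 0 < M := by linarith
  have hL : 0 < L := by linarith
  have hm1 : 1 ≤ M ^ ε := Real.one_le_rpow (by linarith) hε.le
  have hm0 : 0 < M ^ ε := by linarith
  have hMsub : M ^ (1 - ε) = M / M ^ ε := by
    rw [Real.rpow_sub hM, Real.rpow_one]
  rw [hMsub] at hLM hR2
  have hℓ1 : 1 ≤ Real.log M := by
    rw [Real.le_log_iff_exp_le hM]
    have := Real.exp_one_lt_d9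
    linarith
  have hLm : L * M ^ ε ≤ M := (le_div_iff₀ hm0).1 hLM
  have hRL : M * M ^ ε ≤ R ^ 2 * L := by
    have : M / L * M ^ ε * L ≤ R ^ 2 * L := mul_le_mul_of_nonneg_right hMR hL.le
    have e : M / L * M ^ ε * L = M * M ^ ε := by field_simp
    linarith
  have hR : 0 < R := by linarith
  have hP : 0 < P := by
    have h0 : 0 < R * P := lt_of_lt_of_le (by positivity) hRPl
    exact (pos_iff_pos_of_mul_pos h0).1 hR
  rcases lt_or_ge M M0 with hsmall | hbig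
  · -- bounded `M`
    have a1 : P ≤ M0 := by
      have := mul_le_mul_of_nonneg_right hR1 hP.le
      linarith
    have a2 : 9 * P ^ 2 ≤ 9 * M0 ^ 2 := by
      have := pow_le_pow_left₀ hP.le a1 2
      linarith
    have a3 : 4 * R ^ 2 ≤ 4 * M0 := by
      have : R ^ 2 ≤ M := hR2.trans (div_le_self hM.le hm1)
      linarith
    have a4 := TT_trivial (M := M) (D := D) hβ hlam.1 (9 * M0 ^ 2) (4 * M0) a2 a3
    rw [← hN1, ← hN2] at a4
    refine a4.trans ?_
    have a5 : Real.log M ^ A ≤ Real.log M0 ^ A :=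
      pow_le_pow_left₀ (by linarith) (Real.log_le_log hM hsmall.le) A
    have a6 : 1 ≤ L ^ 2 * R ^ 2 := one_le_mul_of_one_le_of_one_le (one_le_pow₀ hL1) (one_le_pow₀ hR1)
    have hℓA : 0 < Real.log M ^ A := by positivity
    rw [mul_assoc _ (L ^ 2), le_div_iff₀ hℓA]
    have b1 : N1 * N2 ^ 2 * Real.log M ^ A ≤ N1 * N2 ^ 2 * Real.log M0 ^ A :=
      mul_le_mul_of_nonneg_left a5 (by positivity)
    have b3 : (CL + N1 * N2 ^ 2 * Real.log M0 ^ A) * 1 ≤
        (CL + N1 * N2 ^ 2 * Real.log M0 ^ A) * (L ^ 2 * R ^ 2) :=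
      mul_le_mul_of_nonneg_left a6 (by positivity)
    linarith
  · -- large `M`
    obtain ⟨hℓ100, hmK⟩ := hlarge M hbig
    obtain ⟨hc1, hc2, hc3⟩ := hcnt R hR1
    have hℓB : 0 < Real.log M ^ B := by positivity
    have hfin := large_case2 (m := M ^ ε) (ℓ := Real.log M) (A := A) (B := B) (D := D) (P := P) (L := L)
      h1 hC1 hC3 hC4 hc1 hc2 (fun h w hw => hc3 w hw P L h hL1) ?_ hM hL1 hR1 hP hm1 hℓ100
      hLm hRL ((le_div_iff₀ hm0).1 hR2) hRP ((div_le_iff₀ hℓB).1 hRPl) hmK le_rfl hD1 hD hβ hβ1 hlam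
    · refine hfin.trans ?_
      have e : (CL + N1 * N2 ^ 2 * Real.log M0 ^ A) * L ^ 2 * R ^ 2 / Real.log M ^ A =
          (CL + N1 * N2 ^ 2 * Real.log M0 ^ A) * (L ^ 2 * R ^ 2 / Real.log M ^ A) := by ring
      rw [← hCL, e]
      have h5 : (0 : ℝ) ≤ L ^ 2 * R ^ 2 / Real.log M ^ A := by positivity
      refine mul_le_mul_of_nonneg_right ?_ h5
      have : 0 ≤ N1 * N2 ^ 2 * Real.log M0 ^ A := by positivity
      linarith
    · intro s δ η E κ₁ D1 x y Q n x1 x2 hs0 hs1 hsR hδ0 hη0 hη1 hδη hE0 hQ hn hRδ hD10 hD1D0 hx0 hxL hy0 hyL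
        hs hδ hE hQl hκ
      obtain ⟨g1, g2⟩ := hlip D M P D1 x y R L δ η hD1 hR1 hP hL hD10 hRP hD1D0 hx0 hxL hy0 hyL
        hη0 hη1 hδ0 hδη hRδ
      rw [← hs, ← hκ] at g1
      have hκ0 : 0 ≤ κ₁ := by
        rw [hκ]
        have : 0 < D := by linarith
        positivity
      refine hbil R (1 / D1) κ₁ s δ η E Q n x1 x2 (Kf D M P D1 x y) β lam hR1 hs0 hs1 hsR
        hδ0 (hδη.trans hη1) hη0 hη1 (by positivity) hκ0 hE0 hQ hn g1 g2 hβ hlam.1 ?_
      intro q r Y1 Y2 hq hqQ hY1 hY12 hY2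
      have c1 : (q : ℝ) ≤ Real.log M ^ (10 * A + B + 5) := by
        have c2 : (q : ℝ) ≤ Q := by exact_mod_cast hqQ
        exact c2.trans hQl
      have c3 := hMB q r Y1 Y2 hq c1 (le_trans (sq_nonneg R) hY1) hY12 hY2
      rw [← hδ, ← hE] at c3
      refine le_trans (le_of_eq ?_) c3
      refine intervalIntegral.integral_congr fun z _ => ?_
      exact congrArg (fun y : ℝ => y ^ 2) (mb_sum hβ1 q r Y1 Y2 hY1 hY2 (sc δ z))

end

section
open Pool.Agent.N855.GN (Dv mem_Dv logpow)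
open Pool.Agent.N277.GN

/-- **the bilinear sums** -/
theorem ii2x (hT : S_TG2x) {ε : ℝ} (hε : 0 < ε) (hε1 : ε ≤ 1) (A : ℕ) : ∀ᶠ M : ℝ in atTop,
    ∀ (L : ℝ) (β α : ZI → ℝ) (lam : ℤ → ℝ), 1 ≤ L → L ≤ M ^ (1 - ε) → (∀ w, |β w| ≤ 1) →
    (∀ w, ct w ≠ 1 → β w = 0) → Few M α → (∀ v, α v ≠ 0 → M ^ (1 + ε) < nz v ∧ nz v ≤ L * M ^ (1 - ε)) →
    Lm L lam → HS M L ε (98 * A + 323) (21 * A + 69) β →
    |∑ w ∈ bl (2 * M ^ 2), ∑ v ∈ bl (2 * M ^ 2), β w * α v * Fz lam M (w * v)| ≤ L * M / (Real.log M) ^ A := by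
  obtain ⟨C, hC, hT⟩ := hT (ε / 2) (2 * (A + 3)) (A + 4) (by linarith)
  rw [show 10 * (2 * (A + 3)) + (A + 4) + 5 = 21 * A + 69 by ring,
    show 47 * (2 * (A + 3)) + 4 * (A + 4) + 25 = 98 * A + 323 by ring] at hT
  have d2 : ∀ᶠ M : ℝ in atTop, max (216 * Real.sqrt C) 256 ≤ Real.log M :=
    Real.tendsto_log_atTop.eventually_ge_atTop _
  have d3 := logpow (2 * A + 8) (show (0 : ℝ) < ε / 2 by positivity) one_pos
  have d4 := logpow (A + 3) (show (0 : ℝ) < 1 / 2 by norm_num) one_pos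
  filter_upwards [d2, d3, d4, eventually_ge_atTop 3] with M d2 d3 d4 hM3
  intro L β α lam hL1 hLM hβ hβ1 hα hα1 hlam hS
  rw [one_mul] at d3 d4
  have hM0 : 0 < M := by linarith
  have hM1 : 1 ≤ M := by linarith
  have hL0 : 0 < L := by linarith
  set y := Real.log M with hy
  have d2a : 216 * Real.sqrt C ≤ y := (le_max_left _ _).trans d2
  have d2b : 256 ≤ y := (le_max_right _ _).trans d2
  have hy0 : 0 < y := by linarith
  have hy1 : 1 ≤ y := by linarith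
  have hLM' : L ≤ M := by
    refine hLM.trans ?_
    calc M ^ (1 - ε) ≤ M ^ (1 : ℝ) := Real.rpow_le_rpow_of_exponent_le hM1 (by linarith)
      _ = M := Real.rpow_one M
  set D := y ^ (A + 2) with hD
  have hD0 : 0 < D := by positivity
  have hD4 : 4 ≤ D := by
    calc (4 : ℝ) ≤ y ^ 1 := by rw [pow_one]; linarith
      _ ≤ y ^ (A + 2) := pow_le_pow_right₀ hy1 (by omega)
  have hDε : D ≤ M ^ (ε / 2) := (pow_le_pow_right₀ hy1 (by omega)).trans d3
  have hDL : L ^ 2 * D ≤ M ^ 2 := by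
    have e1 : L ^ 2 ≤ M ^ (2 - 2 * ε) := by
      calc L ^ 2 ≤ (M ^ (1 - ε)) ^ 2 := by gcongr
        _ = M ^ (2 - 2 * ε) := by
            rw [← Real.rpow_natCast, ← Real.rpow_mul hM0.le]
            congr 1
            push_cast
            ring
    calc L ^ 2 * D ≤ M ^ (2 - 2 * ε) * M ^ (ε / 2) := by gcongr
      _ = M ^ (2 - 3 * ε / 2) := by
          rw [← Real.rpow_add hM0]
          congr 1
          ring
      _ ≤ M ^ (2 : ℝ) := Real.rpow_le_rpow_of_exponent_le hM1 (by linarith)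
      _ = M ^ 2 := by
          rw [← Real.rpow_natCast]
          norm_num
  -- splitting
  have e1 : ∑ w ∈ bl (2 * M ^ 2), ∑ v ∈ bl (2 * M ^ 2), β w * α v * Fz lam M (w * v) =
      ∑ w ∈ bl (2 * M ^ 2), ∑ v ∈ bl (2 * M ^ 2), β w * α v * (Fz lam M (w * v) - GG lam D M (w * v)) +
      ∑ w ∈ bl (2 * M ^ 2), ∑ v ∈ bl (2 * M ^ 2), β w * α v * GG lam D M (w * v) := by
    rw [← sum_add_distrib]
    apply sum_congr rfl
    intro w _
    rw [← sum_add_distrib]
    apply sum_congr rfl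
    intro v _
    ring
  rw [e1]
  refine (abs_add_le _ _).trans ?_
  have p1 := smooth4 hα hβ hM3 hD4 hL0.le hLM' hDL hlam (bl (2 * M ^ 2)) (bl (2 * M ^ 2))
  set I := ⌈3 * y⌉₊ with hI
  have hI1 : (I : ℝ) ≤ 4 * y := by
    have := Nat.ceil_lt_add_one (show 0 ≤ 3 * y by positivity)
    linarith
  have hI2 : 2 * M ^ 2 ≤ 4 ^ I := by
    have e1 : M ^ 3 = Real.exp (3 * y) := by
      rw [hy, show 3 * Real.log M = Real.log M + Real.log M + Real.log M by ring, Real.exp_add, Real.exp_add,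
        Real.exp_log hM0]
      ring
    have e2 : Real.exp (3 * y) ≤ Real.exp I := Real.exp_le_exp.2 (Nat.le_ceil _)
    have e3 : Real.exp I = (Real.exp 1) ^ I := by
      rw [← Real.exp_nat_mul, mul_one]
    have e4 : (Real.exp 1) ^ I ≤ 4 ^ I := by
      apply pow_le_pow_left₀ (Real.exp_pos 1).le
      have := Real.exp_one_lt_d9
      linarith
    have e5 : 2 * M ^ 2 ≤ M ^ 3 := by nlinarith [sq_nonneg M]
    linarith [e3 ▸ e4]
  set W := M ^ (1 + ε) with hW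
  have hW1 : 1 ≤ W := Real.one_le_rpow hM1 (by linarith)
  have p2 := Bb_sum (β := β) (lam := lam) hD0.le hM0 (by linarith : 0 < W) (fun v hv => (hα1 v hv).1) I I
    (by linarith) (by nlinarith)
  -- the blocks
  set E := 6 * Real.sqrt C * (L * M) / y ^ (A + 3) + 4 * (L * (8 * M / y ^ (A + 4) + 1)) with hE
  have hE0 : 0 ≤ E := by positivity
  have hblock : ∀ i j : ℕ, |Bb β α lam D M (2 ^ i * Real.sqrt (1 / 2)) (2 ^ j * Real.sqrt W)| ≤ E := by
    intro i j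
    set R := 2 ^ i * Real.sqrt (1 / 2) with hR
    set P := 2 ^ j * Real.sqrt W with hP
    have hR0 : 0 < R := by positivity
    have hsW : 1 ≤ Real.sqrt W := Real.one_le_sqrt.2 hW1
    have h2j : (1 : ℝ) ≤ 2 ^ j := one_le_pow₀ (by norm_num)
    have hP1 : 1 ≤ P := by
      rw [hP]
      nlinarith
    have hP0 : 0 < P := by linarith
    have hPW : W ≤ P ^ 2 := by
      rw [hP, mul_pow, Real.sq_sqrt (by linarith)]
      have : (1 : ℝ) ≤ (2 ^ j) ^ 2 := one_le_pow₀ h2j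
      nlinarith
    by_cases c1 : M ≤ R * P
    · rw [Bb_zero hD0.le hM0 hR0.le hP0.le c1, abs_zero]
      exact hE0
    have c1' := (not_le.1 c1).le
    by_cases c2 : L * M ^ (1 - ε) ≤ P ^ 2
    · rw [Bb_zero' (fun v hv => (hα1 v hv).2) c2, abs_zero]
      exact hE0
    have c2' := (not_le.1 c2).le
    by_cases c3 : M / y ^ (A + 4) ≤ R * P
    · -- good blocks
      have hR2u : R ^ 2 ≤ M ^ (1 - ε) := by
        have e2 : R ^ 2 * W ≤ M ^ 2 := by
          calc R ^ 2 * W ≤ R ^ 2 * P ^ 2 := by gcongr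
            _ = (R * P) ^ 2 := by ring
            _ ≤ M ^ 2 := by gcongr
        have e3 : M ^ 2 = M ^ (1 - ε) * W := by
          rw [hW, ← Real.rpow_add hM0, ← Real.rpow_natCast]
          congr 1
          push_cast
          ring
        rw [e3] at e2
        exact le_of_mul_le_mul_right e2 (by linarith)
      have hR2l : M / L * M ^ (ε / 2) ≤ R ^ 2 := by
        have e2 : M ^ 2 ≤ R ^ 2 * (L * M ^ (1 - ε)) * y ^ (2 * A + 8) := by
          have e3 : M ≤ R * P * y ^ (A + 4) := by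
            rwa [div_le_iff₀ (by positivity)] at c3
          calc M ^ 2 ≤ (R * P * y ^ (A + 4)) ^ 2 := by gcongr
            _ = R ^ 2 * P ^ 2 * y ^ (2 * A + 8) := by
                rw [mul_pow, mul_pow, ← pow_mul]
                congr 2
                ring
            _ ≤ R ^ 2 * (L * M ^ (1 - ε)) * y ^ (2 * A + 8) := by gcongr
        have e4 : R ^ 2 * (L * M ^ (1 - ε)) * y ^ (2 * A + 8) ≤ R ^ 2 * (L * M ^ (1 - ε)) * M ^ (ε / 2) := by
          gcongr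
        have e5 : M ^ (1 - ε) * M ^ (ε / 2) = M / M ^ (ε / 2) := by
          rw [← Real.rpow_add hM0, show 1 - ε + ε / 2 = 1 - ε / 2 by ring, Real.rpow_sub hM0, Real.rpow_one]
        have hm : 0 < M ^ (ε / 2) := by positivity
        have e6 : M ^ 2 ≤ R ^ 2 * L * (M / M ^ (ε / 2)) := by
          calc M ^ 2 ≤ R ^ 2 * (L * M ^ (1 - ε)) * M ^ (ε / 2) := e2.trans e4
            _ = R ^ 2 * L * (M ^ (1 - ε) * M ^ (ε / 2)) := by ring
            _ = _ := by rw [e5]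
        have e7 : M * M ^ (ε / 2) ≤ R ^ 2 * L := by
          rw [← mul_div_assoc, le_div_iff₀ hm] at e6
          have : M * (M * M ^ (ε / 2)) ≤ M * (R ^ 2 * L) := by linarith
          exact le_of_mul_le_mul_left this hM0
        rw [div_mul_eq_mul_div, div_le_iff₀ hL0]
        exact e7
      have hR1 : 1 ≤ R := by
        have e2 : 1 ≤ M / L * M ^ (ε / 2) := by
          have e3 : 1 ≤ M / L := by
            rw [le_div_iff₀ hL0, one_mul]
            exact hLM'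
          have e4 : 1 ≤ M ^ (ε / 2) := Real.one_le_rpow hM1 (by linarith)
          nlinarith
        by_contra h
        have := not_le.1 h
        nlinarith
      have hR2M : R ^ 2 ≤ M := by
        refine hR2u.trans ?_
        calc M ^ (1 - ε) ≤ M ^ (1 : ℝ) := Real.rpow_le_rpow_of_exponent_le hM1 (by linarith)
          _ = M := Real.rpow_one M
      have mono : M ^ (1 - ε) ≤ M ^ (1 - ε / 2) := Real.rpow_le_rpow_of_exponent_le hM1 (by linarith)
      have key := hT M L R P D β lam hM3 hL1 (hLM.trans mono) hR1 hR2l (hR2u.trans mono) c3 c1' (by linarith)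
        (pow_le_pow_right₀ hy1 (by omega)) hβ hβ1 hlam (hS R hR0 hR2l hR2M)
      have g1 := Bb_good (α := α) hC hα.bd hL0.le hM3 hR0.le hP1 key
      refine g1.trans ?_
      have g2 : 6 * Real.sqrt C * (L * (R * P)) / y ^ (A + 3) ≤ 6 * Real.sqrt C * (L * M) / y ^ (A + 3) := by
        gcongr
      have g3 : 0 ≤ 4 * (L * (8 * M / y ^ (A + 4) + 1)) := by positivity
      rw [hE]
      linarith
    · -- bad blocks
      have c3' := (not_le.1 c3).le
      have hH : 4 * (M / y ^ (A + 4)) ≤ M := by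
        rw [← mul_div_assoc, div_le_iff₀ (by positivity)]
        have : 4 ≤ y ^ (A + 4) := by
          calc (4 : ℝ) ≤ y ^ 1 := by rw [pow_one]; linarith
            _ ≤ y ^ (A + 4) := pow_le_pow_right₀ hy1 (by omega)
        nlinarith
      have key := Bb_bad (β := β) (D := D) hα hβ hlam hL0.le hLM' hR0.le hP0.le
        (show 4 * (R * P) ≤ 4 * (M / y ^ (A + 4)) by linarith) hH
      refine key.trans ?_
      have g3 : 0 ≤ 6 * Real.sqrt C * (L * M) / y ^ (A + 3) := by positivity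
      rw [hE]
      have : 4 * (L * (2 * (4 * (M / y ^ (A + 4))) + 1)) = 4 * (L * (8 * M / y ^ (A + 4) + 1)) := by ring
      linarith
  have p3 : |∑ w ∈ bl (2 * M ^ 2), ∑ v ∈ bl (2 * M ^ 2), β w * α v * GG lam D M (w * v)| ≤ (4 * y) * ((4 * y) * E) := by
    rw [p2]
    refine (abs_sum_le_sum_abs _ _).trans ?_
    have s1 : ∀ i ∈ range I, |∑ j ∈ range I, Bb β α lam D M (2 ^ i * Real.sqrt (1 / 2)) (2 ^ j * Real.sqrt W)| ≤
        (4 * y) * E := by
      intro i _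
      refine (abs_sum_le_sum_abs _ _).trans ?_
      refine (sum_le_sum fun j _ => hblock i j).trans ?_
      rw [sum_const, card_range, nsmul_eq_mul]
      gcongr
    refine (sum_le_sum s1).trans ?_
    rw [sum_const, card_range, nsmul_eq_mul]
    gcongr
  refine (add_le_add p1 p3).trans ?_
  -- final estimates
  set T := L * M / y ^ A with hTT
  have hT0 : 0 ≤ T := by positivity
  have hML : y ^ (A + 3) ≤ M := d4.trans (by
    calc M ^ (1 / 2 : ℝ) ≤ M ^ (1 : ℝ) := Real.rpow_le_rpow_of_exponent_le hM1 (by norm_num)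
      _ = M := Real.rpow_one M)
  have r1 : L * M / D ≤ T / 64 ^ 2 := by
    rw [hTT, hD, div_div, div_le_div_iff₀ (by positivity) (by positivity), pow_add]
    have : (64 : ℝ) ^ 2 ≤ y ^ 2 := by
      gcongr
      linarith
    have h5 : 0 ≤ L * M * y ^ A := by positivity
    nlinarith
  have r2 : y ^ 2 * L ≤ T / 256 := by
    rw [hTT, div_div, le_div_iff₀ (by positivity)]
    calc y ^ 2 * L * (y ^ A * 256) ≤ y ^ 2 * L * (y ^ A * y) := by gcongr
      _ = L * y ^ (A + 3) := by ring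
      _ ≤ L * M := by gcongr
  have r3 : L ≤ T / 64 ^ 3 := by
    rw [hTT, div_div, le_div_iff₀ (by positivity)]
    calc L * (y ^ A * 64 ^ 3) ≤ L * (y ^ A * y ^ 3) := by
          gcongr
          linarith
      _ = L * y ^ (A + 3) := by ring
      _ ≤ L * M := by gcongr
  have r4 : y ^ 2 * (Real.sqrt C * (L * M) / y ^ (A + 3)) ≤ T / 216 := by
    have e2 : y ^ 2 * (Real.sqrt C * (L * M) / y ^ (A + 3)) = Real.sqrt C / y * T := by
      rw [hTT, pow_add]
      field_simp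
    rw [e2]
    have e3 : Real.sqrt C / y ≤ 1 / 216 := by
      rw [div_le_div_iff₀ hy0 (by norm_num)]
      linarith
    calc Real.sqrt C / y * T ≤ 1 / 216 * T := by gcongr
      _ = T / 216 := by ring
  have r5 : y ^ 2 * (L * (M / y ^ (A + 4))) ≤ T / 64 ^ 2 := by
    have e2 : y ^ 2 * (L * (M / y ^ (A + 4))) = 1 / y ^ 2 * T := by
      rw [hTT, pow_add]
      field_simp
    rw [e2]
    have e3 : 1 / y ^ 2 ≤ 1 / 64 ^ 2 := by
      apply one_div_le_one_div_of_le (by positivity)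
      gcongr
      linarith
    calc 1 / y ^ 2 * T ≤ 1 / 64 ^ 2 * T := by gcongr
      _ = T / 64 ^ 2 := by ring
  have e9 : 8 * (L * (3 * M / D + 1)) + 4 * y * (4 * y * E) = 24 * (L * M / D) + 8 * L +
      96 * (y ^ 2 * (Real.sqrt C * (L * M) / y ^ (A + 3))) + 512 * (y ^ 2 * (L * (M / y ^ (A + 4)))) +
      64 * (y ^ 2 * L) := by
    rw [hE]
    ring
  rw [e9]
  norm_num at r1 r3 r5
  linarith

end

theorem c_tg2x : S_TG2x :=
  tg2x Pool.Agent.N56.GN.chr_lat Pool.Agent.N407.GN.cnt c_bil Pool.Agent.N407.GN.lip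

end Pool.Agent.J4.H69
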