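import Pool.Agent.J4.H69.SBc
import Mathlib.NumberTheory.Chebyshev

/-!
# Mertens' theorem for `ℤ[i]`
-/

set_option autoImplicit false

namespace Pool.Agent.J4.H69

open Finset Filter Topology
open Pool.Agent.N782.GN
open Pool.Agent.N855.GN
open Pool.Agent.N277.GN (ct_nat_mul abs_be_le card_bl)
open Pool.Agent.H304R3.HK (UH bb LamK CS)
open Pool.Agent.H304R3.HK.M4 (mem_CS)

theorem sqrt_sum {f : ZI → ℝ} (hf : ∀ c, 0 ≤ f c) {K : ℝ} (hK : 0 ≤ K)
    (h : ∀ X : ℝ, 1 ≤ X → ∑ c ∈ bl X, f c ≤ K * X) {w : ℝ} (hw : 1 ≤ w) :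
    ∑ c ∈ bl w, f c * Real.sqrt (w / nz c) ≤ 6 * K * w := by
  classical
  have hw0 : 0 < w := by linarith
  set J := Nat.log 2 ⌊w⌋₊ + 1 with hJ
  have hfl : 1 ≤ ⌊w⌋₊ := Nat.le_floor (by exact_mod_cast hw)
  have h1 : ∀ c ∈ bl w, f c * Real.sqrt (w / nz c) ≤
      ∑ j ∈ range J, (if nz c ≤ w / 2 ^ j then f c * (3 / 2) ^ (j + 1) else 0) := by
    intro c hc
    rw [mem_bl] at hc
    have hc0 := nz_pos hc.1
    set x := w / nz c with hx
    have hx1 : 1 ≤ x := by rw [hx, one_le_div hc0]; exact hc.2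
    have hxw : x ≤ w := div_le_self hw0.le (nz_one_le hc.1)
    set j0 := Nat.log 2 ⌊x⌋₊ with hj0
    have hx2 : 1 ≤ ⌊x⌋₊ := Nat.le_floor (by exact_mod_cast hx1)
    have hj1 : (2 : ℝ) ^ j0 ≤ x := by
      have h3 : 2 ^ j0 ≤ ⌊x⌋₊ := Nat.pow_log_le_self 2 (by omega)
      have h4 : ((2 ^ j0 : ℕ) : ℝ) ≤ (⌊x⌋₊ : ℝ) := by exact_mod_cast h3
      push_cast at h4
      exact h4.trans (Nat.floor_le (by linarith))
    have hj2 : x ≤ (2 : ℝ) ^ (j0 + 1) := by
      have h3 : ⌊x⌋₊ + 1 ≤ 2 ^ (j0 + 1) := Nat.lt_pow_succ_log_self (by norm_num) _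
      have h4 : ((⌊x⌋₊ + 1 : ℕ) : ℝ) ≤ ((2 ^ (j0 + 1) : ℕ) : ℝ) := by exact_mod_cast h3
      push_cast at h4
      exact (Nat.lt_floor_add_one x).le.trans h4
    have hjJ : j0 ∈ range J := by
      rw [mem_range, hJ, Nat.lt_succ_iff]
      exact Nat.log_mono_right (Nat.floor_mono hxw)
    have h5 : Real.sqrt x ≤ (3 / 2) ^ (j0 + 1) := by
      apply Real.sqrt_le_iff.2
      refine ⟨by positivity, hj2.trans ?_⟩
      rw [← pow_mul, mul_comm, pow_mul]
      exact pow_le_pow_left₀ (by norm_num) (by norm_num) _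
    have h6 : nz c ≤ w / 2 ^ j0 := by
      rw [le_div_iff₀ (by positivity)]
      have : (2 : ℝ) ^ j0 * nz c ≤ w := by
        rw [hx, le_div_iff₀ hc0] at hj1
        exact hj1
      linarith
    have h7 := single_le_sum (f := fun j => (if nz c ≤ w / 2 ^ j then f c * (3 / 2) ^ (j + 1) else 0))
      (fun j _ => by
        split_ifs
        · exact mul_nonneg (hf c) (by positivity)
        · exact le_rfl) hjJ
    rw [if_pos h6] at h7
    exact (mul_le_mul_of_nonneg_left h5 (hf c)).trans h7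
  refine (sum_le_sum h1).trans ?_
  rw [sum_comm]
  have h2 : ∀ j ∈ range J, ∑ c ∈ bl w, (if nz c ≤ w / 2 ^ j then f c * (3 / 2) ^ (j + 1) else 0) ≤
      3 / 2 * K * w * (3 / 4) ^ j := by
    intro j hj
    have h3 : 1 ≤ w / 2 ^ j := by
      rw [one_le_div (by positivity)]
      rw [mem_range, hJ, Nat.lt_succ_iff] at hj
      have h4 : 2 ^ j ≤ ⌊w⌋₊ := (Nat.pow_le_pow_right (by norm_num) hj).trans (Nat.pow_log_le_self 2 (by omega))
      have h5 : ((2 ^ j : ℕ) : ℝ) ≤ (⌊w⌋₊ : ℝ) := by exact_mod_cast h4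
      push_cast at h5
      exact h5.trans (Nat.floor_le (by linarith))
    have h6 : ∑ c ∈ bl w, (if nz c ≤ w / 2 ^ j then f c * (3 / 2) ^ (j + 1) else 0) ≤
        ∑ c ∈ bl (w / 2 ^ j), f c * (3 / 2) ^ (j + 1) := by
      rw [← sum_filter]
      apply sum_le_sum_of_subset_of_nonneg
      · intro c hc
        rw [mem_filter, mem_bl] at hc
        rw [mem_bl]
        exact ⟨hc.1.1, hc.2⟩
      · intro c _ _
        exact mul_nonneg (hf c) (by positivity)
    refine h6.trans ?_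
    rw [← sum_mul]
    refine (mul_le_mul_of_nonneg_right (h _ h3) (by positivity)).trans (le_of_eq ?_)
    rw [show (3 / 4 : ℝ) = (3 / 2) / 2 by norm_num, div_pow (3 / 2 : ℝ) 2, pow_succ]
    field_simp
  refine (sum_le_sum h2).trans ?_
  rw [← mul_sum]
  have h3 : ∑ j ∈ range J, (3 / 4 : ℝ) ^ j ≤ 4 := by
    have := geom_sum_mul (3 / 4 : ℝ) J
    have h4 : (0 : ℝ) ≤ (3 / 4) ^ J := by positivity
    linarith
  calc 3 / 2 * K * w * ∑ j ∈ range J, (3 / 4 : ℝ) ^ j ≤ 3 / 2 * K * w * 4 := by gcongr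
    _ = 6 * K * w := by ring

theorem card_norm_prime {p : ℕ} (hp : p.Prime) (S : Finset ZI) :
    (S.filter (fun t : ZI => (Zsqrtd.norm t).natAbs = p)).card ≤ 8 := by
  have h3 : (S.filter (fun t : ZI => (Zsqrtd.norm t).natAbs = p)).card ≤ (CS p).card := by
    refine Finset.card_le_card_of_injOn (fun t : ZI => (t.re, t.im)) ?_ ?_
    · intro t ht
      have ht' := (mem_filter.1 (Finset.mem_coe.1 ht)).2
      rw [Finset.mem_coe, mem_CS]
      have h4 := norm_nat t
      rw [ht'] at h4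
      rw [h4, Zsqrtd.norm_def]
      ring
    · intro a _ b _ h
      rw [Prod.mk.injEq] at h
      exact Zsqrtd.ext h.1 h.2
  have h4 := h3.trans (Pool.Agent.N407.GN.CS_card p hp.pos)
  rw [hp.divisors, card_pair hp.one_lt.ne] at h4
  exact h4

/-- Chebyshev's bound -/
theorem cheb_lp {X : ℝ} (hX : 1 ≤ X) : ∑ c ∈ bl X, lp c ≤ 12 * X := by
  classical
  have h1 : ∑ c ∈ bl X, lp c = ∑ n ∈ Icc 0 ⌊X⌋₊, ∑ c ∈ (bl X).filter (fun c => (Zsqrtd.norm c).natAbs = n), lp c := by
    rw [sum_fiberwise_of_maps_to]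
    intro c hc
    rw [mem_bl, nz_nat] at hc
    rw [mem_Icc]
    exact ⟨Nat.zero_le _, Nat.le_floor hc.2⟩
  have h2 : ∀ n ∈ Icc 0 ⌊X⌋₊, ∑ c ∈ (bl X).filter (fun c => (Zsqrtd.norm c).natAbs = n), lp c ≤
      if n.Prime then 8 * Real.log n else 0 := by
    intro n _
    by_cases hn : n.Prime
    · rw [if_pos hn]
      have h3 : ∀ c ∈ (bl X).filter (fun c => (Zsqrtd.norm c).natAbs = n), lp c ≤ Real.log n := by
        intro c hc
        rw [mem_filter, mem_bl] at hc
        refine (lp_le hc.1.1).trans ?_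
        rw [nz_nat, hc.2]
      refine (sum_le_sum h3).trans ?_
      rw [sum_const, nsmul_eq_mul]
      have h4 := card_norm_prime hn (bl X)
      have h5 : (((bl X).filter (fun c => (Zsqrtd.norm c).natAbs = n)).card : ℝ) ≤ 8 := by exact_mod_cast h4
      have h6 : 0 ≤ Real.log n := Real.log_nonneg (by exact_mod_cast hn.one_lt.le)
      gcongr
    · rw [if_neg hn]
      apply le_of_eq
      apply sum_eq_zero
      intro c hc
      rw [mem_filter] at hc
      unfold lp
      rw [if_neg (by rw [hc.2]; exact hn)]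
  rw [h1]
  refine (sum_le_sum h2).trans ?_
  rw [← sum_filter, ← mul_sum]
  have h3 := Chebyshev.theta_le_log4_mul_x (x := X) (by linarith)
  rw [Chebyshev.theta_eq_sum_Icc] at h3
  have h4 : Real.log 4 ≤ 1.4 := by
    rw [show (4 : ℝ) = 2 ^ 2 by norm_num, Real.log_pow]
    have := Real.log_two_lt_d9
    push_cast
    linarith
  nlinarith

theorem cheb_LamK : ∃ K : ℝ, 0 < K ∧ ∀ X : ℝ, 1 ≤ X → ∑ c ∈ bl X, LamK c ≤ K * X := by
  classical
  have h1 := logpow 3 (show (0 : ℝ) < 1 / 2 by norm_num) one_pos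
  rw [Filter.eventually_atTop] at h1
  obtain ⟨X0, h1⟩ := h1
  set X1 := max X0 3 with hX1
  set K := 36 + ∑ c ∈ bl X1, |LamK c| with hK
  have hK0 : 0 ≤ ∑ c ∈ bl X1, |LamK c| := sum_nonneg fun _ _ => abs_nonneg _
  refine ⟨K, by linarith, fun X hX => ?_⟩
  rcases le_total X X1 with h | h
  · have h2 : ∑ c ∈ bl X, LamK c ≤ ∑ c ∈ bl X1, |LamK c| := by
      refine (sum_le_sum fun c _ => le_abs_self (LamK c)).trans ?_
      exact sum_le_sum_of_subset_of_nonneg (bl_mono h) fun _ _ _ => abs_nonneg _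
    nlinarith
  · have hX3 : 3 ≤ X := (le_max_right _ _).trans h
    have h2 := lam_lp hX3
    have h3 := cheb_lp hX
    have h4 : ∑ c ∈ bl X, LamK c ≤ ∑ c ∈ bl X, lp c + ∑ c ∈ bl X, |LamK c - lp c| := by
      rw [← sum_add_distrib]
      exact sum_le_sum fun c _ => by linarith [le_abs_self (LamK c - lp c)]
    have h5 := h1 X ((le_max_left _ _).trans h)
    rw [one_mul, ← Real.sqrt_eq_rpow] at h5
    have h6 : Real.sqrt X * (Real.log X) ^ 3 ≤ X := by
      calc Real.sqrt X * (Real.log X) ^ 3 ≤ Real.sqrt X * Real.sqrt X := by gcongr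
        _ = X := Real.mul_self_sqrt (by linarith)
    have h7 : K * X ≥ 36 * X := by
      have : 0 ≤ (∑ c ∈ bl X1, |LamK c|) * X := by positivity
      rw [hK]
      linarith
    nlinarith

/-- **Mertens' theorem** -/
theorem mert (hm : S_MUB) (hel : S_EL) : ∃ C : ℝ, 0 < C ∧ ∀ w : ℝ, 3 ≤ w →
    |∑ c ∈ bl w, LamK c / nz c - 4 * Real.log w| ≤ C := by
  classical
  obtain ⟨C1, hC1, hcard⟩ := card_bl_el hel
  obtain ⟨K, hK, hcheb⟩ := cheb_LamK
  have h5 := hm.2.2.2.2.1
  have h6 := hm.2.2.2.2.2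
  refine ⟨8 * C1 + 216 + 6 * C1 * K, by positivity, fun w hw => ?_⟩
  have hw0 : 0 < w := by linarith
  have hw1 : 1 ≤ w := by linarith
  have hlw : 0 ≤ Real.log w := Real.log_nonneg hw1
  have hlw2 : Real.sqrt w * Real.log w ≤ 2 * w := by
    have h7 : Real.log w ≤ 2 * Real.sqrt w := by
      have e1 : Real.log w = 2 * Real.log (Real.sqrt w) := by
        rw [Real.log_sqrt hw0.le]
        ring
      have e2 := Real.log_le_sub_one_of_pos (Real.sqrt_pos.2 hw0)
      linarith
    calc Real.sqrt w * Real.log w ≤ Real.sqrt w * (2 * Real.sqrt w) := by gcongr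
      _ = 2 * (Real.sqrt w * Real.sqrt w) := by ring
      _ = 2 * w := by rw [Real.mul_self_sqrt hw0.le]
  have hsw : Real.sqrt w ≤ w := by
    apply Real.sqrt_le_iff.2
    refine ⟨hw0.le, ?_⟩
    nlinarith
  -- the identity
  have i1 : ∑ z ∈ bl w, 4 * Real.log (nz z) = ∑ c ∈ bl w, LamK c * ((bl (w / nz c)).card : ℝ) := by
    calc ∑ z ∈ bl w, 4 * Real.log (nz z) = ∑ z ∈ bl w, ∑ c ∈ (bl (nz z)).filter (fun c => c ∣ z), LamK c :=
          sum_congr rfl fun z hz => (h5 z ((mem_bl _ _).1 hz).1).symm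
      _ = ∑ c ∈ bl w, ∑ z ∈ (bl w).filter (fun z => c ∣ z), LamK c := by
          refine sum_comm' ?_
          intro z c
          rw [mem_filter, mem_filter, mem_bl, mem_bl, mem_bl]
          constructor
          · rintro ⟨⟨hz, hzw⟩, ⟨hc, hcz⟩, hd⟩
            exact ⟨⟨⟨hz, hzw⟩, hd⟩, hc, hcz.trans hzw⟩
          · rintro ⟨⟨⟨hz, hzw⟩, hd⟩, hc, hcw⟩
            refine ⟨⟨hz, hzw⟩, ⟨hc, ?_⟩, hd⟩
            obtain ⟨e, he⟩ := hd
            have he0 : e ≠ 0 := by
              rintro rfl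
              exact hz (by rw [he, mul_zero])
            rw [he, nz_mul]
            have := nz_one_le he0
            have := nz_nonneg c
            nlinarith
      _ = _ := by
          apply sum_congr rfl
          intro c hc
          have hc' := (mem_bl _ _).1 hc
          have hc1 := nz_pos hc'.1
          rw [sum_const, nsmul_eq_mul, mul_comm]
          congr 1
          have : (bl w).filter (fun z => c ∣ z) = (bl (w / nz c)).image (fun t : ZI => c * t) := by
            ext z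
            rw [mem_filter, mem_image, mem_bl]
            constructor
            · rintro ⟨⟨hz, hzw⟩, ⟨t, rfl⟩⟩
              refine ⟨t, ?_, rfl⟩
              rw [mem_bl, le_div_iff₀ hc1]
              rw [nz_mul] at hzw
              exact ⟨right_ne_zero_of_mul hz, by linarith⟩
            · rintro ⟨t, ht, rfl⟩
              rw [mem_bl, le_div_iff₀ hc1] at ht
              rw [nz_mul]
              exact ⟨⟨mul_ne_zero hc'.1 ht.1, by linarith⟩, dvd_mul_right _ _⟩
          rw [this, card_image_of_injective _ (fun a b h => mul_left_cancel₀ hc'.1 h)]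
  have hcw := abs_le.1 (hcard w hw1)
  have hpi := Real.pi_gt_three
  have hpi2 := Real.pi_lt_four
  -- upper bound for the left side
  have u1 : ∑ z ∈ bl w, 4 * Real.log (nz z) ≤ 4 * Real.pi * w * Real.log w + 8 * C1 * w := by
    calc ∑ z ∈ bl w, 4 * Real.log (nz z) ≤ ∑ _z ∈ bl w, 4 * Real.log w := by
          refine sum_le_sum fun z hz => ?_
          rw [mem_bl] at hz
          have := Real.log_le_log (nz_pos hz.1) hz.2
          linarith
      _ = ((bl w).card : ℝ) * (4 * Real.log w) := by rw [sum_const, nsmul_eq_mul]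
      _ ≤ (Real.pi * w + C1 * Real.sqrt w) * (4 * Real.log w) := by
          apply mul_le_mul_of_nonneg_right _ (by positivity)
          linarith
      _ = 4 * Real.pi * w * Real.log w + 4 * C1 * (Real.sqrt w * Real.log w) := by ring
      _ ≤ 4 * Real.pi * w * Real.log w + 4 * C1 * (2 * w) := by gcongr
      _ = _ := by ring
  -- lower bound for the left side
  have u2 : 4 * Real.pi * w * Real.log w - 8 * C1 * w - 216 * w ≤ ∑ z ∈ bl w, 4 * Real.log (nz z) := by
    have e1 : ∀ z ∈ bl w, 4 * Real.log w - 4 * (1 * Real.sqrt (w / nz z)) ≤ 4 * Real.log (nz z) := by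
      intro z hz
      rw [mem_bl] at hz
      have hz0 := nz_pos hz.1
      have e2 : Real.log w = Real.log (nz z) + Real.log (w / nz z) := by
        rw [Real.log_div hw0.ne' hz0.ne']
        ring
      have e3 : Real.log (w / nz z) ≤ Real.sqrt (w / nz z) := by
        have hx0 : 0 < w / nz z := by positivity
        set x := w / nz z
        -- `log x ≤ sqrt x`
        have e4 := Real.log_le_sub_one_of_pos (Real.sqrt_pos.2 (Real.sqrt_pos.2 hx0))
        have e5 : Real.log x = 4 * Real.log (Real.sqrt (Real.sqrt x)) := by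
          rw [Real.log_sqrt (Real.sqrt_nonneg x), Real.log_sqrt hx0.le]
          ring
        have e6 : Real.sqrt (Real.sqrt x) ^ 2 = Real.sqrt x := Real.sq_sqrt (Real.sqrt_nonneg x)
        rw [e5]
        nlinarith [sq_nonneg (Real.sqrt (Real.sqrt x) - 2)]
      linarith
    have e2 : ∑ z ∈ bl w, 1 * Real.sqrt (w / nz z) ≤ 6 * 9 * w := by
      apply sqrt_sum (f := fun _ => (1 : ℝ)) (fun _ => zero_le_one) (by norm_num) _ hw1
      intro X hX
      rw [sum_const, nsmul_eq_mul, mul_one]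
      exact card_bl X hX
    have e3 := sum_le_sum e1
    rw [sum_sub_distrib, sum_const, nsmul_eq_mul, ← mul_sum] at e3
    have e4 : Real.pi * w * (4 * Real.log w) - C1 * Real.sqrt w * (4 * Real.log w) ≤
        ((bl w).card : ℝ) * (4 * Real.log w) := by
      rw [← sub_mul]
      apply mul_le_mul_of_nonneg_right _ (by positivity)
      linarith
    have e5 : C1 * Real.sqrt w * (4 * Real.log w) ≤ 8 * C1 * w := by
      calc C1 * Real.sqrt w * (4 * Real.log w) = 4 * C1 * (Real.sqrt w * Real.log w) := by ring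
        _ ≤ 4 * C1 * (2 * w) := by gcongr
        _ = _ := by ring
    linarith
  -- the right side
  have r1 : |∑ c ∈ bl w, LamK c * ((bl (w / nz c)).card : ℝ) - Real.pi * w * ∑ c ∈ bl w, LamK c / nz c| ≤
      C1 * (6 * K * w) := by
    rw [mul_sum, ← sum_sub_distrib]
    refine (abs_sum_le_sum_abs _ _).trans ?_
    have e1 : ∀ c ∈ bl w, |LamK c * ((bl (w / nz c)).card : ℝ) - Real.pi * w * (LamK c / nz c)| ≤
        C1 * (LamK c * Real.sqrt (w / nz c)) := by
      intro c hc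
      rw [mem_bl] at hc
      have hc0 := nz_pos hc.1
      have hx1 : 1 ≤ w / nz c := by rw [one_le_div hc0]; exact hc.2
      have e2 := hcard _ hx1
      have e3 : LamK c * ((bl (w / nz c)).card : ℝ) - Real.pi * w * (LamK c / nz c) =
          LamK c * (((bl (w / nz c)).card : ℝ) - Real.pi * (w / nz c)) := by ring
      rw [e3, abs_mul, abs_of_nonneg (h6 c).1]
      calc LamK c * |((bl (w / nz c)).card : ℝ) - Real.pi * (w / nz c)| ≤ LamK c * (C1 * Real.sqrt (w / nz c)) := by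
            apply mul_le_mul_of_nonneg_left e2 (h6 c).1
        _ = _ := by ring
    refine (sum_le_sum e1).trans ?_
    rw [← mul_sum]
    apply mul_le_mul_of_nonneg_left _ hC1.le
    exact sqrt_sum (fun c => (h6 c).1) hK.le hcheb hw1
  rw [abs_le] at r1
  have hpw : 0 < Real.pi * w := by positivity
  rw [abs_le]
  constructor
  · have : Real.pi * w * (-(8 * C1 + 216 + 6 * C1 * K)) ≤
        Real.pi * w * (∑ c ∈ bl w, LamK c / nz c - 4 * Real.log w) := by
      have f1 : Real.pi * w * (8 * C1 + 216 + 6 * C1 * K) ≥ 1 * w * (8 * C1 + 216 + 6 * C1 * K) := by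
        gcongr
        linarith
      nlinarith
    exact le_of_mul_le_mul_left this hpw
  · have : Real.pi * w * (∑ c ∈ bl w, LamK c / nz c - 4 * Real.log w) ≤
        Real.pi * w * (8 * C1 + 216 + 6 * C1 * K) := by
      have f1 : Real.pi * w * (8 * C1 + 216 + 6 * C1 * K) ≥ 1 * w * (8 * C1 + 216 + 6 * C1 * K) := by
        gcongr
        linarith
      nlinarith
    exact le_of_mul_le_mul_left this hpw

/-- sums over the elements of prime norm -/
theorem mert2 (hm : S_MUB) (hel : S_EL) : ∃ C : ℝ, 0 < C ∧ ∀ᶠ X : ℝ in atTop, ∀ Y : ℝ, X ≤ Y → Y ≤ X ^ (3 / 2 : ℝ) →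
    |∑ a ∈ bg X Y, lp a / nz a - 4 * (Real.log Y - Real.log X)| ≤ C := by
  classical
  obtain ⟨C, hC, h⟩ := mert hm hel
  refine ⟨2 * C + 1, by positivity, ?_⟩
  have d1 := logpow 3 (show (0 : ℝ) < 1 / 4 by norm_num) (show (0 : ℝ) < 1 / 81 by norm_num)
  filter_upwards [d1, eventually_ge_atTop 3] with X d1 hX3 Y hXY hYX
  have hX0 : 0 < X := by linarith
  have hY0 : 0 < Y := by linarith
  have hX1 := h X hX3
  have hY1 := h Y (hX3.trans hXY)
  have hlX : 1 ≤ Real.log X := one_le_log hX3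
  have e1 : ∑ c ∈ bl Y, LamK c / nz c = ∑ c ∈ bl X, LamK c / nz c + ∑ c ∈ bg X Y, LamK c / nz c := by
    have e2 : bl X = (bl Y).filter (fun a => ¬ X < nz a) := by
      ext z
      rw [mem_filter, mem_bl, mem_bl, not_lt]
      constructor
      · rintro ⟨h1, h2⟩
        exact ⟨⟨h1, h2.trans hXY⟩, h2⟩
      · rintro ⟨⟨h1, h2⟩, h3⟩
        exact ⟨h1, h3⟩
    rw [e2]
    unfold bg
    rw [add_comm, sum_filter_add_sum_filter_not]
  have e2 : |∑ c ∈ bg X Y, LamK c / nz c - ∑ a ∈ bg X Y, lp a / nz a| ≤ 1 := by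
    rw [← sum_sub_distrib]
    refine (abs_sum_le_sum_abs _ _).trans ?_
    have e3 : ∀ c ∈ bg X Y, |LamK c / nz c - lp c / nz c| ≤ |LamK c - lp c| * (1 / X) := by
      intro c hc
      unfold bg at hc
      rw [mem_filter, mem_bl] at hc
      rw [← sub_div, abs_div, abs_of_pos (nz_pos hc.1.1), mul_one_div]
      gcongr
      exact hc.2.le
    refine (sum_le_sum e3).trans ?_
    rw [← sum_mul]
    have e4 : ∑ c ∈ bg X Y, |LamK c - lp c| ≤ ∑ c ∈ bl Y, |LamK c - lp c| :=
      sum_le_sum_of_subset_of_nonneg (filter_subset _ _) fun _ _ _ => abs_nonneg _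
    have e5 := lam_lp (hX3.trans hXY)
    have e6 : Real.sqrt Y ≤ X ^ (3 / 4 : ℝ) := by
      rw [Real.sqrt_eq_rpow]
      calc Y ^ (1 / 2 : ℝ) ≤ (X ^ (3 / 2 : ℝ)) ^ (1 / 2 : ℝ) := by gcongr
        _ = X ^ (3 / 4 : ℝ) := by
            rw [← Real.rpow_mul hX0.le]
            norm_num
    have e7 : Real.log Y ≤ 3 / 2 * Real.log X := by
      rw [← Real.log_rpow hX0]
      exact Real.log_le_log hY0 hYX
    have hlY0 : 0 ≤ Real.log Y := Real.log_nonneg (by linarith)
    have e8 : 24 * Real.sqrt Y * (Real.log Y) ^ 3 ≤ X := by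
      calc 24 * Real.sqrt Y * (Real.log Y) ^ 3 ≤ 24 * X ^ (3 / 4 : ℝ) * (3 / 2 * Real.log X) ^ 3 := by gcongr
        _ = 81 * X ^ (3 / 4 : ℝ) * (Real.log X) ^ 3 := by ring
        _ ≤ 81 * X ^ (3 / 4 : ℝ) * (1 / 81 * X ^ (1 / 4 : ℝ)) := by gcongr
        _ = X ^ (3 / 4 : ℝ) * X ^ (1 / 4 : ℝ) := by ring
        _ = X := by
            rw [← Real.rpow_add hX0]
            norm_num
    calc (∑ c ∈ bg X Y, |LamK c - lp c|) * (1 / X) ≤ X * (1 / X) := by
          gcongr
          linarith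
      _ = 1 := by field_simp
  rw [abs_le] at hX1 hY1 e2 ⊢
  constructor <;> linarith

end Pool.Agent.J4.H69
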