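import Pool.Agent.J4.H69.UBb
import Pool.Agent.J4.H69.MRa

/-!
# The weight over coprime pairs on average
-/

set_option autoImplicit false

namespace Pool.Agent.J4.H69

open Finset Filter Topology
open Pool.Agent.N782.GN
open Pool.Agent.N855.GN (Dv mem_Dv logpow nz_one_le one_le_log bg)
open Pool.Agent.N277.GN (ct_nat_mul abs_be_le card_bl nz_pos nz_natCast)
open Pool.Agent.H304R3.HK (UH bb LamK CS)
open Pool.Agent.N458.GN (smul_mk zi_ne)

theorem lw_sum (A1 A2 : ℝ) : ∑ a ∈ bl A2, lw A1 A2 a / nz a = ∑ a ∈ bg A1 A2, lp a / nz a := by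
  classical
  unfold bg
  rw [sum_filter]
  apply sum_congr rfl
  intro a ha
  rw [mem_bl] at ha
  unfold lw
  by_cases h : A1 < nz a
  · rw [if_pos ⟨h, ha.2⟩, if_pos h]
  · rw [if_neg (fun h' => h h'.1), if_neg h, zero_div]

theorem al_sum_le {Q1 Q2 : ℝ} (hQ1 : 1 < Q1) :
    Real.log Q1 * ∑ v ∈ bl Q2, al Q1 Q2 v / nz v ≤ ∑ v ∈ bg Q1 Q2, lp v / nz v := by
  classical
  unfold bg
  rw [sum_filter, mul_sum]
  apply sum_le_sum
  intro v hv
  rw [mem_bl] at hv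
  have h0 := nz_pos hv.1
  by_cases h : al Q1 Q2 v = 0
  · rw [h, zero_div, mul_zero]
    split_ifs
    · exact div_nonneg (lp_nonneg v) h0.le
    · exact le_rfl
  · obtain ⟨h1, h2, h3⟩ := al_ne h
    rw [if_pos h2]
    unfold al lp
    rw [if_pos ⟨h1, h2, h3⟩, if_pos h1, mul_one_div]
    have := Real.log_le_log (by linarith) h2.le
    gcongr

theorem al_sum_ge {Q1 Q2 : ℝ} (hQ2 : 1 < Q2) :
    ∑ v ∈ bg Q1 Q2, lp v / nz v ≤ Real.log Q2 * ∑ v ∈ bl Q2, al Q1 Q2 v / nz v := by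
  classical
  unfold bg
  rw [sum_filter, mul_sum]
  apply sum_le_sum
  intro v hv
  rw [mem_bl] at hv
  have h0 := nz_pos hv.1
  have hl : 0 ≤ Real.log Q2 := Real.log_nonneg hQ2.le
  split_ifs with h
  · by_cases h1 : (Zsqrtd.norm v).natAbs.Prime
    · unfold al lp
      rw [if_pos h1, if_pos ⟨h1, h, hv.2⟩, mul_one_div]
      have := Real.log_le_log h0 hv.2
      gcongr
    · unfold lp
      rw [if_neg h1, zero_div]
      exact mul_nonneg hl (div_nonneg (al_nonneg _ _ _) h0.le)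
  · exact mul_nonneg hl (div_nonneg (al_nonneg _ _ _) h0.le)

/-- the constant of the main term -/
theorem gc_bd {δ : ℝ} (hδ : 0 < δ) (hδ1 : δ ≤ 1) : ∀ᶠ M : ℝ in atTop,
    δ ^ 2 / 6144 ≤ Gc M (M ^ (δ / 64)) (M ^ (5 * (δ / 64) / 4)) (M ^ (1 + δ / 4)) (M ^ (1 + δ / 2)) ∧
    Gc M (M ^ (δ / 64)) (M ^ (5 * (δ / 64) / 4)) (M ^ (1 + δ / 4)) (M ^ (1 + δ / 2)) ≤ 1 := by
  obtain ⟨C, hC, h⟩ := mert2 c_mub c_el
  have h1 := (tendsto_rpow_atTop (show 0 < δ / 64 by positivity)).eventually h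
  have h2 := (tendsto_rpow_atTop (show 0 < 1 + δ / 4 by positivity)).eventually h
  have h3 : ∀ᶠ M : ℝ in atTop, 128 * (C + 1) / δ ≤ Real.log M := Real.tendsto_log_atTop.eventually_ge_atTop _
  filter_upwards [h1, h2, h3, eventually_ge_atTop 3] with M h1 h2 h3 hM3
  have hM0 : 0 < M := by linarith
  have hM1 : 1 ≤ M := by linarith
  set y := Real.log M with hy
  have hy1 : 1 ≤ y := one_le_log hM3
  rw [div_le_iff₀ hδ] at h3
  have h1' := h1 (M ^ (5 * (δ / 64) / 4)) (Real.rpow_le_rpow_of_exponent_le hM1 (by linarith))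
    (by
      rw [← Real.rpow_mul hM0.le]
      exact Real.rpow_le_rpow_of_exponent_le hM1 (by linarith))
  have h2' := h2 (M ^ (1 + δ / 2)) (Real.rpow_le_rpow_of_exponent_le hM1 (by linarith))
    (by
      rw [← Real.rpow_mul hM0.le]
      exact Real.rpow_le_rpow_of_exponent_le hM1 (by linarith))
  rw [Real.log_rpow hM0, Real.log_rpow hM0, ← hy] at h1' h2'
  have hQ1 : 1 < M ^ (1 + δ / 4) := Real.one_lt_rpow (by linarith) (by linarith)
  have hQ2 : 1 < M ^ (1 + δ / 2) := Real.one_lt_rpow (by linarith) (by linarith)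
  have e1 := al_sum_le (Q2 := M ^ (1 + δ / 2)) hQ1
  have e2 := al_sum_ge (Q1 := M ^ (1 + δ / 4)) hQ2
  rw [Real.log_rpow hM0, ← hy] at e1 e2
  unfold Gc
  rw [lw_sum]
  set Sa := ∑ a ∈ bg (M ^ (δ / 64)) (M ^ (5 * (δ / 64) / 4)), lp a / nz a with hSa
  set Sq := ∑ v ∈ bg (M ^ (1 + δ / 4)) (M ^ (1 + δ / 2)), lp v / nz v with hSq
  set Sv := ∑ v ∈ bl (M ^ (1 + δ / 2)), al (M ^ (1 + δ / 4)) (M ^ (1 + δ / 2)) v / nz v with hSv
  rw [abs_le] at h1' h2'
  have a1 : δ / 128 * y ≤ Sa := by nlinarith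
  have a2 : Sa ≤ 2 * y := by nlinarith
  have a3 : δ / 2 * y ≤ Sq := by nlinarith
  have a4 : Sq ≤ 2 * y := by nlinarith
  have hSv0 : 0 ≤ Sv := sum_nonneg fun v hv => div_nonneg (al_nonneg _ _ _) (nz_nonneg v)
  have a5 : δ / 4 ≤ Sv := by
    have : δ / 2 * y ≤ 2 * y * Sv := by
      calc δ / 2 * y ≤ (1 + δ / 2) * y * Sv := a3.trans e2
        _ ≤ 2 * y * Sv := by
            apply mul_le_mul_of_nonneg_right _ hSv0
            nlinarith
    have h5 : y * (δ / 4) ≤ y * Sv := by linarith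
    exact le_of_mul_le_mul_left h5 (by linarith)
  have a6 : Sv ≤ 2 := by
    have : y * Sv ≤ y * 2 := by
      calc y * Sv ≤ (1 + δ / 4) * y * Sv := by
            apply mul_le_mul_of_nonneg_right _ hSv0
            nlinarith
        _ ≤ y * 2 := by linarith
    exact le_of_mul_le_mul_left this (by linarith)
  have hSa0 : 0 ≤ Sa := le_trans (by positivity) a1
  constructor
  · rw [le_div_iff₀ (by positivity)]
    calc δ ^ 2 / 6144 * (12 * y) = (δ / 4) * (δ / 128 * y) := by ring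
      _ ≤ Sv * Sa := mul_le_mul a5 a1 (by positivity) hSv0
  · rw [div_le_iff₀ (by positivity)]
    calc Sv * Sa ≤ 2 * (2 * y) := mul_le_mul a6 a2 hSa0 (by norm_num)
      _ ≤ 1 * (12 * y) := by linarith

theorem sum_sq_tail (N : ℕ) {E : ℝ} (hE : 1 ≤ E) :
    ∑ e ∈ (Icc 1 N).filter (fun e : ℕ => ¬ (e : ℝ) ≤ E), 1 / (e : ℝ) ^ 2 ≤ 2 / E := by
  classical
  set k := ⌊E⌋₊ with hk
  have hk1 : 1 ≤ k := Nat.le_floor (by exact_mod_cast hE)
  have h1 : (Icc 1 N).filter (fun e : ℕ => ¬ (e : ℝ) ≤ E) ⊆ Ioc k (max k N) := by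
    intro e he
    rw [mem_filter, mem_Icc, not_le] at he
    rw [mem_Ioc]
    refine ⟨(Nat.floor_lt (by linarith)).2 he.2, ?_⟩
    exact he.1.2.trans (le_max_right _ _)
  refine (sum_le_sum_of_subset_of_nonneg h1 fun _ _ _ => by positivity).trans ?_
  have h2 := sum_Ioc_inv_sq_le_sub (α := ℝ) (k := k) (n := max k N) (by omega) (le_max_left _ _)
  simp only [one_div]
  refine h2.trans ?_
  have h3 : (0 : ℝ) ≤ ((max k N : ℕ) : ℝ)⁻¹ := by positivity
  have h4 : ((k : ℝ))⁻¹ ≤ 2 / E := by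
    have h5 : E < k + 1 := Nat.lt_floor_add_one E
    have h6 : (1 : ℝ) ≤ k := by exact_mod_cast hk1
    rw [inv_eq_one_div, div_le_div_iff₀ (by linarith) (by linarith)]
    linarith
  linarith

/-- **the weight over coprime pairs on average** -/
theorem uavg {δ : ℝ} (hδ : 0 < δ) (hδ1 : δ ≤ 1) (A B : ℕ) : ∀ᶠ M : ℝ in atTop, ∀ L : ℝ, M ^ δ ≤ L →
    L ≤ M ^ (1 - δ) → ∀ b0 : ZI, b0 ≠ 0 → ct b0 = 1 → nz b0 ≤ (Real.log M) ^ B →
    ∑ l ∈ (Icc 1 ⌊L⌋₊).filter (fun l => Nat.Coprime l (Zsqrtd.norm b0).natAbs),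
      |UU1 M (M ^ (δ / 64)) (M ^ (5 * (δ / 64) / 4)) (M ^ (1 + δ / 4)) (M ^ (1 + δ / 2)) b0 l -
        2 * M * Gc M (M ^ (δ / 64)) (M ^ (5 * (δ / 64) / 4)) (M ^ (1 + δ / 4)) (M ^ (1 + δ / 2)) / nz b0 *
          ((l.totient : ℝ) / l)| ≤ L * M / (Real.log M) ^ A := by
  classical
  obtain ⟨C, hC, hti⟩ := c_ti (δ / 8) (by positivity)
  have d1 := gc_bd hδ hδ1
  have d2 := logpow (A + 3) (show 0 < δ / 64 by positivity) one_pos
  have d3 := logpow (B + 1) (show 0 < δ / 64 by positivity) one_pos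
  have d4 := logpow (2 * A + 2) (show 0 < δ / 80 by positivity) (show 0 < 1 / (2 * C) by positivity)
  have d5 := logpow (B + 2 * (A + 2)) (show 0 < δ / 8 by positivity) one_pos
  have d6 : ∀ᶠ M : ℝ in atTop, (3 : ℝ) ≤ M ^ (δ / 4) :=
    (tendsto_rpow_atTop (by positivity)).eventually_ge_atTop _
  have d7 : ∀ᶠ M : ℝ in atTop, (64 : ℝ) ≤ Real.log M := Real.tendsto_log_atTop.eventually_ge_atTop _
  have d8 := logpow (2 * A + 6) (show 0 < δ / 80 by positivity) (show 0 < 1 / (2 * C) by positivity)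
  filter_upwards [d1, d2, d3, d4, d5, d6, d7, d8, eventually_ge_atTop 9] with M d1 d2 d3 d4 d5 d6 d7 d8 hM9
  intro L hL1 hL2 b0 hb0 hcb hnb
  have hM3 : 3 ≤ M := by linarith
  have hM0 : 0 < M := by linarith
  have hM1 : 1 ≤ M := by linarith
  set y := Real.log M with hy
  have hy1 : 1 ≤ y := by linarith
  have hy0 : 0 < y := by linarith
  set A1 := M ^ (δ / 64) with hA1
  set A2 := M ^ (5 * (δ / 64) / 4) with hA2
  set Q1 := M ^ (1 + δ / 4) with hQ1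
  set Q2 := M ^ (1 + δ / 2) with hQ2
  set G := Gc M A1 A2 Q1 Q2 with hG
  obtain ⟨hG0, hG1⟩ := d1
  have hG0' : 0 ≤ G := le_trans (by positivity) hG0
  rw [one_mul] at d2 d3 d5
  set E := y ^ (A + 2) with hE
  have hE1 : 1 ≤ E := one_le_pow₀ hy1
  have hE0 : 0 < E := by linarith
  have hEA : E ≤ A1 := (pow_le_pow_right₀ hy1 (by omega)).trans d2
  have hA12 : A1 ≤ A2 := Real.rpow_le_rpow_of_exponent_le hM1 (by linarith)
  have hA1Q : A1 ≤ Q1 := Real.rpow_le_rpow_of_exponent_le hM1 (by linarith)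
  have hA2Q : A2 ≤ Q1 := Real.rpow_le_rpow_of_exponent_le hM1 (by linarith)
  have hA2M : A2 ≤ M := by
    calc A2 ≤ M ^ (1 : ℝ) := Real.rpow_le_rpow_of_exponent_le hM1 (by linarith)
      _ = M := Real.rpow_one M
  have hA21 : 1 ≤ A2 := Real.one_le_rpow hM1 (by positivity)
  have hQ0 : 0 < Q1 := by positivity
  have hL0 : 0 < L := lt_of_lt_of_le (by positivity) hL1
  have hLM : L ≤ M := by
    refine hL2.trans ?_
    calc M ^ (1 - δ) ≤ M ^ (1 : ℝ) := Real.rpow_le_rpow_of_exponent_le hM1 (by linarith)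
      _ = M := Real.rpow_one M
  have hQ : 2 * M ^ 2 < Q1 ^ 2 := by
    have e1 : Q1 = M * M ^ (δ / 4) := by rw [hQ1, Real.rpow_add hM0, Real.rpow_one]
    rw [e1, mul_pow]
    have : (2 : ℝ) < (M ^ (δ / 4)) ^ 2 := by nlinarith
    have : 0 < M ^ 2 := by positivity
    nlinarith
  have hnb1 := one_le_nz hb0
  have hnbA : nz b0 < A1 := by
    refine lt_of_le_of_lt hnb (lt_of_lt_of_le ?_ d3)
    rw [pow_succ]
    have : 0 < y ^ B := by positivity
    nlinarith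
  -- coprimality of the moduli
  have hcopr : ∀ a : ZI, (Zsqrtd.norm a).natAbs.Prime → A1 < nz a →
      Nat.Coprime (Zsqrtd.norm a).natAbs (Zsqrtd.norm b0).natAbs := by
    intro a ha haA
    rw [Nat.Prime.coprime_iff_not_dvd ha]
    intro hd
    have h1 : 0 < (Zsqrtd.norm b0).natAbs := by
      rw [nz_nat] at hnb1
      have : (0 : ℝ) < (((Zsqrtd.norm b0).natAbs : ℕ) : ℝ) := by linarith
      exact_mod_cast this
    have h2 := Nat.le_of_dvd h1 hd
    have h3 : nz a ≤ nz b0 := by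
      rw [nz_nat, nz_nat]
      exact_mod_cast h2
    linarith
  set D := Q2 * A2 * nz b0 with hD
  have hDM' : D ≤ L * M ^ (1 - δ / 8) / E ^ 2 := by
    rw [le_div_iff₀ (by positivity)]
    calc D * E ^ 2 = Q2 * A2 * (nz b0 * y ^ (2 * (A + 2))) := by
          rw [hD, hE, ← pow_mul, mul_comm (A + 2) 2]
          ring
      _ ≤ Q2 * A2 * (y ^ B * y ^ (2 * (A + 2))) := by gcongr
      _ = Q2 * A2 * y ^ (B + 2 * (A + 2)) := by rw [← pow_add]
      _ ≤ Q2 * A2 * M ^ (δ / 8) := by gcongr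
      _ = M ^ (1 + δ / 2 + 5 * (δ / 64) / 4 + δ / 8) := by
          rw [hQ2, hA2, ← Real.rpow_add hM0, ← Real.rpow_add hM0]
      _ ≤ M ^ (δ + (1 - δ / 8)) := Real.rpow_le_rpow_of_exponent_le hM1 (by linarith)
      _ = M ^ δ * M ^ (1 - δ / 8) := Real.rpow_add hM0 _ _
      _ ≤ L * M ^ (1 - δ / 8) := by gcongr
  have hD1 : 1 ≤ D := by
    have h1 : 1 ≤ Q2 := Real.one_le_rpow hM1 (by linarith)
    calc (1 : ℝ) = 1 * 1 * 1 := by norm_num
      _ ≤ Q2 * A2 * nz b0 := by gcongr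
  have hDM : D ≤ 2 * M ^ 2 := by
    refine hDM'.trans ?_
    calc L * M ^ (1 - δ / 8) / E ^ 2 ≤ L * M ^ (1 - δ / 8) :=
          div_le_self (by positivity) (one_le_pow₀ hE1)
      _ ≤ M * M ^ (1 : ℝ) :=
          mul_le_mul hLM (Real.rpow_le_rpow_of_exponent_le hM1 (by linarith)) (by positivity) hM0.le
      _ ≤ 2 * M ^ 2 := by
          rw [Real.rpow_one]
          nlinarith
  have hEM : E ≤ M ^ (1 / 2 : ℝ) := by
    refine hEA.trans (Real.rpow_le_rpow_of_exponent_le hM1 (by linarith))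
  have hsM : M ^ (1 / 2 : ℝ) * M ^ (1 / 2 : ℝ) = M := by
    rw [← Real.rpow_add hM0]
    norm_num
  have hsM3 : 3 ≤ M ^ (1 / 2 : ℝ) := by
    rw [← Real.sqrt_eq_rpow]
    apply Real.le_sqrt_of_sq_le
    norm_num
    exact hM9
  -- the average for one `e`
  have hav : ∀ e : ℕ, 1 ≤ e → (e : ℝ) ≤ E →
      ∑ l' ∈ Icc 1 (⌊L⌋₊ / e), |XX M A1 A2 Q1 Q2 (M / e) b0 ((l' : ℕ) : ℤ) - 2 * (M / e) * G / nz b0| ≤
        C * L * M ^ (1 - δ / 80) := by
    intro e he heE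
    have he0 : (0 : ℝ) < e := by exact_mod_cast he
    have he1 : (1 : ℝ) ≤ e := by exact_mod_cast he
    have hMe : M / e ≤ M := div_le_self hM0.le he1
    have hLe : L / e ≤ L := div_le_self hL0.le he1
    have c1 : 2 ≤ M / e := by
      rw [le_div_iff₀ he0]
      calc 2 * (e : ℝ) ≤ M ^ (1 / 2 : ℝ) * M ^ (1 / 2 : ℝ) := by
            apply mul_le_mul (by linarith) (heE.trans hEM) he0.le (by positivity)
        _ = M := hsM
    have c2 : 1 ≤ L / e := by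
      rw [le_div_iff₀ he0, one_mul]
      refine (heE.trans hEA).trans ((Real.rpow_le_rpow_of_exponent_le hM1 ?_).trans hL1)
      linarith
    have c0 : M ^ (1 - δ / 8) / e ≤ (M / e) ^ (1 - δ / 8) := by
      rw [Real.div_rpow hM0.le he0.le]
      have : (e : ℝ) ^ (1 - δ / 8) ≤ e := by
        calc (e : ℝ) ^ (1 - δ / 8) ≤ (e : ℝ) ^ (1 : ℝ) := Real.rpow_le_rpow_of_exponent_le he1 (by linarith)
          _ = e := Real.rpow_one _
      gcongr
    have c3 : L / e ≤ (M / e) ^ (1 - δ / 8) := by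
      refine le_trans ?_ c0
      have : M ^ (1 - δ) ≤ M ^ (1 - δ / 8) := Real.rpow_le_rpow_of_exponent_le hM1 (by linarith)
      gcongr
      linarith
    have c4 : D ≤ L / e * (M / e) ^ (1 - δ / 8) := by
      refine hDM'.trans ?_
      calc L * M ^ (1 - δ / 8) / E ^ 2 ≤ L * M ^ (1 - δ / 8) / (e : ℝ) ^ 2 := by gcongr
        _ = L / e * (M ^ (1 - δ / 8) / e) := by ring
        _ ≤ L / e * (M / e) ^ (1 - δ / 8) := by gcongr
    have key := XX_avg (M := M) (A1 := A1) (A2 := A2) (Q1 := Q1) (Q2 := Q2) (X := M / e) (L := L / e) (D := D)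
      (E := C * (L / e) * (M / e) ^ (1 - δ / 8 / 10)) (b0 := b0) hM3 hQ hQ0 hA21 hA2M hA2Q hb0 hcb
      (fun a ha => hcopr a (lw_ne ha).1 (lw_ne ha).2.1)
      (fun v hv => hcopr v (al_ne hv).1 (lt_of_le_of_lt hA1Q (al_ne hv).2.1)) le_rfl hDM
      (fun lam hlam => hti (M / e) (L / e) D lam c1 c2 c3 hD1 c4 hlam)
    rw [sum_int_nat _ (by positivity), Nat.floor_div_natCast] at key
    refine key.trans ?_
    rw [show 1 - δ / 8 / 10 = 1 - δ / 80 by ring]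
    have : 0 ≤ 1 - δ / 80 := by linarith
    gcongr
  -- all `e`
  have hlM : ∀ l ∈ Icc 1 ⌊L⌋₊, (l : ℝ) ≤ M := by
    intro l hl
    rw [mem_Icc] at hl
    have := (Nat.le_floor_iff hL0.le).1 hl.2
    linarith
  set g : ℕ → ℕ → ℝ := fun e l' : ℕ => if (e : ℝ) ≤ E then
        |XX M A1 A2 Q1 Q2 (M / e) b0 ((l' : ℕ) : ℤ) - 2 * (M / e) * G / nz b0|
        else (12 + 2 * G) * (M / e) with hg
  have s1 : ∑ l ∈ (Icc 1 ⌊L⌋₊).filter (fun l => Nat.Coprime l (Zsqrtd.norm b0).natAbs),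
      |UU1 M A1 A2 Q1 Q2 b0 l - 2 * M * G / nz b0 * ((l.totient : ℝ) / l)| ≤
      ∑ l ∈ Icc 1 ⌊L⌋₊, ∑ e ∈ l.divisors, g e (l / e) := by
    have hnn : ∀ l ∈ Icc 1 ⌊L⌋₊, 0 ≤ ∑ e ∈ l.divisors, g e (l / e) := by
      intro l _
      apply sum_nonneg
      intro e _
      rw [hg]
      simp only
      split_ifs
      · exact abs_nonneg _
      · positivity
    refine le_trans ?_ (sum_le_sum_of_subset_of_nonneg
      (filter_subset (fun l => Nat.Coprime l (Zsqrtd.norm b0).natAbs) (Icc 1 ⌊L⌋₊)) fun l hl _ => hnn l hl)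
    apply sum_le_sum
    intro l hl
    rw [mem_filter] at hl
    have hl' := mem_Icc.1 hl.1
    exact UU1_main c_mub hM3 hQ hQ0 hl'.1 (hlM l hl.1) hEA hA1Q hb0 hG0' hl.2
  refine s1.trans ?_
  rw [div_swap]
  have s2 : ∀ e ∈ Icc 1 ⌊L⌋₊, ∑ l' ∈ Icc 1 (⌊L⌋₊ / e), g e l' ≤
      (if (e : ℝ) ≤ E then C * L * M ^ (1 - δ / 80) else 0) +
      (if ¬ (e : ℝ) ≤ E then 14 * M * L * (1 / (e : ℝ) ^ 2) else 0) := by
    intro e he
    rw [mem_Icc] at he
    have he0 : (0 : ℝ) < e := by exact_mod_cast he.1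
    rw [hg]
    simp only
    by_cases h : (e : ℝ) ≤ E
    · rw [if_pos h, if_neg (not_not.2 h), add_zero]
      simp only [if_pos h]
      exact hav e he.1 h
    · rw [if_neg h, if_pos h, zero_add]
      simp only [if_neg h]
      rw [sum_const, nsmul_eq_mul, Nat.card_Icc, Nat.add_sub_cancel]
      have h1 : (((⌊L⌋₊ / e : ℕ)) : ℝ) ≤ L / e := by
        calc (((⌊L⌋₊ / e : ℕ)) : ℝ) ≤ (⌊L⌋₊ : ℝ) / e := Nat.cast_div_le
          _ ≤ L / e := by
              gcongr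
              exact Nat.floor_le hL0.le
      calc (((⌊L⌋₊ / e : ℕ)) : ℝ) * ((12 + 2 * G) * (M / e)) ≤ L / e * (14 * (M / e)) := by
            gcongr
            linarith
        _ = 14 * M * L * (1 / (e : ℝ) ^ 2) := by ring
  refine (sum_le_sum s2).trans ?_
  rw [sum_add_distrib, ← sum_filter, ← sum_filter]
  have t1 : ∑ _e ∈ (Icc 1 ⌊L⌋₊).filter (fun e : ℕ => (e : ℝ) ≤ E), C * L * M ^ (1 - δ / 80) =
      (((Icc 1 ⌊L⌋₊).filter (fun e : ℕ => (e : ℝ) ≤ E)).card : ℝ) * (C * L * M ^ (1 - δ / 80)) := by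
    rw [sum_const, nsmul_eq_mul]
  have t2 : ∑ e ∈ (Icc 1 ⌊L⌋₊).filter (fun e : ℕ => ¬ (e : ℝ) ≤ E), 14 * M * L * (1 / (e : ℝ) ^ 2) =
      14 * M * L * ∑ e ∈ (Icc 1 ⌊L⌋₊).filter (fun e : ℕ => ¬ (e : ℝ) ≤ E), 1 / (e : ℝ) ^ 2 := by
    rw [mul_sum]
  rw [t1, t2]
  have s3 : (((Icc 1 ⌊L⌋₊).filter (fun e : ℕ => (e : ℝ) ≤ E)).card : ℝ) ≤ E := by
    have h1 : (Icc 1 ⌊L⌋₊).filter (fun e : ℕ => (e : ℝ) ≤ E) ⊆ Icc 1 ⌊E⌋₊ := by
      intro e he
      rw [mem_filter, mem_Icc] at he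
      rw [mem_Icc]
      exact ⟨he.1.1, Nat.le_floor he.2⟩
    have h2 := card_le_card h1
    rw [Nat.card_Icc, Nat.add_sub_cancel] at h2
    have h3 : (((Icc 1 ⌊L⌋₊).filter (fun e : ℕ => (e : ℝ) ≤ E)).card : ℝ) ≤ (⌊E⌋₊ : ℝ) := by exact_mod_cast h2
    exact h3.trans (Nat.floor_le hE0.le)
  have s4 := sum_sq_tail ⌊L⌋₊ hE1
  have s5 : E * (C * L * M ^ (1 - δ / 80)) ≤ L * M / y ^ A / 2 := by
    have e1 : M ^ (1 - δ / 80) = M / M ^ (δ / 80) := by rw [Real.rpow_sub hM0, Real.rpow_one]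
    have hm0 : 0 < M ^ (δ / 80) := by positivity
    have e2 : y ^ (2 * A + 6) * (2 * C) ≤ M ^ (δ / 80) := by
      have : 1 / (2 * C) * M ^ (δ / 80) = M ^ (δ / 80) / (2 * C) := by ring
      rw [this, le_div_iff₀ (by positivity)] at d8
      exact d8
    rw [e1, div_div, le_div_iff₀ (by positivity)]
    have e3 : E * (C * L * (M / M ^ (δ / 80))) * (y ^ A * 2) = (L * M) * (y ^ (A + 2) * y ^ A * (2 * C)) / M ^ (δ / 80) := by
      rw [hE]
      field_simp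
    rw [e3, div_le_iff₀ hm0]
    apply mul_le_mul_of_nonneg_left _ (by positivity)
    refine le_trans ?_ e2
    apply mul_le_mul_of_nonneg_right _ (by positivity)
    rw [← pow_add]
    exact pow_le_pow_right₀ hy1 (by omega)
  have s6 : 14 * M * L * (2 / E) ≤ L * M / y ^ A / 2 := by
    have e1 : 14 * M * L * (2 / E) = L * M / y ^ A * (28 / y ^ 2) := by
      rw [hE, pow_add]
      field_simp
      ring
    rw [e1]
    have e2 : 28 / y ^ 2 ≤ 1 / 2 := by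
      rw [div_le_div_iff₀ (by positivity) (by norm_num)]
      nlinarith
    calc L * M / y ^ A * (28 / y ^ 2) ≤ L * M / y ^ A * (1 / 2) := by gcongr
      _ = _ := by ring
  have s7 : (((Icc 1 ⌊L⌋₊).filter (fun e : ℕ => (e : ℝ) ≤ E)).card : ℝ) * (C * L * M ^ (1 - δ / 80)) ≤
      E * (C * L * M ^ (1 - δ / 80)) := mul_le_mul_of_nonneg_right s3 (by positivity)
  have s8 : 14 * M * L * ∑ e ∈ (Icc 1 ⌊L⌋₊).filter (fun e : ℕ => ¬ (e : ℝ) ≤ E), 1 / (e : ℝ) ^ 2 ≤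
      14 * M * L * (2 / E) := mul_le_mul_of_nonneg_left s4 (by positivity)
  linarith

end Pool.Agent.J4.H69
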