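import Pool.Agent.J4.H69.GCd
import Pool.Agent.J4.H69.UBc

/-!
# From all numbers to the primitive ones: sums over classes
-/

set_option autoImplicit false

namespace Pool.Agent.J4.H69

open Finset Filter Topology
open Pool.Agent.N782.GN
open Pool.Agent.N855.GN (Dv mem_Dv logpow nz_one_le one_le_log SA mem_SA SA_sum Rq Rq_unique card_Rq)
open Pool.Agent.N277.GN (ct_nat_mul abs_be_le card_bl nz_pos nz_natCast one_le_nz)
open Pool.Agent.H304R3.HK (UH bb LamK CS)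

/-- the hypothesis on sums over classes -/
def CHa (c : ZI → ℝ) (M τ : ℝ) (A B : ℕ) : Prop := ∀ (V Y : ℝ) (q : ℕ) (r : ZI), M ^ (2 * τ) ≤ V → V ≤ M ^ 2 →
  0 ≤ Y → Y ≤ V → 1 ≤ q → (q : ℝ) ≤ (Real.log M) ^ B → |∑ t ∈ cls q r Y, c t| ≤ V / (Real.log M) ^ A

/-- the coefficient on the primitive numbers, multiplied by `g` -/
noncomputable def cgp (c : ZI → ℝ) (g : ℕ) (b : ZI) : ℝ := if ct b = 1 then c (((g : ℕ) : ZI) * b) else 0

theorem cgp_Cf {c : ZI → ℝ} (hc : ∀ b, |c b| ≤ 1) (g : ℕ) : Cf (cgp c g) := by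
  constructor
  · intro b
    unfold cgp
    split_ifs
    · exact hc _
    · simp
  · intro b hb
    unfold cgp
    rw [if_neg hb]

/-- splitting into classes -/
theorem cls_split {Q : ℕ} (hQ : 1 ≤ Q) (X : ℝ) (f : ZI → ℝ) :
    ∑ t ∈ bl X, f t = ∑ ρ ∈ Rq Q, ∑ t ∈ cls Q ρ X, f t := by
  classical
  have h1 : ∀ ρ ∈ Rq Q, ∑ t ∈ cls Q ρ X, f t = ∑ t ∈ bl X, if ((Q : ℕ) : ZI) ∣ t - ρ then f t else 0 := by
    intro ρ _
    unfold cls
    rw [sum_filter]
  rw [sum_congr rfl h1, sum_comm]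
  apply sum_congr rfl
  intro t _
  obtain ⟨ρ, hρ, hρ'⟩ := Rq_unique hQ t
  rw [sum_eq_single ρ]
  · rw [if_pos ((hρ' ρ hρ).2 rfl)]
  · intro s hs hne
    rw [if_neg]
    intro h
    exact hne ((hρ' s hs).1 h)
  · intro h
    exact absurd hρ h

theorem bl_empty {X : ℝ} (hX : X < 1) : bl X = ∅ := by
  rw [eq_empty_iff_forall_notMem]
  intro t ht
  have h1 := (mem_bl _ _).1 ht
  have := nz_one_le h1.1
  linarith

open Classical in
theorem card_dvd_le {a : ZI} (ha : a ≠ 0) {X : ℝ} (hX : 0 ≤ X) :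
    (((bl X).filter (fun b => a ∣ b)).card : ℝ) ≤ 9 * (X / nz a) := by
  have h1 := card_mult ha X
  have hp := nz_pos ha
  rcases lt_or_ge (X / nz a) 1 with h | h
  · rw [bl_empty h, card_empty] at h1
    have h2 : ((bl X).filter (fun b => a ∣ b)).card = 0 := by omega
    rw [h2]
    push_cast
    positivity
  · refine le_trans ?_ (card_bl _ h)
    exact_mod_cast h1

open Classical in
/-- one `e` -/
theorem se_le {c : ZI → ℝ} {M τ : ℝ} {A3 B3 : ℕ} (hch : CHa c M τ A3 B3) {g q e : ℕ} {r : ZI} {V Y : ℝ}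
    (hg : 1 ≤ g) (hq : 1 ≤ q) (he : 1 ≤ e) (hQ : ((g * q * e : ℕ) : ℝ) ≤ (Real.log M) ^ B3)
    (hV1 : M ^ (2 * τ) ≤ V) (hV2 : (g : ℝ) ^ 2 * V ≤ M ^ 2) (hY : 0 ≤ Y) (hYV : Y ≤ V) :
    |∑ b ∈ (bl Y).filter (fun b => ((q : ℕ) : ZI) ∣ b - r ∧ ((e : ℕ) : ZI) ∣ b), c (((g : ℕ) : ZI) * b)| ≤
      ((g * q * e : ℕ) : ℝ) ^ 2 * ((g : ℝ) ^ 2 * V / (Real.log M) ^ A3) := by
  have hg0 : ((g : ℕ) : ZI) ≠ 0 := by
    have : g ≠ 0 := by omega
    exact_mod_cast this
  have hgR : (1 : ℝ) ≤ (g : ℝ) ^ 2 := by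
    have : (1 : ℝ) ≤ g := by exact_mod_cast hg
    nlinarith
  have hV0 : 0 ≤ V := hY.trans hYV
  set Q : ℕ := g * q * e with hQd
  have hQ1 : 1 ≤ Q := by
    rw [hQd]
    exact Nat.succ_le_of_lt (by positivity)
  set P : ZI → Prop := fun t => ((g * q : ℕ) : ZI) ∣ t - ((g : ℕ) : ZI) * r ∧ ((g * e : ℕ) : ZI) ∣ t with hP
  set X := (g : ℝ) ^ 2 * Y with hX
  have hX0 : 0 ≤ X := by positivity
  have e1 : ∑ b ∈ (bl Y).filter (fun b => ((q : ℕ) : ZI) ∣ b - r ∧ ((e : ℕ) : ZI) ∣ b), c (((g : ℕ) : ZI) * b) =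
      ∑ t ∈ (bl X).filter P, c t := by
    apply sum_bij (fun b _ => ((g : ℕ) : ZI) * b)
    · intro b hb
      rw [mem_filter, mem_bl] at hb
      rw [mem_filter, mem_bl, nz_mul, nz_natCast, hP]
      refine ⟨⟨mul_ne_zero hg0 hb.1.1, mul_le_mul_of_nonneg_left hb.1.2 (by positivity)⟩, ?_, ?_⟩
      · rw [← mul_sub]
        push_cast
        exact mul_dvd_mul_left _ hb.2.1
      · push_cast
        exact mul_dvd_mul_left _ hb.2.2
    · intro a _ b _ h
      exact mul_left_cancel₀ hg0 h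
    · intro t ht
      rw [mem_filter, mem_bl, hP] at ht
      obtain ⟨⟨ht0, htX⟩, h1, h2⟩ := ht
      have h3 : ((g : ℕ) : ZI) ∣ t := by
        push_cast at h2
        exact (dvd_mul_right _ _).trans h2
      obtain ⟨b, rfl⟩ := h3
      refine ⟨b, ?_, rfl⟩
      rw [mem_filter, mem_bl]
      rw [nz_mul, nz_natCast] at htX
      refine ⟨⟨right_ne_zero_of_mul ht0, le_of_mul_le_mul_left htX (by positivity)⟩, ?_, ?_⟩
      · rw [← mul_sub] at h1
        push_cast at h1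
        exact (mul_dvd_mul_iff_left hg0).1 h1
      · push_cast at h2
        exact (mul_dvd_mul_iff_left hg0).1 h2
    · intro b _
      rfl
  have e2 : ∑ t ∈ (bl X).filter P, c t = ∑ ρ ∈ Rq Q, (if P ρ then 1 else 0) * ∑ t ∈ cls Q ρ X, c t := by
    rw [sum_filter, cls_split hQ1]
    apply sum_congr rfl
    intro ρ _
    rw [mul_sum]
    apply sum_congr rfl
    intro t ht
    have h1 : ((Q : ℕ) : ZI) ∣ t - ρ := by
      unfold cls at ht
      exact (mem_filter.1 ht).2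
    have hd1 : ((g * q : ℕ) : ZI) ∣ ((Q : ℕ) : ZI) := by
      rw [hQd]
      exact Nat.cast_dvd_cast (dvd_mul_right _ _)
    have hd2 : ((g * e : ℕ) : ZI) ∣ ((Q : ℕ) : ZI) := by
      rw [hQd]
      exact Nat.cast_dvd_cast ⟨q, by ring⟩
    have hiff : P t ↔ P ρ := by
      rw [hP]
      simp only
      constructor
      · rintro ⟨h2, h3⟩
        refine ⟨?_, ?_⟩
        · have := dvd_sub h2 (hd1.trans h1)
          rwa [show t - ((g : ℕ) : ZI) * r - (t - ρ) = ρ - ((g : ℕ) : ZI) * r by ring] at this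
        · have := dvd_sub h3 (hd2.trans h1)
          rwa [show t - (t - ρ) = ρ by ring] at this
      · rintro ⟨h2, h3⟩
        refine ⟨?_, ?_⟩
        · have := dvd_add h2 (hd1.trans h1)
          rwa [show ρ - ((g : ℕ) : ZI) * r + (t - ρ) = t - ((g : ℕ) : ZI) * r by ring] at this
        · have := dvd_add h3 (hd2.trans h1)
          rwa [show ρ + (t - ρ) = t by ring] at this
    by_cases h : P ρ
    · rw [if_pos (hiff.2 h), if_pos h, one_mul]
    · rw [if_neg (fun h' => h (hiff.1 h')), if_neg h, zero_mul]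
  rw [e1, e2]
  refine (abs_sum_le_sum_abs _ _).trans ?_
  have h3 : ∀ ρ ∈ Rq Q, |(if P ρ then (1 : ℝ) else 0) * ∑ t ∈ cls Q ρ X, c t| ≤
      (g : ℝ) ^ 2 * V / (Real.log M) ^ A3 := by
    intro ρ _
    have h4 := hch ((g : ℝ) ^ 2 * V) X Q ρ (hV1.trans (by nlinarith)) hV2 hX0
      (mul_le_mul_of_nonneg_left hYV (by positivity)) hQ1 hQ
    rw [abs_mul]
    refine le_trans ?_ h4
    split_ifs
    · rw [abs_one, one_mul]
    · rw [abs_zero, zero_mul]
      exact abs_nonneg _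
  refine (sum_le_sum h3).trans ?_
  rw [sum_const, nsmul_eq_mul]
  have h5 : ((Rq Q).card : ℝ) ≤ (Q : ℝ) ^ 2 := by exact_mod_cast card_Rq Q
  apply mul_le_mul_of_nonneg_right h5
  refine le_trans (abs_nonneg _) (h3 0 ?_)
  obtain ⟨ρ, hρ, -⟩ := Rq_unique hQ1 (0 : ZI)
  unfold Rq
  rw [mem_image]
  refine ⟨(0, 0), ?_, ?_⟩
  · rw [mem_product, mem_range]
    exact ⟨by omega, by simp; omega⟩
  · rfl

/-- sums over one class, primitive numbers -/
theorem cgp_cls {c : ZI → ℝ} (hc : ∀ b, |c b| ≤ 1) {M τ E : ℝ} {A3 B3 : ℕ} (hch : CHa c M τ A3 B3) {g q : ℕ} {r : ZI}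
    {V Y : ℝ} (hg : 1 ≤ g) (hq : 1 ≤ q) (hE : 1 ≤ E) (hQ : (g : ℝ) * q * E ≤ (Real.log M) ^ B3)
    (hV1 : M ^ (2 * τ) ≤ V) (hV2 : (g : ℝ) ^ 2 * V ≤ M ^ 2) (hY : 0 ≤ Y) (hYV : Y ≤ V) (hl : 0 < Real.log M) :
    |∑ b ∈ cls q r Y, cgp c g b| ≤ E * (((g : ℝ) * q * E) ^ 2 * ((g : ℝ) ^ 2 * V / (Real.log M) ^ A3)) +
      9 * V * (2 / E) := by
  classical
  have hV0 : 0 ≤ V := hY.trans hYV
  set N := ⌊Real.sqrt Y⌋₊ with hN
  set Se : ℕ → ℝ := fun e => ∑ b ∈ (bl Y).filter (fun b => ((q : ℕ) : ZI) ∣ b - r ∧ ((e : ℕ) : ZI) ∣ b),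
    c (((g : ℕ) : ZI) * b) with hSe
  have h1 : ∑ b ∈ cls q r Y, cgp c g b = ∑ e ∈ Icc 1 N, (ArithmeticFunction.moebius e : ℝ) * Se e := by
    have h2 : ∀ b ∈ bl Y, (if ct b = 1 then (1 : ℝ) else 0) =
        ∑ e ∈ Icc 1 N, (ArithmeticFunction.moebius e : ℝ) * (if ((e : ℕ) : ZI) ∣ b then 1 else 0) := by
      intro b hb
      obtain ⟨hb0, hbY⟩ := (mem_bl _ _).1 hb
      have hct : 0 < ct b := Pool.Agent.N864.GN.MB.ct_pos hb0
      have hctN : ct b ≤ N := by
        apply Nat.le_floor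
        apply Real.le_sqrt_of_sq_le
        obtain ⟨w, hw0, -, hw⟩ := Pool.Agent.N277.GN.ct_exists hb0
        have := nz_one_le hw0
        rw [← hw, nz_mul, nz_natCast] at hbY
        have h3 : (0 : ℝ) ≤ (ct b : ℝ) ^ 2 := by positivity
        nlinarith
      have h3 : ∑ e ∈ Icc 1 N, (ArithmeticFunction.moebius e : ℝ) * (if ((e : ℕ) : ZI) ∣ b then 1 else 0) =
          ∑ e ∈ (ct b).divisors, (ArithmeticFunction.moebius e : ℝ) := by
        have h4 : ∀ e ∈ Icc 1 N, (ArithmeticFunction.moebius e : ℝ) * (if ((e : ℕ) : ZI) ∣ b then 1 else 0) =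
            if e ∣ ct b then (ArithmeticFunction.moebius e : ℝ) else 0 := by
          intro e _
          by_cases h5 : e ∣ ct b
          · rw [if_pos h5, if_pos ((Pool.Agent.N864.GN.MB.dvd_ct e b).2 h5), mul_one]
          · rw [if_neg h5, if_neg (fun h => h5 ((Pool.Agent.N864.GN.MB.dvd_ct e b).1 h)), mul_zero]
        rw [sum_congr rfl h4, ← sum_filter]
        apply sum_congr _ fun _ _ => rfl
        ext e
        rw [mem_filter, mem_Icc, Nat.mem_divisors]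
        constructor
        · rintro ⟨-, h5⟩
          exact ⟨h5, by omega⟩
        · rintro ⟨h5, -⟩
          exact ⟨⟨Nat.pos_of_dvd_of_pos h5 hct, (Nat.le_of_dvd hct h5).trans hctN⟩, h5⟩
      rw [h3]
      have h5 := sum_mu_div (ct b) (by omega)
      rw [h5]
    have h6 : ∑ b ∈ cls q r Y, cgp c g b = ∑ b ∈ cls q r Y,
        ∑ e ∈ Icc 1 N, (ArithmeticFunction.moebius e : ℝ) *
          ((if ((e : ℕ) : ZI) ∣ b then 1 else 0) * c (((g : ℕ) : ZI) * b)) := by
      apply sum_congr rfl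
      intro b hb
      have hb' : b ∈ bl Y := by
        unfold cls at hb
        exact (mem_filter.1 hb).1
      have h7 : cgp c g b = (if ct b = 1 then (1 : ℝ) else 0) * c (((g : ℕ) : ZI) * b) := by
        unfold cgp
        split_ifs <;> simp
      rw [h7, h2 b hb', sum_mul]
      apply sum_congr rfl
      intro e _
      ring
    rw [h6, sum_comm]
    apply sum_congr rfl
    intro e _
    rw [← mul_sum, hSe]
    congr 1
    simp only
    unfold cls
    rw [sum_filter, sum_filter]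
    apply sum_congr rfl
    intro b _
    by_cases h8 : ((q : ℕ) : ZI) ∣ b - r
    · by_cases h9 : ((e : ℕ) : ZI) ∣ b
      · rw [if_pos h8, if_pos h9, if_pos ⟨h8, h9⟩, one_mul]
      · rw [if_pos h8, if_neg h9, if_neg (fun h => h9 h.2), zero_mul]
    · rw [if_neg h8, if_neg (fun h => h8 h.1)]
  rw [h1]
  refine (abs_sum_le_sum_abs _ _).trans ?_
  have hmu : ∀ e : ℕ, |(ArithmeticFunction.moebius e : ℝ)| ≤ 1 := by
    intro e
    have h2 : |(ArithmeticFunction.moebius e : ℤ)| ≤ 1 := ArithmeticFunction.abs_moebius_le_one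
    have h3 : ((|(ArithmeticFunction.moebius e : ℤ)| : ℤ) : ℝ) ≤ 1 := by exact_mod_cast h2
    rwa [Int.cast_abs] at h3
  rw [← sum_filter_add_sum_filter_not (Icc 1 N) (fun e : ℕ => (e : ℝ) ≤ E)]
  apply add_le_add
  · have h2 : ∀ e ∈ (Icc 1 N).filter (fun e : ℕ => (e : ℝ) ≤ E), |(ArithmeticFunction.moebius e : ℝ) * Se e| ≤
        ((g : ℝ) * q * E) ^ 2 * ((g : ℝ) ^ 2 * V / (Real.log M) ^ A3) := by
      intro e he
      rw [mem_filter, mem_Icc] at he
      have hgq : (0 : ℝ) ≤ (g : ℝ) * q := by positivity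
      have h3 : ((g * q * e : ℕ) : ℝ) ≤ (g : ℝ) * q * E := by
        push_cast
        exact mul_le_mul_of_nonneg_left he.2 hgq
      have h4 := se_le hch (r := r) hg hq he.1.1 (h3.trans hQ) hV1 hV2 hY hYV
      rw [abs_mul]
      calc |(ArithmeticFunction.moebius e : ℝ)| * |Se e| ≤ 1 * |Se e| :=
            mul_le_mul_of_nonneg_right (hmu e) (abs_nonneg _)
        _ = |Se e| := one_mul _
        _ ≤ ((g * q * e : ℕ) : ℝ) ^ 2 * ((g : ℝ) ^ 2 * V / (Real.log M) ^ A3) := h4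
        _ ≤ _ := by
            apply mul_le_mul_of_nonneg_right _ (by positivity)
            exact pow_le_pow_left₀ (Nat.cast_nonneg _) h3 2
    refine (sum_le_sum h2).trans ?_
    rw [sum_const, nsmul_eq_mul]
    apply mul_le_mul_of_nonneg_right _ (by positivity)
    have h5 : (Icc 1 N).filter (fun e : ℕ => (e : ℝ) ≤ E) ⊆ Icc 1 ⌊E⌋₊ := by
      intro e he
      rw [mem_filter, mem_Icc] at he
      rw [mem_Icc]
      exact ⟨he.1.1, Nat.le_floor he.2⟩
    have h6 := card_le_card h5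
    rw [Nat.card_Icc, Nat.add_sub_cancel] at h6
    calc (((Icc 1 N).filter (fun e : ℕ => (e : ℝ) ≤ E)).card : ℝ) ≤ ((⌊E⌋₊ : ℕ) : ℝ) := by exact_mod_cast h6
      _ ≤ E := Nat.floor_le (by linarith)
  · have h2 : ∀ e ∈ (Icc 1 N).filter (fun e : ℕ => ¬ (e : ℝ) ≤ E), |(ArithmeticFunction.moebius e : ℝ) * Se e| ≤
        9 * V * (1 / (e : ℝ) ^ 2) := by
      intro e he
      rw [mem_filter, mem_Icc] at he
      have he0 : ((e : ℕ) : ZI) ≠ 0 := by
        have : e ≠ 0 := by omega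
        exact_mod_cast this
      have hep : (0 : ℝ) < (e : ℝ) ^ 2 := by
        have : (0 : ℝ) < e := by exact_mod_cast he.1.1
        positivity
      have h3 : |Se e| ≤ (((bl Y).filter (fun b => ((e : ℕ) : ZI) ∣ b)).card : ℝ) := by
        rw [hSe]
        simp only
        refine (abs_sum_le_sum_abs _ _).trans ((sum_le_sum fun b _ => hc _).trans ?_)
        rw [sum_const, nsmul_eq_mul, mul_one]
        apply Nat.cast_le.2
        apply card_le_card
        intro b hb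
        rw [mem_filter] at hb ⊢
        exact ⟨hb.1, hb.2.2⟩
      have h4 := card_dvd_le he0 hY
      rw [nz_natCast] at h4
      rw [abs_mul]
      calc |(ArithmeticFunction.moebius e : ℝ)| * |Se e| ≤ 1 * |Se e| :=
            mul_le_mul_of_nonneg_right (hmu e) (abs_nonneg _)
        _ = |Se e| := one_mul _
        _ ≤ 9 * (Y / (e : ℝ) ^ 2) := h3.trans h4
        _ ≤ 9 * (V / (e : ℝ) ^ 2) := by gcongr
        _ = 9 * V * (1 / (e : ℝ) ^ 2) := by ring
    refine (sum_le_sum h2).trans ?_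
    rw [← mul_sum]
    exact mul_le_mul_of_nonneg_left (sum_sq_tail N hE) (by positivity)

end Pool.Agent.J4.H69
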