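import Pool.Agent.J4.H69.GCe

/-!
# The bilinear sums for a general coefficient: tools
-/

set_option autoImplicit false

namespace Pool.Agent.J4.H69

open Finset Filter Topology
open Pool.Agent.N782.GN
open Pool.Agent.N855.GN (Dv mem_Dv logpow nz_one_le one_le_log SA mem_SA SA_sum Rq Rq_unique card_Rq)
open Pool.Agent.N277.GN (ct_nat_mul abs_be_le card_bl nz_pos nz_natCast one_le_nz)
open Pool.Agent.H304R3.HK (UH bb LamK CS)

theorem chp_of_cha {τ : ℝ} (A B G0 : ℕ) : ∀ᶠ M : ℝ in atTop, ∀ c : ZI → ℝ, (∀ b, |c b| ≤ 1) →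
    CHa c M τ (4 * A + 4 * G0 + 2 * B + 7) (G0 + B + A + 2) → ∀ g : ℕ, 1 ≤ g → (g : ℝ) ≤ (Real.log M) ^ G0 →
    CHp (cgp c g) M τ A B := by
  have d1 : ∀ᶠ M : ℝ in atTop, (72 : ℝ) ≤ Real.log M := Real.tendsto_log_atTop.eventually_ge_atTop _
  have d2 := logpow (2 * G0) (show (0 : ℝ) < 1 / 2 by norm_num) (show (0 : ℝ) < 1 / 4 by norm_num)
  filter_upwards [d1, d2, eventually_ge_atTop 3] with M d1 d2 hM3
  intro c hc hch g hg hgG
  have hM0 : 0 < M := by linarith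
  set y := Real.log M with hy
  have hy0 : 0 < y := by linarith
  have hy1 : 1 ≤ y := by linarith
  have hg0 : (0 : ℝ) ≤ g := Nat.cast_nonneg g
  have main : ∀ (V Y : ℝ) (q : ℕ) (r : ZI), M ^ (2 * τ) ≤ V → V ≤ 4 * M → 0 ≤ Y → Y ≤ V → 1 ≤ q → (q : ℝ) ≤ y ^ B →
      |∑ t ∈ cls q r Y, cgp c g t| ≤ V / (2 * y ^ A) := by
    intro V Y q r hV1 hV2 hY hYV hq hqB
    have hV0 : 0 ≤ V := hY.trans hYV
    have hE : (1 : ℝ) ≤ y ^ (A + 2) := one_le_pow₀ hy1
    have hg2 : (g : ℝ) ^ 2 ≤ y ^ (2 * G0) := by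
      rw [mul_comm, pow_mul]
      exact pow_le_pow_left₀ hg0 hgG 2
    have hq0 : (0 : ℝ) ≤ q := Nat.cast_nonneg q
    have hgq : (g : ℝ) * q * y ^ (A + 2) ≤ y ^ (G0 + B + A + 2) := by
      calc (g : ℝ) * q * y ^ (A + 2) ≤ y ^ G0 * y ^ B * y ^ (A + 2) := by gcongr
        _ = y ^ (G0 + B + A + 2) := by ring
    have hVM : (g : ℝ) ^ 2 * V ≤ M ^ 2 := by
      have h1 : M ^ (1 / 2 : ℝ) ≤ M := by
        calc M ^ (1 / 2 : ℝ) ≤ M ^ (1 : ℝ) := Real.rpow_le_rpow_of_exponent_le (by linarith) (by norm_num)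
          _ = M := Real.rpow_one M
      calc (g : ℝ) ^ 2 * V ≤ (1 / 4 * M ^ (1 / 2 : ℝ)) * (4 * M) := by
            apply mul_le_mul (hg2.trans d2) hV2 hV0 (by positivity)
        _ ≤ (1 / 4 * M) * (4 * M) := by gcongr
        _ = M ^ 2 := by ring
    refine (cgp_cls hc hch hg hq hE hgq hV1 hVM hY hYV hy0).trans ?_
    have p1 : y ^ (A + 2) * (((g : ℝ) * q * y ^ (A + 2)) ^ 2 *
        ((g : ℝ) ^ 2 * V / y ^ (4 * A + 4 * G0 + 2 * B + 7))) ≤ V / (4 * y ^ A) := by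
      calc y ^ (A + 2) * (((g : ℝ) * q * y ^ (A + 2)) ^ 2 *
            ((g : ℝ) ^ 2 * V / y ^ (4 * A + 4 * G0 + 2 * B + 7)))
          ≤ y ^ (A + 2) * ((y ^ (G0 + B + A + 2)) ^ 2 * (y ^ (2 * G0) * V / y ^ (4 * A + 4 * G0 + 2 * B + 7))) := by
            gcongr
        _ = V * y ^ ((A + 2) + 2 * (G0 + B + A + 2) + 2 * G0) / y ^ (4 * A + 4 * G0 + 2 * B + 7) := by
            rw [pow_add y ((A + 2) + 2 * (G0 + B + A + 2)), pow_add y (A + 2) (2 * (G0 + B + A + 2)),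
              pow_mul' y 2 (G0 + B + A + 2)]
            ring
        _ = V / y ^ (A + 1) := by
            rw [div_eq_div_iff (by positivity) (by positivity), mul_assoc, ← pow_add]
            congr 2
            ring
        _ ≤ V / (4 * y ^ A) := by
            apply div_le_div_of_nonneg_left hV0 (by positivity)
            rw [pow_succ]
            have : 0 ≤ y ^ A := by positivity
            nlinarith
    have p2 : 9 * V * (2 / y ^ (A + 2)) ≤ V / (4 * y ^ A) := by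
      rw [mul_div_assoc', div_le_div_iff₀ (by positivity) (by positivity), pow_add]
      have h1 : 72 ≤ y ^ 2 := by nlinarith
      have h2 : 0 ≤ V * y ^ A := by positivity
      nlinarith
    have p3 : V / (2 * y ^ A) = V / (4 * y ^ A) + V / (4 * y ^ A) := by
      field_simp
      ring
    rw [p3]
    exact add_le_add p1 p2
  intro V Y1 Y2 q r hV1 hV2 hY1 hY12 hY2 hq hqB
  rw [SA_sum hY12]
  have h1 := main V Y2 q r hV1 hV2 (hY1.trans hY12) hY2 hq hqB
  have h2 := main V Y1 q r hV1 hV2 hY1 (hY12.trans hY2) hq hqB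
  have p3 : V / y ^ A = V / (2 * y ^ A) + V / (2 * y ^ A) := by
    field_simp
    ring
  rw [p3]
  exact (abs_sub _ _).trans (add_le_add h1 h2)

open Classical in
/-- numbers with large content in a box -/
theorem card_ct {L M G : ℝ} (hL : 1 ≤ L) (hLM : L ≤ M) (hG : 1 ≤ G) :
    (((Bx L (-M) M).filter (fun z => G < (ct z : ℝ))).card : ℝ) ≤ 6 * (L * M) / G := by
  have hM : 0 < M := by linarith
  have h1 : (Bx L (-M) M).filter (fun z => G < (ct z : ℝ)) ⊆
      ((Icc 1 ⌊L⌋₊).filter (fun g : ℕ => ¬ (g : ℝ) ≤ G)).biUnion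
        (fun g => (Bx (L / g) (-(M / g)) (M / g)).image (fun z => ((g : ℕ) : ZI) * z)) := by
    intro z hz
    rw [mem_filter] at hz
    have hz0 := Bx_ne hz.1
    obtain ⟨w, hw0, -, hw⟩ := Pool.Agent.N277.GN.ct_exists hz0
    have hg0 : 0 < ct z := Pool.Agent.N864.GN.MB.ct_pos hz0
    have hgR : (0 : ℝ) < ct z := by exact_mod_cast hg0
    have hzB := mem_Bx.1 hz.1
    have hre : z.re = (ct z : ℤ) * w.re := by
      have := congrArg Zsqrtd.re hw
      rw [Pool.Agent.N277.GN.re_nat_mul] at this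
      exact this.symm
    have him : z.im = (ct z : ℤ) * w.im := by
      have := congrArg Zsqrtd.im hw
      rw [Pool.Agent.N277.GN.im_nat_mul] at this
      exact this.symm
    have hre' : ((z.re : ℤ) : ℝ) = (ct z : ℝ) * (w.re : ℝ) := by rw [hre]; push_cast; ring
    have him' : ((z.im : ℤ) : ℝ) = (ct z : ℝ) * (w.im : ℝ) := by rw [him]; push_cast; ring
    have hw1 : 1 ≤ w.re := by
      by_contra h
      have h2 : w.re ≤ 0 := by omega
      have h3 : (ct z : ℤ) * w.re ≤ 0 := mul_nonpos_of_nonneg_of_nonpos (by positivity) h2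
      omega
    rw [mem_biUnion]
    refine ⟨ct z, ?_, ?_⟩
    · rw [mem_filter, mem_Icc, not_le]
      refine ⟨⟨hg0, ?_⟩, hz.2⟩
      apply Nat.le_floor
      refine le_trans ?_ hzB.2.1
      rw [hre']
      have : (1 : ℝ) ≤ (w.re : ℝ) := by exact_mod_cast hw1
      nlinarith
    · rw [mem_image]
      refine ⟨w, ?_, hw⟩
      rw [mem_Bx]
      refine ⟨hw1, ?_, ?_, ?_⟩
      · rw [le_div_iff₀ hgR, mul_comm, ← hre']
        exact hzB.2.1
      · rw [neg_le, le_div_iff₀ hgR]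
        have := hzB.2.2.1
        rw [him'] at this
        linarith
      · rw [le_div_iff₀ hgR]
        have := hzB.2.2.2
        rw [him'] at this
        linarith
  have h2 : ∀ g ∈ (Icc 1 ⌊L⌋₊).filter (fun g : ℕ => ¬ (g : ℝ) ≤ G),
      ((((Bx (L / g) (-(M / g)) (M / g)).image (fun z => ((g : ℕ) : ZI) * z)).card : ℕ) : ℝ) ≤
        3 * (L * M) * (1 / (g : ℝ) ^ 2) := by
    intro g hg
    rw [mem_filter, mem_Icc] at hg
    have hg1 : (1 : ℝ) ≤ g := by exact_mod_cast hg.1.1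
    have hgL : (g : ℝ) ≤ L := (Nat.le_floor_iff (by linarith)).1 hg.1.2
    have h3 := card_Bx (L := L / g) (x1 := -(M / g)) (x2 := M / g) (by positivity) (by
      have : 0 ≤ M / g := by positivity
      linarith)
    have h4 : ((((Bx (L / g) (-(M / g)) (M / g)).image (fun z => ((g : ℕ) : ZI) * z)).card : ℕ) : ℝ) ≤
        ((Bx (L / g) (-(M / g)) (M / g)).card : ℝ) := by exact_mod_cast card_image_le
    refine (h4.trans h3).trans ?_
    have h5 : 1 ≤ M / g := by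
      rw [le_div_iff₀ (by linarith)]
      linarith
    calc L / g * (M / g - -(M / g) + 1) ≤ L / g * (3 * (M / g)) := by
          apply mul_le_mul_of_nonneg_left _ (by positivity)
          linarith
      _ = 3 * (L * M) * (1 / (g : ℝ) ^ 2) := by
          field_simp
  calc (((Bx L (-M) M).filter (fun z => G < (ct z : ℝ))).card : ℝ)
      ≤ ((((Icc 1 ⌊L⌋₊).filter (fun g : ℕ => ¬ (g : ℝ) ≤ G)).biUnion
        (fun g => (Bx (L / g) (-(M / g)) (M / g)).image (fun z => ((g : ℕ) : ZI) * z))).card : ℝ) := by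
        exact_mod_cast card_le_card h1
    _ ≤ ∑ g ∈ (Icc 1 ⌊L⌋₊).filter (fun g : ℕ => ¬ (g : ℝ) ≤ G),
        ((((Bx (L / g) (-(M / g)) (M / g)).image (fun z => ((g : ℕ) : ZI) * z)).card : ℕ) : ℝ) := by
        exact_mod_cast card_biUnion_le
    _ ≤ ∑ g ∈ (Icc 1 ⌊L⌋₊).filter (fun g : ℕ => ¬ (g : ℝ) ≤ G), 3 * (L * M) * (1 / (g : ℝ) ^ 2) := sum_le_sum h2
    _ = 3 * (L * M) * ∑ g ∈ (Icc 1 ⌊L⌋₊).filter (fun g : ℕ => ¬ (g : ℝ) ≤ G), 1 / (g : ℝ) ^ 2 := by rw [mul_sum]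
    _ ≤ 3 * (L * M) * (2 / G) := by
        apply mul_le_mul_of_nonneg_left (sum_sq_tail _ hG) (by positivity)
    _ = 6 * (L * M) / G := by ring

/-- the coefficient of the first variable -/
noncomputable def bta (c : ZI → ℝ) (M A1 A2 : ℝ) (w : ZI) : ℝ :=
  (∑ a ∈ Dv w, lw A1 A2 a * c (w / a)) / (12 * Real.log M)

theorem bta_abs (hm : S_MUB) {c : ZI → ℝ} (hc : ∀ b, |c b| ≤ 1) {M A1 A2 : ℝ} (hM : 3 ≤ M) {w : ZI} (hw : w ≠ 0)
    (hwM : nz w ≤ 2 * M ^ 2) : |bta c M A1 A2 w| ≤ 1 := by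
  have hy := one_le_log hM
  unfold bta
  rw [abs_div, abs_of_pos (show 0 < 12 * Real.log M by positivity), div_le_one (by positivity)]
  refine (abs_sum_le_sum_abs _ _).trans ?_
  have h1 : ∑ a ∈ Dv w, |lw A1 A2 a * c (w / a)| ≤ 4 * Real.log (nz w) := by
    refine le_trans ?_ (om_le hm A1 A2 hw)
    unfold om
    apply sum_le_sum
    intro a _
    rw [abs_mul, abs_of_nonneg (lw_nonneg A1 A2 a)]
    calc lw A1 A2 a * |c (w / a)| ≤ lw A1 A2 a * 1 := mul_le_mul_of_nonneg_left (hc _) (lw_nonneg _ _ _)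
      _ = lw A1 A2 a := mul_one _
  have h3 : Real.log (nz w) ≤ 3 * Real.log M := by
    have e1 := Real.log_le_log (nz_pos hw) hwM
    have e2 : Real.log (2 * M ^ 2) ≤ Real.log (M ^ 3) := by
      apply Real.log_le_log (by positivity)
      nlinarith [sq_nonneg M]
    rw [Real.log_pow] at e2
    push_cast at e2
    linarith
  linarith

/-- the divisors of prime norm `> g` of `g w` are those of `w` -/
theorem bta_mul {c : ZI → ℝ} {M A1 A2 : ℝ} {g : ℕ} (hg : 1 ≤ g) (hgA : (g : ℝ) < A1) {w : ZI} (hw : w ≠ 0)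
    (hct : ct w = 1) (hwM : nz w ≤ 2 * M ^ 2) :
    bta c M A1 A2 (((g : ℕ) : ZI) * w) = betG (cgp c g) M A1 A2 w := by
  classical
  have hg0 : ((g : ℕ) : ZI) ≠ 0 := by
    have : g ≠ 0 := by omega
    exact_mod_cast this
  unfold bta betG cnv
  rw [if_pos hwM, if_pos hct]
  congr 1
  have hgw : ((g : ℕ) : ZI) * w ≠ 0 := mul_ne_zero hg0 hw
  have h1 : ∑ a ∈ Dv w, lw A1 A2 a * cgp c g (w / a) = ∑ a ∈ Dv w, lw A1 A2 a * c (((g : ℕ) : ZI) * w / a) := by
    apply sum_congr rfl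
    intro a ha
    rw [mem_Dv hw] at ha
    obtain ⟨b, hb⟩ := ha
    have ha0 : a ≠ 0 := by
      rintro rfl
      rw [zero_mul] at hb
      exact hw hb
    have hb0 : b ≠ 0 := by
      rintro rfl
      rw [mul_zero] at hb
      exact hw hb
    have e1 : w / a = b := by
      rw [hb]
      exact div_of_mul ha0
    have e2 : ((g : ℕ) : ZI) * w / a = ((g : ℕ) : ZI) * b := by
      rw [hb, show ((g : ℕ) : ZI) * (a * b) = a * (((g : ℕ) : ZI) * b) by ring]
      exact div_of_mul ha0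
    have e3 : ct b = 1 := by
      rw [hb] at hct
      exact ct_mul_one2 hb0 hct
    rw [e1, e2]
    unfold cgp
    rw [if_pos e3]
  rw [h1]
  symm
  apply sum_subset
  · intro a ha
    rw [mem_Dv hw] at ha
    rw [mem_Dv hgw]
    exact ha.mul_left _
  · intro a ha ha'
    rw [mem_Dv hgw] at ha
    rw [mem_Dv hw] at ha'
    by_cases h : lw A1 A2 a = 0
    · rw [h, zero_mul]
    · exfalso
      obtain ⟨h2, h3, h4⟩ := lw_ne h
      apply ha'
      exact (coprime_small h2 hg (by linarith)).dvd_of_dvd_mul_left ha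

end Pool.Agent.J4.H69
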