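import Pool.Agent.J4.H69.GCf

/-!
# The bilinear sums for a general coefficient
-/

set_option autoImplicit false

namespace Pool.Agent.J4.H69

open Finset Filter Topology
open Pool.Agent.N782.GN
open Pool.Agent.N855.GN (Dv mem_Dv logpow nz_one_le one_le_log SA mem_SA SA_sum Rq Rq_unique card_Rq)
open Pool.Agent.N277.GN (ct_nat_mul abs_be_le card_bl nz_pos nz_natCast one_le_nz)
open Pool.Agent.H304R3.HK (UH bb LamK CS)

theorem CHa_mono {c : ZI → ℝ} {M τ : ℝ} {A B A' B' : ℕ} (h : CHa c M τ A' B') (hA : A ≤ A') (hB : B ≤ B')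
    (hM : 1 ≤ Real.log M) : CHa c M τ A B := by
  intro V Y q r h1 h2 h3 h4 h5 h6
  refine (h V Y q r h1 h2 h3 h4 h5 (h6.trans (pow_le_pow_right₀ hM hB))).trans ?_
  apply div_le_div_of_nonneg_left (h3.trans h4) (by positivity)
  exact pow_le_pow_right₀ hM hA

theorem Fz_scale (lam : ℤ → ℝ) (M : ℝ) {g : ℕ} (hg : 1 ≤ g) (z : ZI) :
    Fz lam M (((g : ℕ) : ZI) * z) = Fz (fun l => lam ((g : ℤ) * l)) (M / g) z := by
  unfold Fz
  rw [Pool.Agent.N277.GN.re_nat_mul, Pool.Agent.N277.GN.im_nat_mul]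
  have hg0 : (0 : ℝ) < g := by exact_mod_cast hg
  have h1 : |(((g : ℤ) * z.im : ℤ) : ℝ)| ≤ M ↔ |((z.im : ℤ) : ℝ)| ≤ M / g := by
    push_cast
    rw [abs_mul, abs_of_pos hg0, le_div_iff₀ hg0, mul_comm]
  by_cases h : |((z.im : ℤ) : ℝ)| ≤ M / g
  · rw [if_pos (h1.2 h), if_pos h]
  · rw [if_neg (fun h' => h (h1.1 h')), if_neg h]

theorem Lm_scale {L : ℝ} {lam : ℤ → ℝ} (hlam : Lm L lam) {g : ℕ} (hg : 1 ≤ g) :
    Lm (L / g) (fun l => lam ((g : ℤ) * l)) := by
  have hg0 : (0 : ℝ) < g := by exact_mod_cast hg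
  have hgZ : (0 : ℤ) < g := by exact_mod_cast hg
  refine ⟨fun l => hlam.1 _, fun l hl => hlam.2 _ ?_⟩
  rcases hl with h | h
  · left
    have h2 : l ≤ 0 := by omega
    have h3 : (g : ℤ) * l ≤ 0 := mul_nonpos_of_nonneg_of_nonpos hgZ.le h2
    omega
  · right
    rw [div_lt_iff₀ hg0] at h
    push_cast
    linarith

theorem Fz_nz {L M : ℝ} {lam : ℤ → ℝ} (hlam : Lm L lam) (hLM : L ≤ M) {z : ZI} (h : Fz lam M z ≠ 0) :
    nz z ≤ 2 * M ^ 2 := by
  unfold Fz at h
  split_ifs at h with h4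
  · obtain ⟨h5, h6⟩ := Lm_ne hlam h
    rw [nz_eq]
    rw [abs_le] at h4
    have h5' : (1 : ℝ) ≤ ((z.re : ℤ) : ℝ) := by exact_mod_cast h5
    nlinarith
  · exact absurd rfl h

open Classical in
/-- the part with content `g` -/
theorem part_g {c : ZI → ℝ} {M L A1 A2 Q1 Q2 : ℝ} {lam : ℤ → ℝ} (hlam : Lm L lam) (hLM : L ≤ M) (hM : 0 < M)
    {g : ℕ} (hg : 1 ≤ g) (hgA : (g : ℝ) < A1) :
    ∑ w ∈ (bl (2 * M ^ 2)).filter (fun w => ct w = g), ∑ v ∈ bl (2 * M ^ 2),
      bta c M A1 A2 w * al Q1 Q2 v * Fz lam M (w * v) =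
    ∑ w ∈ bl (2 * (M / g) ^ 2), ∑ v ∈ bl (2 * (M / g) ^ 2), betG (cgp c g) M A1 A2 w * al Q1 Q2 v *
      Fz (fun l => lam ((g : ℤ) * l)) (M / g) (w * v) := by
  have hg0 : (0 : ℝ) < g := by exact_mod_cast hg
  have hg1 : (1 : ℝ) ≤ g := by exact_mod_cast hg
  have hgZ : ((g : ℕ) : ZI) ≠ 0 := by
    have : g ≠ 0 := by omega
    exact_mod_cast this
  have hMg : M / g ≤ M := div_le_self hM.le hg1
  have hMg0 : 0 < M / g := by positivity
  have hLg : L / g ≤ M / g := by gcongr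
  have hsub : bl (2 * (M / g) ^ 2) ⊆ bl (2 * M ^ 2) := bl_mono (by gcongr)
  have e1 : ∑ w ∈ bl (2 * (M / g) ^ 2), ∑ v ∈ bl (2 * (M / g) ^ 2), betG (cgp c g) M A1 A2 w * al Q1 Q2 v *
      Fz (fun l => lam ((g : ℤ) * l)) (M / g) (w * v) =
      ∑ w ∈ (bl (2 * (M / g) ^ 2)).filter (fun w => ct w = 1), ∑ v ∈ bl (2 * M ^ 2),
        betG (cgp c g) M A1 A2 w * al Q1 Q2 v * Fz (fun l => lam ((g : ℤ) * l)) (M / g) (w * v) := by
    rw [sum_filter]
    apply sum_congr rfl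
    intro w hw
    have hw' := (mem_bl _ _).1 hw
    split_ifs with h
    · apply sum_subset hsub
      intro v _ hv
      by_contra hne
      apply hv
      have h1 : Fz (fun l => lam ((g : ℤ) * l)) (M / g) (w * v) ≠ 0 := fun h => hne (by rw [h, mul_zero])
      have h2 := Fz_nz (Lm_scale hlam hg) hLg h1
      rw [nz_mul] at h2
      have h3 := nz_one_le hw'.1
      rw [mem_bl]
      refine ⟨?_, ?_⟩
      · rintro rfl
        apply hne
        unfold al
        rw [if_neg]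
        · ring
        · rintro ⟨h4, -⟩
          simp at h4
          exact Nat.not_prime_zero h4
      · have := nz_nonneg v
        nlinarith
    · apply sum_eq_zero
      intro v _
      rw [betG_ct h]
      ring
  rw [e1]
  symm
  apply sum_bij (fun w _ => ((g : ℕ) : ZI) * w)
  · intro w hw
    rw [mem_filter, mem_bl] at hw
    rw [mem_filter, mem_bl, nz_mul, nz_natCast, ct_nat_mul, hw.2, mul_one]
    refine ⟨⟨mul_ne_zero hgZ hw.1.1, ?_⟩, rfl⟩
    have h1 := hw.1.2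
    rw [div_pow, mul_div_assoc', le_div_iff₀ (by positivity)] at h1
    linarith
  · intro a _ b _ h
    exact mul_left_cancel₀ hgZ h
  · intro z hz
    rw [mem_filter, mem_bl] at hz
    obtain ⟨w, hw0, hw1, hw⟩ := Pool.Agent.N277.GN.ct_exists hz.1.1
    rw [hz.2] at hw
    refine ⟨w, ?_, hw⟩
    rw [mem_filter, mem_bl]
    refine ⟨⟨hw0, ?_⟩, hw1⟩
    have h1 := hz.1.2
    rw [← hw, nz_mul, nz_natCast] at h1
    rw [div_pow, mul_div_assoc', le_div_iff₀ (by positivity)]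
    linarith
  · intro w hw
    rw [mem_filter, mem_bl] at hw
    apply sum_congr rfl
    intro v _
    have hwM : nz w ≤ 2 * M ^ 2 := hw.1.2.trans (by gcongr)
    rw [bta_mul hg hgA hw.1.1 hw.2 hwM, mul_assoc ((g : ℕ) : ZI) w v, Fz_scale lam M hg]

open Classical in
/-- the part with large content -/
theorem part_big (hm : S_MUB) {c : ZI → ℝ} (hc : ∀ b, |c b| ≤ 1) {M L A1 A2 Q1 Q2 G : ℝ} {lam : ℤ → ℝ}
    (hlam : Lm L lam) (hL : 1 ≤ L) (hLM : L ≤ M) (hM : 3 ≤ M) (hQ : 2 * M ^ 2 < Q1 ^ 2) (hQ0 : 0 < Q1) (hG : 1 ≤ G) :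
    |∑ w ∈ (bl (2 * M ^ 2)).filter (fun w => ¬ (ct w : ℝ) ≤ G), ∑ v ∈ bl (2 * M ^ 2),
      bta c M A1 A2 w * al Q1 Q2 v * Fz lam M (w * v)| ≤ 24 * (L * M) / G := by
  have hM0 : 0 < M := by linarith
  have h1 := pair4 (few_al (Q2 := Q2) hM0 hQ hQ0)
    ((bl (2 * M ^ 2)).filter (fun w => ¬ (ct w : ℝ) ≤ G)) (bl (2 * M ^ 2))
    ((Bx L (-M) M).filter (fun z => G < (ct z : ℝ)))
    (fun z hz => by
      rw [mem_filter] at hz
      exact ⟨Bx_ne hz.1, Bx_nz hz.1 hLM (by rw [abs_neg, abs_of_pos hM0]) (by rw [abs_of_pos hM0])⟩)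
    (fun w v => bta c M A1 A2 w * al Q1 Q2 v * Fz lam M (w * v))
    (by
      intro w hw v _
      rw [mem_filter, mem_bl] at hw
      have h2 := bta_abs hm hc (A1 := A1) (A2 := A2) hM hw.1.1 hw.1.2
      have h3 : |Fz lam M (w * v)| ≤ 1 := by
        unfold Fz
        split_ifs
        · exact hlam.1 _
        · simp
      rw [abs_mul, abs_mul]
      have h4 := abs_nonneg (al Q1 Q2 v)
      calc |bta c M A1 A2 w| * |al Q1 Q2 v| * |Fz lam M (w * v)| ≤ 1 * |al Q1 Q2 v| * 1 := by gcongr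
        _ = _ := by ring)
    (by
      intro w hw v hv hne
      rw [mem_filter, mem_bl, not_le] at hw
      rw [mem_bl] at hv
      have h2 : Fz lam M (w * v) ≠ 0 := fun h => hne (by rw [h, mul_zero])
      rw [mem_filter, mem_Bx]
      refine ⟨?_, ?_⟩
      · unfold Fz at h2
        split_ifs at h2 with h4
        · obtain ⟨h5, h6⟩ := Lm_ne hlam h2
          exact ⟨h5, h6, (abs_le.1 h4).1, (abs_le.1 h4).2⟩
        · exact absurd rfl h2
      · refine lt_of_lt_of_le hw.2 ?_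
        have hwv : w * v ≠ 0 := mul_ne_zero hw.1.1 hv.1
        have h5 : ct w ∣ ct (w * v) := by
          rw [← Pool.Agent.N864.GN.MB.dvd_ct]
          exact ((Pool.Agent.N864.GN.MB.dvd_ct (ct w) w).2 (dvd_refl _)).trans (dvd_mul_right _ _)
        exact_mod_cast Nat.le_of_dvd (Pool.Agent.N864.GN.MB.ct_pos hwv) h5)
  refine h1.trans ?_
  have h2 := card_ct hL hLM hG
  calc 4 * (((Bx L (-M) M).filter (fun z => G < (ct z : ℝ))).card : ℝ) ≤ 4 * (6 * (L * M) / G) := by gcongr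
    _ = 24 * (L * M) / G := by ring

open Classical in
/-- **the bilinear sums for a general coefficient** -/
theorem bilG {δ : ℝ} (hδ : 0 < δ) (hδ1 : δ ≤ 1) (A : ℕ) : ∀ᶠ M : ℝ in atTop, ∀ L : ℝ, M ^ δ ≤ L →
    L ≤ M ^ (1 - δ) → ∀ c : ZI → ℝ, (∀ b, |c b| ≤ 1) → CHa c M (δ / 128) (6000 * (A + 1)) (6000 * (A + 1)) →
    ∀ lam : ℤ → ℝ, Lm L lam →
    |∑ w ∈ bl (2 * M ^ 2), ∑ v ∈ bl (2 * M ^ 2), bta c M (M ^ (δ / 128)) (M ^ (5 * (δ / 128) / 4)) w *
      al (M ^ (1 + δ / 4)) (M ^ (1 + δ / 2)) v * Fz lam M (w * v)| ≤ L * M / (Real.log M) ^ A := by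
  set τ := δ / 128 with hτd
  have hτ : 0 < τ := by positivity
  have h1 := ii2x c_tg2x (show 0 < δ / 4 by positivity) (by linarith) (A + 1)
  rw [show 98 * (A + 1) + 323 = 98 * A + 421 by ring, show 21 * (A + 1) + 69 = 21 * A + 90 by ring] at h1
  obtain ⟨X0, h1⟩ := eventually_atTop.1 h1
  have h2 := sbG c_mub c_el c_ft (ps c_mub c_vau c_e c_pc) hτ (ε := δ / 16) (by linarith) (by linarith)
    (98 * A + 421) (21 * A + 90)
  have h3 := chp_of_cha (τ := τ) (2 * (98 * A + 421) + 4 * (21 * A + 90) + 9) (21 * A + 90) (A + 2)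
  have d1 : ∀ᶠ M : ℝ in atTop, max X0 3 ≤ M ^ (1 / 2 : ℝ) := (tendsto_rpow_atTop (by norm_num)).eventually_ge_atTop _
  have d2 := logpow (A + 2) (show 0 < τ / 2 by positivity) one_pos
  have d3 : ∀ᶠ M : ℝ in atTop, max 72 (6 * 2 ^ (A + 1)) ≤ Real.log M := Real.tendsto_log_atTop.eventually_ge_atTop _
  have d4 : ∀ᶠ M : ℝ in atTop, (3 : ℝ) ≤ M ^ (δ / 4) := (tendsto_rpow_atTop (by positivity)).eventually_ge_atTop _
  have d5 : ∀ᶠ M : ℝ in atTop, (2 : ℝ) ≤ M ^ (τ / 2) := (tendsto_rpow_atTop (by positivity)).eventually_ge_atTop _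
  filter_upwards [h2, h3, d1, d2, d3, d4, d5, eventually_ge_atTop 3] with M h2 h3 d1 d2 d3 d4 d5 hM3
  intro L hL1 hL2 c hc hch lam hlam
  have hM0 : 0 < M := by linarith
  have hM1 : 1 ≤ M := by linarith
  rw [one_mul] at d2
  set y := Real.log M with hy
  have d3a : 72 ≤ y := (le_max_left _ _).trans d3
  have d3b : 6 * 2 ^ (A + 1) ≤ y := (le_max_right _ _).trans d3
  have hy0 : 0 < y := by linarith
  have hy1 : 1 ≤ y := by linarith
  have hpw : ∀ s t : ℝ, s ≤ t → M ^ s ≤ M ^ t := fun s t hst => Real.rpow_le_rpow_of_exponent_le hM1 hst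
  set G := y ^ (A + 2) with hG
  have hG1 : 1 ≤ G := one_le_pow₀ hy1
  have hGM : G ≤ M ^ (τ / 2) := d2
  have hL1' : 1 ≤ L := (Real.one_le_rpow hM1 hδ.le).trans hL1
  have hL0 : 0 < L := by linarith
  have hLM4 : L ≤ M ^ (1 - δ / 4) := hL2.trans (hpw _ _ (by linarith))
  have hLM : L ≤ M := by
    refine hL2.trans ?_
    calc M ^ (1 - δ) ≤ M ^ (1 : ℝ) := hpw _ _ (by linarith)
      _ = M := Real.rpow_one M
  have hQ0 : 0 < M ^ (1 + δ / 4) := by positivity
  have hQ : 2 * M ^ 2 < (M ^ (1 + δ / 4)) ^ 2 := by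
    have e1 : M ^ (1 + δ / 4) = M * M ^ (δ / 4) := by rw [Real.rpow_add hM0, Real.rpow_one]
    rw [e1, mul_pow]
    have : (2 : ℝ) < (M ^ (δ / 4)) ^ 2 := by nlinarith
    have : 0 < M ^ 2 := by positivity
    nlinarith
  set A1 := M ^ τ with hA1
  set A2 := M ^ (5 * τ / 4) with hA2
  set Q1 := M ^ (1 + δ / 4) with hQ1
  set Q2 := M ^ (1 + δ / 2) with hQ2
  have hGA : G < A1 := by
    refine lt_of_le_of_lt hGM ?_
    apply Real.rpow_lt_rpow_of_exponent_lt (by linarith)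
    linarith
  set f : ZI → ℝ := fun w => ∑ v ∈ bl (2 * M ^ 2), bta c M A1 A2 w * al Q1 Q2 v * Fz lam M (w * v) with hf
  -- each content
  have hpart : ∀ g : ℕ, 1 ≤ g → (g : ℝ) ≤ G →
      |∑ w ∈ (bl (2 * M ^ 2)).filter (fun w => ct w = g), f w| ≤ L * M * 2 ^ (A + 1) / y ^ (A + 1) * (1 / (g : ℝ) ^ 2) := by
    intro g hg hgG
    have hg0 : (0 : ℝ) < g := by exact_mod_cast hg
    have hg1 : (1 : ℝ) ≤ g := by exact_mod_cast hg
    have hgM : (g : ℝ) ≤ M ^ (τ / 2) := hgG.trans hGM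
    rw [hf]
    simp only
    rw [part_g hlam hLM hM0 hg (lt_of_le_of_lt hgG hGA)]
    set Mg := M / g with hMg
    have hMg1 : M ^ (1 / 2 : ℝ) ≤ Mg := by
      rw [hMg, le_div_iff₀ hg0]
      calc M ^ (1 / 2 : ℝ) * g ≤ M ^ (1 / 2 : ℝ) * M ^ (τ / 2) := by gcongr
        _ = M ^ (1 / 2 + τ / 2) := by rw [← Real.rpow_add hM0]
        _ ≤ M ^ (1 : ℝ) := hpw _ _ (by linarith)
        _ = M := Real.rpow_one M
    have hMgX : X0 ≤ Mg := ((le_max_left _ _).trans d1).trans hMg1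
    have hMg3 : 3 ≤ Mg := ((le_max_right _ _).trans d1).trans hMg1
    have hMg0 : 0 < Mg := by linarith
    have hMgM : Mg ≤ M := div_le_self hM0.le hg1
    have hylog : y / 2 ≤ Real.log Mg := by
      have := Real.log_le_log (by positivity) hMg1
      rw [Real.log_rpow hM0] at this
      rw [hy]
      linarith
    have hylog2 : Real.log Mg ≤ y := Real.log_le_log hMg0 hMgM
    have hlMg : 1 ≤ Real.log Mg := one_le_log hMg3
    have hLg1 : 1 ≤ L / g := by
      rw [le_div_iff₀ hg0, one_mul]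
      calc (g : ℝ) ≤ M ^ (τ / 2) := hgM
        _ ≤ M ^ δ := hpw _ _ (by linarith)
        _ ≤ L := hL1
    have hLg2 : L / g ≤ Mg ^ (1 - δ / 4) := by
      rw [div_le_iff₀ hg0, hMg, Real.div_rpow hM0.le hg0.le]
      have e1 : (g : ℝ) ^ (1 - δ / 4) ≤ g := by
        calc (g : ℝ) ^ (1 - δ / 4) ≤ (g : ℝ) ^ (1 : ℝ) := Real.rpow_le_rpow_of_exponent_le hg1 (by linarith)
          _ = g := Real.rpow_one _
      have e2 : 0 < (g : ℝ) ^ (1 - δ / 4) := by positivity
      calc L ≤ M ^ (1 - δ / 4) := hLM4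
        _ = M ^ (1 - δ / 4) / (g : ℝ) ^ (1 - δ / 4) * (g : ℝ) ^ (1 - δ / 4) := by field_simp
        _ ≤ M ^ (1 - δ / 4) / (g : ℝ) ^ (1 - δ / 4) * g := by gcongr
    have hβ : Cf (cgp c g) := cgp_Cf hc g
    have hLMg : L / g / Mg = L / M := by
      rw [hMg]
      field_simp
    have hMLg : Mg / (L / g) = M / L := by
      rw [hMg]
      field_simp
    have key := h1 Mg hMgX (L / g) (betG (cgp c g) M A1 A2) (al Q1 Q2) (fun l => lam ((g : ℤ) * l)) hLg1 hLg2
      (betG_abs c_mub hβ hM3 _ _) (fun w hw => betG_ct hw)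
      (few_al hMg0 (by
        refine lt_of_le_of_lt ?_ hQ
        gcongr) hQ0)
      (by
        intro v hv
        obtain ⟨-, h4, h5⟩ := al_ne hv
        refine ⟨lt_of_le_of_lt ?_ h4, h5.trans ?_⟩
        · exact Real.rpow_le_rpow hMg0.le hMgM (by linarith)
        · have e1 : (g : ℝ) ^ 2 ≤ M ^ τ := by
            calc (g : ℝ) ^ 2 ≤ (M ^ (τ / 2)) ^ 2 := by gcongr
              _ = M ^ τ := by
                  rw [← Real.rpow_natCast, ← Real.rpow_mul hM0.le]
                  congr 1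
                  push_cast
                  ring
          have e2 : M ^ (1 - δ / 4) / g ≤ Mg ^ (1 - δ / 4) := by
            rw [hMg, Real.div_rpow hM0.le hg0.le]
            apply div_le_div_of_nonneg_left (by positivity) (by positivity)
            calc (g : ℝ) ^ (1 - δ / 4) ≤ (g : ℝ) ^ (1 : ℝ) := Real.rpow_le_rpow_of_exponent_le hg1 (by linarith)
              _ = g := Real.rpow_one _
          calc Q2 = M ^ (δ + (1 - δ / 4) - δ / 4) := by
                rw [hQ2]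
                congr 1
                ring
            _ ≤ M ^ (δ + (1 - δ / 4) - τ) := hpw _ _ (by linarith)
            _ = M ^ δ * M ^ (1 - δ / 4) / M ^ τ := by
                rw [Real.rpow_sub hM0, Real.rpow_add hM0]
            _ ≤ L * M ^ (1 - δ / 4) / (g : ℝ) ^ 2 := by gcongr
            _ = L / g * (M ^ (1 - δ / 4) / g) := by
                field_simp
            _ ≤ L / g * Mg ^ (1 - δ / 4) := by gcongr)
      (Lm_scale hlam hg)
      (by
        intro R _ hR1 hR2 q r Y1 Y2 hq hqB hY1 hY12 hY2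
        rw [hLMg]
        rw [hMLg] at hR1
        have s1 : (q : ℝ) ≤ y ^ (21 * A + 90) := hqB.trans (pow_le_pow_left₀ (by linarith) hylog2 _)
        have s2 : M / L * M ^ (δ / 16) ≤ R ^ 2 := by
          refine le_trans ?_ hR1
          apply mul_le_mul_of_nonneg_left _ (by positivity)
          calc M ^ (δ / 16) = (M ^ (1 / 2 : ℝ)) ^ (δ / 8) := by
                rw [← Real.rpow_mul hM0.le]
                congr 1
                ring
            _ ≤ Mg ^ (δ / 8) := Real.rpow_le_rpow (by positivity) hMg1 (by positivity)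
            _ = Mg ^ (δ / 4 / 2) := by
                congr 1
                ring
        have s3 := h2 (cgp c g) hβ
          (h3 c hc (CHa_mono hch (by omega) (by omega) hy1) g hg hgG) L R (L / M / (Real.log Mg) ^ (21 * A + 90))
          hL0 (hL2.trans (hpw _ _ (by linarith))) s2 (hR2.trans hMgM)
          (by
            apply div_le_div_of_nonneg_left (by positivity) (by positivity)
            exact pow_le_pow_left₀ (by linarith) hylog2 _)
          (div_le_self (by positivity) (one_le_pow₀ hlMg)) q r Y1 Y2 hq s1 hY1 hY12 hY2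
        refine s3.trans ?_
        apply div_le_div_of_nonneg_left (by positivity) (by positivity)
        exact pow_le_pow_left₀ (by linarith) hylog2 _)
    refine key.trans ?_
    have e1 : (y / 2) ^ (A + 1) ≤ (Real.log Mg) ^ (A + 1) := pow_le_pow_left₀ (by positivity) hylog _
    calc L / g * Mg / (Real.log Mg) ^ (A + 1) ≤ L / g * Mg / (y / 2) ^ (A + 1) := by gcongr
      _ = L * M * 2 ^ (A + 1) / y ^ (A + 1) * (1 / (g : ℝ) ^ 2) := by
          rw [hMg, div_pow]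
          field_simp
  have e1 : ∑ w ∈ bl (2 * M ^ 2), f w = ∑ w ∈ (bl (2 * M ^ 2)).filter (fun w => (ct w : ℝ) ≤ G), f w +
      ∑ w ∈ (bl (2 * M ^ 2)).filter (fun w => ¬ (ct w : ℝ) ≤ G), f w :=
    (sum_filter_add_sum_filter_not _ _ _).symm
  have e2 : ∑ w ∈ (bl (2 * M ^ 2)).filter (fun w => (ct w : ℝ) ≤ G), f w =
      ∑ g ∈ Icc 1 ⌊G⌋₊, ∑ w ∈ (bl (2 * M ^ 2)).filter (fun w => ct w = g), f w := by
    have h4 : ∀ w ∈ (bl (2 * M ^ 2)).filter (fun w => (ct w : ℝ) ≤ G), ct w ∈ Icc 1 ⌊G⌋₊ := by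
      intro w hw
      rw [mem_filter, mem_bl] at hw
      rw [mem_Icc]
      exact ⟨Pool.Agent.N864.GN.MB.ct_pos hw.1.1, Nat.le_floor hw.2⟩
    rw [← sum_fiberwise_of_maps_to h4]
    apply sum_congr rfl
    intro g hg
    apply sum_congr _ fun _ _ => rfl
    ext w
    rw [mem_filter, mem_filter, mem_filter]
    constructor
    · rintro ⟨⟨h5, -⟩, h6⟩
      exact ⟨h5, h6⟩
    · rintro ⟨h5, h6⟩
      refine ⟨⟨h5, ?_⟩, h6⟩
      rw [h6]
      exact (Nat.le_floor_iff (by linarith)).1 (mem_Icc.1 hg).2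
  have e3 : |∑ w ∈ bl (2 * M ^ 2), f w| ≤ L * M * 2 ^ (A + 1) / y ^ (A + 1) * 3 + 24 * (L * M) / G := by
    rw [e1]
    refine (abs_add_le _ _).trans (add_le_add ?_ (part_big c_mub hc hlam hL1' hLM hM3 hQ hQ0 hG1))
    rw [e2]
    refine (abs_sum_le_sum_abs _ _).trans ?_
    refine (sum_le_sum fun g hg => hpart g (mem_Icc.1 hg).1
      ((Nat.le_floor_iff (by linarith)).1 (mem_Icc.1 hg).2)).trans ?_
    rw [← mul_sum]
    apply mul_le_mul_of_nonneg_left _ (by positivity)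
    rw [← sum_filter_add_sum_filter_not (Icc 1 ⌊G⌋₊) (fun e : ℕ => (e : ℝ) ≤ 1)]
    have h5 := sum_sq_tail ⌊G⌋₊ (le_refl (1 : ℝ))
    have h6 : ∑ e ∈ (Icc 1 ⌊G⌋₊).filter (fun e : ℕ => (e : ℝ) ≤ 1), 1 / (e : ℝ) ^ 2 ≤ 1 := by
      have h7 : (Icc 1 ⌊G⌋₊).filter (fun e : ℕ => (e : ℝ) ≤ 1) ⊆ {1} := by
        intro e he
        rw [mem_filter, mem_Icc] at he
        rw [mem_singleton]
        have : e ≤ 1 := by exact_mod_cast he.2
        omega
      refine (sum_le_sum_of_subset_of_nonneg h7 fun _ _ _ => by positivity).trans ?_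
      simp
    linarith
  refine e3.trans ?_
  have p1 : L * M * 2 ^ (A + 1) / y ^ (A + 1) * 3 ≤ L * M / y ^ A / 2 := by
    rw [pow_succ y A, div_div, div_mul_eq_mul_div, div_le_div_iff₀ (by positivity) (by positivity)]
    have : 0 ≤ L * M * y ^ A := by positivity
    nlinarith
  have p2 : 24 * (L * M) / G ≤ L * M / y ^ A / 2 := by
    rw [hG, pow_add, div_div, div_le_div_iff₀ (by positivity) (by positivity)]
    have h5 : 0 ≤ L * M * y ^ A := by positivity
    have h6 : 48 ≤ y ^ 2 := by nlinarith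
    nlinarith
  linarith

end Pool.Agent.J4.H69
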