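import Pool.Agent.J4.H69.GCe

/-!
# The Möbius function in all residue classes
-/

set_option autoImplicit false

namespace Pool.Agent.J4.H69

open Finset Filter Topology
open Pool.Agent.N782.GN
open Pool.Agent.N855.GN (Dv mem_Dv logpow nz_one_le one_le_log SA mem_SA SA_sum Rq Rq_unique card_Rq)
open Pool.Agent.N277.GN (ct_nat_mul abs_be_le card_bl nz_pos nz_natCast)
open Pool.Agent.H304R3.HK (UH bb LamK CS)

/-- coprimality depends only on the class -/
theorem cop_cls {t ρ q : ZI} (h : q ∣ t - ρ) (hρ : IsCoprime ρ q) : IsCoprime t q := by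
  obtain ⟨k, hk⟩ := h
  obtain ⟨e, f, hef⟩ := hρ
  refine ⟨e, f - e * k, ?_⟩
  linear_combination hef + e * hk

theorem log_quot {M Z' τ0 : ℝ} {B : ℕ} (hM : 1 < M) (hτ0 : 0 < τ0) (hZ : M ^ (τ0 / 2) ≤ Z')
    (h1 : (1 / (τ0 / 2)) ^ (B + 1) ≤ Real.log M) : (Real.log M) ^ B ≤ (Real.log Z') ^ (B + 1) := by
  have hM0 : 0 < M := by linarith
  have hy0 : 0 < Real.log M := Real.log_pos hM
  set y := Real.log M with hy
  have hlZ : τ0 / 2 * y ≤ Real.log Z' := by
    rw [hy, ← Real.log_rpow hM0]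
    exact Real.log_le_log (by positivity) hZ
  have c1 : y ^ B ≤ (τ0 / 2 * y) ^ (B + 1) := by
    rw [mul_pow, pow_succ y B]
    have c2 : 1 ≤ (τ0 / 2) ^ (B + 1) * y := by
      have c3 : (τ0 / 2) ^ (B + 1) * (1 / (τ0 / 2)) ^ (B + 1) = 1 := by
        rw [← mul_pow]
        have : τ0 / 2 * (1 / (τ0 / 2)) = 1 := by field_simp
        rw [this, one_pow]
      rw [← c3]
      exact mul_le_mul_of_nonneg_left h1 (by positivity)
    calc y ^ B = y ^ B * 1 := (mul_one _).symm
      _ ≤ y ^ B * ((τ0 / 2) ^ (B + 1) * y) := mul_le_mul_of_nonneg_left c2 (by positivity)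
      _ = _ := by ring
  exact c1.trans (pow_le_pow_left₀ (by positivity) hlZ _)

/-- the Möbius function in all classes -/
theorem mucl (hm : S_MUB) (hp : S_PC) {τ0 : ℝ} (hτ0 : 0 < τ0) (A B : ℕ) : ∀ᶠ M : ℝ in atTop,
    ∀ (Z : ℝ) (q : ℕ) (r : ZI), M ^ τ0 ≤ Z → 1 ≤ q → (q : ℝ) ≤ (Real.log M) ^ B →
      |∑ t ∈ cls q r Z, mu t| ≤ Z / (Real.log M) ^ A := by
  classical
  obtain ⟨C, hC, hp⟩ := hp (A + 2 * B + 1) (B + 1) 0
  have d1 : ∀ᶠ M : ℝ in atTop, max (C / (τ0 / 2) ^ (A + 2 * B + 1)) ((1 / (τ0 / 2)) ^ (B + 1)) ≤ Real.log M :=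
    Real.tendsto_log_atTop.eventually_ge_atTop _
  have d2 := logpow (2 * B) (show (0 : ℝ) < τ0 / 2 by positivity) one_pos
  have d3 : ∀ᶠ M : ℝ in atTop, (2 : ℝ) ≤ M ^ (τ0 / 2) := (tendsto_rpow_atTop (by positivity)).eventually_ge_atTop _
  filter_upwards [d1, d2, d3, eventually_ge_atTop 3] with M d1 d2 d3 hM3
  intro Z q r hZ hq hqB
  have hM0 : 0 < M := by linarith
  have hM1 : 1 ≤ M := by linarith
  rw [one_mul] at d2
  set y := Real.log M with hy
  have hy1 : 1 ≤ y := one_le_log hM3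
  have hy0 : 0 < y := by linarith
  have d1a := (le_max_left _ _).trans d1
  have d1b := (le_max_right _ _).trans d1
  have hq0 : ((q : ℕ) : ZI) ≠ 0 := by
    have : q ≠ 0 := by omega
    exact_mod_cast this
  -- the common divisor
  set h := EuclideanDomain.gcd r ((q : ℕ) : ZI) with hh
  have hr : h ∣ r := EuclideanDomain.gcd_dvd_left _ _
  have hqd : h ∣ ((q : ℕ) : ZI) := EuclideanDomain.gcd_dvd_right _ _
  have hbez := EuclideanDomain.gcd_eq_gcd_ab r ((q : ℕ) : ZI)
  rw [← hh] at hbez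
  set x := EuclideanDomain.gcdA r ((q : ℕ) : ZI) with hx
  set x' := EuclideanDomain.gcdB r ((q : ℕ) : ZI) with hx'
  obtain ⟨r', hr'⟩ := hr
  obtain ⟨q', hq'⟩ := hqd
  have hh0 : h ≠ 0 := by
    intro h0
    rw [h0, zero_mul] at hq'
    exact hq0 hq'
  have hq'0 : q' ≠ 0 := by
    rintro rfl
    rw [mul_zero] at hq'
    exact hq0 hq'
  have hcop : IsCoprime r' q' := by
    refine ⟨x, x', ?_⟩
    have e1 : h * (x * r' + x' * q') = h * 1 := by
      rw [mul_one]
      calc h * (x * r' + x' * q') = (h * r') * x + (h * q') * x' := by ring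
        _ = r * x + ((q : ℕ) : ZI) * x' := by rw [← hr', ← hq']
        _ = h := hbez.symm
    exact mul_left_cancel₀ hh0 e1
  have hhp := nz_pos hh0
  set Z' := Z / nz h with hZ'
  have hZ0 : 0 < Z := lt_of_lt_of_le (by positivity) hZ
  have hnzh : nz h ≤ M ^ (τ0 / 2) := by
    have e1 : nz ((q : ℕ) : ZI) = nz h * nz q' := by rw [hq', nz_mul]
    have e2 := nz_one_le hq'0
    rw [nz_natCast] at e1
    calc nz h = nz h * 1 := (mul_one _).symm
      _ ≤ nz h * nz q' := mul_le_mul_of_nonneg_left e2 hhp.le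
      _ = (q : ℝ) ^ 2 := e1.symm
      _ ≤ (y ^ B) ^ 2 := pow_le_pow_left₀ (Nat.cast_nonneg _) hqB 2
      _ = y ^ (2 * B) := by rw [← pow_mul, mul_comm B 2]
      _ ≤ _ := d2
  have hZ'1 : M ^ (τ0 / 2) ≤ Z' := by
    rw [hZ', le_div_iff₀ hhp]
    calc M ^ (τ0 / 2) * nz h ≤ M ^ (τ0 / 2) * M ^ (τ0 / 2) := by gcongr
      _ = M ^ τ0 := by
          rw [← Real.rpow_add hM0]
          congr 1
          ring
      _ ≤ Z := hZ
  have hZ'2 : 2 ≤ Z' := d3.trans hZ'1
  have hlZ : τ0 / 2 * y ≤ Real.log Z' := by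
    rw [hy, ← Real.log_rpow hM0]
    exact Real.log_le_log (by positivity) hZ'1
  have hqZ : (q : ℝ) ≤ (Real.log Z') ^ (B + 1) := hqB.trans (log_quot (by linarith) hτ0 hZ'1 d1b)
  -- coprime classes
  have hcl : ∀ ρ : ZI, IsCoprime ρ ((q : ℕ) : ZI) → |∑ t ∈ cls q ρ Z', mu t| ≤ Z / y ^ (A + 2 * B) := by
    intro ρ hρ
    have h1 := hp Z' q ρ 0 hZ'2 hq hqZ hρ (by simp)
    have h2 : ∑ t ∈ cls q ρ Z', (mu t : ℂ) * ph 0 0 t = ((∑ t ∈ cls q ρ Z', mu t : ℝ) : ℂ) := by
      push_cast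
      refine sum_congr rfl fun t _ => ?_
      have : ph 0 0 t = 1 := by
        unfold ph
        simp
      rw [this, mul_one]
    rw [h2, Complex.norm_real, Real.norm_eq_abs] at h1
    refine h1.trans ?_
    have h3 : (τ0 / 2 * y) ^ (A + 2 * B + 1) ≤ (Real.log Z') ^ (A + 2 * B + 1) := pow_le_pow_left₀ (by positivity) hlZ _
    have h4 : Z' ≤ Z := div_le_self hZ0.le (nz_one_le hh0)
    calc C * Z' / (Real.log Z') ^ (A + 2 * B + 1) ≤ C * Z / (τ0 / 2 * y) ^ (A + 2 * B + 1) := by gcongr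
      _ = C / (τ0 / 2) ^ (A + 2 * B + 1) / y * (Z / y ^ (A + 2 * B)) := by
          rw [mul_pow, pow_succ y]
          field_simp
      _ ≤ 1 * (Z / y ^ (A + 2 * B)) := by
          apply mul_le_mul_of_nonneg_right _ (by positivity)
          rw [div_le_one hy0]
          exact d1a
      _ = _ := one_mul _
  -- the sum over the multiples of `h`
  have e1 : ∑ t ∈ cls q r Z, mu t = ∑ t ∈ (bl Z').filter (fun t => ((q : ℕ) : ZI) ∣ h * t - r), mu (h * t) := by
    symm
    apply sum_bij (fun t _ => h * t)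
    · intro t ht
      rw [mem_filter, mem_bl, hZ', le_div_iff₀ hhp] at ht
      rw [mem_cls, nz_mul]
      refine ⟨mul_ne_zero hh0 ht.1.1, by linarith [ht.1.2], ht.2⟩
    · intro a _ b _ hab
      exact mul_left_cancel₀ hh0 hab
    · intro t ht
      rw [mem_cls] at ht
      obtain ⟨ht0, htZ, htq⟩ := ht
      have h2 : h ∣ t := by
        have h3 : h ∣ t - r := (Dvd.intro _ hq'.symm).trans htq
        have h4 := dvd_add h3 (Dvd.intro _ hr'.symm)
        rwa [sub_add_cancel] at h4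
      obtain ⟨s, rfl⟩ := h2
      refine ⟨s, ?_, rfl⟩
      rw [mem_filter, mem_bl, hZ', le_div_iff₀ hhp]
      rw [nz_mul] at htZ
      exact ⟨⟨right_ne_zero_of_mul ht0, by linarith⟩, htq⟩
    · intro t _
      rfl
  have e2 : ∑ t ∈ (bl Z').filter (fun t => ((q : ℕ) : ZI) ∣ h * t - r), mu (h * t) =
      ∑ ρ ∈ Rq q, (if ((q : ℕ) : ZI) ∣ h * ρ - r ∧ IsCoprime ρ ((q : ℕ) : ZI) then mu h else 0) *
        ∑ t ∈ cls q ρ Z', mu t := by
    rw [sum_filter, cls_split hq]
    apply sum_congr rfl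
    intro ρ _
    rw [mul_sum]
    apply sum_congr rfl
    intro t ht
    rw [mem_cls] at ht
    obtain ⟨ht0, -, htρ⟩ := ht
    have htρ' : ((q : ℕ) : ZI) ∣ ρ - t := by
      have := dvd_neg.2 htρ
      rwa [neg_sub] at this
    have hiff1 : ((q : ℕ) : ZI) ∣ h * t - r ↔ ((q : ℕ) : ZI) ∣ h * ρ - r := by
      constructor
      · intro h1
        have := dvd_add h1 (htρ'.mul_left h)
        rwa [show h * t - r + h * (ρ - t) = h * ρ - r by ring] at this
      · intro h1
        have := dvd_add h1 (htρ.mul_left h)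
        rwa [show h * ρ - r + h * (t - ρ) = h * t - r by ring] at this
    by_cases h1 : ((q : ℕ) : ZI) ∣ h * t - r
    · rw [if_pos h1]
      by_cases h2 : IsCoprime ρ ((q : ℕ) : ZI)
      · rw [if_pos ⟨hiff1.1 h1, h2⟩]
        have h3 : IsCoprime t ((q : ℕ) : ZI) := cop_cls htρ h2
        have h4 : IsCoprime h t := by
          rw [hq'] at h3
          exact (IsCoprime.of_mul_right_left h3).symm
        exact hm.1 h t h4
      · rw [if_neg (fun h' => h2 h'.2), zero_mul]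
        apply hm.2.1 h t hh0 ht0
        intro h4
        apply h2
        -- `t` is coprime to `q' ` and to `h`
        have h5 : q' ∣ t - r' := by
          rw [hq', hr', ← mul_sub] at h1
          exact (mul_dvd_mul_iff_left hh0).1 h1
        have h6 : IsCoprime t q' := cop_cls h5 hcop
        have h7 : IsCoprime t ((q : ℕ) : ZI) := by
          rw [hq']
          exact IsCoprime.mul_right h4.symm h6
        exact cop_cls htρ' h7
    · rw [if_neg h1, if_neg (fun h' => h1 (hiff1.2 h'.1)), zero_mul]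
  rw [e1, e2]
  refine (abs_sum_le_sum_abs _ _).trans ?_
  have h3 : ∀ ρ ∈ Rq q, |(if ((q : ℕ) : ZI) ∣ h * ρ - r ∧ IsCoprime ρ ((q : ℕ) : ZI) then mu h else 0) *
      ∑ t ∈ cls q ρ Z', mu t| ≤ Z / y ^ (A + 2 * B) := by
    intro ρ _
    split_ifs with h4
    · rw [abs_mul]
      calc |mu h| * |∑ t ∈ cls q ρ Z', mu t| ≤ 1 * |∑ t ∈ cls q ρ Z', mu t| :=
            mul_le_mul_of_nonneg_right (abs_mu_le h) (abs_nonneg _)
        _ = |∑ t ∈ cls q ρ Z', mu t| := one_mul _
        _ ≤ _ := hcl ρ h4.2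
    · rw [zero_mul, abs_zero]
      positivity
  refine (sum_le_sum h3).trans ?_
  rw [sum_const, nsmul_eq_mul]
  have h5 : ((Rq q).card : ℝ) ≤ y ^ (2 * B) := by
    calc ((Rq q).card : ℝ) ≤ (q : ℝ) ^ 2 := by exact_mod_cast card_Rq q
      _ ≤ (y ^ B) ^ 2 := pow_le_pow_left₀ (Nat.cast_nonneg _) hqB 2
      _ = y ^ (2 * B) := by rw [← pow_mul, mul_comm B 2]
  calc ((Rq q).card : ℝ) * (Z / y ^ (A + 2 * B)) ≤ y ^ (2 * B) * (Z / y ^ (A + 2 * B)) :=
        mul_le_mul_of_nonneg_right h5 (by positivity)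
    _ = Z / y ^ A := by
        rw [pow_add]
        field_simp

/-- `μ(t) log N(t)` in all classes -/
theorem mulog (hm : S_MUB) (hp : S_PC) {τ0 : ℝ} (hτ0 : 0 < τ0) (A B : ℕ) : ∀ᶠ M : ℝ in atTop,
    ∀ (V Z : ℝ) (q : ℕ) (r : ZI), M ^ τ0 ≤ V → V ≤ M ^ 2 → Z ≤ V → 1 ≤ q → (q : ℝ) ≤ (Real.log M) ^ B →
      |∑ t ∈ cls q r Z, mu t * Real.log (nz t)| ≤ V / (Real.log M) ^ A := by
  classical
  have h1 := mucl hm hp (show (0 : ℝ) < τ0 / 2 by positivity) (A + 2) B
  have d1 := logpow (A + 2) (show (0 : ℝ) < τ0 / 2 by positivity) (show (0 : ℝ) < 1 / 9 by norm_num)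
  have d2 : ∀ᶠ M : ℝ in atTop, (4 : ℝ) ≤ Real.log M := Real.tendsto_log_atTop.eventually_ge_atTop _
  filter_upwards [h1, d1, d2, eventually_ge_atTop 3] with M h1 d1 d2 hM3
  intro V Z q r hV hVM hZV hq hqB
  have hM0 : 0 < M := by linarith
  have hM1 : 1 ≤ M := by linarith
  set y := Real.log M with hy
  have hy0 : 0 < y := by linarith
  have hV0 : 0 < V := lt_of_lt_of_le (by positivity) hV
  rcases lt_or_ge Z 1 with hZ | hZ
  · have : cls q r Z = ∅ := by
      rw [eq_empty_iff_forall_notMem]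
      intro t ht
      rw [mem_cls] at ht
      have := nz_one_le ht.1
      linarith
    rw [this, sum_empty, abs_zero]
    positivity
  have hE : ∀ Z' : ℝ, Z' ≤ Z → ‖∑ u ∈ cls q r Z', (mu u : ℂ)‖ ≤ V / y ^ (A + 2) := by
    intro Z' hZ'
    have e1 : ∑ u ∈ cls q r Z', (mu u : ℂ) = ((∑ u ∈ cls q r Z', mu u : ℝ) : ℂ) := by push_cast; rfl
    rw [e1, Complex.norm_real, Real.norm_eq_abs]
    rcases le_or_gt (M ^ (τ0 / 2)) Z' with h2 | h2
    · refine (h1 Z' q r h2 hq hqB).trans ?_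
      apply div_le_div_of_nonneg_right (hZ'.trans hZV) (by positivity)
    · rcases lt_or_ge Z' 1 with h3 | h3
      · have : cls q r Z' = ∅ := by
          rw [eq_empty_iff_forall_notMem]
          intro t ht
          rw [mem_cls] at ht
          have := nz_one_le ht.1
          linarith
        rw [this, sum_empty, abs_zero]
        positivity
      · refine (abs_sum_le_sum_abs _ _).trans ((sum_le_sum fun t _ => abs_mu_le t).trans ?_)
        rw [sum_const, nsmul_eq_mul, mul_one]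
        have h4 : ((cls q r Z').card : ℝ) ≤ 9 * Z' := by
          refine le_trans ?_ (card_bl Z' h3)
          exact_mod_cast card_le_card (cls_sub q r Z')
        refine h4.trans ?_
        rw [le_div_iff₀ (by positivity)]
        calc 9 * Z' * y ^ (A + 2) ≤ 9 * M ^ (τ0 / 2) * (1 / 9 * M ^ (τ0 / 2)) := by gcongr
          _ = M ^ (τ0 / 2) * M ^ (τ0 / 2) := by ring
          _ = M ^ τ0 := by
              rw [← Real.rpow_add hM0]
              congr 1
              ring
          _ ≤ V := hV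
  have key := abel (q := q) (r := r) hZ (fun u => (mu u : ℂ)) hE
  have e1 : ∑ u ∈ cls q r Z, (Real.log (nz u) : ℂ) * (mu u : ℂ) =
      ((∑ t ∈ cls q r Z, mu t * Real.log (nz t) : ℝ) : ℂ) := by
    push_cast
    apply sum_congr rfl
    intro t _
    ring
  rw [e1, Complex.norm_real, Real.norm_eq_abs] at key
  refine key.trans ?_
  have e2 : Real.log Z ≤ 2 * y := by
    have := Real.log_le_log (by linarith) (hZV.trans hVM)
    rw [Real.log_pow] at this
    push_cast at this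
    exact this
  calc 2 * (V / y ^ (A + 2)) * Real.log Z ≤ 2 * (V / y ^ (A + 2)) * (2 * y) := by gcongr
    _ = V / y ^ A * (4 * y / y ^ 2) := by
        rw [pow_add]
        field_simp
        ring
    _ ≤ V / y ^ A * 1 := by
        apply mul_le_mul_of_nonneg_left _ (by positivity)
        rw [div_le_one (by positivity)]
        nlinarith
    _ = _ := mul_one _

end Pool.Agent.J4.H69
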