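import Pool.Agent.J4.H69.GCe
import Pool.Agent.N855.GN.Tools

/-!
# Moments of the divisor function of `ℤ[i]`
-/

set_option autoImplicit false

namespace Pool.Agent.J4.H69

open Finset Filter Topology
open Pool.Agent.N782.GN
open Pool.Agent.N855.GN (Dv mem_Dv logpow nz_one_le one_le_log SA mem_SA SA_sum Rq Rq_unique card_Rq grp2 dv_card dv_one_le
  sum_inv_nz)
open Pool.Agent.N277.GN (ct_nat_mul abs_be_le card_bl nz_pos nz_natCast)

theorem dv_mul_le {a b : ZI} (ha : a ≠ 0) (hb : b ≠ 0) : dv (a * b) ≤ dv a * dv b := by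
  classical
  rw [dv_card, dv_card, dv_card, ← card_product]
  have h1 : Dv (a * b) ⊆ (Dv a ×ˢ Dv b).image (fun p : ZI × ZI => p.1 * p.2) := by
    intro d hd
    rw [mem_Dv (mul_ne_zero ha hb)] at hd
    obtain ⟨d1, d2, h1, h2, h3⟩ := exists_dvd_and_dvd_of_dvd_mul hd
    rw [mem_image]
    refine ⟨(d1, d2), ?_, h3.symm⟩
    rw [mem_product, mem_Dv ha, mem_Dv hb]
    exact ⟨h1, h2⟩
  exact (card_le_card h1).trans card_image_le

theorem sum_dv (V : ℝ) (H : ZI → ℝ) (hH : ∀ m, m ∉ bl V → H m = 0) :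
    ∑ n ∈ bl V, (dv n : ℝ) * H n = ∑ d ∈ bl V, ∑ e ∈ bl V, H (d * e) := by
  have h1 := grp2 V (fun _ => (1 : ℝ)) H hH
  simp only [one_mul, sum_const, nsmul_eq_mul, mul_one] at h1
  exact h1

/-- logarithmic moments -/
theorem momlog (k : ℕ) {V : ℝ} (hV : 3 ≤ V) :
    ∑ n ∈ bl V, (dv n : ℝ) ^ k / nz n ≤ (48 * (Real.log V) ^ 2) ^ (2 ^ k) := by
  classical
  induction k with
  | zero =>
    simp only [pow_zero, pow_one]
    exact sum_inv_nz hV
  | succ k ih =>
    set H : ZI → ℝ := fun n => if n ∈ bl V then (dv n : ℝ) ^ k / nz n else 0 with hH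
    have h1 : ∑ n ∈ bl V, (dv n : ℝ) ^ (k + 1) / nz n = ∑ n ∈ bl V, (dv n : ℝ) * H n := by
      apply sum_congr rfl
      intro n hn
      rw [hH]
      simp only
      rw [if_pos hn, pow_succ]
      ring
    rw [h1, sum_dv V H (fun m hm => by rw [hH]; simp only; rw [if_neg hm])]
    have h2 : ∀ d ∈ bl V, ∀ e ∈ bl V, H (d * e) ≤ ((dv d : ℝ) ^ k / nz d) * ((dv e : ℝ) ^ k / nz e) := by
      intro d hd e he
      have hd' := (mem_bl _ _).1 hd
      have he' := (mem_bl _ _).1 he
      have p1 := nz_pos hd'.1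
      have p2 := nz_pos he'.1
      rw [hH]
      simp only
      split_ifs with h
      · rw [nz_mul, div_mul_div_comm, ← mul_pow]
        apply div_le_div_of_nonneg_right _ (by positivity)
        apply pow_le_pow_left₀ (Nat.cast_nonneg _)
        exact_mod_cast dv_mul_le hd'.1 he'.1
      · positivity
    refine (sum_le_sum fun d hd => sum_le_sum fun e he => h2 d hd e he).trans ?_
    rw [← sum_mul_sum, pow_succ 2 k, pow_mul, sq ((48 * (Real.log V) ^ 2) ^ (2 ^ k))]
    have h3 : 0 ≤ ∑ n ∈ bl V, (dv n : ℝ) ^ k / nz n :=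
      sum_nonneg fun n _ => div_nonneg (by positivity) (nz_nonneg n)
    exact mul_le_mul ih ih h3 (by positivity)

/-- **moments** -/
theorem mom (k : ℕ) {V : ℝ} (hV : 3 ≤ V) : ∀ V' : ℝ, 1 ≤ V' → V' ≤ V →
    ∑ n ∈ bl V', (dv n : ℝ) ^ k ≤ 9 * V' * (48 * (Real.log V) ^ 2) ^ (2 ^ k) := by
  classical
  set T := 48 * (Real.log V) ^ 2 with hT
  have hl := one_le_log hV
  have hT1 : 1 ≤ T := by rw [hT]; nlinarith
  induction k with
  | zero =>
    intro V' h1 h2
    simp only [pow_zero, sum_const, nsmul_eq_mul, mul_one, pow_one]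
    have h3 := card_bl V' h1
    nlinarith
  | succ k ih =>
    intro V' h1 h2
    set H : ZI → ℝ := fun n => if n ∈ bl V' then (dv n : ℝ) ^ k else 0 with hH
    have e1 : ∑ n ∈ bl V', (dv n : ℝ) ^ (k + 1) = ∑ n ∈ bl V', (dv n : ℝ) * H n := by
      apply sum_congr rfl
      intro n hn
      rw [hH]
      simp only
      rw [if_pos hn, pow_succ]
      ring
    rw [e1, sum_dv V' H (fun m hm => by rw [hH]; simp only; rw [if_neg hm])]
    have e2 : ∀ d ∈ bl V', ∑ e ∈ bl V', H (d * e) ≤ (dv d : ℝ) ^ k / nz d * (9 * V' * T ^ (2 ^ k)) := by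
      intro d hd
      have hd' := (mem_bl _ _).1 hd
      have p1 := nz_pos hd'.1
      have p3 := nz_one_le hd'.1
      have f1 : ∑ e ∈ bl V', H (d * e) ≤ ∑ e ∈ bl (V' / nz d), (dv d : ℝ) ^ k * (dv e : ℝ) ^ k := by
        have hsub : bl (V' / nz d) ⊆ bl V' := bl_mono (div_le_self (by linarith) p3)
        rw [← sum_subset hsub (f := fun e => H (d * e))]
        · apply sum_le_sum
          intro e he
          have he' := (mem_bl _ _).1 he
          rw [hH]
          simp only
          split_ifs with h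
          · rw [← mul_pow]
            apply pow_le_pow_left₀ (Nat.cast_nonneg _)
            exact_mod_cast dv_mul_le hd'.1 he'.1
          · positivity
        · intro e he he'
          have h3 := (mem_bl _ _).1 he
          rw [hH]
          simp only
          rw [if_neg]
          intro h
          apply he'
          rw [mem_bl, nz_mul] at h
          rw [mem_bl, le_div_iff₀ p1]
          exact ⟨h3.1, by linarith [h.2]⟩
      refine f1.trans ?_
      rw [← mul_sum]
      have f2 := ih (V' / nz d) (by rw [le_div_iff₀ p1]; linarith [hd'.2]) ((div_le_self (by linarith) p3).trans h2)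
      calc (dv d : ℝ) ^ k * ∑ e ∈ bl (V' / nz d), (dv e : ℝ) ^ k
          ≤ (dv d : ℝ) ^ k * (9 * (V' / nz d) * T ^ (2 ^ k)) := by gcongr
        _ = (dv d : ℝ) ^ k / nz d * (9 * V' * T ^ (2 ^ k)) := by ring
    refine (sum_le_sum e2).trans ?_
    rw [← sum_mul]
    have e3 : ∑ d ∈ bl V', (dv d : ℝ) ^ k / nz d ≤ T ^ (2 ^ k) := by
      refine le_trans ?_ (momlog k hV)
      apply sum_le_sum_of_subset_of_nonneg (bl_mono h2)
      intro n _ _
      exact div_nonneg (by positivity) (nz_nonneg n)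
    calc (∑ d ∈ bl V', (dv d : ℝ) ^ k / nz d) * (9 * V' * T ^ (2 ^ k)) ≤ T ^ (2 ^ k) * (9 * V' * T ^ (2 ^ k)) := by
          gcongr
      _ = 9 * V' * T ^ (2 ^ (k + 1)) := by
          rw [pow_succ 2 k, pow_mul]
          ring

end Pool.Agent.J4.H69
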