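import Pool.Agent.J4.H69.LFa
import Pool.Agent.J4.H69.MOM

/-!
# The function `Λ - Λ_D` in all residue classes
-/

set_option autoImplicit false

namespace Pool.Agent.J4.H69

open Finset Filter Topology
open Pool.Agent.N782.GN
open Pool.Agent.N855.GN (Dv mem_Dv logpow nz_one_le one_le_log SA mem_SA SA_sum Rq Rq_unique card_Rq bg mem_bg grp2
  As As_ge As_le As_succ As_mono Jx card_Jx sh sh_nonneg)
open Pool.Agent.N277.GN (ct_nat_mul abs_be_le card_bl nz_pos nz_natCast)
open Pool.Agent.H304R3.HK (UH bb LamK CS)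

/-- the short divisor sum -/
noncomputable def sl (D : ℝ) (z : ZI) : ℝ := ∑ d ∈ (Dv z).filter (fun d => nz d ≤ D), mu d * Real.log (nz d)

/-- the difference of `Λ` and its model -/
noncomputable def LF (D : ℝ) (z : ZI) : ℝ := LamK z + 1 / 4 * sl D z

/-- `μ(d) log N(d)` for `N(d) > D` -/
noncomputable def xs (D : ℝ) (d : ZI) : ℝ := if D < nz d then mu d * Real.log (nz d) else 0

theorem lam_id {z : ZI} (hz : z ≠ 0) : LamK z = -(1 / 4) * ∑ d ∈ Dv z, mu d * Real.log (nz d) := by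
  classical
  have hz1 := nz_one_le hz
  have h1 := hyp_real c_mub c_vau (fun t => if t = z then (1 : ℝ) else 0) (nz z) hz1 (by
    rw [if_neg hz.symm]) (by
    intro t ht
    rw [if_neg]
    rintro rfl
    exact lt_irrefl _ ht)
  have hzm : z ∈ bl (nz z) := (mem_bl _ _).2 ⟨hz, le_rfl⟩
  have e1 : ∑ t ∈ bl (nz z), LamK t * (if t = z then (1 : ℝ) else 0) = LamK z := by
    rw [sum_eq_single z]
    · rw [if_pos rfl, mul_one]
    · intro t _ ht
      rw [if_neg ht, mul_zero]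
    · intro h
      exact absurd hzm h
  have e2 : ∑ b ∈ bl (nz z), ∑ u ∈ bl (nz z), mu b * Real.log (nz u) * (if b * u = z then (1 : ℝ) else 0) =
      ∑ b ∈ Dv z, mu b * (Real.log (nz z) - Real.log (nz b)) := by
    have e3 : ∀ b ∈ bl (nz z), ∑ u ∈ bl (nz z), mu b * Real.log (nz u) * (if b * u = z then (1 : ℝ) else 0) =
        if b ∣ z then mu b * (Real.log (nz z) - Real.log (nz b)) else 0 := by
      intro b hb
      have hb0 := ((mem_bl _ _).1 hb).1
      by_cases hbz : b ∣ z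
      · rw [if_pos hbz]
        obtain ⟨u0, hu0⟩ := hbz
        have hu00 : u0 ≠ 0 := by
          rintro rfl
          rw [mul_zero] at hu0
          exact hz hu0
        have hn : nz z = nz b * nz u0 := by rw [hu0, nz_mul]
        have hb1 := nz_one_le hb0
        have hu1 := nz_one_le hu00
        rw [sum_eq_single u0]
        · rw [if_pos hu0.symm, mul_one, hn, Real.log_mul (by linarith) (by linarith)]
          ring
        · intro u _ hu
          rw [if_neg, mul_zero]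
          intro h
          apply hu
          rw [hu0] at h
          exact mul_left_cancel₀ hb0 h
        · intro h
          exfalso
          apply h
          rw [mem_bl]
          refine ⟨hu00, ?_⟩
          rw [hn]
          nlinarith
      · rw [if_neg hbz]
        apply sum_eq_zero
        intro u _
        rw [if_neg, mul_zero]
        intro h
        exact hbz ⟨u, h.symm⟩
    rw [sum_congr rfl e3, ← sum_filter]
    rfl
  rw [e1, e2] at h1
  rw [h1]
  have e4 : ∑ b ∈ Dv z, mu b * (Real.log (nz z) - Real.log (nz b)) =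
      Real.log (nz z) * (∑ b ∈ Dv z, mu b) - ∑ d ∈ Dv z, mu d * Real.log (nz d) := by
    rw [mul_sum, ← sum_sub_distrib]
    apply sum_congr rfl
    intro b _
    ring
  have e5 : Real.log (nz z) * (∑ b ∈ Dv z, mu b) = 0 := by
    have h2 : ∑ b ∈ Dv z, mu b = if IsUnit z then 4 else 0 := c_mub.2.2.2.1 z hz
    rw [h2]
    split_ifs with h3
    · rw [Pool.Agent.N855.GN.nz_unit h3, Real.log_one, zero_mul]
    · rw [mul_zero]
  rw [e4, e5]
  ring

theorem LF_eq (D : ℝ) {z : ZI} (hz : z ≠ 0) : LF D z = -(1 / 4) * ∑ d ∈ Dv z, xs D d := by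
  classical
  unfold LF
  rw [lam_id hz]
  have e1 : ∑ d ∈ Dv z, mu d * Real.log (nz d) = sl D z + ∑ d ∈ Dv z, xs D d := by
    unfold sl xs
    rw [← sum_filter_add_sum_filter_not (Dv z) (fun d => nz d ≤ D)]
    congr 1
    rw [← sum_filter]
    apply sum_congr _ fun _ _ => rfl
    ext d
    rw [mem_filter, mem_filter, not_le]
  rw [e1]
  ring

/-- the cells -/
theorem cell_eq {q : ℕ} {r : ZI} {I : ℕ} {w W V η Y1 Y2 : ℝ} (x z : ZI → ℝ) (hw : 1 ≤ w) (hwW : w ≤ W) (hη : 0 ≤ η)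
    (hY2 : 0 ≤ Y2) (hYV : Y2 ≤ V) :
    ∑ a ∈ bg w W, ∑ b ∈ bl V, x a * z b * Pool.Agent.N855.GN.Wt q r I w W η Y1 Y2 a b =
      ∑ p ∈ Jx q r I, (∑ a ∈ SA q p.2.1 (As w W η p.1) (As w W η (p.1 + 1)), x a) *
        ∑ b ∈ SA q p.2.2 (Y1 / As w W η p.1) (Y2 / As w W η p.1), z b := by
  classical
  have h1 : ∀ p ∈ Jx q r I, (∑ a ∈ SA q p.2.1 (As w W η p.1) (As w W η (p.1 + 1)), x a) *
        (∑ b ∈ SA q p.2.2 (Y1 / As w W η p.1) (Y2 / As w W η p.1), z b) = ∑ a ∈ bg w W, ∑ b ∈ bl V,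
      x a * z b *
        (if a ∈ SA q p.2.1 (As w W η p.1) (As w W η (p.1 + 1)) ∧
          b ∈ SA q p.2.2 (Y1 / As w W η p.1) (Y2 / As w W η p.1) then 1 else 0) := by
    intro p _
    have hA : w ≤ As w W η p.1 := As_ge hwW (by linarith) hη p.1
    have hs1 : SA q p.2.1 (As w W η p.1) (As w W η (p.1 + 1)) ⊆ bg w W := by
      intro a ha
      rw [mem_SA] at ha
      rw [mem_bg]
      exact ⟨ha.1, ha.2.1.trans (As_le _ _ _ _), lt_of_le_of_lt hA ha.2.2.2⟩
    have hs2 : SA q p.2.2 (Y1 / As w W η p.1) (Y2 / As w W η p.1) ⊆ bl V := by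
      intro m hm
      rw [mem_SA] at hm
      rw [mem_bl]
      exact ⟨hm.1, hm.2.1.trans ((div_le_self hY2 (hw.trans hA)).trans hYV)⟩
    rw [sum_mul_sum, ← sum_subset hs1 (f := fun a => ∑ b ∈ bl V, x a * z b *
        (if a ∈ SA q p.2.1 (As w W η p.1) (As w W η (p.1 + 1)) ∧
          b ∈ SA q p.2.2 (Y1 / As w W η p.1) (Y2 / As w W η p.1) then 1 else 0))]
    · refine sum_congr rfl fun a ha => ?_
      rw [← sum_subset hs2 (f := fun b => x a * z b *
        (if a ∈ SA q p.2.1 (As w W η p.1) (As w W η (p.1 + 1)) ∧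
          b ∈ SA q p.2.2 (Y1 / As w W η p.1) (Y2 / As w W η p.1) then 1 else 0))]
      · refine sum_congr rfl fun b hb => ?_
        rw [if_pos ⟨ha, hb⟩, mul_one]
      · intro b _ hb
        rw [if_neg fun h => hb h.2, mul_zero]
    · intro a _ ha
      refine sum_eq_zero fun b _ => ?_
      rw [if_neg fun h => ha h.1, mul_zero]
  symm
  rw [sum_congr rfl h1, sum_comm]
  refine sum_congr rfl fun a _ => ?_
  rw [sum_comm]
  refine sum_congr rfl fun b _ => ?_
  rw [← mul_sum]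
  rfl

/-- the error of the separation of the variables -/
theorem cell_err {q : ℕ} (hq : 1 ≤ q) {r : ZI} {I : ℕ} {w V η Y F : ℝ} (f : ZI → ℝ) (hw : 1 ≤ w) (hwV : w ≤ V)
    (hη : 0 ≤ η) (hη1 : η ≤ 1) (hI : V ≤ w * (1 + η) ^ I) (hY : 0 ≤ Y) (hYV : Y ≤ V) (hF : ∀ d ∈ bg w V, |f d| ≤ F)
    (hF0 : 0 ≤ F) :
    |∑ a ∈ bg w V, ∑ b ∈ bl V, f a * (chi q r 0 Y (a * b) - Pool.Agent.N855.GN.Wt q r I w V η 0 Y a b)| ≤
      F * (Real.sqrt (∑ t ∈ bl (2 * V), (dv t : ℝ) ^ 2) * Real.sqrt (∑ t ∈ bl (2 * V), (sh η 0 Y (nz t)) ^ 2)) := by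
  classical
  set H : ZI → ℝ := fun t => if t ∈ bl (2 * V) then sh η 0 Y (nz t) else 0 with hH
  have hV0 : 0 ≤ V := hY.trans hYV
  have hHn : ∀ t, 0 ≤ H t := by
    intro t
    rw [hH]
    simp only
    split_ifs
    · exact sh_nonneg _ _ _ _
    · exact le_rfl
  have h1 : ∀ a ∈ bg w V, ∀ b ∈ bl V, |f a * (chi q r 0 Y (a * b) - Pool.Agent.N855.GN.Wt q r I w V η 0 Y a b)| ≤
      F * H (a * b) := by
    intro a ha b hb
    have hb0 := ((mem_bl _ _).1 hb).1
    have h2 := chi_err hq (r := r) (Y1 := 0) (Y2 := Y) hw hwV hη hI ha hb0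
    rw [abs_mul]
    apply mul_le_mul (hF a ha) _ (abs_nonneg _) hF0
    refine h2.trans ?_
    rw [hH]
    simp only
    split_ifs with h3
    · exact le_rfl
    · apply le_of_eq
      unfold sh
      have hab : a * b ≠ 0 := mul_ne_zero (mem_bg.1 ha).1 hb0
      have h4 : 2 * V < nz (a * b) := by
        by_contra h5
        exact h3 ((mem_bl _ _).2 ⟨hab, not_lt.1 h5⟩)
      rw [if_neg, if_neg, add_zero]
      · rintro ⟨-, h6⟩
        nlinarith
      · rintro ⟨-, h6⟩
        linarith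
  have h2 : |∑ a ∈ bg w V, ∑ b ∈ bl V, f a * (chi q r 0 Y (a * b) - Pool.Agent.N855.GN.Wt q r I w V η 0 Y a b)| ≤
      F * ∑ a ∈ bl (2 * V), ∑ b ∈ bl (2 * V), H (a * b) := by
    refine (abs_sum_le_sum_abs _ _).trans ?_
    rw [mul_sum]
    have hs1 : bg w V ⊆ bl (2 * V) := bg_sub (by linarith)
    have hs2 : bl V ⊆ bl (2 * V) := bl_mono (by linarith)
    refine le_trans (sum_le_sum fun a ha => ?_) (sum_le_sum_of_subset_of_nonneg hs1 fun a _ _ =>
      mul_nonneg hF0 (sum_nonneg fun b _ => hHn _))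
    refine (abs_sum_le_sum_abs _ _).trans ?_
    rw [mul_sum]
    refine le_trans (sum_le_sum fun b hb => h1 a ha b hb) (sum_le_sum_of_subset_of_nonneg hs2 fun b _ _ =>
      mul_nonneg hF0 (hHn _))
  refine h2.trans ?_
  apply mul_le_mul_of_nonneg_left _ hF0
  rw [← sum_dv (2 * V) H (fun m hm => by rw [hH]; simp only; rw [if_neg hm])]
  have h3 : ∑ n ∈ bl (2 * V), (dv n : ℝ) * H n = ∑ n ∈ bl (2 * V), (dv n : ℝ) * sh η 0 Y (nz n) := by
    apply sum_congr rfl
    intro n hn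
    rw [hH]
    simp only
    rw [if_pos hn]
  rw [h3, ← Real.sqrt_mul (sum_nonneg fun _ _ => sq_nonneg _)]
  apply Real.le_sqrt_of_sq_le
  exact sum_mul_sq_le_sq_mul_sq _ _ _

/-- **the class sums** -/
theorem lf_cls {η0 : ℝ} (hη0 : 0 < η0) (A B : ℕ) : ∀ᶠ M : ℝ in atTop, ∀ (V Y : ℝ) (q : ℕ) (r : ZI), M ^ η0 ≤ V →
    V ≤ M ^ 2 → 0 ≤ Y → Y ≤ V → 1 ≤ q → (q : ℝ) ≤ (Real.log M) ^ B →
    |∑ t ∈ cls q r Y, LF (M ^ η0) t| ≤ V / (Real.log M) ^ A := by
  classical
  set e1 : ℕ := 2 * A + 14 with he1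
  set Am : ℕ := e1 + 1 + 4 * B + A + 1 with hAm
  have h1 := mulog c_mub c_pc hη0 Am B
  obtain ⟨C3, hC3, h3⟩ := sh_sum c_el
  have d1 := logpow e1 (show (0 : ℝ) < η0 / 2 by positivity) (show (0 : ℝ) < 1 / C3 by positivity)
  have d2 : ∀ᶠ M : ℝ in atTop, max 135 (Real.sqrt 18 * 432 ^ 2 * Real.sqrt 17) ≤ Real.log M :=
    Real.tendsto_log_atTop.eventually_ge_atTop _
  have d3 : ∀ᶠ M : ℝ in atTop, (2 : ℝ) ≤ M ^ η0 := (tendsto_rpow_atTop hη0).eventually_ge_atTop _
  filter_upwards [h1, d1, d2, d3, eventually_ge_atTop 8] with M h1 d1 d2 d3 hM8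
  intro V Y q r hV1 hV2 hY hYV hq hqB
  have hM0 : 0 < M := by linarith
  have hM1 : 1 ≤ M := by linarith
  set y := Real.log M with hy
  have d2a : 135 ≤ y := (le_max_left _ _).trans d2
  have d2b := (le_max_right _ _).trans d2
  have hy0 : 0 < y := by linarith
  have hy1 : 1 ≤ y := by linarith
  set D := M ^ η0 with hD
  have hD0 : 0 < D := by positivity
  have hD1 : 1 ≤ D := by linarith
  have hV0 : 0 < V := by linarith
  have hV21 : 2 ≤ V := by linarith
  -- the sum over pairs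
  set f : ZI → ℝ := fun d => mu d * Real.log (nz d) with hf
  have e0 : ∑ t ∈ cls q r Y, LF D t = -(1 / 4) * ∑ a ∈ bg D V, ∑ b ∈ bl V, f a * chi q r 0 Y (a * b) := by
    have hSA : SA q r 0 Y = cls q r Y := by
      unfold SA
      rw [filter_true_of_mem]
      intro t ht
      rw [mem_cls] at ht
      exact nz_pos ht.1
    have g1 : ∑ t ∈ cls q r Y, LF D t = ∑ t ∈ bl V, -(1 / 4) * ((∑ d ∈ Dv t, xs D d) * chi q r 0 Y t) := by
      rw [← hSA, ← sum_subset (SA_sub hYV) (f := fun t => -(1 / 4) * ((∑ d ∈ Dv t, xs D d) * chi q r 0 Y t))]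
      · apply sum_congr rfl
        intro t ht
        have ht0 := (mem_SA.1 ht).1
        rw [LF_eq D ht0]
        unfold chi
        rw [if_pos ht, mul_one]
      · intro t _ ht
        unfold chi
        rw [if_neg ht]
        ring
    rw [g1, ← mul_sum]
    congr 1
    rw [grp2 V (xs D) (chi q r 0 Y) (by
      intro m hm
      unfold chi
      rw [if_neg fun h => hm (SA_sub hYV h)])]
    rw [← sum_subset (bg_sub (le_refl V)) (f := fun a => ∑ b ∈ bl V, xs D a * chi q r 0 Y (a * b))]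
    · apply sum_congr rfl
      intro a ha
      apply sum_congr rfl
      intro b _
      unfold xs
      rw [if_pos (mem_bg.1 ha).2.2]
    · intro a ha ha'
      apply sum_eq_zero
      intro b _
      unfold xs
      rw [if_neg, zero_mul]
      intro h
      have := (mem_bl _ _).1 ha
      exact ha' (mem_bg.2 ⟨this.1, this.2, h⟩)
  -- the cells
  set η : ℝ := 1 / y ^ e1 with hη
  have hye : 1 ≤ y ^ e1 := one_le_pow₀ hy1
  have hηp : 0 < η := by positivity
  have hη1 : η ≤ 1 := by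
    rw [hη, div_le_one (by positivity)]
    exact hye
  set I : ℕ := ⌈4 * y ^ (e1 + 1)⌉₊ with hI
  have hI1 : 4 * y ^ (e1 + 1) ≤ I := Nat.le_ceil _
  have hI2 : (I : ℝ) ≤ 5 * y ^ (e1 + 1) := by
    have := Nat.ceil_lt_add_one (show 0 ≤ 4 * y ^ (e1 + 1) by positivity)
    have h4 : 1 ≤ y ^ (e1 + 1) := one_le_pow₀ hy1
    linarith
  have hIA : V ≤ D * (1 + η) ^ I := by
    have g1 : 2 * y ≤ I * Real.log (1 + η) := by
      have g2 : η / 2 ≤ Real.log (1 + η) := by
        have g3 := Real.one_sub_inv_le_log_of_pos (show 0 < 1 + η by linarith)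
        refine le_trans ?_ g3
        have g4 : 1 - (1 + η)⁻¹ = η / (1 + η) := by
          field_simp
          ring
        rw [g4]
        apply div_le_div_of_nonneg_left hηp.le (by linarith) (by linarith)
      calc 2 * y = 4 * y ^ (e1 + 1) * (η / 2) := by
            rw [hη, pow_succ]
            field_simp
            norm_num
        _ ≤ I * Real.log (1 + η) := mul_le_mul hI1 g2 (by positivity) (Nat.cast_nonneg _)
    have g2 : M ^ 2 ≤ (1 + η) ^ I := by
      rw [← Real.exp_log (show 0 < M ^ 2 by positivity), ← Real.exp_log (show 0 < (1 + η) ^ I by positivity),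
        Real.log_pow, Real.log_pow]
      apply Real.exp_le_exp.2
      push_cast
      exact g1
    calc V ≤ M ^ 2 := hV2
      _ ≤ (1 + η) ^ I := g2
      _ = 1 * (1 + η) ^ I := (one_mul _).symm
      _ ≤ D * (1 + η) ^ I := mul_le_mul_of_nonneg_right hD1 (by positivity)
  have hJ : ((Jx q r I).card : ℝ) ≤ 5 * y ^ (e1 + 1 + 4 * B) := by
    have g1 : ((Jx q r I).card : ℝ) ≤ (I : ℝ) * (q : ℝ) ^ 4 := by exact_mod_cast card_Jx q r I
    have g2 : (q : ℝ) ^ 4 ≤ y ^ (4 * B) := by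
      rw [mul_comm, pow_mul]
      exact pow_le_pow_left₀ (Nat.cast_nonneg _) hqB 4
    calc ((Jx q r I).card : ℝ) ≤ (I : ℝ) * (q : ℝ) ^ 4 := g1
      _ ≤ (5 * y ^ (e1 + 1)) * y ^ (4 * B) := mul_le_mul hI2 g2 (by positivity) (by positivity)
      _ = 5 * y ^ (e1 + 1 + 4 * B) := by rw [pow_add y (e1 + 1)]; ring
  -- the main part
  have p1 : |∑ a ∈ bg D V, ∑ b ∈ bl V, f a * Pool.Agent.N855.GN.Wt q r I D V η 0 Y a b| ≤ V / y ^ A := by
    have g1 := cell_eq (q := q) (r := r) (I := I) (Y1 := 0) f (fun _ => 1) hD1 hV1 hηp.le hY hYV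
    simp only [mul_one] at g1
    rw [g1]
    refine (abs_sum_le_sum_abs _ _).trans ?_
    have g2 : ∀ p ∈ Jx q r I, |(∑ a ∈ SA q p.2.1 (As D V η p.1) (As D V η (p.1 + 1)), f a) *
        ∑ _b ∈ SA q p.2.2 (0 / As D V η p.1) (Y / As D V η p.1), (1 : ℝ)| ≤ 27 * V / y ^ Am := by
      intro p _
      set a0 := As D V η p.1 with ha0
      have ha1 : D ≤ a0 := As_ge hV1 hD0.le hηp.le p.1
      have ha2 : a0 ≤ V := As_le _ _ _ _
      have ha00 : 0 < a0 := by linarith
      have ha3 : As D V η (p.1 + 1) ≤ 2 * a0 := by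
        have := As_succ (w := D) (V := V) hV0.le hηp.le p.1
        rw [← ha0] at this
        nlinarith
      have ha4 : As D V η (p.1 + 1) ≤ V := As_le _ _ _ _
      have hmono : a0 ≤ As D V η (p.1 + 1) := As_mono hD0.le hηp.le (Nat.le_succ p.1)
      have k1 : |∑ a ∈ SA q p.2.1 a0 (As D V η (p.1 + 1)), f a| ≤ 3 * a0 / y ^ Am := by
        rw [SA_sum hmono]
        have k2 := h1 a0 a0 q p.2.1 ha1 (ha2.trans hV2) le_rfl hq hqB
        have k3 := h1 (As D V η (p.1 + 1)) (As D V η (p.1 + 1)) q p.2.1 (ha1.trans hmono) (ha4.trans hV2) le_rfl hq hqB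
        have k4 : As D V η (p.1 + 1) / y ^ Am ≤ 2 * a0 / y ^ Am := by gcongr
        have k5 : 3 * a0 / y ^ Am = 2 * a0 / y ^ Am + a0 / y ^ Am := by ring
        rw [k5]
        exact (abs_sub _ _).trans (add_le_add (k3.trans k4) k2)
      have k2 : |∑ _b ∈ SA q p.2.2 (0 / a0) (Y / a0), (1 : ℝ)| ≤ 9 * (V / a0) := by
        rw [sum_const, nsmul_eq_mul, mul_one, abs_of_nonneg (Nat.cast_nonneg _)]
        have k3 : (1 : ℝ) ≤ V / a0 := by
          rw [le_div_iff₀ ha00]
          linarith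
        refine le_trans ?_ (card_bl _ k3)
        exact_mod_cast card_le_card (SA_sub (div_le_div_of_nonneg_right hYV ha00.le))
      rw [abs_mul]
      calc |∑ a ∈ SA q p.2.1 a0 (As D V η (p.1 + 1)), f a| * |∑ _b ∈ SA q p.2.2 (0 / a0) (Y / a0), (1 : ℝ)|
          ≤ 3 * a0 / y ^ Am * (9 * (V / a0)) := mul_le_mul k1 k2 (abs_nonneg _) (by positivity)
        _ = 27 * V / y ^ Am := by
            field_simp
            ring
    refine (sum_le_sum g2).trans ?_
    rw [sum_const, nsmul_eq_mul]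
    calc ((Jx q r I).card : ℝ) * (27 * V / y ^ Am) ≤ 5 * y ^ (e1 + 1 + 4 * B) * (27 * V / y ^ Am) := by gcongr
      _ = V / y ^ A * (135 / y) := by
          rw [hAm, show e1 + 1 + 4 * B + A + 1 = (e1 + 1 + 4 * B) + (A + 1) by ring, pow_add y (e1 + 1 + 4 * B),
            pow_succ y A]
          field_simp
          norm_num
      _ ≤ V / y ^ A * 1 := by
          apply mul_le_mul_of_nonneg_left _ (by positivity)
          rw [div_le_one hy0]
          exact d2a
      _ = _ := mul_one _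
  -- the error
  have p2 : |∑ a ∈ bg D V, ∑ b ∈ bl V, f a * (chi q r 0 Y (a * b) - Pool.Agent.N855.GN.Wt q r I D V η 0 Y a b)| ≤
      2 * V / y ^ A := by
    have hfF : ∀ d ∈ bg D V, |f d| ≤ 2 * y := by
      intro d hd
      rw [mem_bg] at hd
      have g1 := nz_one_le hd.1
      have g2 : Real.log (nz d) ≤ 2 * y := by
        have := Real.log_le_log (by linarith) (hd.2.1.trans hV2)
        rw [Real.log_pow] at this
        push_cast at this
        exact this
      have g3 := Real.log_nonneg g1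
      rw [hf]
      simp only
      rw [abs_mul, abs_of_nonneg g3]
      calc |mu d| * Real.log (nz d) ≤ 1 * Real.log (nz d) := mul_le_mul_of_nonneg_right (abs_mu_le d) g3
        _ ≤ 2 * y := by linarith
    refine (cell_err hq f hD1 hV1 hηp.le hη1 hIA hY hYV hfF (by positivity)).trans ?_
    have g1 : ∑ t ∈ bl (2 * V), (dv t : ℝ) ^ 2 ≤ 18 * V * (432 * y ^ 2) ^ 4 := by
      have k1 := mom 2 (show (3 : ℝ) ≤ 2 * V by linarith) (2 * V) (by linarith) le_rfl
      refine k1.trans ?_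
      have k2 : Real.log (2 * V) ≤ 3 * y := by
        have k3 : 2 * V ≤ M ^ 3 := by nlinarith [sq_nonneg M]
        have := Real.log_le_log (by positivity) k3
        rw [Real.log_pow] at this
        push_cast at this
        exact this
      have k3 : 0 ≤ Real.log (2 * V) := Real.log_nonneg (by linarith)
      calc 9 * (2 * V) * (48 * (Real.log (2 * V)) ^ 2) ^ (2 ^ 2) ≤ 9 * (2 * V) * (48 * (3 * y) ^ 2) ^ (2 ^ 2) := by
            gcongr
        _ = 18 * V * (432 * y ^ 2) ^ 4 := by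
            norm_num
            ring
    have g2 : ∑ t ∈ bl (2 * V), (sh η 0 Y (nz t)) ^ 2 ≤ 17 * (η * V) := by
      have k1 := h3 V 0 Y η (by linarith) le_rfl hY hYV hηp.le hη1
      have k2 : C3 * Real.sqrt V ≤ η * V := by
        have hsV : M ^ (η0 / 2) ≤ Real.sqrt V := by
          apply Real.le_sqrt_of_sq_le
          refine le_trans (le_of_eq ?_) hV1
          rw [hD, ← Real.rpow_natCast, ← Real.rpow_mul hM0.le]
          congr 1
          push_cast
          ring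
        have k3 : C3 * y ^ e1 ≤ M ^ (η0 / 2) := by
          calc C3 * y ^ e1 ≤ C3 * (1 / C3 * M ^ (η0 / 2)) := mul_le_mul_of_nonneg_left d1 hC3.le
            _ = M ^ (η0 / 2) := by field_simp
        have k4 : C3 ≤ η * Real.sqrt V := by
          rw [hη, div_mul_eq_mul_div, one_mul, le_div_iff₀ (by positivity)]
          exact k3.trans hsV
        calc C3 * Real.sqrt V ≤ η * Real.sqrt V * Real.sqrt V := mul_le_mul_of_nonneg_right k4 (Real.sqrt_nonneg _)
          _ = η * V := by rw [mul_assoc, Real.mul_self_sqrt hV0.le]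
      linarith
    have g3 : Real.sqrt (∑ t ∈ bl (2 * V), (dv t : ℝ) ^ 2) ≤ Real.sqrt 18 * Real.sqrt V * (432 * y ^ 2) ^ 2 := by
      refine (Real.sqrt_le_sqrt g1).trans (le_of_eq ?_)
      rw [Real.sqrt_mul (by positivity), Real.sqrt_mul (by norm_num),
        show (432 * y ^ 2) ^ 4 = ((432 * y ^ 2) ^ 2) ^ 2 by ring, Real.sqrt_sq (by positivity)]
    have g4 : Real.sqrt (∑ t ∈ bl (2 * V), (sh η 0 Y (nz t)) ^ 2) ≤ Real.sqrt 17 * (Real.sqrt V / y ^ (A + 7)) := by
      refine (Real.sqrt_le_sqrt g2).trans (le_of_eq ?_)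
      rw [Real.sqrt_mul (by norm_num)]
      congr 1
      rw [hη, he1, show 1 / y ^ (2 * A + 14) * V = V / (y ^ (A + 7)) ^ 2 by
        rw [← pow_mul, show (A + 7) * 2 = 2 * A + 14 by ring]
        ring, Real.sqrt_div hV0.le, Real.sqrt_sq (by positivity)]
    calc 2 * y * (Real.sqrt (∑ t ∈ bl (2 * V), (dv t : ℝ) ^ 2) * Real.sqrt (∑ t ∈ bl (2 * V), (sh η 0 Y (nz t)) ^ 2))
        ≤ 2 * y * ((Real.sqrt 18 * Real.sqrt V * (432 * y ^ 2) ^ 2) * (Real.sqrt 17 * (Real.sqrt V / y ^ (A + 7)))) := by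
          gcongr
      _ = 2 * (Real.sqrt V * Real.sqrt V) / y ^ A * (Real.sqrt 18 * 432 ^ 2 * Real.sqrt 17 / y ^ 2) := by
          rw [pow_add y A 7]
          field_simp
      _ ≤ 2 * V / y ^ A * 1 := by
          rw [Real.mul_self_sqrt hV0.le]
          apply mul_le_mul_of_nonneg_left _ (by positivity)
          rw [div_le_one (by positivity)]
          nlinarith
      _ = _ := mul_one _
  have e2 : ∑ a ∈ bg D V, ∑ b ∈ bl V, f a * chi q r 0 Y (a * b) =
      ∑ a ∈ bg D V, ∑ b ∈ bl V, f a * Pool.Agent.N855.GN.Wt q r I D V η 0 Y a b +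
      ∑ a ∈ bg D V, ∑ b ∈ bl V, f a * (chi q r 0 Y (a * b) - Pool.Agent.N855.GN.Wt q r I D V η 0 Y a b) := by
    rw [← sum_add_distrib]
    apply sum_congr rfl
    intro a _
    rw [← sum_add_distrib]
    apply sum_congr rfl
    intro b _
    ring
  rw [e0, e2, abs_mul]
  have p3 := abs_add_le (∑ a ∈ bg D V, ∑ b ∈ bl V, f a * Pool.Agent.N855.GN.Wt q r I D V η 0 Y a b)
    (∑ a ∈ bg D V, ∑ b ∈ bl V, f a * (chi q r 0 Y (a * b) - Pool.Agent.N855.GN.Wt q r I D V η 0 Y a b))
  have e5 : |(-(1 / 4) : ℝ)| = 1 / 4 := by norm_num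
  rw [e5]
  have e6 : 2 * V / y ^ A = 2 * (V / y ^ A) := by ring
  rw [e6] at p2
  have e7 : 0 ≤ V / y ^ A := by positivity
  linarith

end Pool.Agent.J4.H69
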