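import Pool.Agent.J4.H69.LFb
import Pool.Agent.J4.H69.GCg

/-!
# The truncated function `Λ - Λ_D`
-/

set_option autoImplicit false

namespace Pool.Agent.J4.H69

open Finset Filter Topology
open Pool.Agent.N782.GN
open Pool.Agent.N855.GN (Dv mem_Dv logpow nz_one_le one_le_log SA mem_SA SA_sum Rq Rq_unique card_Rq bg mem_bg grp2
  dv_card)
open Pool.Agent.N277.GN (ct_nat_mul abs_be_le card_bl nz_pos nz_natCast)
open Pool.Agent.H304R3.HK (UH bb LamK CS)

/-- the number of the small divisors -/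
noncomputable def td (D : ℝ) (z : ZI) : ℝ := (((Dv z).filter (fun d => nz d ≤ D)).card : ℝ)

theorem td_nonneg (D : ℝ) (z : ZI) : 0 ≤ td D z := Nat.cast_nonneg _

theorem td_le_dv (D : ℝ) (z : ZI) : td D z ≤ dv z := by
  unfold td
  rw [dv_card]
  exact_mod_cast card_filter_le _ _

theorem one_le_td {D : ℝ} (hD : 1 ≤ D) {z : ZI} (hz : z ≠ 0) : 1 ≤ td D z := by
  unfold td
  have h1 : (1 : ZI) ∈ (Dv z).filter (fun d => nz d ≤ D) := by
    rw [mem_filter, mem_Dv hz]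
    refine ⟨one_dvd _, ?_⟩
    have : nz (1 : ZI) = 1 := Pool.Agent.N855.GN.nz_unit isUnit_one
    rw [this]
    exact hD
  exact_mod_cast card_pos.2 ⟨1, h1⟩

theorem td_mono {D : ℝ} {b z : ZI} (hz : z ≠ 0) (h : b ∣ z) : td D b ≤ td D z := by
  unfold td
  have hb : b ≠ 0 := by
    rintro rfl
    exact hz (zero_dvd_iff.1 h)
  apply Nat.cast_le.2
  apply card_le_card
  intro d hd
  rw [mem_filter, mem_Dv hb] at hd
  rw [mem_filter, mem_Dv hz]
  exact ⟨hd.1.trans h, hd.2⟩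

theorem sl_abs {D : ℝ} (hD : 1 ≤ D) (z : ZI) : |sl D z| ≤ Real.log D * td D z := by
  classical
  unfold sl td
  refine (abs_sum_le_sum_abs _ _).trans ?_
  have h1 : ∀ d ∈ (Dv z).filter (fun d => nz d ≤ D), |mu d * Real.log (nz d)| ≤ Real.log D := by
    intro d hd
    rw [mem_filter] at hd
    have h2 : d ≠ 0 := by
      have h3 : d ∈ bl (nz z) := by
        have h4 := hd.1
        unfold Dv at h4
        exact (mem_filter.1 h4).1
      exact ((mem_bl _ _).1 h3).1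
    have h3 := nz_one_le h2
    have h4 := Real.log_nonneg h3
    rw [abs_mul, abs_of_nonneg h4]
    calc |mu d| * Real.log (nz d) ≤ 1 * Real.log (nz d) := mul_le_mul_of_nonneg_right (abs_mu_le d) h4
      _ = Real.log (nz d) := one_mul _
      _ ≤ Real.log D := Real.log_le_log (by linarith) hd.2
  refine (sum_le_sum h1).trans ?_
  rw [sum_const, nsmul_eq_mul, mul_comm]

theorem LF_abs {D Y : ℝ} (hD : 1 ≤ D) (hDY : Real.log D ≤ Y) {z : ZI} (hz : z ≠ 0) (hY : Real.log (nz z) ≤ 3 * Y) :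
    |LF D z| ≤ 4 * Y * td D z := by
  have h1 := one_le_td hD hz
  have h2 := sl_abs hD z
  obtain ⟨h3, h4⟩ := Pool.Agent.N407.GN.LamK_bd hz
  have h5 : 0 ≤ Real.log D := Real.log_nonneg hD
  have h6 : Real.log D * td D z ≤ Y * td D z := mul_le_mul_of_nonneg_right hDY (td_nonneg D z)
  have hY0 : 0 ≤ Y := h5.trans hDY
  have h7 : 3 * Y ≤ 3 * Y * td D z := le_mul_of_one_le_right (by positivity) h1
  unfold LF
  have h8 : |LamK z + 1 / 4 * sl D z| ≤ |LamK z| + 1 / 4 * |sl D z| := by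
    refine (abs_add_le _ _).trans ?_
    rw [abs_mul, abs_of_pos (show (0 : ℝ) < 1 / 4 by norm_num)]
  have h9 : 0 ≤ Y * td D z := mul_nonneg hY0 (td_nonneg D z)
  have h4' : LamK z ≤ 3 * Y := h4.trans hY
  rw [abs_of_nonneg h3] at h8
  linarith

open Classical in
/-- the truncated coefficient -/
noncomputable def ctr (M D T : ℝ) (b : ZI) : ℝ :=
  if b ≠ 0 ∧ nz b ≤ 2 * M ^ 2 ∧ td D b ≤ T then LF D b / (4 * T * Real.log M) else 0

theorem log3 {M : ℝ} (hM : 3 ≤ M) {z : ZI} (hz : z ≠ 0) (h : nz z ≤ 2 * M ^ 2) :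
    Real.log (nz z) ≤ 3 * Real.log M := by
  have e1 := Real.log_le_log (nz_pos hz) h
  have e2 : Real.log (2 * M ^ 2) ≤ Real.log (M ^ 3) := by
    apply Real.log_le_log (by positivity)
    nlinarith [sq_nonneg M]
  rw [Real.log_pow] at e2
  push_cast at e2
  linarith

theorem ctr_abs {M D T : ℝ} (hM : 3 ≤ M) (hD : 1 ≤ D) (hDM : D ≤ M) (hT : 1 ≤ T) (b : ZI) : |ctr M D T b| ≤ 1 := by
  have hy := one_le_log hM
  unfold ctr
  split_ifs with h
  · have h1 := LF_abs hD (Real.log_le_log (by linarith) hDM) h.1 (log3 hM h.1 h.2.1)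
    rw [abs_div, abs_of_pos (show 0 < 4 * T * Real.log M by positivity), div_le_one (by positivity)]
    refine h1.trans ?_
    have := mul_le_mul_of_nonneg_left h.2.2 (show 0 ≤ 4 * Real.log M by positivity)
    linarith
  · simp

theorem ctr_err {M D T : ℝ} (hM : 3 ≤ M) (hD : 1 ≤ D) (hDM : D ≤ M) (hT : 1 ≤ T) {b : ZI} (hb : b ≠ 0)
    (hbM : nz b ≤ 2 * M ^ 2) (k : ℕ) :
    |LF D b - 4 * T * Real.log M * ctr M D T b| ≤ 4 * Real.log M * (td D b ^ (k + 1) / T ^ k) := by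
  have hy := one_le_log hM
  have h0 := td_nonneg D b
  unfold ctr
  by_cases h : td D b ≤ T
  · rw [if_pos ⟨hb, hbM, h⟩]
    have : LF D b - 4 * T * Real.log M * (LF D b / (4 * T * Real.log M)) = 0 := by
      field_simp
      ring
    rw [this, abs_zero]
    positivity
  · rw [if_neg (fun h' => h h'.2.2), mul_zero, sub_zero]
    have h1 := LF_abs hD (Real.log_le_log (by linarith) hDM) hb (log3 hM hb hbM)
    refine h1.trans ?_
    apply mul_le_mul_of_nonneg_left _ (by positivity)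
    rw [le_div_iff₀ (by positivity), pow_succ, mul_comm]
    apply mul_le_mul_of_nonneg_right _ h0
    exact pow_le_pow_left₀ (by linarith) (not_le.1 h).le k

/-- **the class sums of the truncated function** -/
theorem ctr_cha (κ A E0 : ℕ) {η0 τ : ℝ} (hη0 : 0 < η0) (hητ : η0 ≤ 2 * τ) (hη1 : η0 ≤ 1) : ∃ E : ℕ, E0 ≤ E ∧ ∀ᶠ M : ℝ in atTop,
    CHa (ctr M (M ^ η0) ((Real.log M) ^ E)) M τ (κ * (A + E + 4)) (κ * (A + E + 4)) := by
  classical
  obtain ⟨k, hk⟩ : ∃ k : ℕ, k = κ + 1 := ⟨_, rfl⟩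
  obtain ⟨P, hP⟩ : ∃ P : ℕ, P = 2 ^ (k + 1) := ⟨_, rfl⟩
  obtain ⟨E, hE⟩ : ∃ E : ℕ, E = E0 + κ * (A + 4) + 2 + 2 * P := ⟨_, rfl⟩
  refine ⟨E, by omega, ?_⟩
  obtain ⟨A', hA'⟩ : ∃ A' : ℕ, A' = κ * (A + E + 4) := ⟨_, rfl⟩
  rw [← hA']
  have hkE : A' + 2 + 2 * P ≤ k * E := by
    rw [hk, hA', add_mul, one_mul]
    have : κ * (A + E + 4) = κ * E + κ * (A + 4) := by ring
    omega
  have h1 := lf_cls hη0 A' A'
  have d1 : ∀ᶠ M : ℝ in atTop, 108 * (192 : ℝ) ^ P ≤ Real.log M := Real.tendsto_log_atTop.eventually_ge_atTop _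
  have d2 : ∀ᶠ M : ℝ in atTop, (3 : ℝ) ≤ M ^ η0 := (tendsto_rpow_atTop hη0).eventually_ge_atTop _
  filter_upwards [h1, d1, d2, eventually_ge_atTop 3] with M h1 d1 d2 hM3
  intro V Y q r hV1 hV2 hY hYV hq hqB
  have hM0 : 0 < M := by linarith
  have hM1 : 1 ≤ M := by linarith
  set y := Real.log M with hy
  have hy1 : 1 ≤ y := one_le_log hM3
  have hy0 : 0 < y := by linarith
  set D := M ^ η0 with hD
  have hD1 : 1 ≤ D := by linarith
  have hDM : D ≤ M := by
    calc M ^ η0 ≤ M ^ (1 : ℝ) := Real.rpow_le_rpow_of_exponent_le hM1 hη1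
      _ = M := Real.rpow_one M
  set T := y ^ E with hT
  have hT1 : 1 ≤ T := one_le_pow₀ hy1
  have hV3 : D ≤ V := (Real.rpow_le_rpow_of_exponent_le hM1 hητ).trans hV1
  have hV0 : 0 < V := by linarith
  have g1 := h1 V Y q r hV3 hV2 hY hYV hq hqB
  have hmem : ∀ b ∈ cls q r Y, b ≠ 0 ∧ nz b ≤ 2 * M ^ 2 := by
    intro b hb
    rw [mem_cls] at hb
    refine ⟨hb.1, ?_⟩
    have : 0 ≤ M ^ 2 := by positivity
    linarith [hb.2.1]
  have g2 : |∑ t ∈ cls q r Y, (LF D t - 4 * T * y * ctr M D T t)| ≤ V / y ^ A' := by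
    refine (abs_sum_le_sum_abs _ _).trans ?_
    refine (sum_le_sum fun t ht => ctr_err hM3 hD1 hDM hT1 (hmem t ht).1 (hmem t ht).2 k).trans ?_
    rcases lt_or_ge Y 1 with hY1 | hY1
    · have : cls q r Y = ∅ := by
        rw [eq_empty_iff_forall_notMem]
        intro t ht
        rw [mem_cls] at ht
        have := nz_one_le ht.1
        linarith
      rw [this, sum_empty]
      positivity
    have k1 : ∑ t ∈ cls q r Y, 4 * Real.log M * (td D t ^ (k + 1) / T ^ k) ≤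
        4 * y * ((∑ t ∈ bl Y, (dv t : ℝ) ^ (k + 1)) / T ^ k) := by
      rw [sum_div, mul_sum]
      refine le_trans (sum_le_sum fun t _ => ?_) (sum_le_sum_of_subset_of_nonneg (cls_sub q r Y)
        (f := fun t => 4 * y * ((dv t : ℝ) ^ (k + 1) / T ^ k)) fun t _ _ => by positivity)
      apply mul_le_mul_of_nonneg_left _ (by positivity)
      apply div_le_div_of_nonneg_right _ (by positivity)
      exact pow_le_pow_left₀ (td_nonneg _ _) (td_le_dv _ _) _
    refine k1.trans ?_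
    have k2 := mom (k + 1) (show 3 ≤ M ^ 2 by nlinarith) Y hY1 (hYV.trans hV2)
    rw [← hP] at k2
    have k3 : Real.log (M ^ 2) = 2 * y := by
      rw [Real.log_pow]
      push_cast
      ring
    rw [k3] at k2
    have k4 : 4 * y * ((9 * Y * (48 * (2 * y) ^ 2) ^ P) / T ^ k) ≤ V / y ^ A' * (36 * (192 : ℝ) ^ P / y) := by
      have k5 : (48 * (2 * y) ^ 2) ^ P = (192 : ℝ) ^ P * y ^ (2 * P) := by
        rw [show 48 * (2 * y) ^ 2 = 192 * y ^ 2 by ring, mul_pow, ← pow_mul]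
      have k6 : T ^ k = y ^ (k * E) := by
        rw [hT, ← pow_mul, mul_comm]
      rw [k5, k6]
      have k7 : y ^ (A' + 2 + 2 * P) ≤ y ^ (k * E) := pow_le_pow_right₀ hy1 hkE
      calc 4 * y * ((9 * Y * ((192 : ℝ) ^ P * y ^ (2 * P))) / y ^ (k * E))
          ≤ 4 * y * ((9 * V * ((192 : ℝ) ^ P * y ^ (2 * P))) / y ^ (A' + 2 + 2 * P)) := by gcongr
        _ = V / y ^ A' * (36 * (192 : ℝ) ^ P / y) := by
            rw [pow_add, pow_add]
            field_simp
            ring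
    have k5 : 36 * (192 : ℝ) ^ P / y ≤ 1 := by
      rw [div_le_one hy0]
      have : (0 : ℝ) ≤ (192 : ℝ) ^ P := by positivity
      linarith
    have k6 : 0 ≤ V / y ^ A' := by positivity
    calc 4 * y * ((∑ t ∈ bl Y, (dv t : ℝ) ^ (k + 1)) / T ^ k) ≤ 4 * y * ((9 * Y * (48 * (2 * y) ^ 2) ^ P) / T ^ k) := by
          gcongr
      _ ≤ V / y ^ A' * (36 * (192 : ℝ) ^ P / y) := k4
      _ ≤ V / y ^ A' * 1 := mul_le_mul_of_nonneg_left k5 k6
      _ = _ := mul_one _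
  have g3 : 4 * T * y * ∑ t ∈ cls q r Y, ctr M D T t =
      ∑ t ∈ cls q r Y, LF D t - ∑ t ∈ cls q r Y, (LF D t - 4 * T * y * ctr M D T t) := by
    rw [← sum_sub_distrib, mul_sum]
    apply sum_congr rfl
    intro t _
    ring
  have g4 : |4 * T * y * ∑ t ∈ cls q r Y, ctr M D T t| ≤ 2 * (V / y ^ A') := by
    rw [g3]
    refine (abs_sub _ _).trans ?_
    linarith
  rw [abs_mul, abs_of_pos (show 0 < 4 * T * y by positivity)] at g4
  have g5 : 4 ≤ 4 * T * y := by nlinarith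
  have g6 := abs_nonneg (∑ t ∈ cls q r Y, ctr M D T t)
  have g7 : 4 * |∑ t ∈ cls q r Y, ctr M D T t| ≤ 4 * T * y * |∑ t ∈ cls q r Y, ctr M D T t| :=
    mul_le_mul_of_nonneg_right g5 g6
  have g8 : 0 ≤ V / y ^ A' := by positivity
  linarith

end Pool.Agent.J4.H69
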