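import Pool.Agent.J4.H69.LFc

/-!
# Small divisors in a box
-/

set_option autoImplicit false

namespace Pool.Agent.J4.H69

open Finset Filter Topology
open Pool.Agent.N782.GN
open Pool.Agent.N855.GN (Dv mem_Dv logpow nz_one_le one_le_log SA mem_SA SA_sum Rq Rq_unique card_Rq bg mem_bg grp2
  dv_card)
open Pool.Agent.N277.GN (ct_nat_mul abs_be_le card_bl nz_pos nz_natCast)
open Pool.Agent.H304R3.HK (UH bb LamK CS)

theorem kap_sum {L : ℝ} (hL : 0 ≤ L) {e : ZI} (he : e ≠ 0) : ∑ l ∈ Icc 1 ⌊L⌋, kap l e ≤ L := by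
  classical
  have hg := Pool.Agent.N864.GN.MB.ct_pos he
  have hgR : (0 : ℝ) < ct e := by exact_mod_cast hg
  have h1 : ∑ l ∈ Icc 1 ⌊L⌋, kap l e = (((Icc 1 ⌊L⌋).filter (fun l => ((ct e : ℕ) : ℤ) ∣ l)).card : ℝ) * ct e := by
    unfold kap
    rw [← sum_filter, sum_const, nsmul_eq_mul]
  have h2 : (Icc 1 ⌊L⌋).filter (fun l => ((ct e : ℕ) : ℤ) ∣ l) ⊆
      (Icc 1 ⌊L / ct e⌋).image (fun j : ℤ => (ct e : ℤ) * j) := by
    intro l hl
    rw [mem_filter, mem_Icc] at hl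
    obtain ⟨⟨hl1, hl2⟩, j, hj⟩ := hl
    rw [mem_image]
    refine ⟨j, ?_, hj.symm⟩
    have hgZ : (0 : ℤ) < ct e := by exact_mod_cast hg
    have hj1 : 1 ≤ j := by
      by_contra h
      have : j ≤ 0 := by omega
      have : (ct e : ℤ) * j ≤ 0 := mul_nonpos_of_nonneg_of_nonpos hgZ.le this
      omega
    rw [mem_Icc]
    refine ⟨hj1, ?_⟩
    rw [Int.le_floor, le_div_iff₀ hgR]
    have h3 := Int.le_floor.1 hl2
    rw [hj] at h3
    push_cast at h3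
    linarith
  have h3 : (((Icc 1 ⌊L⌋).filter (fun l => ((ct e : ℕ) : ℤ) ∣ l)).card : ℝ) ≤ L / ct e := by
    have h4 := (card_le_card h2).trans card_image_le
    rw [Int.card_Icc] at h4
    have h5 : 0 ≤ L / ct e := by positivity
    have h6 : (0 : ℤ) ≤ ⌊L / ct e⌋ := Int.floor_nonneg.2 h5
    have h7 : ((⌊L / ct e⌋ + 1 - 1).toNat : ℤ) = ⌊L / ct e⌋ := by
      rw [Int.toNat_of_nonneg (by omega)]
      ring
    have h8 : (((⌊L / ct e⌋ + 1 - 1).toNat : ℕ) : ℝ) = ((⌊L / ct e⌋ : ℤ) : ℝ) := by exact_mod_cast congrArg (fun t : ℤ => (t : ℝ)) h7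
    calc (((Icc 1 ⌊L⌋).filter (fun l => ((ct e : ℕ) : ℤ) ∣ l)).card : ℝ) ≤ (((⌊L / ct e⌋ + 1 - 1).toNat : ℕ) : ℝ) := by
          exact_mod_cast h4
      _ = ((⌊L / ct e⌋ : ℤ) : ℝ) := h8
      _ ≤ L / ct e := Int.floor_le _
  rw [h1]
  calc (((Icc 1 ⌊L⌋).filter (fun l => ((ct e : ℕ) : ℤ) ∣ l)).card : ℝ) * ct e ≤ L / ct e * ct e := by gcongr
    _ = L := by field_simp

/-- pairs of small divisors -/
theorem td_sq {D : ℝ} (hD : 0 ≤ D) {z : ZI} (hz : z ≠ 0) :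
    td D z ^ 2 ≤ ∑ e ∈ (Dv z).filter (fun e => nz e ≤ D ^ 2), (dv e : ℝ) ^ 2 := by
  classical
  set S := (Dv z).filter (fun d => nz d ≤ D) with hS
  have h1 : td D z ^ 2 = ((S ×ˢ S).card : ℝ) := by
    unfold td
    rw [card_product, sq]
    push_cast
    rfl
  have hne : ∀ d ∈ S, d ≠ 0 := by
    intro d hd
    rw [hS, mem_filter, mem_Dv hz] at hd
    rintro rfl
    exact hz (zero_dvd_iff.1 hd.1)
  have h2 : ∀ p ∈ S ×ˢ S, EuclideanDomain.lcm p.1 p.2 ∈ (Dv z).filter (fun e => nz e ≤ D ^ 2) := by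
    intro p hp
    rw [mem_product] at hp
    have n1 := hne _ hp.1
    have n2 := hne _ hp.2
    rw [hS, mem_filter, mem_Dv hz, mem_filter, mem_Dv hz] at hp
    rw [mem_filter, mem_Dv hz]
    refine ⟨EuclideanDomain.lcm_dvd hp.1.1 hp.2.1, ?_⟩
    have h3 : EuclideanDomain.lcm p.1 p.2 ∣ p.1 * p.2 :=
      EuclideanDomain.lcm_dvd (dvd_mul_right _ _) (dvd_mul_left _ _)
    have h4 := nz_le_of_dvd (mul_ne_zero n1 n2) h3
    rw [nz_mul] at h4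
    calc nz (EuclideanDomain.lcm p.1 p.2) ≤ nz p.1 * nz p.2 := h4
      _ ≤ D * D := mul_le_mul hp.1.2 hp.2.2 (nz_nonneg _) hD
      _ = D ^ 2 := by ring
  rw [h1]
  have h3 := card_eq_sum_card_fiberwise h2
  rw [h3]
  push_cast
  apply sum_le_sum
  intro e he
  rw [mem_filter, mem_Dv hz] at he
  have he0 : e ≠ 0 := by
    rintro rfl
    exact hz (zero_dvd_iff.1 he.1)
  have h4 : (S ×ˢ S).filter (fun p => EuclideanDomain.lcm p.1 p.2 = e) ⊆ Dv e ×ˢ Dv e := by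
    intro p hp
    rw [mem_filter] at hp
    rw [mem_product, mem_Dv he0, mem_Dv he0, ← hp.2]
    exact ⟨EuclideanDomain.dvd_lcm_left _ _, EuclideanDomain.dvd_lcm_right _ _⟩
  have h5 := card_le_card h4
  rw [card_product, ← dv_card] at h5
  rw [sq]
  exact_mod_cast h5

/-- **small divisors in a box** -/
theorem td_box {δ η0 : ℝ} (hδ : 0 < δ) (hδ1 : δ ≤ 1) (hη0 : 0 < η0) (hη : η0 ≤ δ / 80) : ∀ᶠ M : ℝ in atTop, ∀ L : ℝ,
    M ^ δ ≤ L → L ≤ M ^ (1 - δ) → ∑ z ∈ Bx L (-M) M, td (M ^ η0) z ^ 2 ≤ L * M * (Real.log M) ^ 9 := by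
  classical
  obtain ⟨C, hC, hti⟩ := c_ti δ hδ
  have d1 : ∀ᶠ M : ℝ in atTop, max 3 (81 * C) ≤ M ^ (δ / 20) :=
    (tendsto_rpow_atTop (by positivity)).eventually_ge_atTop _
  have d2 : ∀ᶠ M : ℝ in atTop, 2 * 48 ^ 4 * 2 ^ 8 + 1 ≤ Real.log M := Real.tendsto_log_atTop.eventually_ge_atTop _
  have d3 : ∀ᶠ M : ℝ in atTop, (3 : ℝ) ≤ M ^ η0 := (tendsto_rpow_atTop hη0).eventually_ge_atTop _
  filter_upwards [d1, d2, d3, eventually_ge_atTop 3] with M d1 d2 d3 hM3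
  intro L hL1 hL2
  have hM0 : 0 < M := by linarith
  have hM1 : 1 ≤ M := by linarith
  set y := Real.log M with hy
  have hy1 : 1 ≤ y := one_le_log hM3
  have hy0 : 0 < y := by linarith
  set D := M ^ η0 with hD
  have hD0 : 0 < D := by positivity
  have hD1 : 1 ≤ D := by linarith
  have hL0 : 0 < L := lt_of_lt_of_le (by positivity) hL1
  have hL11 : 1 ≤ L := (Real.one_le_rpow hM1 hδ.le).trans hL1
  have hpw : ∀ s t : ℝ, s ≤ t → M ^ s ≤ M ^ t := fun s t hst => Real.rpow_le_rpow_of_exponent_le hM1 hst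
  -- exchange
  have e1 : ∑ z ∈ Bx L (-M) M, td D z ^ 2 ≤ ∑ z ∈ Bx L (-M) M, ∑ e ∈ bl (D ^ 2), if e ∣ z then (dv e : ℝ) ^ 2 else 0 := by
    apply sum_le_sum
    intro z hz
    have hz0 := Bx_ne hz
    refine (td_sq hD0.le hz0).trans (le_of_eq ?_)
    rw [← sum_filter]
    apply sum_congr _ fun _ _ => rfl
    ext e
    rw [mem_filter, mem_filter, mem_Dv hz0, mem_bl]
    constructor
    · rintro ⟨h1, h2⟩
      refine ⟨⟨?_, h2⟩, h1⟩
      rintro rfl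
      exact hz0 (zero_dvd_iff.1 h1)
    · rintro ⟨⟨-, h2⟩, h1⟩
      exact ⟨h1, h2⟩
  have e2 : ∑ z ∈ Bx L (-M) M, ∑ e ∈ bl (D ^ 2), (if e ∣ z then (dv e : ℝ) ^ 2 else 0) =
      ∑ e ∈ bl (D ^ 2), (dv e : ℝ) ^ 2 * ∑ l ∈ Icc 1 ⌊L⌋, nm M e l := by
    rw [sum_comm]
    apply sum_congr rfl
    intro e _
    rw [Bx_sum, mul_sum]
    apply sum_congr rfl
    intro l _
    unfold nm
    rw [← sum_filter, sum_const, nsmul_eq_mul, mul_comm]
  set lam : ℤ → ℝ := fun l => if 1 ≤ l ∧ (l : ℝ) ≤ L then 1 else 0 with hlam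
  have hLm : Lm L lam := by
    refine ⟨fun l => ?_, fun l hl => ?_⟩
    · rw [hlam]
      simp only
      split_ifs <;> norm_num
    · rw [hlam]
      simp only
      rw [if_neg]
      rintro ⟨h2, h3⟩
      rcases hl with h | h
      · omega
      · linarith
  have hlam1 : ∀ l ∈ Icc 1 ⌊L⌋, lam l = 1 := by
    intro l hl
    rw [mem_Icc] at hl
    rw [hlam]
    simp only
    rw [if_pos ⟨hl.1, Int.le_floor.1 hl.2⟩]
  have hDL : D ^ 2 ≤ L * M ^ (1 - δ) := by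
    calc D ^ 2 = M ^ (2 * η0) := by
          rw [hD, ← Real.rpow_natCast, ← Real.rpow_mul hM0.le]
          congr 1
          push_cast
          ring
      _ ≤ M ^ δ := hpw _ _ (by linarith)
      _ ≤ L := hL1
      _ = L * 1 := (mul_one _).symm
      _ ≤ L * M ^ (1 - δ) := by
          apply mul_le_mul_of_nonneg_left _ hL0.le
          exact Real.one_le_rpow hM1 (by linarith)
  have key := hti M L (D ^ 2) lam (by linarith) hL11 hL2 (one_le_pow₀ hD1) hDL hLm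
  have e3 : ∀ e ∈ bl (D ^ 2), (dv e : ℝ) ^ 2 * ∑ l ∈ Icc 1 ⌊L⌋, nm M e l ≤
      2 * M * L * ((dv e : ℝ) ^ 2 / nz e) +
        81 * D ^ 4 * |∑ l ∈ Icc 1 ⌊L⌋, lam l * (nm M e l - 2 * M * (kap l e / nz e))| := by
    intro e he
    obtain ⟨he0, heD⟩ := (mem_bl _ _).1 he
    have hp := nz_pos he0
    have h1 : ∑ l ∈ Icc 1 ⌊L⌋, nm M e l = 2 * M / nz e * ∑ l ∈ Icc 1 ⌊L⌋, kap l e +
        ∑ l ∈ Icc 1 ⌊L⌋, lam l * (nm M e l - 2 * M * (kap l e / nz e)) := by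
      rw [mul_sum, ← sum_add_distrib]
      apply sum_congr rfl
      intro l hl
      rw [hlam1 l hl]
      ring
    have h2 := kap_sum hL0.le he0
    have h3 : (dv e : ℝ) ≤ 9 * D ^ 2 := by
      unfold dv
      calc ((((bl (nz e)).filter (fun d => d ∣ e)).card : ℕ) : ℝ) ≤ ((bl (nz e)).card : ℝ) := by
            exact_mod_cast card_filter_le _ _
        _ ≤ 9 * nz e := card_bl _ (nz_one_le he0)
        _ ≤ 9 * D ^ 2 := by linarith
    have h4 : (dv e : ℝ) ^ 2 ≤ 81 * D ^ 4 := by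
      calc (dv e : ℝ) ^ 2 ≤ (9 * D ^ 2) ^ 2 := pow_le_pow_left₀ (Nat.cast_nonneg _) h3 2
        _ = 81 * D ^ 4 := by ring
    rw [h1, mul_add]
    apply add_le_add
    · calc (dv e : ℝ) ^ 2 * (2 * M / nz e * ∑ l ∈ Icc 1 ⌊L⌋, kap l e) ≤ (dv e : ℝ) ^ 2 * (2 * M / nz e * L) := by
            gcongr
        _ = 2 * M * L * ((dv e : ℝ) ^ 2 / nz e) := by ring
    · refine (le_abs_self _).trans ?_
      rw [abs_mul, abs_of_nonneg (sq_nonneg _)]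
      exact mul_le_mul_of_nonneg_right h4 (abs_nonneg _)
  refine e1.trans ?_
  rw [e2]
  refine (sum_le_sum e3).trans ?_
  rw [sum_add_distrib, ← mul_sum, ← mul_sum]
  have h5 := momlog 2 (show (3 : ℝ) ≤ D ^ 2 by nlinarith)
  have h6 : Real.log (D ^ 2) ≤ 2 * y := by
    rw [Real.log_pow, hD, Real.log_rpow hM0]
    push_cast
    have : η0 ≤ 1 := by linarith
    nlinarith
  have h60 : 0 ≤ Real.log (D ^ 2) := Real.log_nonneg (one_le_pow₀ hD1)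
  have h7 : ∑ e ∈ bl (D ^ 2), (dv e : ℝ) ^ 2 / nz e ≤ 48 ^ 4 * 2 ^ 8 * y ^ 8 := by
    refine h5.trans ?_
    calc (48 * (Real.log (D ^ 2)) ^ 2) ^ (2 ^ 2) ≤ (48 * (2 * y) ^ 2) ^ (2 ^ 2) := by gcongr
      _ = 48 ^ 4 * 2 ^ 8 * y ^ 8 := by
          norm_num
          ring
  have h8 : 81 * D ^ 4 * (C * L * M ^ (1 - δ / 10)) ≤ L * M := by
    have h9 : D ^ 4 ≤ M ^ (δ / 20) := by
      calc D ^ 4 = M ^ (4 * η0) := by
            rw [hD, ← Real.rpow_natCast, ← Real.rpow_mul hM0.le]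
            congr 1
            push_cast
            ring
        _ ≤ M ^ (δ / 20) := hpw _ _ (by linarith)
    have h10 : M ^ (δ / 20) * (M ^ (δ / 20) * M ^ (1 - δ / 10)) = M := by
      rw [← Real.rpow_add hM0, ← Real.rpow_add hM0]
      rw [show δ / 20 + (δ / 20 + (1 - δ / 10)) = 1 by ring, Real.rpow_one]
    have h11 : 81 * C ≤ M ^ (δ / 20) := (le_max_right _ _).trans d1
    calc 81 * D ^ 4 * (C * L * M ^ (1 - δ / 10)) = 81 * C * (D ^ 4 * M ^ (1 - δ / 10)) * L := by ring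
      _ ≤ M ^ (δ / 20) * (M ^ (δ / 20) * M ^ (1 - δ / 10)) * L := by gcongr
      _ = L * M := by rw [h10]; ring
  have h12 : 81 * D ^ 4 * ∑ e ∈ bl (D ^ 2), |∑ l ∈ Icc 1 ⌊L⌋, lam l * (nm M e l - 2 * M * (kap l e / nz e))| ≤ L * M :=
    le_trans (mul_le_mul_of_nonneg_left key (by positivity)) h8
  have h13 : 2 * M * L * ∑ e ∈ bl (D ^ 2), (dv e : ℝ) ^ 2 / nz e ≤ 2 * M * L * (48 ^ 4 * 2 ^ 8 * y ^ 8) := by gcongr
  have h14 : 2 * M * L * (48 ^ 4 * 2 ^ 8 * y ^ 8) + L * M ≤ L * M * y ^ 9 := by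
    have h15 : (2 * 48 ^ 4 * 2 ^ 8 + 1) * y ^ 8 ≤ y ^ 9 := by
      calc (2 * 48 ^ 4 * 2 ^ 8 + 1) * y ^ 8 ≤ y * y ^ 8 := by gcongr
        _ = y ^ 9 := by ring
    have h16 : (1 : ℝ) ≤ y ^ 8 := one_le_pow₀ hy1
    have h17 : 0 < L * M := by positivity
    calc 2 * M * L * (48 ^ 4 * 2 ^ 8 * y ^ 8) + L * M ≤ 2 * M * L * (48 ^ 4 * 2 ^ 8 * y ^ 8) + L * M * y ^ 8 := by
          nlinarith
      _ = L * M * ((2 * 48 ^ 4 * 2 ^ 8 + 1) * y ^ 8) := by ring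
      _ ≤ L * M * y ^ 9 := by gcongr
  linarith

end Pool.Agent.J4.H69
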