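import Pool.Agent.J4.H69.LFd

/-!
# The sum with `Λ - Λ_D` in place of `Λ`
-/

set_option autoImplicit false

namespace Pool.Agent.J4.H69

open Finset Filter Topology
open Pool.Agent.N782.GN
open Pool.Agent.N855.GN (Dv mem_Dv logpow nz_one_le one_le_log SA mem_SA SA_sum Rq Rq_unique card_Rq bg mem_bg grp2
  dv_card)
open Pool.Agent.N277.GN (ct_nat_mul abs_be_le card_bl nz_pos nz_natCast)
open Pool.Agent.H304R3.HK (UH bb LamK CS)

/-- the sum over the factorizations `z = v a b` -/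
noncomputable def TTc (c : ZI → ℝ) (A1 A2 Q1 Q2 : ℝ) (z : ZI) : ℝ :=
  ∑ v ∈ Dv z, al Q1 Q2 v * ∑ a ∈ Dv (z / v), lw A1 A2 a * c (z / v / a)

theorem regroup2 {S Z : Finset ZI} (β f H : ZI → ℝ) (hS : ∀ w ∈ S, w ≠ 0)
    (hZ : ∀ z ∈ Z, z ≠ 0 ∧ ∀ w : ZI, w ∣ z → w ∈ S) (hH : ∀ z, H z ≠ 0 → z ∈ Z) :
    ∑ w ∈ S, ∑ v ∈ S, β w * f v * H (w * v) = ∑ z ∈ Z, H z * ∑ v ∈ Dv z, f v * β (z / v) := by
  classical
  rw [sum_comm]
  have h1 : ∀ v ∈ S, ∑ w ∈ S, β w * f v * H (w * v) = ∑ z ∈ Z, if v ∣ z then f v * β (z / v) * H z else 0 := by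
    intro v hv
    have hv0 := hS v hv
    rw [← sum_filter]
    have h2 : Z.filter (fun z => v ∣ z) ⊆ S.image (fun w => w * v) := by
      intro z hz
      rw [mem_filter] at hz
      obtain ⟨w, rfl⟩ := hz.2
      rw [mem_image]
      exact ⟨w, (hZ _ hz.1).2 w (dvd_mul_left _ _), mul_comm _ _⟩
    rw [sum_subset h2]
    · rw [sum_image]
      · apply sum_congr rfl
        intro w _
        have e1 : w * v / v = w := by
          rw [mul_comm]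
          exact div_of_mul hv0
        rw [e1]
        ring
      · intro a _ b _ h
        exact mul_right_cancel₀ hv0 h
    · intro z hz hz'
      rw [mem_image] at hz
      obtain ⟨w, hw, rfl⟩ := hz
      rw [mem_filter] at hz'
      by_contra hne
      apply hz'
      refine ⟨hH _ ?_, dvd_mul_left _ _⟩
      intro h
      rw [h, mul_zero] at hne
      exact hne rfl
  rw [sum_congr rfl h1, sum_comm]
  apply sum_congr rfl
  intro z hz
  obtain ⟨hz0, hzS⟩ := hZ z hz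
  rw [← sum_filter]
  have h3 : S.filter (fun v => v ∣ z) = Dv z := by
    ext v
    rw [mem_filter, mem_Dv hz0]
    exact ⟨fun h => h.2, fun h => ⟨hzS v h, h⟩⟩
  rw [h3, mul_sum]
  apply sum_congr rfl
  intro v _
  ring

theorem bil_TTc (c : ZI → ℝ) {M L A1 A2 Q1 Q2 : ℝ} {lam : ℤ → ℝ} (hM : 3 ≤ M) (hLM : L ≤ M) (hlam : Lm L lam) :
    ∑ w ∈ bl (2 * M ^ 2), ∑ v ∈ bl (2 * M ^ 2), bta c M A1 A2 w * al Q1 Q2 v * Fz lam M (w * v) =
      (∑ l ∈ Icc 1 ⌊L⌋, lam l * ∑ m ∈ Icc ⌈-M⌉ ⌊M⌋, TTc c A1 A2 Q1 Q2 ⟨l, m⟩) / (12 * Real.log M) := by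
  classical
  have hM0 : 0 < M := by linarith
  have hy := one_le_log hM
  rw [regroup2 (Z := Bx L (-M) M) (bta c M A1 A2) (al Q1 Q2) (Fz lam M) (fun w hw => ((mem_bl _ _).1 hw).1)]
  · have h1 : ∀ z ∈ Bx L (-M) M, Fz lam M z * ∑ v ∈ Dv z, al Q1 Q2 v * bta c M A1 A2 (z / v) =
        lam z.re * TTc c A1 A2 Q1 Q2 z / (12 * Real.log M) := by
      intro z hz
      rw [mem_Bx] at hz
      have h2 : Fz lam M z = lam z.re := by
        unfold Fz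
        rw [if_pos (abs_le.2 ⟨hz.2.2.1, hz.2.2.2⟩)]
      rw [h2, mul_div_assoc]
      congr 1
      unfold TTc
      rw [sum_div]
      apply sum_congr rfl
      intro v _
      unfold bta
      ring
    rw [sum_congr rfl h1, ← sum_div, Bx_sum]
    congr 1
    apply sum_congr rfl
    intro l _
    rw [mul_sum]
  · intro z hz
    refine ⟨Bx_ne hz, fun w hw => ?_⟩
    have h1 := Bx_nz hz hLM (by rw [abs_neg, abs_of_pos hM0]) (by rw [abs_of_pos hM0])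
    rw [mem_bl]
    refine ⟨?_, (nz_le_of_dvd (Bx_ne hz) hw).trans h1⟩
    rintro rfl
    exact Bx_ne hz (zero_dvd_iff.1 hw)
  · intro z hz
    unfold Fz at hz
    split_ifs at hz with h4
    · obtain ⟨h5, h6⟩ := Lm_ne hlam hz
      rw [mem_Bx]
      exact ⟨h5, h6, (abs_le.1 h4).1, (abs_le.1 h4).2⟩
    · exact absurd rfl hz

/-- a bound for the sum over the factorizations -/
theorem TTc_le (hm : S_MUB) {c : ZI → ℝ} {M A1 A2 Q1 Q2 B : ℝ} (hM : 3 ≤ M) (hQ : 2 * M ^ 2 < Q1 ^ 2) (hQ0 : 0 < Q1)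
    {z : ZI} (hz : z ≠ 0) (hzM : nz z ≤ 2 * M ^ 2) (hc : ∀ b, b ∣ z → |c b| ≤ B) (hB : 0 ≤ B) :
    |TTc c A1 A2 Q1 Q2 z| ≤ 48 * Real.log M * B := by
  classical
  have hM0 : 0 < M := by linarith
  have hy := one_le_log hM
  unfold TTc
  refine (abs_sum_le_sum_abs _ _).trans ?_
  have h1 : ∀ v ∈ Dv z, |al Q1 Q2 v * ∑ a ∈ Dv (z / v), lw A1 A2 a * c (z / v / a)| ≤
      al Q1 Q2 v * (12 * Real.log M * B) := by
    intro v hv
    rw [mem_Dv hz] at hv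
    obtain ⟨w, hw⟩ := hv
    have hv0 : v ≠ 0 := by
      rintro rfl
      rw [zero_mul] at hw
      exact hz hw
    have hw0 : w ≠ 0 := by
      rintro rfl
      rw [mul_zero] at hw
      exact hz hw
    have e1 : z / v = w := by
      rw [hw]
      exact div_of_mul hv0
    rw [e1, abs_mul, abs_of_nonneg (al_nonneg _ _ _)]
    apply mul_le_mul_of_nonneg_left _ (al_nonneg _ _ _)
    have hwz : w ∣ z := ⟨v, by rw [hw]; ring⟩
    have hwM : nz w ≤ 2 * M ^ 2 := (nz_le_of_dvd hz hwz).trans hzM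
    refine (abs_sum_le_sum_abs _ _).trans ?_
    have h2 : ∀ a ∈ Dv w, |lw A1 A2 a * c (w / a)| ≤ lw A1 A2 a * B := by
      intro a ha
      rw [mem_Dv hw0] at ha
      obtain ⟨b, hb⟩ := ha
      have ha0 : a ≠ 0 := by
        rintro rfl
        rw [zero_mul] at hb
        exact hw0 hb
      have e2 : w / a = b := by
        rw [hb]
        exact div_of_mul ha0
      rw [e2, abs_mul, abs_of_nonneg (lw_nonneg _ _ _)]
      apply mul_le_mul_of_nonneg_left _ (lw_nonneg _ _ _)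
      exact hc b (Dvd.dvd.trans ⟨a, by rw [hb]; ring⟩ hwz)
    refine (sum_le_sum h2).trans ?_
    rw [← sum_mul]
    apply mul_le_mul_of_nonneg_right _ hB
    have h3 := om_le hm A1 A2 hw0
    unfold om at h3
    have h4 := log3 hM hw0 hwM
    linarith
  refine (sum_le_sum h1).trans ?_
  rw [← sum_mul]
  have h2 := ds_al_le (Q2 := Q2) hM0 hQ hQ0 hz hzM
  unfold ds at h2
  calc (∑ v ∈ Dv z, al Q1 Q2 v) * (12 * Real.log M * B) ≤ 4 * (12 * Real.log M * B) := by gcongr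
    _ = 48 * Real.log M * B := by ring

theorem TTc_sub (c c' : ZI → ℝ) (t : ℝ) (A1 A2 Q1 Q2 : ℝ) (z : ZI) :
    TTc c A1 A2 Q1 Q2 z - t * TTc c' A1 A2 Q1 Q2 z = TTc (fun b => c b - t * c' b) A1 A2 Q1 Q2 z := by
  unfold TTc
  rw [mul_sum, ← sum_sub_distrib]
  apply sum_congr rfl
  intro v _
  have h1 : ∑ a ∈ Dv (z / v), lw A1 A2 a * (c (z / v / a) - t * c' (z / v / a)) =
      (∑ a ∈ Dv (z / v), lw A1 A2 a * c (z / v / a)) - t * ∑ a ∈ Dv (z / v), lw A1 A2 a * c' (z / v / a) := by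
    rw [mul_sum, ← sum_sub_distrib]
    apply sum_congr rfl
    intro a _
    ring
  rw [h1]
  ring

/-- **the sum with `Λ - Λ_D`** -/
theorem lf_box {δ η0 : ℝ} (hδ : 0 < δ) (hδ1 : δ ≤ 1) (hη0 : 0 < η0) (hη : η0 ≤ δ / 80) (A : ℕ) :
    ∀ᶠ M : ℝ in atTop, ∀ L : ℝ, M ^ δ ≤ L → L ≤ M ^ (1 - δ) →
    ∑ l ∈ Icc 1 ⌊L⌋, |∑ m ∈ Icc ⌈-M⌉ ⌊M⌋, TTc (LF (M ^ η0)) (M ^ (δ / 128)) (M ^ (5 * (δ / 128) / 4))
      (M ^ (1 + δ / 4)) (M ^ (1 + δ / 2)) ⟨l, m⟩| ≤ L * M / (Real.log M) ^ A := by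
  classical
  obtain ⟨E, hE, h1⟩ := ctr_cha 6000 A (A + 12) (τ := δ / 128) hη0 (by linarith) (by linarith)
  have h2 := bilG hδ hδ1 (A + E + 3)
  have h3 := td_box hδ hδ1 hη0 hη
  have d1 : ∀ᶠ M : ℝ in atTop, (3 : ℝ) ≤ M ^ (δ / 4) := (tendsto_rpow_atTop (by positivity)).eventually_ge_atTop _
  have d2 : ∀ᶠ M : ℝ in atTop, (384 : ℝ) ≤ Real.log M := Real.tendsto_log_atTop.eventually_ge_atTop _
  have d3 : ∀ᶠ M : ℝ in atTop, (3 : ℝ) ≤ M ^ η0 := (tendsto_rpow_atTop hη0).eventually_ge_atTop _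
  filter_upwards [h1, h2, h3, d1, d2, d3, eventually_ge_atTop 3] with M h1 h2 h3 d1 d2 d3 hM3
  intro L hL1 hL2
  have hM0 : 0 < M := by linarith
  have hM1 : 1 ≤ M := by linarith
  set y := Real.log M with hy
  have hy0 : 0 < y := by linarith
  have hy1 : 1 ≤ y := by linarith
  set D := M ^ η0 with hD
  have hD1 : 1 ≤ D := by linarith
  have hDM : D ≤ M := by
    calc M ^ η0 ≤ M ^ (1 : ℝ) := Real.rpow_le_rpow_of_exponent_le hM1 (by linarith)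
      _ = M := Real.rpow_one M
  set T := y ^ E with hT
  have hT1 : 1 ≤ T := one_le_pow₀ hy1
  have hL0 : 0 < L := lt_of_lt_of_le (by positivity) hL1
  have hLM : L ≤ M := by
    refine hL2.trans ?_
    calc M ^ (1 - δ) ≤ M ^ (1 : ℝ) := Real.rpow_le_rpow_of_exponent_le hM1 (by linarith)
      _ = M := Real.rpow_one M
  set A1 := M ^ (δ / 128) with hA1
  set A2 := M ^ (5 * (δ / 128) / 4) with hA2
  set Q1 := M ^ (1 + δ / 4) with hQ1
  set Q2 := M ^ (1 + δ / 2) with hQ2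
  have hQ0 : 0 < Q1 := by positivity
  have hQ : 2 * M ^ 2 < Q1 ^ 2 := by
    have e1 : Q1 = M * M ^ (δ / 4) := by rw [hQ1, Real.rpow_add hM0, Real.rpow_one]
    rw [e1, mul_pow]
    have : (2 : ℝ) < (M ^ (δ / 4)) ^ 2 := by nlinarith
    have : 0 < M ^ 2 := by positivity
    nlinarith
  set c := ctr M D T with hc
  -- the truncated function
  have p1 : ∑ l ∈ Icc 1 ⌊L⌋, |∑ m ∈ Icc ⌈-M⌉ ⌊M⌋, TTc c A1 A2 Q1 Q2 ⟨l, m⟩| ≤
      12 * y * (L * M / y ^ (A + E + 3)) := by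
    apply dual
    intro lam hlam
    have key := h2 L hL1 hL2 c (ctr_abs hM3 hD1 hDM hT1) (by
      rw [show A + E + 3 + 1 = A + E + 4 by ring]
      exact h1) lam hlam
    rw [bil_TTc c hM3 hLM hlam, abs_div, abs_of_pos (show 0 < 12 * Real.log M by positivity),
      div_le_iff₀ (by positivity)] at key
    calc |∑ l ∈ Icc 1 ⌊L⌋, lam l * ∑ m ∈ Icc ⌈-M⌉ ⌊M⌋, TTc c A1 A2 Q1 Q2 ⟨l, m⟩|
        ≤ L * M / Real.log M ^ (A + E + 3) * (12 * Real.log M) := key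
      _ = 12 * y * (L * M / y ^ (A + E + 3)) := by ring
  -- the difference
  have p2 : ∑ z ∈ Bx L (-M) M, |TTc (LF D) A1 A2 Q1 Q2 z - 4 * T * y * TTc c A1 A2 Q1 Q2 z| ≤
      192 * y ^ 2 * (L * M * y ^ 9) / T := by
    have g1 : ∀ z ∈ Bx L (-M) M, |TTc (LF D) A1 A2 Q1 Q2 z - 4 * T * y * TTc c A1 A2 Q1 Q2 z| ≤
        192 * y ^ 2 / T * td D z ^ 2 := by
      intro z hz
      have hz0 := Bx_ne hz
      have hzM := Bx_nz hz hLM (by rw [abs_neg, abs_of_pos hM0]) (by rw [abs_of_pos hM0])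
      rw [TTc_sub]
      have g2 := TTc_le c_mub (A1 := A1) (A2 := A2) (Q2 := Q2) (c := fun b => LF D b - 4 * T * y * c b)
        (B := 4 * y * (td D z ^ 2 / T)) hM3 hQ hQ0 hz0 hzM (by
          intro b hb
          have hb0 : b ≠ 0 := by
            rintro rfl
            exact hz0 (zero_dvd_iff.1 hb)
          have hbM : nz b ≤ 2 * M ^ 2 := (nz_le_of_dvd hz0 hb).trans hzM
          have g3 := ctr_err hM3 hD1 hDM hT1 hb0 hbM 1
          rw [pow_one] at g3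
          refine g3.trans ?_
          apply mul_le_mul_of_nonneg_left _ (by positivity)
          apply div_le_div_of_nonneg_right _ (by positivity)
          exact pow_le_pow_left₀ (td_nonneg _ _) (td_mono hz0 hb) 2) (by positivity)
      refine g2.trans (le_of_eq ?_)
      ring
    refine (sum_le_sum g1).trans ?_
    rw [← mul_sum]
    calc 192 * y ^ 2 / T * ∑ z ∈ Bx L (-M) M, td D z ^ 2 ≤ 192 * y ^ 2 / T * (L * M * y ^ 9) := by
          gcongr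
          exact h3 L hL1 hL2
      _ = 192 * y ^ 2 * (L * M * y ^ 9) / T := by ring
  -- together
  have p3 : ∀ l ∈ Icc 1 ⌊L⌋, |∑ m ∈ Icc ⌈-M⌉ ⌊M⌋, TTc (LF D) A1 A2 Q1 Q2 ⟨l, m⟩| ≤
      4 * T * y * |∑ m ∈ Icc ⌈-M⌉ ⌊M⌋, TTc c A1 A2 Q1 Q2 ⟨l, m⟩| +
      ∑ m ∈ Icc ⌈-M⌉ ⌊M⌋, |TTc (LF D) A1 A2 Q1 Q2 ⟨l, m⟩ - 4 * T * y * TTc c A1 A2 Q1 Q2 ⟨l, m⟩| := by
    intro l _
    have e1 : ∑ m ∈ Icc ⌈-M⌉ ⌊M⌋, TTc (LF D) A1 A2 Q1 Q2 ⟨l, m⟩ =
        4 * T * y * (∑ m ∈ Icc ⌈-M⌉ ⌊M⌋, TTc c A1 A2 Q1 Q2 ⟨l, m⟩) +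
        ∑ m ∈ Icc ⌈-M⌉ ⌊M⌋, (TTc (LF D) A1 A2 Q1 Q2 ⟨l, m⟩ - 4 * T * y * TTc c A1 A2 Q1 Q2 ⟨l, m⟩) := by
      rw [mul_sum, ← sum_add_distrib]
      apply sum_congr rfl
      intro m _
      ring
    rw [e1]
    refine (abs_add_le _ _).trans (add_le_add ?_ (abs_sum_le_sum_abs _ _))
    rw [abs_mul, abs_of_pos (show 0 < 4 * T * y by positivity)]
  refine (sum_le_sum p3).trans ?_
  rw [sum_add_distrib, ← mul_sum]
  have p4 : ∑ l ∈ Icc 1 ⌊L⌋, ∑ m ∈ Icc ⌈-M⌉ ⌊M⌋,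
      |TTc (LF D) A1 A2 Q1 Q2 ⟨l, m⟩ - 4 * T * y * TTc c A1 A2 Q1 Q2 ⟨l, m⟩| ≤ 192 * y ^ 2 * (L * M * y ^ 9) / T := by
    rw [← Bx_sum L (-M) M (fun z => |TTc (LF D) A1 A2 Q1 Q2 z - 4 * T * y * TTc c A1 A2 Q1 Q2 z|)]
    exact p2
  have p5 : 4 * T * y * (12 * y * (L * M / y ^ (A + E + 3))) ≤ L * M / y ^ A / 2 := by
    have e1 : 4 * T * y * (12 * y * (L * M / y ^ (A + E + 3))) = L * M / y ^ A * (48 / y) := by
      rw [hT, pow_add y (A + E), pow_add y A]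
      field_simp
      ring
    rw [e1]
    have e2 : 48 / y ≤ 1 / 2 := by
      rw [div_le_div_iff₀ hy0 (by norm_num)]
      linarith
    calc L * M / y ^ A * (48 / y) ≤ L * M / y ^ A * (1 / 2) := by gcongr
      _ = _ := by ring
  have p6 : 192 * y ^ 2 * (L * M * y ^ 9) / T ≤ L * M / y ^ A / 2 := by
    have e0 : y ^ (A + 12) ≤ T := pow_le_pow_right₀ hy1 hE
    calc 192 * y ^ 2 * (L * M * y ^ 9) / T ≤ 192 * y ^ 2 * (L * M * y ^ 9) / y ^ (A + 12) := by gcongr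
      _ = L * M / y ^ A * (192 / y) := by
          rw [pow_add y A]
          field_simp
      _ ≤ L * M / y ^ A * (1 / 2) := by
          apply mul_le_mul_of_nonneg_left _ (by positivity)
          rw [div_le_div_iff₀ hy0 (by norm_num)]
          linarith
      _ = _ := by ring
  have p7 := mul_le_mul_of_nonneg_left p1 (show 0 ≤ 4 * T * y by positivity)
  linarith

end Pool.Agent.J4.H69
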