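import Pool.Agent.J4.H69.LFe
import Pool.Agent.J4.H69.UBc
import Pool.Agent.N782.GN.All2

/-!
# The model: the main term
-/

set_option autoImplicit false

namespace Pool.Agent.J4.H69

open Finset Filter Topology
open Pool.Agent.N782.GN
open Pool.Agent.N855.GN (Dv mem_Dv logpow nz_one_le one_le_log bg)
open Pool.Agent.N277.GN (ct_nat_mul abs_be_le card_bl nz_pos nz_natCast)
open Pool.Agent.H304R3.HK (UH bb LamK CS)

theorem ct_mul_gen {x d : ZI} (hx : ct x = 1) (hd : d ≠ 0)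
    (h : Nat.Coprime (Zsqrtd.norm x).natAbs (Zsqrtd.norm d).natAbs) : ct (x * d) = ct d := by
  obtain ⟨w, hw0, hw1, hw⟩ := Pool.Agent.N277.GN.ct_exists hd
  have h1 : x * d = ((ct d : ℕ) : ZI) * (x * w) := by
    conv_lhs => rw [← hw]
    ring
  rw [h1, ct_nat_mul, ct_mul hx hw1, mul_one]
  apply Nat.Coprime.coprime_dvd_right _ h
  refine ⟨(Zsqrtd.norm ((ct d : ℕ) : ZI)).natAbs, ?_⟩
  conv_lhs => rw [← hw]
  rw [Zsqrtd.norm_mul, Int.natAbs_mul, mul_comm]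

theorem cop_norm {a b : ZI} (h : Nat.Coprime (Zsqrtd.norm a).natAbs (Zsqrtd.norm b).natAbs) : IsCoprime a b := by
  have h7 := (Nat.isCoprime_iff_coprime.2 h)
  have h8 := h7.map (Int.castRingHom ZI)
  have h9 : IsCoprime (((Zsqrtd.norm a).natAbs : ℕ) : ZI) (((Zsqrtd.norm b).natAbs : ℕ) : ZI) := by simpa using h8
  rw [← mul_star_self a, ← mul_star_self b] at h9
  exact IsCoprime.of_mul_left_left (IsCoprime.of_mul_right_left h9)

/-- a prime norm is coprime to a smaller norm -/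
theorem cop_small {a d : ZI} (ha : (Zsqrtd.norm a).natAbs.Prime) (hd : d ≠ 0) (h : nz d < nz a) :
    Nat.Coprime (Zsqrtd.norm a).natAbs (Zsqrtd.norm d).natAbs := by
  rw [Nat.Prime.coprime_iff_not_dvd ha]
  intro h1
  have h2 : 0 < (Zsqrtd.norm d).natAbs := by
    have := nz_pos hd
    rw [nz_nat] at this
    exact_mod_cast this
  have h3 := Nat.le_of_dvd h2 h1
  rw [nz_nat, nz_nat] at h
  have h4 : (Zsqrtd.norm d).natAbs < (Zsqrtd.norm a).natAbs := by exact_mod_cast h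
  omega

/-- the weights over the multiples of `b0` on average over `l`, any content -/
theorem XX_avg2 {M A1 A2 Q1 Q2 X L D E : ℝ} {b0 : ZI} (hM : 3 ≤ M) (hQ : 2 * M ^ 2 < Q1 ^ 2) (hQ0 : 0 < Q1)
    (hA2 : 1 ≤ A2) (hA2M : A2 ≤ M) (hAQ : A2 ≤ Q1) (hA1 : 1 ≤ A1) (hb0 : b0 ≠ 0) (hbA : nz b0 ≤ A1) (hA1Q : A1 ≤ Q1)
    (hD : Q2 * A2 * nz b0 ≤ D) (hDM : D ≤ 2 * M ^ 2)
    (hti : ∀ lam : ℤ → ℝ, Lm L lam →
      ∑ a ∈ bl D, |∑ l ∈ Icc 1 ⌊L⌋, lam l * (nm X a l - 2 * X * (kap l a / nz a))| ≤ E) :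
    ∑ l ∈ Icc 1 ⌊L⌋, |XX M A1 A2 Q1 Q2 X b0 l - 2 * X * Gc M A1 A2 Q1 Q2 * (kap l b0 / nz b0)| ≤ E := by
  classical
  have hy := one_le_log hM
  have hlw : ∀ a, lw A1 A2 a ≠ 0 → Nat.Coprime (Zsqrtd.norm a).natAbs (Zsqrtd.norm b0).natAbs := by
    intro a ha
    obtain ⟨h1, h2, h3⟩ := lw_ne ha
    exact cop_small h1 hb0 (by linarith)
  have hal : ∀ v, al Q1 Q2 v ≠ 0 → Nat.Coprime (Zsqrtd.norm v).natAbs (Zsqrtd.norm b0).natAbs := by
    intro v hv
    obtain ⟨h1, h2, h3⟩ := al_ne hv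
    exact cop_small h1 hb0 (by linarith)
  apply dual
  intro lam hlam
  have e1 : ∀ l ∈ Icc 1 ⌊L⌋, lam l * (XX M A1 A2 Q1 Q2 X b0 l - 2 * X * Gc M A1 A2 Q1 Q2 * (kap l b0 / nz b0)) =
      (∑ v ∈ bl Q2, ∑ a ∈ bl A2, al Q1 Q2 v * lw A1 A2 a *
        (lam l * (nm X (v * a * b0) l - 2 * X * (kap l (v * a * b0) / nz (v * a * b0))))) / (12 * Real.log M) := by
    intro l hl
    rw [mem_Icc] at hl
    rw [XX_eq hAQ (fun a ha => cop_norm (hlw a ha)) (fun v hv => cop_norm (hal v hv)) hl.1]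
    have e2 : 2 * X * Gc M A1 A2 Q1 Q2 * (kap l b0 / nz b0) =
        (∑ v ∈ bl Q2, ∑ a ∈ bl A2, al Q1 Q2 v * lw A1 A2 a * (2 * X * (kap l (v * a * b0) / nz (v * a * b0)))) /
          (12 * Real.log M) := by
      unfold Gc
      rw [sum_mul_sum]
      have e3 : ∀ v ∈ bl Q2, ∀ a ∈ bl A2, al Q1 Q2 v * lw A1 A2 a * (2 * X * (kap l (v * a * b0) / nz (v * a * b0))) =
          2 * X * (kap l b0 / nz b0) * (al Q1 Q2 v / nz v * (lw A1 A2 a / nz a)) := by
        intro v hv a ha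
        by_cases h1 : al Q1 Q2 v = 0
        · rw [h1]
          simp
        by_cases h2 : lw A1 A2 a = 0
        · rw [h2]
          simp
        obtain ⟨p1, p2, p3⟩ := al_ne h1
        obtain ⟨p4, p5, p6⟩ := lw_ne h2
        have hva : Nat.Coprime (Zsqrtd.norm v).natAbs (Zsqrtd.norm a).natAbs := by
          rw [Nat.coprime_primes p1 p4]
          intro h
          rw [nz_nat] at p2
          rw [nz_nat] at p6
          rw [h] at p2
          linarith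
        have hct : ct (v * a * b0) = ct b0 := by
          apply ct_mul_gen (ct_mul (ct_of_prime p1) (ct_of_prime p4) hva) hb0
          rw [Zsqrtd.norm_mul, Int.natAbs_mul]
          exact Nat.Coprime.mul_left (hal v h1) (hlw a h2)
        have hk : kap l (v * a * b0) = kap l b0 := by
          unfold kap
          rw [hct]
        rw [hk, nz_mul, nz_mul]
        have := nz_pos ((mem_bl _ _).1 hv).1
        have := nz_pos ((mem_bl _ _).1 ha).1
        have := nz_pos hb0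
        field_simp
      rw [sum_congr rfl fun v hv => sum_congr rfl fun a ha => e3 v hv a ha]
      simp only [← mul_sum]
      ring
    rw [e2, ← sub_div, mul_div_assoc', ← sum_sub_distrib, mul_sum]
    congr 1
    apply sum_congr rfl
    intro v _
    rw [← sum_sub_distrib, mul_sum]
    apply sum_congr rfl
    intro a _
    ring
  rw [sum_congr rfl e1, ← sum_div, abs_div, abs_of_pos (show 0 < 12 * Real.log M by positivity),
    div_le_iff₀ (by positivity)]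
  have e4 : ∑ l ∈ Icc 1 ⌊L⌋, ∑ v ∈ bl Q2, ∑ a ∈ bl A2, al Q1 Q2 v * lw A1 A2 a *
        (lam l * (nm X (v * a * b0) l - 2 * X * (kap l (v * a * b0) / nz (v * a * b0)))) =
      ∑ v ∈ bl Q2, ∑ a ∈ bl A2, al Q1 Q2 v * lw A1 A2 a *
        ∑ l ∈ Icc 1 ⌊L⌋, (lam l * (nm X (v * a * b0) l - 2 * X * (kap l (v * a * b0) / nz (v * a * b0)))) := by
    rw [sum_comm]
    apply sum_congr rfl
    intro v _
    rw [sum_comm]
    apply sum_congr rfl
    intro a _
    rw [mul_sum]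
  rw [e4]
  have e5 : |∑ v ∈ bl Q2, ∑ a ∈ bl A2, al Q1 Q2 v * lw A1 A2 a *
        ∑ l ∈ Icc 1 ⌊L⌋, (lam l * (nm X (v * a * b0) l - 2 * X * (kap l (v * a * b0) / nz (v * a * b0))))| ≤
      ∑ v ∈ bl Q2, ∑ a ∈ bl A2, al Q1 Q2 v * lw A1 A2 a *
        |∑ l ∈ Icc 1 ⌊L⌋, (lam l * (nm X (v * a * b0) l - 2 * X * (kap l (v * a * b0) / nz (v * a * b0))))| := by
    refine (abs_sum_le_sum_abs _ _).trans (sum_le_sum fun v _ => ?_)
    refine (abs_sum_le_sum_abs _ _).trans (sum_le_sum fun a _ => ?_)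
    rw [abs_mul, abs_of_nonneg (mul_nonneg (al_nonneg _ _ _) (lw_nonneg _ _ _))]
  refine e5.trans ?_
  refine (group4 (by linarith) hQ hQ0 hA2 hb0 hD hDM
    (fun z => |∑ l ∈ Icc 1 ⌊L⌋, (lam l * (nm X z l - 2 * X * (kap l z / nz z)))|) (fun z => abs_nonneg _)).trans ?_
  have h1 := hti lam hlam
  have h2 : Real.log A2 ≤ Real.log M := Real.log_le_log (by linarith) hA2M
  have h3 : 0 ≤ Real.log A2 := Real.log_nonneg hA2
  have h4 : 0 ≤ E := le_trans (sum_nonneg fun _ _ => abs_nonneg _) h1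
  calc Real.log A2 * (4 * ∑ z ∈ bl D, |∑ l ∈ Icc 1 ⌊L⌋, (lam l * (nm X z l - 2 * X * (kap l z / nz z)))|) ≤
        Real.log M * (4 * E) := by gcongr
    _ ≤ E * (12 * Real.log M) := by nlinarith

/-- the small divisors of `z` and of a cofactor -/
theorem sl_cof {D : ℝ} {u b : ZI} (hu : u ≠ 0) (hb : b ≠ 0)
    (h : ∀ d : ZI, d ≠ 0 → nz d ≤ D → IsCoprime d u) : sl D (u * b) = sl D b := by
  classical
  unfold sl
  apply sum_congr _ fun _ _ => rfl
  ext d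
  rw [mem_filter, mem_filter, mem_Dv (mul_ne_zero hu hb), mem_Dv hb]
  constructor
  · rintro ⟨h1, h2⟩
    have hd0 : d ≠ 0 := by
      rintro rfl
      exact mul_ne_zero hu hb (zero_dvd_iff.1 h1)
    exact ⟨(h d hd0 h2).dvd_of_dvd_mul_left h1, h2⟩
  · rintro ⟨h1, h2⟩
    exact ⟨h1.mul_left u, h2⟩

/-- the sum over the factorizations with the short divisor sum -/
theorem TTc_sl {M A1 A2 Q1 Q2 D : ℝ} (hM : 3 ≤ M) (hAQ : A2 ≤ Q1) (hDA : D ≤ A1) (hAQ1 : A1 ≤ Q1) {z : ZI}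
    (hz : z ≠ 0) : TTc (sl D) A1 A2 Q1 Q2 z = 12 * Real.log M * (Wt M A1 A2 Q1 Q2 z * sl D z) := by
  classical
  have hy := one_le_log hM
  unfold TTc Wt ds
  have e1 : 12 * Real.log M * ((∑ v ∈ Dv z, al Q1 Q2 v) * (∑ a ∈ Dv z, lw A1 A2 a) / (12 * Real.log M) * sl D z) =
      ∑ v ∈ Dv z, al Q1 Q2 v * ((∑ a ∈ Dv z, lw A1 A2 a) * sl D z) := by
    rw [← sum_mul]
    field_simp
  rw [e1]
  apply sum_congr rfl
  intro v hv
  rw [mem_Dv hz] at hv
  by_cases hv1 : al Q1 Q2 v = 0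
  · rw [hv1]
    ring
  congr 1
  obtain ⟨p1, p2, p3⟩ := al_ne hv1
  obtain ⟨w, hw⟩ := hv
  have hv0 := ne_zero_of_prime p1
  have hw0 : w ≠ 0 := by
    rintro rfl
    rw [mul_zero] at hw
    exact hz hw
  have e2 : z / v = w := by
    rw [hw]
    exact div_of_mul hv0
  rw [e2]
  have e3 : ∑ a ∈ Dv z, lw A1 A2 a = ∑ a ∈ Dv w, lw A1 A2 a := by
    have := ds_cop (f := lw A1 A2) hv0 hw0 (fun a ha => by
      obtain ⟨h5, h6, h7⟩ := lw_ne ha
      exact cop_of_ne h5 p1 (by linarith))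
    unfold ds at this
    rw [hw]
    exact this
  rw [e3, sum_mul]
  apply sum_congr rfl
  intro a ha
  rw [mem_Dv hw0] at ha
  by_cases ha1 : lw A1 A2 a = 0
  · rw [ha1]
    ring
  congr 1
  obtain ⟨p4, p5, p6⟩ := lw_ne ha1
  obtain ⟨b, hb⟩ := ha
  have ha0 := ne_zero_of_prime p4
  have hb0 : b ≠ 0 := by
    rintro rfl
    rw [mul_zero] at hb
    exact hw0 hb
  have e4 : w / a = b := by
    rw [hb]
    exact div_of_mul ha0
  rw [e4, hw, hb, ← mul_assoc, sl_cof (mul_ne_zero hv0 ha0) hb0]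
  intro d hd0 hd
  apply IsCoprime.mul_right
  · exact (cop_norm (cop_small p1 hd0 (by linarith))).symm
  · exact (cop_norm (cop_small p4 hd0 (by linarith))).symm

/-- the sum over `m` of the weight with the short divisor sum -/
theorem sum_Wt_sl {M A1 A2 Q1 Q2 D : ℝ} {l : ℤ} (hl : 1 ≤ l) :
    ∑ m ∈ Icc ⌈-M⌉ ⌊M⌋, Wt M A1 A2 Q1 Q2 (⟨l, m⟩ : ZI) * sl D ⟨l, m⟩ =
      ∑ d ∈ bl D, mu d * Real.log (nz d) * XX M A1 A2 Q1 Q2 M d l := by
  classical
  have hne : ∀ m : ℤ, (⟨l, m⟩ : ZI) ≠ 0 := by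
    intro m h
    have := congrArg Zsqrtd.re h
    simp at this
    omega
  have h1 : ∀ m ∈ Icc ⌈-M⌉ ⌊M⌋, Wt M A1 A2 Q1 Q2 (⟨l, m⟩ : ZI) * sl D ⟨l, m⟩ =
      ∑ d ∈ bl D, mu d * Real.log (nz d) * (if d ∣ (⟨l, m⟩ : ZI) then Wt M A1 A2 Q1 Q2 (⟨l, m⟩ : ZI) else 0) := by
    intro m _
    have h2 : sl D ⟨l, m⟩ = ∑ d ∈ (bl D).filter (fun d => d ∣ (⟨l, m⟩ : ZI)), mu d * Real.log (nz d) := by
      unfold sl
      apply sum_congr _ fun _ _ => rfl
      ext d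
      rw [mem_filter, mem_filter, mem_Dv (hne m), mem_bl]
      constructor
      · rintro ⟨h1, h2⟩
        refine ⟨⟨?_, h2⟩, h1⟩
        rintro rfl
        exact hne m (zero_dvd_iff.1 h1)
      · rintro ⟨⟨-, h2⟩, h1⟩
        exact ⟨h1, h2⟩
    rw [h2, sum_filter, mul_sum]
    apply sum_congr rfl
    intro d _
    split_ifs <;> ring
  rw [sum_congr rfl h1, sum_comm]
  apply sum_congr rfl
  intro d _
  rw [← mul_sum]
  rfl

/-- the constant of the main term -/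
theorem gc_bd2 {δ : ℝ} (hδ : 0 < δ) (hδ1 : δ ≤ 1) : ∀ᶠ M : ℝ in atTop,
    δ ^ 2 / 12288 ≤ Gc M (M ^ (δ / 128)) (M ^ (5 * (δ / 128) / 4)) (M ^ (1 + δ / 4)) (M ^ (1 + δ / 2)) ∧
    Gc M (M ^ (δ / 128)) (M ^ (5 * (δ / 128) / 4)) (M ^ (1 + δ / 4)) (M ^ (1 + δ / 2)) ≤ 1 := by
  obtain ⟨C, hC, h⟩ := mert2 c_mub c_el
  have h1 := (tendsto_rpow_atTop (show 0 < δ / 128 by positivity)).eventually h
  have h2 := (tendsto_rpow_atTop (show 0 < 1 + δ / 4 by positivity)).eventually h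
  have h3 : ∀ᶠ M : ℝ in atTop, 256 * (C + 1) / δ ≤ Real.log M := Real.tendsto_log_atTop.eventually_ge_atTop _
  filter_upwards [h1, h2, h3, eventually_ge_atTop 3] with M h1 h2 h3 hM3
  have hM0 : 0 < M := by linarith
  have hM1 : 1 ≤ M := by linarith
  set y := Real.log M with hy
  have hy1 : 1 ≤ y := one_le_log hM3
  rw [div_le_iff₀ hδ] at h3
  have h1' := h1 (M ^ (5 * (δ / 128) / 4)) (Real.rpow_le_rpow_of_exponent_le hM1 (by linarith))
    (by
      rw [← Real.rpow_mul hM0.le]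
      exact Real.rpow_le_rpow_of_exponent_le hM1 (by linarith))
  have h2' := h2 (M ^ (1 + δ / 2)) (Real.rpow_le_rpow_of_exponent_le hM1 (by linarith))
    (by
      rw [← Real.rpow_mul hM0.le]
      exact Real.rpow_le_rpow_of_exponent_le hM1 (by linarith))
  rw [Real.log_rpow hM0, Real.log_rpow hM0, ← hy] at h1' h2'
  have hQ1 : 1 < M ^ (1 + δ / 4) := Real.one_lt_rpow (by linarith) (by linarith)
  have hQ2 : 1 < M ^ (1 + δ / 2) := Real.one_lt_rpow (by linarith) (by linarith)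
  have e1 := al_sum_le (Q2 := M ^ (1 + δ / 2)) hQ1
  have e2 := al_sum_ge (Q1 := M ^ (1 + δ / 4)) hQ2
  rw [Real.log_rpow hM0, ← hy] at e1 e2
  unfold Gc
  rw [lw_sum]
  set Sa := ∑ a ∈ bg (M ^ (δ / 128)) (M ^ (5 * (δ / 128) / 4)), lp a / nz a with hSa
  set Sq := ∑ v ∈ bg (M ^ (1 + δ / 4)) (M ^ (1 + δ / 2)), lp v / nz v with hSq
  set Sv := ∑ v ∈ bl (M ^ (1 + δ / 2)), al (M ^ (1 + δ / 4)) (M ^ (1 + δ / 2)) v / nz v with hSv
  rw [abs_le] at h1' h2'
  have a1 : δ / 256 * y ≤ Sa := by nlinarith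
  have a2 : Sa ≤ 2 * y := by nlinarith
  have a3 : δ / 2 * y ≤ Sq := by nlinarith
  have a4 : Sq ≤ 2 * y := by nlinarith
  have hSv0 : 0 ≤ Sv := sum_nonneg fun v hv => div_nonneg (al_nonneg _ _ _) (nz_nonneg v)
  have a5 : δ / 4 ≤ Sv := by
    have : δ / 2 * y ≤ 2 * y * Sv := by
      calc δ / 2 * y ≤ (1 + δ / 2) * y * Sv := a3.trans e2
        _ ≤ 2 * y * Sv := by
            apply mul_le_mul_of_nonneg_right _ hSv0
            nlinarith
    have h5 : y * (δ / 4) ≤ y * Sv := by linarith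
    exact le_of_mul_le_mul_left h5 (by linarith)
  have a6 : Sv ≤ 2 := by
    have : y * Sv ≤ y * 2 := by
      calc y * Sv ≤ (1 + δ / 4) * y * Sv := by
            apply mul_le_mul_of_nonneg_right _ hSv0
            nlinarith
        _ ≤ y * 2 := by linarith
    exact le_of_mul_le_mul_left this (by linarith)
  have hSa0 : 0 ≤ Sa := le_trans (by positivity) a1
  constructor
  · rw [le_div_iff₀ (by positivity)]
    calc δ ^ 2 / 12288 * (12 * y) = (δ / 4) * (δ / 256 * y) := by ring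
      _ ≤ Sv * Sa := mul_le_mul a5 a1 (by positivity) hSv0
  · rw [div_le_iff₀ (by positivity)]
    calc Sv * Sa ≤ 2 * (2 * y) := mul_le_mul a6 a2 hSa0 (by norm_num)
      _ ≤ 1 * (12 * y) := by linarith

/-- **the main term of the model** -/
theorem model {δ η0 : ℝ} (hδ : 0 < δ) (hδ1 : δ ≤ 1) (hη0 : 0 < η0) (hη : η0 ≤ δ / 200) (A : ℕ) :
    ∀ᶠ M : ℝ in atTop, ∀ L : ℝ, M ^ δ ≤ L → L ≤ M ^ (1 - δ) →
    ∑ l ∈ Icc 1 ⌊L⌋, |∑ m ∈ Icc ⌈-M⌉ ⌊M⌋, 1 / 4 * TTc (sl (M ^ η0)) (M ^ (δ / 128)) (M ^ (5 * (δ / 128) / 4))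
      (M ^ (1 + δ / 4)) (M ^ (1 + δ / 2)) ⟨l, m⟩ +
      2 * M * (12 * Real.log M * Gc M (M ^ (δ / 128)) (M ^ (5 * (δ / 128) / 4)) (M ^ (1 + δ / 4)) (M ^ (1 + δ / 2))) *
        SS l| ≤ L * M / (Real.log M) ^ A := by
  classical
  obtain ⟨C, hC, hti⟩ := c_ti (δ / 8) (by positivity)
  obtain ⟨C2, hC2, hmt⟩ := c_mt1 (A + 3)
  have d1 : ∀ᶠ M : ℝ in atTop, (3 : ℝ) ≤ M ^ η0 := (tendsto_rpow_atTop hη0).eventually_ge_atTop _
  have d2 : ∀ᶠ M : ℝ in atTop, (3 : ℝ) ≤ M ^ (δ / 4) := (tendsto_rpow_atTop (by positivity)).eventually_ge_atTop _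
  have d3 := logpow (A + 2) (show 0 < δ / 200 by positivity) (show 0 < 1 / (54 * C) by positivity)
  have d4 : ∀ᶠ M : ℝ in atTop, max 2 (96 * C2 / η0 ^ (A + 3)) ≤ Real.log M :=
    Real.tendsto_log_atTop.eventually_ge_atTop _
  filter_upwards [d1, d2, d3, d4, gc_bd2 hδ hδ1, eventually_ge_atTop 3] with M d1 d2 d3 d4 d5 hM3
  intro L hL1 hL2
  have hM0 : 0 < M := by linarith
  have hM1 : 1 ≤ M := by linarith
  have hpw : ∀ s t : ℝ, s ≤ t → M ^ s ≤ M ^ t := fun s t hst => Real.rpow_le_rpow_of_exponent_le hM1 hst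
  set y := Real.log M with hy
  have hy1 : 1 ≤ y := one_le_log hM3
  have hy0 : 0 < y := by linarith
  set D := M ^ η0 with hD
  have hD0 : 0 < D := by positivity
  have hD1 : 1 ≤ D := by linarith
  have hL0 : 0 < L := lt_of_lt_of_le (by positivity) hL1
  have hL11 : 1 ≤ L := (Real.one_le_rpow hM1 hδ.le).trans hL1
  have hLM : L ≤ M := by
    refine hL2.trans ?_
    calc M ^ (1 - δ) ≤ M ^ (1 : ℝ) := hpw _ _ (by linarith)
      _ = M := Real.rpow_one M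
  set A1 := M ^ (δ / 128) with hA1
  set A2 := M ^ (5 * (δ / 128) / 4) with hA2
  set Q1 := M ^ (1 + δ / 4) with hQ1
  set Q2 := M ^ (1 + δ / 2) with hQ2
  have hDA1 : D ≤ A1 := hpw _ _ (by linarith)
  have hA12 : A1 ≤ A2 := hpw _ _ (by linarith)
  have hA1Q : A1 ≤ Q1 := hpw _ _ (by linarith)
  have hA2Q : A2 ≤ Q1 := hpw _ _ (by linarith)
  have hA11 : 1 ≤ A1 := by linarith
  have hA21 : 1 ≤ A2 := by linarith
  have hA2M : A2 ≤ M := by
    calc A2 ≤ M ^ (1 : ℝ) := hpw _ _ (by linarith)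
      _ = M := Real.rpow_one M
  have hQ0 : 0 < Q1 := by positivity
  have hQ : 2 * M ^ 2 < Q1 ^ 2 := by
    have e1 : Q1 = M * M ^ (δ / 4) := by rw [hQ1, Real.rpow_add hM0, Real.rpow_one]
    rw [e1, mul_pow]
    have : (2 : ℝ) < (M ^ (δ / 4)) ^ 2 := by nlinarith
    have : 0 < M ^ 2 := by positivity
    nlinarith
  set G := Gc M A1 A2 Q1 Q2 with hG
  -- the range of the moduli
  set D' := M ^ (1 + 3 * δ / 4) with hD'
  have hD'1 : 1 ≤ D' := Real.one_le_rpow hM1 (by linarith)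
  have hD'2 : D' ≤ L * M ^ (1 - δ / 8) := by
    calc D' ≤ M ^ (δ + (1 - δ / 8)) := hpw _ _ (by linarith)
      _ = M ^ δ * M ^ (1 - δ / 8) := Real.rpow_add hM0 _ _
      _ ≤ L * M ^ (1 - δ / 8) := by gcongr
  have hD'3 : D' ≤ 2 * M ^ 2 := by
    have : D' ≤ M ^ (2 : ℝ) := hpw _ _ (by linarith)
    rw [show (M : ℝ) ^ (2 : ℝ) = M ^ 2 by rw [← Real.rpow_natCast]; norm_num] at this
    have h2 : 0 ≤ M ^ 2 := by positivity
    linarith
  set E := C * L * M ^ (1 - δ / 8 / 10) with hE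
  have hXX : ∀ d ∈ bl D, ∑ l ∈ Icc 1 ⌊L⌋, |XX M A1 A2 Q1 Q2 M d l - 2 * M * G * (kap l d / nz d)| ≤ E := by
    intro d hd
    obtain ⟨hd0, hdD⟩ := (mem_bl _ _).1 hd
    apply XX_avg2 (D := D') hM3 hQ hQ0 hA21 hA2M hA2Q hA11 hd0 (by linarith) hA1Q _ hD'3
    · intro lam hlam
      exact hti M L D' lam (by linarith) hL11 (hL2.trans (hpw _ _ (by linarith))) hD'1 hD'2 hlam
    · calc Q2 * A2 * nz d ≤ Q2 * A2 * D := by gcongr
        _ = M ^ (1 + δ / 2 + 5 * (δ / 128) / 4 + η0) := by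
            rw [Real.rpow_add hM0, Real.rpow_add hM0]
        _ ≤ D' := hpw _ _ (by linarith)
  -- the sums
  have e1 : ∀ l ∈ Icc 1 ⌊L⌋, ∑ m ∈ Icc ⌈-M⌉ ⌊M⌋, 1 / 4 * TTc (sl D) A1 A2 Q1 Q2 ⟨l, m⟩ +
      2 * M * (12 * y * G) * SS l = 3 * y * ∑ d ∈ bl D, mu d * Real.log (nz d) *
        (XX M A1 A2 Q1 Q2 M d l - 2 * M * G * (kap l d / nz d)) +
      24 * y * M * G * (1 / 4 * ∑ b ∈ bl D, mu b * (kap l b / nz b) * Real.log (nz b) + SS l) := by
    intro l hl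
    rw [mem_Icc] at hl
    have hne : ∀ m : ℤ, (⟨l, m⟩ : ZI) ≠ 0 := by
      intro m h
      have := congrArg Zsqrtd.re h
      simp at this
      omega
    have e2 : ∑ m ∈ Icc ⌈-M⌉ ⌊M⌋, 1 / 4 * TTc (sl D) A1 A2 Q1 Q2 ⟨l, m⟩ =
        3 * y * ∑ d ∈ bl D, mu d * Real.log (nz d) * XX M A1 A2 Q1 Q2 M d l := by
      rw [← sum_Wt_sl hl.1, mul_sum]
      apply sum_congr rfl
      intro m _
      rw [TTc_sl hM3 hA2Q hDA1 hA1Q (hne m)]
      ring
    rw [e2]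
    have e3 : ∑ d ∈ bl D, mu d * Real.log (nz d) * (XX M A1 A2 Q1 Q2 M d l - 2 * M * G * (kap l d / nz d)) =
        ∑ d ∈ bl D, mu d * Real.log (nz d) * XX M A1 A2 Q1 Q2 M d l -
          2 * M * G * ∑ b ∈ bl D, mu b * (kap l b / nz b) * Real.log (nz b) := by
      rw [mul_sum, ← sum_sub_distrib]
      apply sum_congr rfl
      intro d _
      ring
    rw [e3]
    ring
  have hG0 : 0 ≤ G := by
    rw [hG]
    unfold Gc
    apply div_nonneg _ (by positivity)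
    apply mul_nonneg
    · exact sum_nonneg fun v _ => div_nonneg (al_nonneg _ _ _) (nz_nonneg _)
    · exact sum_nonneg fun a _ => div_nonneg (lw_nonneg _ _ _) (nz_nonneg _)
  have hG1 : G ≤ 1 := d5.2
  rw [sum_congr rfl fun l hl => by rw [e1 l hl]]
  have hb1 : ∑ l ∈ Icc 1 ⌊L⌋, |3 * y * ∑ d ∈ bl D, mu d * Real.log (nz d) *
        (XX M A1 A2 Q1 Q2 M d l - 2 * M * G * (kap l d / nz d))| ≤ 27 * D * y ^ 2 * E := by
    calc ∑ l ∈ Icc 1 ⌊L⌋, |3 * y * ∑ d ∈ bl D, mu d * Real.log (nz d) *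
        (XX M A1 A2 Q1 Q2 M d l - 2 * M * G * (kap l d / nz d))| ≤
        ∑ l ∈ Icc 1 ⌊L⌋, ∑ d ∈ bl D, 3 * y * (y * |XX M A1 A2 Q1 Q2 M d l - 2 * M * G * (kap l d / nz d)|) := by
          apply sum_le_sum
          intro l _
          rw [abs_mul, abs_of_pos (show 0 < 3 * y by positivity), ← mul_sum]
          apply mul_le_mul_of_nonneg_left _ (by positivity)
          refine (abs_sum_le_sum_abs _ _).trans (sum_le_sum fun d hd => ?_)
          obtain ⟨hd0, hdD⟩ := (mem_bl _ _).1 hd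
          rw [abs_mul, abs_mul]
          apply mul_le_mul_of_nonneg_right _ (abs_nonneg _)
          have h1 : |mu d| ≤ 1 := abs_mu_le d
          have h2 : |Real.log (nz d)| ≤ y := by
            rw [abs_of_nonneg (Real.log_nonneg (one_le_nz hd0))]
            exact Real.log_le_log (nz_pos hd0) (hdD.trans ((by linarith : D ≤ A2).trans hA2M))
          calc |mu d| * |Real.log (nz d)| ≤ 1 * y := mul_le_mul h1 h2 (abs_nonneg _) (by norm_num)
            _ = y := one_mul y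
      _ = 3 * y ^ 2 * ∑ d ∈ bl D, ∑ l ∈ Icc 1 ⌊L⌋, |XX M A1 A2 Q1 Q2 M d l - 2 * M * G * (kap l d / nz d)| := by
          rw [sum_comm, mul_sum]
          apply sum_congr rfl
          intro d _
          rw [← mul_sum, ← mul_sum]
          ring
      _ ≤ 3 * y ^ 2 * ∑ d ∈ bl D, E := by
          apply mul_le_mul_of_nonneg_left _ (by positivity)
          exact sum_le_sum fun d hd => hXX d hd
      _ ≤ 3 * y ^ 2 * ((9 * D) * E) := by
          rw [sum_const, nsmul_eq_mul]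
          apply mul_le_mul_of_nonneg_left _ (by positivity)
          apply mul_le_mul_of_nonneg_right _ (by positivity)
          exact card_bl D hD1
      _ = 27 * D * y ^ 2 * E := by ring
  have hb2 : ∑ l ∈ Icc 1 ⌊L⌋, |24 * y * M * G * (1 / 4 * ∑ b ∈ bl D, mu b * (kap l b / nz b) * Real.log (nz b) + SS l)| ≤
      24 * y * M * (C2 * L / (Real.log D) ^ (A + 3)) := by
    calc ∑ l ∈ Icc 1 ⌊L⌋, |24 * y * M * G * (1 / 4 * ∑ b ∈ bl D, mu b * (kap l b / nz b) * Real.log (nz b) + SS l)| =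
          24 * y * M * G * ∑ l ∈ Icc 1 ⌊L⌋,
            |1 / 4 * ∑ b ∈ bl D, mu b * (kap l b / nz b) * Real.log (nz b) + SS l| := by
          rw [mul_sum]
          apply sum_congr rfl
          intro l _
          rw [abs_mul, abs_of_nonneg (show 0 ≤ 24 * y * M * G by positivity)]
      _ ≤ 24 * y * M * G * (C2 * L / (Real.log D) ^ (A + 3)) := by
          apply mul_le_mul_of_nonneg_left _ (by positivity)
          exact (hmt L D hL11 d1).2
      _ ≤ 24 * y * M * 1 * (C2 * L / (Real.log D) ^ (A + 3)) := by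
          have : 0 ≤ C2 * L / (Real.log D) ^ (A + 3) := by
            have := Real.log_nonneg hD1
            positivity
          gcongr
      _ = 24 * y * M * (C2 * L / (Real.log D) ^ (A + 3)) := by ring
  have hb3 : 27 * D * y ^ 2 * E ≤ 1 / 2 * (L * M / y ^ A) := by
    rw [mul_div_assoc', le_div_iff₀ (by positivity), hE]
    have e5 : D * M ^ (1 - δ / 8 / 10) * M ^ (δ / 200) ≤ M := by
      calc D * M ^ (1 - δ / 8 / 10) * M ^ (δ / 200) = M ^ (η0 + (1 - δ / 8 / 10) + δ / 200) := by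
            rw [Real.rpow_add hM0, Real.rpow_add hM0]
        _ ≤ M ^ (1 : ℝ) := hpw _ _ (by linarith)
        _ = M := Real.rpow_one M
    calc 27 * D * y ^ 2 * (C * L * M ^ (1 - δ / 8 / 10)) * y ^ A =
        27 * C * L * (D * M ^ (1 - δ / 8 / 10)) * y ^ (A + 2) := by ring
      _ ≤ 27 * C * L * (D * M ^ (1 - δ / 8 / 10)) * (1 / (54 * C) * M ^ (δ / 200)) := by gcongr
      _ = 1 / 2 * L * (D * M ^ (1 - δ / 8 / 10) * M ^ (δ / 200)) := by
          field_simp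
          ring
      _ ≤ 1 / 2 * L * M := by gcongr
      _ = 1 / 2 * (L * M) := by ring
  have hb4 : 24 * y * M * (C2 * L / (Real.log D) ^ (A + 3)) ≤ 1 / 2 * (L * M / y ^ A) := by
    rw [hD, Real.log_rpow hM0, ← hy]
    have e6 : 48 * C2 / η0 ^ (A + 3) ≤ y := by
      refine le_trans ?_ ((le_max_right _ _).trans d4)
      gcongr
      norm_num
    rw [div_le_iff₀ (by positivity)] at e6
    rw [mul_pow, mul_div_assoc', mul_div_assoc', div_le_div_iff₀ (by positivity) (by positivity)]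
    calc 24 * y * M * (C2 * L) * y ^ A = 1 / 2 * (L * M) * (48 * C2) * y ^ (A + 1) := by ring
      _ ≤ 1 / 2 * (L * M) * (y * η0 ^ (A + 3)) * y ^ (A + 1) := by gcongr
      _ ≤ 1 / 2 * (L * M) * (y * η0 ^ (A + 3)) * y ^ (A + 1) * y := le_mul_of_one_le_right (by positivity) hy1
      _ = 1 / 2 * (L * M) * (η0 ^ (A + 3) * y ^ (A + 3)) := by ring
  calc _ ≤ ∑ l ∈ Icc 1 ⌊L⌋, (|3 * y * ∑ d ∈ bl D, mu d * Real.log (nz d) *
        (XX M A1 A2 Q1 Q2 M d l - 2 * M * G * (kap l d / nz d))| +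
        |24 * y * M * G * (1 / 4 * ∑ b ∈ bl D, mu b * (kap l b / nz b) * Real.log (nz b) + SS l)|) :=
        sum_le_sum fun l _ => abs_add_le _ _
    _ ≤ 1 / 2 * (L * M / y ^ A) + 1 / 2 * (L * M / y ^ A) := by
        rw [sum_add_distrib]
        linarith
    _ = L * M / y ^ A := by ring

end Pool.Agent.J4.H69
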