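import Pool.Agent.J4.H69.LFg

/-!
# Additional small factors
-/

set_option autoImplicit false

namespace Pool.Agent.J4.H69

open Finset Filter Topology
open Pool.Agent.N782.GN
open Pool.Agent.N855.GN (Dv mem_Dv logpow nz_one_le one_le_log bg)
open Pool.Agent.N277.GN (ct_nat_mul abs_be_le card_bl nz_pos nz_natCast)
open Pool.Agent.H304R3.HK (UH bb LamK CS)

/-- the convolution with the weight `f` -/
noncomputable def cvf (f c : ZI → ℝ) (b : ZI) : ℝ := ∑ u ∈ Dv b, f u * c (b / u)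

/-- a weight of small numbers whose prime factors are not very small -/
structure Sm (M U C D0 : ℝ) (f : ZI → ℝ) : Prop where
  nonneg : ∀ u, 0 ≤ f u
  ne : ∀ u, f u ≠ 0 → u ≠ 0 ∧ nz u ≤ U ∧ ct u = 1 ∧
    ∀ d : ZI, d ≠ 0 → nz d ≤ D0 → Nat.Coprime (Zsqrtd.norm u).natAbs (Zsqrtd.norm d).natAbs
  few : ∀ z : ZI, z ≠ 0 → nz z ≤ 2 * M ^ 2 → ds f z ≤ C
  tot : ∑ u ∈ bl U, f u / nz u ≤ C

theorem ne_of_mem_Dv {z d : ZI} (h : d ∈ Dv z) : d ≠ 0 := by
  classical
  unfold Dv at h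
  exact ((mem_bl _ _).1 (mem_filter.1 h).1).1

theorem dvd_of_mem_Dv {z d : ZI} (h : d ∈ Dv z) : d ∣ z := by
  classical
  unfold Dv at h
  exact (mem_filter.1 h).2

theorem cvf_abs {f c : ZI → ℝ} {M U C D0 B : ℝ} (hf : Sm M U C D0 f) {b : ZI} (hb : b ≠ 0) (hbM : nz b ≤ 2 * M ^ 2)
    (hB : 0 ≤ B) (hc : ∀ u b', b = u * b' → |c b'| ≤ B) : |cvf f c b| ≤ C * B := by
  classical
  unfold cvf
  refine (abs_sum_le_sum_abs _ _).trans ?_
  calc ∑ u ∈ Dv b, |f u * c (b / u)| ≤ ∑ u ∈ Dv b, f u * B := by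
        apply sum_le_sum
        intro u hu
        obtain ⟨b', hb'⟩ := dvd_of_mem_Dv hu
        have e1 : b / u = b' := by
          rw [hb']
          exact div_of_mul (ne_of_mem_Dv hu)
        rw [abs_mul, abs_of_nonneg (hf.nonneg u), e1]
        exact mul_le_mul_of_nonneg_left (hc u b' hb') (hf.nonneg u)
    _ = ds f b * B := by
        unfold ds
        rw [sum_mul]
    _ ≤ C * B := mul_le_mul_of_nonneg_right (hf.few b hb hbM) hB

theorem cvf_sub (f c c' : ZI → ℝ) (t : ℝ) (b : ZI) :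
    cvf f c b - t * cvf f c' b = cvf f (fun b => c b - t * c' b) b := by
  unfold cvf
  rw [mul_sum, ← sum_sub_distrib]
  apply sum_congr rfl
  intro u _
  ring

open Classical in
/-- the class sums of the convolution -/
theorem cvf_cls {f c : ZI → ℝ} {M U C D0 : ℝ} (hf : Sm M U C D0 f) {q : ℕ} {r : ZI} {Y W : ℝ} (hq : 1 ≤ q)
    (hqD : (q : ℝ) ^ 2 ≤ D0) (hW : 0 ≤ W)
    (h : ∀ u r', f u ≠ 0 → |∑ t ∈ cls q r' (Y / nz u), c t| ≤ W / nz u) :
    |∑ t ∈ cls q r Y, cvf f c t| ≤ C * W := by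
  have hq0 : ((q : ℕ) : ZI) ≠ 0 := by
    have : q ≠ 0 := by omega
    exact_mod_cast this
  have hqn : nz ((q : ℕ) : ZI) = (q : ℝ) ^ 2 := nz_natCast q
  have e1 : ∑ t ∈ cls q r Y, cvf f c t = ∑ u ∈ bl Y, ∑ t ∈ (cls q r Y).filter (fun t => u ∣ t), f u * c (t / u) := by
    have e2 : ∀ t ∈ cls q r Y, cvf f c t = ∑ u ∈ bl Y, if u ∣ t then f u * c (t / u) else 0 := by
      intro t ht
      rw [Pool.Agent.N106.GN.mem_cls] at ht
      unfold cvf
      rw [← sum_filter]
      apply sum_congr _ fun _ _ => rfl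
      ext u
      rw [mem_filter, mem_bl, mem_Dv ht.1]
      constructor
      · intro h1
        refine ⟨⟨?_, (nz_le_of_dvd ht.1 h1).trans ht.2.1⟩, h1⟩
        rintro rfl
        exact ht.1 (zero_dvd_iff.1 h1)
      · exact fun h1 => h1.2
    rw [sum_congr rfl e2, sum_comm]
    apply sum_congr rfl
    intro u _
    rw [sum_filter]
  have e3 : ∀ u ∈ bl Y, |∑ t ∈ (cls q r Y).filter (fun t => u ∣ t), f u * c (t / u)| ≤ W * (f u / nz u) := by
    intro u hu
    obtain ⟨hu0, huY⟩ := (mem_bl _ _).1 hu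
    have hup := nz_pos hu0
    by_cases hfu : f u = 0
    · have : ∑ t ∈ (cls q r Y).filter (fun t => u ∣ t), f u * c (t / u) = 0 := by
        apply sum_eq_zero
        intro t _
        rw [hfu, zero_mul]
      rw [this, abs_zero, hfu]
      simp
    obtain ⟨-, hU, hct, hcop⟩ := hf.ne u hfu
    have h1 := cop_norm (hcop ((q : ℕ) : ZI) hq0 (by rw [hqn]; exact hqD))
    obtain ⟨x, w, hxw⟩ := h1
    -- x * u + w * q = 1
    have e4 : ∑ t ∈ (cls q r Y).filter (fun t => u ∣ t), f u * c (t / u) =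
        f u * ∑ t ∈ cls q (x * r) (Y / nz u), c t := by
      rw [mul_sum]
      symm
      apply sum_bij (fun b _ => u * b)
      · intro b hb
        rw [Pool.Agent.N106.GN.mem_cls] at hb
        rw [mem_filter, Pool.Agent.N106.GN.mem_cls, nz_mul]
        obtain ⟨hb0, hbY, hbq⟩ := hb
        refine ⟨⟨mul_ne_zero hu0 hb0, ?_, ?_⟩, dvd_mul_right _ _⟩
        · rw [le_div_iff₀ hup] at hbY
          linarith
        · have e5 : u * b - r = u * (b - x * r) - w * r * ((q : ℕ) : ZI) := by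
            have : r = (x * u + w * ((q : ℕ) : ZI)) * r := by rw [hxw, one_mul]
            conv_lhs => rw [this]
            ring
          rw [e5]
          exact dvd_sub (hbq.mul_left _) (dvd_mul_left _ _)
      · intro a _ b _ h
        exact mul_left_cancel₀ hu0 h
      · intro t ht
        rw [mem_filter, Pool.Agent.N106.GN.mem_cls] at ht
        obtain ⟨⟨ht0, htY, htq⟩, b, rfl⟩ := ht
        refine ⟨b, ?_, rfl⟩
        rw [Pool.Agent.N106.GN.mem_cls]
        refine ⟨right_ne_zero_of_mul ht0, ?_, ?_⟩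
        · rw [nz_mul] at htY
          rw [le_div_iff₀ hup]
          linarith
        · have e5 : b - x * r = x * (u * b - r) + w * b * ((q : ℕ) : ZI) := by
            have : b = (x * u + w * ((q : ℕ) : ZI)) * b := by rw [hxw, one_mul]
            conv_lhs => rw [this]
            ring
          rw [e5]
          exact dvd_add (htq.mul_left _) (dvd_mul_left _ _)
      · intro b _
        rw [div_of_mul hu0]
    rw [e4, abs_mul, abs_of_nonneg (hf.nonneg u)]
    calc f u * |∑ t ∈ cls q (x * r) (Y / nz u), c t| ≤ f u * (W / nz u) :=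
          mul_le_mul_of_nonneg_left (h u _ hfu) (hf.nonneg u)
      _ = W * (f u / nz u) := by ring
  rw [e1]
  refine (abs_sum_le_sum_abs _ _).trans ((sum_le_sum e3).trans ?_)
  rw [← mul_sum, mul_comm]
  apply mul_le_mul_of_nonneg_right _ hW
  refine le_trans ?_ hf.tot
  have h2 : ∑ u ∈ bl Y, f u / nz u = ∑ u ∈ (bl Y).filter (fun u => u ∈ bl U), f u / nz u := by
    rw [sum_filter]
    apply sum_congr rfl
    intro u hu
    split_ifs with h3
    · rfl
    · by_contra hne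
      apply h3
      have h4 : f u ≠ 0 := by
        intro h5
        apply hne
        rw [h5, zero_div]
      obtain ⟨h5, h6, -⟩ := hf.ne u h4
      exact (mem_bl _ _).2 ⟨h5, h6⟩
  rw [h2]
  apply sum_le_sum_of_subset_of_nonneg
  · intro u hu
    exact (mem_filter.1 hu).2
  · intro u _ _
    exact div_nonneg (hf.nonneg u) (nz_nonneg u)

open Classical in
/-- the truncated coefficient -/
noncomputable def ctf (f : ZI → ℝ) (M C D T : ℝ) (b : ZI) : ℝ :=
  if b ≠ 0 ∧ nz b ≤ 2 * M ^ 2 then cvf f (ctr M D T) b / C else 0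

theorem ctf_abs {f : ZI → ℝ} {M U C D0 D T : ℝ} (hf : Sm M U C D0 f) (hC : 0 < C) (hM : 3 ≤ M) (hD : 1 ≤ D) (hDM : D ≤ M)
    (hT : 1 ≤ T) (b : ZI) : |ctf f M C D T b| ≤ 1 := by
  unfold ctf
  split_ifs with h
  · rw [abs_div, abs_of_pos hC, div_le_one hC]
    have := cvf_abs (c := ctr M D T) (B := 1) hf h.1 h.2 (by norm_num) (fun u b' _ => ctr_abs hM hD hDM hT b')
    linarith
  · simp

theorem ctf_cha {f : ZI → ℝ} {M U C D0 D T τ τ' : ℝ} {A B : ℕ} (hf : Sm M U C D0 f) (hC : 0 < C) (hM : 1 ≤ M)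
    (hy : 0 < Real.log M)
    (hU : M ^ (2 * τ') * U ≤ M ^ (2 * τ)) (hB : (Real.log M) ^ (2 * B) ≤ D0) (h : CHa (ctr M D T) M τ' A B) :
    CHa (ctf f M C D T) M τ A B := by
  classical
  intro V Y q r hV1 hV2 hY hYV hq hqB
  have hM0 : 0 < M := by linarith
  have hV0 : 0 ≤ V := hY.trans hYV
  have e1 : ∑ t ∈ cls q r Y, ctf f M C D T t = (∑ t ∈ cls q r Y, cvf f (ctr M D T) t) / C := by
    rw [sum_div]
    apply sum_congr rfl
    intro t ht
    rw [Pool.Agent.N106.GN.mem_cls] at ht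
    unfold ctf
    rw [if_pos]
    refine ⟨ht.1, ?_⟩
    have : 0 ≤ M ^ 2 := by positivity
    linarith [ht.2.1]
  rw [e1, abs_div, abs_of_pos hC, div_le_iff₀ hC, mul_comm]
  apply cvf_cls hf hq _ (by positivity)
  · intro u r' hfu
    obtain ⟨hu0, huU, -⟩ := hf.ne u hfu
    have hup := nz_pos hu0
    have hu1 := nz_one_le hu0
    have h1 := h (V / nz u) (Y / nz u) q r' (by
      rw [le_div_iff₀ hup]
      refine le_trans ?_ (hU.trans hV1)
      apply mul_le_mul_of_nonneg_left huU (by positivity))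
      ((div_le_self hV0 hu1).trans hV2) (by positivity) (by gcongr) hq hqB
    refine h1.trans (le_of_eq ?_)
    field_simp
  · refine le_trans ?_ hB
    calc (q : ℝ) ^ 2 ≤ ((Real.log M) ^ B) ^ 2 := pow_le_pow_left₀ (Nat.cast_nonneg q) hqB 2
      _ = (Real.log M) ^ (2 * B) := by rw [← pow_mul, mul_comm]

end Pool.Agent.J4.H69
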