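import Pool.Agent.J4.H69.LFh

/-!
# The sum with `Λ - Λ_D` and additional small factors
-/

set_option autoImplicit false

namespace Pool.Agent.J4.H69

open Finset Filter Topology
open Pool.Agent.N782.GN
open Pool.Agent.N855.GN (Dv mem_Dv logpow nz_one_le one_le_log bg)
open Pool.Agent.N277.GN (ct_nat_mul abs_be_le card_bl nz_pos nz_natCast)
open Pool.Agent.H304R3.HK (UH bb LamK CS)

theorem lf_boxf {δ η0 s C : ℝ} (hδ : 0 < δ) (hδ1 : δ ≤ 1) (hη0 : 0 < η0) (hη : η0 ≤ δ / 400) (hs : 0 < s) (hC : 1 ≤ C)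
    (A : ℕ) : ∀ᶠ M : ℝ in atTop, ∀ L : ℝ, M ^ δ ≤ L → L ≤ M ^ (1 - δ) → ∀ f : ZI → ℝ,
      Sm M (M ^ (δ / 256)) C (M ^ s) f →
    ∑ l ∈ Icc 1 ⌊L⌋, |∑ m ∈ Icc ⌈-M⌉ ⌊M⌋, TTc (cvf f (LF (M ^ η0))) (M ^ (δ / 128)) (M ^ (5 * (δ / 128) / 4))
      (M ^ (1 + δ / 4)) (M ^ (1 + δ / 2)) ⟨l, m⟩| ≤ L * M / (Real.log M) ^ A := by
  classical
  have hC0 : 0 < C := by linarith
  obtain ⟨E, hE, h1⟩ := ctr_cha 6000 (A + 1) (A + 13) (τ := δ / 256) hη0 (by linarith) (by linarith)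
  have h2 := bilG hδ hδ1 (A + 1 + E + 3)
  have h3 := td_box hδ hδ1 hη0 (by linarith : η0 ≤ δ / 80)
  have d1 : ∀ᶠ M : ℝ in atTop, (3 : ℝ) ≤ M ^ (δ / 4) := (tendsto_rpow_atTop (by positivity)).eventually_ge_atTop _
  have d2 : ∀ᶠ M : ℝ in atTop, max 384 C ≤ Real.log M := Real.tendsto_log_atTop.eventually_ge_atTop _
  have d3 : ∀ᶠ M : ℝ in atTop, (3 : ℝ) ≤ M ^ η0 := (tendsto_rpow_atTop hη0).eventually_ge_atTop _
  have d4 := logpow (2 * (6000 * (A + 1 + E + 4))) hs one_pos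
  filter_upwards [h1, h2, h3, d1, d2, d3, d4, eventually_ge_atTop 3] with M h1 h2 h3 d1 d2 d3 d4 hM3
  intro L hL1 hL2 f hf
  have hM0 : 0 < M := by linarith
  have hM1 : 1 ≤ M := by linarith
  set y := Real.log M with hy
  have hy384 : 384 ≤ y := (le_max_left _ _).trans d2
  have hyC : C ≤ y := (le_max_right _ _).trans d2
  have hy0 : 0 < y := by linarith
  have hy1 : 1 ≤ y := by linarith
  set D := M ^ η0 with hD
  have hD1 : 1 ≤ D := by linarith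
  have hDM : D ≤ M := by
    calc M ^ η0 ≤ M ^ (1 : ℝ) := Real.rpow_le_rpow_of_exponent_le hM1 (by linarith)
      _ = M := Real.rpow_one M
  set T := y ^ E with hT
  have hT1 : 1 ≤ T := one_le_pow₀ hy1
  have hL0 : 0 < L := lt_of_lt_of_le (by positivity) hL1
  have hLM : L ≤ M := by
    refine hL2.trans ?_
    calc M ^ (1 - δ) ≤ M ^ (1 : ℝ) := Real.rpow_le_rpow_of_exponent_le hM1 (by linarith)
      _ = M := Real.rpow_one M
  set A1 := M ^ (δ / 128) with hA1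
  set A2 := M ^ (5 * (δ / 128) / 4) with hA2
  set Q1 := M ^ (1 + δ / 4) with hQ1
  set Q2 := M ^ (1 + δ / 2) with hQ2
  have hQ0 : 0 < Q1 := by positivity
  have hQ : 2 * M ^ 2 < Q1 ^ 2 := by
    have e1 : Q1 = M * M ^ (δ / 4) := by rw [hQ1, Real.rpow_add hM0, Real.rpow_one]
    rw [e1, mul_pow]
    have : (2 : ℝ) < (M ^ (δ / 4)) ^ 2 := by nlinarith
    have : 0 < M ^ 2 := by positivity
    nlinarith
  set c := ctf f M C D T with hc
  -- the truncated function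
  have p1 : ∑ l ∈ Icc 1 ⌊L⌋, |∑ m ∈ Icc ⌈-M⌉ ⌊M⌋, TTc c A1 A2 Q1 Q2 ⟨l, m⟩| ≤
      12 * y * (L * M / y ^ (A + 1 + E + 3)) := by
    apply dual
    intro lam hlam
    have key := h2 L hL1 hL2 c (ctf_abs hf hC0 hM3 hD1 hDM hT1) (by
      rw [show A + 1 + E + 3 + 1 = A + 1 + E + 4 by ring]
      apply ctf_cha hf hC0 hM1 hy0 _ (by rw [one_mul] at d4; exact d4) h1
      rw [← Real.rpow_add hM0]
      exact Real.rpow_le_rpow_of_exponent_le hM1 (by linarith)) lam hlam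
    rw [bil_TTc c hM3 hLM hlam, abs_div, abs_of_pos (show 0 < 12 * Real.log M by positivity),
      div_le_iff₀ (by positivity)] at key
    calc |∑ l ∈ Icc 1 ⌊L⌋, lam l * ∑ m ∈ Icc ⌈-M⌉ ⌊M⌋, TTc c A1 A2 Q1 Q2 ⟨l, m⟩|
        ≤ L * M / Real.log M ^ (A + 1 + E + 3) * (12 * Real.log M) := key
      _ = 12 * y * (L * M / y ^ (A + 1 + E + 3)) := by ring
  -- the difference
  have p2 : ∑ z ∈ Bx L (-M) M, |TTc (cvf f (LF D)) A1 A2 Q1 Q2 z - 4 * T * y * C * TTc c A1 A2 Q1 Q2 z| ≤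
      C * (192 * y ^ 2 * (L * M * y ^ 9) / T) := by
    have g1 : ∀ z ∈ Bx L (-M) M, |TTc (cvf f (LF D)) A1 A2 Q1 Q2 z - 4 * T * y * C * TTc c A1 A2 Q1 Q2 z| ≤
        C * (192 * y ^ 2 / T) * td D z ^ 2 := by
      intro z hz
      have hz0 := Bx_ne hz
      have hzM := Bx_nz hz hLM (by rw [abs_neg, abs_of_pos hM0]) (by rw [abs_of_pos hM0])
      rw [TTc_sub]
      have g2 := TTc_le c_mub (A1 := A1) (A2 := A2) (Q2 := Q2) (c := fun b => cvf f (LF D) b - 4 * T * y * C * c b)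
        (B := C * (4 * y * (td D z ^ 2 / T))) hM3 hQ hQ0 hz0 hzM (by
          intro b hb
          have hb0 : b ≠ 0 := by
            rintro rfl
            exact hz0 (zero_dvd_iff.1 hb)
          have hbM : nz b ≤ 2 * M ^ 2 := (nz_le_of_dvd hz0 hb).trans hzM
          have g4 : cvf f (LF D) b - 4 * T * y * C * c b = cvf f (fun b => LF D b - 4 * T * y * ctr M D T b) b := by
            rw [← cvf_sub, hc]
            unfold ctf
            rw [if_pos ⟨hb0, hbM⟩]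
            field_simp
          rw [g4]
          apply cvf_abs hf hb0 hbM (by positivity)
          intro u b' hub
          have hb'0 : b' ≠ 0 := by
            rintro rfl
            exact hb0 (by rw [hub, mul_zero])
          have hb'z : b' ∣ z := (Dvd.intro_left u hub.symm).trans hb
          have hb'M : nz b' ≤ 2 * M ^ 2 := (nz_le_of_dvd hz0 hb'z).trans hzM
          have g3 := ctr_err hM3 hD1 hDM hT1 hb'0 hb'M 1
          rw [pow_one] at g3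
          refine g3.trans ?_
          apply mul_le_mul_of_nonneg_left _ (by positivity)
          apply div_le_div_of_nonneg_right _ (by positivity)
          exact pow_le_pow_left₀ (td_nonneg _ _) (td_mono hz0 hb'z) 2) (by positivity)
      refine g2.trans (le_of_eq ?_)
      ring
    refine (sum_le_sum g1).trans ?_
    rw [← mul_sum]
    calc C * (192 * y ^ 2 / T) * ∑ z ∈ Bx L (-M) M, td D z ^ 2 ≤ C * (192 * y ^ 2 / T) * (L * M * y ^ 9) := by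
          gcongr
          exact h3 L hL1 hL2
      _ = C * (192 * y ^ 2 * (L * M * y ^ 9) / T) := by ring
  -- together
  have p3 : ∀ l ∈ Icc 1 ⌊L⌋, |∑ m ∈ Icc ⌈-M⌉ ⌊M⌋, TTc (cvf f (LF D)) A1 A2 Q1 Q2 ⟨l, m⟩| ≤
      4 * T * y * C * |∑ m ∈ Icc ⌈-M⌉ ⌊M⌋, TTc c A1 A2 Q1 Q2 ⟨l, m⟩| +
      ∑ m ∈ Icc ⌈-M⌉ ⌊M⌋, |TTc (cvf f (LF D)) A1 A2 Q1 Q2 ⟨l, m⟩ - 4 * T * y * C * TTc c A1 A2 Q1 Q2 ⟨l, m⟩| := by
    intro l _
    have e1 : ∑ m ∈ Icc ⌈-M⌉ ⌊M⌋, TTc (cvf f (LF D)) A1 A2 Q1 Q2 ⟨l, m⟩ =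
        4 * T * y * C * (∑ m ∈ Icc ⌈-M⌉ ⌊M⌋, TTc c A1 A2 Q1 Q2 ⟨l, m⟩) +
        ∑ m ∈ Icc ⌈-M⌉ ⌊M⌋, (TTc (cvf f (LF D)) A1 A2 Q1 Q2 ⟨l, m⟩ - 4 * T * y * C * TTc c A1 A2 Q1 Q2 ⟨l, m⟩) := by
      rw [mul_sum, ← sum_add_distrib]
      apply sum_congr rfl
      intro m _
      ring
    rw [e1]
    refine (abs_add_le _ _).trans (add_le_add ?_ (abs_sum_le_sum_abs _ _))
    rw [abs_mul, abs_of_pos (show 0 < 4 * T * y * C by positivity)]
  refine (sum_le_sum p3).trans ?_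
  rw [sum_add_distrib, ← mul_sum]
  have p4 : ∑ l ∈ Icc 1 ⌊L⌋, ∑ m ∈ Icc ⌈-M⌉ ⌊M⌋,
      |TTc (cvf f (LF D)) A1 A2 Q1 Q2 ⟨l, m⟩ - 4 * T * y * C * TTc c A1 A2 Q1 Q2 ⟨l, m⟩| ≤
        C * (192 * y ^ 2 * (L * M * y ^ 9) / T) := by
    rw [← Bx_sum L (-M) M (fun z => |TTc (cvf f (LF D)) A1 A2 Q1 Q2 z - 4 * T * y * C * TTc c A1 A2 Q1 Q2 z|)]
    exact p2
  have p5 : 4 * T * y * C * (12 * y * (L * M / y ^ (A + 1 + E + 3))) ≤ L * M / y ^ A / 2 := by
    have e1 : 4 * T * y * C * (12 * y * (L * M / y ^ (A + 1 + E + 3))) = L * M / y ^ A * (48 / y * (C / y)) := by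
      rw [hT, pow_add y (A + 1 + E), pow_add y (A + 1), pow_add y A]
      field_simp
      ring
    rw [e1]
    have e2 : 48 / y ≤ 1 / 2 := by
      rw [div_le_div_iff₀ hy0 (by norm_num)]
      linarith
    have e3 : C / y ≤ 1 := by rw [div_le_one hy0]; exact hyC
    have e4 : 48 / y * (C / y) ≤ 1 / 2 * 1 := mul_le_mul e2 e3 (by positivity) (by norm_num)
    calc L * M / y ^ A * (48 / y * (C / y)) ≤ L * M / y ^ A * (1 / 2 * 1) := by gcongr
      _ = _ := by ring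
  have p6 : C * (192 * y ^ 2 * (L * M * y ^ 9) / T) ≤ L * M / y ^ A / 2 := by
    have e0 : y ^ (A + 13) ≤ T := pow_le_pow_right₀ hy1 hE
    calc C * (192 * y ^ 2 * (L * M * y ^ 9) / T) ≤ y * (192 * y ^ 2 * (L * M * y ^ 9) / y ^ (A + 13)) := by gcongr
      _ = L * M / y ^ A * (192 / y) := by
          rw [pow_add y A]
          field_simp
      _ ≤ L * M / y ^ A * (1 / 2) := by
          apply mul_le_mul_of_nonneg_left _ (by positivity)
          rw [div_le_div_iff₀ hy0 (by norm_num)]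
          linarith
      _ = _ := by ring
  have p7 := mul_le_mul_of_nonneg_left p1 (show 0 ≤ 4 * T * y * C by positivity)
  linarith

end Pool.Agent.J4.H69
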