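import Pool.Agent.J4.H69.LFi

/-!
# The model with additional small factors
-/

set_option autoImplicit false

namespace Pool.Agent.J4.H69

open Finset Filter Topology
open Pool.Agent.N782.GN
open Pool.Agent.N855.GN (Dv mem_Dv logpow nz_one_le one_le_log bg)
open Pool.Agent.N277.GN (ct_nat_mul abs_be_le card_bl nz_pos nz_natCast)
open Pool.Agent.H304R3.HK (UH bb LamK CS)

theorem cvf_sl {f : ZI → ℝ} {M U C D0 D : ℝ} (hf : Sm M U C D0 f) (hD : D ≤ D0) (b : ZI) :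
    cvf f (sl D) b = ds f b * sl D b := by
  classical
  unfold cvf ds
  rw [sum_mul]
  apply sum_congr rfl
  intro u hu
  by_cases hfu : f u = 0
  · rw [hfu]
    ring
  obtain ⟨hu0, -, -, hcop⟩ := hf.ne u hfu
  obtain ⟨b', hb'⟩ := dvd_of_mem_Dv hu
  have hb0 : b ≠ 0 := by
    intro h
    unfold Dv at hu
    rw [h, mem_filter, mem_bl] at hu
    have h1 := nz_one_le hu.1.1
    have h2 := hu.1.2
    have h3 : nz (0 : ZI) = 0 := by rw [nz_eq]; simp
    linarith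
  have hb'0 : b' ≠ 0 := by
    rintro rfl
    exact hb0 (by rw [hb', mul_zero])
  congr 1
  rw [hb', div_of_mul hu0, sl_cof hu0 hb'0]
  intro d hd0 hd
  exact (cop_norm (hcop d hd0 (hd.trans hD))).symm

theorem TTc_slf {f : ZI → ℝ} {M A1 A2 Q1 Q2 U C D0 D : ℝ} (hf : Sm M U C D0 f) (hDD : D ≤ D0) (hM : 3 ≤ M)
    (hAQ : A2 ≤ Q1) (hDA : D ≤ A1) (hUA : U ≤ A1) (hAQ1 : A1 ≤ Q1) {z : ZI}
    (hz : z ≠ 0) : TTc (cvf f (sl D)) A1 A2 Q1 Q2 z = 12 * Real.log M * (Wt M A1 A2 Q1 Q2 z * (ds f z * sl D z)) := by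
  classical
  have hy := one_le_log hM
  unfold TTc Wt
  have e1 : 12 * Real.log M * (ds (al Q1 Q2) z * ds (lw A1 A2) z / (12 * Real.log M) * (ds f z * sl D z)) =
      ∑ v ∈ Dv z, al Q1 Q2 v * (ds (lw A1 A2) z * (ds f z * sl D z)) := by
    rw [← sum_mul]
    unfold ds
    field_simp
  rw [e1]
  apply sum_congr rfl
  intro v hv
  rw [mem_Dv hz] at hv
  by_cases hv1 : al Q1 Q2 v = 0
  · rw [hv1]
    ring
  congr 1
  obtain ⟨p1, p2, p3⟩ := al_ne hv1
  obtain ⟨w, hw⟩ := hv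
  have hv0 := ne_zero_of_prime p1
  have hw0 : w ≠ 0 := by
    rintro rfl
    rw [mul_zero] at hw
    exact hz hw
  have e2 : z / v = w := by
    rw [hw]
    exact div_of_mul hv0
  rw [e2]
  have e3 : ds (lw A1 A2) z = ds (lw A1 A2) w := by
    rw [hw]
    exact ds_cop (f := lw A1 A2) hv0 hw0 (fun a ha => by
      obtain ⟨h5, h6, h7⟩ := lw_ne ha
      exact cop_of_ne h5 p1 (by linarith))
  rw [e3]
  unfold ds
  rw [sum_mul]
  apply sum_congr rfl
  intro a ha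
  rw [mem_Dv hw0] at ha
  by_cases ha1 : lw A1 A2 a = 0
  · rw [ha1]
    ring
  congr 1
  obtain ⟨p4, p5, p6⟩ := lw_ne ha1
  obtain ⟨b, hb⟩ := ha
  have ha0 := ne_zero_of_prime p4
  have hb0 : b ≠ 0 := by
    rintro rfl
    rw [mul_zero] at hb
    exact hw0 hb
  have e4 : w / a = b := by
    rw [hb]
    exact div_of_mul ha0
  have e5 : ds f z = ds f b := by
    rw [hw, hb, ← mul_assoc]
    apply ds_cop (mul_ne_zero hv0 ha0) hb0
    intro u hu
    obtain ⟨hu0, hU, -, -⟩ := hf.ne u hu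
    apply IsCoprime.mul_right
    · exact (cop_norm (cop_small p1 hu0 (by linarith))).symm
    · exact (cop_norm (cop_small p4 hu0 (by linarith))).symm
  have e6 : sl D z = sl D b := by
    rw [hw, hb, ← mul_assoc, sl_cof (mul_ne_zero hv0 ha0) hb0]
    intro d hd0 hd
    apply IsCoprime.mul_right
    · exact (cop_norm (cop_small p1 hd0 (by linarith))).symm
    · exact (cop_norm (cop_small p4 hd0 (by linarith))).symm
  rw [e4, cvf_sl hf hDD, ← e5, ← e6]
  rfl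

theorem sum_Wt_slf {f : ZI → ℝ} {M A1 A2 Q1 Q2 U C D0 D : ℝ} (hf : Sm M U C D0 f) (hDD : D ≤ D0) {l : ℤ} (hl : 1 ≤ l) :
    ∑ m ∈ Icc ⌈-M⌉ ⌊M⌋, Wt M A1 A2 Q1 Q2 (⟨l, m⟩ : ZI) * (ds f ⟨l, m⟩ * sl D ⟨l, m⟩) =
      ∑ d ∈ bl D, ∑ u ∈ bl U, mu d * Real.log (nz d) * (f u * XX M A1 A2 Q1 Q2 M (u * d) l) := by
  classical
  have hne : ∀ m : ℤ, (⟨l, m⟩ : ZI) ≠ 0 := by
    intro m h
    have := congrArg Zsqrtd.re h
    simp at this
    omega
  have h0 : ∀ m : ℤ, ds f (⟨l, m⟩ : ZI) = ∑ u ∈ bl U, if u ∣ (⟨l, m⟩ : ZI) then f u else 0 := by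
    intro m
    exact ds_bl (fun u hu => (hf.ne u hu).2.1) (hne m)
  have h1 : ∀ m ∈ Icc ⌈-M⌉ ⌊M⌋, Wt M A1 A2 Q1 Q2 (⟨l, m⟩ : ZI) * (ds f ⟨l, m⟩ * sl D ⟨l, m⟩) =
      ∑ d ∈ bl D, ∑ u ∈ bl U, mu d * Real.log (nz d) *
        (f u * (if u * d ∣ (⟨l, m⟩ : ZI) then Wt M A1 A2 Q1 Q2 (⟨l, m⟩ : ZI) else 0)) := by
    intro m _
    have h2 : sl D ⟨l, m⟩ = ∑ d ∈ bl D, if d ∣ (⟨l, m⟩ : ZI) then mu d * Real.log (nz d) else 0 := by
      unfold sl
      rw [← sum_filter]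
      apply sum_congr _ fun _ _ => rfl
      ext d
      rw [mem_filter, mem_filter, mem_Dv (hne m), mem_bl]
      constructor
      · rintro ⟨h1, h2⟩
        refine ⟨⟨?_, h2⟩, h1⟩
        rintro rfl
        exact hne m (zero_dvd_iff.1 h1)
      · rintro ⟨⟨-, h2⟩, h1⟩
        exact ⟨h1, h2⟩
    rw [h2, h0 m, sum_mul_sum, sum_comm, mul_sum]
    apply sum_congr rfl
    intro d hd
    obtain ⟨hd0, hdD⟩ := (mem_bl _ _).1 hd
    rw [mul_sum]
    apply sum_congr rfl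
    intro u _
    by_cases hfu : f u = 0
    · simp [hfu]
    obtain ⟨-, -, -, hcop⟩ := hf.ne u hfu
    have h3 : u * d ∣ (⟨l, m⟩ : ZI) ↔ u ∣ (⟨l, m⟩ : ZI) ∧ d ∣ (⟨l, m⟩ : ZI) := by
      constructor
      · intro h
        exact ⟨(dvd_mul_right _ _).trans h, (dvd_mul_left _ _).trans h⟩
      · rintro ⟨h, h'⟩
        exact (cop_norm (hcop d hd0 (hdD.trans hDD))).mul_dvd h h'
    by_cases h4 : u ∣ (⟨l, m⟩ : ZI)
    · by_cases h5 : d ∣ (⟨l, m⟩ : ZI)
      · rw [if_pos h4, if_pos h5, if_pos (h3.2 ⟨h4, h5⟩)]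
        ring
      · rw [if_neg h5, if_neg (fun h => h5 (h3.1 h).2)]
        ring
    · rw [if_neg h4, if_neg (fun h => h4 (h3.1 h).1)]
      ring
  rw [sum_congr rfl h1, sum_comm]
  apply sum_congr rfl
  intro d _
  rw [sum_comm]
  apply sum_congr rfl
  intro u _
  rw [← mul_sum, ← mul_sum]
  rfl

/-- **the main term of the model** -/
theorem modelf {δ η0 C0 : ℝ} (hδ : 0 < δ) (hδ1 : δ ≤ 1) (hη0 : 0 < η0) (hη : η0 ≤ δ / 400) (hC0 : 1 ≤ C0) (A : ℕ) :
    ∀ᶠ M : ℝ in atTop, ∀ L : ℝ, M ^ δ ≤ L → L ≤ M ^ (1 - δ) → ∀ f : ZI → ℝ,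
      Sm M (M ^ (δ / 256)) C0 (M ^ η0) f →
    ∑ l ∈ Icc 1 ⌊L⌋, |∑ m ∈ Icc ⌈-M⌉ ⌊M⌋, 1 / 4 * TTc (cvf f (sl (M ^ η0))) (M ^ (δ / 128)) (M ^ (5 * (δ / 128) / 4))
      (M ^ (1 + δ / 4)) (M ^ (1 + δ / 2)) ⟨l, m⟩ +
      2 * M * (12 * Real.log M * Gc M (M ^ (δ / 128)) (M ^ (5 * (δ / 128) / 4)) (M ^ (1 + δ / 4)) (M ^ (1 + δ / 2))) *
        (∑ u ∈ bl (M ^ (δ / 256)), f u / nz u) * SS l| ≤ L * M / (Real.log M) ^ A := by
  classical
  obtain ⟨C, hC, hti⟩ := c_ti (δ / 8) (by positivity)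
  obtain ⟨C2, hC2, hmt⟩ := c_mt1 (A + 3)
  have hC00 : 0 < C0 := by linarith
  have d1 : ∀ᶠ M : ℝ in atTop, (3 : ℝ) ≤ M ^ η0 := (tendsto_rpow_atTop hη0).eventually_ge_atTop _
  have d2 : ∀ᶠ M : ℝ in atTop, (3 : ℝ) ≤ M ^ (δ / 4) := (tendsto_rpow_atTop (by positivity)).eventually_ge_atTop _
  have d3 := logpow (A + 2) (show 0 < δ / 200 by positivity) (show 0 < 1 / (54 * C * C0) by positivity)
  have d4 : ∀ᶠ M : ℝ in atTop, max 2 (48 * (C0 * C2) / η0 ^ (A + 3)) ≤ Real.log M :=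
    Real.tendsto_log_atTop.eventually_ge_atTop _
  filter_upwards [d1, d2, d3, d4, gc_bd2 hδ hδ1, eventually_ge_atTop 3] with M d1 d2 d3 d4 d5 hM3
  intro L hL1 hL2 f hf
  have hM0 : 0 < M := by linarith
  have hM1 : 1 ≤ M := by linarith
  have hpw : ∀ s t : ℝ, s ≤ t → M ^ s ≤ M ^ t := fun s t hst => Real.rpow_le_rpow_of_exponent_le hM1 hst
  set y := Real.log M with hy
  have hy1 : 1 ≤ y := one_le_log hM3
  have hy0 : 0 < y := by linarith
  set D := M ^ η0 with hD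
  have hD0 : 0 < D := by positivity
  have hD1 : 1 ≤ D := by linarith
  set U := M ^ (δ / 256) with hU
  have hU0 : 0 < U := by positivity
  have hU1 : 1 ≤ U := Real.one_le_rpow hM1 (by positivity)
  have hL0 : 0 < L := lt_of_lt_of_le (by positivity) hL1
  have hL11 : 1 ≤ L := (Real.one_le_rpow hM1 hδ.le).trans hL1
  have hLM : L ≤ M := by
    refine hL2.trans ?_
    calc M ^ (1 - δ) ≤ M ^ (1 : ℝ) := hpw _ _ (by linarith)
      _ = M := Real.rpow_one M
  set A1 := M ^ (δ / 128) with hA1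
  set A2 := M ^ (5 * (δ / 128) / 4) with hA2
  set Q1 := M ^ (1 + δ / 4) with hQ1
  set Q2 := M ^ (1 + δ / 2) with hQ2
  have hDA1 : D ≤ A1 := hpw _ _ (by linarith)
  have hUA1 : U ≤ A1 := hpw _ _ (by linarith)
  have hUD : U * D ≤ A1 := by
    rw [hU, hD, ← Real.rpow_add hM0]
    exact hpw _ _ (by linarith)
  have hA12 : A1 ≤ A2 := hpw _ _ (by linarith)
  have hA1Q : A1 ≤ Q1 := hpw _ _ (by linarith)
  have hA2Q : A2 ≤ Q1 := hpw _ _ (by linarith)
  have hA11 : 1 ≤ A1 := by linarith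
  have hA21 : 1 ≤ A2 := by linarith
  have hA2M : A2 ≤ M := by
    calc A2 ≤ M ^ (1 : ℝ) := hpw _ _ (by linarith)
      _ = M := Real.rpow_one M
  have hQ0 : 0 < Q1 := by positivity
  have hQ : 2 * M ^ 2 < Q1 ^ 2 := by
    have e1 : Q1 = M * M ^ (δ / 4) := by rw [hQ1, Real.rpow_add hM0, Real.rpow_one]
    rw [e1, mul_pow]
    have : (2 : ℝ) < (M ^ (δ / 4)) ^ 2 := by nlinarith
    have : 0 < M ^ 2 := by positivity
    nlinarith
  set G := Gc M A1 A2 Q1 Q2 with hG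
  set F := ∑ u ∈ bl U, f u / nz u with hF
  have hF0 : 0 ≤ F := sum_nonneg fun u _ => div_nonneg (hf.nonneg u) (nz_nonneg u)
  have hF1 : F ≤ C0 := hf.tot
  have hFs : ∑ u ∈ bl U, f u ≤ U * C0 := by
    calc ∑ u ∈ bl U, f u ≤ ∑ u ∈ bl U, U * (f u / nz u) := by
          apply sum_le_sum
          intro u hu
          obtain ⟨hu0, huU⟩ := (mem_bl _ _).1 hu
          have hp := nz_pos hu0
          rw [mul_div_assoc', le_div_iff₀ hp]
          have := hf.nonneg u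
          nlinarith
      _ = U * F := by rw [← mul_sum]
      _ ≤ U * C0 := mul_le_mul_of_nonneg_left hF1 hU0.le
  -- the range of the moduli
  set D' := M ^ (1 + 3 * δ / 4) with hD'
  have hD'1 : 1 ≤ D' := Real.one_le_rpow hM1 (by linarith)
  have hD'2 : D' ≤ L * M ^ (1 - δ / 8) := by
    calc D' ≤ M ^ (δ + (1 - δ / 8)) := hpw _ _ (by linarith)
      _ = M ^ δ * M ^ (1 - δ / 8) := Real.rpow_add hM0 _ _
      _ ≤ L * M ^ (1 - δ / 8) := by gcongr
  have hD'3 : D' ≤ 2 * M ^ 2 := by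
    have : D' ≤ M ^ (2 : ℝ) := hpw _ _ (by linarith)
    rw [show (M : ℝ) ^ (2 : ℝ) = M ^ 2 by rw [← Real.rpow_natCast]; norm_num] at this
    have h2 : 0 ≤ M ^ 2 := by positivity
    linarith
  set E := C * L * M ^ (1 - δ / 8 / 10) with hE
  have hXX : ∀ d ∈ bl D, ∀ u ∈ bl U, f u ≠ 0 →
      ∑ l ∈ Icc 1 ⌊L⌋, |XX M A1 A2 Q1 Q2 M (u * d) l - 2 * M * G * (kap l d / (nz u * nz d))| ≤ E := by
    intro d hd u hu hfu
    obtain ⟨hd0, hdD⟩ := (mem_bl _ _).1 hd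
    obtain ⟨hu0, huU⟩ := (mem_bl _ _).1 hu
    obtain ⟨-, -, hct, hcop⟩ := hf.ne u hfu
    have hnn : nz (u * d) ≤ U * D := by
      rw [nz_mul]
      exact mul_le_mul huU hdD (nz_nonneg _) hU0.le
    have hk : ∀ l : ℤ, kap l (u * d) = kap l d := by
      intro l
      unfold kap
      rw [ct_mul_gen hct hd0 (hcop d hd0 hdD)]
    have key := XX_avg2 (M := M) (A1 := A1) (A2 := A2) (Q1 := Q1) (Q2 := Q2) (X := M) (L := L) (D := D') (E := E)
      (b0 := u * d) hM3 hQ hQ0 hA21 hA2M hA2Q hA11 (mul_ne_zero hu0 hd0) (hnn.trans hUD) hA1Q (by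
        calc Q2 * A2 * nz (u * d) ≤ Q2 * A2 * (U * D) := by gcongr
          _ = M ^ (1 + δ / 2 + 5 * (δ / 128) / 4 + (δ / 256 + η0)) := by
              rw [Real.rpow_add hM0 _ (δ / 256 + η0), Real.rpow_add hM0 (1 + δ / 2), Real.rpow_add hM0 (δ / 256)]
          _ ≤ D' := hpw _ _ (by linarith)) hD'3 (by
        intro lam hlam
        exact hti M L D' lam (by linarith) hL11 (hL2.trans (hpw _ _ (by linarith))) hD'1 hD'2 hlam)
    refine le_trans (le_of_eq ?_) key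
    apply sum_congr rfl
    intro l _
    rw [hk l, nz_mul]
  -- the sums
  have e1 : ∀ l ∈ Icc 1 ⌊L⌋, ∑ m ∈ Icc ⌈-M⌉ ⌊M⌋, 1 / 4 * TTc (cvf f (sl D)) A1 A2 Q1 Q2 ⟨l, m⟩ +
      2 * M * (12 * y * G) * F * SS l = 3 * y * ∑ d ∈ bl D, ∑ u ∈ bl U, mu d * Real.log (nz d) *
        (f u * (XX M A1 A2 Q1 Q2 M (u * d) l - 2 * M * G * (kap l d / (nz u * nz d)))) +
      24 * y * M * G * F * (1 / 4 * ∑ b ∈ bl D, mu b * (kap l b / nz b) * Real.log (nz b) + SS l) := by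
    intro l hl
    rw [mem_Icc] at hl
    have hne : ∀ m : ℤ, (⟨l, m⟩ : ZI) ≠ 0 := by
      intro m h
      have := congrArg Zsqrtd.re h
      simp at this
      omega
    have e2 : ∑ m ∈ Icc ⌈-M⌉ ⌊M⌋, 1 / 4 * TTc (cvf f (sl D)) A1 A2 Q1 Q2 ⟨l, m⟩ =
        3 * y * ∑ d ∈ bl D, ∑ u ∈ bl U, mu d * Real.log (nz d) * (f u * XX M A1 A2 Q1 Q2 M (u * d) l) := by
      rw [← sum_Wt_slf hf le_rfl hl.1, mul_sum]
      apply sum_congr rfl
      intro m _
      rw [TTc_slf hf le_rfl hM3 hA2Q hDA1 hUA1 hA1Q (hne m)]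
      ring
    rw [e2]
    have e3 : ∑ d ∈ bl D, ∑ u ∈ bl U, mu d * Real.log (nz d) *
        (f u * (XX M A1 A2 Q1 Q2 M (u * d) l - 2 * M * G * (kap l d / (nz u * nz d)))) =
        ∑ d ∈ bl D, ∑ u ∈ bl U, mu d * Real.log (nz d) * (f u * XX M A1 A2 Q1 Q2 M (u * d) l) -
          2 * M * G * F * ∑ b ∈ bl D, mu b * (kap l b / nz b) * Real.log (nz b) := by
      rw [mul_sum, ← sum_sub_distrib]
      apply sum_congr rfl
      intro d hd
      have e4 : 2 * M * G * F * (mu d * (kap l d / nz d) * Real.log (nz d)) =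
          ∑ u ∈ bl U, mu d * Real.log (nz d) * (f u * (2 * M * G * (kap l d / (nz u * nz d)))) := by
        rw [hF, mul_sum, sum_mul]
        apply sum_congr rfl
        intro u hu
        have h1 := nz_pos ((mem_bl _ _).1 hd).1
        have h2 := nz_pos ((mem_bl _ _).1 hu).1
        field_simp
      rw [e4, ← sum_sub_distrib]
      apply sum_congr rfl
      intro u _
      ring
    rw [e3]
    ring
  have hG0 : 0 ≤ G := le_trans (by positivity) d5.1
  have hG1 : G ≤ 1 := d5.2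
  rw [sum_congr rfl fun l hl => by rw [e1 l hl]]
  have hb1 : ∑ l ∈ Icc 1 ⌊L⌋, |3 * y * ∑ d ∈ bl D, ∑ u ∈ bl U, mu d * Real.log (nz d) *
        (f u * (XX M A1 A2 Q1 Q2 M (u * d) l - 2 * M * G * (kap l d / (nz u * nz d))))| ≤
        27 * D * (U * C0) * y ^ 2 * E := by
    calc ∑ l ∈ Icc 1 ⌊L⌋, |3 * y * ∑ d ∈ bl D, ∑ u ∈ bl U, mu d * Real.log (nz d) *
        (f u * (XX M A1 A2 Q1 Q2 M (u * d) l - 2 * M * G * (kap l d / (nz u * nz d))))| ≤
        ∑ l ∈ Icc 1 ⌊L⌋, ∑ d ∈ bl D, ∑ u ∈ bl U, 3 * y * (y *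
          (f u * |XX M A1 A2 Q1 Q2 M (u * d) l - 2 * M * G * (kap l d / (nz u * nz d))|)) := by
          apply sum_le_sum
          intro l _
          rw [abs_mul, abs_of_pos (show 0 < 3 * y by positivity)]
          simp only [← mul_sum]
          apply mul_le_mul_of_nonneg_left _ (by positivity)
          rw [mul_sum]
          refine (abs_sum_le_sum_abs _ _).trans (sum_le_sum fun d hd => ?_)
          obtain ⟨hd0, hdD⟩ := (mem_bl _ _).1 hd
          rw [abs_mul, abs_mul]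
          have h1 : |mu d| ≤ 1 := abs_mu_le d
          have h2 : |Real.log (nz d)| ≤ y := by
            rw [abs_of_nonneg (Real.log_nonneg (one_le_nz hd0))]
            exact Real.log_le_log (nz_pos hd0) (hdD.trans ((by linarith : D ≤ A2).trans hA2M))
          have h3 : |mu d| * |Real.log (nz d)| ≤ y := by
            calc |mu d| * |Real.log (nz d)| ≤ 1 * y := mul_le_mul h1 h2 (abs_nonneg _) (by norm_num)
              _ = y := one_mul y
          apply mul_le_mul h3 _ (abs_nonneg _) hy0.le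
          refine (abs_sum_le_sum_abs _ _).trans (sum_le_sum fun u _ => ?_)
          rw [abs_mul, abs_of_nonneg (hf.nonneg u)]
      _ = 3 * y ^ 2 * ∑ d ∈ bl D, ∑ u ∈ bl U, f u *
            ∑ l ∈ Icc 1 ⌊L⌋, |XX M A1 A2 Q1 Q2 M (u * d) l - 2 * M * G * (kap l d / (nz u * nz d))| := by
          rw [sum_comm, mul_sum]
          apply sum_congr rfl
          intro d _
          rw [sum_comm, mul_sum]
          apply sum_congr rfl
          intro u _
          rw [← mul_sum, ← mul_sum, ← mul_sum]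
          ring
      _ ≤ 3 * y ^ 2 * ∑ d ∈ bl D, ∑ u ∈ bl U, f u * E := by
          apply mul_le_mul_of_nonneg_left _ (by positivity)
          apply sum_le_sum
          intro d hd
          apply sum_le_sum
          intro u hu
          by_cases hfu : f u = 0
          · rw [hfu]
            simp
          exact mul_le_mul_of_nonneg_left (hXX d hd u hu hfu) (hf.nonneg u)
      _ ≤ 3 * y ^ 2 * ((9 * D) * ((U * C0) * E)) := by
          rw [sum_const, nsmul_eq_mul, ← sum_mul]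
          apply mul_le_mul_of_nonneg_left _ (by positivity)
          apply mul_le_mul (card_bl D hD1) _ _ (by positivity)
          · exact mul_le_mul_of_nonneg_right hFs (by positivity)
          · apply mul_nonneg _ (by positivity)
            exact sum_nonneg fun u _ => hf.nonneg u
      _ = 27 * D * (U * C0) * y ^ 2 * E := by ring
  have hb2 : ∑ l ∈ Icc 1 ⌊L⌋, |24 * y * M * G * F *
      (1 / 4 * ∑ b ∈ bl D, mu b * (kap l b / nz b) * Real.log (nz b) + SS l)| ≤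
      24 * y * M * C0 * (C2 * L / (Real.log D) ^ (A + 3)) := by
    calc ∑ l ∈ Icc 1 ⌊L⌋, |24 * y * M * G * F *
        (1 / 4 * ∑ b ∈ bl D, mu b * (kap l b / nz b) * Real.log (nz b) + SS l)| =
          24 * y * M * G * F * ∑ l ∈ Icc 1 ⌊L⌋,
            |1 / 4 * ∑ b ∈ bl D, mu b * (kap l b / nz b) * Real.log (nz b) + SS l| := by
          rw [mul_sum (Icc (1 : ℤ) ⌊L⌋)]
          apply sum_congr rfl
          intro l _
          rw [abs_mul, abs_of_nonneg (show 0 ≤ 24 * y * M * G * F by positivity)]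
      _ ≤ 24 * y * M * G * F * (C2 * L / (Real.log D) ^ (A + 3)) := by
          apply mul_le_mul_of_nonneg_left _ (by positivity)
          exact (hmt L D hL11 d1).2
      _ ≤ 24 * y * M * 1 * C0 * (C2 * L / (Real.log D) ^ (A + 3)) := by
          have : 0 ≤ C2 * L / (Real.log D) ^ (A + 3) := by
            have := Real.log_nonneg hD1
            positivity
          gcongr
      _ = 24 * y * M * C0 * (C2 * L / (Real.log D) ^ (A + 3)) := by ring
  have hb3 : 27 * D * (U * C0) * y ^ 2 * E ≤ 1 / 2 * (L * M / y ^ A) := by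
    rw [mul_div_assoc', le_div_iff₀ (by positivity), hE]
    have e5 : D * U * M ^ (1 - δ / 8 / 10) * M ^ (δ / 200) ≤ M := by
      calc D * U * M ^ (1 - δ / 8 / 10) * M ^ (δ / 200) = M ^ (η0 + δ / 256 + (1 - δ / 8 / 10) + δ / 200) := by
            rw [Real.rpow_add hM0, Real.rpow_add hM0, Real.rpow_add hM0]
        _ ≤ M ^ (1 : ℝ) := hpw _ _ (by linarith)
        _ = M := Real.rpow_one M
    calc 27 * D * (U * C0) * y ^ 2 * (C * L * M ^ (1 - δ / 8 / 10)) * y ^ A =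
        27 * C * C0 * L * (D * U * M ^ (1 - δ / 8 / 10)) * y ^ (A + 2) := by ring
      _ ≤ 27 * C * C0 * L * (D * U * M ^ (1 - δ / 8 / 10)) * (1 / (54 * C * C0) * M ^ (δ / 200)) := by gcongr
      _ = 1 / 2 * L * (D * U * M ^ (1 - δ / 8 / 10) * M ^ (δ / 200)) := by
          field_simp
          ring
      _ ≤ 1 / 2 * L * M := by gcongr
      _ = 1 / 2 * (L * M) := by ring
  have hb4 : 24 * y * M * C0 * (C2 * L / (Real.log D) ^ (A + 3)) ≤ 1 / 2 * (L * M / y ^ A) := by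
    rw [hD, Real.log_rpow hM0, ← hy]
    have e6 : 48 * (C0 * C2) / η0 ^ (A + 3) ≤ y := (le_max_right _ _).trans d4
    rw [div_le_iff₀ (by positivity)] at e6
    rw [mul_pow, mul_div_assoc', mul_div_assoc', div_le_div_iff₀ (by positivity) (by positivity)]
    calc 24 * y * M * C0 * (C2 * L) * y ^ A = 1 / 2 * (L * M) * (48 * (C0 * C2)) * y ^ (A + 1) := by ring
      _ ≤ 1 / 2 * (L * M) * (y * η0 ^ (A + 3)) * y ^ (A + 1) := by gcongr
      _ ≤ 1 / 2 * (L * M) * (y * η0 ^ (A + 3)) * y ^ (A + 1) * y := le_mul_of_one_le_right (by positivity) hy1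
      _ = 1 / 2 * (L * M) * (η0 ^ (A + 3) * y ^ (A + 3)) := by ring
  calc _ ≤ ∑ l ∈ Icc 1 ⌊L⌋, (|3 * y * ∑ d ∈ bl D, ∑ u ∈ bl U, mu d * Real.log (nz d) *
        (f u * (XX M A1 A2 Q1 Q2 M (u * d) l - 2 * M * G * (kap l d / (nz u * nz d))))| +
        |24 * y * M * G * F * (1 / 4 * ∑ b ∈ bl D, mu b * (kap l b / nz b) * Real.log (nz b) + SS l)|) :=
        sum_le_sum fun l _ => abs_add_le _ _
    _ ≤ 1 / 2 * (L * M / y ^ A) + 1 / 2 * (L * M / y ^ A) := by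
        rw [sum_add_distrib]
        linarith
    _ = L * M / y ^ A := by ring

end Pool.Agent.J4.H69
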