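import Pool.Agent.J4.H69.LFj

/-!
# The asymptotic formula with additional small factors
-/

set_option autoImplicit false

namespace Pool.Agent.J4.H69

open Finset Filter Topology
open Pool.Agent.N782.GN
open Pool.Agent.N855.GN (Dv mem_Dv logpow nz_one_le one_le_log bg)
open Pool.Agent.N277.GN (ct_nat_mul abs_be_le card_bl nz_pos nz_natCast)
open Pool.Agent.H304R3.HK (UH bb LamK CS)

theorem cvf_lam (f : ZI → ℝ) (D : ℝ) (b : ZI) :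
    cvf f LamK b = cvf f (LF D) b - 1 / 4 * cvf f (sl D) b := by
  rw [cvf_sub]
  congr 1
  funext b
  unfold LF
  ring

/-- **the asymptotic formula** -/
theorem mainf {δ η0 C0 : ℝ} (hδ : 0 < δ) (hδ1 : δ ≤ 1) (hη0 : 0 < η0) (hη : η0 ≤ δ / 400) (hC0 : 1 ≤ C0) (A : ℕ) :
    ∀ᶠ M : ℝ in atTop, ∀ L : ℝ, M ^ δ ≤ L → L ≤ M ^ (1 - δ) → ∀ f : ZI → ℝ,
      Sm M (M ^ (δ / 256)) C0 (M ^ η0) f →
    ∑ l ∈ Icc 1 ⌊L⌋, |∑ m ∈ Icc ⌈-M⌉ ⌊M⌋, TTc (cvf f LamK) (M ^ (δ / 128)) (M ^ (5 * (δ / 128) / 4))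
      (M ^ (1 + δ / 4)) (M ^ (1 + δ / 2)) ⟨l, m⟩ -
      2 * M * (12 * Real.log M * Gc M (M ^ (δ / 128)) (M ^ (5 * (δ / 128) / 4)) (M ^ (1 + δ / 4)) (M ^ (1 + δ / 2))) *
        (∑ u ∈ bl (M ^ (δ / 256)), f u / nz u) * SS l| ≤ L * M / (Real.log M) ^ A := by
  have h1 := lf_boxf hδ hδ1 hη0 hη hη0 hC0 (A + 1)
  have h2 := modelf hδ hδ1 hη0 hη hC0 (A + 1)
  have d1 : ∀ᶠ M : ℝ in atTop, (2 : ℝ) ≤ Real.log M := Real.tendsto_log_atTop.eventually_ge_atTop _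
  filter_upwards [h1, h2, d1, eventually_ge_atTop 3] with M h1 h2 d1 hM3
  intro L hL1 hL2 f hf
  have k1 := h1 L hL1 hL2 f hf
  have k2 := h2 L hL1 hL2 f hf
  have hM0 : 0 < M := by linarith
  have hL0 : 0 < L := lt_of_lt_of_le (by positivity) hL1
  set y := Real.log M with hy
  have hy0 : 0 < y := by linarith
  set A1 := M ^ (δ / 128) with hA1
  set A2 := M ^ (5 * (δ / 128) / 4) with hA2
  set Q1 := M ^ (1 + δ / 4) with hQ1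
  set Q2 := M ^ (1 + δ / 2) with hQ2
  set X := 2 * M * (12 * y * Gc M A1 A2 Q1 Q2) * (∑ u ∈ bl (M ^ (δ / 256)), f u / nz u) with hX
  have key : ∀ l ∈ Icc 1 ⌊L⌋, |∑ m ∈ Icc ⌈-M⌉ ⌊M⌋, TTc (cvf f LamK) A1 A2 Q1 Q2 ⟨l, m⟩ - X * SS l| ≤
      |∑ m ∈ Icc ⌈-M⌉ ⌊M⌋, TTc (cvf f (LF (M ^ η0))) A1 A2 Q1 Q2 ⟨l, m⟩| +
      |∑ m ∈ Icc ⌈-M⌉ ⌊M⌋, 1 / 4 * TTc (cvf f (sl (M ^ η0))) A1 A2 Q1 Q2 ⟨l, m⟩ + X * SS l| := by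
    intro l _
    have e1 : ∀ m ∈ Icc ⌈-M⌉ ⌊M⌋, TTc (cvf f LamK) A1 A2 Q1 Q2 ⟨l, m⟩ =
        TTc (cvf f (LF (M ^ η0))) A1 A2 Q1 Q2 ⟨l, m⟩ - 1 / 4 * TTc (cvf f (sl (M ^ η0))) A1 A2 Q1 Q2 ⟨l, m⟩ := by
      intro m _
      rw [TTc_sub]
      congr 1
      funext b
      exact cvf_lam f _ b
    rw [sum_congr rfl e1, sum_sub_distrib]
    have e2 : ∑ m ∈ Icc ⌈-M⌉ ⌊M⌋, TTc (cvf f (LF (M ^ η0))) A1 A2 Q1 Q2 ⟨l, m⟩ -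
        ∑ m ∈ Icc ⌈-M⌉ ⌊M⌋, 1 / 4 * TTc (cvf f (sl (M ^ η0))) A1 A2 Q1 Q2 ⟨l, m⟩ - X * SS l =
        ∑ m ∈ Icc ⌈-M⌉ ⌊M⌋, TTc (cvf f (LF (M ^ η0))) A1 A2 Q1 Q2 ⟨l, m⟩ -
        (∑ m ∈ Icc ⌈-M⌉ ⌊M⌋, 1 / 4 * TTc (cvf f (sl (M ^ η0))) A1 A2 Q1 Q2 ⟨l, m⟩ + X * SS l) := by ring
    rw [e2]
    exact abs_sub _ _
  refine (sum_le_sum key).trans ?_
  rw [sum_add_distrib]
  have k3 : L * M / y ^ (A + 1) ≤ 1 / 2 * (L * M / y ^ A) := by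
    rw [pow_succ, ← div_div, div_le_iff₀ hy0]
    have : 0 ≤ L * M / y ^ A := by positivity
    nlinarith
  linarith

end Pool.Agent.J4.H69
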