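import Pool.Agent.J4.H69.LFk

/-!
# Products of small primes
-/

set_option autoImplicit false

namespace Pool.Agent.J4.H69

open Finset Filter Topology
open Pool.Agent.N782.GN
open Pool.Agent.N855.GN (Dv mem_Dv logpow nz_one_le one_le_log bg)
open Pool.Agent.N277.GN (ct_nat_mul abs_be_le card_bl nz_pos nz_natCast)
open Pool.Agent.H304R3.HK (UH bb LamK CS)

open Classical in
/-- the weight of the products of `j` small primes -/
noncomputable def fj (M κ : ℝ) : ℕ → ZI → ℝ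
  | 0 => fun u => if u = 1 then 1 else 0
  | j + 1 => cvf (al (M ^ (κ / 2 ^ j)) (M ^ (5 * (κ / 2 ^ j) / 4))) (fj M κ j)

theorem fj_nonneg (M κ : ℝ) (j : ℕ) (u : ZI) : 0 ≤ fj M κ j u := by
  induction j generalizing u with
  | zero =>
    unfold fj
    split_ifs <;> norm_num
  | succ j ih =>
    unfold fj cvf
    exact sum_nonneg fun p _ => mul_nonneg (al_nonneg _ _ _) (ih _)

theorem cvf_ne {f c : ZI → ℝ} {b : ZI} (h : cvf f c b ≠ 0) : ∃ p u : ZI, f p ≠ 0 ∧ c u ≠ 0 ∧ b = p * u ∧ p ≠ 0 := by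
  classical
  unfold cvf at h
  obtain ⟨p, hp, hne⟩ := exists_ne_zero_of_sum_ne_zero h
  obtain ⟨u, hu⟩ := dvd_of_mem_Dv hp
  have hp0 := ne_of_mem_Dv hp
  refine ⟨p, u, left_ne_zero_of_mul hne, ?_, hu, hp0⟩
  have := right_ne_zero_of_mul hne
  rw [hu, div_of_mul hp0] at this
  exact this

theorem fj_ne {M κ : ℝ} (hM : 1 < M) (hκ : 0 < κ) (j : ℕ) : ∀ u : ZI, fj M κ j u ≠ 0 → u ≠ 0 ∧
    nz u ≤ M ^ (5 * κ / 2 * (1 - 1 / 2 ^ j)) ∧ ct u = 1 ∧
    (∀ d : ZI, d ≠ 0 → nz d ≤ M ^ (2 * κ / 2 ^ j) → Nat.Coprime (Zsqrtd.norm u).natAbs (Zsqrtd.norm d).natAbs) ∧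
    ArithmeticFunction.cardFactors (Zsqrtd.norm u).natAbs = j ∧ Squarefree (Zsqrtd.norm u).natAbs ∧
    ∀ q : ℕ, q.Prime → q ∣ (Zsqrtd.norm u).natAbs → M ^ (2 * κ / 2 ^ j) < q := by
  classical
  have hM0 : 0 < M := by linarith
  induction j with
  | zero =>
    intro u hu
    unfold fj at hu
    have h1 : u = 1 := by
      by_contra h
      rw [if_neg h] at hu
      exact hu rfl
    subst h1
    have hn : (Zsqrtd.norm (1 : ZI)).natAbs = 1 := by rw [Zsqrtd.norm_one]; rfl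
    refine ⟨one_ne_zero, ?_, ?_, ?_, ?_, ?_, ?_⟩
    · rw [nz_nat, hn]
      simp
    · have := Pool.Agent.N277.GN.ct_exists (one_ne_zero : (1 : ZI) ≠ 0)
      obtain ⟨w, hw0, hw1, hw⟩ := this
      have h2 : ((ct (1 : ZI) : ℕ) : ZI) ∣ 1 := ⟨w, hw.symm⟩
      have h3 := nz_le_of_dvd one_ne_zero h2
      rw [nz_natCast, nz_nat, hn] at h3
      have h4 := Pool.Agent.N864.GN.MB.ct_pos (one_ne_zero : (1 : ZI) ≠ 0)
      have h5 : ((ct (1 : ZI) : ℕ) : ℝ) ^ 2 ≤ 1 := by simpa using h3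
      have h6 : (ct (1 : ZI)) ^ 2 ≤ 1 := by exact_mod_cast h5
      nlinarith
    · intro d _ _
      rw [hn]
      exact Nat.coprime_one_left _
    · rw [hn]
      simp
    · rw [hn]
      exact squarefree_one
    · intro q hq hd
      rw [hn, Nat.dvd_one] at hd
      exact absurd hd hq.one_lt.ne'
  | succ j ih =>
    intro b hb
    unfold fj at hb
    obtain ⟨p, u, hp, hu, rfl, hp0⟩ := cvf_ne hb
    obtain ⟨p1, p2, p3⟩ := al_ne hp
    obtain ⟨i0, i1, i2, i3, i4, i5, i6⟩ := ih u hu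
    have hk : 0 < κ / 2 ^ j := by positivity
    have e1 : 2 * κ / 2 ^ (j + 1) = κ / 2 ^ j := by
      rw [pow_succ]
      field_simp
    have e0 : 2 * κ / 2 ^ j = 2 * (κ / 2 ^ j) := by ring
    have e2 : M ^ (5 * (κ / 2 ^ j) / 4) ≤ M ^ (2 * κ / 2 ^ j) := by
      apply Real.rpow_le_rpow_of_exponent_le hM.le
      rw [e0]
      linarith
    have e3 : M ^ (κ / 2 ^ j) ≤ M ^ (2 * κ / 2 ^ j) := by
      apply Real.rpow_le_rpow_of_exponent_le hM.le
      rw [e0]
      linarith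
    have hcop : Nat.Coprime (Zsqrtd.norm p).natAbs (Zsqrtd.norm u).natAbs := (i3 p hp0 (p3.trans e2)).symm
    have hnm : (Zsqrtd.norm (p * u)).natAbs = (Zsqrtd.norm p).natAbs * (Zsqrtd.norm u).natAbs := by
      rw [Zsqrtd.norm_mul, Int.natAbs_mul]
    rw [e1]
    refine ⟨mul_ne_zero hp0 i0, ?_, ?_, ?_, ?_, ?_, ?_⟩
    · rw [nz_mul]
      calc nz p * nz u ≤ M ^ (5 * (κ / 2 ^ j) / 4) * M ^ (5 * κ / 2 * (1 - 1 / 2 ^ j)) :=
            mul_le_mul p3 i1 (nz_nonneg _) (by positivity)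
        _ = M ^ (5 * κ / 2 * (1 - 1 / 2 ^ (j + 1))) := by
            rw [← Real.rpow_add hM0]
            congr 1
            rw [pow_succ]
            field_simp
            ring
    · exact ct_mul (ct_of_prime p1) i2 hcop
    · intro d hd0 hd
      rw [hnm]
      exact Nat.Coprime.mul_left (cop_small p1 hd0 (by linarith)) (i3 d hd0 (hd.trans e3))
    · rw [hnm, ArithmeticFunction.cardFactors_mul p1.ne_zero (by
        have := nz_pos i0
        rw [nz_nat] at this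
        have h : (0 : ℝ) < ((Zsqrtd.norm u).natAbs : ℝ) := this
        intro h0
        rw [h0] at h
        simp at h), i4, ArithmeticFunction.cardFactors_apply_prime p1]
      ring
    · rw [hnm, Nat.squarefree_mul hcop]
      exact ⟨p1.squarefree, i5⟩
    · intro q hq hd
      rw [hnm, hq.dvd_mul] at hd
      rcases hd with h | h
      · rw [(Nat.prime_dvd_prime_iff_eq hq p1).1 h]
        rw [nz_nat] at p2
        exact p2
      · exact lt_of_le_of_lt e3 (i6 q hq h)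

/-- the divisor sums of a convolution -/
theorem ds_cvf {f g : ZI → ℝ} (hf : ∀ u, 0 ≤ f u) (hg : ∀ u, 0 ≤ g u) {z : ZI} (hz : z ≠ 0) :
    ds (cvf g f) z ≤ ds g z * ds f z := by
  classical
  unfold ds cvf
  rw [sum_mul_sum, ← sum_product', sum_sigma']
  have h1 : ∀ x ∈ (Dv z).sigma (fun u => Dv u), (x.2, x.1 / x.2) ∈ Dv z ×ˢ Dv z := by
    intro x hx
    rw [mem_sigma] at hx
    have h2 := dvd_of_mem_Dv hx.1
    have h3 := dvd_of_mem_Dv hx.2
    have h4 := ne_of_mem_Dv hx.2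
    rw [mem_product, mem_Dv hz, mem_Dv hz]
    refine ⟨h3.trans h2, ?_⟩
    obtain ⟨w, hw⟩ := h3
    simp only
    rw [hw, div_of_mul h4]
    exact (Dvd.intro_left _ hw.symm).trans h2
  have h2 : Set.InjOn (fun x : (_ : ZI) × ZI => (x.2, x.1 / x.2)) ((Dv z).sigma (fun u => Dv u) : Finset _) := by
    intro x hx y hy hxy
    rw [mem_coe, mem_sigma] at hx hy
    simp only [Prod.mk.injEq] at hxy
    obtain ⟨w, hw⟩ := dvd_of_mem_Dv hx.2
    obtain ⟨w', hw'⟩ := dvd_of_mem_Dv hy.2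
    have hx0 := ne_of_mem_Dv hx.2
    have hy0 := ne_of_mem_Dv hy.2
    have e1 : w = w' := by
      have := hxy.2
      rw [hw, hw', div_of_mul hx0, div_of_mul hy0] at this
      exact this
    have e2 : x.1 = y.1 := by rw [hw, hw', hxy.1, e1]
    exact Sigma.ext e2 (heq_of_eq hxy.1)
  have h3 : ∑ x ∈ (Dv z).sigma (fun u => Dv u), g x.2 * f (x.1 / x.2) =
      ∑ x ∈ ((Dv z).sigma (fun u => Dv u)).image (fun x => (x.2, x.1 / x.2)), g x.1 * f x.2 := by
    rw [sum_image h2]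
  rw [h3]
  apply sum_le_sum_of_subset_of_nonneg
  · intro x hx
    rw [mem_image] at hx
    obtain ⟨y, hy, rfl⟩ := hx
    exact h1 y hy
  · intro x _ _
    exact mul_nonneg (hg _) (hf _)

/-- the sum with the inverse of the norm -/
theorem tot_cvf {f g : ZI → ℝ} {V W W' : ℝ} (hg : ∀ p, g p ≠ 0 → nz p ≤ V)
    (hf : ∀ u, f u ≠ 0 → nz u ≤ W) (hV : 0 ≤ V) (hW : V * W ≤ W') :
    ∑ b ∈ bl W', cvf g f b / nz b = (∑ p ∈ bl V, g p / nz p) * (∑ u ∈ bl W, f u / nz u) := by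
  classical
  rw [sum_mul_sum]
  have e1 : ∀ b ∈ bl W', cvf g f b / nz b = ∑ p ∈ bl V, if p ∣ b then g p * f (b / p) / nz b else 0 := by
    intro b hb
    obtain ⟨hb0, hbW⟩ := (mem_bl _ _).1 hb
    unfold cvf
    rw [← sum_filter, sum_div]
    symm
    apply sum_subset
    · intro p hp
      rw [mem_filter] at hp
      rw [mem_Dv hb0]
      exact hp.2
    · intro p hp hp'
      by_contra hne
      apply hp'
      rw [mem_filter, mem_bl]
      have h1 : g p ≠ 0 := by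
        intro h
        apply hne
        rw [h, zero_mul, zero_div]
      exact ⟨⟨ne_of_mem_Dv hp, hg p h1⟩, dvd_of_mem_Dv hp⟩
  rw [sum_congr rfl e1, sum_comm]
  apply sum_congr rfl
  intro p hp
  obtain ⟨hp0, hpV⟩ := (mem_bl _ _).1 hp
  have hpp := nz_pos hp0
  rw [← sum_filter]
  have h2 : (bl W).image (fun u => p * u) ⊆ (bl W').filter (fun b => p ∣ b) := by
    intro b hb
    rw [mem_image] at hb
    obtain ⟨u, hu, rfl⟩ := hb
    obtain ⟨hu0, huW⟩ := (mem_bl _ _).1 hu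
    rw [mem_filter, mem_bl, nz_mul]
    exact ⟨⟨mul_ne_zero hp0 hu0, (mul_le_mul hpV huW (nz_nonneg _) hV).trans hW⟩, dvd_mul_right _ _⟩
  rw [← sum_subset h2]
  · rw [sum_image]
    · apply sum_congr rfl
      intro u hu
      have hup := nz_pos ((mem_bl _ _).1 hu).1
      rw [div_of_mul hp0, nz_mul]
      field_simp
    · intro a _ b _ h
      exact mul_left_cancel₀ hp0 h
  · intro b hb hb'
    rw [mem_filter, mem_bl] at hb
    obtain ⟨⟨hb0, hbW⟩, u, rfl⟩ := hb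
    by_contra hne
    apply hb'
    rw [mem_image]
    refine ⟨u, ?_, rfl⟩
    rw [mem_bl]
    refine ⟨right_ne_zero_of_mul hb0, ?_⟩
    apply hf
    intro h
    apply hne
    rw [div_of_mul hp0, h]
    ring

/-- one range of small primes -/
theorem al_small {η : ℝ} (hη : 0 < η) : ∀ᶠ M : ℝ in atTop,
    (2 / 5 ≤ ∑ p ∈ bl (M ^ (5 * η / 4)), al (M ^ η) (M ^ (5 * η / 4)) p / nz p ∧
      ∑ p ∈ bl (M ^ (5 * η / 4)), al (M ^ η) (M ^ (5 * η / 4)) p / nz p ≤ 2) ∧
    ∀ z : ZI, z ≠ 0 → nz z ≤ 2 * M ^ 2 → ds (al (M ^ η) (M ^ (5 * η / 4))) z ≤ 12 / η := by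
  classical
  obtain ⟨C, hC, h⟩ := mert2 c_mub c_el
  have h1 := (tendsto_rpow_atTop hη).eventually h
  have h3 : ∀ᶠ M : ℝ in atTop, 2 * (C + 1) / η ≤ Real.log M := Real.tendsto_log_atTop.eventually_ge_atTop _
  filter_upwards [h1, h3, eventually_ge_atTop 3] with M h1 h3 hM3
  have hM0 : 0 < M := by linarith
  have hM1 : 1 ≤ M := by linarith
  set y := Real.log M with hy
  have hy1 : 1 ≤ y := one_le_log hM3
  have hy0 : 0 < y := by linarith
  rw [div_le_iff₀ hη] at h3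
  have h1' := h1 (M ^ (5 * η / 4)) (Real.rpow_le_rpow_of_exponent_le hM1 (by linarith))
    (by
      rw [← Real.rpow_mul hM0.le]
      exact Real.rpow_le_rpow_of_exponent_le hM1 (by linarith))
  rw [Real.log_rpow hM0, Real.log_rpow hM0, ← hy] at h1'
  have hQ1 : 1 < M ^ η := Real.one_lt_rpow (by linarith) hη
  have hQ2 : 1 < M ^ (5 * η / 4) := Real.one_lt_rpow (by linarith) (by linarith)
  have e1 := al_sum_le (Q2 := M ^ (5 * η / 4)) hQ1
  have e2 := al_sum_ge (Q1 := M ^ η) hQ2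
  rw [Real.log_rpow hM0, ← hy] at e1 e2
  set Sq := ∑ v ∈ bg (M ^ η) (M ^ (5 * η / 4)), lp v / nz v with hSq
  set Sv := ∑ v ∈ bl (M ^ (5 * η / 4)), al (M ^ η) (M ^ (5 * η / 4)) v / nz v with hSv
  rw [abs_le] at h1'
  have hSv0 : 0 ≤ Sv := sum_nonneg fun v hv => div_nonneg (al_nonneg _ _ _) (nz_nonneg v)
  have hηy : 0 < η * y := by positivity
  refine ⟨⟨?_, ?_⟩, ?_⟩
  · have a1 : η * y / 2 ≤ Sq := by nlinarith
    have a2 : η * y * (1 / 2) ≤ η * y * (5 / 4 * Sv) := by nlinarith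
    have a3 := le_of_mul_le_mul_left a2 hηy
    linarith
  · have a1 : Sq ≤ 2 * (η * y) := by nlinarith
    have a2 : η * y * Sv ≤ η * y * 2 := by linarith
    exact le_of_mul_le_mul_left a2 hηy
  · intro z hz hzM
    have b1 : η * y * ds (al (M ^ η) (M ^ (5 * η / 4))) z ≤ om (M ^ η) (M ^ (5 * η / 4)) z := by
      unfold ds om
      rw [mul_sum]
      apply sum_le_sum
      intro a _
      by_cases h : al (M ^ η) (M ^ (5 * η / 4)) a = 0
      · rw [h, mul_zero]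
        exact lw_nonneg _ _ _
      · obtain ⟨h4, h5, h6⟩ := al_ne h
        unfold al lw lp
        rw [if_pos ⟨h4, h5, h6⟩, if_pos ⟨h5, h6⟩, if_pos h4, mul_one]
        have := Real.log_le_log (by positivity) h5.le
        rw [Real.log_rpow hM0] at this
        exact this
    have b2 := om_le c_mub (M ^ η) (M ^ (5 * η / 4)) hz
    have b3 := log3 hM3 hz hzM
    have b4 : η * y * ds (al (M ^ η) (M ^ (5 * η / 4))) z ≤ η * y * (12 / η) := by
      have : η * y * (12 / η) = 12 * y := by field_simp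
      rw [this]
      linarith
    exact le_of_mul_le_mul_left b4 hηy

theorem fj_tot {κ : ℝ} (hκ : 0 < κ) (j : ℕ) : ∀ᶠ M : ℝ in atTop,
    (∀ W' : ℝ, M ^ (5 * κ / 2 * (1 - 1 / 2 ^ j)) ≤ W' → (2 / 5 : ℝ) ^ j ≤ ∑ u ∈ bl W', fj M κ j u / nz u ∧
      ∑ u ∈ bl W', fj M κ j u / nz u ≤ 2 ^ j) ∧
    ∀ z : ZI, z ≠ 0 → nz z ≤ 2 * M ^ 2 → ds (fj M κ j) z ≤ (1 + 12 * 2 ^ j / κ) ^ j := by
  classical
  induction j with
  | zero =>
    filter_upwards [eventually_ge_atTop 3] with M hM3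
    have hn : nz (1 : ZI) = 1 := Pool.Agent.N855.GN.nz_unit isUnit_one
    constructor
    · intro W' hW'
      have e1 : M ^ (5 * κ / 2 * (1 - 1 / 2 ^ 0)) = 1 := by simp
      rw [e1] at hW'
      have e2 : ∑ u ∈ bl W', fj M κ 0 u / nz u = 1 := by
        rw [sum_eq_single (1 : ZI)]
        · unfold fj
          rw [if_pos rfl, hn, div_one]
        · intro b _ hb
          unfold fj
          rw [if_neg hb, zero_div]
        · intro h
          exfalso
          apply h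
          rw [mem_bl, hn]
          exact ⟨one_ne_zero, hW'⟩
      rw [e2]
      norm_num
    · intro z hz _
      rw [pow_zero]
      unfold ds
      calc ∑ a ∈ Dv z, fj M κ 0 a = ∑ a ∈ Dv z, if a = 1 then (1 : ℝ) else 0 := rfl
        _ ≤ 1 := by
            rw [sum_ite_eq']
            split_ifs <;> norm_num
  | succ j ih =>
    have hη : 0 < κ / 2 ^ j := by positivity
    filter_upwards [ih, al_small hη, eventually_ge_atTop 3] with M ih ha hM3
    have hM0 : 0 < M := by linarith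
    have hM1 : 1 < M := by linarith
    obtain ⟨ih1, ih2⟩ := ih
    obtain ⟨⟨a1, a2⟩, a3⟩ := ha
    constructor
    · intro W' hW'
      have e1 : ∑ u ∈ bl W', fj M κ (j + 1) u / nz u =
          (∑ p ∈ bl (M ^ (5 * (κ / 2 ^ j) / 4)), al (M ^ (κ / 2 ^ j)) (M ^ (5 * (κ / 2 ^ j) / 4)) p / nz p) *
            (∑ u ∈ bl (M ^ (5 * κ / 2 * (1 - 1 / 2 ^ j))), fj M κ j u / nz u) := by
        apply tot_cvf
        · intro p hp
          exact (al_ne hp).2.2
        · intro u hu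
          exact (fj_ne hM1 hκ j u hu).2.1
        · positivity
        · refine le_trans (le_of_eq ?_) hW'
          rw [← Real.rpow_add hM0]
          congr 1
          rw [pow_succ]
          field_simp
          ring
      obtain ⟨b1, b2⟩ := ih1 _ le_rfl
      rw [e1, pow_succ', pow_succ']
      constructor
      · exact mul_le_mul a1 b1 (by positivity) (by linarith)
      · exact mul_le_mul a2 b2 (le_trans (by positivity) b1) (by norm_num)
    · intro z hz hzM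
      have b1 : ds (fj M κ (j + 1)) z ≤ ds (al (M ^ (κ / 2 ^ j)) (M ^ (5 * (κ / 2 ^ j) / 4))) z * ds (fj M κ j) z :=
        ds_cvf (fj_nonneg M κ j) (al_nonneg _ _) hz
      refine b1.trans ?_
      have b2 := a3 z hz hzM
      have b3 := ih2 z hz hzM
      have b4 : 12 / (κ / 2 ^ j) ≤ 1 + 12 * 2 ^ (j + 1) / κ := by
        have : 12 / (κ / 2 ^ j) = 12 * 2 ^ j / κ := by field_simp
        rw [this, pow_succ]
        have h5 : 0 ≤ 12 * 2 ^ j / κ := by positivity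
        have h6 : 12 * (2 ^ j * 2) / κ = 2 * (12 * 2 ^ j / κ) := by ring
        rw [h6]
        linarith
      have b5 : (1 + 12 * 2 ^ j / κ) ^ j ≤ (1 + 12 * 2 ^ (j + 1) / κ) ^ j := by
        apply pow_le_pow_left₀ (by positivity)
        have : (2 : ℝ) ^ j ≤ 2 ^ (j + 1) := pow_le_pow_right₀ (by norm_num) (by omega)
        gcongr
      rw [pow_succ']
      exact mul_le_mul (b2.trans b4) (b3.trans b5) (ds_nonneg (fj_nonneg M κ j) z) (by positivity)

/-- the weight of the products of `j` small primes is admissible -/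
theorem fj_Sm {δ κ η0 : ℝ} (hκ : 0 < κ) (hκδ : 5 * κ / 2 ≤ δ / 256) (j : ℕ) (hη0 : η0 ≤ 2 * κ / 2 ^ j) :
    ∃ C0 : ℝ, 1 ≤ C0 ∧ ∀ᶠ M : ℝ in atTop, Sm M (M ^ (δ / 256)) C0 (M ^ η0) (fj M κ j) ∧
      (2 / 5 : ℝ) ^ j ≤ ∑ u ∈ bl (M ^ (δ / 256)), fj M κ j u / nz u := by
  refine ⟨(1 + 12 * 2 ^ j / κ) ^ j + 2 ^ j, ?_, ?_⟩
  · have h1 : (1 : ℝ) ≤ 2 ^ j := one_le_pow₀ (by norm_num)
    have h2 : 0 ≤ (1 + 12 * 2 ^ j / κ) ^ j := by positivity
    linarith
  filter_upwards [fj_tot hκ j, eventually_ge_atTop 3] with M h hM3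
  have hM0 : 0 < M := by linarith
  have hM1 : 1 < M := by linarith
  obtain ⟨h1, h2⟩ := h
  have e1 : M ^ (5 * κ / 2 * (1 - 1 / 2 ^ j)) ≤ M ^ (δ / 256) := by
    apply Real.rpow_le_rpow_of_exponent_le hM1.le
    refine le_trans ?_ hκδ
    have : (0 : ℝ) ≤ 1 / 2 ^ j := by positivity
    nlinarith
  obtain ⟨h3, h4⟩ := h1 _ e1
  refine ⟨⟨fj_nonneg M κ j, ?_, ?_, ?_⟩, h3⟩
  · intro u hu
    obtain ⟨i0, i1, i2, i3, -⟩ := fj_ne hM1 hκ j u hu
    refine ⟨i0, i1.trans e1, i2, ?_⟩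
    intro d hd0 hd
    exact i3 d hd0 (hd.trans (Real.rpow_le_rpow_of_exponent_le hM1.le hη0))
  · intro z hz hzM
    have := h2 z hz hzM
    have h5 : (0 : ℝ) ≤ 2 ^ j := by positivity
    linarith
  · have h5 : (0 : ℝ) ≤ (1 + 12 * 2 ^ j / κ) ^ j := by positivity
    linarith

end Pool.Agent.J4.H69
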