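import Pool.Agent.J4.H69.LFl
import Pool.Agent.J4.H69.FIN

/-!
# The singular series from below
-/

set_option autoImplicit false

namespace Pool.Agent.J4.H69

open Finset Filter Topology
open Pool.Agent.N782.GN
open Pool.Agent.N855.GN (Dv mem_Dv logpow nz_one_le one_le_log bg)
open Pool.Agent.N277.GN (ct_nat_mul abs_be_le card_bl nz_pos nz_natCast)
open Pool.Agent.H304R3.HK (UH bb LamK CS)

/-- the part of the singular series from the primes `≡ 1 (mod 4)` dividing `l` -/
noncomputable def fac (l : ℕ) : ℝ := ∏ p ∈ l.primeFactors with p % 4 = 1, (p : ℝ) / (p - 2)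

theorem fac_ge (l : ℕ) : 1 ≤ fac l := by
  unfold fac
  apply prod_induction (fun p : ℕ => (p : ℝ) / (p - 2)) (fun x => 1 ≤ x)
    (fun a b ha hb => one_le_mul_of_one_le_of_one_le ha hb) le_rfl
  intro p hp
  rw [mem_filter] at hp
  have h1 := (Nat.prime_of_mem_primeFactors hp.1).two_le
  have h2 : 3 ≤ p := by omega
  have h3 : (3 : ℝ) ≤ p := by exact_mod_cast h2
  rw [le_div_iff₀ (by linarith)]
  linarith

theorem ss_low {l : ℕ} (hl : 1 ≤ l) : SS 1 * (((l.totient : ℝ) / l) * fac l) ≤ SS l := by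
  classical
  have hlR : (0 : ℝ) < l := by exact_mod_cast hl
  obtain ⟨h1, h2⟩ := c_ssl 1 one_ne_zero
  obtain ⟨h3, h4⟩ := c_ssl (l : ℤ) (by exact_mod_cast (by omega : l ≠ 0))
  set t : ℕ → ℝ := fun p => 1 - ((ZMod.χ₄ (p : ZMod 4) : ℤ) : ℝ) / ((p : ℝ) - 1) with ht
  have htp : ∀ p : ℕ, 3 ≤ p → 0 < t p := by
    intro p hp
    have hp3 : (3 : ℝ) ≤ p := by exact_mod_cast hp
    rw [ht]
    simp only
    have h5 : ((ZMod.χ₄ (p : ZMod 4) : ℤ) : ℝ) ≤ 1 := by
      rcases ZMod.isQuadratic_χ₄ (p : ZMod 4) with h | h | h <;> rw [h] <;> norm_num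
    have h6 : ((ZMod.χ₄ (p : ZMod 4) : ℤ) : ℝ) / ((p : ℝ) - 1) ≤ 1 / 2 := by
      rw [div_le_div_iff₀ (by linarith) (by norm_num)]
      linarith
    linarith
  -- the local factors
  set g : ℕ → ℝ := fun p => (if 3 ≤ p then t p else 1) * (1 - (p : ℝ)⁻¹) *
    (if p % 4 = 1 then (p : ℝ) / (p - 2) else 1) with hg
  have hg1 : ∀ p ∈ l.primeFactors, 0 ≤ g p ∧ g p ≤ 1 := by
    intro p hp
    have hpp := Nat.prime_of_mem_primeFactors hp
    have hp2 := hpp.two_le
    have hp2R : (2 : ℝ) ≤ p := by exact_mod_cast hp2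
    have hinv : (0 : ℝ) ≤ 1 - (p : ℝ)⁻¹ := by
      have := inv_le_one_of_one_le₀ (show (1 : ℝ) ≤ p by linarith)
      linarith
    rcases Nat.lt_or_ge p 3 with h | h
    · have : p = 2 := by omega
      subst this
      rw [hg]
      simp only
      norm_num
    · have hodd : p % 4 = 1 ∨ p % 4 = 3 := by
        rcases hpp.eq_two_or_odd with h' | h'
        · omega
        · omega
      have hp3R : (3 : ℝ) ≤ p := by exact_mod_cast h
      have hmod : (p : ZMod 4) = ((p % 4 : ℕ) : ZMod 4) := by simp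
      rcases hodd with h' | h'
      · have e1 : g p = 1 := by
          rw [hg, ht]
          simp only
          rw [if_pos h, if_pos h', hmod, h']
          have : (ZMod.χ₄ ((1 : ℕ) : ZMod 4) : ℤ) = 1 := by decide
          rw [this]
          push_cast
          have h5 : (p : ℝ) - 1 ≠ 0 := by linarith
          have h6 : (p : ℝ) - 2 ≠ 0 := by linarith
          have h7 : (p : ℝ) ≠ 0 := by linarith
          field_simp
          ring
        rw [e1]
        norm_num
      · have e1 : g p = 1 := by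
          rw [hg, ht]
          simp only
          rw [if_pos h, if_neg (by omega), hmod, h']
          have : (ZMod.χ₄ ((3 : ℕ) : ZMod 4) : ℤ) = -1 := by decide
          rw [this]
          push_cast
          have h5 : (p : ℝ) - 1 ≠ 0 := by linarith
          have h7 : (p : ℝ) ≠ 0 := by linarith
          field_simp
          ring
        rw [e1]
        norm_num
  have hprod : ∏ p ∈ l.primeFactors, g p ≤ 1 := prod_le_one (fun p hp => (hg1 p hp).1) (fun p hp => (hg1 p hp).2)
  have hphi : (l.totient : ℝ) / l = ∏ p ∈ l.primeFactors, (1 - (p : ℝ)⁻¹) := by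
    have := Nat.totient_eq_mul_prod_factors l
    have h2 : ((l.totient : ℚ) : ℝ) = ((l * ∏ p ∈ l.primeFactors, (1 - (p : ℚ)⁻¹) : ℚ) : ℝ) := by rw [this]
    push_cast at h2
    rw [div_eq_iff hlR.ne', mul_comm]
    exact h2
  set R := ∏ p ∈ l.primeFactors, (if 3 ≤ p then t p else 1) with hR
  have hRG : R * (((l.totient : ℝ) / l) * fac l) ≤ 1 := by
    rw [hphi]
    unfold fac
    rw [prod_filter, hR, ← mul_assoc, ← prod_mul_distrib, ← prod_mul_distrib]
    exact hprod
  have hG0 : 0 ≤ ((l.totient : ℝ) / l) * fac l := mul_nonneg (by positivity) (by linarith [fac_ge l])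
  -- the partial products
  have key : ∀ z : ℕ, l ≤ z → pp 1 z * (((l.totient : ℝ) / l) * fac l) ≤ pp l z := by
    intro z hz
    have hsplit : pp 1 z = pp l z * R := by
      unfold pp
      have e1 : (Icc 3 z).filter (fun p : ℕ => p.Prime ∧ ¬ (p : ℤ) ∣ 1) =
          (Icc 3 z).filter (fun p : ℕ => p.Prime) := by
        apply filter_congr
        intro p _
        constructor
        · exact fun h => h.1
        · intro h
          refine ⟨h, fun h' => ?_⟩
          have := Int.natAbs_dvd_natAbs.2 h'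
          simp at this
          exact h.one_lt.ne' this
      rw [e1, ← prod_filter_mul_prod_filter_not ((Icc 3 z).filter (fun p : ℕ => p.Prime)) (fun p : ℕ => ¬ (p : ℤ) ∣ (l : ℤ)),
        filter_filter, filter_filter]
      congr 1
      rw [hR, ← prod_filter]
      apply prod_congr _ fun _ _ => rfl
      ext p
      rw [mem_filter, mem_filter, mem_Icc, Nat.mem_primeFactors, not_not, Int.natCast_dvd_natCast]
      constructor
      · rintro ⟨⟨h5, h6⟩, h7, h8⟩
        exact ⟨⟨h7, h8, by omega⟩, h5⟩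
      · rintro ⟨⟨h7, h8, h9⟩, h5⟩
        exact ⟨⟨h5, (Nat.le_of_dvd (by omega) h8).trans hz⟩, h7, h8⟩
    have hpos : 0 ≤ pp l z := by
      unfold pp
      apply prod_nonneg
      intro p hp
      rw [mem_filter, mem_Icc] at hp
      exact (htp p hp.1.1).le
    rw [hsplit, mul_assoc]
    exact mul_le_of_le_one_right hpos hRG
  have h5 : Tendsto (fun z => pp 1 z * (((l.totient : ℝ) / l) * fac l)) atTop
      (𝓝 (SS 1 * (((l.totient : ℝ) / l) * fac l))) := h1.mul_const _
  exact le_of_tendsto_of_tendsto h5 h3 (by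
    filter_upwards [eventually_ge_atTop l] with z hz
    exact key z hz)

end Pool.Agent.J4.H69
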