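import Pool.Agent.J4.H69.LFm

/-!
# The powers of primes
-/

set_option autoImplicit false

namespace Pool.Agent.J4.H69

open Finset Filter Topology
open Pool.Agent.N782.GN
open Pool.Agent.N855.GN (Dv mem_Dv logpow nz_one_le one_le_log bg dv_card)
open Pool.Agent.N277.GN (ct_nat_mul abs_be_le card_bl nz_pos nz_natCast)
open Pool.Agent.H304R3.HK (UH bb LamK CS)

theorem norm_pos_nat {z : ZI} (hz : z ≠ 0) : 0 < (Zsqrtd.norm z).natAbs := by
  have h1 := nz_pos hz
  rw [nz_nat] at h1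
  exact_mod_cast h1

/-- where the function `Λ` lives -/
theorem LamK_pp {b : ZI} (h : LamK b ≠ 0) : IsPrimePow (Zsqrtd.norm b).natAbs := by
  by_contra hn
  apply h
  exact Pool.Agent.H304R3.HK.M4.LamK_npp hn (norm_nat b).symm

open Classical in
/-- the powers of primes up to `M` -/
noncomputable def ppw (M : ℝ) : Finset ℕ :=
  (Icc 1 ⌊M⌋₊).filter (fun n => IsPrimePow n ∧ ¬ n.Prime)

theorem ppw_card {M : ℝ} (hM : 3 ≤ M) : ((ppw M).card : ℝ) ≤ Real.sqrt M * (2 * Real.log M + 1) := by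
  classical
  have hM0 : 0 < M := by linarith
  have hy : 0 ≤ Real.log M := Real.log_nonneg (by linarith)
  have hsub : ppw M ⊆ ((Icc 1 ⌊Real.sqrt M⌋₊) ×ˢ (range (⌊2 * Real.log M⌋₊ + 1))).image (fun x => x.1 ^ x.2) := by
    intro n hn
    unfold ppw at hn
    rw [mem_filter, mem_Icc] at hn
    obtain ⟨⟨hn1, hn2⟩, hpp, hnp⟩ := hn
    rw [isPrimePow_nat_iff] at hpp
    obtain ⟨p, i, hp, hi, rfl⟩ := hpp
    have hnM : ((p ^ i : ℕ) : ℝ) ≤ M := (Nat.le_floor_iff hM0.le).1 hn2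
    have hi2 : 2 ≤ i := by
      by_contra h
      have : i = 1 := by omega
      apply hnp
      rw [this, pow_one]
      exact hp
    rw [mem_image]
    refine ⟨(p, i), ?_, rfl⟩
    rw [mem_product, mem_Icc, mem_range]
    refine ⟨⟨hp.one_lt.le, ?_⟩, ?_⟩
    · apply Nat.le_floor
      apply Real.le_sqrt_of_sq_le
      refine le_trans ?_ hnM
      push_cast
      exact pow_le_pow_right₀ (by exact_mod_cast hp.one_lt.le) hi2
    · simp only
      rw [Nat.lt_succ_iff]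
      apply Nat.le_floor
      have h1 : ((2 : ℝ) ^ i) ≤ M := by
        refine le_trans ?_ hnM
        push_cast
        exact pow_le_pow_left₀ (by norm_num) (by exact_mod_cast hp.two_le) i
      have h2 := Real.log_le_log (by positivity) h1
      rw [Real.log_pow] at h2
      have h3 := Real.log_two_gt_d9
      have h4 : (0 : ℝ) ≤ i := Nat.cast_nonneg i
      nlinarith
  have h1 := (card_le_card hsub).trans card_image_le
  rw [card_product, card_range, Nat.card_Icc, Nat.add_sub_cancel] at h1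
  have h2 : ((ppw M).card : ℝ) ≤ (⌊Real.sqrt M⌋₊ : ℝ) * ((⌊2 * Real.log M⌋₊ : ℝ) + 1) := by exact_mod_cast h1
  refine h2.trans ?_
  have h3 := Nat.floor_le (Real.sqrt_nonneg M)
  have h4 := Nat.floor_le (show 0 ≤ 2 * Real.log M by positivity)
  gcongr

open Classical in
/-- the numbers whose norm is a power of a prime but not a prime -/
noncomputable def Bpp (M : ℝ) : Finset ZI := (bl M).filter (fun b => LamK b ≠ 0 ∧ ¬ (Zsqrtd.norm b).natAbs.Prime)

theorem Bpp_card : ∀ᶠ M : ℝ in atTop, ((Bpp M).card : ℝ) ≤ M ^ (3 / 4 : ℝ) := by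
  classical
  obtain ⟨C, hC, h⟩ := c_dvb (1 / 16) (by norm_num)
  have d1 := logpow 1 (show (0 : ℝ) < 1 / 8 by norm_num) (show (0 : ℝ) < 1 / (3 * C) by positivity)
  filter_upwards [d1, eventually_ge_atTop 3] with M d1 hM3
  have hM0 : 0 < M := by linarith
  have hM1 : 1 ≤ M := by linarith
  have hy := one_le_log hM3
  rw [pow_one] at d1
  have h1 : ∀ b ∈ Bpp M, (Zsqrtd.norm b).natAbs ∈ ppw M := by
    intro b hb
    unfold Bpp at hb
    rw [mem_filter, mem_bl] at hb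
    obtain ⟨⟨hb0, hbM⟩, hb1, hb2⟩ := hb
    unfold ppw
    rw [mem_filter, mem_Icc]
    refine ⟨⟨norm_pos_nat hb0, Nat.le_floor ?_⟩, LamK_pp hb1, hb2⟩
    rw [nz_nat] at hbM
    exact hbM
  have h2 := card_eq_sum_card_fiberwise h1
  have h3 : ∀ n ∈ ppw M, (((Bpp M).filter (fun b => (Zsqrtd.norm b).natAbs = n)).card : ℝ) ≤ C * M ^ (1 / 8 : ℝ) := by
    intro n hn
    unfold ppw at hn
    rw [mem_filter, mem_Icc] at hn
    have hn0 : ((n : ℕ) : ZI) ≠ 0 := by
      have : n ≠ 0 := by omega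
      exact_mod_cast this
    have hnM : (n : ℝ) ≤ M := (Nat.le_floor_iff hM0.le).1 hn.1.2
    have h4 : (Bpp M).filter (fun b => (Zsqrtd.norm b).natAbs = n) ⊆ Dv ((n : ℕ) : ZI) := by
      intro b hb
      rw [mem_filter] at hb
      rw [mem_Dv hn0, ← hb.2]
      refine ⟨star b, ?_⟩
      exact (mul_star_self b).symm
    have h5 : (((Bpp M).filter (fun b => (Zsqrtd.norm b).natAbs = n)).card : ℝ) ≤ dv ((n : ℕ) : ZI) := by
      rw [dv_card]
      exact_mod_cast card_le_card h4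
    refine h5.trans ((h _ hn0).trans ?_)
    rw [nz_natCast]
    apply mul_le_mul_of_nonneg_left _ hC.le
    calc ((n : ℝ) ^ 2) ^ (1 / 16 : ℝ) ≤ (M ^ 2) ^ (1 / 16 : ℝ) :=
          Real.rpow_le_rpow (by positivity) (pow_le_pow_left₀ (Nat.cast_nonneg n) hnM 2) (by norm_num)
      _ = M ^ (1 / 8 : ℝ) := by
          rw [← Real.rpow_natCast, ← Real.rpow_mul hM0.le]
          norm_num
  have h4 : ((Bpp M).card : ℝ) ≤ ((ppw M).card : ℝ) * (C * M ^ (1 / 8 : ℝ)) := by
    rw [h2]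
    push_cast
    refine (sum_le_sum h3).trans ?_
    rw [sum_const, nsmul_eq_mul]
  refine h4.trans ?_
  have h5 := ppw_card hM3
  calc ((ppw M).card : ℝ) * (C * M ^ (1 / 8 : ℝ)) ≤ (Real.sqrt M * (2 * Real.log M + 1)) * (C * M ^ (1 / 8 : ℝ)) := by
        gcongr
    _ ≤ (Real.sqrt M * (3 * Real.log M)) * (C * M ^ (1 / 8 : ℝ)) := by
        gcongr
        linarith
    _ ≤ (Real.sqrt M * (3 * (1 / (3 * C) * M ^ (1 / 8 : ℝ)))) * (C * M ^ (1 / 8 : ℝ)) := by gcongr
    _ = Real.sqrt M * (M ^ (1 / 8 : ℝ) * M ^ (1 / 8 : ℝ)) := by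
        field_simp
    _ = M ^ (3 / 4 : ℝ) := by
        rw [Real.sqrt_eq_rpow, ← Real.rpow_add hM0, ← Real.rpow_add hM0]
        norm_num

open Classical in
/-- the numbers in the box divisible by a large power of a prime -/
noncomputable def badz (M L δ : ℝ) : Finset ZI :=
  (Bx L (-M) M).filter (fun z => ∃ b ∈ Bpp M, M ^ (1 - δ) < nz b ∧ b ∣ z)

theorem bad_box {δ : ℝ} (hδ : 0 < δ) (hδ1 : δ ≤ 1 / 8) : ∀ᶠ M : ℝ in atTop, ∀ L : ℝ,
    M ^ δ ≤ L → L ≤ M ^ (1 - δ) → ((badz M L δ).card : ℝ) ≤ L * M ^ (1 - δ / 20) := by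
  classical
  obtain ⟨C, hC, hti⟩ := c_ti δ hδ
  have d1 : ∀ᶠ M : ℝ in atTop, 2 + C ≤ M ^ (δ / 20) :=
    (tendsto_rpow_atTop (by positivity)).eventually_ge_atTop _
  filter_upwards [d1, Bpp_card, eventually_ge_atTop 3] with M d1 d2 hM3
  intro L hL1 hL2
  have hM0 : 0 < M := by linarith
  have hM1 : 1 ≤ M := by linarith
  have hL0 : 0 < L := lt_of_lt_of_le (by positivity) hL1
  have hL11 : 1 ≤ L := (Real.one_le_rpow hM1 hδ.le).trans hL1
  have hpw : ∀ s t : ℝ, s ≤ t → M ^ s ≤ M ^ t := fun s t hst => Real.rpow_le_rpow_of_exponent_le hM1 hst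
  set lam : ℤ → ℝ := fun l => if 1 ≤ l ∧ (l : ℝ) ≤ L then 1 else 0 with hlam
  have hLm : Lm L lam := by
    refine ⟨fun l => ?_, fun l hl => ?_⟩
    · rw [hlam]
      simp only
      split_ifs <;> norm_num
    · rw [hlam]
      simp only
      rw [if_neg]
      rintro ⟨h2, h3⟩
      rcases hl with h | h
      · omega
      · linarith
  have hlam1 : ∀ l ∈ Icc 1 ⌊L⌋, lam l = 1 := by
    intro l hl
    rw [mem_Icc] at hl
    rw [hlam]
    simp only
    rw [if_pos ⟨hl.1, Int.le_floor.1 hl.2⟩]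
  have hDL : M ≤ L * M ^ (1 - δ) := by
    calc M = M ^ δ * M ^ (1 - δ) := by
          rw [← Real.rpow_add hM0]
          norm_num
      _ ≤ L * M ^ (1 - δ) := by gcongr
  have key := hti M L M lam (by linarith) hL11 hL2 hM1 hDL hLm
  set B := (Bpp M).filter (fun b => M ^ (1 - δ) < nz b) with hB
  have hBbl : B ⊆ bl M := by
    intro b hb
    rw [hB, mem_filter] at hb
    unfold Bpp at hb
    exact (mem_filter.1 hb.1).1
  have e1 : ((badz M L δ).card : ℝ) ≤ ∑ b ∈ B, ∑ l ∈ Icc 1 ⌊L⌋, nm M b l := by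
    have e2 : ((badz M L δ).card : ℝ) ≤ ∑ z ∈ Bx L (-M) M, ∑ b ∈ B, if b ∣ z then (1 : ℝ) else 0 := by
      unfold badz
      rw [card_filter]
      push_cast
      apply sum_le_sum
      intro z _
      split_ifs with h
      · obtain ⟨b, hb, hb1, hb2⟩ := h
        calc (1 : ℝ) = if b ∣ z then (1 : ℝ) else 0 := by rw [if_pos hb2]
          _ ≤ ∑ b ∈ B, if b ∣ z then (1 : ℝ) else 0 :=
              single_le_sum (f := fun b => if b ∣ z then (1 : ℝ) else 0)
                (fun i _ => by positivity) (mem_filter.2 ⟨hb, hb1⟩)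
      · exact sum_nonneg fun i _ => by positivity
    refine e2.trans (le_of_eq ?_)
    rw [sum_comm]
    apply sum_congr rfl
    intro b _
    rw [Bx_sum L (-M) M (fun z => if b ∣ z then (1 : ℝ) else 0)]
    apply sum_congr rfl
    intro l _
    unfold nm
    rw [card_filter]
    push_cast
    rfl
  have e3 : ∀ b ∈ B, ∑ l ∈ Icc 1 ⌊L⌋, nm M b l ≤ 2 * M * L / M ^ (1 - δ) +
      |∑ l ∈ Icc 1 ⌊L⌋, lam l * (nm M b l - 2 * M * (kap l b / nz b))| := by
    intro b hb
    obtain ⟨hb0, hbM⟩ := (mem_bl _ _).1 (hBbl hb)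
    have hp := nz_pos hb0
    have h1 : ∑ l ∈ Icc 1 ⌊L⌋, nm M b l = 2 * M / nz b * ∑ l ∈ Icc 1 ⌊L⌋, kap l b +
        ∑ l ∈ Icc 1 ⌊L⌋, lam l * (nm M b l - 2 * M * (kap l b / nz b)) := by
      rw [mul_sum, ← sum_add_distrib]
      apply sum_congr rfl
      intro l hl
      rw [hlam1 l hl]
      ring
    have h2 := kap_sum hL0.le hb0
    have hbd : M ^ (1 - δ) ≤ nz b := by
      rw [hB, mem_filter] at hb
      exact hb.2.le
    rw [h1]
    apply add_le_add _ (le_abs_self _)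
    calc 2 * M / nz b * ∑ l ∈ Icc 1 ⌊L⌋, kap l b ≤ 2 * M / nz b * L := by gcongr
      _ ≤ 2 * M / M ^ (1 - δ) * L := by gcongr
      _ = 2 * M * L / M ^ (1 - δ) := by ring
  refine e1.trans ((sum_le_sum e3).trans ?_)
  rw [sum_add_distrib, sum_const, nsmul_eq_mul]
  have hBc : (B.card : ℝ) ≤ M ^ (3 / 4 : ℝ) := by
    refine le_trans ?_ d2
    exact_mod_cast card_filter_le _ _
  have h5 : (B.card : ℝ) * (2 * M * L / M ^ (1 - δ)) ≤ 2 * (L * M ^ (1 - δ / 10)) := by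
    calc (B.card : ℝ) * (2 * M * L / M ^ (1 - δ)) ≤ M ^ (3 / 4 : ℝ) * (2 * M * L / M ^ (1 - δ)) := by gcongr
      _ = 2 * (L * (M ^ (3 / 4 : ℝ) * M / M ^ (1 - δ))) := by ring
      _ ≤ 2 * (L * M ^ (1 - δ / 10)) := by
          apply mul_le_mul_of_nonneg_left _ (by norm_num)
          apply mul_le_mul_of_nonneg_left _ hL0.le
          have : M ^ (3 / 4 : ℝ) * M / M ^ (1 - δ) = M ^ (3 / 4 + 1 - (1 - δ)) := by
            rw [Real.rpow_sub hM0 (3 / 4 + 1) (1 - δ), Real.rpow_add hM0 (3 / 4) 1, Real.rpow_one]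
          rw [this]
          exact hpw _ _ (by linarith)
  have h6 : ∑ b ∈ B, |∑ l ∈ Icc 1 ⌊L⌋, lam l * (nm M b l - 2 * M * (kap l b / nz b))| ≤ C * (L * M ^ (1 - δ / 10)) := by
    refine (sum_le_sum_of_subset_of_nonneg hBbl fun _ _ _ => abs_nonneg _).trans ?_
    refine key.trans (le_of_eq (by ring))
  have h7 : (2 + C) * (L * M ^ (1 - δ / 10)) ≤ L * M ^ (1 - δ / 20) := by
    calc (2 + C) * (L * M ^ (1 - δ / 10)) ≤ M ^ (δ / 20) * (L * M ^ (1 - δ / 10)) := by gcongr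
      _ = L * (M ^ (δ / 20) * M ^ (1 - δ / 10)) := by ring
      _ = L * M ^ (1 - δ / 20) := by
          rw [← Real.rpow_add hM0]
          congr 2
          ring
  linarith

end Pool.Agent.J4.H69
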