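import Pool.Agent.J4.H69.LFn

/-!
# Products of exactly `k` primes
-/

set_option autoImplicit false

namespace Pool.Agent.J4.H69

open Finset Filter Topology
open Pool.Agent.N782.GN
open Pool.Agent.N855.GN (Dv mem_Dv logpow nz_one_le one_le_log bg dv_card)
open Pool.Agent.N277.GN (ct_nat_mul abs_be_le card_bl nz_pos nz_natCast)
open Pool.Agent.H304R3.HK (UH bb LamK CS)

/-- `n` is the product of exactly `k` distinct primes, all of them `> Z` -/
def Pk (k : ℕ) (Z : ℝ) (n : ℕ) : Prop :=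
  Squarefree n ∧ ArithmeticFunction.cardFactors n = k ∧ ∀ q : ℕ, q.Prime → q ∣ n → Z < q

theorem TTc_ne {c : ZI → ℝ} {A1 A2 Q1 Q2 : ℝ} {z : ZI} (h : TTc c A1 A2 Q1 Q2 z ≠ 0) :
    ∃ v a b : ZI, z = v * (a * b) ∧ al Q1 Q2 v ≠ 0 ∧ lw A1 A2 a ≠ 0 ∧ c b ≠ 0 := by
  classical
  unfold TTc at h
  obtain ⟨v, hv, hne⟩ := exists_ne_zero_of_sum_ne_zero h
  obtain ⟨w, hw⟩ := dvd_of_mem_Dv hv
  have hv0 := ne_of_mem_Dv hv
  have h1 := left_ne_zero_of_mul hne
  have h2 := right_ne_zero_of_mul hne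
  rw [hw, div_of_mul hv0] at h2
  obtain ⟨a, ha, hne2⟩ := exists_ne_zero_of_sum_ne_zero h2
  obtain ⟨b, hb⟩ := dvd_of_mem_Dv ha
  have ha0 := ne_of_mem_Dv ha
  have h3 := left_ne_zero_of_mul hne2
  have h4 := right_ne_zero_of_mul hne2
  rw [hb, div_of_mul ha0] at h4
  exact ⟨v, a, b, by rw [hw, hb], h1, h3, h4⟩

theorem supp {δ κ M : ℝ} (hδ : 0 < δ) (hδ1 : δ ≤ 1 / 8) (hκ : 0 < κ) (hκδ : 5 * κ / 2 ≤ δ / 256) (j : ℕ)
    (hM : 3 ≤ M) (hMδ : 2 ≤ M ^ (δ / 4)) {z : ZI} (hz2 : nz z ≤ 2 * M ^ 2) (hz1 : M ^ (2 - δ / 8) < nz z)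
    (hb : ¬ ∃ b ∈ Bpp M, M ^ (1 - δ) < nz b ∧ b ∣ z)
    (h : TTc (cvf (fj M κ j) LamK) (M ^ (δ / 128)) (M ^ (5 * (δ / 128) / 4)) (M ^ (1 + δ / 4)) (M ^ (1 + δ / 2)) z ≠ 0) :
    Pk (j + 3) (M ^ (2 * κ / 2 ^ j)) (Zsqrtd.norm z).natAbs := by
  classical
  have hM0 : 0 < M := by linarith
  have hM1 : 1 < M := by linarith
  have hpw : ∀ s t : ℝ, s ≤ t → M ^ s ≤ M ^ t := fun s t hst => Real.rpow_le_rpow_of_exponent_le hM1.le hst
  obtain ⟨v, a, b', rfl, hv, ha, hc⟩ := TTc_ne h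
  obtain ⟨u, b, hu, hlb, rfl, hu0⟩ := cvf_ne hc
  obtain ⟨v1, v2, v3⟩ := al_ne hv
  obtain ⟨a1, a2, a3⟩ := lw_ne ha
  obtain ⟨u1, u2, u3, u4, u5, u6, u7⟩ := fj_ne hM1 hκ j u hu
  have hv0 := ne_zero_of_prime v1
  have ha0 := ne_zero_of_prime a1
  have hb0 : b ≠ 0 := by
    rintro rfl
    exact hlb Pool.Agent.H304R3.HK.M4.LamK_0
  have hvp := nz_pos hv0
  have hap := nz_pos ha0
  have hup := nz_pos hu0
  have hbp := nz_pos hb0
  have hnz : nz (v * (a * (u * b))) = nz v * (nz a * (nz u * nz b)) := by rw [nz_mul, nz_mul, nz_mul]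
  rw [hnz] at hz1 hz2
  have u2' : nz u ≤ M ^ (δ / 256) := by
    refine u2.trans (hpw _ _ ?_)
    refine le_trans ?_ hκδ
    have : (0 : ℝ) ≤ 1 / 2 ^ j := by positivity
    nlinarith
  -- the size of `b`
  have hb1 : M ^ (1 - 3 * δ / 4) < nz b := by
    by_contra hcon
    rw [not_lt] at hcon
    have : nz v * (nz a * (nz u * nz b)) ≤
        M ^ (1 + δ / 2) * (M ^ (5 * (δ / 128) / 4) * (M ^ (δ / 256) * M ^ (1 - 3 * δ / 4))) := by gcongr
    have e1 : M ^ (1 + δ / 2) * (M ^ (5 * (δ / 128) / 4) * (M ^ (δ / 256) * M ^ (1 - 3 * δ / 4))) ≤ M ^ (2 - δ / 8) := by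
      rw [← Real.rpow_add hM0, ← Real.rpow_add hM0, ← Real.rpow_add hM0]
      exact hpw _ _ (by linarith)
    linarith
  have hb2 : nz b ≤ M := by
    have e1 : nz v * nz b ≤ 2 * M ^ 2 := by
      have h1 := nz_one_le ha0
      have h2 := nz_one_le hu0
      have h3 : 1 ≤ nz a * nz u := by nlinarith
      calc nz v * nz b = nz v * nz b * 1 := by ring
        _ ≤ nz v * nz b * (nz a * nz u) := by gcongr
        _ = nz v * (nz a * (nz u * nz b)) := by ring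
        _ ≤ 2 * M ^ 2 := hz2
    have e2 : M ^ (1 + δ / 4) = M * M ^ (δ / 4) := by rw [Real.rpow_add hM0, Real.rpow_one]
    have e3 : 2 * M ≤ nz v := by nlinarith
    have e4 : 2 * M * nz b ≤ 2 * M * M := by nlinarith
    exact le_of_mul_le_mul_left e4 (by positivity)
  have hbprime : (Zsqrtd.norm b).natAbs.Prime := by
    by_contra hnp
    apply hb
    refine ⟨b, ?_, lt_of_le_of_lt (hpw _ _ (by linarith)) hb1, ?_⟩
    · unfold Bpp
      rw [mem_filter, mem_bl]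
      exact ⟨⟨hb0, hb2⟩, hlb, hnp⟩
    · exact ⟨v * (a * u), by ring⟩
  -- the norms
  set q := (Zsqrtd.norm v).natAbs with hq
  set p := (Zsqrtd.norm a).natAbs with hp
  set n := (Zsqrtd.norm u).natAbs with hn
  set r := (Zsqrtd.norm b).natAbs with hr
  have hN : (Zsqrtd.norm (v * (a * (u * b)))).natAbs = q * (p * (n * r)) := by
    rw [Zsqrtd.norm_mul, Zsqrtd.norm_mul, Zsqrtd.norm_mul, Int.natAbs_mul, Int.natAbs_mul, Int.natAbs_mul]
  have hnu : nz u = (n : ℝ) := nz_nat u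
  have hnv : nz v = (q : ℝ) := nz_nat v
  have hna : nz a = (p : ℝ) := nz_nat a
  have hnb : nz b = (r : ℝ) := nz_nat b
  have hn0 : n ≠ 0 := (norm_pos_nat hu0).ne'
  have small1 : M ^ (δ / 256) ≤ M ^ (δ / 128) := hpw _ _ (by linarith)
  have small2 : M ^ (5 * (δ / 128) / 4) ≤ M ^ (1 - 3 * δ / 4) := hpw _ _ (by linarith)
  have small3 : M ^ (δ / 256) ≤ M ^ (1 - 3 * δ / 4) := hpw _ _ (by linarith)
  have small4 : M ≤ M ^ (1 + δ / 4) := by
    calc M = M ^ (1 : ℝ) := (Real.rpow_one M).symm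
      _ ≤ M ^ (1 + δ / 4) := hpw _ _ (by linarith)
  -- coprimality
  have cop1 : Nat.Coprime n r := by
    rw [Nat.coprime_comm, Nat.Prime.coprime_iff_not_dvd hbprime]
    intro hd
    have h1 : (r : ℝ) ≤ n := by exact_mod_cast Nat.le_of_dvd (Nat.pos_of_ne_zero hn0) hd
    rw [hnu] at u2'
    rw [hnb] at hb1
    linarith
  have cop2 : Nat.Coprime p (n * r) := by
    rw [Nat.Prime.coprime_iff_not_dvd a1, a1.dvd_mul]
    rintro (hd | hd)
    · have h1 : (p : ℝ) ≤ n := by exact_mod_cast Nat.le_of_dvd (Nat.pos_of_ne_zero hn0) hd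
      rw [hnu] at u2'
      rw [hna] at a2
      linarith
    · rw [Nat.prime_dvd_prime_iff_eq a1 hbprime] at hd
      rw [hnb, ← hd, ← hna] at hb1
      linarith
  have cop3 : Nat.Coprime q (p * (n * r)) := by
    rw [Nat.Prime.coprime_iff_not_dvd v1, v1.dvd_mul, v1.dvd_mul]
    rintro (hd | hd | hd)
    · rw [Nat.prime_dvd_prime_iff_eq v1 a1] at hd
      rw [hnv, hd, ← hna] at v2
      have : M ^ (5 * (δ / 128) / 4) ≤ M ^ (1 + δ / 4) := hpw _ _ (by linarith)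
      linarith
    · have h1 : (q : ℝ) ≤ n := by exact_mod_cast Nat.le_of_dvd (Nat.pos_of_ne_zero hn0) hd
      rw [hnu] at u2'
      rw [hnv] at v2
      have : M ^ (δ / 256) ≤ M ^ (1 + δ / 4) := hpw _ _ (by linarith)
      linarith
    · rw [Nat.prime_dvd_prime_iff_eq v1 hbprime] at hd
      rw [hnv, hd, ← hnb] at v2
      linarith
  rw [hN]
  refine ⟨?_, ?_, ?_⟩
  · rw [Nat.squarefree_mul cop3, Nat.squarefree_mul cop2, Nat.squarefree_mul cop1]
    exact ⟨v1.squarefree, a1.squarefree, u6, hbprime.squarefree⟩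
  · rw [ArithmeticFunction.cardFactors_mul v1.ne_zero (mul_ne_zero a1.ne_zero (mul_ne_zero hn0 hbprime.ne_zero)),
      ArithmeticFunction.cardFactors_mul a1.ne_zero (mul_ne_zero hn0 hbprime.ne_zero),
      ArithmeticFunction.cardFactors_mul hn0 hbprime.ne_zero, u5, ArithmeticFunction.cardFactors_apply_prime v1,
      ArithmeticFunction.cardFactors_apply_prime a1, ArithmeticFunction.cardFactors_apply_prime hbprime]
    ring
  · have hZ : M ^ (2 * κ / 2 ^ j) ≤ M ^ (δ / 128) := by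
      apply hpw
      have h1 : 2 * κ / 2 ^ j ≤ 2 * κ := div_le_self (by positivity) (one_le_pow₀ (by norm_num))
      linarith
    intro t ht hd
    rw [ht.dvd_mul, ht.dvd_mul, ht.dvd_mul] at hd
    rcases hd with hd | hd | hd | hd
    · rw [(Nat.prime_dvd_prime_iff_eq ht v1).1 hd, ← hnv]
      have : M ^ (δ / 128) ≤ M ^ (1 + δ / 4) := hpw _ _ (by linarith)
      linarith
    · rw [(Nat.prime_dvd_prime_iff_eq ht a1).1 hd, ← hna]
      linarith
    · exact u7 t ht hd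
    · rw [(Nat.prime_dvd_prime_iff_eq ht hbprime).1 hd, ← hnb]
      have : M ^ (δ / 128) ≤ M ^ (1 - 3 * δ / 4) := hpw _ _ (by linarith)
      linarith

/-- the upper bound of the weight -/
theorem TTc_up {f : ZI → ℝ} {M U C0 D0 A1 A2 Q1 Q2 : ℝ} (hf : Sm M U C0 D0 f) (hC0 : 0 ≤ C0) (hM : 3 ≤ M)
    (hQ : 2 * M ^ 2 < Q1 ^ 2) (hQ0 : 0 < Q1) {z : ZI} (hz : z ≠ 0) (hzM : nz z ≤ 2 * M ^ 2) :
    |TTc (cvf f LamK) A1 A2 Q1 Q2 z| ≤ 144 * C0 * (Real.log M) ^ 2 := by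
  have hy := one_le_log hM
  have h1 := TTc_le c_mub (A1 := A1) (A2 := A2) (Q2 := Q2) (c := cvf f LamK) (B := C0 * (3 * Real.log M)) hM hQ hQ0 hz hzM (by
    intro b hb
    have hb0 : b ≠ 0 := by
      rintro rfl
      exact hz (zero_dvd_iff.1 hb)
    have hbM : nz b ≤ 2 * M ^ 2 := (nz_le_of_dvd hz hb).trans hzM
    apply cvf_abs hf hb0 hbM (by positivity)
    intro u b' hub
    have hb'0 : b' ≠ 0 := by
      rintro rfl
      exact hb0 (by rw [hub, mul_zero])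
    have hb'M : nz b' ≤ 2 * M ^ 2 := (nz_le_of_dvd hb0 (Dvd.intro_left u hub.symm)).trans hbM
    obtain ⟨h3, h4⟩ := Pool.Agent.N407.GN.LamK_bd hb'0
    rw [abs_of_nonneg h3]
    exact h4.trans (log3 hM hb'0 hb'M)) (by positivity)
  refine h1.trans (le_of_eq ?_)
  ring

end Pool.Agent.J4.H69
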