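import Pool.Agent.J4.H69.LFo

/-!
# Almost all `l` at one scale
-/

set_option autoImplicit false

namespace Pool.Agent.J4.H69

open Finset Filter Topology
open Pool.Agent.N782.GN
open Pool.Agent.N855.GN (Dv mem_Dv logpow nz_one_le one_le_log bg dv_card)
open Pool.Agent.N277.GN (ct_nat_mul abs_be_le card_bl nz_pos nz_natCast)
open Pool.Agent.H304R3.HK (UH bb LamK CS)

open Classical in
/-- the number of `1 ≤ m ≤ N` for which `l² + m²` is the product of exactly `k` distinct primes, all `> Z` -/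
noncomputable def cntP (k : ℕ) (Z : ℝ) (l N : ℕ) : ℕ := ((Icc 1 N).filter (fun m => Pk k Z (l ^ 2 + m ^ 2))).card

/-- `l` is good for `N` -/
def Gk (k : ℕ) (c c' : ℝ) (l N : ℕ) : Prop :=
  c * (((l.totient : ℝ) / l) * fac l) * N / Real.log N ≤ cntP k ((N : ℝ) ^ c') l N

open Classical in
theorem cntP_ge {M Z : ℝ} {l k : ℕ} :
    (((Icc ⌈-M⌉ ⌊M⌋).filter (fun m : ℤ => Pk k Z (Zsqrtd.norm (⟨(l : ℤ), m⟩ : ZI)).natAbs)).card : ℝ) ≤
      2 * (cntP k Z l ⌊M⌋₊ : ℝ) + 1 := by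
  set T := (Icc ⌈-M⌉ ⌊M⌋).filter (fun m : ℤ => Pk k Z (Zsqrtd.norm (⟨(l : ℤ), m⟩ : ZI)).natAbs) with hT
  have h1 : T ⊆ T.filter (fun m => 0 < m) ∪ (T.filter (fun m => m < 0) ∪ {0}) := by
    intro m hm
    rw [mem_union, mem_union, mem_singleton]
    rcases lt_trichotomy m 0 with h | h | h
    · right; left; exact mem_filter.2 ⟨hm, h⟩
    · right; right; exact h
    · left; exact mem_filter.2 ⟨hm, h⟩
  have hnorm : ∀ m : ℤ, (Zsqrtd.norm (⟨(l : ℤ), m⟩ : ZI)).natAbs = l ^ 2 + m.natAbs ^ 2 := by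
    intro m
    have h2 : Zsqrtd.norm (⟨(l : ℤ), m⟩ : ZI) = ((l ^ 2 + m.natAbs ^ 2 : ℕ) : ℤ) := by
      rw [Zsqrtd.norm_def]
      push_cast
      rw [sq_abs]
      ring
    rw [h2, Int.natAbs_natCast]
  have key : ∀ m ∈ T, m ≠ 0 → m.natAbs ∈ (Icc 1 ⌊M⌋₊).filter (fun m => Pk k Z (l ^ 2 + m ^ 2)) := by
    intro m hm hm0
    rw [hT, mem_filter, mem_Icc, Int.ceil_le, Int.le_floor, hnorm] at hm
    rw [mem_filter, mem_Icc]
    refine ⟨⟨Int.natAbs_pos.2 hm0, ?_⟩, hm.2⟩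
    apply Nat.le_floor
    have h2 : ((m.natAbs : ℕ) : ℝ) = |(m : ℝ)| := by
      rw [← Int.cast_natCast, Int.natCast_natAbs, Int.cast_abs]
    rw [h2, abs_le]
    exact ⟨hm.1.1, hm.1.2⟩
  have h2 : (T.filter (fun m => 0 < m)).card ≤ cntP k Z l ⌊M⌋₊ := by
    unfold cntP
    apply card_le_card_of_injOn (fun m => m.natAbs)
    · intro m hm
      rw [mem_coe, mem_filter] at hm
      exact key m hm.1 (by omega)
    · intro a ha b hb hab
      rw [mem_coe, mem_filter] at ha hb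
      simp only at hab
      omega
  have h3 : (T.filter (fun m => m < 0)).card ≤ cntP k Z l ⌊M⌋₊ := by
    unfold cntP
    apply card_le_card_of_injOn (fun m => m.natAbs)
    · intro m hm
      rw [mem_coe, mem_filter] at hm
      exact key m hm.1 (by omega)
    · intro a ha b hb hab
      rw [mem_coe, mem_filter] at ha hb
      simp only at hab
      omega
  have h4 := card_le_card h1
  have h5 := card_union_le (T.filter (fun m => 0 < m)) (T.filter (fun m => m < 0) ∪ {0})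
  have h6 := card_union_le (T.filter (fun m => m < 0)) {0}
  rw [card_singleton] at h6
  have h7 : T.card ≤ 2 * cntP k Z l ⌊M⌋₊ + 1 := by omega
  exact_mod_cast h7

open Classical in
/-- the numbers of small norm on a line -/
theorem small_line {M W : ℝ} {l : ℕ} (hW : 0 ≤ W) :
    (((Icc ⌈-M⌉ ⌊M⌋).filter (fun m : ℤ => nz (⟨(l : ℤ), m⟩ : ZI) ≤ W ^ 2)).card : ℝ) ≤ 2 * W + 1 := by
  have h1 : (Icc ⌈-M⌉ ⌊M⌋).filter (fun m : ℤ => nz (⟨(l : ℤ), m⟩ : ZI) ≤ W ^ 2) ⊆ Icc ⌈-W⌉ ⌊W⌋ := by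
    intro m hm
    rw [mem_filter] at hm
    have h2 := hm.2
    rw [nz_eq] at h2
    simp only at h2
    have h3 : ((m : ℤ) : ℝ) ^ 2 ≤ W ^ 2 := by nlinarith [sq_nonneg (((l : ℕ) : ℤ) : ℝ)]
    have h4 := abs_le_of_sq_le_sq' h3 hW
    rw [mem_Icc, Int.ceil_le, Int.le_floor]
    exact h4
  refine le_trans ?_ (card_Icc_le hW)
  exact_mod_cast card_le_card h1

open Classical in
/-- the weighted sum on a line and the number -/
theorem line {δ κ C0 : ℝ} (hδ : 0 < δ) (hδ1 : δ ≤ 1 / 8) (hκ : 0 < κ) (hκδ : 5 * κ / 2 ≤ δ / 256) (j : ℕ)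
    (hC0 : 1 ≤ C0) {M U D0 L : ℝ} (hM : 3 ≤ M) (hMδ : 3 ≤ M ^ (δ / 4)) (hLM : L ≤ M)
    (hf : Sm M U C0 D0 (fj M κ j)) {l : ℕ} (hl : 1 ≤ l) (hlL : (l : ℝ) ≤ L) :
    ∑ m ∈ Icc ⌈-M⌉ ⌊M⌋, TTc (cvf (fj M κ j) LamK) (M ^ (δ / 128)) (M ^ (5 * (δ / 128) / 4))
      (M ^ (1 + δ / 4)) (M ^ (1 + δ / 2)) ⟨(l : ℤ), m⟩ ≤
      144 * C0 * (Real.log M) ^ 2 * ((2 * (cntP (j + 3) (M ^ (2 * κ / 2 ^ j)) l ⌊M⌋₊ : ℝ) + 1) +
        3 * M ^ (1 - δ / 16) +
        (((Icc ⌈-M⌉ ⌊M⌋).filter (fun m : ℤ => (⟨(l : ℤ), m⟩ : ZI) ∈ badz M L δ)).card : ℝ)) := by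
  have hM0 : 0 < M := by linarith
  have hM1 : 1 ≤ M := by linarith
  have hy := one_le_log hM
  set A1 := M ^ (δ / 128) with hA1
  set A2 := M ^ (5 * (δ / 128) / 4) with hA2
  set Q1 := M ^ (1 + δ / 4) with hQ1
  set Q2 := M ^ (1 + δ / 2) with hQ2
  have hQ0 : 0 < Q1 := by positivity
  have hQ : 2 * M ^ 2 < Q1 ^ 2 := by
    have e1 : Q1 = M * M ^ (δ / 4) := by rw [hQ1, Real.rpow_add hM0, Real.rpow_one]
    rw [e1, mul_pow]
    have : (2 : ℝ) < (M ^ (δ / 4)) ^ 2 := by nlinarith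
    have : 0 < M ^ 2 := by positivity
    nlinarith
  have hne : ∀ m : ℤ, (⟨(l : ℤ), m⟩ : ZI) ≠ 0 := by
    intro m h
    have := congrArg Zsqrtd.re h
    simp at this
    omega
  set I := Icc ⌈-M⌉ ⌊M⌋ with hI
  have hbox : ∀ m ∈ I, (⟨(l : ℤ), m⟩ : ZI) ∈ Bx L (-M) M := by
    intro m hm
    rw [hI, mem_Icc, Int.ceil_le, Int.le_floor] at hm
    rw [mem_Bx]
    exact ⟨by simp only; exact_mod_cast hl, by simp only; exact_mod_cast hlL, hm.1, hm.2⟩
  have hnz : ∀ m ∈ I, nz (⟨(l : ℤ), m⟩ : ZI) ≤ 2 * M ^ 2 := fun m hm =>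
    Bx_nz (hbox m hm) hLM (by rw [abs_neg, abs_of_pos hM0]) (by rw [abs_of_pos hM0])
  have key : ∀ m ∈ I, TTc (cvf (fj M κ j) LamK) A1 A2 Q1 Q2 ⟨(l : ℤ), m⟩ ≤ 144 * C0 * (Real.log M) ^ 2 *
      ((if Pk (j + 3) (M ^ (2 * κ / 2 ^ j)) (Zsqrtd.norm (⟨(l : ℤ), m⟩ : ZI)).natAbs then (1 : ℝ) else 0) +
      (if nz (⟨(l : ℤ), m⟩ : ZI) ≤ (M ^ (1 - δ / 16)) ^ 2 then (1 : ℝ) else 0) +
      (if (⟨(l : ℤ), m⟩ : ZI) ∈ badz M L δ then (1 : ℝ) else 0)) := by
    intro m hm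
    have h1 := (le_abs_self _).trans (TTc_up (A1 := A1) (A2 := A2) (Q2 := Q2) hf (by linarith) hM hQ hQ0 (hne m) (hnz m hm))
    have hw : 0 ≤ 144 * C0 * (Real.log M) ^ 2 := by positivity
    by_cases h0 : TTc (cvf (fj M κ j) LamK) A1 A2 Q1 Q2 ⟨(l : ℤ), m⟩ = 0
    · rw [h0]
      positivity
    · have h2 : 1 ≤ ((if Pk (j + 3) (M ^ (2 * κ / 2 ^ j)) (Zsqrtd.norm (⟨(l : ℤ), m⟩ : ZI)).natAbs then (1 : ℝ) else 0) +
          (if nz (⟨(l : ℤ), m⟩ : ZI) ≤ (M ^ (1 - δ / 16)) ^ 2 then (1 : ℝ) else 0) +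
          (if (⟨(l : ℤ), m⟩ : ZI) ∈ badz M L δ then (1 : ℝ) else 0)) := by
        by_cases g1 : nz (⟨(l : ℤ), m⟩ : ZI) ≤ (M ^ (1 - δ / 16)) ^ 2
        · rw [if_pos g1]
          have a1 : (0 : ℝ) ≤ if Pk (j + 3) (M ^ (2 * κ / 2 ^ j)) (Zsqrtd.norm (⟨(l : ℤ), m⟩ : ZI)).natAbs then (1 : ℝ) else 0 := by
            positivity
          have a2 : (0 : ℝ) ≤ if (⟨(l : ℤ), m⟩ : ZI) ∈ badz M L δ then (1 : ℝ) else 0 := by positivity
          linarith
        by_cases g2 : (⟨(l : ℤ), m⟩ : ZI) ∈ badz M L δ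
        · rw [if_pos g2]
          have a1 : (0 : ℝ) ≤ if Pk (j + 3) (M ^ (2 * κ / 2 ^ j)) (Zsqrtd.norm (⟨(l : ℤ), m⟩ : ZI)).natAbs then (1 : ℝ) else 0 := by
            positivity
          rw [if_neg g1]
          linarith
        have g3 := supp hδ hδ1 hκ hκδ j hM (by linarith) (hnz m hm) (by
          rw [not_le] at g1
          refine lt_of_le_of_lt (le_of_eq ?_) g1
          rw [← Real.rpow_natCast, ← Real.rpow_mul hM0.le]
          congr 1
          push_cast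
          ring) (by
          intro hex
          apply g2
          unfold badz
          rw [mem_filter]
          exact ⟨hbox m hm, hex⟩) h0
        rw [if_pos g3, if_neg g1, if_neg g2]
        norm_num
      calc _ ≤ 144 * C0 * (Real.log M) ^ 2 * 1 := by rw [mul_one]; exact h1
        _ ≤ _ := mul_le_mul_of_nonneg_left h2 hw
  refine (sum_le_sum key).trans ?_
  rw [← mul_sum, sum_add_distrib, sum_add_distrib, sum_boole, sum_boole, sum_boole]
  apply mul_le_mul_of_nonneg_left _ (by positivity)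
  have h1 := cntP_ge (M := M) (Z := M ^ (2 * κ / 2 ^ j)) (l := l) (k := j + 3)
  have h2 := small_line (M := M) (W := M ^ (1 - δ / 16)) (l := l) (by positivity)
  have h3 : 1 ≤ M ^ (1 - δ / 16) := Real.one_le_rpow hM1 (by linarith)
  have h4 : 2 * M ^ (1 - δ / 16) + 1 ≤ 3 * M ^ (1 - δ / 16) := by linarith
  exact add_le_add (add_le_add h1 (h2.trans h4)) le_rfl

open Classical in
theorem goodk {δ : ℝ} (hδ : 0 < δ) (hδ1 : δ ≤ 1 / 8) (j : ℕ) : ∃ c c' : ℝ, 0 < c ∧ 0 < c' ∧ ∀ A : ℕ, ∀ᶠ N : ℕ in atTop,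
    ∀ L : ℕ, (N : ℝ) ^ δ ≤ L → (L : ℝ) ≤ (N : ℝ) ^ (1 - δ) →
    (((Icc 1 L).filter (fun l => ¬ Gk (j + 3) c c' l N)).card : ℝ) ≤ L / (Real.log N) ^ A := by
  set κ := δ / 640 with hκdef
  have hκ : 0 < κ := by positivity
  have hκδ : 5 * κ / 2 ≤ δ / 256 := by rw [hκdef]; linarith
  set η0 := κ / 2 ^ j with hη0def
  have hη0 : 0 < η0 := by positivity
  have hη01 : η0 ≤ κ := div_le_self hκ.le (one_le_pow₀ (by norm_num))
  obtain ⟨C0, hC0, hSm⟩ := fj_Sm hκ hκδ j (η0 := η0) (by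
    rw [hη0def]
    apply div_le_div_of_nonneg_right _ (by positivity)
    linarith)
  have hSS1 := (c_ssl 1 one_ne_zero).2
  set c1 := 24 * (δ ^ 2 / 12288) * (2 / 5) ^ j * SS 1 with hc1
  have hc10 : 0 < c1 := by positivity
  set c2 := c1 / (144 * C0) with hc2
  have hc20 : 0 < c2 := by positivity
  refine ⟨c2 / 4, 2 * κ / 2 ^ j, by positivity, by positivity, fun A => ?_⟩
  have d1 := mainf (η0 := η0) hδ (by linarith) hη0 (by linarith) hC0 (A + 4)
  have d2 := bad_box hδ hδ1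
  have d3 := gc_bd2 hδ (by linarith : δ ≤ 1)
  have d4 : ∀ᶠ M : ℝ in atTop, max 64 (12 / c2) ≤ Real.log M := Real.tendsto_log_atTop.eventually_ge_atTop _
  have d5 := logpow 3 (show 0 < δ / 16 by positivity) (show (0 : ℝ) < 1 / 4 by norm_num)
  have d6 : ∀ᶠ M : ℝ in atTop, (3 : ℝ) ≤ M ^ (δ / 4) :=
    (tendsto_rpow_atTop (by positivity)).eventually_ge_atTop _
  have d7 := logpow (A + 4) (show 0 < δ / 20 by positivity) one_pos
  have hcast := tendsto_natCast_atTop_atTop (R := ℝ)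
  filter_upwards [hcast.eventually hSm, hcast.eventually d1, hcast.eventually d2, hcast.eventually d3,
    hcast.eventually d4, hcast.eventually d5, hcast.eventually d6, hcast.eventually d7, eventually_ge_atTop 9]
    with N d0 d1 d2 d3 d4 d5 d6 d7 hN9
  intro L hL1 hL2
  obtain ⟨M, hMN⟩ : ∃ M : ℝ, M = (N : ℝ) := ⟨_, rfl⟩
  have hfl : ⌊M⌋₊ = N := by rw [hMN, Nat.floor_natCast]
  unfold Gk
  rw [← hMN] at d0 d1 d2 d3 d4 d5 d6 d7 hL1 hL2 ⊢
  have hM9 : 9 ≤ M := by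
    rw [hMN]
    exact_mod_cast hN9
  have hM3 : 3 ≤ M := by linarith
  have hM0 : 0 < M := by linarith
  have hM1 : 1 ≤ M := by linarith
  obtain ⟨hf, hF⟩ := d0
  have hS := d1 L hL1 hL2 _ hf
  have hB := d2 L hL1 hL2
  set y := Real.log M with hy
  have hy64 : 64 ≤ y := (le_max_left _ _).trans d4
  have hyc : 12 / c2 ≤ y := (le_max_right _ _).trans d4
  have hy0 : 0 < y := by linarith
  have hy1 : 1 ≤ y := by linarith
  set A1 := M ^ (δ / 128) with hA1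
  set A2 := M ^ (5 * (δ / 128) / 4) with hA2
  set Q1 := M ^ (1 + δ / 4) with hQ1
  set Q2 := M ^ (1 + δ / 2) with hQ2
  set G := Gc M A1 A2 Q1 Q2 with hG
  set F := ∑ u ∈ bl (M ^ (δ / 256)), fj M κ j u / nz u with hFdef
  have hL0 : 0 < (L : ℝ) := lt_of_lt_of_le (by positivity) hL1
  have hLM : (L : ℝ) ≤ M := by
    refine hL2.trans ?_
    calc M ^ (1 - δ) ≤ M ^ (1 : ℝ) := Real.rpow_le_rpow_of_exponent_le hM1 (by linarith)
      _ = M := Real.rpow_one M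
  set er : ℕ → ℝ := fun l => |∑ m ∈ Icc ⌈-M⌉ ⌊M⌋, TTc (cvf (fj M κ j) LamK) A1 A2 Q1 Q2 ⟨(l : ℤ), m⟩ -
    2 * M * (12 * y * G) * F * SS (l : ℤ)| with her
  set bd : ℕ → ℝ := fun l => (((Icc ⌈-M⌉ ⌊M⌋).filter (fun m : ℤ => (⟨(l : ℤ), m⟩ : ZI) ∈ badz M L δ)).card : ℝ) with hbd
  have hEs : ∑ l ∈ Icc 1 L, er l ≤ L * M / y ^ (A + 4) := by
    rw [sum_int_nat _ hL0.le] at hS
    rw [Nat.floor_natCast] at hS
    exact hS
  have hBs : ∑ l ∈ Icc 1 L, bd l ≤ L * M / y ^ (A + 4) := by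
    have e1 : ∑ l ∈ Icc 1 L, bd l = ((badz M L δ).card : ℝ) := by
      have e2 : ((badz M L δ).card : ℝ) = ∑ z ∈ Bx (L : ℝ) (-M) M, if z ∈ badz M L δ then (1 : ℝ) else 0 := by
        rw [sum_boole]
        congr 2
        ext z
        rw [mem_filter]
        constructor
        · intro h
          refine ⟨?_, h⟩
          unfold badz at h
          exact (mem_filter.1 h).1
        · exact fun h => h.2
      rw [e2, Bx_sum (L : ℝ) (-M) M (fun z => if z ∈ badz M L δ then (1 : ℝ) else 0), sum_int_nat _ hL0.le,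
        Nat.floor_natCast]
      apply sum_congr rfl
      intro l _
      rw [sum_boole]
    rw [e1]
    refine hB.trans ?_
    rw [one_mul] at d7
    rw [mul_div_assoc]
    apply mul_le_mul_of_nonneg_left _ hL0.le
    rw [le_div_iff₀ (by positivity)]
    calc M ^ (1 - δ / 20) * y ^ (A + 4) ≤ M ^ (1 - δ / 20) * M ^ (δ / 20) := by gcongr
      _ = M := by
          rw [← Real.rpow_add hM0]
          norm_num
  have her0 : ∀ l, 0 ≤ er l := fun l => abs_nonneg _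
  have hbd0 : ∀ l, 0 ≤ bd l := fun l => Nat.cast_nonneg _
  -- good `l`
  have hgood : ∀ l ∈ Icc 1 L, er l + bd l ≤ M / y ^ 3 →
      c2 / 4 * (((l.totient : ℝ) / l) * fac l) * M / y ≤ cntP (j + 3) (M ^ (2 * κ / 2 ^ j)) l N := by
    intro l hl hle
    have hl' := mem_Icc.1 hl
    have hlL : (l : ℝ) ≤ L := by exact_mod_cast hl'.2
    have hlM : (l : ℝ) ≤ M := hlL.trans hLM
    have hl1 : (1 : ℝ) ≤ l := by exact_mod_cast hl'.1
    have h1 := line hδ hδ1 hκ hκδ j hC0 hM3 d6 hLM hf hl'.1 hlL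
    rw [hfl] at h1
    set cn := (cntP (j + 3) (M ^ (2 * κ / 2 ^ j)) l N : ℝ) with hcn
    set Φ := ((l.totient : ℝ) / l) * fac l with hΦ
    have hΦ0 : 1 / (3 * y) ≤ Φ := by
      have h2 : 1 / (3 * y) ≤ (l.totient : ℝ) / l := by
        refine le_trans ?_ (phi_low hl'.1)
        have h4 : Real.log l ≤ y := Real.log_le_log (by linarith) hlM
        have h5 : 0 ≤ Real.log l := Real.log_nonneg hl1
        apply one_div_le_one_div_of_le (by positivity)
        nlinarith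
      have h3 := fac_ge l
      have h4 : 0 ≤ (l.totient : ℝ) / l := by positivity
      calc 1 / (3 * y) ≤ (l.totient : ℝ) / l := h2
        _ = (l.totient : ℝ) / l * 1 := (mul_one _).symm
        _ ≤ Φ := mul_le_mul_of_nonneg_left h3 h4
    have hΦ1 : 0 ≤ Φ := le_trans (by positivity) hΦ0
    have h2 := ss_low hl'.1
    -- the main term from below
    have h3 : c1 * (M * y * Φ) ≤ 2 * M * (12 * y * G) * F * SS (l : ℤ) := by
      have g1 : SS 1 * Φ ≤ SS (l : ℤ) := h2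
      have g2 : 0 ≤ SS 1 * Φ := by positivity
      have g3 : 0 ≤ G := le_trans (by positivity) d3.1
      have g4 : (0 : ℝ) < (2 / 5) ^ j := by positivity
      calc c1 * (M * y * Φ) = 2 * M * (12 * y * (δ ^ 2 / 12288)) * (2 / 5) ^ j * (SS 1 * Φ) := by
            rw [hc1]
            ring
        _ ≤ 2 * M * (12 * y * G) * F * SS (l : ℤ) := by
            have := d3.1
            have g5 : 0 ≤ F := g4.le.trans hF
            have g6 : 0 ≤ 2 * M * (12 * y * G) * F := by positivity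
            gcongr
    have h4 : c1 * (M * y * Φ) - er l ≤ 144 * C0 * y ^ 2 * ((2 * cn + 1) + 3 * M ^ (1 - δ / 16) + bd l) := by
      refine le_trans ?_ h1
      have := neg_abs_le (∑ m ∈ Icc ⌈-M⌉ ⌊M⌋, TTc (cvf (fj M κ j) LamK) A1 A2 Q1 Q2 ⟨(l : ℤ), m⟩ -
        2 * M * (12 * y * G) * F * SS (l : ℤ))
      rw [her]
      simp only
      linarith
    -- divide
    have hCy : 0 < 144 * C0 * y ^ 2 := by positivity
    have h5 : c2 * (M * Φ / y) - er l ≤ (2 * cn + 1) + 3 * M ^ (1 - δ / 16) + bd l := by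
      have g1 : c1 * (M * y * Φ) = 144 * C0 * y ^ 2 * (c2 * (M * Φ / y)) := by
        rw [hc2]
        field_simp
      have g2 : er l ≤ 144 * C0 * y ^ 2 * er l := by
        apply le_mul_of_one_le_left (her0 l)
        nlinarith
      have g3 : 144 * C0 * y ^ 2 * (c2 * (M * Φ / y) - er l) ≤
          144 * C0 * y ^ 2 * ((2 * cn + 1) + 3 * M ^ (1 - δ / 16) + bd l) := by
        rw [mul_sub, ← g1]
        linarith
      exact le_of_mul_le_mul_left g3 hCy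
    -- the errors
    have h6 : 3 * M ^ (1 - δ / 16) + 1 ≤ M / y ^ 3 := by
      rw [le_div_iff₀ (by positivity)]
      have g1 : M ^ (1 - δ / 16) * y ^ 3 ≤ M / 4 := by
        calc M ^ (1 - δ / 16) * y ^ 3 ≤ M ^ (1 - δ / 16) * (1 / 4 * M ^ (δ / 16)) := by gcongr
          _ = M / 4 := by
              rw [show M ^ (1 - δ / 16) * (1 / 4 * M ^ (δ / 16)) = 1 / 4 * (M ^ (1 - δ / 16) * M ^ (δ / 16)) by ring,
                ← Real.rpow_add hM0]
              norm_num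
              ring
      have g2 : 1 ≤ M ^ (1 - δ / 16) := Real.one_le_rpow hM1 (by linarith)
      have g3 : y ^ 3 ≤ M ^ (1 - δ / 16) * y ^ 3 := le_mul_of_one_le_left (by positivity) g2
      linarith
    have h7 : M / y ^ 3 ≤ c2 / 4 * (M * Φ / y) := by
      have g1 : M / y ^ 3 ≤ c2 / 12 * (M / y ^ 2) := by
        rw [div_le_iff₀ hc20] at hyc
        rw [div_le_iff₀ (by positivity)]
        have : c2 / 12 * (M / y ^ 2) * y ^ 3 = M * (y * c2 / 12) := by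
          field_simp
        rw [this]
        nlinarith
      refine g1.trans ?_
      have g2 : M / y ^ 2 = 3 * (M * (1 / (3 * y)) / y) := by
        field_simp
      rw [g2]
      calc c2 / 12 * (3 * (M * (1 / (3 * y)) / y)) = c2 / 4 * (M * (1 / (3 * y)) / y) := by ring
        _ ≤ c2 / 4 * (M * Φ / y) := by gcongr
    have h8 : c2 * (M * Φ / y) ≤ 2 * cn + c2 / 2 * (M * Φ / y) := by linarith
    have h9 : c2 / 4 * Φ * M / y = c2 / 4 * (M * Φ / y) := by ring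
    rw [h9]
    linarith
  -- Markov
  set Bad := (Icc 1 L).filter (fun l => ¬ c2 / 4 * (((l.totient : ℝ) / l) * fac l) * M / y ≤
    cntP (j + 3) (M ^ (2 * κ / 2 ^ j)) l N) with hBad
  have h1 : ∀ l ∈ Bad, M / y ^ 3 ≤ er l + bd l := by
    intro l hl
    rw [hBad, mem_filter] at hl
    by_contra h
    exact hl.2 (hgood l hl.1 (not_le.1 h).le)
  have h2 := sum_le_sum h1
  rw [sum_const, nsmul_eq_mul] at h2
  have h3 : ∑ l ∈ Bad, (er l + bd l) ≤ ∑ l ∈ Icc 1 L, (er l + bd l) :=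
    sum_le_sum_of_subset_of_nonneg (filter_subset _ _) fun l _ _ => add_nonneg (her0 l) (hbd0 l)
  have h3' : ∑ l ∈ Icc 1 L, (er l + bd l) = ∑ l ∈ Icc 1 L, er l + ∑ l ∈ Icc 1 L, bd l := sum_add_distrib
  have h4 : (Bad.card : ℝ) * (M / y ^ 3) ≤ 2 * (L * M / y ^ (A + 4)) := by linarith
  have h5 : 2 * (L * M / y ^ (A + 4)) ≤ L / y ^ A * (M / y ^ 3) := by
    have e1 : L / y ^ A * (M / y ^ 3) = L * M / y ^ (A + 3) := by
      rw [pow_add]
      field_simp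
    rw [e1, ← mul_div_assoc, div_le_div_iff₀ (by positivity) (by positivity)]
    have e2 : y ^ (A + 4) = y ^ (A + 3) * y := by rw [← pow_succ]
    rw [e2]
    have e4 : 0 ≤ L * M * y ^ (A + 3) := by positivity
    nlinarith
  exact le_of_mul_le_mul_right (h4.trans h5) (by positivity)

end Pool.Agent.J4.H69
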