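import Pool.Agent.J4.H69.LFp

/-!
# Almost all `l`, all scales
-/

set_option autoImplicit false

namespace Pool.Agent.J4.H69

open Finset Filter Topology
open Pool.Agent.N855.GN (logpow one_le_log)

theorem Pk_anti {k : ℕ} {Z Z' : ℝ} (h : Z' ≤ Z) {n : ℕ} (hn : Pk k Z n) : Pk k Z' n :=
  ⟨hn.1, hn.2.1, fun q hq hd => lt_of_le_of_lt h (hn.2.2 q hq hd)⟩

theorem cntP_mono {k : ℕ} {Z Z' : ℝ} (h : Z' ≤ Z) {l N M : ℕ} (hNM : N ≤ M) : cntP k Z l N ≤ cntP k Z' l M := by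
  classical
  unfold cntP
  apply card_le_card
  intro m hm
  rw [mem_filter, mem_Icc] at hm ⊢
  exact ⟨⟨hm.1.1, hm.1.2.trans hNM⟩, Pk_anti h hm.2⟩

theorem Gk_mono {c c' : ℝ} (hc : 0 ≤ c) (hc' : 0 < c') {k l N M : ℕ} (hN : 2 ≤ N) (hNM : N ≤ M) (hM : M ≤ 2 * N)
    (h : Gk k c c' l N) : Gk k (c / 2) (c' / 2) l M := by
  unfold Gk at h ⊢
  have hN2 : (2 : ℝ) ≤ N := by exact_mod_cast hN
  have hNMR : (N : ℝ) ≤ M := by exact_mod_cast hNM
  have hMR : (M : ℝ) ≤ 2 * N := by exact_mod_cast hM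
  have h1 : (M : ℝ) ^ (c' / 2) ≤ (N : ℝ) ^ c' := by
    calc (M : ℝ) ^ (c' / 2) ≤ ((N : ℝ) ^ (2 : ℝ)) ^ (c' / 2) := by
          apply Real.rpow_le_rpow (Nat.cast_nonneg _) _ (by positivity)
          rw [Real.rpow_two]
          nlinarith
      _ = (N : ℝ) ^ c' := by
          rw [← Real.rpow_mul (by linarith)]
          congr 1
          ring
  have h2 : (cntP k ((N : ℝ) ^ c') l N : ℝ) ≤ cntP k ((M : ℝ) ^ (c' / 2)) l M := by
    exact_mod_cast cntP_mono h1 hNM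
  refine le_trans ?_ (h.trans h2)
  have h3 : 0 < Real.log N := Real.log_pos (by linarith)
  have h4 : Real.log N ≤ Real.log M := Real.log_le_log (by linarith) hNMR
  have h5 : 0 ≤ ((l.totient : ℝ) / l) * fac l := mul_nonneg (by positivity) (by linarith [fac_ge l])
  have h6 : 0 ≤ c * (((l.totient : ℝ) / l) * fac l) * N := by positivity
  calc c / 2 * (((l.totient : ℝ) / l) * fac l) * M / Real.log M ≤
        c / 2 * (((l.totient : ℝ) / l) * fac l) * (2 * N) / Real.log M := by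
        apply div_le_div_of_nonneg_right _ (by linarith)
        gcongr
    _ = c * (((l.totient : ℝ) / l) * fac l) * N / Real.log M := by ring
    _ ≤ c * (((l.totient : ℝ) / l) * fac l) * N / Real.log N := by
        apply div_le_div_of_nonneg_left h6 h3 h4

open Classical in
theorem allk (i : ℕ) {ε K : ℝ} (hε : 0 < ε) : ∃ c c' : ℝ, 0 < c ∧ 0 < c' ∧ ∀ A : ℕ, ∀ᶠ L : ℕ in atTop,
    (((Icc 1 L).filter (fun l : ℕ => ¬ ∀ N : ℕ, (l : ℝ) ^ (1 + ε) ≤ N → (N : ℝ) ≤ (l : ℝ) ^ K →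
      Gk (i + 3) c c' l N)).card : ℝ) ≤ L / (Real.log L) ^ A := by
  set K' := max K 1 with hK'
  have hK1 : 1 ≤ K' := le_max_right _ _
  set δ := min (min (ε / (3 + ε)) (1 / K')) (1 / 8) with hδdef
  have hδ : 0 < δ := lt_min (lt_min (by positivity) (by positivity)) (by norm_num)
  have hδa : δ ≤ ε / (3 + ε) := (min_le_left _ _).trans (min_le_left _ _)
  have hδb : δ ≤ 1 / K' := (min_le_left _ _).trans (min_le_right _ _)
  have hδc : δ ≤ 1 / 8 := min_le_right _ _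
  have hδ1 : δ ≤ 1 := hδb.trans (by rw [div_le_one (by linarith)]; exact hK1)
  obtain ⟨c, c', hc, hc', hgood⟩ := goodk hδ hδc i
  refine ⟨c / 2, c' / 2, by positivity, by positivity, fun A => ?_⟩
  have g1 := hgood (A + 3)
  rw [eventually_atTop] at g1
  obtain ⟨N0, g1⟩ := g1
  set s := 2 * ε / (3 * (1 + ε)) with hs
  have hs0 : 0 < s := by positivity
  have d1 := logpow (A + 1) hs0 (show (0 : ℝ) < 1 / 2 by norm_num)
  have d2 : ∀ᶠ M : ℝ in atTop, 4 * K' + 4 ≤ Real.log M := Real.tendsto_log_atTop.eventually_ge_atTop _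
  have hcast := tendsto_natCast_atTop_atTop (R := ℝ)
  filter_upwards [hcast.eventually d1, hcast.eventually d2, eventually_ge_atTop (max N0 9)] with L d1 d2 hL
  have hLN0 : N0 ≤ L := (le_max_left _ _).trans hL
  have hL9 : 9 ≤ L := (le_max_right _ _).trans hL
  have hL9R : (9 : ℝ) ≤ L := by exact_mod_cast hL9
  have hL0 : (0 : ℝ) < L := by linarith
  have hL1 : (1 : ℝ) ≤ L := by linarith
  set y := Real.log (L : ℝ) with hy
  have hy1 : 8 ≤ y := by linarith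
  have hy0 : 0 < y := by linarith
  set L1 := (L : ℝ) / y ^ (A + 1) with hL1def
  have hL10 : 0 < L1 := by positivity
  set J := ⌊2 * K' * y⌋₊ + 1 with hJ
  set Bd : ℕ → Finset ℕ := fun j => if N0 ≤ 2 ^ j ∧ (((2 ^ j : ℕ) : ℝ)) ^ δ ≤ L ∧ (L : ℝ) ≤ (((2 ^ j : ℕ) : ℝ)) ^ (1 - δ) ∧
    (L : ℝ) ≤ ((2 ^ j : ℕ) : ℝ) then
    (Icc 1 L).filter (fun l => ¬ Gk (i + 3) c c' l (2 ^ j)) else ∅ with hBd
  -- inclusion
  have hsub : (Icc 1 L).filter (fun l : ℕ => ¬ ∀ N : ℕ, (l : ℝ) ^ (1 + ε) ≤ N → (N : ℝ) ≤ (l : ℝ) ^ K →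
      Gk (i + 3) (c / 2) (c' / 2) l N) ⊆ Icc 1 ⌊L1⌋₊ ∪ (range J).biUnion Bd := by
    intro l hl
    rw [mem_filter, mem_Icc] at hl
    obtain ⟨⟨hl1, hlL⟩, hbad⟩ := hl
    rw [mem_union]
    by_cases hsm : (l : ℝ) ≤ L1
    · left
      rw [mem_Icc]
      exact ⟨hl1, Nat.le_floor hsm⟩
    right
    have hbig := not_le.1 hsm
    push Not at hbad
    obtain ⟨M, hM1, hM2, hMbad⟩ := hbad
    have hlR : (1 : ℝ) ≤ l := by exact_mod_cast hl1
    have hlLR : (l : ℝ) ≤ L := by exact_mod_cast hlL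
    have hMpos : 1 ≤ M := by
      have h1 : (1 : ℝ) ≤ (l : ℝ) ^ (1 + ε) := Real.one_le_rpow hlR (by linarith)
      have : (1 : ℝ) ≤ M := h1.trans hM1
      exact_mod_cast this
    set j := Nat.log 2 M with hj
    have hj1 : 2 ^ j ≤ M := Nat.pow_log_le_self 2 (by omega)
    have hj2 : M < 2 ^ (j + 1) := Nat.lt_pow_succ_log_self (by norm_num) _
    have hj3 : M ≤ 2 * 2 ^ j := by
      rw [pow_succ] at hj2
      omega
    have hj1R : ((2 ^ j : ℕ) : ℝ) ≤ M := by exact_mod_cast hj1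
    have hj3R : (M : ℝ) ≤ 2 * ((2 ^ j : ℕ) : ℝ) := by exact_mod_cast hj3
    have hpos : (0 : ℝ) < ((2 ^ j : ℕ) : ℝ) := by positivity
    -- upper bound
    have hMup : (M : ℝ) ≤ (L : ℝ) ^ K' := by
      refine hM2.trans ?_
      calc (l : ℝ) ^ K ≤ (l : ℝ) ^ K' := Real.rpow_le_rpow_of_exponent_le hlR (le_max_left _ _)
        _ ≤ (L : ℝ) ^ K' := Real.rpow_le_rpow (by linarith) hlLR (by linarith)
    have hc2 : (((2 ^ j : ℕ) : ℝ)) ^ δ ≤ L := by
      calc (((2 ^ j : ℕ) : ℝ)) ^ δ ≤ ((L : ℝ) ^ K') ^ δ := Real.rpow_le_rpow hpos.le (hj1R.trans hMup) hδ.le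
        _ = (L : ℝ) ^ (K' * δ) := by rw [← Real.rpow_mul hL0.le]
        _ ≤ (L : ℝ) ^ (1 : ℝ) := by
            apply Real.rpow_le_rpow_of_exponent_le hL1
            rw [le_div_iff₀ (by linarith)] at hδb
            linarith
        _ = L := Real.rpow_one _
    -- lower bound
    have hMlow : (L : ℝ) ^ (1 + ε / 3) ≤ ((2 ^ j : ℕ) : ℝ) := by
      have e1 : 2 * (L : ℝ) ^ (1 - s) ≤ l := by
        refine le_trans ?_ hbig.le
        rw [hL1def, le_div_iff₀ (by positivity)]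
        calc 2 * (L : ℝ) ^ (1 - s) * y ^ (A + 1) ≤ 2 * (L : ℝ) ^ (1 - s) * (1 / 2 * (L : ℝ) ^ s) := by gcongr
          _ = (L : ℝ) ^ (1 - s) * (L : ℝ) ^ s := by ring
          _ = L := by
              rw [← Real.rpow_add hL0]
              norm_num
      have e2 : 2 * (L : ℝ) ^ (1 + ε / 3) ≤ (l : ℝ) ^ (1 + ε) := by
        calc 2 * (L : ℝ) ^ (1 + ε / 3) = (2 : ℝ) ^ (1 : ℝ) * (L : ℝ) ^ ((1 - s) * (1 + ε)) := by
              rw [Real.rpow_one]
              congr 2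
              rw [hs]
              field_simp
              ring
          _ ≤ (2 : ℝ) ^ (1 + ε) * (L : ℝ) ^ ((1 - s) * (1 + ε)) := by
              gcongr
              · norm_num
              · linarith
          _ = (2 * (L : ℝ) ^ (1 - s)) ^ (1 + ε) := by
              rw [Real.mul_rpow (by norm_num) (by positivity), ← Real.rpow_mul hL0.le]
          _ ≤ (l : ℝ) ^ (1 + ε) := Real.rpow_le_rpow (by positivity) e1 (by linarith)
      linarith
    have hLj : (L : ℝ) ≤ ((2 ^ j : ℕ) : ℝ) := by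
      refine le_trans ?_ hMlow
      calc (L : ℝ) = (L : ℝ) ^ (1 : ℝ) := (Real.rpow_one _).symm
        _ ≤ (L : ℝ) ^ (1 + ε / 3) := Real.rpow_le_rpow_of_exponent_le hL1 (by linarith)
    have hc3 : (L : ℝ) ≤ (((2 ^ j : ℕ) : ℝ)) ^ (1 - δ) := by
      calc (L : ℝ) = (L : ℝ) ^ (1 : ℝ) := (Real.rpow_one _).symm
        _ ≤ (L : ℝ) ^ ((1 + ε / 3) * (1 - δ)) := by
            apply Real.rpow_le_rpow_of_exponent_le hL1
            have h1 : 1 - δ ≥ 3 / (3 + ε) := by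
              have : 3 / (3 + ε) = 1 - ε / (3 + ε) := by
                field_simp
                ring
              linarith
            calc (1 : ℝ) = (1 + ε / 3) * (3 / (3 + ε)) := by field_simp
              _ ≤ (1 + ε / 3) * (1 - δ) := by gcongr
        _ = ((L : ℝ) ^ (1 + ε / 3)) ^ (1 - δ) := by rw [← Real.rpow_mul hL0.le]
        _ ≤ (((2 ^ j : ℕ) : ℝ)) ^ (1 - δ) := Real.rpow_le_rpow (by positivity) hMlow (by linarith)
    have hc1 : N0 ≤ 2 ^ j := by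
      have : (N0 : ℝ) ≤ ((2 ^ j : ℕ) : ℝ) := (show (N0 : ℝ) ≤ L by exact_mod_cast hLN0).trans hLj
      exact_mod_cast this
    rw [mem_biUnion]
    refine ⟨j, ?_, ?_⟩
    · rw [mem_range, hJ, Nat.lt_succ_iff]
      apply Nat.le_floor
      have h1 : ((2 : ℝ) ^ j) ≤ (L : ℝ) ^ K' := by
        have := hj1R.trans hMup
        push_cast at this
        exact this
      have h2 := Real.log_le_log (by positivity) h1
      rw [Real.log_pow, Real.log_rpow hL0, ← hy] at h2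
      have h3 := Real.log_two_gt_d9
      have h4 : (0 : ℝ) ≤ j := Nat.cast_nonneg j
      nlinarith
    · rw [hBd]
      simp only
      rw [if_pos ⟨hc1, hc2, hc3, hLj⟩, mem_filter, mem_Icc]
      refine ⟨⟨hl1, hlL⟩, fun hG => hMbad ?_⟩
      refine Gk_mono hc.le hc' ?_ hj1 hj3 hG
      have : (2 : ℝ) ≤ ((2 ^ j : ℕ) : ℝ) := by linarith
      exact_mod_cast this
  -- the number
  have hcard : ∀ j ∈ range J, ((Bd j).card : ℝ) ≤ L / y ^ (A + 3) := by
    intro j _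
    rw [hBd]
    simp only
    split_ifs with h
    · obtain ⟨h1, h2, h3, h4⟩ := h
      have h5 := g1 (2 ^ j) h1 L h2 h3
      refine h5.trans ?_
      have h6 : y ≤ Real.log ((2 ^ j : ℕ) : ℝ) := Real.log_le_log hL0 h4
      gcongr
    · rw [card_empty, Nat.cast_zero]
      positivity
  have h1 := card_le_card hsub
  have h2 := card_union_le (Icc 1 ⌊L1⌋₊) ((range J).biUnion Bd)
  have h3 : ((range J).biUnion Bd).card ≤ ∑ j ∈ range J, (Bd j).card := card_biUnion_le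
  have h4 : ((∑ j ∈ range J, (Bd j).card : ℕ) : ℝ) ≤ J * (L / y ^ (A + 3)) := by
    push_cast
    refine (sum_le_sum hcard).trans ?_
    rw [sum_const, card_range, nsmul_eq_mul]
  have h5 : ((Icc 1 ⌊L1⌋₊).card : ℝ) ≤ L1 := by
    rw [Nat.card_Icc, Nat.add_sub_cancel]
    exact Nat.floor_le hL10.le
  have h6 : (((Icc 1 L).filter (fun l : ℕ => ¬ ∀ N : ℕ, (l : ℝ) ^ (1 + ε) ≤ N → (N : ℝ) ≤ (l : ℝ) ^ K →
      Gk (i + 3) (c / 2) (c' / 2) l N)).card : ℝ) ≤ ((Icc 1 ⌊L1⌋₊).card : ℝ) + ((∑ j ∈ range J, (Bd j).card : ℕ) : ℝ) := by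
    exact_mod_cast (h1.trans h2).trans (Nat.add_le_add_left h3 _)
  have h7 : (J : ℝ) ≤ 2 * K' * y + 1 := by
    rw [hJ]
    push_cast
    have := Nat.floor_le (show 0 ≤ 2 * K' * y by positivity)
    linarith
  have h8 : (J : ℝ) * (L / y ^ (A + 3)) ≤ (2 * K' * y + 1) * (L / y ^ (A + 3)) :=
    mul_le_mul_of_nonneg_right h7 (by positivity)
  have h9 : L1 + (2 * K' * y + 1) * (L / y ^ (A + 3)) ≤ L / y ^ A := by
    have e1 : L1 + (2 * K' * y + 1) * (L / y ^ (A + 3)) =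
        (L : ℝ) / y ^ A * (1 / y + (2 * K' * y + 1) / y ^ 3) := by
      rw [hL1def, pow_add, pow_add, pow_one]
      field_simp
    rw [e1]
    apply mul_le_of_le_one_right (by positivity)
    have e2 : 1 / y ≤ 1 / 2 := one_div_le_one_div_of_le (by norm_num) (by linarith)
    have e3 : (2 * K' * y + 1) / y ^ 3 ≤ 1 / 2 := by
      rw [div_le_div_iff₀ (by positivity) (by norm_num)]
      have e4 : (2 * K' * y + 1) * 2 ≤ y * y := by nlinarith
      have e5 : y * y ≤ 1 * y ^ 3 := by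
        rw [one_mul]
        calc y * y = y ^ 2 := by ring
          _ ≤ y ^ 3 := pow_le_pow_right₀ (by linarith) (by norm_num)
      linarith
    linarith
  linarith

end Pool.Agent.J4.H69
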