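import Pool.Agent.N407.GN.Lk
import Pool.Agent.N157.GN.Mub

/-!
# The function `log N(a)` for `N(a)` prime
-/

set_option autoImplicit false

namespace Pool.Agent.J4.H69

open Finset
open Pool.Agent.N782.GN
open Pool.Agent.H304R3.HK (UH bb LamK CS)
open Pool.Agent.H304R3.HK.M4 (LamK_eq LamK_npp LamK_zero norm_assoc norm_pow' prime_of_norm mem_CS)

/-- `log N(a)` if `N(a)` is a prime number, and `0` otherwise -/
noncomputable def lp (a : ZI) : ℝ := if (Zsqrtd.norm a).natAbs.Prime then Real.log (nz a) else 0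

theorem norm_nat (a : ZI) : (((Zsqrtd.norm a).natAbs : ℕ) : ℤ) = Zsqrtd.norm a :=
  Int.natAbs_of_nonneg (GaussianInt.norm_nonneg a)

theorem nz_nat (a : ZI) : nz a = (((Zsqrtd.norm a).natAbs : ℕ) : ℝ) := by
  unfold nz
  rw [← Int.cast_natCast, norm_nat]

theorem ne_zero_of_prime {a : ZI} (h : (Zsqrtd.norm a).natAbs.Prime) : a ≠ 0 := by
  rintro rfl
  simp at h
  exact Nat.not_prime_zero h

theorem prime_of {a : ZI} (h : (Zsqrtd.norm a).natAbs.Prime) : Prime a :=
  prime_of_norm h (norm_nat a).symm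

theorem lp_nonneg (a : ZI) : 0 ≤ lp a := by
  unfold lp
  split_ifs with h
  · rw [nz_nat]
    exact Real.log_nonneg (by exact_mod_cast h.one_lt.le)
  · exact le_rfl

theorem lp_le {a : ZI} (ha : a ≠ 0) : lp a ≤ Real.log (nz a) := by
  unfold lp
  split_ifs with h
  · exact le_rfl
  · exact Real.log_nonneg (Pool.Agent.N157.GN.one_le_nz ha)

theorem lp_zero : lp 0 = 0 := by
  unfold lp
  rw [if_neg]
  simp
  exact Nat.not_prime_zero

theorem lp_ne {a : ZI} (h : lp a ≠ 0) : (Zsqrtd.norm a).natAbs.Prime := by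
  unfold lp at h
  by_contra h'
  rw [if_neg h'] at h
  exact h rfl

/-- one term -/
theorem lp_term {Y : ℝ} (hY : 3 ≤ Y) {t : ZI} (ht : t ∈ bl Y) :
    |LamK t - lp t| ≤ ∑ q ∈ (Icc 1 ⌊Real.sqrt Y⌋₊) ×ˢ (Icc 2 ⌊2 * Real.log Y⌋₊),
        (if q.1.Prime ∧ (Zsqrtd.norm t).natAbs = q.1 ^ q.2 then Real.log Y else 0) := by
  obtain ⟨ht0, htY⟩ := (mem_bl _ _).1 ht
  set n := (Zsqrtd.norm t).natAbs with hn
  have hnn : (n : ℤ) = Zsqrtd.norm t := norm_nat t
  have hnz : nz t = n := nz_nat t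
  have hl2 := Real.log_two_gt_d9
  have hlY : 1 ≤ Real.log Y := by
    rw [Real.le_log_iff_exp_le (by linarith)]
    linarith [Real.exp_one_lt_d9]
  have hn1 : 1 ≤ n := by
    have := Pool.Agent.N157.GN.one_le_nz ht0
    rw [hnz] at this
    exact_mod_cast this
  have hnn0 : ∀ q ∈ (Icc 1 ⌊Real.sqrt Y⌋₊) ×ˢ (Icc 2 ⌊2 * Real.log Y⌋₊),
      (0 : ℝ) ≤ (if q.1.Prime ∧ n = q.1 ^ q.2 then Real.log Y else 0) := by
    intro q _
    split_ifs
    · linarith
    · exact le_refl 0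
  by_cases hp : n.Prime
  · have h1 : LamK t = Real.log (nz t) := by
      rw [LamK_eq (prime_of_norm hp hnn.symm) one_pos (by rw [pow_one])]
      rfl
    have h2 : lp t = Real.log (nz t) := by
      unfold lp
      rw [if_pos hp]
    rw [h1, h2, sub_self, abs_zero]
    exact Finset.sum_nonneg hnn0
  have hlp : lp t = 0 := by
    unfold lp
    rw [if_neg hp]
  rw [hlp, sub_zero]
  by_cases hpp : IsPrimePow n
  · obtain ⟨p, k, hp1, hk, hpk⟩ := hpp
    have hp1' : p.Prime := hp1.nat_prime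
    have hk2 : 2 ≤ k := by
      by_contra hcon
      have : k = 1 := by omega
      rw [this, pow_one] at hpk
      exact hp (hpk ▸ hp1')
    have hpkR : (p : ℝ) ^ k = n := by exact_mod_cast hpk
    have hp2 : (2 : ℝ) ≤ p := by exact_mod_cast hp1'.two_le
    have hnY : (n : ℝ) ≤ Y := hnz ▸ htY
    have hmem : (p, k) ∈ (Icc 1 ⌊Real.sqrt Y⌋₊) ×ˢ (Icc 2 ⌊2 * Real.log Y⌋₊) := by
      rw [mem_product, mem_Icc, mem_Icc]
      refine ⟨⟨hp1'.one_lt.le, ?_⟩, hk2, ?_⟩
      · apply Nat.le_floor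
        apply Real.le_sqrt_of_sq_le
        have h1 : (p : ℝ) ^ 2 ≤ (p : ℝ) ^ k := pow_le_pow_right₀ (by linarith) hk2
        rw [hpkR] at h1
        linarith
      · apply Nat.le_floor
        have h1 : (2 : ℝ) ^ k ≤ n := by
          rw [← hpkR]
          exact pow_le_pow_left₀ (by norm_num) hp2 k
        have h2 := Real.log_le_log (by positivity) (h1.trans hnY)
        rw [Real.log_pow] at h2
        have hk0 : (0 : ℝ) ≤ k := Nat.cast_nonneg k
        nlinarith
    have h3 := Finset.single_le_sum hnn0 hmem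
    simp only at h3
    rw [if_pos ⟨hp1', hpk.symm⟩] at h3
    refine le_trans ?_ h3
    obtain ⟨h4, h5⟩ := Pool.Agent.N407.GN.LamK_bd ht0
    rw [abs_of_nonneg h4]
    refine h5.trans (Real.log_le_log (Pool.Agent.N157.GN.one_le_nz ht0 |> lt_of_lt_of_le one_pos) htY)
  · rw [LamK_npp hpp hnn.symm, abs_zero]
    exact Finset.sum_nonneg hnn0

/-- `LamK` and `lp` differ only at few places -/
theorem lam_lp {Y : ℝ} (hY : 3 ≤ Y) : ∑ t ∈ bl Y, |LamK t - lp t| ≤ 24 * Real.sqrt Y * (Real.log Y) ^ 3 := by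
  classical
  have hlY : 1 ≤ Real.log Y := by
    rw [Real.le_log_iff_exp_le (by linarith)]
    linarith [Real.exp_one_lt_d9]
  refine (Finset.sum_le_sum fun t ht => lp_term hY ht).trans ?_
  rw [Finset.sum_comm]
  have h2 : ∀ q ∈ (Icc 1 ⌊Real.sqrt Y⌋₊) ×ˢ (Icc 2 ⌊2 * Real.log Y⌋₊),
      ∑ t ∈ bl Y, (if q.1.Prime ∧ (Zsqrtd.norm t).natAbs = q.1 ^ q.2 then Real.log Y else 0) ≤
      (12 * Real.log Y) * Real.log Y := by
    intro q hq
    rw [mem_product, mem_Icc, mem_Icc] at hq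
    obtain ⟨⟨-, -⟩, -, hq2⟩ := hq
    rw [← Finset.sum_filter, Finset.sum_const, nsmul_eq_mul]
    refine mul_le_mul_of_nonneg_right ?_ (by linarith)
    by_cases hqp : q.1.Prime
    · have h3 : ((bl Y).filter (fun t : ZI => q.1.Prime ∧ (Zsqrtd.norm t).natAbs = q.1 ^ q.2)).card ≤
          (CS (q.1 ^ q.2)).card := by
        refine Finset.card_le_card_of_injOn (fun t : ZI => (t.re, t.im)) ?_ ?_
        · intro t ht
          have ht' := (mem_filter.1 (Finset.mem_coe.1 ht)).2.2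
          rw [Finset.mem_coe, mem_CS]
          have h4 := norm_nat t
          rw [ht'] at h4
          rw [h4, Zsqrtd.norm_def]
          ring
        · intro a _ b _ h
          rw [Prod.mk.injEq] at h
          exact Zsqrtd.ext h.1 h.2
      have h4 := h3.trans (Pool.Agent.N407.GN.CS_card (q.1 ^ q.2) (Nat.one_le_pow _ _ hqp.pos))
      rw [Nat.divisors_prime_pow hqp, Finset.card_map, Finset.card_range] at h4
      have h5 : (((bl Y).filter (fun t : ZI => q.1.Prime ∧ (Zsqrtd.norm t).natAbs = q.1 ^ q.2)).card : ℝ) ≤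
          4 * ((q.2 : ℝ) + 1) := by
        exact_mod_cast h4
      refine h5.trans ?_
      have h6 : (q.2 : ℝ) ≤ 2 * Real.log Y := (Nat.le_floor_iff (by positivity)).1 hq2
      linarith
    · rw [Finset.filter_eq_empty_iff.2 (fun t _ h => hqp h.1)]
      simp
      linarith
  refine (Finset.sum_le_sum h2).trans ?_
  rw [Finset.sum_const, nsmul_eq_mul, Finset.card_product]
  have h3 : (((Icc 1 ⌊Real.sqrt Y⌋₊).card * (Icc 2 ⌊2 * Real.log Y⌋₊).card : ℕ) : ℝ) ≤
      Real.sqrt Y * (2 * Real.log Y) := by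
    push_cast
    refine mul_le_mul ?_ ?_ (Nat.cast_nonneg _) (Real.sqrt_nonneg _)
    · rw [Nat.card_Icc, Nat.add_sub_cancel]
      exact Nat.floor_le (Real.sqrt_nonneg _)
    · have h4 : (Icc 2 ⌊2 * Real.log Y⌋₊).card ≤ ⌊2 * Real.log Y⌋₊ := by
        rw [Nat.card_Icc]
        omega
      exact (show (_ : ℝ) ≤ ((⌊2 * Real.log Y⌋₊ : ℕ) : ℝ) from by exact_mod_cast h4).trans
        (Nat.floor_le (by positivity))
  refine (mul_le_mul_of_nonneg_right h3 (by positivity)).trans (le_of_eq ?_)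
  ring

end Pool.Agent.J4.H69
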