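import Pool.Agent.J4.H69.LP
import Pool.Agent.N855.GN.Cell
import Pool.Agent.N407.GN.Vau

/-!
# Sums over Gaussian primes in classes with a frequency: the identity and partial summation
-/

set_option autoImplicit false

namespace Pool.Agent.J4.H69

open Finset Filter Topology
open Pool.Agent.N782.GN
open Pool.Agent.N855.GN
open Pool.Agent.H304R3.HK (UH bb LamK CS)

/-- `Λ = 1/4 μ * log`, summed with a weight -/
theorem hyp_real (hm : S_MUB) (hv : S_VAU) (F : ZI → ℝ) (X : ℝ) (hX : 1 ≤ X) (h0 : F 0 = 0)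
    (hF : ∀ z, X < nz z → F z = 0) :
    ∑ z ∈ bl X, LamK z * F z = 1 / 4 * ∑ b ∈ bl X, ∑ u ∈ bl X, mu b * Real.log (nz u) * F (b * u) := by
  classical
  have hL1 : ∀ c ∈ bl (1 : ℝ), LamK c = 0 := by
    intro c hc
    obtain ⟨h1, h2⟩ := (mem_bl _ _).1 hc
    obtain ⟨h3, h4⟩ := hm.2.2.2.2.2 c
    have h5 := h4 h1
    have h6 : Real.log (nz c) ≤ 0 := Real.log_nonpos (nz_nonneg c) h2
    linarith
  have haW : ∀ v ∈ bl X, aW 1 v = 4 * Real.log (nz v) := by
    intro v hv'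
    have h1 := ((mem_bl _ _).1 hv').1
    rw [← hm.2.2.2.2.1 v h1]
    unfold aW
    refine sum_subset ?_ ?_
    · intro c hc
      rw [mem_filter] at hc ⊢
      exact ⟨hc.1, hc.2.1⟩
    · intro c hc hc'
      rw [mem_filter] at hc hc'
      apply hL1
      rw [mem_bl]
      refine ⟨((mem_bl _ _).1 hc.1).1, ?_⟩
      by_contra h
      exact hc' ⟨hc.1, hc.2, not_le.1 h⟩
  rw [hv F X 1 1 le_rfl le_rfl hX h0 hF]
  have e1 : ∑ z ∈ bl (1 : ℝ), LamK z * F z = 0 := sum_eq_zero fun z hz => by rw [hL1 z hz, zero_mul]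
  have e2 : ∑ b ∈ bl (1 : ℝ), ∑ c ∈ bl (1 : ℝ), ∑ u ∈ bl X, mu b * LamK c * F (b * c * u) = 0 := by
    refine sum_eq_zero fun b _ => sum_eq_zero fun c hc => sum_eq_zero fun u _ => ?_
    rw [hL1 c hc]
    ring
  have e3 : ∑ b ∈ (bl X).filter (fun b => 1 < nz b), ∑ v ∈ bl X, mu b * aW 1 v * F (b * v) =
      4 * ∑ b ∈ (bl X).filter (fun b => 1 < nz b), ∑ v ∈ bl X, mu b * Real.log (nz v) * F (b * v) := by
    rw [mul_sum]
    refine sum_congr rfl fun b _ => ?_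
    rw [mul_sum]
    refine sum_congr rfl fun v hv' => ?_
    rw [haW v hv']
    ring
  have e4 : bl (1 : ℝ) = (bl X).filter (fun b => ¬ 1 < nz b) := by
    ext b
    rw [mem_filter, mem_bl, mem_bl, not_lt]
    constructor
    · rintro ⟨h1, h2⟩
      exact ⟨⟨h1, h2.trans hX⟩, h2⟩
    · rintro ⟨⟨h1, _⟩, h2⟩
      exact ⟨h1, h2⟩
  have e5 : ∑ b ∈ bl (1 : ℝ), ∑ u ∈ bl X, mu b * Real.log (nz u) * F (b * u) =
      ∑ b ∈ (bl X).filter (fun b => ¬ 1 < nz b), ∑ u ∈ bl X, mu b * Real.log (nz u) * F (b * u) := by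
    rw [← e4]
  rw [e1, e2, e3, e5,
    ← sum_filter_add_sum_filter_not (bl X) (fun b => 1 < nz b)
      (fun b => ∑ u ∈ bl X, mu b * Real.log (nz u) * F (b * u))]
  ring

theorem hyp_complex (hm : S_MUB) (hv : S_VAU) (F : ZI → ℂ) (X : ℝ) (hX : 1 ≤ X) (h0 : F 0 = 0)
    (hF : ∀ z, X < nz z → F z = 0) :
    ∑ z ∈ bl X, (LamK z : ℂ) * F z =
      1 / 4 * ∑ b ∈ bl X, ∑ u ∈ bl X, (mu b : ℂ) * (Real.log (nz u) : ℂ) * F (b * u) := by
  have h1 := hyp_real hm hv (fun z => (F z).re) X hX (by simp [h0]) (fun z hz => by simp [hF z hz])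
  have h2 := hyp_real hm hv (fun z => (F z).im) X hX (by simp [h0]) (fun z hz => by simp [hF z hz])
  have e : ∀ (a b : ℝ) (w : ℂ), ((a : ℂ) * (b : ℂ) * w).re = a * b * w.re ∧
      ((a : ℂ) * (b : ℂ) * w).im = a * b * w.im := by
    intro a b w
    have : (a : ℂ) * (b : ℂ) * w = ((a * b : ℝ) : ℂ) * w := by push_cast; ring
    rw [this, Complex.re_ofReal_mul, Complex.im_ofReal_mul]
    exact ⟨rfl, rfl⟩
  have e4 : (1 / 4 : ℂ) = ((1 / 4 : ℝ) : ℂ) := by push_cast; ring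
  apply Complex.ext
  · rw [e4, Complex.re_ofReal_mul, Complex.re_sum, Complex.re_sum]
    simp only [Complex.re_ofReal_mul, Complex.re_sum, (e _ _ _).1]
    exact h1
  · rw [e4, Complex.im_ofReal_mul, Complex.im_sum, Complex.im_sum]
    simp only [Complex.im_ofReal_mul, Complex.im_sum, (e _ _ _).2]
    exact h2

/-- the function: the frequency on a class -/
noncomputable def Fq (q : ℕ) (r : ZI) (X : ℝ) (k : ℤ) (z : ZI) : ℂ := by
  classical
  exact if z ∈ cls q r X then ph k 0 z else 0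

theorem mem_cls {q : ℕ} {r : ZI} {X : ℝ} {z : ZI} :
    z ∈ cls q r X ↔ z ≠ 0 ∧ nz z ≤ X ∧ ((q : ℕ) : ZI) ∣ z - r := by
  classical
  unfold cls
  rw [mem_filter, mem_bl, and_assoc]

theorem Fq_pos {q : ℕ} {r : ZI} {X : ℝ} {k : ℤ} {z : ZI} (h : z ∈ cls q r X) : Fq q r X k z = ph k 0 z := by
  unfold Fq
  exact if_pos h

theorem Fq_neg {q : ℕ} {r : ZI} {X : ℝ} {k : ℤ} {z : ZI} (h : z ∉ cls q r X) : Fq q r X k z = 0 := by
  unfold Fq
  exact if_neg h

theorem swap {q : ℕ} {r : ZI} {X : ℝ} {k : ℤ} {d e f : ZI} (hd : d ≠ 0) (hef : e * d + f * ((q : ℕ) : ZI) = 1)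
    (hX : 0 ≤ X) (g : ZI → ℂ) :
    ∑ b ∈ bl X, g b * Fq q r X k (b * d) =
      ph k 0 d * ∑ b ∈ cls q (e * r) (X / nz d), g b * ph k 0 b := by
  classical
  have hdp := nz_pos hd
  have hs : cls q (e * r) (X / nz d) ⊆ bl X := by
    intro b hb
    rw [mem_cls] at hb
    rw [mem_bl]
    exact ⟨hb.1, hb.2.1.trans (div_le_self hX (nz_one_le hd))⟩
  rw [mul_sum, ← sum_subset hs (f := fun b => g b * Fq q r X k (b * d))]
  · refine sum_congr rfl fun b hb => ?_
    rw [mem_cls, le_div_iff₀ hdp] at hb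
    obtain ⟨hb0, hb1, hb2⟩ := hb
    have h2 : b * d ∈ cls q r X := by
      rw [mem_cls, nz_mul]
      refine ⟨mul_ne_zero hb0 hd, hb1, ?_⟩
      have h3 : b * d - r = d * (b - e * r) - r * f * ((q : ℕ) : ZI) := by
        linear_combination r * hef
      rw [h3]
      exact dvd_sub (Dvd.dvd.mul_left hb2 _) (dvd_mul_left _ _)
    rw [Fq_pos h2, ph_mul k hb0 hd]
    ring
  · intro b hb hb'
    rw [Fq_neg, mul_zero]
    intro h3
    apply hb'
    rw [mem_cls, nz_mul] at h3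
    rw [mem_cls, le_div_iff₀ hdp]
    refine ⟨((mem_bl _ _).1 hb).1, h3.2.1, ?_⟩
    have h4 : b - e * r = e * (b * d - r) + f * b * ((q : ℕ) : ZI) := by
      linear_combination (-b) * hef
    rw [h4]
    exact dvd_add (Dvd.dvd.mul_left h3.2.2 _) (dvd_mul_left _ _)

theorem swap0 {q : ℕ} {r : ZI} {X : ℝ} {k : ℤ} {d : ZI} (hr : IsCoprime r ((q : ℕ) : ZI))
    (hd : ¬ IsCoprime d ((q : ℕ) : ZI)) (b : ZI) : Fq q r X k (b * d) = 0 := by
  apply Fq_neg
  intro h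
  rw [mem_cls] at h
  exact hd (coprime_of hr b h.2.2)

/-- `log` as a sum -/
theorem log_sum (m : ℕ) (hm : 1 ≤ m) : ∑ n ∈ Ico 1 m, (Real.log ((n : ℝ) + 1) - Real.log n) = Real.log m := by
  induction m, hm using Nat.le_induction with
  | base => simp
  | succ m hm ih =>
    rw [Finset.sum_Ico_succ_top hm, ih]
    push_cast
    ring

/-- partial summation -/
theorem abel {q : ℕ} {r : ZI} {Z E : ℝ} (hZ : 1 ≤ Z) (x : ZI → ℂ)
    (hE : ∀ Z' : ℝ, Z' ≤ Z → ‖∑ u ∈ cls q r Z', x u‖ ≤ E) :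
    ‖∑ u ∈ cls q r Z, (Real.log (nz u) : ℂ) * x u‖ ≤ 2 * E * Real.log Z := by
  classical
  set N := ⌊Z⌋₊ with hN
  have hN1 : 1 ≤ N := Nat.le_floor (by exact_mod_cast hZ)
  have hNZ : (N : ℝ) ≤ Z := Nat.floor_le (by linarith)
  have hE0 : 0 ≤ E := le_trans (norm_nonneg _) (hE Z le_rfl)
  have hc : ∀ n : ℕ, 1 ≤ n → 0 ≤ Real.log ((n : ℝ) + 1) - Real.log n := by
    intro n hn
    have h1 : (0 : ℝ) < n := by exact_mod_cast hn
    have := Real.log_le_log h1 (show (n : ℝ) ≤ n + 1 by linarith)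
    linarith
  have h1 : ∑ u ∈ cls q r Z, (Real.log (nz u) : ℂ) * x u =
      ∑ n ∈ Ico 1 N, ((Real.log ((n : ℝ) + 1) - Real.log n : ℝ) : ℂ) *
        ∑ u ∈ (cls q r Z).filter (fun u => (n : ℝ) < nz u), x u := by
    have h2 : ∀ u ∈ cls q r Z, (Real.log (nz u) : ℂ) * x u = ∑ n ∈ Ico 1 N,
        ((Real.log ((n : ℝ) + 1) - Real.log n : ℝ) : ℂ) * (if (n : ℝ) < nz u then x u else 0) := by
      intro u hu
      rw [mem_cls] at hu
      have h3 := nz_one_le hu.1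
      rw [nz_nat u] at h3 ⊢
      set m := (Zsqrtd.norm u).natAbs with hm
      have hm1 : 1 ≤ m := by exact_mod_cast h3
      have hmN : m ≤ N := Nat.le_floor (by rw [← nz_nat u]; exact hu.2.1)
      have h4 : ∑ n ∈ Ico 1 N, ((Real.log ((n : ℝ) + 1) - Real.log n : ℝ) : ℂ) *
          (if (n : ℝ) < (m : ℝ) then x u else 0) =
          ∑ n ∈ Ico 1 m, ((Real.log ((n : ℝ) + 1) - Real.log n : ℝ) : ℂ) * x u := by
        rw [← sum_subset (Ico_subset_Ico_right hmN) (f := fun n : ℕ => ((Real.log ((n : ℝ) + 1) - Real.log n : ℝ) : ℂ) *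
          (if (n : ℝ) < (m : ℝ) then x u else 0))]
        · refine sum_congr rfl fun n hn => ?_
          rw [if_pos]
          exact_mod_cast (mem_Ico.1 hn).2
        · intro n hn hn'
          rw [mem_Ico] at hn hn'
          rw [if_neg, mul_zero]
          intro h
          have : n < m := by exact_mod_cast h
          exact hn' ⟨hn.1, this⟩
      rw [h4, ← sum_mul, ← Complex.ofReal_sum, log_sum m hm1]
    rw [sum_congr rfl h2, sum_comm]
    refine sum_congr rfl fun n _ => ?_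
    rw [← mul_sum, sum_filter]
  rw [h1]
  have h5 : ∀ n ∈ Ico 1 N, ‖((Real.log ((n : ℝ) + 1) - Real.log n : ℝ) : ℂ) *
        ∑ u ∈ (cls q r Z).filter (fun u => (n : ℝ) < nz u), x u‖ ≤
      (Real.log ((n : ℝ) + 1) - Real.log n) * (2 * E) := by
    intro n hn
    rw [mem_Ico] at hn
    rw [norm_mul, Complex.norm_real, Real.norm_of_nonneg (hc n hn.1)]
    apply mul_le_mul_of_nonneg_left _ (hc n hn.1)
    have hnZ : (n : ℝ) ≤ Z := by
      have : (n : ℝ) ≤ N := by exact_mod_cast hn.2.le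
      linarith
    have h6 := SA_sum (q := q) (r := r) hnZ x
    unfold SA at h6
    rw [h6]
    refine (norm_sub_le _ _).trans ?_
    have := hE Z le_rfl
    have := hE n hnZ
    linarith
  refine (norm_sum_le _ _).trans ((sum_le_sum h5).trans ?_)
  rw [← sum_mul, log_sum N hN1]
  have h7 : Real.log N ≤ Real.log Z := Real.log_le_log (by exact_mod_cast hN1) hNZ
  nlinarith

end Pool.Agent.J4.H69
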