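import Pool.Agent.J4.H69.PSb
import Pool.Agent.N546.GN.Lsb
import Pool.Agent.N8.GN.Ker
import Pool.Agent.N277.GN.IIb
import Pool.Agent.N855.GN.Dec
import Pool.Agent.N864.GN.Mb

/-!
# Tools for the narrow sectors: mean values for primitive numbers, frequency zero, the factor of small norm
-/

set_option autoImplicit false

namespace Pool.Agent.J4.H69

open Finset Filter Topology
open Pool.Agent.N782.GN
open Pool.Agent.N855.GN
open Pool.Agent.N546.GN.LSB
open Pool.Agent.N277.GN (ct_nat_mul abs_be_le card_bl)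
open Pool.Agent.H304R3.HK (UH bb LamK CS)

/-- **mean value theorem for primitive numbers** -/
theorem mv1 (V : ℝ) (hV : 2 ≤ V) (K : ℕ) (hK : 1 ≤ K) (c : ZI → ℂ) (hc : ∀ t, ct t ≠ 1 → c t = 0) :
    ∑ k ∈ Icc (-(K : ℤ)) K, ‖∑ t ∈ bl V, c t * ph k 0 t‖ ^ 2 ≤ 72 * (K + V) * ∑ t ∈ bl V, ‖c t‖ ^ 2 := by
  classical
  have h1 := all V hV K hK (cA V c)
  have h2 : ∑ k ∈ Icc (-(K : ℤ)) K, ‖∑ t ∈ bl V, c t * ph k 0 t‖ ^ 2 =
      ∑ k ∈ Icc (-(K : ℤ)) K, ‖Pool.Agent.N546.GN.LSA.HS (AA V) (cA V c) k‖ ^ 2 :=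
    sum_congr rfl fun k _ => by rw [sum_ph]
  rw [h2]
  refine h1.trans ?_
  have hK0 : (0 : ℝ) ≤ K := Nat.cast_nonneg K
  apply mul_le_mul_of_nonneg_left _ (by linarith)
  have hmap : ∀ t ∈ bl V, an t ∈ AA V := fun t ht => mem_image_of_mem _ ht
  rw [← sum_fiberwise_of_maps_to hmap]
  refine sum_le_sum fun θ hθ => ?_
  unfold AA at hθ
  rw [mem_image] at hθ
  obtain ⟨w, hw, hwθ, hr⟩ := ray V θ hθ
  have e1 : cA V c θ = c w := by
    unfold cA
    refine sum_eq_single w ?_ ?_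
    · intro t ht htw
      rw [mem_filter] at ht
      obtain ⟨g, hg, hgt⟩ := hr t ht.1 ht.2
      apply hc
      intro h3
      rw [hgt, ct_nat_mul] at h3
      have h4 : g = 1 := Nat.eq_one_of_mul_eq_one_right h3
      apply htw
      rw [hgt, h4]
      simp
    · intro h
      exact absurd (mem_filter.2 ⟨hw, hwθ⟩) h
  rw [e1]
  exact single_le_sum (f := fun t => ‖c t‖ ^ 2) (fun t _ => sq_nonneg _) (mem_filter.2 ⟨hw, hwθ⟩)

/-- frequency zero -/
theorem be0 (h : S_MB) (A B : ℕ) : ∃ C : ℝ, 0 < C ∧ ∀ (V Y1 Y2 : ℝ) (q : ℕ) (r : ZI), 2 ≤ V → 0 ≤ Y1 → Y1 ≤ Y2 →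
    Y2 ≤ V → 1 ≤ q → (q : ℝ) ≤ (Real.log V) ^ B →
    |∑ t ∈ SA q r Y1 Y2, be 1 t| ≤ C * V / (Real.log V) ^ A := by
  classical
  obtain ⟨C, hC, h⟩ := h (1 / 4) (2 * A) B (by norm_num)
  refine ⟨Real.sqrt (2 * Real.pi * C), by positivity, ?_⟩
  intro V Y1 Y2 q r hV hY1 hY12 hY2 hq hqB
  have hV0 : 0 < V := by linarith
  have hlog : 0 < Real.log V := Real.log_pos (by linarith)
  have key := h V 1 Y1 Y2 q 1 r hV (Real.rpow_le_one_of_one_le_of_nonpos (by linarith) (by norm_num)) le_rfl hY1 hY12 hY2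
    hq hqB le_rfl (by
      rw [Nat.cast_one]
      by_cases hB : B = 0
      · rw [hB, pow_zero]
      · have : (1 : ℝ) ≤ q := by exact_mod_cast hq
        linarith)
  set f : ℝ → ℝ := fun x => ∑ t ∈ (cls q r Y2).filter (fun t => Y1 < nz t), be 1 t * sc 1 x t with hf
  have hI1 : ∫ x in (0 : ℝ)..(2 * Real.pi), f x = ∑ t ∈ SA q r Y1 Y2, be 1 t := by
    rw [hf]
    simp only
    rw [intervalIntegral.integral_finsetSum]
    · unfold SA
      refine sum_congr rfl fun t _ => ?_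
      rw [intervalIntegral.integral_const_mul, Pool.Agent.N8.GN.Ker.int_sc one_pos (by linarith [Real.pi_gt_three]),
        mul_one]
    · intro t _
      refine bdd_int ((sc_meas 1 t).const_mul _) (C := 1) (fun x => ?_) _ _
      rw [abs_mul, abs_of_nonneg (sc_nonneg _ x t)]
      exact mul_le_one₀ (abs_be_le 1 t) (sc_nonneg _ _ _) (sc_le _ _ _)
  set S := ∑ t ∈ SA q r Y1 Y2, be 1 t with hS
  have hfi : IntervalIntegrable f MeasureTheory.volume 0 (2 * Real.pi) := int_sum_sc _ _ _ _ _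
  have hfi2 : IntervalIntegrable (fun x => f x ^ 2) MeasureTheory.volume 0 (2 * Real.pi) := int_sum_sc_sq _ _ _ _ _
  have hpi := Real.pi_pos
  have hI2 : S ^ 2 ≤ 2 * Real.pi * ∫ x in (0 : ℝ)..(2 * Real.pi), f x ^ 2 := by
    set c := S / (2 * Real.pi) with hc
    have h3 : 0 ≤ ∫ x in (0 : ℝ)..(2 * Real.pi), (f x - c) ^ 2 :=
      intervalIntegral.integral_nonneg (by positivity) fun x _ => sq_nonneg _
    have h4 : ∫ x in (0 : ℝ)..(2 * Real.pi), (f x - c) ^ 2 =
        (∫ x in (0 : ℝ)..(2 * Real.pi), f x ^ 2) - 2 * c * S + c ^ 2 * (2 * Real.pi) := by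
      have h5 : ∀ x, (f x - c) ^ 2 = f x ^ 2 - 2 * c * f x + c ^ 2 := fun x => by ring
      simp only [h5]
      rw [intervalIntegral.integral_add (hfi2.sub (hfi.const_mul _)) intervalIntegrable_const,
        intervalIntegral.integral_sub hfi2 (hfi.const_mul _), intervalIntegral.integral_const_mul, hI1]
      simp
      ring
    rw [h4, hc] at h3
    have h5 : 0 ≤ (∫ x in (0 : ℝ)..(2 * Real.pi), f x ^ 2) - S ^ 2 / (2 * Real.pi) := by
      refine le_trans h3 (le_of_eq ?_)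
      field_simp
      ring
    have h6 : S ^ 2 / (2 * Real.pi) ≤ ∫ x in (0 : ℝ)..(2 * Real.pi), f x ^ 2 := by linarith
    rw [div_le_iff₀ (by positivity)] at h6
    linarith
  have h7 : S ^ 2 ≤ (Real.sqrt (2 * Real.pi * C) * V / (Real.log V) ^ A) ^ 2 := by
    rw [div_pow, mul_pow, Real.sq_sqrt (by positivity)]
    refine hI2.trans ?_
    refine (mul_le_mul_of_nonneg_left key (by positivity)).trans (le_of_eq ?_)
    rw [← pow_mul, mul_comm A 2]
    ring
  exact abs_le_of_sq_le_sq h7 (by positivity)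

/-- the weight of the small factor -/
noncomputable def lw (A1 A2 : ℝ) (a : ZI) : ℝ := by
  classical
  exact if A1 < nz a ∧ nz a ≤ A2 then lp a else 0

theorem lw_nonneg (A1 A2 : ℝ) (a : ZI) : 0 ≤ lw A1 A2 a := by
  unfold lw
  split_ifs
  · exact lp_nonneg a
  · exact le_rfl

theorem lw_ne {A1 A2 : ℝ} {a : ZI} (h : lw A1 A2 a ≠ 0) :
    (Zsqrtd.norm a).natAbs.Prime ∧ A1 < nz a ∧ nz a ≤ A2 := by
  unfold lw at h
  split_ifs at h with h1
  · exact ⟨lp_ne h, h1⟩
  · exact absurd rfl h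

theorem lw_le {A1 A2 : ℝ} (hA2 : 1 ≤ A2) (a : ZI) : lw A1 A2 a ≤ Real.log A2 := by
  have h0 : 0 ≤ Real.log A2 := Real.log_nonneg hA2
  by_cases h : lw A1 A2 a = 0
  · rw [h]
    exact h0
  · obtain ⟨h1, h2, h3⟩ := lw_ne h
    have ha := ne_zero_of_prime h1
    unfold lw
    rw [if_pos ⟨h2, h3⟩]
    exact (lp_le ha).trans (Real.log_le_log (nz_pos ha) h3)

theorem star_dvd {a b : ZI} : star a ∣ b ↔ a ∣ star b := by
  constructor
  · rintro ⟨c, rfl⟩
    exact ⟨star c, by rw [star_mul', star_star]⟩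
  · rintro ⟨c, hc⟩
    exact ⟨star c, by rw [← star_mul', ← hc, star_star]⟩

theorem mul_star_self (a : ZI) : a * star a = ((Zsqrtd.norm a).natAbs : ZI) := by
  have h1 := Zsqrtd.norm_eq_mul_conj a
  rw [← h1]
  have h2 := norm_nat a
  have h3 : (((Zsqrtd.norm a).natAbs : ℕ) : ZI) = (((((Zsqrtd.norm a).natAbs : ℕ) : ℤ)) : ZI) := by simp
  rw [h3, h2]

/-- a prime factor of degree one changes the sign -/
theorem be_mul (hm : S_MUB) {a b : ZI} (ha : (Zsqrtd.norm a).natAbs.Prime) (h1 : ¬ a ∣ b) (h2 : ¬ star a ∣ b) :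
    be 1 (a * b) = - be 1 b := by
  have hpa := prime_of ha
  have hcop : IsCoprime a b := (hpa.irreducible.coprime_iff_not_dvd).2 h1
  have hmu : mu (a * b) = - mu b := by
    rw [hm.1 _ _ hcop, Pool.Agent.N157.GN.mu_prime hpa]
    ring
  have hb0 : b ≠ 0 := by
    rintro rfl
    exact h1 (dvd_zero a)
  have ha0 := ne_zero_of_prime ha
  have hone : ∀ z : ZI, IsCoprime z ((1 : ℕ) : ZI) := fun z => by
    rw [Nat.cast_one]
    exact isCoprime_one_right
  have hct : ct (a * b) = 1 ↔ ct b = 1 := by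
    constructor
    · intro h
      obtain ⟨w, -, -, hw⟩ := Pool.Agent.N277.GN.ct_exists hb0
      have h3 : ct (a * b) = ct b * ct (a * w) := by
        have h4 : a * b = ((ct b : ℕ) : ZI) * (a * w) := by
          conv_lhs => rw [← hw]
          ring
        rw [h4, ct_nat_mul]
      rw [h] at h3
      exact Nat.eq_one_of_mul_eq_one_right h3.symm
    · intro h
      by_contra hne
      obtain ⟨l, hl, hld⟩ := Nat.exists_prime_and_dvd hne
      have h3 : ((l : ℕ) : ZI) ∣ a * b := by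
        rw [Pool.Agent.N864.GN.MB.dvd_ct]
        exact hld
      by_cases hlp : l = (Zsqrtd.norm a).natAbs
      · rw [hlp, ← mul_star_self a] at h3
        exact h2 ((mul_dvd_mul_iff_left ha0).1 h3)
      · -- `l` is coprime to `a`
        have h4 : IsCoprime ((l : ℕ) : ZI) a := by
          have h5 : Nat.Coprime l (Zsqrtd.norm a).natAbs := (Nat.coprime_primes hl ha).2 hlp
          have h6 : IsCoprime ((l : ℕ) : ZI) (((Zsqrtd.norm a).natAbs : ℕ) : ZI) := by
            have h7 := (Nat.isCoprime_iff_coprime.2 h5)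
            have h8 := h7.map (Int.castRingHom ZI)
            simpa using h8
          rw [← mul_star_self a] at h6
          exact IsCoprime.of_mul_right_left h6
        have h5 : ((l : ℕ) : ZI) ∣ b := h4.dvd_of_dvd_mul_left h3
        rw [Pool.Agent.N864.GN.MB.dvd_ct, h] at h5
        exact hl.one_lt.ne' (Nat.dvd_one.1 h5)
  unfold be
  by_cases h : ct b = 1
  · rw [if_pos ⟨hct.2 h, hone _⟩, if_pos ⟨h, hone _⟩, hmu]
  · rw [if_neg (fun h' => h (hct.1 h'.1)), if_neg (fun h' => h h'.1), neg_zero]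

theorem be_ct {g : ℕ} {b : ZI} (h : ct b ≠ 1) : be g b = 0 := by
  unfold be
  rw [if_neg fun h' => h h'.1]

theorem be_mul_ct {a b : ZI} (hb0 : b ≠ 0) (h : ct b ≠ 1) : be 1 (a * b) = 0 := by
  apply be_ct
  intro h1
  apply h
  obtain ⟨w, -, -, hw⟩ := Pool.Agent.N277.GN.ct_exists hb0
  have h3 : ct (a * b) = ct b * ct (a * w) := by
    have h4 : a * b = ((ct b : ℕ) : ZI) * (a * w) := by
      conv_lhs => rw [← hw]
      ring
    rw [h4, ct_nat_mul]
  rw [h1] at h3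
  exact Nat.eq_one_of_mul_eq_one_right h3.symm

end Pool.Agent.J4.H69
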