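import Pool.Agent.J4.H69.SBa
import Pool.Agent.N56.GN.EL

/-!
# The frequencies of the function `μ(t) ∑_{a ∣ t} log N(a)`: separation of the variables
-/

set_option autoImplicit false

namespace Pool.Agent.J4.H69

open Finset Filter Topology
open Pool.Agent.N782.GN
open Pool.Agent.N855.GN
open Pool.Agent.N277.GN (ct_nat_mul abs_be_le card_bl)
open Pool.Agent.H304R3.HK (UH bb LamK CS)

/-- `∑_{a ∣ t} log N(a)` over the `a` with `N(a)` prime, `A1 < N(a) ≤ A2` -/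
noncomputable def om (A1 A2 : ℝ) (t : ZI) : ℝ := ∑ a ∈ Dv t, lw A1 A2 a

theorem lp_le_LamK (hm : S_MUB) (a : ZI) : lp a ≤ LamK a := by
  by_cases h : (Zsqrtd.norm a).natAbs.Prime
  · have h1 : LamK a = lp a := by
      rw [Pool.Agent.H304R3.HK.M4.LamK_eq (prime_of h) one_pos (by rw [pow_one])]
      unfold lp nz
      rw [if_pos h]
    exact h1.symm.le
  · unfold lp
    rw [if_neg h]
    exact (hm.2.2.2.2.2 a).1

theorem lw_le_LamK (hm : S_MUB) (A1 A2 : ℝ) (a : ZI) : lw A1 A2 a ≤ LamK a := by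
  unfold lw
  split_ifs
  · exact lp_le_LamK hm a
  · exact (hm.2.2.2.2.2 a).1

theorem om_nonneg (A1 A2 : ℝ) (t : ZI) : 0 ≤ om A1 A2 t := sum_nonneg fun a _ => lw_nonneg _ _ a

theorem om_le (hm : S_MUB) (A1 A2 : ℝ) {t : ZI} (ht : t ≠ 0) : om A1 A2 t ≤ 4 * Real.log (nz t) := by
  rw [← hm.2.2.2.2.1 t ht]
  exact sum_le_sum fun a _ => lw_le_LamK hm _ _ a

/-- the indicator of the class and of the range of the norm -/
noncomputable def chi (q : ℕ) (r : ZI) (Y1 Y2 : ℝ) (t : ZI) : ℝ := by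
  classical
  exact if t ∈ SA q r Y1 Y2 then 1 else 0

/-- the frequencies -/
noncomputable def Fk (q : ℕ) (r : ZI) (Y1 Y2 A1 A2 : ℝ) (k : ℤ) : ℂ :=
  ∑ t ∈ SA q r Y1 Y2, ((be 1 t * om A1 A2 t : ℝ) : ℂ) * ph k 0 t

theorem SA_sub {q : ℕ} {r : ZI} {Y1 Y2 V : ℝ} (h : Y2 ≤ V) : SA q r Y1 Y2 ⊆ bl V := by
  intro t ht
  rw [mem_SA] at ht
  rw [mem_bl]
  exact ⟨ht.1, ht.2.1.trans h⟩

theorem bg_sub {w V X : ℝ} (h : V ≤ X) : bg w V ⊆ bl X := by
  intro t ht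
  rw [mem_bg] at ht
  rw [mem_bl]
  exact ⟨ht.1, ht.2.1.trans h⟩

theorem lw_bg {A1 A2 : ℝ} {a : ZI} (h : a ∈ bg A1 A2) : lw A1 A2 a = lp a := by
  rw [mem_bg] at h
  unfold lw
  rw [if_pos ⟨h.2.2, h.2.1⟩]

theorem lw_out {A1 A2 : ℝ} {a : ZI} (h : a ∉ bg A1 A2) : lw A1 A2 a = 0 := by
  by_contra h1
  obtain ⟨h2, h3, h4⟩ := lw_ne h1
  exact h (mem_bg.2 ⟨ne_zero_of_prime h2, h4, h3⟩)

theorem Fk_eq {q : ℕ} {r : ZI} {Y1 Y2 A1 A2 V : ℝ} (k : ℤ) (hY : Y2 ≤ V) (hA : A2 ≤ V) :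
    Fk q r Y1 Y2 A1 A2 k = ∑ a ∈ bg A1 A2, ∑ b ∈ bl V,
      ((lp a * be 1 (a * b) * chi q r Y1 Y2 (a * b) : ℝ) : ℂ) * ph k 0 (a * b) := by
  classical
  have h1 := grp2 V (fun a => (lw A1 A2 a : ℂ)) (fun t => ((be 1 t * chi q r Y1 Y2 t : ℝ) : ℂ) * ph k 0 t) (by
    intro t ht
    have : chi q r Y1 Y2 t = 0 := by
      unfold chi
      rw [if_neg fun h => ht (SA_sub hY h)]
    rw [this, mul_zero, Complex.ofReal_zero, zero_mul])
  have e1 : Fk q r Y1 Y2 A1 A2 k = ∑ t ∈ bl V, (∑ b ∈ Dv t, (lw A1 A2 b : ℂ)) *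
      (((be 1 t * chi q r Y1 Y2 t : ℝ) : ℂ) * ph k 0 t) := by
    unfold Fk
    rw [← sum_subset (SA_sub hY) (f := fun t => (∑ b ∈ Dv t, (lw A1 A2 b : ℂ)) *
      (((be 1 t * chi q r Y1 Y2 t : ℝ) : ℂ) * ph k 0 t))]
    · refine sum_congr rfl fun t ht => ?_
      unfold chi om
      rw [if_pos ht]
      push_cast
      ring
    · intro t _ ht
      unfold chi
      rw [if_neg ht, mul_zero, Complex.ofReal_zero, zero_mul, mul_zero]
  rw [e1, h1, ← sum_subset (bg_sub hA) (f := fun a => ∑ b ∈ bl V, (lw A1 A2 a : ℂ) *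
    (((be 1 (a * b) * chi q r Y1 Y2 (a * b) : ℝ) : ℂ) * ph k 0 (a * b)))]
  · refine sum_congr rfl fun a ha => sum_congr rfl fun b _ => ?_
    rw [lw_bg ha]
    push_cast
    ring
  · intro a _ ha
    refine sum_eq_zero fun b _ => ?_
    rw [lw_out ha]
    simp

open Classical in
/-- the weight of a pair -/
theorem Wt_eq2 {q : ℕ} (hq : 1 ≤ q) {r : ZI} {I : ℕ} {w V η Y1 Y2 : ℝ} (hw : 1 ≤ w) (hwV : w ≤ V) (hη : 0 ≤ η)
    (hI : V ≤ w * (1 + η) ^ I) {a m : ZI} (ha : a ∈ bg w V) (hm : m ≠ 0) :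
    ∃ A0 : ℝ, A0 < nz a ∧ nz a ≤ (1 + η) * A0 ∧ w ≤ A0 ∧ Wt q r I w V η Y1 Y2 a m =
      if ((q : ℕ) : ZI) ∣ a * m - r ∧ Y1 / A0 < nz m ∧ nz m ≤ Y2 / A0 then 1 else 0 := by
  rw [mem_bg] at ha
  obtain ⟨i, hiI, hi⟩ := cellidx (by linarith) hwV hη hI ha.2.2 ha.2.1
  obtain ⟨ra, hra, hra'⟩ := Rq_unique hq a
  obtain ⟨rm, hrm, hrm'⟩ := Rq_unique hq m
  have hi0 := (hi i hiI).2 rfl
  refine ⟨As w V η i, hi0.1, hi0.2.trans (As_succ (by linarith) hη i), As_ge hwV (by linarith) hη i, ?_⟩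
  unfold Wt Jx
  rw [sum_filter, sum_eq_single (i, ra, rm)]
  · have hda := (hra' ra hra).2 rfl
    have hdm := (hrm' rm hrm).2 rfl
    have hiff : ((q : ℕ) : ZI) ∣ ra * rm - r ↔ ((q : ℕ) : ZI) ∣ a * m - r := by
      have h1 : ((q : ℕ) : ZI) ∣ a * m - ra * rm := by
        have : a * m - ra * rm = a * (m - rm) + rm * (a - ra) := by ring
        rw [this]
        exact dvd_add (Dvd.dvd.mul_left hdm _) (Dvd.dvd.mul_left hda _)
      constructor
      · intro h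
        have := dvd_add h1 h
        rwa [show a * m - ra * rm + (ra * rm - r) = a * m - r by ring] at this
      · intro h
        have := dvd_sub h h1
        rwa [show a * m - r - (a * m - ra * rm) = ra * rm - r by ring] at this
    simp only
    by_cases h1 : ((q : ℕ) : ZI) ∣ a * m - r
    · rw [if_pos (hiff.2 h1)]
      by_cases h2 : Y1 / As w V η i < nz m ∧ nz m ≤ Y2 / As w V η i
      · rw [if_pos, if_pos ⟨h1, h2⟩]
        rw [mem_SA, mem_SA]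
        exact ⟨⟨ha.1, hi0.2, hda, hi0.1⟩, hm, h2.2, hdm, h2.1⟩
      · rw [if_neg, if_neg fun h => h2 h.2]
        rw [mem_SA, mem_SA]
        rintro ⟨-, -, h3, -, h4⟩
        exact h2 ⟨h4, h3⟩
    · rw [if_neg fun h => h1 (hiff.1 h), if_neg fun h => h1 h.1]
  · rintro ⟨j, s, t⟩ hp hne
    rw [mem_product, mem_product] at hp
    obtain ⟨hj, hs, ht⟩ := hp
    simp only at hj hs ht ⊢
    split_ifs with h1 h2
    · exfalso
      rw [mem_SA, mem_SA] at h2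
      obtain ⟨⟨-, h3, h4, h5⟩, -, -, h6, -⟩ := h2
      apply hne
      rw [(hi j hj).1 ⟨h5, h3⟩, (hra' s hs).1 h4, (hrm' t ht).1 h6]
    · rfl
    · rfl
  · intro h
    exact absurd (mem_product.2 ⟨hiI, mem_product.2 ⟨hra, hrm⟩⟩) h

/-- the weight is `0` or `1`, and the norms are bounded -/
theorem Wt_01 {q : ℕ} (hq : 1 ≤ q) {r : ZI} {I : ℕ} {w V η Y1 Y2 : ℝ} (hw : 1 ≤ w) (hwV : w ≤ V) (hη : 0 ≤ η)
    (hI : V ≤ w * (1 + η) ^ I) {a m : ZI} (ha : a ∈ bg w V) (hm : m ≠ 0) :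
    Wt q r I w V η Y1 Y2 a m = 0 ∨ (Wt q r I w V η Y1 Y2 a m = 1 ∧ nz a * nz m ≤ (1 + η) * Y2) := by
  classical
  obtain ⟨A0, hA1, hA2, hA3, hW⟩ := Wt_eq2 hq (r := r) (Y1 := Y1) (Y2 := Y2) hw hwV hη hI ha hm
  rw [hW]
  split_ifs with h
  · right
    refine ⟨rfl, ?_⟩
    have hA0 : 0 < A0 := by linarith
    have h2 := (le_div_iff₀ hA0).1 h.2.2
    have h3 := nz_nonneg m
    have h1η : 0 ≤ 1 + η := by linarith
    calc nz a * nz m ≤ (1 + η) * A0 * nz m := mul_le_mul_of_nonneg_right hA2 h3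
      _ = (1 + η) * (nz m * A0) := by ring
      _ ≤ (1 + η) * Y2 := mul_le_mul_of_nonneg_left h2 h1η
  · left
    rfl

/-- the error of the separation of the variables -/
theorem chi_err {q : ℕ} (hq : 1 ≤ q) {r : ZI} {I : ℕ} {w V η Y1 Y2 : ℝ} (hw : 1 ≤ w) (hwV : w ≤ V) (hη : 0 ≤ η)
    (hI : V ≤ w * (1 + η) ^ I) {a m : ZI} (ha : a ∈ bg w V) (hm0 : m ≠ 0) :
    |chi q r Y1 Y2 (a * m) - Wt q r I w V η Y1 Y2 a m| ≤ sh η Y1 Y2 (nz (a * m)) := by
  classical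
  obtain ⟨A0, hA1, hA2, hA3, hW⟩ := Wt_eq2 hq (r := r) (Y1 := Y1) (Y2 := Y2) hw hwV hη hI ha hm0
  have ha0 := (mem_bg.1 ha).1
  have hA0 : 0 < A0 := by linarith
  have hmp := nz_pos hm0
  rw [hW]
  unfold chi sh
  have ham : a * m ≠ 0 := mul_ne_zero ha0 hm0
  have e1 : Y1 / A0 < nz m ↔ Y1 < A0 * nz m := by rw [div_lt_iff₀ hA0, mul_comm]
  have e2 : nz m ≤ Y2 / A0 ↔ A0 * nz m ≤ Y2 := by rw [le_div_iff₀ hA0, mul_comm]
  simp only [mem_SA, e1, e2, nz_mul]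
  have h1 : A0 * nz m < nz a * nz m := mul_lt_mul_of_pos_right hA1 hmp
  have h2 : nz a * nz m ≤ (1 + η) * (A0 * nz m) := by
    rw [← mul_assoc]
    exact mul_le_mul_of_nonneg_right hA2 hmp.le
  set N := nz a * nz m with hN
  set N' := A0 * nz m with hN'
  have h1η : 0 < 1 + η := by linarith
  have hind : ∀ (P : Prop) [Decidable P], (0 : ℝ) ≤ (if P then 1 else 0) := fun P _ => by
    split_ifs <;> norm_num
  by_cases hd : ((q : ℕ) : ZI) ∣ a * m - r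
  · by_cases hP : Y1 < N ∧ N ≤ Y2
    · rw [if_pos ⟨ham, hP.2, hd, hP.1⟩]
      by_cases hP' : Y1 < N' ∧ N' ≤ Y2
      · rw [if_pos ⟨hd, hP'⟩, sub_self, abs_zero]
        exact add_nonneg (hind _) (hind _)
      · rw [if_neg fun h => hP' h.2, sub_zero, abs_one]
        have h3 : N' ≤ Y1 := by
          by_contra h
          push Not at h
          exact hP' ⟨h, h1.le.trans hP.2⟩
        have h4 : Y1 < N ∧ N ≤ (1 + η) * Y1 := ⟨hP.1, h2.trans (mul_le_mul_of_nonneg_left h3 h1η.le)⟩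
        rw [if_pos h4]
        linarith [hind (Y2 < N ∧ N ≤ (1 + η) * Y2)]
    · rw [if_neg fun h => hP ⟨h.2.2.2, h.2.1⟩]
      by_cases hP' : Y1 < N' ∧ N' ≤ Y2
      · rw [if_pos ⟨hd, hP'⟩, zero_sub, abs_neg, abs_one]
        have h3 : Y2 < N := by
          by_contra h
          push Not at h
          exact hP ⟨hP'.1.trans h1, h⟩
        have h4 : Y2 < N ∧ N ≤ (1 + η) * Y2 := ⟨h3, h2.trans (mul_le_mul_of_nonneg_left hP'.2 h1η.le)⟩
        rw [if_pos h4]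
        linarith [hind (Y1 < N ∧ N ≤ (1 + η) * Y1)]
      · rw [if_neg fun h => hP' h.2, sub_zero, abs_zero]
        exact add_nonneg (hind _) (hind _)
  · rw [if_neg fun h => hd h.2.2.1, if_neg fun h => hd h.1, sub_zero, abs_zero]
    exact add_nonneg (hind _) (hind _)

/-- grouping the pairs according to the product -/
theorem group (S1 S2 T : Finset ZI) (h : ZI → ZI → ℝ) (φ : ZI → ℂ)
    (hT : ∀ a ∈ S1, ∀ b ∈ S2, a * b ∉ T → h a b = 0) :
    ∑ a ∈ S1, ∑ b ∈ S2, ((h a b : ℝ) : ℂ) * φ (a * b) =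
      ∑ t ∈ T, ((∑ a ∈ S1, ∑ b ∈ S2, if a * b = t then h a b else 0 : ℝ) : ℂ) * φ t := by
  classical
  have h1 : ∀ a ∈ S1, ∀ b ∈ S2, ((h a b : ℝ) : ℂ) * φ (a * b) =
      ∑ t ∈ T, (if a * b = t then ((h a b : ℝ) : ℂ) else 0) * φ t := by
    intro a ha b hb
    by_cases hab : a * b ∈ T
    · rw [sum_eq_single (a * b)]
      · rw [if_pos rfl]
      · intro t _ ht
        rw [if_neg (fun h' => ht h'.symm), zero_mul]
      · intro h'
        exact absurd hab h'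
    · rw [hT a ha b hb hab, Complex.ofReal_zero, zero_mul, eq_comm]
      refine sum_eq_zero fun t _ => ?_
      split_ifs <;> simp
  rw [sum_congr rfl fun a ha => sum_congr rfl fun b hb => h1 a ha b hb]
  have h2 : ∀ a ∈ S1, ∑ b ∈ S2, ∑ t ∈ T, (if a * b = t then ((h a b : ℝ) : ℂ) else 0) * φ t =
      ∑ t ∈ T, ∑ b ∈ S2, (if a * b = t then ((h a b : ℝ) : ℂ) else 0) * φ t := fun a _ => sum_comm
  rw [sum_congr rfl h2, sum_comm]
  refine sum_congr rfl fun t _ => ?_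
  push_cast
  rw [sum_mul]
  refine sum_congr rfl fun a _ => ?_
  rw [sum_mul]
  refine sum_congr rfl fun b _ => ?_
  split_ifs <;> simp

/-- the first error -/
theorem G1_le (hm : S_MUB) {q : ℕ} (hq : 1 ≤ q) {r : ZI} {I : ℕ} {A1 A2 V η Y1 Y2 : ℝ} (hV : 1 ≤ V) (hA1 : 1 ≤ A1)
    (hA12 : A1 ≤ A2) (hη : 0 ≤ η) (hη1 : η ≤ 1) (hI : A2 ≤ A1 * (1 + η) ^ I) (hY1 : 0 ≤ Y1) (hY12 : Y1 ≤ Y2)
    (hY2 : Y2 ≤ V) (K : ℕ) (hK : 1 ≤ K) :
    ∑ k ∈ Icc (-(K : ℤ)) K, ‖∑ a ∈ bg A1 A2, ∑ b ∈ bl V,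
      ((lp a * be 1 (a * b) * (chi q r Y1 Y2 (a * b) - Wt q r I A1 A2 η Y1 Y2 a b) : ℝ) : ℂ) * ph k 0 (a * b)‖ ^ 2 ≤
      72 * (K + 2 * V) * ((4 * Real.log (2 * V)) ^ 2 * ∑ t ∈ bl (2 * V), (sh η Y1 Y2 (nz t)) ^ 2) := by
  classical
  set h : ZI → ZI → ℝ := fun a b => lp a * be 1 (a * b) * (chi q r Y1 Y2 (a * b) - Wt q r I A1 A2 η Y1 Y2 a b) with hh
  have hnz : ∀ b ∈ bl V, b ≠ 0 := fun b hb => ((mem_bl _ _).1 hb).1
  have hT : ∀ a ∈ bg A1 A2, ∀ b ∈ bl V, a * b ∉ bl (2 * V) → h a b = 0 := by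
    intro a ha b hb hab
    have hb0 := hnz b hb
    have h1 : chi q r Y1 Y2 (a * b) = 0 := by
      unfold chi
      rw [if_neg fun h' => hab (bl_mono (by linarith) (SA_sub hY2 h'))]
    have h2 : Wt q r I A1 A2 η Y1 Y2 a b = 0 := by
      rcases Wt_01 hq (r := r) (Y1 := Y1) (Y2 := Y2) hA1 hA12 hη hI ha hb0 with h2 | ⟨-, h2⟩
      · exact h2
      · exfalso
        apply hab
        rw [mem_bl, nz_mul]
        refine ⟨mul_ne_zero (mem_bg.1 ha).1 hb0, h2.trans ?_⟩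
        nlinarith
    rw [hh]
    simp only
    rw [h1, h2, sub_zero, mul_zero]
  set g : ZI → ℝ := fun t => ∑ a ∈ bg A1 A2, ∑ b ∈ bl V, if a * b = t then h a b else 0 with hg
  have e1 : ∀ k : ℤ, ∑ a ∈ bg A1 A2, ∑ b ∈ bl V, ((h a b : ℝ) : ℂ) * ph k 0 (a * b) =
      ∑ t ∈ bl (2 * V), ((g t : ℝ) : ℂ) * ph k 0 t := fun k => group _ _ _ h (ph k 0) hT
  have hgct : ∀ t, ct t ≠ 1 → ((g t : ℝ) : ℂ) = 0 := by
    intro t ht
    rw [Complex.ofReal_eq_zero, hg]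
    refine sum_eq_zero fun a _ => sum_eq_zero fun b _ => ?_
    split_ifs with hab
    · rw [hh]
      simp only
      rw [hab, be_ct ht]
      ring
    · rfl
  have hgb : ∀ t ∈ bl (2 * V), |g t| ≤ 4 * Real.log (2 * V) * sh η Y1 Y2 (nz t) := by
    intro t ht
    obtain ⟨ht0, ht2⟩ := (mem_bl _ _).1 ht
    have hsh := sh_nonneg η Y1 Y2 (nz t)
    have h1 : |g t| ≤ ∑ a ∈ bg A1 A2, if a ∣ t then lp a * sh η Y1 Y2 (nz t) else 0 := by
      rw [hg]
      refine (abs_sum_le_sum_abs _ _).trans (sum_le_sum fun a ha => ?_)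
      have ha0 := (mem_bg.1 ha).1
      by_cases hat : a ∣ t
      · rw [if_pos hat]
        obtain ⟨b0, hb0⟩ := hat
        have h2 : ∑ b ∈ bl V, (if a * b = t then h a b else 0) = if b0 ∈ bl V then h a b0 else 0 := by
          rw [← sum_ite_eq' (bl V) b0 (fun b => h a b)]
          refine sum_congr rfl fun b _ => ?_
          have : a * b = t ↔ b = b0 := by
            rw [hb0]
            exact mul_right_inj' ha0
          by_cases hb : b = b0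
          · rw [if_pos (this.2 hb), if_pos hb]
          · rw [if_neg fun h' => hb (this.1 h'), if_neg hb]
        rw [h2]
        split_ifs with hb
        · rw [hh]
          simp only
          rw [abs_mul, abs_mul, abs_of_nonneg (lp_nonneg a)]
          have h3 := chi_err hq (r := r) (Y1 := Y1) (Y2 := Y2) hA1 hA12 hη hI ha (hnz b0 hb)
          rw [← hb0] at h3 ⊢
          have h4 := abs_be_le 1 t
          calc lp a * |be 1 t| * |chi q r Y1 Y2 t - Wt q r I A1 A2 η Y1 Y2 a b0|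
              ≤ lp a * 1 * sh η Y1 Y2 (nz t) := by
                apply mul_le_mul (mul_le_mul_of_nonneg_left h4 (lp_nonneg a)) h3 (abs_nonneg _)
                have := lp_nonneg a
                linarith
            _ = _ := by ring
        · rw [abs_zero]
          exact mul_nonneg (lp_nonneg a) hsh
      · rw [if_neg hat]
        rw [sum_eq_zero, abs_zero]
        intro b _
        rw [if_neg]
        intro h'
        exact hat ⟨b, h'.symm⟩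
    refine h1.trans ?_
    have h2 : ∑ a ∈ bg A1 A2, (if a ∣ t then lp a * sh η Y1 Y2 (nz t) else 0) ≤ om A1 A2 t * sh η Y1 Y2 (nz t) := by
      unfold om
      rw [sum_mul, ← sum_filter]
      have hsub : (bg A1 A2).filter (fun a => a ∣ t) ⊆ Dv t := by
        intro a ha
        rw [mem_filter] at ha
        rw [mem_Dv ht0]
        exact ha.2
      refine le_trans (le_of_eq ?_) (sum_le_sum_of_subset_of_nonneg hsub fun a _ _ =>
        mul_nonneg (lw_nonneg A1 A2 a) hsh)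
      refine sum_congr rfl fun a ha => ?_
      rw [lw_bg (mem_filter.1 ha).1]
    refine h2.trans (mul_le_mul_of_nonneg_right ?_ hsh)
    refine (om_le hm A1 A2 ht0).trans ?_
    have := Real.log_le_log (nz_pos ht0) ht2
    linarith
  have e2 := mv1 (2 * V) (by linarith) K hK (fun t => ((g t : ℝ) : ℂ)) hgct
  have e3 : ∑ k ∈ Icc (-(K : ℤ)) K, ‖∑ a ∈ bg A1 A2, ∑ b ∈ bl V,
      ((lp a * be 1 (a * b) * (chi q r Y1 Y2 (a * b) - Wt q r I A1 A2 η Y1 Y2 a b) : ℝ) : ℂ) * ph k 0 (a * b)‖ ^ 2 =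
      ∑ k ∈ Icc (-(K : ℤ)) K, ‖∑ t ∈ bl (2 * V), ((g t : ℝ) : ℂ) * ph k 0 t‖ ^ 2 :=
    sum_congr rfl fun k _ => by rw [← e1 k]
  rw [e3]
  refine e2.trans ?_
  have hK0 : (0 : ℝ) ≤ K := Nat.cast_nonneg K
  apply mul_le_mul_of_nonneg_left _ (by linarith)
  rw [mul_sum]
  refine sum_le_sum fun t ht => ?_
  rw [Complex.norm_real, Real.norm_eq_abs, sq_abs, ← mul_pow, ← sq_abs]
  exact pow_le_pow_left₀ (abs_nonneg _) (hgb t ht) 2

end Pool.Agent.J4.H69
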