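import Pool.Agent.J4.H69.SBb

/-!
# The frequencies: the second error, the main part, the thin shells
-/

set_option autoImplicit false

namespace Pool.Agent.J4.H69

open Finset Filter Topology
open Pool.Agent.N782.GN
open Pool.Agent.N855.GN
open Pool.Agent.N277.GN (ct_nat_mul abs_be_le card_bl)
open Pool.Agent.H304R3.HK (UH bb LamK CS)

/-- a weighted Cauchy–Schwarz inequality -/
theorem cs_w {ι : Type*} (S : Finset ι) (w x : ι → ℝ) (hw : ∀ i ∈ S, 0 ≤ w i) :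
    (∑ i ∈ S, w i * x i) ^ 2 ≤ (∑ i ∈ S, w i) * ∑ i ∈ S, w i * x i ^ 2 := by
  have h := sum_mul_sq_le_sq_mul_sq S (fun i => Real.sqrt (w i)) (fun i => Real.sqrt (w i) * x i)
  have e1 : ∑ i ∈ S, Real.sqrt (w i) * (Real.sqrt (w i) * x i) = ∑ i ∈ S, w i * x i := by
    refine sum_congr rfl fun i hi => ?_
    rw [← mul_assoc, Real.mul_self_sqrt (hw i hi)]
  have e2 : ∑ i ∈ S, Real.sqrt (w i) ^ 2 = ∑ i ∈ S, w i :=
    sum_congr rfl fun i hi => Real.sq_sqrt (hw i hi)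
  have e3 : ∑ i ∈ S, (Real.sqrt (w i) * x i) ^ 2 = ∑ i ∈ S, w i * x i ^ 2 := by
    refine sum_congr rfl fun i hi => ?_
    rw [mul_pow, Real.sq_sqrt (hw i hi)]
  rw [e1, e2, e3] at h
  exact h

theorem nz_star (a : ZI) : nz (star a) = nz a := by
  rw [nz_eq, nz_eq]
  simp

open Classical in
theorem card_mult {a : ZI} (ha : a ≠ 0) (X : ℝ) :
    ((bl X).filter (fun b => a ∣ b)).card ≤ (bl (X / nz a)).card := by
  have hap := nz_pos ha
  have h1 : (bl X).filter (fun b => a ∣ b) ⊆ (bl (X / nz a)).image (fun c => a * c) := by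
    intro b hb
    rw [mem_filter, mem_bl] at hb
    obtain ⟨⟨hb0, hbX⟩, c, rfl⟩ := hb
    rw [mem_image]
    refine ⟨c, ?_, rfl⟩
    rw [mem_bl, le_div_iff₀ hap, mul_comm, ← nz_mul]
    exact ⟨right_ne_zero_of_mul hb0, hbX⟩
  exact (card_le_card h1).trans card_image_le

theorem card_bg {A1 A2 : ℝ} (hA2 : 1 ≤ A2) : ((bg A1 A2).card : ℝ) ≤ 9 * A2 := by
  refine le_trans ?_ (card_bl A2 hA2)
  exact_mod_cast card_le_card (bg_sub le_rfl)

theorem sum_lp {A1 A2 : ℝ} (hA2 : 1 ≤ A2) : ∑ a ∈ bg A1 A2, lp a ≤ 9 * A2 * Real.log A2 := by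
  have h1 : ∀ a ∈ bg A1 A2, lp a ≤ Real.log A2 := by
    intro a ha
    rw [mem_bg] at ha
    exact (lp_le ha.1).trans (Real.log_le_log (nz_pos ha.1) ha.2.1)
  refine (sum_le_sum h1).trans ?_
  rw [sum_const, nsmul_eq_mul]
  exact mul_le_mul_of_nonneg_right (card_bg hA2) (Real.log_nonneg hA2)

/-- the second error -/
theorem G2_le (hm : S_MUB) {q : ℕ} (hq : 1 ≤ q) {r : ZI} {I : ℕ} {A1 A2 V η Y1 Y2 : ℝ} (hA1 : 2 ≤ A1)
    (hA12 : A1 ≤ A2) (hη : 0 ≤ η) (hη1 : η ≤ 1) (hI : A2 ≤ A1 * (1 + η) ^ I)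
    (hY2 : Y2 ≤ V) (hVA : A2 ^ 2 ≤ V) (K : ℕ) (hK : 1 ≤ K) (hKV : (K : ℝ) ≤ V / A2) :
    ∑ k ∈ Icc (-(K : ℤ)) K, ‖∑ a ∈ bg A1 A2, ∑ b ∈ bl V,
      ((lp a * (be 1 (a * b) + be 1 b) * Wt q r I A1 A2 η Y1 Y2 a b : ℝ) : ℂ) * ph k 0 (a * b)‖ ^ 2 ≤
      (9 * A2 * Real.log A2) ^ 2 * (41472 * V ^ 2 / A1 ^ 3) := by
  classical
  have hA20 : 0 < A2 := by linarith
  have hA21 : 1 ≤ A2 := by linarith
  have hA10 : 0 < A1 := by linarith
  have hV0 : 0 < V := lt_of_lt_of_le (by positivity) hVA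
  have hV2 : A2 ≤ V := by nlinarith
  set c : ZI → ZI → ℝ := fun a b => (be 1 (a * b) + be 1 b) * Wt q r I A1 A2 η Y1 Y2 a b with hc
  set E : ZI → ℤ → ℂ := fun a k => ∑ b ∈ bl V, ((c a b : ℝ) : ℂ) * ph k 0 b with hE
  have hlpn : ∀ a ∈ bg A1 A2, 0 ≤ lp a := fun a _ => lp_nonneg a
  have h1 : ∀ k : ℤ, ‖∑ a ∈ bg A1 A2, ∑ b ∈ bl V,
      ((lp a * (be 1 (a * b) + be 1 b) * Wt q r I A1 A2 η Y1 Y2 a b : ℝ) : ℂ) * ph k 0 (a * b)‖ ≤
      ∑ a ∈ bg A1 A2, lp a * ‖E a k‖ := by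
    intro k
    refine (norm_sum_le _ _).trans (sum_le_sum fun a ha => ?_)
    have ha0 := (mem_bg.1 ha).1
    have e1 : ∑ b ∈ bl V, ((lp a * (be 1 (a * b) + be 1 b) * Wt q r I A1 A2 η Y1 Y2 a b : ℝ) : ℂ) * ph k 0 (a * b) =
        (lp a : ℂ) * ph k 0 a * E a k := by
      rw [hE]
      simp only
      rw [mul_sum]
      refine sum_congr rfl fun b hb => ?_
      rw [ph_mul k ha0 ((mem_bl _ _).1 hb).1, hc]
      push_cast
      ring
    rw [e1, norm_mul, norm_mul, norm_ph, mul_one, Complex.norm_real, Real.norm_of_nonneg (lp_nonneg a)]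
  have h2 : ∀ k : ℤ, ‖∑ a ∈ bg A1 A2, ∑ b ∈ bl V,
      ((lp a * (be 1 (a * b) + be 1 b) * Wt q r I A1 A2 η Y1 Y2 a b : ℝ) : ℂ) * ph k 0 (a * b)‖ ^ 2 ≤
      (9 * A2 * Real.log A2) * ∑ a ∈ bg A1 A2, lp a * ‖E a k‖ ^ 2 := by
    intro k
    refine (pow_le_pow_left₀ (norm_nonneg _) (h1 k) 2).trans ((cs_w _ _ _ hlpn).trans ?_)
    exact mul_le_mul_of_nonneg_right (sum_lp hA21) (sum_nonneg fun a _ => mul_nonneg (lp_nonneg a) (sq_nonneg _))
  have h3 : ∀ a ∈ bg A1 A2, ∑ k ∈ Icc (-(K : ℤ)) K, lp a * ‖E a k‖ ^ 2 ≤ lp a * (41472 * V ^ 2 / A1 ^ 3) := by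
    intro a ha
    rw [← mul_sum]
    by_cases hlp : lp a = 0
    · rw [hlp, zero_mul, zero_mul]
    apply mul_le_mul_of_nonneg_left _ (lp_nonneg a)
    have hap := lp_ne hlp
    obtain ⟨ha0, ha2, ha1⟩ := mem_bg.1 ha
    have hapos := nz_pos ha0
    set Va := 2 * V / nz a with hVa
    have hVa2 : 2 ≤ Va := by
      rw [hVa, le_div_iff₀ hapos]
      linarith
    have hVaV : Va ≤ V := by
      rw [hVa, div_le_iff₀ hapos]
      nlinarith
    have e1 : ∀ k : ℤ, E a k = ∑ b ∈ bl Va, ((c a b : ℝ) : ℂ) * ph k 0 b := by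
      intro k
      rw [hE]
      simp only
      symm
      refine sum_subset (bl_mono hVaV) fun b hb hb' => ?_
      have hb0 := ((mem_bl _ _).1 hb).1
      have : Wt q r I A1 A2 η Y1 Y2 a b = 0 := by
        rcases Wt_01 hq (r := r) (Y1 := Y1) (Y2 := Y2) (by linarith) hA12 hη hI ha hb0 with h4 | ⟨-, h4⟩
        · exact h4
        · exfalso
          apply hb'
          rw [mem_bl, hVa, le_div_iff₀ hapos]
          refine ⟨hb0, ?_⟩
          rw [mul_comm]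
          refine h4.trans ?_
          nlinarith
      rw [hc]
      simp only
      rw [this, mul_zero, Complex.ofReal_zero, zero_mul]
    have e2 : ∀ b, ct b ≠ 1 → ((if b ≠ 0 then c a b else 0 : ℝ) : ℂ) = 0 := by
      intro b hb
      rw [Complex.ofReal_eq_zero]
      split_ifs with hb0
      · rw [hc]
        simp only
        rw [be_ct hb, be_mul_ct hb0 hb]
        ring
      · rfl
    have e3 : ∀ k : ℤ, E a k = ∑ b ∈ bl Va, ((if b ≠ 0 then c a b else 0 : ℝ) : ℂ) * ph k 0 b := by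
      intro k
      rw [e1 k]
      refine sum_congr rfl fun b hb => ?_
      rw [if_pos ((mem_bl _ _).1 hb).1]
    have e4 := mv1 Va hVa2 K hK (fun b => ((if b ≠ 0 then c a b else 0 : ℝ) : ℂ)) e2
    have e5 : ∑ k ∈ Icc (-(K : ℤ)) K, ‖E a k‖ ^ 2 =
        ∑ k ∈ Icc (-(K : ℤ)) K, ‖∑ b ∈ bl Va, ((if b ≠ 0 then c a b else 0 : ℝ) : ℂ) * ph k 0 b‖ ^ 2 :=
      sum_congr rfl fun k _ => by rw [e3 k]
    rw [e5]
    refine e4.trans ?_
    have hcard : ∑ b ∈ bl Va, ‖((if b ≠ 0 then c a b else 0 : ℝ) : ℂ)‖ ^ 2 ≤ 72 * (Va / nz a) := by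
      have d1 : ∀ b ∈ bl Va, ‖((if b ≠ 0 then c a b else 0 : ℝ) : ℂ)‖ ^ 2 ≤
          (if a ∣ b then 4 else 0) + (if star a ∣ b then 4 else 0) := by
        intro b hb
        have hb0 := ((mem_bl _ _).1 hb).1
        rw [if_pos hb0, Complex.norm_real, Real.norm_eq_abs, sq_abs]
        have hW : Wt q r I A1 A2 η Y1 Y2 a b ^ 2 ≤ 1 := by
          rcases Wt_01 hq (r := r) (Y1 := Y1) (Y2 := Y2) (by linarith) hA12 hη hI ha hb0 with h4 | ⟨h4, -⟩
          · rw [h4]; norm_num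
          · rw [h4]; norm_num
        have hb1 := abs_be_le 1 (a * b)
        have hb2 := abs_be_le 1 b
        rw [abs_le] at hb1 hb2
        have hsum : (be 1 (a * b) + be 1 b) ^ 2 ≤ 4 := by nlinarith
        have hgen : c a b ^ 2 ≤ 4 := by
          rw [hc]
          simp only
          rw [mul_pow]
          have := mul_le_mul hsum hW (sq_nonneg _) (by norm_num)
          linarith
        by_cases hd1 : a ∣ b
        · rw [if_pos hd1]
          split_ifs <;> linarith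
        · by_cases hd2 : star a ∣ b
          · rw [if_pos hd2]
            split_ifs <;> linarith
          · rw [if_neg hd1, if_neg hd2, hc]
            simp only
            rw [be_mul hm hap hd1 hd2, neg_add_cancel, zero_mul]
            norm_num
      refine (sum_le_sum d1).trans ?_
      rw [sum_add_distrib, ← sum_filter, ← sum_filter, sum_const, sum_const, nsmul_eq_mul, nsmul_eq_mul]
      have hq1 : 1 ≤ Va / nz a := by
        rw [hVa, div_div, le_div_iff₀ (by positivity)]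
        nlinarith
      have d2 : (((bl Va).filter (fun b => a ∣ b)).card : ℝ) ≤ 9 * (Va / nz a) := by
        refine le_trans ?_ (card_bl _ hq1)
        exact_mod_cast card_mult ha0 Va
      have d3 : (((bl Va).filter (fun b => star a ∣ b)).card : ℝ) ≤ 9 * (Va / nz a) := by
        refine le_trans ?_ (card_bl _ hq1)
        have hs0 : star a ≠ 0 := by
          intro h'
          apply ha0
          rw [← star_star a, h', star_zero]
        have := card_mult hs0 Va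
        rw [nz_star] at this
        exact_mod_cast this
      linarith
    have hK0 : (0 : ℝ) ≤ K := Nat.cast_nonneg K
    have hKVa : (K : ℝ) ≤ Va := by
      refine hKV.trans ?_
      rw [hVa]
      apply div_le_div₀ (by positivity) (by linarith) hapos ha2
    calc 72 * ((K : ℝ) + Va) * ∑ b ∈ bl Va, ‖((if b ≠ 0 then c a b else 0 : ℝ) : ℂ)‖ ^ 2
        ≤ 72 * (Va + Va) * (72 * (Va / nz a)) := by
          apply mul_le_mul _ hcard (sum_nonneg fun _ _ => sq_nonneg _) (by positivity)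
          linarith
      _ = 41472 * V ^ 2 / nz a ^ 3 := by
          rw [hVa]
          field_simp
          norm_num
      _ ≤ 41472 * V ^ 2 / A1 ^ 3 := by
          apply div_le_div_of_nonneg_left (by positivity) (by positivity)
          exact pow_le_pow_left₀ hA10.le ha1.le 3
  refine (sum_le_sum fun k _ => h2 k).trans ?_
  rw [← mul_sum, sum_comm]
  have h4 : 0 ≤ 9 * A2 * Real.log A2 := by
    have := Real.log_nonneg hA21
    positivity
  have h5 : (9 * A2 * Real.log A2) ^ 2 * (41472 * V ^ 2 / A1 ^ 3) =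
      (9 * A2 * Real.log A2) * ((9 * A2 * Real.log A2) * (41472 * V ^ 2 / A1 ^ 3)) := by ring
  rw [h5]
  apply mul_le_mul_of_nonneg_left _ h4
  refine (sum_le_sum h3).trans ?_
  rw [← sum_mul]
  exact mul_le_mul_of_nonneg_right (sum_lp hA21) (by positivity)

/-- the first factor of a cell -/
noncomputable def Ap (q : ℕ) (A1 A2 η : ℝ) (k : ℤ) (p : ℕ × ZI × ZI) : ℂ :=
  ∑ a ∈ SA q p.2.1 (As A1 A2 η p.1) (As A1 A2 η (p.1 + 1)), (lp a : ℂ) * ph k 0 a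

/-- the second factor of a cell -/
noncomputable def Bp (q : ℕ) (A1 A2 η Y1 Y2 : ℝ) (k : ℤ) (p : ℕ × ZI × ZI) : ℂ :=
  ∑ b ∈ SA q p.2.2 (Y1 / As A1 A2 η p.1) (Y2 / As A1 A2 η p.1), (be 1 b : ℂ) * ph k 0 b

theorem G3_eq {q : ℕ} {r : ZI} {I : ℕ} {A1 A2 V η Y1 Y2 : ℝ} (hA1 : 1 ≤ A1) (hA12 : A1 ≤ A2) (hη : 0 ≤ η)
    (hY2 : 0 ≤ Y2) (hYV : Y2 ≤ V) (k : ℤ) :
    ∑ a ∈ bg A1 A2, ∑ b ∈ bl V, ((lp a * be 1 b * Wt q r I A1 A2 η Y1 Y2 a b : ℝ) : ℂ) * ph k 0 (a * b) =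
      ∑ p ∈ Jx q r I, Ap q A1 A2 η k p * Bp q A1 A2 η Y1 Y2 k p := by
  classical
  have h1 : ∀ p ∈ Jx q r I, Ap q A1 A2 η k p * Bp q A1 A2 η Y1 Y2 k p = ∑ a ∈ bg A1 A2, ∑ b ∈ bl V,
      ((lp a * be 1 b : ℝ) : ℂ) * ph k 0 (a * b) *
        (if a ∈ SA q p.2.1 (As A1 A2 η p.1) (As A1 A2 η (p.1 + 1)) ∧
          b ∈ SA q p.2.2 (Y1 / As A1 A2 η p.1) (Y2 / As A1 A2 η p.1) then 1 else 0) := by
    intro p _
    have hA : A1 ≤ As A1 A2 η p.1 := As_ge hA12 (by linarith) hη p.1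
    have hs1 : SA q p.2.1 (As A1 A2 η p.1) (As A1 A2 η (p.1 + 1)) ⊆ bg A1 A2 := by
      intro a ha
      rw [mem_SA] at ha
      rw [mem_bg]
      exact ⟨ha.1, ha.2.1.trans (As_le _ _ _ _), lt_of_le_of_lt hA ha.2.2.2⟩
    have hs2 : SA q p.2.2 (Y1 / As A1 A2 η p.1) (Y2 / As A1 A2 η p.1) ⊆ bl V := by
      intro m hm
      rw [mem_SA] at hm
      rw [mem_bl]
      exact ⟨hm.1, hm.2.1.trans ((div_le_self hY2 (hA1.trans hA)).trans hYV)⟩
    unfold Ap Bp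
    rw [sum_mul_sum, ← sum_subset hs1 (f := fun a => ∑ b ∈ bl V,
      ((lp a * be 1 b : ℝ) : ℂ) * ph k 0 (a * b) *
        (if a ∈ SA q p.2.1 (As A1 A2 η p.1) (As A1 A2 η (p.1 + 1)) ∧
          b ∈ SA q p.2.2 (Y1 / As A1 A2 η p.1) (Y2 / As A1 A2 η p.1) then 1 else 0))]
    · refine sum_congr rfl fun a ha => ?_
      rw [← sum_subset hs2 (f := fun b => ((lp a * be 1 b : ℝ) : ℂ) * ph k 0 (a * b) *
        (if a ∈ SA q p.2.1 (As A1 A2 η p.1) (As A1 A2 η (p.1 + 1)) ∧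
          b ∈ SA q p.2.2 (Y1 / As A1 A2 η p.1) (Y2 / As A1 A2 η p.1) then 1 else 0))]
      · refine sum_congr rfl fun b hb => ?_
        rw [if_pos ⟨ha, hb⟩, mul_one, ph_mul k (mem_SA.1 ha).1 (mem_SA.1 hb).1]
        push_cast
        ring
      · intro b _ hb
        rw [if_neg fun h => hb h.2, mul_zero]
    · intro a _ ha
      refine sum_eq_zero fun b _ => ?_
      rw [if_neg fun h => ha h.1, mul_zero]
  symm
  rw [sum_congr rfl h1, sum_comm]
  refine sum_congr rfl fun a _ => ?_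
  rw [sum_comm]
  refine sum_congr rfl fun b _ => ?_
  rw [← mul_sum]
  unfold Wt
  push_cast
  rw [mul_right_comm]
  congr 2
  refine sum_congr rfl fun i _ => ?_
  split_ifs <;> simp

/-- the main part -/
theorem G3_le {q : ℕ} {r : ZI} {I : ℕ} {A1 A2 V η Y1 Y2 cA cB : ℝ} (hA1 : 1 ≤ A1)
    (hA12 : A1 ≤ A2) (hη : 0 ≤ η) (hη1 : η ≤ 1)
    (hY1 : 0 ≤ Y1) (hY12 : Y1 ≤ Y2) (hY2 : Y2 ≤ V) (hVA : 2 * A2 ≤ V) (K : ℕ) (hK : 1 ≤ K) (hKV : (K : ℝ) ≤ V / A2)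
    (hcA : 0 ≤ cA) (hcB : 0 ≤ cB)
    (hA : ∀ k : ℤ, k ≠ 0 → |(k : ℝ)| ≤ K → ∀ p ∈ Jx q r I, ‖Ap q A1 A2 η k p‖ ≤ cA * As A1 A2 η p.1)
    (hB : ∀ p ∈ Jx q r I, ‖Bp q A1 A2 η Y1 Y2 0 p‖ ≤ cB * (V / As A1 A2 η p.1)) :
    ∑ k ∈ Icc (-(K : ℤ)) K, ‖∑ a ∈ bg A1 A2, ∑ b ∈ bl V,
      ((lp a * be 1 b * Wt q r I A1 A2 η Y1 Y2 a b : ℝ) : ℂ) * ph k 0 (a * b)‖ ^ 2 ≤
      ((Jx q r I).card : ℝ) ^ 2 * (V ^ 2 * (1296 * cA ^ 2 + (18 * Real.log A2 * cB) ^ 2)) := by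
  classical
  have hA20 : 0 < A2 := by linarith
  have hA21 : 1 ≤ A2 := by linarith
  have hV0 : 0 < V := by linarith
  have hlA2 : 0 ≤ Real.log A2 := Real.log_nonneg hA21
  have h0 : ∀ k : ℤ, ‖∑ a ∈ bg A1 A2, ∑ b ∈ bl V,
      ((lp a * be 1 b * Wt q r I A1 A2 η Y1 Y2 a b : ℝ) : ℂ) * ph k 0 (a * b)‖ ^ 2 ≤
      ((Jx q r I).card : ℝ) * ∑ p ∈ Jx q r I, (‖Ap q A1 A2 η k p‖ ^ 2 * ‖Bp q A1 A2 η Y1 Y2 k p‖ ^ 2) := by
    intro k
    rw [G3_eq hA1 hA12 hη (hY1.trans hY12) hY2 k]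
    refine (pow_le_pow_left₀ (norm_nonneg _) (norm_sum_le _ _) 2).trans ?_
    refine (sq_sum_le_card_mul_sum_sq).trans (le_of_eq ?_)
    congr 1
    refine sum_congr rfl fun p _ => ?_
    rw [norm_mul, mul_pow]
  have hp : ∀ p ∈ Jx q r I, ∑ k ∈ Icc (-(K : ℤ)) K, ‖Ap q A1 A2 η k p‖ ^ 2 * ‖Bp q A1 A2 η Y1 Y2 k p‖ ^ 2 ≤
      V ^ 2 * (1296 * cA ^ 2 + (18 * Real.log A2 * cB) ^ 2) := by
    intro p hpJ
    set a0 := As A1 A2 η p.1 with ha0
    have ha1 : A1 ≤ a0 := As_ge hA12 (by linarith) hη p.1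
    have ha2 : a0 ≤ A2 := As_le _ _ _ _
    have ha00 : 0 < a0 := by linarith
    have has : As A1 A2 η (p.1 + 1) ≤ 2 * a0 := by
      have := As_succ (w := A1) (V := A2) (by linarith) hη p.1
      rw [← ha0] at this
      nlinarith
    set Vi := V / a0 with hVi
    have hVi2 : 2 ≤ Vi := by
      rw [hVi, le_div_iff₀ ha00]
      linarith
    have hKVi : (K : ℝ) ≤ Vi := hKV.trans (div_le_div_of_nonneg_left hV0.le ha00 ha2)
    -- the mean value of the second factor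
    have hmv : ∑ k ∈ Icc (-(K : ℤ)) K, ‖Bp q A1 A2 η Y1 Y2 k p‖ ^ 2 ≤ 1296 * Vi ^ 2 := by
      have hsub : SA q p.2.2 (Y1 / a0) (Y2 / a0) ⊆ bl Vi := SA_sub (div_le_div_of_nonneg_right hY2 ha00.le)
      set c : ZI → ℂ := fun b => if b ∈ SA q p.2.2 (Y1 / a0) (Y2 / a0) then (be 1 b : ℂ) else 0 with hc
      have e1 : ∀ k : ℤ, Bp q A1 A2 η Y1 Y2 k p = ∑ b ∈ bl Vi, c b * ph k 0 b := by
        intro k
        unfold Bp
        rw [← sum_subset hsub (f := fun b => c b * ph k 0 b)]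
        · refine sum_congr rfl fun b hb => ?_
          rw [hc]
          simp only
          rw [if_pos hb]
        · intro b _ hb
          rw [hc]
          simp only
          rw [if_neg hb, zero_mul]
      have e2 := mv1 Vi hVi2 K hK c (by
        intro b hb
        rw [hc]
        simp only
        split_ifs
        · rw [be_ct hb, Complex.ofReal_zero]
        · rfl)
      have e3 : ∑ k ∈ Icc (-(K : ℤ)) K, ‖Bp q A1 A2 η Y1 Y2 k p‖ ^ 2 =
          ∑ k ∈ Icc (-(K : ℤ)) K, ‖∑ b ∈ bl Vi, c b * ph k 0 b‖ ^ 2 := sum_congr rfl fun k _ => by rw [e1 k]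
      rw [e3]
      refine e2.trans ?_
      have e4 : ∑ b ∈ bl Vi, ‖c b‖ ^ 2 ≤ 9 * Vi := by
        have e5 : ∀ b ∈ bl Vi, ‖c b‖ ^ 2 ≤ 1 := by
          intro b _
          rw [hc]
          simp only
          split_ifs
          · rw [Complex.norm_real, Real.norm_eq_abs]
            exact pow_le_one₀ (abs_nonneg _) (abs_be_le 1 b)
          · simp
        refine (sum_le_sum e5).trans ?_
        rw [sum_const, nsmul_eq_mul, mul_one]
        exact card_bl Vi (by linarith)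
      have hK0 : (0 : ℝ) ≤ K := Nat.cast_nonneg K
      calc 72 * ((K : ℝ) + Vi) * ∑ b ∈ bl Vi, ‖c b‖ ^ 2 ≤ 72 * (Vi + Vi) * (9 * Vi) := by
            apply mul_le_mul _ e4 (sum_nonneg fun _ _ => sq_nonneg _) (by positivity)
            linarith
        _ = 1296 * Vi ^ 2 := by ring
    have hAp0 : ‖Ap q A1 A2 η 0 p‖ ≤ 18 * a0 * Real.log A2 := by
      unfold Ap
      rw [← ha0]
      refine (norm_sum_le _ _).trans ?_
      have e1 : ∀ a ∈ SA q p.2.1 a0 (As A1 A2 η (p.1 + 1)), ‖(lp a : ℂ) * ph 0 0 a‖ ≤ Real.log A2 := by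
        intro a ha
        rw [mem_SA] at ha
        rw [norm_mul, norm_ph, mul_one, Complex.norm_real, Real.norm_of_nonneg (lp_nonneg a)]
        exact (lp_le ha.1).trans (Real.log_le_log (nz_pos ha.1) (ha.2.1.trans (As_le _ _ _ _)))
      refine (sum_le_sum e1).trans ?_
      rw [sum_const, nsmul_eq_mul]
      apply mul_le_mul_of_nonneg_right _ hlA2
      have e2 : ((SA q p.2.1 a0 (As A1 A2 η (p.1 + 1))).card : ℝ) ≤ ((bl (2 * a0)).card : ℝ) := by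
        exact_mod_cast card_le_card (SA_sub has)
      refine e2.trans ((card_bl (2 * a0) (by linarith)).trans ?_)
      linarith
    -- every term
    have hterm : ∀ k ∈ Icc (-(K : ℤ)) K, ‖Ap q A1 A2 η k p‖ ^ 2 * ‖Bp q A1 A2 η Y1 Y2 k p‖ ^ 2 ≤
        (cA * a0) ^ 2 * ‖Bp q A1 A2 η Y1 Y2 k p‖ ^ 2 +
          (if k = 0 then (18 * a0 * Real.log A2) ^ 2 * (cB * Vi) ^ 2 else 0) := by
      intro k hk
      by_cases hk0 : k = 0
      · rw [hk0, if_pos rfl]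
        have e1 : ‖Ap q A1 A2 η 0 p‖ ^ 2 * ‖Bp q A1 A2 η Y1 Y2 0 p‖ ^ 2 ≤
            (18 * a0 * Real.log A2) ^ 2 * (cB * Vi) ^ 2 :=
          mul_le_mul (pow_le_pow_left₀ (norm_nonneg _) hAp0 2) (pow_le_pow_left₀ (norm_nonneg _) (hB p hpJ) 2)
            (sq_nonneg _) (sq_nonneg _)
        have e2 : 0 ≤ (cA * a0) ^ 2 * ‖Bp q A1 A2 η Y1 Y2 0 p‖ ^ 2 := by positivity
        linarith
      · rw [if_neg hk0, add_zero]
        have hkK : |(k : ℝ)| ≤ K := by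
          rw [mem_Icc] at hk
          have d1 : |k| ≤ (K : ℤ) := abs_le.2 hk
          exact_mod_cast d1
        exact mul_le_mul_of_nonneg_right (pow_le_pow_left₀ (norm_nonneg _) (hA k hk0 hkK p hpJ) 2) (sq_nonneg _)
    refine (sum_le_sum hterm).trans ?_
    rw [sum_add_distrib, ← mul_sum, sum_ite_eq']
    have h0mem : (0 : ℤ) ∈ Icc (-(K : ℤ)) K := by
      rw [mem_Icc]
      constructor <;> omega
    rw [if_pos h0mem]
    calc (cA * a0) ^ 2 * ∑ k ∈ Icc (-(K : ℤ)) K, ‖Bp q A1 A2 η Y1 Y2 k p‖ ^ 2 +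
        (18 * a0 * Real.log A2) ^ 2 * (cB * Vi) ^ 2
        ≤ (cA * a0) ^ 2 * (1296 * Vi ^ 2) + (18 * a0 * Real.log A2) ^ 2 * (cB * Vi) ^ 2 := by
          have := mul_le_mul_of_nonneg_left hmv (sq_nonneg (cA * a0))
          linarith
      _ = V ^ 2 * (1296 * cA ^ 2 + (18 * Real.log A2 * cB) ^ 2) := by
          rw [hVi]
          field_simp
  refine (sum_le_sum fun k _ => h0 k).trans ?_
  rw [← mul_sum, sum_comm]
  refine (mul_le_mul_of_nonneg_left (sum_le_sum hp) (Nat.cast_nonneg _)).trans (le_of_eq ?_)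
  rw [sum_const, nsmul_eq_mul]
  ring

theorem card_bl_el (h : S_EL) : ∃ C : ℝ, 0 < C ∧ ∀ Y : ℝ, 1 ≤ Y →
    |((bl Y).card : ℝ) - Real.pi * Y| ≤ C * Real.sqrt Y := by
  classical
  obtain ⟨C, hC, h⟩ := h
  refine ⟨C, hC, fun Y hY => ?_⟩
  have h1 := h 0 0 1 0 Y le_rfl hY
  have e1 : cls 1 0 Y = bl Y := by
    ext t
    rw [mem_cls, mem_bl]
    simp
  have e2 : ∀ t : ZI, ph 0 0 t = 1 := by
    intro t
    unfold ph
    simp
  rw [e1, sum_congr rfl fun t _ => e2 t, if_pos rfl] at h1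
  simp only [Complex.ofReal_zero, zero_mul, sub_zero, Complex.cpow_one, div_one, Nat.cast_one, one_pow, Int.cast_zero,
    abs_zero, add_zero, mul_one, sum_const, nsmul_eq_mul] at h1
  rw [← Complex.ofReal_mul, ← Complex.ofReal_natCast, ← Complex.ofReal_sub, Complex.norm_real, Real.norm_eq_abs] at h1
  exact h1

open Classical in
/-- thin shells -/
theorem shell (h : S_EL) : ∃ C : ℝ, 0 < C ∧ ∀ (V Y η : ℝ), 1 ≤ V → 0 ≤ Y → Y ≤ V → 0 ≤ η → η ≤ 1 →
    (((bl (2 * V)).filter (fun t => Y < nz t ∧ nz t ≤ (1 + η) * Y)).card : ℝ) ≤ 4 * η * V + C * Real.sqrt V := by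
  obtain ⟨C, hC, h⟩ := card_bl_el h
  refine ⟨3 * C + 18, by positivity, fun V Y η hV hY0 hYV hη hη1 => ?_⟩
  have hsV : 1 ≤ Real.sqrt V := by
    rw [Real.one_le_sqrt]
    exact hV
  rcases lt_or_ge Y 1 with hY | hY
  · have e1 : (((bl (2 * V)).filter (fun t => Y < nz t ∧ nz t ≤ (1 + η) * Y)).card : ℝ) ≤ ((bl (2 : ℝ)).card : ℝ) := by
      apply Nat.cast_le.2
      apply card_le_card
      intro t ht
      rw [mem_filter, mem_bl] at ht
      rw [mem_bl]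
      refine ⟨ht.1.1, ht.2.2.trans ?_⟩
      nlinarith
    have e2 := card_bl 2 (by norm_num)
    nlinarith
  · have hb : bl Y ∪ (bl (2 * V)).filter (fun t => Y < nz t ∧ nz t ≤ (1 + η) * Y) ⊆ bl ((1 + η) * Y) := by
      intro t ht
      rw [mem_union, mem_filter] at ht
      rw [mem_bl]
      rcases ht with h1 | h1
      · have := (mem_bl _ _).1 h1
        refine ⟨this.1, this.2.trans ?_⟩
        nlinarith
      · exact ⟨((mem_bl _ _).1 h1.1).1, h1.2.2⟩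
    have hd : Disjoint (bl Y) ((bl (2 * V)).filter (fun t => Y < nz t ∧ nz t ≤ (1 + η) * Y)) := by
      rw [disjoint_left]
      intro t h1 h2
      rw [mem_filter] at h2
      have := (mem_bl _ _).1 h1
      linarith [h2.2.1]
    have hc := card_le_card hb
    rw [card_union_of_disjoint hd] at hc
    have hc' : ((bl Y).card : ℝ) + (((bl (2 * V)).filter (fun t => Y < nz t ∧ nz t ≤ (1 + η) * Y)).card : ℝ) ≤
        ((bl ((1 + η) * Y)).card : ℝ) := by exact_mod_cast hc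
    have h1 := h Y hY
    have h2 := h ((1 + η) * Y) (by nlinarith)
    rw [abs_le] at h1 h2
    have h3 : Real.sqrt Y ≤ Real.sqrt V := Real.sqrt_le_sqrt hYV
    have h4 : Real.sqrt ((1 + η) * Y) ≤ 2 * Real.sqrt V := by
      rw [show 2 * Real.sqrt V = Real.sqrt (4 * V) by
        rw [show (4 : ℝ) * V = 2 ^ 2 * V by norm_num, Real.sqrt_mul (by norm_num), Real.sqrt_sq (by norm_num)]]
      apply Real.sqrt_le_sqrt
      nlinarith
    have hpi := Real.pi_lt_four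
    have hpi0 := Real.pi_pos
    have h5 : Real.pi * (η * Y) ≤ 4 * (η * V) := by
      apply mul_le_mul hpi.le (mul_le_mul_of_nonneg_left hYV hη) (by positivity) (by norm_num)
    have h6 : Real.pi * ((1 + η) * Y) = Real.pi * Y + Real.pi * (η * Y) := by ring
    nlinarith

theorem sh_sum (h : S_EL) : ∃ C : ℝ, 0 < C ∧ ∀ (V Y1 Y2 η : ℝ), 1 ≤ V → 0 ≤ Y1 → Y1 ≤ Y2 → Y2 ≤ V → 0 ≤ η → η ≤ 1 →
    ∑ t ∈ bl (2 * V), (sh η Y1 Y2 (nz t)) ^ 2 ≤ 16 * η * V + C * Real.sqrt V := by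
  classical
  obtain ⟨C, hC, h⟩ := shell h
  refine ⟨4 * C, by positivity, fun V Y1 Y2 η hV hY1 hY12 hY2 hη hη1 => ?_⟩
  have e1 : ∀ t ∈ bl (2 * V), (sh η Y1 Y2 (nz t)) ^ 2 ≤
      2 * (if Y1 < nz t ∧ nz t ≤ (1 + η) * Y1 then 1 else 0) +
      2 * (if Y2 < nz t ∧ nz t ≤ (1 + η) * Y2 then 1 else 0) := by
    intro t _
    unfold sh
    split_ifs <;> norm_num
  refine (sum_le_sum e1).trans ?_
  rw [sum_add_distrib, ← mul_sum, ← mul_sum, ← sum_filter, ← sum_filter, sum_const, sum_const, nsmul_eq_mul,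
    nsmul_eq_mul, mul_one, mul_one]
  have h1 := h V Y1 η hV hY1 (hY12.trans hY2) hη hη1
  have h2 := h V Y2 η hV (hY1.trans hY12) hY2 hη hη1
  linarith

end Pool.Agent.J4.H69
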