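import Pool.Agent.J4.H69.UBc

/-!
# The squarefree numbers and the number of the representations
-/

set_option autoImplicit false

namespace Pool.Agent.J4.H69

open Finset Filter Topology
open Pool.Agent.N782.GN
open Pool.Agent.N855.GN (Dv mem_Dv logpow nz_one_le one_le_log bg)
open Pool.Agent.N277.GN (ct_nat_mul abs_be_le card_bl nz_pos nz_natCast)
open Pool.Agent.H304R3.HK (UH bb LamK CS)
open Pool.Agent.N458.GN (smul_mk zi_ne)

/-- the elements of prime norm whose square is primitive -/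
noncomputable def PiS (Z : ℝ) : Finset ZI := by
  classical
  exact (bl Z).filter (fun p => (Zsqrtd.norm p).natAbs.Prime ∧ ct (p * p) = 1)

theorem mem_PiS {Z : ℝ} {p : ZI} : p ∈ PiS Z ↔ nz p ≤ Z ∧ (Zsqrtd.norm p).natAbs.Prime ∧ ct (p * p) = 1 := by
  classical
  unfold PiS
  rw [mem_filter, mem_bl]
  constructor
  · rintro ⟨⟨h1, h2⟩, h3⟩
    exact ⟨h2, h3⟩
  · rintro ⟨h2, h3⟩
    exact ⟨⟨ne_zero_of_prime h3.1, h2⟩, h3⟩

theorem PiS_norm {Z : ℝ} {p : ZI} (h : p ∈ PiS Z) : 5 ≤ (Zsqrtd.norm p).natAbs ∧ (Zsqrtd.norm p).natAbs % 4 = 1 := by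
  rw [mem_PiS] at h
  obtain ⟨-, h1, h2⟩ := h
  set n := (Zsqrtd.norm p).natAbs with hn
  have h3 : (n : ℤ) = p.re ^ 2 + p.im ^ 2 := by
    rw [hn, norm_nat, Zsqrtd.norm_def]
    ring
  have h4 : n ≠ 2 := by
    intro h4
    rw [h4] at h3
    push_cast at h3
    have a1 : p.re ^ 2 ≤ 2 := by nlinarith [sq_nonneg p.im]
    have a2 : p.im ^ 2 ≤ 2 := by nlinarith [sq_nonneg p.re]
    have b1 : -1 ≤ p.re ∧ p.re ≤ 1 := by constructor <;> nlinarith
    have b2 : -1 ≤ p.im ∧ p.im ≤ 1 := by constructor <;> nlinarith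
    have c1 : p.re ^ 2 = 1 := by
      have : p.re ^ 2 ≤ 1 := by nlinarith [b1.1, b1.2]
      have : p.im ^ 2 ≤ 1 := by nlinarith [b2.1, b2.2]
      linarith
    have c2 : p.im ^ 2 = 1 := by linarith
    have d1 : ct (p * p) = 2 := by
      unfold ct
      rw [Zsqrtd.re_mul, Zsqrtd.im_mul]
      have e1 : p.re * p.re + -1 * p.im * p.im = 0 := by nlinarith
      have e2 : (p.re * p.im + p.im * p.re).natAbs = 2 := by
        have e3 : (p.re * p.im) ^ 2 = 1 := by rw [mul_pow, c1, c2]; norm_num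
        have e4 : (p.re * p.im).natAbs = 1 := by
          have := congrArg Int.natAbs e3
          rw [Int.natAbs_pow] at this
          simpa using this
        rw [show p.re * p.im + p.im * p.re = 2 * (p.re * p.im) by ring, Int.natAbs_mul, e4]
        rfl
      rw [e1, Int.gcd_zero_left]
      exact e2
    omega
  have h5 : n % 2 = 1 := by
    rcases h1.eq_two_or_odd with h | h
    · exact absurd h h4
    · exact h
  have h6 : n % 4 = 1 := by
    have r1 : p.re % 4 = 0 ∨ p.re % 4 = 1 ∨ p.re % 4 = 2 ∨ p.re % 4 = 3 := by omega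
    have r2 : p.im % 4 = 0 ∨ p.im % 4 = 1 ∨ p.im % 4 = 2 ∨ p.im % 4 = 3 := by omega
    have r3 : p.re ^ 2 % 4 = 0 ∨ p.re ^ 2 % 4 = 1 := by
      rcases r1 with h | h | h | h <;> simp [pow_two, Int.mul_emod, h]
    have r4 : p.im ^ 2 % 4 = 0 ∨ p.im ^ 2 % 4 = 1 := by
      rcases r2 with h | h | h | h <;> simp [pow_two, Int.mul_emod, h]
    omega
  refine ⟨?_, h6⟩
  have := h1.two_le
  omega

/-- sums over the elements of `PiS` -/
theorem PiS_sum {Z : ℝ} (hZ : 0 ≤ Z) (g : ℕ → ℝ) (hg : ∀ n, 0 ≤ g n) :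
    ∑ p ∈ PiS Z, g (Zsqrtd.norm p).natAbs ≤ 8 * ∑ n ∈ (Icc 1 ⌊Z⌋₊).filter (fun n => 5 ≤ n ∧ n % 4 = 1), g n := by
  classical
  have h1 : ∑ p ∈ PiS Z, g (Zsqrtd.norm p).natAbs =
      ∑ n ∈ (Icc 1 ⌊Z⌋₊).filter (fun n => 5 ≤ n ∧ n % 4 = 1),
        ∑ p ∈ (PiS Z).filter (fun p => (Zsqrtd.norm p).natAbs = n), g (Zsqrtd.norm p).natAbs := by
    rw [sum_fiberwise_of_maps_to]
    intro p hp
    have h2 := PiS_norm hp
    rw [mem_PiS, nz_nat] at hp
    rw [mem_filter, mem_Icc]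
    exact ⟨⟨by omega, Nat.le_floor hp.1⟩, h2⟩
  rw [h1, mul_sum]
  apply sum_le_sum
  intro n _
  by_cases hn : n.Prime
  · have h3 : ∑ p ∈ (PiS Z).filter (fun p => (Zsqrtd.norm p).natAbs = n), g (Zsqrtd.norm p).natAbs =
        (((PiS Z).filter (fun p => (Zsqrtd.norm p).natAbs = n)).card : ℝ) * g n := by
      rw [sum_congr rfl (fun p hp => by rw [(mem_filter.1 hp).2]), sum_const, nsmul_eq_mul]
    rw [h3]
    have h4 := card_norm_prime hn (PiS Z)
    have h5 : (((PiS Z).filter (fun p => (Zsqrtd.norm p).natAbs = n)).card : ℝ) ≤ 8 := by exact_mod_cast h4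
    exact mul_le_mul_of_nonneg_right h5 (hg n)
  · have h3 : (PiS Z).filter (fun p => (Zsqrtd.norm p).natAbs = n) = ∅ := by
      rw [filter_eq_empty_iff]
      intro p hp h
      rw [mem_PiS] at hp
      exact hn (h ▸ hp.2.1)
    rw [h3, sum_empty]
    exact mul_nonneg (by norm_num) (hg n)

theorem tele (N : ℕ) : ∑ n ∈ (Icc 1 N).filter (fun n => 5 ≤ n ∧ n % 4 = 1), 1 / (n : ℝ) ^ 2 ≤ 1 / 12 := by
  classical
  have h1 : ∀ K : ℕ, ∑ k ∈ Icc 1 K, 1 / ((4 * k + 1 : ℕ) : ℝ) ^ 2 ≤ 1 / 12 - 1 / (4 * (4 * (K : ℝ) + 3)) := by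
    intro K
    induction K with
    | zero => norm_num
    | succ K ih =>
      rw [sum_Icc_succ_top (by omega)]
      have hK : (0 : ℝ) ≤ K := Nat.cast_nonneg K
      have h2 : 1 / ((4 * (K + 1) + 1 : ℕ) : ℝ) ^ 2 ≤
          1 / (4 * (4 * (K : ℝ) + 3)) - 1 / (4 * (4 * ((K + 1 : ℕ) : ℝ) + 3)) := by
        push_cast
        have e1 : 1 / (4 * (4 * (K : ℝ) + 3)) - 1 / (4 * (4 * ((K : ℝ) + 1) + 3)) =
            1 / ((4 * (K : ℝ) + 3) * (4 * K + 7)) := by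
          field_simp
          ring
        rw [e1]
        apply one_div_le_one_div_of_le (by positivity)
        nlinarith
      linarith
  have h2 : (Icc 1 N).filter (fun n => 5 ≤ n ∧ n % 4 = 1) ⊆ (Icc 1 N).image (fun k => 4 * k + 1) := by
    intro n hn
    rw [mem_filter, mem_Icc] at hn
    rw [mem_image]
    refine ⟨n / 4, ?_, ?_⟩
    · rw [mem_Icc]
      omega
    · omega
  refine (sum_le_sum_of_subset_of_nonneg h2 fun _ _ _ => by positivity).trans ?_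
  rw [sum_image (by intro a _ b _ h; simpa using h)]
  have h3 := h1 N
  have h4 : 0 ≤ 1 / (4 * (4 * (N : ℝ) + 3)) := by positivity
  linarith

theorem PiS_all {Z : ℝ} (hZ : 0 ≤ Z) : ∑ p ∈ PiS Z, 1 / nz (p * p) ≤ 2 / 3 := by
  have h1 := PiS_sum hZ (fun n => 1 / (n : ℝ) ^ 2) (fun n => by positivity)
  have h2 := tele ⌊Z⌋₊
  have h3 : ∑ p ∈ PiS Z, 1 / nz (p * p) = ∑ p ∈ PiS Z, (fun n : ℕ => 1 / (n : ℝ) ^ 2) (Zsqrtd.norm p).natAbs := by
    apply sum_congr rfl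
    intro p _
    simp only
    rw [nz_mul, nz_nat, sq]
  rw [h3]
  linarith

theorem PiS_tail {Z P : ℝ} (hZ : 0 ≤ Z) (hP : 1 ≤ P) :
    ∑ p ∈ (PiS Z).filter (fun p => P < nz p), 1 / nz (p * p) ≤ 16 / P := by
  classical
  have h1 := PiS_sum hZ (fun n => if P < (n : ℝ) then 1 / (n : ℝ) ^ 2 else 0) (fun n => by
    split_ifs
    · positivity
    · exact le_rfl)
  have h3 : ∑ p ∈ (PiS Z).filter (fun p => P < nz p), 1 / nz (p * p) =
      ∑ p ∈ PiS Z, (fun n : ℕ => if P < (n : ℝ) then 1 / (n : ℝ) ^ 2 else 0) (Zsqrtd.norm p).natAbs := by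
    rw [sum_filter]
    apply sum_congr rfl
    intro p _
    simp only
    rw [nz_mul, nz_nat, sq]
  rw [h3]
  refine h1.trans ?_
  have h4 : ∑ n ∈ (Icc 1 ⌊Z⌋₊).filter (fun n => 5 ≤ n ∧ n % 4 = 1), (if P < (n : ℝ) then 1 / (n : ℝ) ^ 2 else 0) ≤
      ∑ n ∈ (Icc 1 ⌊Z⌋₊).filter (fun n : ℕ => ¬ (n : ℝ) ≤ P), 1 / (n : ℝ) ^ 2 := by
    rw [← sum_filter]
    apply sum_le_sum_of_subset_of_nonneg
    · intro n hn
      rw [mem_filter, mem_filter] at hn
      rw [mem_filter, not_le]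
      exact ⟨hn.1.1, hn.2⟩
    · intro _ _ _
      positivity
  have h5 := sum_sq_tail ⌊Z⌋₊ hP
  have h6 : 8 * (2 / P) = 16 / P := by ring
  linarith

/-- squarefree numbers -/
theorem sq_lower {M A1 A2 Q1 Q2 : ℝ} (hM : 0 < M) (hQ : 2 * M ^ 2 < Q1 ^ 2) (hQ0 : 0 < Q1) (hMQ : M ≤ Q1)
    {z : ZI} (hz : ct z = 1) (hzM : nz z ≤ 2 * M ^ 2) (hW : Wt M A1 A2 Q1 Q2 z ≠ 0) :
    1 - 1 / 4 * (∑ p ∈ PiS (Real.sqrt (2 * M)), open Classical in if p * p ∣ z then (1 : ℝ) else 0) ≤ (be 1 z) ^ 2 := by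
  classical
  have hz0 : z ≠ 0 := by
    rintro rfl
    exact ct_zero hz
  have hbe : be 1 z = mu z := by
    unfold be
    rw [if_pos]
    exact ⟨hz, by rw [Nat.cast_one]; exact isCoprime_one_right⟩
  rw [hbe]
  by_cases hs : Squarefree z
  · have h1 : (mu z) ^ 2 = 1 := by
      unfold mu
      rw [if_pos hs, ← pow_mul, mul_comm, pow_mul]
      norm_num
    rw [h1]
    have h2 : 0 ≤ ∑ p ∈ PiS (Real.sqrt (2 * M)), (if p * p ∣ z then (1 : ℝ) else 0) :=
      sum_nonneg fun _ _ => by split_ifs <;> norm_num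
    linarith
  · have h1 : (mu z) ^ 2 = 0 := by
      unfold mu
      rw [if_neg hs]
      norm_num
    rw [h1]
    -- a prime whose square divides `z`
    have h2 : ∃ x : ZI, ¬ IsUnit x ∧ x * x ∣ z := by
      by_contra hcon
      apply hs
      intro x hx
      by_contra hu
      exact hcon ⟨x, hu, hx⟩
    obtain ⟨x, hx, hxz⟩ := h2
    have hx0 : x ≠ 0 := by
      rintro rfl
      rw [zero_mul] at hxz
      exact hz0 (zero_dvd_iff.1 hxz)
    obtain ⟨p, hp, hpx⟩ := WfDvdMonoid.exists_irreducible_factor hx hx0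
    have hpz : p * p ∣ z := (mul_dvd_mul hpx hpx).trans hxz
    have hpp : Prime p := hp.prime
    have hpn := prime_prim hpp ((dvd_mul_right p p).trans hpz) hz
    have hp0 := hpp.ne_zero
    -- the norm is small
    have hsmall : nz p ≤ Real.sqrt (2 * M) := by
      have h3 : ds (al Q1 Q2) z ≠ 0 := by
        intro h
        apply hW
        unfold Wt
        rw [h]
        ring
      obtain ⟨v, hv, hv'⟩ := exists_ne_zero_of_sum_ne_zero h3
      rw [mem_Dv hz0] at hv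
      obtain ⟨v1, v2, v3⟩ := al_ne hv'
      obtain ⟨c, rfl⟩ := hpz
      have hc0 : c ≠ 0 := right_ne_zero_of_mul hz0
      have hvp := prime_of v1
      rw [nz_mul, nz_mul] at hzM
      have hc1 := one_le_nz hc0
      have hpnn := nz_nonneg p
      rcases hvp.dvd_or_dvd hv with h | h
      · exfalso
        have h4 : v ∣ p := by rcases hvp.dvd_or_dvd h with h | h <;> exact h
        have h5 := nz_le_of_dvd hp0 h4
        have h6 : Q1 < nz p := by linarith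
        have h7 : Q1 ^ 2 ≤ nz p * nz p := by nlinarith
        have h8 : nz p * nz p ≤ nz p * nz p * nz c := by
          have : 0 ≤ nz p * nz p := mul_nonneg hpnn hpnn
          nlinarith
        linarith
      · have h5 := nz_le_of_dvd hc0 h
        have h6 : M ≤ nz c := by linarith
        apply Real.le_sqrt_of_sq_le
        have h7 : nz p * nz p * M ≤ 2 * M ^ 2 := by
          have : nz p * nz p * M ≤ nz p * nz p * nz c := mul_le_mul_of_nonneg_left h6 (mul_nonneg hpnn hpnn)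
          linarith
        have h8 : nz p * nz p * M ≤ (2 * M) * M := by linarith
        have h9 := le_of_mul_le_mul_right h8 hM
        rw [sq]
        exact h9
    have h3 : (Pool.Agent.N157.GN.UU).image (fun u => u * p) ⊆ (PiS (Real.sqrt (2 * M))).filter (fun q => q * q ∣ z) := by
      intro q hq
      rw [mem_image] at hq
      obtain ⟨u, hu, rfl⟩ := hq
      rw [Pool.Agent.N157.GN.mem_UU] at hu
      have h4 : (u * p) * (u * p) ∣ z := by
        have h5 : Associated (p * p) ((u * p) * (u * p)) := by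
          have : Associated p (u * p) := by
            obtain ⟨w, rfl⟩ := hu
            exact (associated_unit_mul_left p (w : ZI) w.isUnit).symm
          exact this.mul_mul this
        exact (h5.symm.dvd).trans hpz
      have h6 : Zsqrtd.norm (u * p) = Zsqrtd.norm p := by
        apply Pool.Agent.H304R3.HK.M4.norm_assoc
        obtain ⟨w, rfl⟩ := hu
        exact associated_unit_mul_left p (w : ZI) w.isUnit
      have h7 : nz (u * p) = nz p := by
        unfold nz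
        rw [h6]
      rw [mem_filter, mem_PiS, h7, h6]
      refine ⟨⟨hsmall, hpn, ?_⟩, h4⟩
      obtain ⟨c, hc⟩ := h4
      have h8 : (u * p) * (u * p) ≠ 0 := by
        intro h
        rw [h, zero_mul] at hc
        exact hz0 hc
      apply ct_mul_one (a := c) h8
      rw [mul_comm, ← hc]
      exact hz
    have h4 : 4 ≤ ((PiS (Real.sqrt (2 * M))).filter (fun q => q * q ∣ z)).card := by
      refine le_trans ?_ (card_le_card h3)
      rw [card_image_of_injective _ (fun a b h => mul_right_cancel₀ hp0 h), Pool.Agent.N157.GN.card_UU]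
    have h5 : (4 : ℝ) ≤ ∑ p ∈ PiS (Real.sqrt (2 * M)), (if p * p ∣ z then (1 : ℝ) else 0) := by
      rw [sum_boole]
      exact_mod_cast h4
    linarith

/-- the sum over `m` with the square of the Möbius function -/
noncomputable def TT1 (M A1 A2 Q1 Q2 : ℝ) (l : ℤ) : ℝ :=
  ∑ m ∈ Icc ⌈-M⌉ ⌊M⌋, (be 1 (⟨l, m⟩ : ZI)) ^ 2 * Wt M A1 A2 Q1 Q2 (⟨l, m⟩ : ZI)

theorem TT1_ge {M A1 A2 Q1 Q2 : ℝ} (hM : 1 ≤ M) (hQ : 2 * M ^ 2 < Q1 ^ 2) (hQ0 : 0 < Q1) (hMQ : M ≤ Q1)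
    {l : ℤ} (hl : 1 ≤ l) (hlM : (l : ℝ) ≤ M) :
    UU1 M A1 A2 Q1 Q2 1 l - 1 / 4 * ∑ p ∈ PiS (Real.sqrt (2 * M)), UU1 M A1 A2 Q1 Q2 (p * p) l ≤
      TT1 M A1 A2 Q1 Q2 l := by
  classical
  have e1 : UU1 M A1 A2 Q1 Q2 1 l - 1 / 4 * ∑ p ∈ PiS (Real.sqrt (2 * M)), UU1 M A1 A2 Q1 Q2 (p * p) l =
      ∑ m ∈ Icc ⌈-M⌉ ⌊M⌋, (if ct (⟨l, m⟩ : ZI) = 1 then Wt M A1 A2 Q1 Q2 (⟨l, m⟩ : ZI) *
        (1 - 1 / 4 * (∑ p ∈ PiS (Real.sqrt (2 * M)), if p * p ∣ (⟨l, m⟩ : ZI) then (1 : ℝ) else 0)) else 0) := by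
    unfold UU1
    rw [sum_comm, mul_sum, ← sum_sub_distrib]
    apply sum_congr rfl
    intro m _
    by_cases h : ct (⟨l, m⟩ : ZI) = 1
    · rw [if_pos ⟨h, one_dvd _⟩, if_pos h, mul_sub, mul_one]
      congr 1
      rw [← mul_assoc, mul_comm (Wt M A1 A2 Q1 Q2 _) (1 / 4), mul_assoc]
      congr 1
      rw [mul_sum]
      apply sum_congr rfl
      intro p _
      by_cases h2 : p * p ∣ (⟨l, m⟩ : ZI)
      · rw [if_pos ⟨h, h2⟩, if_pos h2, mul_one]
      · rw [if_neg (fun h' => h2 h'.2), if_neg h2, mul_zero]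
    · rw [if_neg (fun h' => h h'.1), if_neg h]
      rw [sum_eq_zero (fun p _ => if_neg (fun h' => h h'.1))]
      ring
  rw [e1]
  unfold TT1
  apply sum_le_sum
  intro m hm
  rw [mem_Icc, Int.ceil_le, Int.le_floor] at hm
  have hW := Wt_nonneg hM A1 A2 Q1 Q2 (⟨l, m⟩ : ZI)
  have hnn : 0 ≤ (be 1 (⟨l, m⟩ : ZI)) ^ 2 * Wt M A1 A2 Q1 Q2 (⟨l, m⟩ : ZI) := mul_nonneg (sq_nonneg _) hW
  split_ifs with h
  · by_cases hW0 : Wt M A1 A2 Q1 Q2 (⟨l, m⟩ : ZI) = 0
    · rw [hW0]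
      simp
    · have h1 : nz (⟨l, m⟩ : ZI) ≤ 2 * M ^ 2 := by
        rw [nz_eq]
        simp only
        have a1 : (l : ℝ) ^ 2 ≤ M ^ 2 := by
          have : (0 : ℝ) ≤ l := by exact_mod_cast (by omega : (0 : ℤ) ≤ l)
          gcongr
        have a2 : (m : ℝ) ^ 2 ≤ M ^ 2 := sq_le_sq' hm.1 hm.2
        linarith
      have h2 := sq_lower (by linarith) hQ hQ0 hMQ h h1 hW0
      rw [mul_comm]
      exact mul_le_mul_of_nonneg_right h2 hW
  · exact hnn

theorem UU1_nonneg {M : ℝ} (hM : 1 ≤ M) (A1 A2 Q1 Q2 : ℝ) (b0 : ZI) (l : ℤ) : 0 ≤ UU1 M A1 A2 Q1 Q2 b0 l := by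
  classical
  unfold UU1
  apply sum_nonneg
  intro m _
  split_ifs
  · exact Wt_nonneg hM _ _ _ _ _
  · exact le_rfl

/-- not coprime -/
theorem UU1_zero {M A1 A2 Q1 Q2 : ℝ} {p : ZI} (hp : (Zsqrtd.norm p).natAbs.Prime) {l : ℕ}
    (h : ¬ Nat.Coprime l (Zsqrtd.norm (p * p)).natAbs) : UU1 M A1 A2 Q1 Q2 (p * p) l = 0 := by
  classical
  set q := (Zsqrtd.norm p).natAbs with hq
  have h1 : q ∣ l := by
    rw [Zsqrtd.norm_mul, Int.natAbs_mul, ← hq] at h
    by_contra hd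
    apply h
    have h2 : Nat.Coprime l q := ((Nat.Prime.coprime_iff_not_dvd hp).2 hd).symm
    exact Nat.Coprime.mul_right h2 h2
  unfold UU1
  apply sum_eq_zero
  intro m _
  rw [if_neg]
  rintro ⟨h2, h3⟩
  -- `q` divides `l² + m²`, hence `m`
  obtain ⟨c, hc⟩ := (dvd_mul_right p p).trans h3
  have h4 : (q : ℤ) ∣ (l : ℤ) ^ 2 + m ^ 2 := by
    have h5 : Zsqrtd.norm (⟨(l : ℤ), m⟩ : ZI) = Zsqrtd.norm p * Zsqrtd.norm c := by rw [hc, Zsqrtd.norm_mul]
    rw [Zsqrtd.norm_def] at h5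
    simp only at h5
    have h6 : (q : ℤ) = Zsqrtd.norm p := norm_nat p
    refine ⟨Zsqrtd.norm c, ?_⟩
    rw [h6]
    linarith
  have h5 : (q : ℤ) ∣ (l : ℤ) := by exact_mod_cast h1
  have h6 : (q : ℤ) ∣ m ^ 2 := by
    have h7 : (q : ℤ) ∣ (l : ℤ) ^ 2 := h5.trans (dvd_pow_self _ (by norm_num))
    exact (Int.dvd_add_right h7).1 h4
  have hqp : Prime (q : ℤ) := Nat.prime_iff_prime_int.1 hp
  have h7 : (q : ℤ) ∣ m := hqp.dvd_of_dvd_pow h6
  have h8 : ((q : ℕ) : ZI) ∣ (⟨(l : ℤ), m⟩ : ZI) := by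
    rw [Pool.Agent.N864.GN.MB.nat_dvd_iff]
    exact ⟨h5, h7⟩
  rw [Pool.Agent.N864.GN.MB.dvd_ct, h2] at h8
  exact hp.one_lt.ne' (Nat.dvd_one.1 h8)

/-- the trivial bound -/
theorem UU1_triv (hm : S_MUB) {M A1 A2 Q1 Q2 : ℝ} (hM : 3 ≤ M) (hQ : 2 * M ^ 2 < Q1 ^ 2) (hQ0 : 0 < Q1)
    {b0 : ZI} (hb0 : b0 ≠ 0) (hcb : ct b0 = 1) {l : ℤ} (hl : 1 ≤ l) (hlM : (l : ℝ) ≤ M) :
    UU1 M A1 A2 Q1 Q2 b0 l ≤ 4 * (2 * M / nz b0 + 1) := by
  classical
  have h1 : UU1 M A1 A2 Q1 Q2 b0 l ≤ 4 * nm M b0 l := by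
    unfold UU1 nm
    rw [← sum_boole, mul_sum]
    apply sum_le_sum
    intro m hm'
    rw [mem_Icc, Int.ceil_le, Int.le_floor] at hm'
    by_cases h : b0 ∣ (⟨l, m⟩ : ZI)
    · rw [if_pos h, mul_one]
      split_ifs
      · apply Wt_le hm hM hQ hQ0
        · intro h0
          have := congrArg Zsqrtd.re h0
          simp at this
          omega
        · rw [nz_eq]
          simp only
          have a1 : (l : ℝ) ^ 2 ≤ M ^ 2 := by
            have : (0 : ℝ) ≤ l := by exact_mod_cast (by omega : (0 : ℤ) ≤ l)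
            gcongr
          have a2 : (m : ℝ) ^ 2 ≤ M ^ 2 := sq_le_sq' hm'.1 hm'.2
          linarith
      · norm_num
    · rw [if_neg (fun h' => h h'.2), if_neg h, mul_zero]
  have h2 := Pool.Agent.N458.GN.nm_triv hb0 (ν := nu b0) (Pool.Agent.N7.GN.Rls.rls.1 b0 hcb)
    (show 0 ≤ M by linarith) l
  rw [abs_le] at h2
  linarith

end Pool.Agent.J4.H69
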