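import Pool.Agent.N391.GN.TG

/-!
# The dispersion theorem of the project GN (helper391) with a relaxed condition on `R`

`S_TG` needs `R ≥ (M / L) M ^ ε`; here only `R ^ 2 ≥ (M / L) M ^ ε` is assumed. The proof is that of
`Pool.Agent.N391.GN.tg`.
-/

set_option autoImplicit false

namespace Pool.Agent.J4.H69

open Finset Pool.Agent.N782.GN Pool.Agent.N391.GN

/-- (TG2) the dispersion with a relaxed condition on `R` -/
def S_TG2 : Prop := ∀ (ε : ℝ) (A B : ℕ), 0 < ε → ∃ (A' B' : ℕ) (C : ℝ), 0 < C ∧ ∀ (M L R P D : ℝ) (β : ZI → ℝ)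
  (lam : ℤ → ℝ), 3 ≤ M → 1 ≤ L → L ≤ M ^ (1 - ε) → 1 ≤ R → M / L * M ^ ε ≤ R ^ 2 → R ^ 2 ≤ M ^ (1 - ε) →
  M / (Real.log M) ^ B ≤ R * P → R * P ≤ M → 1 ≤ D → D ≤ (Real.log M) ^ B →
  (∀ w, |β w| ≤ 1) → (∀ w, ct w ≠ 1 → β w = 0) → Lm L lam →
  (∀ (q : ℕ) (r : ZI) (Y1 Y2 : ℝ), 1 ≤ q → (q : ℝ) ≤ (Real.log M) ^ B' → 0 ≤ Y1 → Y1 ≤ Y2 → Y2 ≤ 4 * R ^ 2 →
    ∫ x in (0 : ℝ)..(2 * Real.pi), (∑ t ∈ (cls q r Y2).filter (fun t => Y1 < nz t),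
      β t * sc (L / M / (Real.log M) ^ B') x t) ^ 2 ≤ (L / M) ^ 2 * R ^ 4 / (Real.log M) ^ A') →
  ∑ v ∈ bl (9 * P ^ 2), Phi (Real.sqrt (nz v) / P) * (∑ w ∈ (bl (4 * R ^ 2)).filter (fun w => R ^ 2 < nz w),
    β w * lam (w * v).re * psi D (Real.sqrt (nz (w * v)) / M)) ^ 2 ≤ C * L ^ 2 * R ^ 2 / (Real.log M) ^ A

/-- elementary consequences of the hypotheses -/
theorem facts2 {M L R P m ℓ : ℝ} {A B : ℕ} (hM : 0 < M) (hL1 : 1 ≤ L) (hR1 : 1 ≤ R) (hP : 0 < P) (hm1 : 1 ≤ m)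
    (hℓ1 : 1 ≤ ℓ) (hLm : L * m ≤ M) (hRL : M * m ≤ R ^ 2 * L) (hR2m : R ^ 2 * m ≤ M) (hRP : R * P ≤ M)
    (hMRP : M ≤ R * P * ℓ ^ B) (hmA : 64 * ℓ ^ A ≤ m) (hmB : 64 * ℓ ^ B ≤ m) :
    R ≤ P ∧ R * L * P ≤ R ^ 2 * L ^ 2 / ℓ ^ A ∧ R ^ 2 * L / M ≤ R * L / P ∧
      R * L / P ≤ L * ℓ ^ B / m ∧ 1 ≤ R * L / P ∧ 8 * (R * L / P) ≤ L ∧ 8 * L / (P * R) ≤ 1 := by
  have hL : 0 < L := by linarith
  have hR : 0 < R := by linarith
  have hm0 : 0 < m := by linarith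
  have hℓ0 : 0 < ℓ := by linarith
  have hℓB : 0 < ℓ ^ B := by positivity
  have hℓA : 0 < ℓ ^ A := by positivity
  have hRP' : R ≤ P := by
    have c1 : R ^ 2 * m ≤ R * P * m := by
      have c2 : ℓ ^ B ≤ m := by linarith
      have c3 : R * P * ℓ ^ B ≤ R * P * m := mul_le_mul_of_nonneg_left c2 (by positivity)
      linarith
    have c4 : R ^ 2 ≤ R * P := le_of_mul_le_mul_right c1 hm0
    have c5 : R * R ≤ R * P := by linarith [sq R]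
    exact le_of_mul_le_mul_left c5 hR
  have hD0M : R ^ 2 * L / M ≤ R * L / P := by
    rw [div_le_div_iff₀ hM hP]
    have c1 := mul_le_mul_of_nonneg_left hRP (by positivity : 0 ≤ R * L)
    linarith [show R ^ 2 * L * P = R * L * (R * P) by ring]
  have hD0m : R * L / P ≤ L * ℓ ^ B / m := by
    rw [div_le_div_iff₀ hP hm0]
    have c0 := mul_le_mul_of_nonneg_left (hR2m.trans hMRP) hL.le
    have c1 : R * (R * L * m) ≤ R * (L * ℓ ^ B * P) := by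
      linarith [show R * (R * L * m) = L * (R ^ 2 * m) by ring,
        show R * (L * ℓ ^ B * P) = L * (R * P * ℓ ^ B) by ring]
    exact le_of_mul_le_mul_left c1 hR
  have hD0ge : 1 ≤ R * L / P := by
    refine le_trans ?_ hD0M
    rw [le_div_iff₀ hM, one_mul]
    have c2 : M * 1 ≤ M * m := mul_le_mul_of_nonneg_left hm1 hM.le
    linarith
  refine ⟨hRP', ?_, hD0M, hD0m, hD0ge, ?_, ?_⟩
  · rw [le_div_iff₀ hℓA]
    have c2 : ℓ ^ A ≤ m := by linarith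
    have c3 : R * L * P * ℓ ^ A ≤ R * L * P * m := mul_le_mul_of_nonneg_left c2 (by positivity)
    have c4 : (R * P) * (L * m) ≤ M * (L * m) := mul_le_mul_of_nonneg_right hRP (by positivity)
    have c5 : L * (M * m) ≤ L * (R ^ 2 * L) := mul_le_mul_of_nonneg_left hRL hL.le
    linarith [show R * L * P * m = (R * P) * (L * m) by ring, show M * (L * m) = L * (M * m) by ring,
      show L * (R ^ 2 * L) = R ^ 2 * L ^ 2 by ring]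
  · have c2 : L * ℓ ^ B / m ≤ L / 64 := by
      rw [div_le_div_iff₀ hm0 (by norm_num)]
      have := mul_le_mul_of_nonneg_left hmB hL.le
      linarith
    linarith
  · rw [div_le_one (by positivity)]
    have c2 : 8 * L * ℓ ^ B ≤ P * R * ℓ ^ B := by
      have c3 := mul_le_mul_of_nonneg_left hmB hL.le
      have c4 : 0 ≤ L * ℓ ^ B := by positivity
      linarith [show P * R * ℓ ^ B = R * P * ℓ ^ B by ring]
    exact le_of_mul_le_mul_right c2 hℓB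

/-- the case of large `M` -/
theorem large_case2 (h1 : S_CHR) {C1 C3 C4 : ℝ} (hC1 : 0 < C1) (hC3 : 0 < C3) (hC4 : 1 ≤ C4)
    {A B : ℕ} {M L R P D m ℓ : ℝ} {β : ZI → ℝ} {lam : ℤ → ℝ}
    (hc1 : ((cw R).card : ℝ) ≤ C1 * R ^ 2)
    (hc2 : ∀ w ∈ cw R, ∀ D : ℤ, (((cw R).filter (fun w2 => dl w w2 = D)).card : ℝ) ≤ C1)
    (hc3 : R ≤ P → ∀ w ∈ cw R, (((bl (9 * P ^ 2)).filter
      (fun v => 1 ≤ (w * v).re ∧ (((w * v).re : ℤ) : ℝ) ≤ L)).card : ℝ) ≤ C1 * L * P / R)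
    (hbil : ∀ (s δ η E κ₁ D1 x y : ℝ) (Q n : ℕ) (x1 x2 : ℤ), 0 < s → s ≤ 1 → 1 ≤ s * R ^ 2 → 0 < δ →
      0 < η → η ≤ 1 / 100 → δ ≤ η → 0 ≤ E → 1 ≤ Q → 1 ≤ n → R ^ 2 * δ ≤ η * (R * L / P) → 0 < D1 →
      D1 ≤ R * L / P → 0 ≤ x → x ≤ L → 0 ≤ y → y ≤ L → s = 8 * L / (P * R) → δ = L / M / ℓ ^ (10 * A + B + 5) →
      E = (L / M) ^ 2 * R ^ 4 / ℓ ^ (47 * A + 4 * B + 25) → (Q : ℝ) ≤ ℓ ^ (10 * A + B + 5) →
      κ₁ = C4 * D * η * (R * L / P) ^ 3 / D1 ^ 4 →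
      |∑ w1 ∈ cw R, ∑ w2 ∈ cw R, β w1 * β w2 * (|(dl w1 w2 : ℝ)| * Kf D M P D1 x y w1 w2) *
        A2 lam (Ioc x1 (x1 + n)) (Ioc x2 (x2 + n)) w1 w2| ≤
      C3 * (R ^ 2 * (1 + Real.log (s * R ^ 2)) * (s * R ^ 2 * n + (n : ℝ) ^ 2 / Q) +
        (Q : ℝ) ^ 5 * (n : ℝ) ^ 2 * (κ₁ * R ^ 2 * ((s + δ) * R ^ 2) + 1 / D1 * s * E / (δ ^ 2 * η ^ 2))))
    (hM : 0 < M) (hL1 : 1 ≤ L) (hR1 : 1 ≤ R) (hP : 0 < P) (hm1 : 1 ≤ m)
    (hℓ1 : 100 ≤ ℓ) (hLm : L * m ≤ M) (hRL : M * m ≤ R ^ 2 * L) (hR2m : R ^ 2 * m ≤ M) (hRP : R * P ≤ M)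
    (hMRP : M ≤ R * P * ℓ ^ B) (hmK : 64 * ℓ ^ (3 * A + 2 * B + 3) ≤ m) (hlogM : Real.log M ≤ ℓ)
    (hD1 : 1 ≤ D) (hD : D ≤ ℓ ^ B)
    (hβ : ∀ w, |β w| ≤ 1) (hβ1 : ∀ w, ct w ≠ 1 → β w = 0) (hlam : Lm L lam) :
    TT M R P D β lam ≤ (5 * C1 ^ 3 + 384 * C1 ^ 2 + C3 * (49 + 36 * C4)) * (L ^ 2 * R ^ 2 / ℓ ^ A) := by
  have hL : 0 < L := by linarith
  have hR : 0 < R := by linarith
  have hm0 : 0 < m := by linarith
  have hℓ0 : 0 < ℓ := by linarith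
  have hℓ1' : 1 ≤ ℓ := by linarith
  have pw : ∀ a b : ℕ, a ≤ b → ℓ ^ a ≤ ℓ ^ b := fun a b h => pow_le_pow_right₀ hℓ1' h
  have hmp : ∀ a : ℕ, a ≤ 3 * A + 2 * B + 3 → 64 * ℓ ^ a ≤ m := fun a ha =>
    le_trans (mul_le_mul_of_nonneg_left (pw _ _ ha) (by norm_num)) hmK
  obtain ⟨hRP', hRLP, hD0M, hD0m, hD0ge, h8, hs1⟩ := facts2 hM hL1 hR1 hP hm1 hℓ1' hLm hRL hR2m hRP hMRP
    (hmp A (by omega)) (hmp B (by omega))
  have hℓB : 0 < ℓ ^ B := by positivity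
  have hℓA : 0 < ℓ ^ A := by positivity
  have hD0pos : 0 < R * L / P := by linarith
  have h81 : 1 ≤ 8 * (R * L / P) := by linarith
  have hJpos : 0 < ℓ ^ (2 * A + B + 2) := by positivity
  obtain ⟨J, hJ1, hJ2⟩ : ∃ J : ℕ, ℓ ^ (2 * A + B + 2) ≤ J ∧ (J : ℝ) ≤ 2 * ℓ ^ (2 * A + B + 2) := by
    refine ⟨⌈ℓ ^ (2 * A + B + 2)⌉₊, Nat.le_ceil _, ?_⟩
    have c1 := (Nat.ceil_lt_add_one hJpos.le).le
    have c2 : 1 ≤ ℓ ^ (2 * A + B + 2) := one_le_pow₀ hℓ1'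
    linarith
  have hJ0 : (0 : ℝ) < J := hJpos.trans_le hJ1
  have hJL : (J : ℝ) ≤ L := by
    have c1 : 64 * ℓ ^ (B + (2 * A + B + 2)) ≤ m := hmp _ (by omega)
    have c2 : m ≤ L * ℓ ^ B := by
      have := (le_div_iff₀ hm0).1 (hD0ge.trans hD0m)
      linarith
    have c3 : 64 * ℓ ^ (2 * A + B + 2) * ℓ ^ B ≤ L * ℓ ^ B := by
      refine le_trans (le_of_eq ?_) (c1.trans c2)
      rw [pow_add ℓ B]
      ring
    have c4 := le_of_mul_le_mul_right c3 hℓB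
    linarith
  have hLJ : 1 ≤ L / J := (one_le_div hJ0).2 hJL
  obtain ⟨n, hn0, hn1, hn2⟩ : ∃ n : ℕ, 1 ≤ n ∧ (n : ℝ) ≤ 2 * (L / J) ∧ L / J ≤ n := by
    refine ⟨⌊L / J⌋₊ + 1, by omega, ?_, ?_⟩
    · push_cast
      have := Nat.floor_le (by positivity : 0 ≤ L / J)
      linarith
    · push_cast
      exact (Nat.lt_floor_add_one _).le
  have hJn : (J : ℝ) * n ≤ 2 * L := by
    have := mul_le_mul_of_nonneg_left hn1 hJ0.le
    have e : (J : ℝ) * (2 * (L / J)) = 2 * L := by field_simp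
    linarith
  have hJnL : L ≤ ((J * n : ℕ) : ℝ) := by
    push_cast
    have := mul_le_mul_of_nonneg_left hn2 hJ0.le
    have e : (J : ℝ) * (L / J) = L := by field_simp
    linarith
  have hQpos : 1 ≤ ℓ ^ (A + 1) := one_le_pow₀ hℓ1'
  obtain ⟨Q, hQ1', hQ2, hQ1⟩ : ∃ Q : ℕ, 1 ≤ Q ∧ (Q : ℝ) ≤ ℓ ^ (A + 1) ∧ ℓ ^ (A + 1) / 2 ≤ Q := by
    have hQ1' : 1 ≤ ⌊ℓ ^ (A + 1)⌋₊ := Nat.le_floor (by exact_mod_cast hQpos)
    refine ⟨⌊ℓ ^ (A + 1)⌋₊, hQ1', Nat.floor_le (by positivity), ?_⟩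
    have c1 := (Nat.lt_floor_add_one (ℓ ^ (A + 1))).le
    have c2 : (1 : ℝ) ≤ (⌊ℓ ^ (A + 1)⌋₊ : ℝ) := by exact_mod_cast hQ1'
    linarith
  have hlg0 : 0 ≤ 1 + Real.log (8 * (R * L / P)) := by
    have := Real.log_nonneg h81
    linarith
  have hlg : 1 + Real.log (8 * (R * L / P)) ≤ 2 * ℓ := by
    have c1 : Real.log (8 * (R * L / P)) ≤ ℓ := by
      refine (Real.log_le_log (by linarith) (h8.trans ?_)).trans hlogM
      have := mul_le_mul_of_nonneg_left hm1 hL.le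
      linarith
    linarith
  have hsR : 8 * L / (P * R) * R ^ 2 = 8 * (R * L / P) := by field_simp
  have hη1 : 1 / ℓ ^ (10 * A + B + 5) ≤ 1 / 100 := by
    refine one_div_le_one_div_of_le (by norm_num) ?_
    have : ℓ ^ 1 ≤ ℓ ^ (10 * A + B + 5) := pw _ _ (by omega)
    rw [pow_one] at this
    linarith
  have hLM1 : L / M ≤ 1 := by
    rw [div_le_one hM]
    have := mul_le_mul_of_nonneg_left hm1 hL.le
    linarith
  have hη0 : 0 < 1 / ℓ ^ (10 * A + B + 5) := by positivity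
  have hδη : L / M / ℓ ^ (10 * A + B + 5) ≤ 1 / ℓ ^ (10 * A + B + 5) :=
    div_le_div_of_nonneg_right hLM1 (by positivity)
  have hRδ : R ^ 2 * (L / M / ℓ ^ (10 * A + B + 5)) ≤ 1 / ℓ ^ (10 * A + B + 5) * (R * L / P) := by
    have e : R ^ 2 * (L / M / ℓ ^ (10 * A + B + 5)) =
        1 / ℓ ^ (10 * A + B + 5) * (R ^ 2 * L / M) := by ring
    rw [e]
    exact mul_le_mul_of_nonneg_left hD0M hη0.le
  have hD1D0 : R * L / P / ℓ ^ A ≤ R * L / P := div_le_self hD0pos.le (one_le_pow₀ hℓ1')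
  have hD1pos : 0 < R * L / P / ℓ ^ A := by positivity
  have hX : ∀ i ∈ range J, ∀ j ∈ range J, |∑ w1 ∈ cw R, ∑ w2 ∈ cw R, β w1 * β w2 *
      (|(dl w1 w2 : ℝ)| * Kf D M P (R * L / P / ℓ ^ A) (xe L n i) (xe L n j) w1 w2) *
      A2 lam (Ioc ((i * n : ℕ) : ℤ) ((i * n : ℕ) + n)) (Ioc ((j * n : ℕ) : ℤ) ((j * n : ℕ) + n)) w1 w2| ≤ _ :=
    fun i _ j _ => hbil (8 * L / (P * R)) (L / M / ℓ ^ (10 * A + B + 5)) (1 / ℓ ^ (10 * A + B + 5))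
      ((L / M) ^ 2 * R ^ 4 / ℓ ^ (47 * A + 4 * B + 25)) _ (R * L / P / ℓ ^ A) (xe L n i) (xe L n j) Q n
      ((i * n : ℕ) : ℤ) ((j * n : ℕ) : ℤ) (by positivity) hs1 (by rw [hsR]; exact h81) (by positivity)
      hη0 hη1 hδη (by positivity) hQ1' hn0 hRδ hD1pos hD1D0 (xe_nonneg hL.le n i) (xe_le L n i)
      (xe_nonneg hL.le n j) (xe_le L n j) rfl rfl rfl (hQ2.trans (pw _ _ (by omega))) rfl
  have hcore := core (D := D) (M := M) h1 hC1.le hD1pos hR hM hP hL hD1 hRP h8 h81 hc1 hc2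
    (hc3 hRP') hβ hβ1 hlam J n hJnL hX
  have hnum := numeric (C1 := C1) (C3 := C3) (C4 := C4) (lg := Real.log (8 * (R * L / P))) (A := A) (B := B)
    (J := J) (n := n) (Q := Q) (D := D) hC1 hC3 hC4 hℓ1 hmK hL1 hM hR1 hP hRLP hD0m hD0M hD1 hD hJ1 hJ2
    hJn hQ1 hQ2 hlg0 hlg
  rw [hsR] at hcore hnum
  exact hcore.trans hnum

open Classical in
theorem tg2 (h1 : S_CHR) (h2 : S_CNT) (h3 : S_BIL) (h4 : S_LIP) : S_TG2 := by
  intro ε A B hε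
  obtain ⟨C1, hC1, hcnt⟩ := h2
  obtain ⟨C3, hC3, hbil⟩ := h3
  obtain ⟨C4, hC4, hlip⟩ := h4
  obtain ⟨M0, hM03, hlarge⟩ := large ε hε (3 * A + 2 * B + 3)
  obtain ⟨N1, hN1⟩ : ∃ N1 : ℝ, N1 = ((bl (9 * M0 ^ 2)).card : ℝ) := ⟨_, rfl⟩
  obtain ⟨N2, hN2⟩ : ∃ N2 : ℝ, N2 = ((bl (4 * M0)).card : ℝ) := ⟨_, rfl⟩
  obtain ⟨CL, hCL⟩ : ∃ CL : ℝ, CL = 5 * C1 ^ 3 + 384 * C1 ^ 2 + C3 * (49 + 36 * C4) := ⟨_, rfl⟩
  have hN10 : 0 ≤ N1 := by rw [hN1]; positivity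
  have hN20 : 0 ≤ N2 := by rw [hN2]; positivity
  have hCL0 : 0 < CL := by rw [hCL]; positivity
  have hlogM0 : 0 ≤ Real.log M0 := Real.log_nonneg (by linarith)
  refine ⟨47 * A + 4 * B + 25, 10 * A + B + 5, CL + N1 * N2 ^ 2 * Real.log M0 ^ A, by positivity, ?_⟩
  intro M L R P D β lam hM3 hL1 hLM hR1 hMR hR2 hRPl hRP hD1 hD hβ hβ1 hlam hMB
  change TT M R P D β lam ≤ _
  have hM : 0 < M := by linarith
  have hL : 0 < L := by linarith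
  have hm1 : 1 ≤ M ^ ε := Real.one_le_rpow (by linarith) hε.le
  have hm0 : 0 < M ^ ε := by linarith
  have hMsub : M ^ (1 - ε) = M / M ^ ε := by
    rw [Real.rpow_sub hM, Real.rpow_one]
  rw [hMsub] at hLM hR2
  have hℓ1 : 1 ≤ Real.log M := by
    rw [Real.le_log_iff_exp_le hM]
    have := Real.exp_one_lt_d9
    linarith
  have hLm : L * M ^ ε ≤ M := (le_div_iff₀ hm0).1 hLM
  have hRL : M * M ^ ε ≤ R ^ 2 * L := by
    have : M / L * M ^ ε * L ≤ R ^ 2 * L := mul_le_mul_of_nonneg_right hMR hL.le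
    have e : M / L * M ^ ε * L = M * M ^ ε := by field_simp
    linarith
  have hR : 0 < R := by linarith
  have hP : 0 < P := by
    have h0 : 0 < R * P := lt_of_lt_of_le (by positivity) hRPl
    exact (pos_iff_pos_of_mul_pos h0).1 hR
  rcases lt_or_ge M M0 with hsmall | hbig
  · -- bounded `M`
    have a1 : P ≤ M0 := by
      have := mul_le_mul_of_nonneg_right hR1 hP.le
      linarith
    have a2 : 9 * P ^ 2 ≤ 9 * M0 ^ 2 := by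
      have := pow_le_pow_left₀ hP.le a1 2
      linarith
    have a3 : 4 * R ^ 2 ≤ 4 * M0 := by
      have : R ^ 2 ≤ M := hR2.trans (div_le_self hM.le hm1)
      linarith
    have a4 := TT_trivial (M := M) (D := D) hβ hlam.1 (9 * M0 ^ 2) (4 * M0) a2 a3
    rw [← hN1, ← hN2] at a4
    refine a4.trans ?_
    have a5 : Real.log M ^ A ≤ Real.log M0 ^ A :=
      pow_le_pow_left₀ (by linarith) (Real.log_le_log hM hsmall.le) A
    have a6 : 1 ≤ L ^ 2 * R ^ 2 := one_le_mul_of_one_le_of_one_le (one_le_pow₀ hL1) (one_le_pow₀ hR1)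
    have hℓA : 0 < Real.log M ^ A := by positivity
    rw [mul_assoc _ (L ^ 2), le_div_iff₀ hℓA]
    have b1 : N1 * N2 ^ 2 * Real.log M ^ A ≤ N1 * N2 ^ 2 * Real.log M0 ^ A :=
      mul_le_mul_of_nonneg_left a5 (by positivity)
    have b3 : (CL + N1 * N2 ^ 2 * Real.log M0 ^ A) * 1 ≤
        (CL + N1 * N2 ^ 2 * Real.log M0 ^ A) * (L ^ 2 * R ^ 2) :=
      mul_le_mul_of_nonneg_left a6 (by positivity)
    linarith
  · -- large `M`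
    obtain ⟨hℓ100, hmK⟩ := hlarge M hbig
    obtain ⟨hc1, hc2, hc3⟩ := hcnt R hR1
    have hℓB : 0 < Real.log M ^ B := by positivity
    have hfin := large_case2 (m := M ^ ε) (ℓ := Real.log M) (A := A) (B := B) (D := D) (P := P) (L := L)
      h1 hC1 hC3 hC4 hc1 hc2 (fun h w hw => hc3 w hw P L h hL1) ?_ hM hL1 hR1 hP hm1 hℓ100
      hLm hRL ((le_div_iff₀ hm0).1 hR2) hRP ((div_le_iff₀ hℓB).1 hRPl) hmK le_rfl hD1 hD hβ hβ1 hlam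
    · refine hfin.trans ?_
      have e : (CL + N1 * N2 ^ 2 * Real.log M0 ^ A) * L ^ 2 * R ^ 2 / Real.log M ^ A =
          (CL + N1 * N2 ^ 2 * Real.log M0 ^ A) * (L ^ 2 * R ^ 2 / Real.log M ^ A) := by ring
      rw [← hCL, e]
      have h5 : (0 : ℝ) ≤ L ^ 2 * R ^ 2 / Real.log M ^ A := by positivity
      refine mul_le_mul_of_nonneg_right ?_ h5
      have : 0 ≤ N1 * N2 ^ 2 * Real.log M0 ^ A := by positivity
      linarith
    · intro s δ η E κ₁ D1 x y Q n x1 x2 hs0 hs1 hsR hδ0 hη0 hη1 hδη hE0 hQ hn hRδ hD10 hD1D0 hx0 hxL hy0 hyL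
        hs hδ hE hQl hκ
      obtain ⟨g1, g2⟩ := hlip D M P D1 x y R L δ η hD1 hR1 hP hL hD10 hRP hD1D0 hx0 hxL hy0 hyL
        hη0 hη1 hδ0 hδη hRδ
      rw [← hs, ← hκ] at g1
      have hκ0 : 0 ≤ κ₁ := by
        rw [hκ]
        have : 0 < D := by linarith
        positivity
      refine hbil R (1 / D1) κ₁ s δ η E Q n x1 x2 (Kf D M P D1 x y) β lam hR1 hs0 hs1 hsR
        hδ0 (hδη.trans hη1) hη0 hη1 (by positivity) hκ0 hE0 hQ hn g1 g2 hβ hlam.1 ?_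
      intro q r Y1 Y2 hq hqQ hY1 hY12 hY2
      have c1 : (q : ℝ) ≤ Real.log M ^ (10 * A + B + 5) := by
        have c2 : (q : ℝ) ≤ Q := by exact_mod_cast hqQ
        exact c2.trans hQl
      have c3 := hMB q r Y1 Y2 hq c1 (le_trans (sq_nonneg R) hY1) hY12 hY2
      rw [← hδ, ← hE] at c3
      refine le_trans (le_of_eq ?_) c3
      refine intervalIntegral.integral_congr fun z _ => ?_
      exact congrArg (fun y : ℝ => y ^ 2) (mb_sum hβ1 q r Y1 Y2 hY1 hY2 (sc δ z))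

end Pool.Agent.J4.H69
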