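import Pool.Agent.J4.H69.Cst
import Pool.Agent.N458.GN.TI

/-!
# The weight on average: linear sums
-/

set_option autoImplicit false

namespace Pool.Agent.J4.H69

open Finset Filter Topology
open Pool.Agent.N782.GN
open Pool.Agent.N855.GN (Dv mem_Dv logpow nz_one_le one_le_log)
open Pool.Agent.N277.GN (ct_nat_mul abs_be_le card_bl nz_pos nz_natCast)
open Pool.Agent.H304R3.HK (UH bb LamK CS)

/-- the content of a product -/
theorem ct_mul {x y : ZI} (hx : ct x = 1) (hy : ct y = 1)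
    (h : Nat.Coprime (Zsqrtd.norm x).natAbs (Zsqrtd.norm y).natAbs) : ct (x * y) = 1 := by
  by_contra hne
  obtain ⟨g, hg, hgd⟩ := Nat.exists_prime_and_dvd hne
  have h3 : ((g : ℕ) : ZI) ∣ x * y := by
    rw [Pool.Agent.N864.GN.MB.dvd_ct]
    exact hgd
  -- `g` does not divide one of the norms
  have h4 : ∀ a b : ZI, ct a = 1 → ((g : ℕ) : ZI) ∣ a * b → ¬ g ∣ (Zsqrtd.norm b).natAbs → False := by
    intro a b ha hab hb
    have h5 : Nat.Coprime g (Zsqrtd.norm b).natAbs := (Nat.Prime.coprime_iff_not_dvd hg).2 hb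
    have h6 : IsCoprime ((g : ℕ) : ZI) (((Zsqrtd.norm b).natAbs : ℕ) : ZI) := by
      have h7 := (Nat.isCoprime_iff_coprime.2 h5)
      have h8 := h7.map (Int.castRingHom ZI)
      simpa using h8
    rw [← mul_star_self b] at h6
    have h7 : ((g : ℕ) : ZI) ∣ a := (IsCoprime.of_mul_right_left h6).dvd_of_dvd_mul_right hab
    rw [Pool.Agent.N864.GN.MB.dvd_ct, ha] at h7
    exact hg.one_lt.ne' (Nat.dvd_one.1 h7)
  by_cases h5 : g ∣ (Zsqrtd.norm y).natAbs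
  · have h6 : ¬ g ∣ (Zsqrtd.norm x).natAbs := by
      intro h6
      have := Nat.dvd_gcd h6 h5
      rw [h.gcd_eq_one] at this
      exact hg.one_lt.ne' (Nat.dvd_one.1 this)
    exact h4 y x hy (by rw [mul_comm]; exact h3) h6
  · exact h4 x y hx h3 h5

theorem ct_of_prime {a : ZI} (ha : (Zsqrtd.norm a).natAbs.Prime) : ct a = 1 := by
  by_contra hne
  obtain ⟨g, hg, hgd⟩ := Nat.exists_prime_and_dvd hne
  have h3 : ((g : ℕ) : ZI) ∣ a := by
    rw [Pool.Agent.N864.GN.MB.dvd_ct]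
    exact hgd
  obtain ⟨c, rfl⟩ := h3
  have h4 : (Zsqrtd.norm (((g : ℕ) : ZI) * c)).natAbs = g * g * (Zsqrtd.norm c).natAbs := by
    rw [Zsqrtd.norm_mul, Int.natAbs_mul]
    simp [Zsqrtd.norm_def, Int.natAbs_mul]
  rw [h4, mul_assoc] at ha
  rcases Nat.prime_mul_iff.1 ha with ⟨-, h5⟩ | ⟨-, h5⟩
  · exact hg.one_lt.ne' (Nat.eq_one_of_mul_eq_one_right h5)
  · exact hg.one_lt.ne' h5

/-- the sum of the weights over the multiples of `b0` -/
noncomputable def XX (M A1 A2 Q1 Q2 X : ℝ) (b0 : ZI) (l : ℤ) : ℝ := by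
  classical
  exact ∑ m ∈ Icc ⌈-X⌉ ⌊X⌋, if b0 ∣ (⟨l, m⟩ : ZI) then Wt M A1 A2 Q1 Q2 (⟨l, m⟩ : ZI) else 0

/-- the constant of the main term -/
noncomputable def Gc (M A1 A2 Q1 Q2 : ℝ) : ℝ :=
  (∑ v ∈ bl Q2, al Q1 Q2 v / nz v) * (∑ a ∈ bl A2, lw A1 A2 a / nz a) / (12 * Real.log M)

theorem ds_bl {f : ZI → ℝ} {Z : ℝ} (hf : ∀ a, f a ≠ 0 → nz a ≤ Z) {z : ZI} (hz : z ≠ 0) :
    ds f z = ∑ a ∈ bl Z, open Classical in if a ∣ z then f a else 0 := by
  classical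
  unfold ds
  rw [← sum_filter, ← sum_filter_ne_zero, ← sum_filter_ne_zero (s := (bl Z).filter _)]
  apply sum_congr _ fun _ _ => rfl
  ext a
  rw [mem_filter, mem_filter, mem_filter, mem_Dv hz, mem_bl]
  constructor
  · rintro ⟨h1, h2⟩
    refine ⟨⟨⟨?_, hf a h2⟩, h1⟩, h2⟩
    rintro rfl
    exact hz (zero_dvd_iff.1 h1)
  · rintro ⟨⟨-, h1⟩, h2⟩
    exact ⟨h1, h2⟩

theorem XX_eq {M A1 A2 Q1 Q2 X : ℝ} {b0 : ZI} (hAQ : A2 ≤ Q1) (h1 : ∀ a, lw A1 A2 a ≠ 0 → IsCoprime a b0)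
    (h2 : ∀ v, al Q1 Q2 v ≠ 0 → IsCoprime v b0) {l : ℤ} (hl : 1 ≤ l) :
    XX M A1 A2 Q1 Q2 X b0 l =
      (∑ v ∈ bl Q2, ∑ a ∈ bl A2, al Q1 Q2 v * lw A1 A2 a * nm X (v * a * b0) l) / (12 * Real.log M) := by
  classical
  have hne : ∀ m : ℤ, (⟨l, m⟩ : ZI) ≠ 0 := by
    intro m h
    have := congrArg Zsqrtd.re h
    simp at this
    omega
  have key : ∀ m ∈ Icc ⌈-X⌉ ⌊X⌋, (if b0 ∣ (⟨l, m⟩ : ZI) then Wt M A1 A2 Q1 Q2 (⟨l, m⟩ : ZI) else 0) =
      (∑ v ∈ bl Q2, ∑ a ∈ bl A2, al Q1 Q2 v * lw A1 A2 a * (if v * a * b0 ∣ (⟨l, m⟩ : ZI) then 1 else 0)) /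
        (12 * Real.log M) := by
    intro m _
    by_cases hb : b0 ∣ (⟨l, m⟩ : ZI)
    · rw [if_pos hb]
      unfold Wt
      rw [ds_bl (Z := Q2) (fun v hv => (al_ne hv).2.2) (hne m), ds_bl (Z := A2) (fun a ha => (lw_ne ha).2.2) (hne m)]
      congr 1
      rw [sum_mul_sum]
      apply sum_congr rfl
      intro v _
      apply sum_congr rfl
      intro a _
      by_cases hv : al Q1 Q2 v = 0
      · rw [hv]
        simp
      by_cases ha : lw A1 A2 a = 0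
      · rw [ha]
        simp
      have hva : IsCoprime v a := by
        obtain ⟨p1, p2, p3⟩ := al_ne hv
        obtain ⟨p4, p5, p6⟩ := lw_ne ha
        apply cop_of_ne p1 p4
        linarith
      have hd : v * a * b0 ∣ (⟨l, m⟩ : ZI) ↔ v ∣ (⟨l, m⟩ : ZI) ∧ a ∣ (⟨l, m⟩ : ZI) := by
        constructor
        · intro h
          exact ⟨((dvd_mul_right v a).trans (dvd_mul_right _ _)).trans h,
            ((dvd_mul_left a v).trans (dvd_mul_right _ _)).trans h⟩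
        · rintro ⟨h3, h4⟩
          exact (IsCoprime.mul_left (h2 v hv) (h1 a ha)).mul_dvd (hva.mul_dvd h3 h4) hb
      by_cases h3 : v ∣ (⟨l, m⟩ : ZI)
      · by_cases h4 : a ∣ (⟨l, m⟩ : ZI)
        · rw [if_pos h3, if_pos h4, if_pos (hd.2 ⟨h3, h4⟩), mul_one]
        · rw [if_pos h3, if_neg h4, if_neg (fun h => h4 (hd.1 h).2)]
          ring
      · rw [if_neg h3, if_neg (fun h => h3 (hd.1 h).1)]
        ring
    · rw [if_neg hb]
      symm
      rw [div_eq_zero_iff]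
      left
      apply sum_eq_zero
      intro v _
      apply sum_eq_zero
      intro a _
      rw [if_neg (fun h => hb ((dvd_mul_left _ _).trans h)), mul_zero]
  unfold XX
  rw [sum_congr rfl key, ← sum_div]
  congr 1
  rw [sum_comm]
  apply sum_congr rfl
  intro v _
  rw [sum_comm]
  apply sum_congr rfl
  intro a _
  rw [← mul_sum]
  congr 1
  unfold nm
  rw [sum_boole]

/-- the grouping of the moduli -/
theorem group4 {M A1 A2 Q1 Q2 D : ℝ} {b0 : ZI} (hM : 0 < M) (hQ : 2 * M ^ 2 < Q1 ^ 2) (hQ0 : 0 < Q1) (hA2 : 1 ≤ A2)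
    (hb0 : b0 ≠ 0) (hD : Q2 * A2 * nz b0 ≤ D) (hDM : D ≤ 2 * M ^ 2) (Φ : ZI → ℝ) (hΦ : ∀ z, 0 ≤ Φ z) :
    ∑ v ∈ bl Q2, ∑ a ∈ bl A2, al Q1 Q2 v * lw A1 A2 a * Φ (v * a * b0) ≤
      Real.log A2 * (4 * ∑ z ∈ bl D, Φ z) := by
  classical
  set Φ' : ZI → ℝ := fun z => if z ∈ bl D then Φ z else 0 with hΦ'
  have hΦ0 : ∀ z, 0 ≤ Φ' z := by
    intro z
    rw [hΦ']
    simp only
    split_ifs
    · exact hΦ z
    · exact le_rfl
  have hlA : 0 ≤ Real.log A2 := Real.log_nonneg hA2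
  have hb1 := one_le_nz hb0
  have e1 : ∀ v ∈ bl Q2, ∀ a ∈ bl A2, al Q1 Q2 v * lw A1 A2 a * Φ (v * a * b0) ≤
      Real.log A2 * (al Q1 Q2 v * Φ' ((a * b0) * v)) := by
    intro v hv a ha
    rw [mem_bl] at hv ha
    have hmem : v * a * b0 ∈ bl D := by
      rw [mem_bl, nz_mul, nz_mul]
      refine ⟨mul_ne_zero (mul_ne_zero hv.1 ha.1) hb0, le_trans ?_ hD⟩
      have := nz_nonneg v
      have := nz_nonneg a
      have : nz v * nz a ≤ Q2 * A2 := mul_le_mul hv.2 ha.2 (nz_nonneg a) (by linarith)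
      exact mul_le_mul_of_nonneg_right this (nz_nonneg b0)
    have e2 : Φ' ((a * b0) * v) = Φ (v * a * b0) := by
      rw [hΦ', show (a * b0) * v = v * a * b0 by ring]
      simp only
      rw [if_pos hmem]
    rw [e2]
    have h1 := lw_le (A1 := A1) hA2 a
    have h2 := al_nonneg Q1 Q2 v
    have h3 := hΦ (v * a * b0)
    calc al Q1 Q2 v * lw A1 A2 a * Φ (v * a * b0) = lw A1 A2 a * (al Q1 Q2 v * Φ (v * a * b0)) := by ring
      _ ≤ Real.log A2 * (al Q1 Q2 v * Φ (v * a * b0)) := by gcongr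
  refine (sum_le_sum fun v hv => sum_le_sum fun a ha => e1 v hv a ha).trans ?_
  have e3 : ∑ v ∈ bl Q2, ∑ a ∈ bl A2, Real.log A2 * (al Q1 Q2 v * Φ' ((a * b0) * v)) =
      Real.log A2 * ∑ v ∈ bl Q2, ∑ a ∈ bl A2, al Q1 Q2 v * Φ' ((a * b0) * v) := by
    rw [mul_sum]
    apply sum_congr rfl
    intro v _
    rw [mul_sum]
  rw [e3]
  apply mul_le_mul_of_nonneg_left _ hlA
  -- enlarge the ranges
  have e4 : ∑ v ∈ bl Q2, ∑ a ∈ bl A2, al Q1 Q2 v * Φ' ((a * b0) * v) ≤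
      ∑ v ∈ bl D, ∑ w ∈ bl D, al Q1 Q2 v * Φ' (w * v) := by
    have hQD : Q2 ≤ D ∨ ∀ v ∈ bl Q2, False := by
      by_cases h : (bl Q2).Nonempty
      · left
        obtain ⟨v, hv⟩ := h
        rw [mem_bl] at hv
        have h1 := one_le_nz hv.1
        have h2 : 1 ≤ Q2 := by linarith
        have h3 : Q2 * 1 * 1 ≤ Q2 * A2 * nz b0 := by gcongr
        linarith
      · right
        intro v hv
        exact h ⟨v, hv⟩
    rcases hQD with hQD | hQD
    · have hsub : bl Q2 ⊆ bl D := bl_mono hQD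
      refine le_trans ?_ (sum_le_sum_of_subset_of_nonneg hsub ?_)
      · apply sum_le_sum
        intro v hv
        have hinj : Set.InjOn (fun a : ZI => a * b0) ((bl A2 : Finset ZI) : Set ZI) :=
          fun a _ b _ h => mul_right_cancel₀ hb0 h
        rw [← sum_image (f := fun w => al Q1 Q2 v * Φ' (w * v)) hinj]
        have hv' := (mem_bl _ _).1 hv
        have hv1 := one_le_nz hv'.1
        apply sum_le_sum_of_subset_of_nonneg
        · intro w hw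
          rw [mem_image] at hw
          obtain ⟨a, ha, rfl⟩ := hw
          rw [mem_bl] at ha
          rw [mem_bl, nz_mul]
          refine ⟨mul_ne_zero ha.1 hb0, ?_⟩
          have hQ21 : 1 ≤ Q2 := by linarith
          calc nz a * nz b0 ≤ A2 * nz b0 := mul_le_mul_of_nonneg_right ha.2 (nz_nonneg b0)
            _ = 1 * (A2 * nz b0) := by ring
            _ ≤ Q2 * (A2 * nz b0) := mul_le_mul_of_nonneg_right hQ21 (by positivity)
            _ = Q2 * A2 * nz b0 := by ring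
            _ ≤ D := hD
        · intro w _ _
          exact mul_nonneg (al_nonneg _ _ _) (hΦ0 _)
      · intro v _ _
        exact sum_nonneg fun w _ => mul_nonneg (al_nonneg _ _ _) (hΦ0 _)
    · rw [sum_eq_zero (fun v hv => (hQD v hv).elim)]
      exact sum_nonneg fun v _ => sum_nonneg fun w _ => mul_nonneg (al_nonneg _ _ _) (hΦ0 _)
  refine e4.trans ?_
  rw [sum_comm, regroup (Z := bl D) (al Q1 Q2) Φ' (fun w hw => ((mem_bl _ _).1 hw).1)]
  · rw [mul_sum]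
    apply sum_le_sum
    intro z hz
    have hz' := (mem_bl _ _).1 hz
    have h1 := ds_al_le (Q2 := Q2) hM hQ hQ0 hz'.1 (hz'.2.trans hDM)
    have h2 : Φ' z = Φ z := by
      rw [hΦ']
      simp only
      rw [if_pos hz]
    rw [h2]
    have := hΦ z
    nlinarith
  · intro z hz
    have hz' := (mem_bl _ _).1 hz
    refine ⟨hz'.1, fun w hw => ?_⟩
    rw [mem_bl]
    refine ⟨?_, (nz_le_of_dvd hz'.1 hw).trans hz'.2⟩
    rintro rfl
    exact hz'.1 (zero_dvd_iff.1 hw)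
  · intro z hz
    by_contra h
    apply hz
    rw [hΦ']
    simp only
    rw [if_neg h]

/-- the weights over the multiples of `b0` on average over `l` -/
theorem XX_avg {M A1 A2 Q1 Q2 X L D E : ℝ} {b0 : ZI} (hM : 3 ≤ M) (hQ : 2 * M ^ 2 < Q1 ^ 2) (hQ0 : 0 < Q1)
    (hA2 : 1 ≤ A2) (hA2M : A2 ≤ M) (hAQ : A2 ≤ Q1) (hb0 : b0 ≠ 0) (hcb : ct b0 = 1)
    (hlw : ∀ a, lw A1 A2 a ≠ 0 → Nat.Coprime (Zsqrtd.norm a).natAbs (Zsqrtd.norm b0).natAbs)
    (hal : ∀ v, al Q1 Q2 v ≠ 0 → Nat.Coprime (Zsqrtd.norm v).natAbs (Zsqrtd.norm b0).natAbs)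
    (hD : Q2 * A2 * nz b0 ≤ D) (hDM : D ≤ 2 * M ^ 2)
    (hti : ∀ lam : ℤ → ℝ, Lm L lam →
      ∑ a ∈ bl D, |∑ l ∈ Icc 1 ⌊L⌋, lam l * (nm X a l - 2 * X * (kap l a / nz a))| ≤ E) :
    ∑ l ∈ Icc 1 ⌊L⌋, |XX M A1 A2 Q1 Q2 X b0 l - 2 * X * Gc M A1 A2 Q1 Q2 / nz b0| ≤ E := by
  classical
  have hy := one_le_log hM
  have cop : ∀ a b : ZI, Nat.Coprime (Zsqrtd.norm a).natAbs (Zsqrtd.norm b).natAbs → IsCoprime a b := by
    intro a b h
    have h7 := (Nat.isCoprime_iff_coprime.2 h)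
    have h8 := h7.map (Int.castRingHom ZI)
    have h9 : IsCoprime (((Zsqrtd.norm a).natAbs : ℕ) : ZI) (((Zsqrtd.norm b).natAbs : ℕ) : ZI) := by simpa using h8
    rw [← mul_star_self a, ← mul_star_self b] at h9
    exact IsCoprime.of_mul_left_left (IsCoprime.of_mul_right_left h9)
  apply dual
  intro lam hlam
  have e1 : ∀ l ∈ Icc 1 ⌊L⌋, lam l * (XX M A1 A2 Q1 Q2 X b0 l - 2 * X * Gc M A1 A2 Q1 Q2 / nz b0) =
      (∑ v ∈ bl Q2, ∑ a ∈ bl A2, al Q1 Q2 v * lw A1 A2 a *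
        (lam l * (nm X (v * a * b0) l - 2 * X * (kap l (v * a * b0) / nz (v * a * b0))))) / (12 * Real.log M) := by
    intro l hl
    rw [mem_Icc] at hl
    rw [XX_eq hAQ (fun a ha => cop _ _ (hlw a ha)) (fun v hv => cop _ _ (hal v hv)) hl.1]
    have e2 : 2 * X * Gc M A1 A2 Q1 Q2 / nz b0 =
        (∑ v ∈ bl Q2, ∑ a ∈ bl A2, al Q1 Q2 v * lw A1 A2 a * (2 * X * (kap l (v * a * b0) / nz (v * a * b0)))) /
          (12 * Real.log M) := by
      unfold Gc
      rw [sum_mul_sum]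
      have e3 : ∀ v ∈ bl Q2, ∀ a ∈ bl A2, al Q1 Q2 v * lw A1 A2 a * (2 * X * (kap l (v * a * b0) / nz (v * a * b0))) =
          2 * X / nz b0 * (al Q1 Q2 v / nz v * (lw A1 A2 a / nz a)) := by
        intro v hv a ha
        by_cases h1 : al Q1 Q2 v = 0
        · rw [h1]
          simp
        by_cases h2 : lw A1 A2 a = 0
        · rw [h2]
          simp
        obtain ⟨p1, p2, p3⟩ := al_ne h1
        obtain ⟨p4, p5, p6⟩ := lw_ne h2
        have hva : Nat.Coprime (Zsqrtd.norm v).natAbs (Zsqrtd.norm a).natAbs := by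
          rw [Nat.coprime_primes p1 p4]
          intro h
          rw [nz_nat] at p2
          rw [nz_nat] at p6
          rw [h] at p2
          linarith
        have hct : ct (v * a * b0) = 1 := by
          apply ct_mul (ct_mul (ct_of_prime p1) (ct_of_prime p4) hva) hcb
          rw [Zsqrtd.norm_mul, Int.natAbs_mul]
          exact Nat.Coprime.mul_left (hal v h1) (hlw a h2)
        unfold kap
        rw [hct, if_pos (by simp), nz_mul, nz_mul]
        have := nz_pos ((mem_bl _ _).1 hv).1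
        have := nz_pos ((mem_bl _ _).1 ha).1
        have := nz_pos hb0
        field_simp
        simp
      rw [sum_congr rfl fun v hv => sum_congr rfl fun a ha => e3 v hv a ha]
      simp only [← mul_sum]
      ring
    rw [e2, ← sub_div, mul_div_assoc', ← sum_sub_distrib, mul_sum]
    congr 1
    apply sum_congr rfl
    intro v _
    rw [← sum_sub_distrib, mul_sum]
    apply sum_congr rfl
    intro a _
    ring
  rw [sum_congr rfl e1, ← sum_div, abs_div, abs_of_pos (show 0 < 12 * Real.log M by positivity),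
    div_le_iff₀ (by positivity)]
  have e4 : ∑ l ∈ Icc 1 ⌊L⌋, ∑ v ∈ bl Q2, ∑ a ∈ bl A2, al Q1 Q2 v * lw A1 A2 a *
        (lam l * (nm X (v * a * b0) l - 2 * X * (kap l (v * a * b0) / nz (v * a * b0)))) =
      ∑ v ∈ bl Q2, ∑ a ∈ bl A2, al Q1 Q2 v * lw A1 A2 a *
        ∑ l ∈ Icc 1 ⌊L⌋, (lam l * (nm X (v * a * b0) l - 2 * X * (kap l (v * a * b0) / nz (v * a * b0)))) := by
    rw [sum_comm]
    apply sum_congr rfl
    intro v _
    rw [sum_comm]
    apply sum_congr rfl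
    intro a _
    rw [mul_sum]
  rw [e4]
  have e5 : |∑ v ∈ bl Q2, ∑ a ∈ bl A2, al Q1 Q2 v * lw A1 A2 a *
        ∑ l ∈ Icc 1 ⌊L⌋, (lam l * (nm X (v * a * b0) l - 2 * X * (kap l (v * a * b0) / nz (v * a * b0))))| ≤
      ∑ v ∈ bl Q2, ∑ a ∈ bl A2, al Q1 Q2 v * lw A1 A2 a *
        |∑ l ∈ Icc 1 ⌊L⌋, (lam l * (nm X (v * a * b0) l - 2 * X * (kap l (v * a * b0) / nz (v * a * b0))))| := by
    refine (abs_sum_le_sum_abs _ _).trans (sum_le_sum fun v _ => ?_)
    refine (abs_sum_le_sum_abs _ _).trans (sum_le_sum fun a _ => ?_)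
    rw [abs_mul, abs_of_nonneg (mul_nonneg (al_nonneg _ _ _) (lw_nonneg _ _ _))]
  refine e5.trans ?_
  refine (group4 (by linarith) hQ hQ0 hA2 hb0 hD hDM
    (fun z => |∑ l ∈ Icc 1 ⌊L⌋, (lam l * (nm X z l - 2 * X * (kap l z / nz z)))|) (fun z => abs_nonneg _)).trans ?_
  have h1 := hti lam hlam
  have h2 : Real.log A2 ≤ Real.log M := Real.log_le_log (by linarith) hA2M
  have h3 : 0 ≤ Real.log A2 := Real.log_nonneg hA2
  have h4 : 0 ≤ E := le_trans (sum_nonneg fun _ _ => abs_nonneg _) h1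
  calc Real.log A2 * (4 * ∑ z ∈ bl D, |∑ l ∈ Icc 1 ⌊L⌋, (lam l * (nm X z l - 2 * X * (kap l z / nz z)))|) ≤
        Real.log M * (4 * E) := by gcongr
    _ ≤ E * (12 * Real.log M) := by nlinarith

end Pool.Agent.J4.H69
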