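import Pool.Agent.J4.H69.UBa
import Mathlib.NumberTheory.ArithmeticFunction.Moebius

/-!
# The weight over coprime pairs
-/

set_option autoImplicit false

namespace Pool.Agent.J4.H69

open Finset Filter Topology
open Pool.Agent.N782.GN
open Pool.Agent.N855.GN (Dv mem_Dv logpow nz_one_le one_le_log)
open Pool.Agent.N277.GN (ct_nat_mul abs_be_le card_bl nz_pos nz_natCast)
open Pool.Agent.H304R3.HK (UH bb LamK CS)
open Pool.Agent.N458.GN (smul_mk zi_ne)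

theorem sum_mu_div (n : ℕ) (hn : n ≠ 0) : ∑ d ∈ n.divisors, (ArithmeticFunction.moebius d : ℝ) = if n = 1 then 1 else 0 := by
  have h1 := ArithmeticFunction.moebius_mul_coe_zeta
  have h2 : ((ArithmeticFunction.moebius * (ArithmeticFunction.zeta : ArithmeticFunction ℤ)) n) =
      (1 : ArithmeticFunction ℤ) n := by rw [h1]
  rw [ArithmeticFunction.coe_mul_zeta_apply, ArithmeticFunction.one_apply] at h2
  have h3 : ((∑ d ∈ n.divisors, ArithmeticFunction.moebius d : ℤ) : ℝ) = ((if n = 1 then 1 else 0 : ℤ) : ℝ) := by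
    rw [h2]
  push_cast at h3
  rw [h3]

theorem sum_mu_phi {n : ℕ} (hn : 0 < n) :
    ∑ d ∈ n.divisors, (ArithmeticFunction.moebius d : ℝ) / d = (n.totient : ℝ) / n := by
  have h1 := (ArithmeticFunction.sum_eq_iff_sum_mul_moebius_eq (R := ℝ) (f := fun m => (m.totient : ℝ))
    (g := fun m => (m : ℝ))).1 (by
      intro m _
      have := Nat.sum_totient m
      exact_mod_cast this) n hn
  have hn0 : (n : ℝ) ≠ 0 := by exact_mod_cast hn.ne'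
  rw [← h1, Nat.sum_divisorsAntidiagonal (f := fun d e => (ArithmeticFunction.moebius d : ℝ) * (e : ℝ)), sum_div]
  apply sum_congr rfl
  intro d hd
  have hdn := Nat.dvd_of_mem_divisors hd
  have hd0 : (d : ℝ) ≠ 0 := by
    have := Nat.pos_of_mem_divisors hd
    exact_mod_cast this.ne'
  rw [Nat.cast_div hdn hd0]
  field_simp

/-- the sum over the coprime pairs in the multiples of `b0` -/
noncomputable def UU1 (M A1 A2 Q1 Q2 : ℝ) (b0 : ZI) (l : ℤ) : ℝ := by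
  classical
  exact ∑ m ∈ Icc ⌈-M⌉ ⌊M⌋, if ct (⟨l, m⟩ : ZI) = 1 ∧ b0 ∣ (⟨l, m⟩ : ZI) then Wt M A1 A2 Q1 Q2 (⟨l, m⟩ : ZI) else 0

/-- the sum over the multiples of `e` -/
noncomputable def Yy (M A1 A2 Q1 Q2 : ℝ) (b0 : ZI) (e l' : ℕ) : ℝ := by
  classical
  exact ∑ m ∈ Icc ⌈-(M / e)⌉ ⌊M / e⌋, if b0 ∣ ((e : ℕ) : ZI) * (⟨(l' : ℤ), m⟩ : ZI) then
    Wt M A1 A2 Q1 Q2 (((e : ℕ) : ZI) * (⟨(l' : ℤ), m⟩ : ZI)) else 0

theorem sum_mult {M : ℝ} {e : ℕ} (he : 1 ≤ e) (F : ℤ → ℝ) :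
    ∑ m ∈ (Icc ⌈-M⌉ ⌊M⌋).filter (fun m => (e : ℤ) ∣ m), F m = ∑ m ∈ Icc ⌈-(M / e)⌉ ⌊M / e⌋, F (e * m) := by
  classical
  have he0 : (0 : ℝ) < e := by exact_mod_cast he
  have he1 : (e : ℤ) ≠ 0 := by exact_mod_cast (show e ≠ 0 by omega)
  symm
  apply sum_nbij' (i := fun m => (e : ℤ) * m) (j := fun m => m / (e : ℤ))
  · intro m hm
    rw [mem_Icc, Int.ceil_le, Int.le_floor] at hm
    rw [mem_filter, mem_Icc, Int.ceil_le, Int.le_floor]
    obtain ⟨h1, h2⟩ := hm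
    rw [← neg_div, div_le_iff₀ he0] at h1
    rw [le_div_iff₀ he0] at h2
    refine ⟨⟨?_, ?_⟩, dvd_mul_right _ _⟩
    · push_cast
      linarith
    · push_cast
      linarith
  · intro m hm
    rw [mem_filter, mem_Icc, Int.ceil_le, Int.le_floor] at hm
    obtain ⟨⟨h1, h2⟩, j, rfl⟩ := hm
    rw [Int.mul_ediv_cancel_left _ he1, mem_Icc, Int.ceil_le, Int.le_floor]
    push_cast at h1 h2
    refine ⟨?_, ?_⟩
    · rw [← neg_div, div_le_iff₀ he0]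
      linarith
    · rw [le_div_iff₀ he0]
      linarith
  · intro m _
    exact Int.mul_ediv_cancel_left _ he1
  · intro m hm
    rw [mem_filter] at hm
    exact Int.mul_ediv_cancel' hm.2
  · intro m _
    rfl

theorem UU1_eq {M A1 A2 Q1 Q2 : ℝ} {b0 : ZI} {l : ℕ} (hl : 1 ≤ l) :
    UU1 M A1 A2 Q1 Q2 b0 l = ∑ e ∈ l.divisors, (ArithmeticFunction.moebius e : ℝ) * Yy M A1 A2 Q1 Q2 b0 e (l / e) := by
  classical
  set F : ℤ → ℝ := fun m => if b0 ∣ (⟨(l : ℤ), m⟩ : ZI) then Wt M A1 A2 Q1 Q2 (⟨(l : ℤ), m⟩ : ZI) else 0 with hF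
  have h1 : ∀ m ∈ Icc ⌈-M⌉ ⌊M⌋, (if ct (⟨(l : ℤ), m⟩ : ZI) = 1 ∧ b0 ∣ (⟨(l : ℤ), m⟩ : ZI) then
      Wt M A1 A2 Q1 Q2 (⟨(l : ℤ), m⟩ : ZI) else 0) =
      ∑ e ∈ l.divisors, if (e : ℤ) ∣ m then (ArithmeticFunction.moebius e : ℝ) * F m else 0 := by
    intro m _
    have h2 : ct (⟨(l : ℤ), m⟩ : ZI) = Nat.gcd l m.natAbs := by
      unfold ct
      rfl
    have h3 : Nat.gcd l m.natAbs ≠ 0 := by
      intro h
      have := Nat.eq_zero_of_gcd_eq_zero_left h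
      omega
    have h4 : ∑ e ∈ l.divisors, (if (e : ℤ) ∣ m then (ArithmeticFunction.moebius e : ℝ) * F m else 0) =
        (∑ e ∈ (Nat.gcd l m.natAbs).divisors, (ArithmeticFunction.moebius e : ℝ)) * F m := by
      rw [← sum_filter, sum_mul]
      apply sum_congr _ fun _ _ => rfl
      ext e
      rw [mem_filter, Nat.mem_divisors, Nat.mem_divisors, Nat.dvd_gcd_iff, ← Int.natCast_dvd]
      constructor
      · rintro ⟨⟨h5, h6⟩, h7⟩
        exact ⟨⟨h5, h7⟩, h3⟩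
      · rintro ⟨⟨h5, h6⟩, h7⟩
        exact ⟨⟨h5, by omega⟩, h6⟩
    rw [h4, sum_mu_div _ h3, h2]
    by_cases h5 : Nat.gcd l m.natAbs = 1
    · rw [if_pos h5, one_mul, hF]
      simp only [h5, true_and]
    · rw [if_neg h5, zero_mul, if_neg fun h => h5 h.1]
  unfold UU1
  rw [sum_congr rfl h1, sum_comm]
  apply sum_congr rfl
  intro e he
  have he1 : 1 ≤ e := Nat.pos_of_mem_divisors he
  obtain ⟨l', rfl⟩ := Nat.dvd_of_mem_divisors he
  rw [← sum_filter, ← mul_sum]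
  congr 1
  rw [sum_mult he1]
  unfold Yy
  apply sum_congr rfl
  intro m _
  rw [hF]
  simp only
  rw [Nat.mul_div_cancel_left _ (by omega), smul_mk]
  push_cast
  rfl

/-- small `e` -/
theorem Yy_small {M A1 A2 Q1 Q2 : ℝ} {b0 : ZI} {e l' : ℕ} (he : 1 ≤ e) (hl' : 1 ≤ l') (heA : (e : ℝ) ≤ A1)
    (hAQ : A1 ≤ Q1) (hcop : Nat.Coprime e (Zsqrtd.norm b0).natAbs) :
    Yy M A1 A2 Q1 Q2 b0 e l' = XX M A1 A2 Q1 Q2 (M / e) b0 l' := by
  classical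
  unfold Yy XX
  apply sum_congr rfl
  intro m _
  have hz : (⟨(l' : ℤ), m⟩ : ZI) ≠ 0 := by
    intro h
    have := congrArg Zsqrtd.re h
    simp at this
    omega
  have he0 := zi_ne e he
  have h1 : IsCoprime b0 ((e : ℕ) : ZI) := by
    have h6 : IsCoprime ((e : ℕ) : ZI) (((Zsqrtd.norm b0).natAbs : ℕ) : ZI) := by
      have h7 := (Nat.isCoprime_iff_coprime.2 hcop)
      have h8 := h7.map (Int.castRingHom ZI)
      simpa using h8
    rw [← mul_star_self b0] at h6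
    exact (IsCoprime.of_mul_right_left h6).symm
  have h2 : b0 ∣ ((e : ℕ) : ZI) * (⟨(l' : ℤ), m⟩ : ZI) ↔ b0 ∣ (⟨(l' : ℤ), m⟩ : ZI) :=
    ⟨fun h => h1.dvd_of_dvd_mul_left h, fun h => h.mul_left _⟩
  have h3 : Wt M A1 A2 Q1 Q2 (((e : ℕ) : ZI) * (⟨(l' : ℤ), m⟩ : ZI)) = Wt M A1 A2 Q1 Q2 (⟨(l' : ℤ), m⟩ : ZI) := by
    unfold Wt
    rw [ds_cop he0 hz, ds_cop he0 hz]
    · intro a ha
      obtain ⟨h5, h6, h7⟩ := lw_ne ha
      exact coprime_small h5 he (by linarith)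
    · intro a ha
      obtain ⟨h5, h6, h7⟩ := al_ne ha
      exact coprime_small h5 he (by linarith)
  by_cases h4 : b0 ∣ (⟨(l' : ℤ), m⟩ : ZI)
  · rw [if_pos (h2.2 h4), if_pos h4, h3]
  · rw [if_neg (fun h => h4 (h2.1 h)), if_neg h4]

theorem card_Icc_le {X : ℝ} (hX : 0 ≤ X) : ((Icc ⌈-X⌉ ⌊X⌋).card : ℝ) ≤ 2 * X + 1 := by
  have h1 : (0 : ℤ) ≤ ⌊X⌋ + 1 - ⌈-X⌉ := by
    have h2 : (0 : ℤ) ≤ ⌊X⌋ := Int.floor_nonneg.2 hX
    have h3 : ⌈-X⌉ ≤ 0 := Int.ceil_le.2 (by push_cast; linarith)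
    omega
  rw [Int.card_Icc]
  have h5 : (((⌊X⌋ + 1 - ⌈-X⌉).toNat : ℕ) : ℝ) = ((⌊X⌋ + 1 - ⌈-X⌉ : ℤ) : ℝ) := by
    exact_mod_cast congrArg (fun t : ℤ => (t : ℝ)) (Int.toNat_of_nonneg h1)
  rw [h5]
  push_cast
  have := Int.floor_le X
  have := Int.le_ceil (-X)
  linarith

/-- all `e` -/
theorem Yy_bd (hm : S_MUB) {M A1 A2 Q1 Q2 : ℝ} {b0 : ZI} {e l' : ℕ} (hM : 3 ≤ M) (hQ : 2 * M ^ 2 < Q1 ^ 2)
    (hQ0 : 0 < Q1) (he : 1 ≤ e) (hl' : 1 ≤ l') (hel : (e : ℝ) * l' ≤ M) :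
    |Yy M A1 A2 Q1 Q2 b0 e l'| ≤ 12 * (M / e) := by
  classical
  have he0 : (0 : ℝ) < e := by exact_mod_cast he
  have hl0 : (1 : ℝ) ≤ l' := by exact_mod_cast hl'
  have h1 : 1 ≤ M / e := by
    rw [le_div_iff₀ he0]
    nlinarith
  unfold Yy
  refine (abs_sum_le_sum_abs _ _).trans ?_
  have h2 : ∀ m ∈ Icc ⌈-(M / e)⌉ ⌊M / e⌋, |if b0 ∣ ((e : ℕ) : ZI) * (⟨(l' : ℤ), m⟩ : ZI) then
    Wt M A1 A2 Q1 Q2 (((e : ℕ) : ZI) * (⟨(l' : ℤ), m⟩ : ZI)) else 0| ≤ 4 := by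
    intro m hm'
    rw [mem_Icc, Int.ceil_le, Int.le_floor] at hm'
    split_ifs
    · rw [abs_of_nonneg (Wt_nonneg (by linarith) _ _ _ _ _)]
      apply Wt_le hm hM hQ hQ0
      · apply mul_ne_zero (zi_ne e he)
        intro h
        have := congrArg Zsqrtd.re h
        simp at this
        omega
      · rw [nz_mul, nz_natCast, nz_eq]
        simp only [Int.cast_natCast]
        have h3 : ((e : ℝ) * l') ^ 2 ≤ M ^ 2 := by gcongr
        have h4 : ((e : ℝ) * m) ^ 2 ≤ M ^ 2 := by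
          apply sq_le_sq'
          · have := hm'.1
            rw [← neg_div, div_le_iff₀ he0] at this
            linarith
          · have := hm'.2
            rw [le_div_iff₀ he0] at this
            linarith
        nlinarith
    · rw [abs_zero]
      norm_num
  refine (sum_le_sum h2).trans ?_
  rw [sum_const, nsmul_eq_mul]
  have := card_Icc_le (show 0 ≤ M / e by positivity)
  linarith

/-- the comparison for one `l` -/
theorem UU1_main (hm : S_MUB) {M A1 A2 Q1 Q2 E : ℝ} {b0 : ZI} {l : ℕ} (hM : 3 ≤ M) (hQ : 2 * M ^ 2 < Q1 ^ 2)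
    (hQ0 : 0 < Q1) (hl : 1 ≤ l) (hlM : (l : ℝ) ≤ M) (hEA : E ≤ A1) (hAQ : A1 ≤ Q1) (hb0 : b0 ≠ 0)
    (hG : 0 ≤ Gc M A1 A2 Q1 Q2) (hcop : Nat.Coprime l (Zsqrtd.norm b0).natAbs) :
    |UU1 M A1 A2 Q1 Q2 b0 l - 2 * M * Gc M A1 A2 Q1 Q2 / nz b0 * ((l.totient : ℝ) / l)| ≤
      ∑ e ∈ l.divisors, if (e : ℝ) ≤ E then
        |XX M A1 A2 Q1 Q2 (M / e) b0 ((l / e : ℕ) : ℤ) - 2 * (M / e) * Gc M A1 A2 Q1 Q2 / nz b0|
        else (12 + 2 * Gc M A1 A2 Q1 Q2) * (M / e) := by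
  classical
  rw [UU1_eq hl, ← sum_mu_phi (by omega), mul_sum, ← sum_sub_distrib]
  refine (abs_sum_le_sum_abs _ _).trans (sum_le_sum fun e he => ?_)
  have he1 : 1 ≤ e := Nat.pos_of_mem_divisors he
  obtain ⟨l', hl'⟩ := Nat.dvd_of_mem_divisors he
  have hle : l / e = l' := by rw [hl', Nat.mul_div_cancel_left _ (by omega)]
  have hl'1 : 1 ≤ l' := by
    rw [Nat.one_le_iff_ne_zero]
    rintro rfl
    omega
  have he0 : (0 : ℝ) < e := by exact_mod_cast he1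
  have hmu : |(ArithmeticFunction.moebius e : ℝ)| ≤ 1 := by
    have := ArithmeticFunction.abs_moebius_le_one (n := e)
    exact_mod_cast this
  have hb1 := one_le_nz hb0
  set G := Gc M A1 A2 Q1 Q2 with hGdef
  have e1 : (ArithmeticFunction.moebius e : ℝ) * Yy M A1 A2 Q1 Q2 b0 e (l / e) -
      2 * M * G / nz b0 * ((ArithmeticFunction.moebius e : ℝ) / e) =
      (ArithmeticFunction.moebius e : ℝ) * (Yy M A1 A2 Q1 Q2 b0 e (l / e) - 2 * (M / e) * G / nz b0) := by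
    ring
  rw [e1, abs_mul, hle]
  have e2 : |(ArithmeticFunction.moebius e : ℝ)| * |Yy M A1 A2 Q1 Q2 b0 e l' - 2 * (M / e) * G / nz b0| ≤
      |Yy M A1 A2 Q1 Q2 b0 e l' - 2 * (M / e) * G / nz b0| := mul_le_of_le_one_left (abs_nonneg _) hmu
  refine e2.trans ?_
  split_ifs with hE
  · rw [Yy_small he1 hl'1 (hE.trans hEA) hAQ]
    exact Nat.Coprime.coprime_dvd_left (Nat.dvd_of_mem_divisors he) hcop
  · refine (abs_sub _ _).trans ?_
    have h1 := Yy_bd (b0 := b0) (A1 := A1) (A2 := A2) (Q2 := Q2) hm hM hQ hQ0 he1 hl'1 (by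
      have : ((e * l' : ℕ) : ℝ) ≤ M := by rw [← hl']; exact hlM
      push_cast at this
      exact this)
    have h2 : |2 * (M / e) * G / nz b0| ≤ 2 * G * (M / e) := by
      rw [abs_of_nonneg (by positivity), div_le_iff₀ (by linarith)]
      have : 0 ≤ 2 * (M / e) * G := by positivity
      nlinarith
    linarith

/-- sums over `l` and its divisors -/
theorem div_swap (N : ℕ) (g : ℕ → ℕ → ℝ) :
    ∑ l ∈ Icc 1 N, ∑ e ∈ l.divisors, g e (l / e) = ∑ e ∈ Icc 1 N, ∑ l' ∈ Icc 1 (N / e), g e l' := by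
  classical
  have h1 : ∑ l ∈ Icc 1 N, ∑ e ∈ l.divisors, g e (l / e) =
      ∑ e ∈ Icc 1 N, ∑ l ∈ (Icc 1 N).filter (fun l => e ∣ l), g e (l / e) := by
    apply sum_comm'
    intro l e
    rw [mem_Icc, mem_filter, mem_Icc, mem_Icc, Nat.mem_divisors]
    constructor
    · rintro ⟨⟨h1, h2⟩, h3, h4⟩
      have h5 := Nat.le_of_dvd (by omega) h3
      have h6 := Nat.pos_of_dvd_of_pos h3 (by omega)
      exact ⟨⟨⟨h1, h2⟩, h3⟩, h6, by omega⟩
    · rintro ⟨⟨⟨h1, h2⟩, h3⟩, h4, h5⟩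
      exact ⟨⟨h1, h2⟩, h3, by omega⟩
  rw [h1]
  apply sum_congr rfl
  intro e he
  rw [mem_Icc] at he
  symm
  apply sum_nbij' (i := fun l' => e * l') (j := fun l => l / e)
  · intro l' hl'
    rw [mem_Icc] at hl'
    rw [mem_filter, mem_Icc]
    refine ⟨⟨Nat.mul_pos (by omega) (by omega), ?_⟩, dvd_mul_right _ _⟩
    have := Nat.mul_le_mul_left e hl'.2
    exact this.trans (Nat.mul_div_le N e)
  · intro l hl
    rw [mem_filter, mem_Icc] at hl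
    rw [mem_Icc]
    refine ⟨?_, Nat.div_le_div_right hl.1.2⟩
    exact Nat.div_pos (Nat.le_of_dvd (by omega) hl.2) (by omega)
  · intro l' _
    exact Nat.mul_div_cancel_left _ (by omega)
  · intro l hl
    rw [mem_filter] at hl
    exact Nat.mul_div_cancel' hl.2
  · intro l' _
    rw [Nat.mul_div_cancel_left _ (by omega)]

theorem sum_int_nat (L : ℝ) (hL : 0 ≤ L) (F : ℤ → ℝ) : ∑ l ∈ Icc (1 : ℤ) ⌊L⌋, F l = ∑ l ∈ Icc 1 ⌊L⌋₊, F (l : ℤ) := by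
  rw [Pool.Agent.N458.GN.Icc_floor hL]
  symm
  apply sum_nbij' (i := fun l : ℕ => (l : ℤ)) (j := fun l : ℤ => l.toNat)
  · intro l hl
    rw [mem_Icc] at hl ⊢
    omega
  · intro l hl
    rw [mem_Icc] at hl ⊢
    omega
  · intro l _
    simp
  · intro l hl
    rw [mem_Icc] at hl
    exact Int.toNat_of_nonneg (by omega)
  · intro l _
    rfl

end Pool.Agent.J4.H69
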